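import Mathlib

set_option autoImplicit false

open Set Filter Topology

namespace Pool.Agent.Lib.MP_5e7226_co

variable {V : Type*} [NormedAddCommGroup V] [NormedSpace ℝ V]

/-- The face of `K` with outer normal functional `f`: the points of `K` where `f` is maximal. -/
def face (K : Set V) (f : V →L[ℝ] ℝ) : Set V := {x | x ∈ K ∧ ∀ y ∈ K, f y ≤ f x}

/-- `Sep K N`: there are `N` linear functionals such that every face of `K` (with nonzero normal)
lies in the open positive side of one of them. -/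
def Sep (K : Set V) (N : ℕ) : Prop :=
  ∃ w : Fin N → (V →L[ℝ] ℝ), ∀ f : V →L[ℝ] ℝ, f ≠ 0 → ∃ i, ∀ x ∈ face K f, 0 < w i x

lemma face_smul (K : Set V) (f : V →L[ℝ] ℝ) {c : ℝ} (hc : 0 < c) : face K (c • f) = face K f := by
  ext x
  simp only [face, Set.mem_ofPred_eq, FunLike.coe_smul, Pi.smul_apply, smul_eq_mul]
  constructor
  · rintro ⟨hx, h⟩
    exact ⟨hx, fun y hy => le_of_mul_le_mul_left (h y hy) hc⟩
  · rintro ⟨hx, h⟩
    exact ⟨hx, fun y hy => mul_le_mul_of_nonneg_left (h y hy) hc.le⟩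

lemma Sep.of_fintype {K : Set V} {ι : Type*} [Fintype ι] (w : ι → (V →L[ℝ] ℝ))
    (h : ∀ f : V →L[ℝ] ℝ, f ≠ 0 → ∃ i, ∀ x ∈ face K f, 0 < w i x) {N : ℕ}
    (hN : Fintype.card ι ≤ N) : Sep K N := by
  classical
  let e := Fintype.equivFin ι
  refine ⟨fun j => if hj : (j : ℕ) < Fintype.card ι then w (e.symm ⟨j, hj⟩) else 0, ?_⟩
  intro f hf
  obtain ⟨i, hi⟩ := h f hf
  refine ⟨⟨(e i : ℕ), lt_of_lt_of_le (e i).2 hN⟩, ?_⟩
  intro x hx
  have := hi x hx
  simpa using this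

lemma Sep.mono {K : Set V} {N M : ℕ} (h : Sep K N) (hNM : N ≤ M) : Sep K M := by
  obtain ⟨w, hw⟩ := h
  exact Sep.of_fintype w hw (by simpa using hNM)

/-- continuity of evaluation -/
lemma continuous_eval : Continuous (fun p : (V →L[ℝ] ℝ) × V => p.1 p.2) :=
  isBoundedBilinearMap_apply.continuous

/-- The basic compactness principle: a property which holds near every point of a face for nearby
functionals and nearby parameters holds on all faces with nearby normals. -/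
lemma eventually_face {P : Type*} [TopologicalSpace P] {K : Set V} (hK : IsCompact K) (p₀ : P)
    (f₀ : V →L[ℝ] ℝ) (Q : P → (V →L[ℝ] ℝ) → V → Prop)
    (h : ∀ x ∈ face K f₀, ∀ᶠ z : (P × (V →L[ℝ] ℝ)) × V in 𝓝 ((p₀, f₀), x),
      z.2 ∈ face K z.1.2 → Q z.1.1 z.1.2 z.2) :
    ∀ᶠ z : P × (V →L[ℝ] ℝ) in 𝓝 (p₀, f₀), ∀ x ∈ face K z.2, Q z.1 z.2 x := by
  have key : ∀ᶠ z : P × (V →L[ℝ] ℝ) in 𝓝 (p₀, f₀), ∀ x ∈ K, (x ∈ face K z.2 → Q z.1 z.2 x) := by
    apply hK.eventually_forall_of_forall_eventually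
    intro x hx
    by_cases hxf : x ∈ face K f₀
    · exact h x hxf
    · have : ∃ y ∈ K, f₀ x < f₀ y := by
        by_contra hcon
        push Not at hcon
        exact hxf ⟨hx, hcon⟩
      obtain ⟨y, hy, hlt⟩ := this
      have hc1 : Continuous (fun z : (P × (V →L[ℝ] ℝ)) × V => z.1.2 z.2) :=
        continuous_eval.comp ((continuous_snd.comp continuous_fst).prodMk continuous_snd)
      have hc2 : Continuous (fun z : (P × (V →L[ℝ] ℝ)) × V => z.1.2 y) :=
        continuous_eval.comp ((continuous_snd.comp continuous_fst).prodMk continuous_const)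
      have hev : ∀ᶠ z : (P × (V →L[ℝ] ℝ)) × V in 𝓝 ((p₀, f₀), x), z.1.2 z.2 < z.1.2 y :=
        (hc1.continuousAt (x := ((p₀, f₀), x))).eventually_lt
          (hc2.continuousAt (x := ((p₀, f₀), x))) hlt
      filter_upwards [hev] with z hz hzf
      exact absurd (hzf.2 y hy) (not_le.mpr hz)
  filter_upwards [key] with z hz x hx using hz x hx.1 hx

/-- Passing from local to global: if for every nonzero normal `f₀` the family of functionals with
small parameter `ε > 0` handles all nearby normals, then it handles all normals for some `ε`. -/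
lemma exists_eps [FiniteDimensional ℝ V] (P : ℝ → (V →L[ℝ] ℝ) → Prop)
    (hhom : ∀ (ε : ℝ) (f : V →L[ℝ] ℝ) (c : ℝ), 0 < c → P ε f → P ε (c • f))
    (hloc : ∀ f₀ : V →L[ℝ] ℝ, f₀ ≠ 0 →
      ∀ᶠ z : ℝ × (V →L[ℝ] ℝ) in 𝓝 (0, f₀), 0 < z.1 → P z.1 z.2) :
    ∃ ε > 0, ∀ f : V →L[ℝ] ℝ, f ≠ 0 → P ε f := by
  have hcpt : IsCompact (Metric.sphere (0 : V →L[ℝ] ℝ) 1) := by
    have : FiniteDimensional ℝ (V →L[ℝ] ℝ) := inferInstance
    have : ProperSpace (V →L[ℝ] ℝ) := FiniteDimensional.proper ℝ _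
    exact isCompact_sphere _ _
  have h1 : ∀ᶠ ε : ℝ in 𝓝 0, ∀ f ∈ Metric.sphere (0 : V →L[ℝ] ℝ) 1, (0 < ε → P ε f) := by
    apply hcpt.eventually_forall_of_forall_eventually
    intro f hf
    apply hloc f
    rintro rfl
    simp at hf
  have h2 : ∀ᶠ ε : ℝ in 𝓝[>] 0, ∀ f ∈ Metric.sphere (0 : V →L[ℝ] ℝ) 1, (0 < ε → P ε f) :=
    h1.filter_mono nhdsWithin_le_nhds
  obtain ⟨ε, hε, hpos⟩ := (h2.and self_mem_nhdsWithin).exists
  refine ⟨ε, hpos, ?_⟩
  intro f hf
  have hn : 0 < ‖f‖ := norm_pos_iff.mpr hf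
  have hmem : (‖f‖⁻¹ • f) ∈ Metric.sphere (0 : V →L[ℝ] ℝ) 1 := by
    simp [norm_smul, hn.ne']
  have := hhom ε _ ‖f‖ hn (hε _ hmem hpos)
  rwa [smul_smul, mul_inv_cancel₀ hn.ne', one_smul] at this

/-- Uniform version of `Sep`. -/
lemma Sep.uniform [FiniteDimensional ℝ V] {K : Set V} (hK : IsCompact K) {N : ℕ} (h : Sep K N) :
    ∃ w : Fin N → (V →L[ℝ] ℝ), ∃ ε > 0, ∀ f : V →L[ℝ] ℝ, f ≠ 0 → ∃ i, ∀ x ∈ face K f, ε < w i x := by
  obtain ⟨w, hw⟩ := h
  refine ⟨w, ?_⟩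
  apply exists_eps (P := fun ε f => ∃ i, ∀ x ∈ face K f, ε < w i x)
  · rintro ε f c hc ⟨i, hi⟩
    exact ⟨i, by rwa [face_smul K f hc]⟩
  · intro f₀ hf₀
    obtain ⟨i, hi⟩ := hw f₀ hf₀
    have := eventually_face hK (0 : ℝ) f₀ (fun ε _ x => ε < w i x) (by
      intro x hx
      have hlt : (0 : ℝ) < w i x := hi x hx
      have hc1 : Continuous (fun z : (ℝ × (V →L[ℝ] ℝ)) × V => z.1.1) :=
        continuous_fst.comp continuous_fst
      have hc2 : Continuous (fun z : (ℝ × (V →L[ℝ] ℝ)) × V => w i z.2) :=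
        (w i).continuous.comp continuous_snd
      have hev : ∀ᶠ z : (ℝ × (V →L[ℝ] ℝ)) × V in 𝓝 (((0 : ℝ), f₀), x), z.1.1 < w i z.2 :=
        (hc1.continuousAt (x := (((0 : ℝ), f₀), x))).eventually_lt
          (hc2.continuousAt (x := (((0 : ℝ), f₀), x))) hlt
      filter_upwards [hev] with z hz _ using hz)
    filter_upwards [this] with z hz _ using ⟨i, hz⟩

/-- `Sep` is invariant under linear isomorphisms. -/
lemma Sep.image {V' : Type*} [NormedAddCommGroup V'] [NormedSpace ℝ V'] {K : Set V} {N : ℕ}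
    (h : Sep K N) (T : V ≃L[ℝ] V') : Sep (T '' K) N := by
  obtain ⟨w, hw⟩ := h
  refine ⟨fun i => (w i).comp (T.symm : V' →L[ℝ] V), ?_⟩
  intro f hf
  have hf' : f.comp (T : V →L[ℝ] V') ≠ 0 := by
    intro h0
    apply hf
    ext x
    have := congrArg (fun g : V →L[ℝ] ℝ => g (T.symm x)) h0
    simpa using this
  obtain ⟨i, hi⟩ := hw _ hf'
  refine ⟨i, ?_⟩
  rintro x ⟨⟨y, hy, rfl⟩, hmax⟩
  have : y ∈ face K (f.comp (T : V →L[ℝ] V')) := by
    refine ⟨hy, ?_⟩
    intro z hz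
    have := hmax (T z) ⟨z, hz, rfl⟩
    simpa using this
  simpa using hi y this

/-- From `Sep` (for the translate of `K` by `-o`) to the separation property of the problem. -/
theorem sep_to_hyperplanes {d N : ℕ} {K : Set (EuclideanSpace ℝ (Fin d))} (hK : IsCompact K)
    (o : EuclideanSpace ℝ (Fin d)) (h : Sep ((fun x => x - o) '' K) N) :
    ∃ w : Fin N → EuclideanSpace ℝ (Fin d), ∃ b : Fin N → ℝ,
      ∀ u x₀ : EuclideanSpace ℝ (Fin d), u ≠ 0 → x₀ ∈ K →
        (∀ y ∈ K, inner ℝ u y ≤ inner ℝ u x₀) →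
          ∃ i, inner ℝ (w i) o < b i ∧
            ∀ x ∈ K, inner ℝ u x = inner ℝ u x₀ → b i < inner ℝ (w i) x := by
  have hK' : IsCompact ((fun x => x - o) '' K) := hK.image (continuous_id.sub continuous_const)
  obtain ⟨w, ε, hε, hw⟩ := h.uniform hK'
  refine ⟨fun i => (InnerProductSpace.toDual ℝ _).symm (w i),
    fun i => inner ℝ ((InnerProductSpace.toDual ℝ _).symm (w i)) o + ε, ?_⟩
  intro u x₀ hu hx₀ hmax
  have hu' : (InnerProductSpace.toDual ℝ (EuclideanSpace ℝ (Fin d)) u) ≠ 0 := by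
    simpa using hu
  obtain ⟨i, hi⟩ := hw _ hu'
  refine ⟨i, by linarith, ?_⟩
  intro x hx hux
  have hmem : x - o ∈ face ((fun x => x - o) '' K)
      (InnerProductSpace.toDual ℝ (EuclideanSpace ℝ (Fin d)) u) := by
    refine ⟨⟨x, hx, rfl⟩, ?_⟩
    rintro _ ⟨y, hy, rfl⟩
    simp only [InnerProductSpace.toDual_apply_apply, inner_sub_right]
    have := hmax y hy
    linarith
  have := hi _ hmem
  have h2 : (w i) (x - o) = inner ℝ ((InnerProductSpace.toDual ℝ _).symm (w i)) (x - o) := by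
    rw [InnerProductSpace.toDual_symm_apply]
  rw [h2, inner_sub_right] at this
  linarith

end Pool.Agent.Lib.MP_5e7226_co
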