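import Pool.Agent.Lib.MP_5e7226_co.R3Linear

set_option autoImplicit false

open Set Filter Topology

namespace Pool.Agent.Lib.MP_5e7226_co

variable {V : Type*} [NormedAddCommGroup V] [NormedSpace ℝ V]

lemma injective_of_image [FiniteDimensional ℝ V] {K : Set V} (h0 : (0 : V) ∈ interior K)
    {A : V →ₗ[ℝ] V} (hA : A '' K = K) : Function.Injective A := by
  rw [LinearMap.injective_iff_surjective]
  rw [← LinearMap.range_eq_top]
  apply Submodule.eq_top_of_nonempty_interior'
  refine ⟨0, ?_⟩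
  apply interior_mono _ h0
  intro x hx
  rw [← hA] at hx
  obtain ⟨y, _, rfl⟩ := hx
  exact ⟨y, rfl⟩

lemma image_pow {K : Set V} {A : V →ₗ[ℝ] V} (hA : A '' K = K) (k : ℕ) :
    (A ^ k : V →ₗ[ℝ] V) '' K = K := by
  induction k with
  | zero =>
    rw [pow_zero]
    ext x
    simp
  | succ k ih =>
    rw [pow_succ']
    have : ((A * A ^ k : V →ₗ[ℝ] V) : V → V) = A ∘ (A ^ k : V →ₗ[ℝ] V) := by
      ext x; rfl
    rw [this, image_comp, ih, hA]

lemma pbd_of_image [FiniteDimensional ℝ V] {K : Set V} (hK : IsCompact K)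
    (h0 : (0 : V) ∈ interior K) {A : V →ₗ[ℝ] V} (hA : A '' K = K) : PBd A := by
  obtain ⟨ε, hε, hball⟩ := Metric.isOpen_iff.mp isOpen_interior _ h0
  obtain ⟨R, hR⟩ := hK.isBounded.exists_norm_le
  have hR0 : 0 ≤ R := (norm_nonneg _).trans (hR 0 (interior_subset h0))
  have hmem : ∀ x : V, x ≠ 0 → (ε / (2 * ‖x‖)) • x ∈ K := by
    intro x hx
    have hxn : 0 < ‖x‖ := norm_pos_iff.mpr hx
    apply interior_subset
    apply hball
    rw [Metric.mem_ball, dist_zero_right, norm_smul, Real.norm_of_nonneg (by positivity)]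
    have : ε / (2 * ‖x‖) * ‖x‖ = ε / 2 := by field_simp
    rw [this]; linarith
  refine ⟨2 * R / ε + 1, by positivity, ?_⟩
  intro k x
  have hk := image_pow hA k
  have hinj := injective_of_image h0 hk
  have hfin : ∀ t : ℝ, 0 ≤ t → 2 * R / ε * t ≤ (2 * R / ε + 1) * t := by
    intro t ht; nlinarith
  constructor
  · by_cases hx : x = 0
    · rw [hx, map_zero]; simp
    have hxn : 0 < ‖x‖ := norm_pos_iff.mpr hx
    have h1 : (A ^ k) ((ε / (2 * ‖x‖)) • x) ∈ K := by
      rw [← hk]; exact ⟨_, hmem x hx, rfl⟩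
    have h2 := hR _ h1
    rw [map_smul, norm_smul, Real.norm_of_nonneg (by positivity)] at h2
    refine le_trans ?_ (hfin _ hxn.le)
    rw [div_mul_eq_mul_div, div_le_iff₀ (by positivity)] at h2
    rw [div_mul_eq_mul_div, le_div_iff₀ hε]
    linarith
  · by_cases hy : (A ^ k) x = 0
    · have : x = 0 := by
        apply hinj
        rw [hy, map_zero]
      rw [this, map_zero]; simp
    have hyn : 0 < ‖(A ^ k) x‖ := norm_pos_iff.mpr hy
    have h1 := hmem _ hy
    rw [← hk] at h1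
    obtain ⟨z, hz, hz2⟩ := h1
    rw [← map_smul] at hz2
    have h3 : z = (ε / (2 * ‖(A ^ k) x‖)) • x := hinj hz2
    have h2 := hR z hz
    rw [h3, norm_smul, Real.norm_of_nonneg (by positivity)] at h2
    refine le_trans ?_ (hfin _ hyn.le)
    rw [div_mul_eq_mul_div, div_le_iff₀ (by positivity)] at h2
    rw [div_mul_eq_mul_div, le_div_iff₀ hε]
    linarith

theorem sep_of_linear [FiniteDimensional ℝ V] (hdim : Module.finrank ℝ V = 3) {K : Set V}
    (hK : IsCompact K) (hconv : Convex ℝ K) (h0 : (0 : V) ∈ interior K) {A : V →ₗ[ℝ] V}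
    (hA : A '' K = K) (hdet : 0 < LinearMap.det A) (hA2 : A ^ 2 ≠ 1) : Sep K 8 := by
  obtain ⟨Φ, z₀, hz1, hz2, hΦ⟩ := exists_coords hdim (pbd_of_image hK h0 hA) hdet hA2
  let Ψ := Φ.symm.toContinuousLinearEquiv
  have hΨ : ∀ x, Ψ x = Φ.symm x := fun x => rfl
  have hz0 : z₀ ≠ 0 := by
    intro h; rw [h] at hz1; simp at hz1
  have h1 : Sep (Ψ '' K) 8 := by
    apply sep_of_rot (hK.image Ψ.continuous) (hconv.linear_image Ψ.toLinearMap) _ hz1 hz2
    · rintro _ ⟨x, hx, rfl⟩
      have hAx : A x ∈ K := by rw [← hA]; exact ⟨x, hx, rfl⟩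
      refine ⟨A x, hAx, ?_⟩
      rw [hΨ, hΨ]
      have := hΦ (Φ.symm x)
      rw [Φ.apply_symm_apply] at this
      rw [← this, Φ.symm_apply_apply]
    · rintro _ ⟨x, hx, rfl⟩
      rw [← hA] at hx
      obtain ⟨x', hx', rfl⟩ := hx
      refine ⟨x', hx', ?_⟩
      rw [hΨ, hΨ]
      have := hΦ (Φ.symm x')
      rw [Φ.apply_symm_apply] at this
      rw [← this, Φ.symm_apply_apply]
      simp only
      ext1
      · simp only
        rw [← mul_assoc, inv_mul_cancel₀ hz0, one_mul]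
      · rfl
    · have h := Ψ.toHomeomorph.isOpenMap.image_interior_subset K
      apply h
      exact ⟨0, h0, by simp⟩
  have h2 := h1.image Ψ.symm
  have h3 : Ψ.symm '' (Ψ '' K) = K := by
    rw [← image_comp]
    simp
  rwa [h3] at h2

/-- Bodies in three-dimensional space with an affine symmetry. -/
theorem affine_sep {K : Set (EuclideanSpace ℝ (Fin 3))} (hconv : Convex ℝ K) (hK : IsCompact K)
    (o : EuclideanSpace ℝ (Fin 3)) (ho : o ∈ interior K)
    (A : EuclideanSpace ℝ (Fin 3) →ₗ[ℝ] EuclideanSpace ℝ (Fin 3))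
    (hA : (fun x => o + A (x - o)) '' K = K)
    (h : (0 < LinearMap.det A ∧ A ^ 2 ≠ 1) ∨ A ^ 4 ≠ 1) :
    Sep ((fun x => x - o) '' K) 8 := by
  set K₁ : Set (EuclideanSpace ℝ (Fin 3)) := (fun x => x - o) '' K with hK₁
  have hK₁c : IsCompact K₁ := hK.image (continuous_id.sub continuous_const)
  have hK₁v : Convex ℝ K₁ := by
    have h := hconv.translate (-o)
    have h' : (fun z => -o + z) '' K = K₁ := by
      rw [hK₁]
      apply image_congr
      intro x _
      abel
    rwa [h'] at h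
  have hK₁i : (0 : EuclideanSpace ℝ (Fin 3)) ∈ interior K₁ := by
    have h := (Homeomorph.subRight o).isOpenMap.image_interior_subset K
    apply h
    exact ⟨o, ho, by simp⟩
  have hdim : Module.finrank ℝ (EuclideanSpace ℝ (Fin 3)) = 3 := by simp
  have hA₁ : A '' K₁ = K₁ := by
    rw [hK₁]
    conv_rhs => rw [← hA]
    rw [← image_comp, ← image_comp]
    apply image_congr
    intro x _
    simp
  rcases h with ⟨h1, h2⟩ | h2
  · exact sep_of_linear hdim hK₁c hK₁v hK₁i hA₁ h1 h2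
  · have hinj := injective_of_image hK₁i hA₁
    have hdet : LinearMap.det A ≠ 0 := by
      intro h0
      have := LinearMap.bot_lt_ker_of_det_eq_zero h0
      rw [LinearMap.ker_eq_bot.mpr hinj] at this
      exact lt_irrefl _ this
    refine sep_of_linear hdim hK₁c hK₁v hK₁i (A := A ^ 2) (image_pow hA₁ 2) ?_ ?_
    · rw [map_pow]; positivity
    · rw [← pow_mul]; exact h2

theorem affine_sep' {K : Set (EuclideanSpace ℝ (Fin 3))} (hconv : Convex ℝ K) (hK : IsCompact K)
    (o : EuclideanSpace ℝ (Fin 3)) (ho : o ∈ interior K)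
    (A : EuclideanSpace ℝ (Fin 3) →ₗ[ℝ] EuclideanSpace ℝ (Fin 3))
    (hA : (fun x => o + A (x - o)) '' K = K)
    (h : (0 < LinearMap.det A ∧ ∃ x, A (A x) ≠ x) ∨ ∃ x, A (A (A (A x))) ≠ x) :
    Sep ((fun x => x - o) '' K) 8 := by
  apply affine_sep hconv hK o ho A hA
  rcases h with ⟨h1, x, hx⟩ | ⟨x, hx⟩
  · left
    refine ⟨h1, ?_⟩
    intro h2
    apply hx
    have := congrArg (fun g : EuclideanSpace ℝ (Fin 3) →ₗ[ℝ] EuclideanSpace ℝ (Fin 3) => g x) h2
    simpa [pow_succ] using this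
  · right
    intro h2
    apply hx
    have := congrArg (fun g : EuclideanSpace ℝ (Fin 3) →ₗ[ℝ] EuclideanSpace ℝ (Fin 3) => g x) h2
    simpa [pow_succ] using this

end Pool.Agent.Lib.MP_5e7226_co
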