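import Mathlib

set_option autoImplicit false

open Set Filter Topology

namespace Pool.Agent.Lib.MP_5e7226_co

/-- The real dot product of two complex numbers. -/
def dotC (a b : ℂ) : ℝ := a.re * b.re + a.im * b.im

lemma dotC_eq (a b : ℂ) : dotC a b = ((starRingEnd ℂ) a * b).re := by
  simp [dotC, Complex.mul_re]

lemma continuous_dotC : Continuous (fun p : ℂ × ℂ => dotC p.1 p.2) := by
  unfold dotC
  fun_prop

/-- three unit vectors at mutual angles 120 degrees -/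
noncomputable def tri (j : Fin 3) : ℂ :=
  match j with
  | 0 => ⟨1, 0⟩
  | 1 => ⟨-1/2, √3/2⟩
  | 2 => ⟨-1/2, -(√3/2)⟩

lemma sq_norm (z : ℂ) : ‖z‖ ^ 2 = z.re ^ 2 + z.im ^ 2 := by
  rw [← Complex.normSq_eq_norm_sq, Complex.normSq_apply]; ring

lemma tri_norm (j : Fin 3) : (tri j).re ^ 2 + (tri j).im ^ 2 = 1 := by
  have h3 : √3 ^ 2 = 3 := Real.sq_sqrt (by norm_num)
  fin_cases j <;> simp [tri] <;> nlinarith

lemma exists_good (n : ℂ) : ∃ j : Fin 3, ‖n‖ / 2 ≤ dotC (tri j) n := by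
  by_contra hcon
  push Not at hcon
  have h0 := hcon 0
  have h1 := hcon 1
  have h2 := hcon 2
  simp only [tri, dotC] at h0 h1 h2
  have h3 : √3 ^ 2 = 3 := Real.sq_sqrt (by norm_num)
  have h3p : 0 < √3 := Real.sqrt_pos.mpr (by norm_num)
  have hN := sq_norm n
  have hN0 : 0 ≤ ‖n‖ := norm_nonneg n
  set N := ‖n‖
  set p := n.re
  set q := n.im
  have hpN : |p| ≤ N := Complex.abs_re_le_norm n
  have hpN1 := (abs_le.mp hpN).1
  have hpN2 := (abs_le.mp hpN).2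
  -- `√3 * |q| < N + p`
  have ha : √3 * q < N + p := by nlinarith
  have hb : -(√3 * q) < N + p := by nlinarith
  have hc : (√3 * q) ^ 2 < (N + p) ^ 2 := by
    apply sq_lt_sq'
    · linarith
    · linarith
  have hd : 3 * q ^ 2 < (N + p) ^ 2 := by
    have : (√3 * q) ^ 2 = 3 * q ^ 2 := by rw [mul_pow, h3]
    linarith
  have he : 0 < N + p := by
    rcases lt_or_eq_of_le (by linarith : 0 ≤ N + p) with h | h
    · exact h
    · exfalso
      rw [← h] at hd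
      nlinarith [sq_nonneg q]
  nlinarith

lemma pos_of_good {a n y : ℂ} (ha : a.re ^ 2 + a.im ^ 2 = 1) (h1 : ‖n‖ / 2 ≤ dotC a n)
    (h2 : √3 / 2 * ‖n‖ * ‖y‖ < dotC n y) : 0 < dotC a y := by
  have h3 : √3 ^ 2 = 3 := Real.sq_sqrt (by norm_num)
  have h3p : 0 < √3 := Real.sqrt_pos.mpr (by norm_num)
  have hN := sq_norm n
  have hY := sq_norm y
  have hN0 : 0 ≤ ‖n‖ := norm_nonneg n
  have hY0 : 0 ≤ ‖y‖ := norm_nonneg y
  -- nonvanishing
  have hNpos : 0 < ‖n‖ := by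
    rcases lt_or_eq_of_le hN0 with h | h
    · exact h
    · exfalso
      have hn : n = 0 := norm_eq_zero.mp h.symm
      simp [hn, dotC] at h2
  have hYpos : 0 < ‖y‖ := by
    rcases lt_or_eq_of_le hY0 with h | h
    · exact h
    · exfalso
      have hn : y = 0 := norm_eq_zero.mp h.symm
      simp [hn, dotC] at h2
  simp only [dotC] at h1 h2 ⊢
  set N := ‖n‖
  set Y := ‖y‖
  set cross1 := n.re * a.im - n.im * a.re with hcr1
  set cross2 := n.re * y.im - n.im * y.re with hcr2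
  set d1 := a.re * n.re + a.im * n.im with hd1
  set d2 := n.re * y.re + n.im * y.im with hd2
  have e1 : cross1 ^ 2 + d1 ^ 2 = N ^ 2 := by
    rw [hN, hcr1, hd1]
    have : (n.re * a.im - n.im * a.re) ^ 2 + (a.re * n.re + a.im * n.im) ^ 2
        = (a.re ^ 2 + a.im ^ 2) * (n.re ^ 2 + n.im ^ 2) := by ring
    rw [this, ha, one_mul]
  have e2 : cross2 ^ 2 + d2 ^ 2 = N ^ 2 * Y ^ 2 := by
    rw [hN, hY, hcr2, hd2]; ring
  have e3 : N ^ 2 * (a.re * y.re + a.im * y.im) = d1 * d2 + cross1 * cross2 := by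
    rw [hN, hd1, hd2, hcr1, hcr2]; ring
  have hd2pos : 0 < d2 := lt_of_le_of_lt (by positivity) h2
  have hd1pos : 0 < d1 := lt_of_lt_of_le (by positivity) h1
  -- `cross1^2 ≤ 3/4 N^2`, `cross2^2 < 1/4 N^2 Y^2`
  have f1 : cross1 ^ 2 ≤ 3 / 4 * N ^ 2 := by nlinarith
  have f2 : cross2 ^ 2 < 1 / 4 * (N ^ 2 * Y ^ 2) := by
    have : (√3 / 2 * N * Y) ^ 2 < d2 ^ 2 := by
      apply pow_lt_pow_left₀ h2 (by positivity) (by norm_num)
    have h4 : (√3 / 2 * N * Y) ^ 2 = 3 / 4 * (N ^ 2 * Y ^ 2) := by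
      have : (√3 / 2 * N * Y) ^ 2 = √3 ^ 2 / 4 * (N ^ 2 * Y ^ 2) := by ring
      rw [this, h3]
    nlinarith
  have f3 : d1 ^ 2 * d2 ^ 2 > (1 / 4 * N ^ 2) * (3 / 4 * (N ^ 2 * Y ^ 2)) := by
    have g1 : 1 / 4 * N ^ 2 ≤ d1 ^ 2 := by nlinarith
    have g2 : 3 / 4 * (N ^ 2 * Y ^ 2) < d2 ^ 2 := by nlinarith
    have g3 : 0 < 1 / 4 * N ^ 2 := by positivity
    have g4 : 0 < 3 / 4 * (N ^ 2 * Y ^ 2) := by positivity
    calc (1 / 4 * N ^ 2) * (3 / 4 * (N ^ 2 * Y ^ 2)) < (1 / 4 * N ^ 2) * d2 ^ 2 :=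
          mul_lt_mul_of_pos_left g2 g3
      _ ≤ d1 ^ 2 * d2 ^ 2 := mul_le_mul_of_nonneg_right g1 (sq_nonneg _)
  have f4 : cross1 ^ 2 * cross2 ^ 2 ≤ (3 / 4 * N ^ 2) * (1 / 4 * (N ^ 2 * Y ^ 2)) := by
    apply mul_le_mul f1 f2.le (sq_nonneg _) (by positivity)
  have f5 : (cross1 * cross2) ^ 2 < (d1 * d2) ^ 2 := by
    rw [mul_pow, mul_pow]
    have : (3 / 4 * N ^ 2) * (1 / 4 * (N ^ 2 * Y ^ 2)) = (1 / 4 * N ^ 2) * (3 / 4 * (N ^ 2 * Y ^ 2)) := by
      ring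
    linarith
  have f6 : |cross1 * cross2| < |d1 * d2| := sq_lt_sq.mp f5
  have f7 : |d1 * d2| = d1 * d2 := abs_of_pos (mul_pos hd1pos hd2pos)
  have f8 : -(d1 * d2) < cross1 * cross2 := by
    rw [f7] at f6
    exact (abs_lt.mp f6).1
  have f9 : 0 < N ^ 2 * (a.re * y.re + a.im * y.im) := by rw [e3]; linarith
  by_contra hneg
  push Not at hneg
  have : N ^ 2 * (a.re * y.re + a.im * y.im) ≤ 0 :=
    mul_nonpos_of_nonneg_of_nonpos (by positivity) hneg
  linarith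

/-- Rotating by the powers of a primitive root of unity of order at least seven brings any vector
within an angle less than 30 degrees of any other. -/
lemma exists_rot {p : ℕ} (hp : 7 ≤ p) {ζ : ℂ} (hζ : IsPrimitiveRoot ζ p) {n y : ℂ}
    (hn : n ≠ 0) (hy : y ≠ 0) : ∃ k : ℕ, √3 / 2 * ‖n‖ * ‖y‖ < dotC n (ζ ^ k * y) := by
  have hp0 : (0 : ℝ) < p := by
    have : (0 : ℝ) < (7 : ℕ) := by norm_num
    exact lt_of_lt_of_le this (by exact_mod_cast hp)
  have hp7 : (7 : ℝ) ≤ p := by exact_mod_cast hp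
  have hpne : (p : ℂ) ≠ 0 := by
    exact_mod_cast hp0.ne'
  have : NeZero p := ⟨by omega⟩
  set c : ℂ := (starRingEnd ℂ) n * y with hc
  have hc0 : c ≠ 0 := mul_ne_zero (by simpa using hn) hy
  have hcn : ‖c‖ = ‖n‖ * ‖y‖ := by simp [hc]
  set φ : ℝ := Complex.arg c with hφ
  set j : ℤ := round (-φ * p / (2 * Real.pi)) with hj
  have hpi := Real.pi_pos
  have hround : |(-φ * p / (2 * Real.pi)) - j| ≤ 1 / 2 := abs_sub_round _
  have hang : |φ + 2 * Real.pi * j / p| ≤ Real.pi / p := by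
    have h1 : φ + 2 * Real.pi * j / p
        = (-(2 * Real.pi / p)) * ((-φ * p / (2 * Real.pi)) - j) := by
      field_simp
      ring
    rw [h1, abs_mul, abs_neg, abs_of_pos (by positivity)]
    calc 2 * Real.pi / p * |(-φ * p / (2 * Real.pi)) - j|
        ≤ 2 * Real.pi / p * (1 / 2) := by
          apply mul_le_mul_of_nonneg_left hround (by positivity)
      _ = Real.pi / p := by ring
  set ξ : ℂ := Complex.exp ((2 * Real.pi * j / p : ℝ) * Complex.I) with hξ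
  have hξp : ξ ^ p = 1 := by
    rw [hξ, ← Complex.exp_nat_mul]
    rw [Complex.exp_eq_one_iff]
    refine ⟨j, ?_⟩
    push_cast
    field_simp
  obtain ⟨k, _, hk⟩ := hζ.eq_pow_of_pow_eq_one hξp
  refine ⟨k, ?_⟩
  rw [dotC_eq, hk]
  have h2 : (starRingEnd ℂ) n * (ξ * y) = ξ * c := by rw [hc]; ring
  have h3 : c = ‖c‖ * Complex.exp (φ * Complex.I) := (Complex.norm_mul_exp_arg_mul_I c).symm
  have h4 : ξ * c = ‖c‖ * Complex.exp (((φ + 2 * Real.pi * j / p : ℝ) : ℂ) * Complex.I) := by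
    calc ξ * c = ξ * (‖c‖ * Complex.exp (φ * Complex.I)) := by rw [← h3]
      _ = ‖c‖ * (ξ * Complex.exp (φ * Complex.I)) := by ring
      _ = ‖c‖ * Complex.exp (((φ + 2 * Real.pi * j / p : ℝ) : ℂ) * Complex.I) := by
        rw [hξ, ← Complex.exp_add]
        congr 2
        push_cast
        ring
  rw [h2, h4]
  have h5 : ((‖c‖ : ℂ) * Complex.exp (((φ + 2 * Real.pi * j / p : ℝ) : ℂ) * Complex.I)).re
      = ‖c‖ * Real.cos (φ + 2 * Real.pi * j / p) := by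
    rw [Complex.re_ofReal_mul, Complex.exp_ofReal_mul_I_re]
  rw [h5, hcn]
  have h6 : √3 / 2 < Real.cos (φ + 2 * Real.pi * j / p) := by
    rw [← Real.cos_abs, ← Real.cos_pi_div_six]
    apply Real.cos_lt_cos_of_nonneg_of_le_pi_div_two (abs_nonneg _)
    · linarith
    · calc |φ + 2 * Real.pi * j / p| ≤ Real.pi / p := hang
        _ ≤ Real.pi / 7 := by
          apply div_le_div_of_nonneg_left hpi.le (by norm_num) hp7
        _ < Real.pi / 6 := by
          apply div_lt_div_of_pos_left hpi (by norm_num) (by norm_num)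
  have h7 : 0 < ‖n‖ * ‖y‖ := mul_pos (norm_pos_iff.mpr hn) (norm_pos_iff.mpr hy)
  nlinarith

end Pool.Agent.Lib.MP_5e7226_co
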