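import Mathlib
import Pool.Agent.Lib.MP_5e7226_co.Basic
import Pool.Agent.Lib.MP_5e7226_co.Planar

set_option autoImplicit false

open Set Filter Topology

namespace Pool.Agent.Lib.MP_5e7226_co

variable {W : Type*} [NormedAddCommGroup W] [NormedSpace ℝ W]

/-- complex coordinate of a functional -/
noncomputable def nv (f : (ℂ × W) →L[ℝ] ℝ) : ℂ := ⟨f (1, 0), f (Complex.I, 0)⟩

/-- the other coordinate of a functional -/
noncomputable def sv (f : (ℂ × W) →L[ℝ] ℝ) : W →L[ℝ] ℝ :=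
  f.comp (ContinuousLinearMap.inr ℝ ℂ W)

/-- functional with given coordinates -/
noncomputable def mkf (a : ℂ) (τ : W →L[ℝ] ℝ) : (ℂ × W) →L[ℝ] ℝ :=
  (a.re • Complex.reCLM + a.im • Complex.imCLM).comp (ContinuousLinearMap.fst ℝ ℂ W)
    + τ.comp (ContinuousLinearMap.snd ℝ ℂ W)

@[simp] lemma mkf_apply (a : ℂ) (τ : W →L[ℝ] ℝ) (x : ℂ × W) :
    mkf a τ x = dotC a x.1 + τ x.2 := by
  simp [mkf, dotC]

lemma f_apply (f : (ℂ × W) →L[ℝ] ℝ) (x : ℂ × W) : f x = dotC (nv f) x.1 + sv f x.2 := by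
  have h : x = x.1.re • ((1 : ℂ), (0 : W)) + x.1.im • (Complex.I, (0 : W)) + (0, x.2) := by
    ext <;> simp
  conv_lhs => rw [h]
  rw [map_add, map_add, map_smul, map_smul]
  simp [nv, sv, dotC, mul_comm]

lemma eq_mkf (f : (ℂ × W) →L[ℝ] ℝ) : f = mkf (nv f) (sv f) := by
  ext1
  all_goals
    ext1 x
    simp only [ContinuousLinearMap.comp_apply]
    rw [f_apply, mkf_apply]

lemma mkf_zero_of_nv {f : (ℂ × W) →L[ℝ] ℝ} (h : nv f = 0) : f = mkf 0 (sv f) := by
  conv_lhs => rw [eq_mkf f, h]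

lemma continuous_nv : Continuous (nv : ((ℂ × W) →L[ℝ] ℝ) → ℂ) := by
  have h1 : Continuous (fun f : (ℂ × W) →L[ℝ] ℝ => f (1, 0)) :=
    continuous_eval.comp (continuous_id.prodMk continuous_const)
  have h2 : Continuous (fun f : (ℂ × W) →L[ℝ] ℝ => f (Complex.I, 0)) :=
    continuous_eval.comp (continuous_id.prodMk continuous_const)
  have : (nv : ((ℂ × W) →L[ℝ] ℝ) → ℂ)
      = fun f => ((f (1, 0) : ℝ) : ℂ) + ((f (Complex.I, 0) : ℝ) : ℂ) * Complex.I := by
    ext f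
    apply Complex.ext <;> simp [nv]
  rw [this]
  exact (Complex.continuous_ofReal.comp h1).add
    ((Complex.continuous_ofReal.comp h2).mul continuous_const)

lemma continuous_sv : Continuous (sv : ((ℂ × W) →L[ℝ] ℝ) → (W →L[ℝ] ℝ)) := by
  have : (sv : ((ℂ × W) →L[ℝ] ℝ) → (W →L[ℝ] ℝ))
      = fun f => (ContinuousLinearMap.precomp ℝ (ContinuousLinearMap.inr ℝ ℂ W)) f := by
    ext f; rfl
  rw [this]
  exact ContinuousLinearMap.continuous _

/-- the slice of `K` by the fixed space -/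
def slice (K : Set (ℂ × W)) : Set W := {w | ((0 : ℂ), w) ∈ K}

/-- invariance under multiplication by `ζ` in the complex coordinate -/
def RotInv (ζ : ℂ) (K : Set (ℂ × W)) : Prop := ∀ x ∈ K, (ζ * x.1, x.2) ∈ K

lemma RotInv.pow {ζ : ℂ} {K : Set (ℂ × W)} (h : RotInv ζ K) (k : ℕ) {x : ℂ × W} (hx : x ∈ K) :
    (ζ ^ k * x.1, x.2) ∈ K := by
  induction k with
  | zero => simpa using hx
  | succ k ih =>
    have := h _ ih
    simpa [pow_succ', mul_assoc] using this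

lemma RotInv.avg {p : ℕ} (hp : 7 ≤ p) {ζ : ℂ} (hζ : IsPrimitiveRoot ζ p) {K : Set (ℂ × W)}
    (hconv : Convex ℝ K) (h : RotInv ζ K) {x : ℂ × W} (hx : x ∈ K) : ((0 : ℂ), x.2) ∈ K := by
  have hp0 : (0 : ℝ) < p := by
    have : 0 < p := by omega
    exact_mod_cast this
  have hsum : ∑ k ∈ Finset.range p, ((1 : ℝ) / p) • ((ζ ^ k * x.1, x.2) : ℂ × W) ∈ K := by
    apply hconv.sum_mem
    · intro i _; positivity
    · simp [hp0.ne']
    · intro k _; exact h.pow k hx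
  have hz : ∑ k ∈ Finset.range p, ζ ^ k = 0 := hζ.geom_sum_eq_zero (by omega)
  have : ∑ k ∈ Finset.range p, ((1 : ℝ) / p) • ((ζ ^ k * x.1, x.2) : ℂ × W) = ((0 : ℂ), x.2) := by
    ext1
    · rw [Prod.fst_sum]
      simp only [Prod.smul_fst]
      rw [← Finset.smul_sum, ← Finset.sum_mul, hz]
      simp
    · rw [Prod.snd_sum]
      simp only [Prod.smul_snd]
      rw [Finset.sum_const, Finset.card_range, ← Nat.cast_smul_eq_nsmul ℝ, smul_smul]
      field_simp
      simp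
  rwa [this] at hsum

lemma face_angle {p : ℕ} (hp : 7 ≤ p) {ζ : ℂ} (hζ : IsPrimitiveRoot ζ p) {K : Set (ℂ × W)}
    (h : RotInv ζ K) {f : (ℂ × W) →L[ℝ] ℝ} (hn : nv f ≠ 0) {x : ℂ × W} (hx : x ∈ face K f)
    (hy : x.1 ≠ 0) : √3 / 2 * ‖nv f‖ * ‖x.1‖ < dotC (nv f) x.1 := by
  obtain ⟨k, hk⟩ := exists_rot hp hζ hn hy
  have := hx.2 _ (h.pow k hx.1)
  rw [f_apply, f_apply f x] at this
  simp only at this
  linarith

/-- `j` is a good index for the normal `n` -/
def good (j : Fin 3) (n : ℂ) : Prop := ‖n‖ / 2 ≤ dotC (tri j) n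

lemma good_pos {p : ℕ} (hp : 7 ≤ p) {ζ : ℂ} (hζ : IsPrimitiveRoot ζ p) {K : Set (ℂ × W)}
    (h : RotInv ζ K) {f : (ℂ × W) →L[ℝ] ℝ} (hn : nv f ≠ 0) {j : Fin 3} (hj : good j (nv f))
    {x : ℂ × W} (hx : x ∈ face K f) (hy : x.1 ≠ 0) : 0 < dotC (tri j) x.1 :=
  pos_of_good (tri_norm j) hj (face_angle hp hζ h hn hx hy)

lemma good_nonneg {p : ℕ} (hp : 7 ≤ p) {ζ : ℂ} (hζ : IsPrimitiveRoot ζ p) {K : Set (ℂ × W)}
    (h : RotInv ζ K) {f : (ℂ × W) →L[ℝ] ℝ} (hn : nv f ≠ 0) {j : Fin 3} (hj : good j (nv f))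
    {x : ℂ × W} (hx : x ∈ face K f) : 0 ≤ dotC (tri j) x.1 := by
  by_cases hy : x.1 = 0
  · simp [hy, dotC]
  · exact (good_pos hp hζ h hn hj hx hy).le

lemma eq_zero_of_rot {p : ℕ} (hp : 7 ≤ p) {ζ : ℂ} (hζ : IsPrimitiveRoot ζ p) {n y : ℂ}
    (hn : n ≠ 0) (h : ∀ k : ℕ, dotC n (ζ ^ k * y) ≤ 0) : y = 0 := by
  by_contra hy
  obtain ⟨k, hk⟩ := exists_rot hp hζ hn hy
  have := h k
  have h2 : 0 ≤ √3 / 2 * ‖n‖ * ‖y‖ := by positivity
  linarith

/-- Core reduction lemma. -/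
theorem core [FiniteDimensional ℝ W] {p : ℕ} (hp : 7 ≤ p) {ζ : ℂ} (hζ : IsPrimitiveRoot ζ p)
    {K : Set (ℂ × W)} (hK : IsCompact K) (hconv : Convex ℝ K) (hinv : RotInv ζ K)
    {κ₁ κ₀ : Type*} [Fintype κ₁] [Fintype κ₀] [Nonempty κ₁]
    (τ₁ : κ₁ → (W →L[ℝ] ℝ)) (τ₀ : κ₀ → (W →L[ℝ] ℝ))
    (H1 : ∀ f : (ℂ × W) →L[ℝ] ℝ, nv f ≠ 0 → ∀ z₀, ((0 : ℂ), z₀) ∈ face K f →
      ∃ σ : κ₁, ∀ z, ((0 : ℂ), z) ∈ face K f → 0 < τ₁ σ z)
    (H2 : ∀ s : W →L[ℝ] ℝ, s ≠ 0 → (∃ σ : κ₀, ∀ z ∈ face (slice K) s, 0 < τ₀ σ z) ∨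
      ((∃ σ : κ₁, ∀ z ∈ face (slice K) s, 0 < τ₁ σ z) ∧
        ∀ᶠ s' in 𝓝 s, ∀ x ∈ face K (mkf 0 s'), x.1 = 0)) :
    Sep K (3 * Fintype.card κ₁ + Fintype.card κ₀) := by
  classical
  let wε : ℝ → (Fin 3 × κ₁) ⊕ κ₀ → ((ℂ × W) →L[ℝ] ℝ) := fun ε i =>
    match i with
    | Sum.inl (j, σ) => mkf (tri j) (ε • τ₁ σ)
    | Sum.inr σ => mkf 0 (τ₀ σ)
  have main : ∃ ε > 0, ∀ f : (ℂ × W) →L[ℝ] ℝ, f ≠ 0 → ∃ i, ∀ x ∈ face K f, 0 < wε ε i x := by
    apply exists_eps (P := fun ε f => ∃ i, ∀ x ∈ face K f, 0 < wε ε i x)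
    · rintro ε f c hc ⟨i, hi⟩
      exact ⟨i, by rwa [face_smul K f hc]⟩
    intro f₀ hf₀
    have hgood_ev : ∀ j : Fin 3, ¬ good j (nv f₀) →
        ∀ᶠ z : ℝ × ((ℂ × W) →L[ℝ] ℝ) in 𝓝 (0, f₀), ¬ good j (nv z.2) := by
      intro j hj
      unfold good at hj ⊢
      push Not at hj ⊢
      have c1 : Continuous (fun z : ℝ × ((ℂ × W) →L[ℝ] ℝ) => dotC (tri j) (nv z.2)) :=
        continuous_dotC.comp (continuous_const.prodMk ((continuous_nv (W := W)).comp continuous_snd))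
      have c2 : Continuous (fun z : ℝ × ((ℂ × W) →L[ℝ] ℝ) => ‖nv z.2‖ / 2) :=
        (((continuous_nv (W := W)).comp continuous_snd).norm).div_const 2
      exact (c1.continuousAt (x := ((0 : ℝ), f₀))).eventually_lt
        (c2.continuousAt (x := ((0 : ℝ), f₀))) hj
    by_cases hn : nv f₀ = 0
    · -- Case B
      have hs0 : sv f₀ ≠ 0 := by
        intro hs
        apply hf₀
        rw [eq_mkf f₀, hn, hs]
        ext x
        all_goals simp [dotC]
      have hproj : ∀ x ∈ face K f₀, x.2 ∈ face (slice K) (sv f₀) := by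
        intro x hx
        refine ⟨hinv.avg hp hζ hconv hx.1, ?_⟩
        intro w hw
        have := hx.2 _ hw
        rw [f_apply, f_apply f₀ x, hn] at this
        simpa [dotC] using this
      rcases H2 _ hs0 with ⟨σ, hσ⟩ | ⟨⟨σ, hσ⟩, hev⟩
      · have := eventually_face hK (0 : ℝ) f₀ (fun _ _ x => 0 < mkf 0 (τ₀ σ) x) (by
          intro x hx
          have hlt : (0 : ℝ) < mkf 0 (τ₀ σ) x := by
            simpa [dotC] using hσ _ (hproj x hx)
          have hc2 : Continuous (fun z : (ℝ × ((ℂ × W) →L[ℝ] ℝ)) × (ℂ × W) =>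
              mkf 0 (τ₀ σ) z.2) := (mkf 0 (τ₀ σ)).continuous.comp continuous_snd
          have hev : ∀ᶠ z : (ℝ × ((ℂ × W) →L[ℝ] ℝ)) × (ℂ × W) in 𝓝 (((0 : ℝ), f₀), x),
              0 < mkf 0 (τ₀ σ) z.2 :=
            (continuousAt_const).eventually_lt
              (hc2.continuousAt (x := (((0 : ℝ), f₀), x))) hlt
          filter_upwards [hev] with z hz _ using hz)
        filter_upwards [this] with z hz _
        exact ⟨Sum.inr σ, hz⟩
      · -- second alternative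
        have hτ : ∀ᶠ z : ℝ × ((ℂ × W) →L[ℝ] ℝ) in 𝓝 ((0 : ℝ), f₀),
            ∀ x ∈ face K z.2, 0 < τ₁ σ x.2 :=
          eventually_face hK (0 : ℝ) f₀ (fun _ _ x => 0 < τ₁ σ x.2) (by
            intro x hx
            have hlt : (0 : ℝ) < τ₁ σ x.2 := hσ _ (hproj x hx)
            have hc2 : Continuous (fun z : (ℝ × ((ℂ × W) →L[ℝ] ℝ)) × (ℂ × W) =>
                τ₁ σ z.2.2) := (τ₁ σ).continuous.comp (continuous_snd.comp continuous_snd)
            have hev : ∀ᶠ z : (ℝ × ((ℂ × W) →L[ℝ] ℝ)) × (ℂ × W) in 𝓝 (((0 : ℝ), f₀), x),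
                0 < τ₁ σ z.2.2 :=
              (continuousAt_const).eventually_lt
                (hc2.continuousAt (x := (((0 : ℝ), f₀), x))) hlt
            filter_upwards [hev] with z hz _ using hz)
        have hev' : ∀ᶠ z : ℝ × ((ℂ × W) →L[ℝ] ℝ) in 𝓝 ((0 : ℝ), f₀),
            ∀ x ∈ face K (mkf 0 (sv z.2)), x.1 = 0 :=
          (((continuous_sv (W := W)).comp continuous_snd).continuousAt
            (x := ((0 : ℝ), f₀))).eventually hev
        filter_upwards [hτ, hev'] with z hz1 hz2 hzpos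
        by_cases hnz : nv z.2 = 0
        · refine ⟨Sum.inl (0, σ), ?_⟩
          intro x hx
          have h1 : x.1 = 0 := hz2 x (by rwa [← mkf_zero_of_nv hnz])
          have h2 := hz1 x hx
          simp only [wε, mkf_apply, h1]
          simp [dotC]
          positivity
        · obtain ⟨j, hj⟩ := exists_good (nv z.2)
          refine ⟨Sum.inl (j, σ), ?_⟩
          intro x hx
          have h1 := good_nonneg hp hζ hinv hnz hj hx
          have h2 := hz1 x hx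
          have h3 : 0 < z.1 * τ₁ σ x.2 := mul_pos hzpos h2
          simp only [wε, mkf_apply]
          simp
          linarith
    · -- Case A
      have hσ : ∃ σ : κ₁, ∀ z, ((0 : ℂ), z) ∈ face K f₀ → 0 < τ₁ σ z := by
        by_cases hz : ∃ z₀, ((0 : ℂ), z₀) ∈ face K f₀
        · obtain ⟨z₀, hz₀⟩ := hz
          exact H1 f₀ hn z₀ hz₀
        · push Not at hz
          exact ⟨Classical.arbitrary κ₁, fun z h => absurd h (hz z)⟩
      obtain ⟨σ, hσ⟩ := hσ
      have hnev : ∀ᶠ z : ℝ × ((ℂ × W) →L[ℝ] ℝ) in 𝓝 ((0 : ℝ), f₀), nv z.2 ≠ 0 :=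
        (((continuous_nv (W := W)).comp continuous_snd).continuousAt
          (x := ((0 : ℝ), f₀))).eventually_ne hn
      have hall : ∀ j : Fin 3, ∀ᶠ z : ℝ × ((ℂ × W) →L[ℝ] ℝ) in 𝓝 ((0 : ℝ), f₀),
          ∀ x ∈ face K z.2, (0 < z.1 → good j (nv z.2) → nv z.2 ≠ 0 → x ∈ face K z.2 →
            0 < mkf (tri j) (z.1 • τ₁ σ) x) := by
        intro j
        by_cases hj : good j (nv f₀)
        · apply eventually_face hK (0 : ℝ) f₀ (fun ε f x => (0 < ε → good j (nv f) → nv f ≠ 0 →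
            x ∈ face K f → 0 < mkf (tri j) (ε • τ₁ σ) x))
          intro x hx
          by_cases hy : x.1 = 0
          · have hx' : ((0 : ℂ), x.2) ∈ face K f₀ := by
              rw [← hy]; exact hx
            have hlt : (0 : ℝ) < τ₁ σ x.2 := hσ _ hx'
            have hc2 : Continuous (fun z : (ℝ × ((ℂ × W) →L[ℝ] ℝ)) × (ℂ × W) =>
                τ₁ σ z.2.2) := (τ₁ σ).continuous.comp (continuous_snd.comp continuous_snd)
            have hev : ∀ᶠ z : (ℝ × ((ℂ × W) →L[ℝ] ℝ)) × (ℂ × W) in 𝓝 (((0 : ℝ), f₀), x),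
                0 < τ₁ σ z.2.2 :=
              (continuousAt_const).eventually_lt
                (hc2.continuousAt (x := (((0 : ℝ), f₀), x))) hlt
            filter_upwards [hev] with z hz _ hpos hg hnz hxf
            have h1 := good_nonneg hp hζ hinv hnz hg hxf
            have h3 : 0 < z.1.1 * τ₁ σ z.2.2 := mul_pos hpos hz
            simp only [mkf_apply]
            simp
            linarith
          · have hlt : (0 : ℝ) < dotC (tri j) x.1 + 0 * τ₁ σ x.2 := by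
              simpa using good_pos hp hζ hinv hn hj hx hy
            have hc2 : Continuous (fun z : (ℝ × ((ℂ × W) →L[ℝ] ℝ)) × (ℂ × W) =>
                dotC (tri j) z.2.1 + z.1.1 * τ₁ σ z.2.2) := by
              apply Continuous.add
              · exact continuous_dotC.comp
                  (continuous_const.prodMk (continuous_fst.comp continuous_snd))
              · exact (continuous_fst.comp continuous_fst).mul
                  ((τ₁ σ).continuous.comp (continuous_snd.comp continuous_snd))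
            have hev : ∀ᶠ z : (ℝ × ((ℂ × W) →L[ℝ] ℝ)) × (ℂ × W) in 𝓝 (((0 : ℝ), f₀), x),
                0 < dotC (tri j) z.2.1 + z.1.1 * τ₁ σ z.2.2 :=
              (continuousAt_const).eventually_lt
                (hc2.continuousAt (x := (((0 : ℝ), f₀), x))) hlt
            filter_upwards [hev] with z hz _ _ _ _ _
            simpa using hz
        · filter_upwards [hgood_ev j hj] with z hz x _ _ hg
          exact absurd hg hz
      filter_upwards [hnev, eventually_all.mpr hall] with z hz1 hz2 hzpos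
      obtain ⟨j, hj⟩ := exists_good (nv z.2)
      exact ⟨Sum.inl (j, σ), fun x hx => hz2 j x hx hzpos hj hz1 hx⟩
  obtain ⟨ε, _, hε⟩ := main
  refine Sep.of_fintype (wε ε) hε ?_
  simp

end Pool.Agent.Lib.MP_5e7226_co
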