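import Mathlib
import Pool.Agent.Lib.MP_5e7226_co.Rot

set_option autoImplicit false

open Set Filter Topology

namespace Pool.Agent.Lib.MP_5e7226_co

section gen
variable {V : Type*} [NormedAddCommGroup V] [NormedSpace ℝ V]

lemma exists_pos_of_interior {K : Set V} (h0 : (0 : V) ∈ interior K) {f : V →L[ℝ] ℝ} (hf : f ≠ 0) :
    ∃ y ∈ K, 0 < f y := by
  obtain ⟨v, hv⟩ : ∃ v, 0 < f v := by
    by_contra hcon
    push Not at hcon
    apply hf
    ext v
    have h1 := hcon v
    have h2 := hcon (-v)
    simp at h2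
    simpa using le_antisymm h1 h2
  have hcont : ContinuousAt (fun t : ℝ => t • v) 0 := by fun_prop
  have hmem : K ∈ 𝓝 ((0 : ℝ) • v) := by
    rw [zero_smul]
    exact mem_interior_iff_mem_nhds.mp h0
  have hev : ∀ᶠ t : ℝ in 𝓝 0, t • v ∈ K := hcont.eventually hmem
  have hev2 : ∀ᶠ t : ℝ in 𝓝[>] 0, t • v ∈ K := hev.filter_mono nhdsWithin_le_nhds
  obtain ⟨t, ht, htpos⟩ := (hev2.and self_mem_nhdsWithin).exists
  refine ⟨t • v, ht, ?_⟩
  rw [map_smul, smul_eq_mul]
  exact mul_pos htpos hv

lemma pos_of_face {K : Set V} (h0 : (0 : V) ∈ interior K) {f : V →L[ℝ] ℝ} (hf : f ≠ 0) {x : V}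
    (hx : x ∈ face K f) : 0 < f x := by
  obtain ⟨y, hy, hpos⟩ := exists_pos_of_interior h0 hf
  exact lt_of_lt_of_le hpos (hx.2 y hy)

end gen

variable {W : Type*} [NormedAddCommGroup W] [NormedSpace ℝ W]

lemma slice_interior {K : Set (ℂ × W)} (h0 : (0 : ℂ × W) ∈ interior K) :
    (0 : W) ∈ interior (slice K) := by
  rw [mem_interior_iff_mem_nhds] at h0 ⊢
  have hc : ContinuousAt (fun w : W => ((0 : ℂ), w)) 0 := by fun_prop
  exact hc.preimage_mem_nhds h0

lemma slice_convex {K : Set (ℂ × W)} (h : Convex ℝ K) : Convex ℝ (slice K) := by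
  intro x hx y hy a b ha hb hab
  have := h hx hy ha hb hab
  simpa [slice] using this

lemma slice_compact {K : Set (ℂ × W)} (h : IsCompact K) : IsCompact (slice K) := by
  have h1 : IsCompact (K ∩ Prod.fst ⁻¹' {(0 : ℂ)}) :=
    h.inter_right (isClosed_singleton.preimage continuous_fst)
  have h2 : slice K = Prod.snd '' (K ∩ Prod.fst ⁻¹' {(0 : ℂ)}) := by
    ext w
    constructor
    · intro hw
      exact ⟨(0, w), ⟨hw, rfl⟩, rfl⟩
    · rintro ⟨⟨a, c⟩, ⟨hx, hx0⟩, rfl⟩
      simp only [mem_preimage, mem_singleton_iff] at hx0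
      subst hx0
      exact hx
  rw [h2]
  exact h1.image continuous_snd

lemma mem_face_slice {K : Set (ℂ × W)} {f : (ℂ × W) →L[ℝ] ℝ} {z : W}
    (hz : ((0 : ℂ), z) ∈ face K f) : z ∈ face (slice K) (sv f) := by
  refine ⟨hz.1, ?_⟩
  intro w hw
  have := hz.2 _ hw
  rw [f_apply, f_apply f (0, z)] at this
  simpa [dotC] using this

lemma sv_ne_zero {K : Set (ℂ × W)} (h0 : (0 : ℂ × W) ∈ interior K) {f : (ℂ × W) →L[ℝ] ℝ}
    (hn : nv f ≠ 0) {z : W} (hz : ((0 : ℂ), z) ∈ face K f) : 0 < sv f z := by
  have hf : f ≠ 0 := by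
    rintro rfl
    apply hn
    simp [nv]
    rfl
  have := pos_of_face h0 hf hz
  rw [f_apply] at this
  simpa [dotC] using this

/-- Reduction to the fixed space: four times the number of the slice. -/
theorem reduction [FiniteDimensional ℝ W] {p : ℕ} (hp : 7 ≤ p) {ζ : ℂ} (hζ : IsPrimitiveRoot ζ p)
    {K : Set (ℂ × W)} (hK : IsCompact K) (hconv : Convex ℝ K) (hinv : RotInv ζ K)
    (h0 : (0 : ℂ × W) ∈ interior K) {N : ℕ} (hN : 0 < N) (h : Sep (slice K) N) :
    Sep K (4 * N) := by
  obtain ⟨w, hw⟩ := h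
  have : Nonempty (Fin N) := ⟨⟨0, hN⟩⟩
  have := core hp hζ hK hconv hinv w w (by
      intro f hn z₀ hz₀
      have hs : sv f ≠ 0 := by
        intro h
        have := sv_ne_zero h0 hn hz₀
        simp [h] at this
      obtain ⟨i, hi⟩ := hw _ hs
      exact ⟨i, fun z hz => hi z (mem_face_slice hz)⟩) (by
      intro s hs
      exact Or.inl (hw s hs))
  simp only [Fintype.card_fin] at this
  have h4 : 3 * N + N = 4 * N := by ring
  rwa [h4] at this

/-- Base case: no fixed space. -/
theorem base_zero [FiniteDimensional ℝ W] [Subsingleton W] {p : ℕ} (hp : 7 ≤ p) {ζ : ℂ}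
    (hζ : IsPrimitiveRoot ζ p)
    {K : Set (ℂ × W)} (hK : IsCompact K) (hconv : Convex ℝ K) (hinv : RotInv ζ K)
    (h0 : (0 : ℂ × W) ∈ interior K) : Sep K 3 := by
  have := core (κ₁ := Unit) (κ₀ := Empty) hp hζ hK hconv hinv (fun _ => 0) (fun _ => 0) (by
      intro f hn z₀ hz₀
      exfalso
      have := sv_ne_zero h0 hn hz₀
      have hz : z₀ = 0 := Subsingleton.elim _ _
      simp [hz] at this) (by
      intro s hs
      exfalso
      apply hs
      ext x
      have : x = 0 := Subsingleton.elim _ _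
      simp [this])
  simpa using this

/-- `L` is a cross-body centred at the origin: the convex hull of segments `[-t i • b i, b i]`
in linearly independent directions. -/
def CrossBody (n : ℕ) (L : Set W) : Prop :=
  ∃ (b : Module.Basis (Fin n) ℝ W) (t : Fin n → ℝ), (∀ i, 0 < t i) ∧
    L = convexHull ℝ (⋃ i, {b i, -(t i) • b i})

section cross

variable {n : ℕ} (b : Module.Basis (Fin n) ℝ W) (t : Fin n → ℝ)

/-- gauge-like function of the cross-body -/
noncomputable def gau (z : W) : ℝ := ∑ i, max (b.repr z i) (-(b.repr z i) / t i)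

lemma gau_le_one (ht : ∀ i, 0 < t i) {z : W} (hz : z ∈ convexHull ℝ (⋃ i, {b i, -(t i) • b i})) :
    gau b t z ≤ 1 := by
  have hconv : Convex ℝ {z : W | gau b t z ≤ 1} := by
    intro x hx y hy α β hα hβ hαβ
    simp only [mem_ofPred_eq] at hx hy ⊢
    have : gau b t (α • x + β • y) ≤ α * gau b t x + β * gau b t y := by
      unfold gau
      rw [Finset.mul_sum, Finset.mul_sum, ← Finset.sum_add_distrib]
      apply Finset.sum_le_sum
      intro i _
      have e : b.repr (α • x + β • y) i = α * b.repr x i + β * b.repr y i := by simp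
      rw [e]
      have hx1 := le_max_left (b.repr x i) (-(b.repr x i) / t i)
      have hx2 := le_max_right (b.repr x i) (-(b.repr x i) / t i)
      have hy1 := le_max_left (b.repr y i) (-(b.repr y i) / t i)
      have hy2 := le_max_right (b.repr y i) (-(b.repr y i) / t i)
      apply max_le
      · nlinarith
      · have : -(α * b.repr x i + β * b.repr y i) / t i
            = α * (-(b.repr x i) / t i) + β * (-(b.repr y i) / t i) := by ring
        rw [this]
        nlinarith
    nlinarith
  have hsub : (⋃ i, ({b i, -(t i) • b i} : Set W)) ⊆ {z : W | gau b t z ≤ 1} := by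
    intro x hx
    rw [mem_iUnion] at hx
    obtain ⟨i, hi⟩ := hx
    have key : ∀ c : ℝ, gau b t (c • b i) = max c (-c / t i) := by
      intro c
      unfold gau
      rw [Finset.sum_eq_single i]
      · simp
      · intro j _ hj
        simp [Finsupp.single_eq_of_ne hj]
      · simp
    rcases hi with rfl | hi
    · have := key 1
      rw [one_smul] at this
      simp only [mem_ofPred_eq]
      rw [this]
      apply max_le le_rfl
      have := ht i
      rw [div_le_one this]
      linarith
    · rw [mem_singleton_iff] at hi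
      rw [hi]
      simp only [mem_ofPred_eq]
      rw [key]
      have := ht i
      apply max_le
      · linarith
      · rw [neg_neg, div_self this.ne']
  exact convexHull_min hsub hconv hz

lemma s_le_gau (ht : ∀ i, 0 < t i) (s : W →L[ℝ] ℝ) {M : ℝ} (h1 : ∀ i, s (b i) ≤ M)
    (h2 : ∀ i, s (-(t i) • b i) ≤ M) (z : W) (i : Fin n) :
    s (b i) * b.repr z i ≤ M * max (b.repr z i) (-(b.repr z i) / t i) := by
  have h1 := h1 i
  have h2 := h2 i
  have ht := ht i
  rw [map_smul, smul_eq_mul] at h2
  rcases le_total 0 (b.repr z i) with h | h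
  · have hm : max (b.repr z i) (-(b.repr z i) / t i) = b.repr z i := by
      apply max_eq_left
      rw [div_le_iff₀ ht]
      nlinarith
    rw [hm]
    nlinarith
  · have hm : max (b.repr z i) (-(b.repr z i) / t i) = -(b.repr z i) / t i := by
      apply max_eq_right
      rw [le_div_iff₀ ht]
      nlinarith
    rw [hm]
    rw [mul_div_assoc', le_div_iff₀ ht]
    nlinarith

lemma s_eq_sum (s : W →L[ℝ] ℝ) (z : W) : s z = ∑ i, s (b i) * b.repr z i := by
  conv_lhs => rw [← b.sum_repr z]
  rw [map_sum]
  apply Finset.sum_congr rfl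
  intro i _
  rw [map_smul, smul_eq_mul, mul_comm]

/-- termwise equality on a face -/
lemma face_terms (ht : ∀ i, 0 < t i) (s : W →L[ℝ] ℝ) {z : W}
    (hz : z ∈ face (convexHull ℝ (⋃ i, {b i, -(t i) • b i})) s) (hpos : 0 < s z) :
    gau b t z = 1 ∧ ∀ i, s (b i) * b.repr z i
      = s z * max (b.repr z i) (-(b.repr z i) / t i) := by
  have hv1 : ∀ i, s (b i) ≤ s z := fun i =>
    hz.2 _ (subset_convexHull ℝ _ (mem_iUnion.mpr ⟨i, by simp⟩))
  have hv2 : ∀ i, s (-(t i) • b i) ≤ s z := fun i =>
    hz.2 _ (subset_convexHull ℝ _ (mem_iUnion.mpr ⟨i, by simp⟩))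
  have hle := gau_le_one b t ht hz.1
  have hterm := s_le_gau b t ht s hv1 hv2 z
  have hsum : s z ≤ s z * gau b t z := by
    conv_lhs => rw [s_eq_sum b s z]
    unfold gau
    rw [Finset.mul_sum]
    exact Finset.sum_le_sum fun i _ => hterm i
  have hg : gau b t z = 1 := by
    apply le_antisymm hle
    by_contra hcon
    push Not at hcon
    nlinarith
  refine ⟨hg, ?_⟩
  have heq : ∑ i, s (b i) * b.repr z i
      = ∑ i, s z * max (b.repr z i) (-(b.repr z i) / t i) := by
    rw [← s_eq_sum b s z, ← Finset.mul_sum]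
    have : ∑ i, max (b.repr z i) (-(b.repr z i) / t i) = gau b t z := rfl
    rw [this, hg, mul_one]
  intro i
  exact (Finset.sum_eq_sum_iff_of_le (fun i _ => hterm i)).mp heq i (Finset.mem_univ i)

/-- vertex selected by the sign vector -/
noncomputable def vert (σ : Fin n → Bool) (i : Fin n) : W := if σ i then b i else -(t i) • b i

/-- vertex not selected by the sign vector -/
noncomputable def cvert (σ : Fin n → Bool) (i : Fin n) : W := if σ i then -(t i) • b i else b i

/-- all not selected vertices lie strictly below the maximum -/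
def Compat (L : Set W) (σ : Fin n → Bool) (s : W →L[ℝ] ℝ) : Prop :=
  ∀ i, ∃ y ∈ L, s (cvert b t σ i) < s y

/-- sign functional -/
noncomputable def tau [FiniteDimensional ℝ W] (σ : Fin n → Bool) : W →L[ℝ] ℝ :=
  ∑ i, (if σ i then (1 : ℝ) else -1) • LinearMap.toContinuousLinearMap (b.coord i)

lemma compat_signs (ht : ∀ i, 0 < t i) {s : W →L[ℝ] ℝ} {z : W}
    (hz : z ∈ face (convexHull ℝ (⋃ i, {b i, -(t i) • b i})) s) (hpos : 0 < s z)
    {σ : Fin n → Bool} (hσ : Compat b t (convexHull ℝ (⋃ i, {b i, -(t i) • b i})) σ s) (i : Fin n) :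
    (0 < b.repr z i → σ i = true) ∧ (b.repr z i < 0 → σ i = false) := by
  obtain ⟨-, hterm⟩ := face_terms b t ht s hz hpos
  have hi := hterm i
  have hti := ht i
  obtain ⟨y, hy, hlt⟩ := hσ i
  have hyz := hz.2 y hy
  constructor
  · intro h
    have hm : max (b.repr z i) (-(b.repr z i) / t i) = b.repr z i := by
      apply max_eq_left
      rw [div_le_iff₀ hti]
      nlinarith
    rw [hm] at hi
    have : s (b i) = s z := mul_right_cancel₀ h.ne' hi
    by_contra hne
    have hf : σ i = false := by simpa using hne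
    simp only [cvert, hf] at hlt
    simp at hlt
    linarith
  · intro h
    have hm : max (b.repr z i) (-(b.repr z i) / t i) = -(b.repr z i) / t i := by
      apply max_eq_right
      rw [le_div_iff₀ hti]
      nlinarith
    rw [hm] at hi
    have : s (-(t i) • b i) = s z := by
      rw [map_smul, smul_eq_mul]
      have h3 : s (b i) * b.repr z i * t i = s z * (-(b.repr z i)) := by
        rw [hi]
        field_simp
      have h4 : (-(t i) * s (b i)) * (-(b.repr z i)) = s z * (-(b.repr z i)) := by linarith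
      have h5 : -(b.repr z i) ≠ 0 := by
        intro h5
        linarith
      exact mul_right_cancel₀ h5 h4
    by_contra hne
    have hf : σ i = true := by simpa using hne
    simp only [cvert, hf] at hlt
    simp at hlt
    simp at this
    linarith

end cross

end Pool.Agent.Lib.MP_5e7226_co
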