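import Mathlib
import Pool.Agent.Lib.MP_5e7226_co.Reduction

set_option autoImplicit false

open Set Filter Topology

namespace Pool.Agent.Lib.MP_5e7226_co

section gen
variable {V : Type*} [NormedAddCommGroup V] [NormedSpace ℝ V]

/-- every nonzero functional is positive at some extreme point -/
lemma exists_extreme_pos {L : Set V} (hL : IsCompact L) (hconv : Convex ℝ L)
    (h0 : (0 : V) ∈ interior L) {f : V →L[ℝ] ℝ} (hf : f ≠ 0) :
    ∃ e ∈ L.extremePoints ℝ, 0 < f e := by
  by_contra hcon
  push Not at hcon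
  obtain ⟨y, hy, hpos⟩ := exists_pos_of_interior h0 hf
  have h1 : closure (convexHull ℝ (L.extremePoints ℝ)) ⊆ {x | f x ≤ 0} := by
    apply closure_minimal
    · apply convexHull_min
      · intro e he
        exact hcon e he
      · intro x hx z hz a c ha hc _
        simp only [mem_ofPred_eq] at hx hz ⊢
        rw [map_add, map_smul, map_smul, smul_eq_mul, smul_eq_mul]
        nlinarith
    · exact isClosed_le f.continuous continuous_const
  rw [closure_convexHull_extremePoints hL hconv] at h1
  have := h1 hy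
  simp only [mem_ofPred_eq] at this
  linarith

lemma extreme_ne_zero {L : Set V} (h0 : (0 : V) ∈ interior L) [Nontrivial V] {e : V}
    (he : e ∈ L.extremePoints ℝ) : e ≠ 0 := by
  rintro rfl
  obtain ⟨v, hv⟩ := exists_ne (0 : V)
  have hcont1 : ContinuousAt (fun t : ℝ => t • v) 0 := by fun_prop
  have hcont2 : ContinuousAt (fun t : ℝ => (-t) • v) 0 := by fun_prop
  have hm : L ∈ 𝓝 (0 : V) := mem_interior_iff_mem_nhds.mp h0
  have h1 : ∀ᶠ t : ℝ in 𝓝 0, t • v ∈ L := hcont1.eventually (by simpa using hm)
  have h2 : ∀ᶠ t : ℝ in 𝓝 0, (-t) • v ∈ L := hcont2.eventually (by simpa using hm)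
  have h3 : ∀ᶠ t : ℝ in 𝓝[>] 0, t • v ∈ L ∧ (-t) • v ∈ L :=
    (h1.and h2).filter_mono nhdsWithin_le_nhds
  obtain ⟨t, ⟨ht1, ht2⟩, htpos⟩ := (h3.and self_mem_nhdsWithin).exists
  have hseg : (0 : V) ∈ openSegment ℝ (t • v) ((-t) • v) := by
    refine ⟨1 / 2, 1 / 2, by norm_num, by norm_num, by norm_num, ?_⟩
    rw [smul_smul, smul_smul, ← add_smul]
    simp
  have := (mem_extremePoints.mp he).2 _ ht1 _ ht2 hseg
  have h4 : t • v = 0 := this.1
  rcases smul_eq_zero.mp h4 with h | h
  · have : (0 : ℝ) < t := htpos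
    linarith
  · exact hv h

/-- no point of `L` lies beyond an extreme point on its ray -/
lemma extreme_ray {L : Set V} (h0 : (0 : V) ∈ interior L) [Nontrivial V] {e : V}
    (he : e ∈ L.extremePoints ℝ) {c : ℝ} (hc : c • e ∈ L) : c ≤ 1 := by
  by_contra hcon
  push Not at hcon
  have h0L : (0 : V) ∈ L := interior_subset h0
  have hcp : 0 < c := by linarith
  have hseg : e ∈ openSegment ℝ (c • e) 0 := by
    refine ⟨c⁻¹, 1 - c⁻¹, by positivity, ?_, by ring, ?_⟩
    · have : c⁻¹ < 1 := inv_lt_one_of_one_lt₀ hcon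
      linarith
    · rw [smul_smul, inv_mul_cancel₀ hcp.ne']
      simp
  have := (mem_extremePoints.mp he).2 _ hc _ h0L hseg
  exact extreme_ne_zero h0 he this.2.symm

/-- extreme points on the same ray coincide -/
lemma extreme_same_ray {L : Set V} (h0 : (0 : V) ∈ interior L) [Nontrivial V] {e e' : V}
    (he : e ∈ L.extremePoints ℝ) (he' : e' ∈ L.extremePoints ℝ) {c : ℝ} (hc : 0 < c)
    (h : e' = c • e) : e' = e := by
  have h1 : c ≤ 1 := extreme_ray h0 he (by rw [← h]; exact he'.1)
  have h2 : c⁻¹ • e' = e := by rw [h, smul_smul, inv_mul_cancel₀ hc.ne', one_smul]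
  have h3 : c⁻¹ ≤ 1 := extreme_ray h0 he' (by rw [h2]; exact he.1)
  have h4 : 1 ≤ c := (inv_le_one₀ hc).mp h3
  have h5 : c = 1 := le_antisymm h1 h4
  rw [h, h5, one_smul]

end gen

variable {W : Type*} [NormedAddCommGroup W] [NormedSpace ℝ W]

/-- The crossing lemma: in the plane with basis `a, b`, a face cannot have a point `p` strictly
inside the cone of `a, b` and a point `q` with nonpositive coordinate sum. -/
lemma crossing [Nontrivial W] {L : Set W} (hconv : Convex ℝ L) (h0 : (0 : W) ∈ interior L)
    {a b : W} (ha : a ∈ L.extremePoints ℝ) (hb : b ∈ L.extremePoints ℝ)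
    (hind : ∀ s t : ℝ, s • a + t • b = 0 → s = 0 ∧ t = 0)
    {f : W →L[ℝ] ℝ} {p q : W} (hp : p ∈ face L f) (hq : q ∈ face L f) (hfp : 0 < f p)
    {l m l' m' : ℝ} (hpe : p = l • a + m • b) (hqe : q = l' • a + m' • b)
    (hl : 0 < l) (hm : 0 < m) (hsum : l' + m' ≤ 0) : False := by
  have hfeq : f p = f q := le_antisymm (hq.2 p hp.1) (hp.2 q hq.1)
  -- a general claim, symmetric in the two basis vectors
  have claim : ∀ (u v : W), u ∈ L.extremePoints ℝ → v ∈ L.extremePoints ℝ →
      (∀ s t : ℝ, s • u + t • v = 0 → s = 0 ∧ t = 0) → ∀ (x y x' y' : ℝ), p = x • u + y • v →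
      q = x' • u + y' • v → 0 < x → 0 < y → x' + y' ≤ 0 → 0 ≤ x * y' - x' * y → False := by
    intro u v hu hv huv x y x' y' hpe hqe hx hy hs hA
    have hx' : x' ≤ 0 := by
      by_contra hcon
      push Not at hcon
      have : 0 < x * y' := by nlinarith [mul_pos hcon hy]
      have : 0 < y' := by
        by_contra hcon2
        push Not at hcon2
        nlinarith
      linarith
    have hd : 0 < x - x' := by linarith
    -- the crossing parameter
    set t := x / (x - x') with ht
    have ht0 : 0 < t := div_pos hx hd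
    have ht1 : t ≤ 1 := by rw [ht, div_le_one hd]; linarith
    set κ := (x * y' - x' * y) / (x - x') with hκ
    have hpt : (1 - t) • p + t • q = κ • v := by
      rw [hpe, hqe]
      have e1 : (1 - t) • (x • u + y • v) + t • (x' • u + y' • v)
          = ((1 - t) * x + t * x') • u + ((1 - t) * y + t * y') • v := by
        module
      rw [e1]
      have e2 : (1 - t) * x + t * x' = 0 := by
        rw [ht]; field_simp; ring
      have e3 : (1 - t) * y + t * y' = κ := by
        rw [ht, hκ]; field_simp; ring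
      rw [e2, e3, zero_smul, zero_add]
    have hmem : κ • v ∈ L := by
      rw [← hpt]
      exact hconv hp.1 hq.1 (by linarith) ht0.le (by ring)
    have hfk : f (κ • v) = f p := by
      rw [← hpt, map_add, map_smul, map_smul, ← hfeq, smul_eq_mul, smul_eq_mul]; ring
    have hκ0 : 0 < κ := by
      have h1 : 0 ≤ κ := div_nonneg hA hd.le
      rcases lt_or_eq_of_le h1 with h | h
      · exact h
      · exfalso
        rw [← h] at hfk
        simp at hfk
        linarith
    have hfv : κ * f v = f p := by rw [← hfk, map_smul, smul_eq_mul]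
    have hfvp : 0 < f v := by
      by_contra hcon
      push Not at hcon
      nlinarith
    have hfv_le : f v ≤ f p := hp.2 v hv.1
    have h1κ : 1 ≤ κ := by
      by_contra hcon
      push Not at hcon
      nlinarith
    have hκ1 : κ ≤ 1 := extreme_ray h0 hv hmem
    have hκeq : κ = 1 := le_antisymm hκ1 h1κ
    rw [hκeq, one_smul] at hpt
    -- `t < 1`
    have ht1' : t < 1 := by
      rcases lt_or_eq_of_le ht1 with h | h
      · exact h
      · exfalso
        rw [h] at hpt
        simp only [sub_self, zero_smul, one_smul, zero_add] at hpt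
        rw [hqe] at hpt
        have : x' • u + (y' - 1) • v = 0 := by
          have : x' • u + (y' - 1) • v = (x' • u + y' • v) - v := by module
          rw [this, hpt, sub_self]
        have := huv _ _ this
        linarith [this.1, this.2]
    have hseg : v ∈ openSegment ℝ p q := ⟨1 - t, t, by linarith, ht0, by ring, hpt⟩
    have := (mem_extremePoints.mp hv).2 _ hp.1 _ hq.1 hseg
    have hpv : p = v := this.1
    rw [hpe] at hpv
    have : x • u + (y - 1) • v = 0 := by
      have : x • u + (y - 1) • v = (x • u + y • v) - v := by module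
      rw [this, hpv, sub_self]
    have := huv _ _ this
    linarith [this.1]
  rcases le_total 0 (l * m' - l' * m) with h | h
  · exact claim a b ha hb hind l m l' m' hpe hqe hl hm hsum h
  · refine claim b a hb ha ?_ m l m' l' (by rw [hpe, add_comm]) (by rw [hqe, add_comm]) hm hl
      (by linarith) (by linarith)
    intro s t hst
    have := hind t s (by rw [add_comm]; exact hst)
    exact ⟨this.2, this.1⟩

/-- contradiction for a point on which two of the functionals are nonpositive -/
lemma two_nonpos [Nontrivial W] {L : Set W} (hconv : Convex ℝ L) (h0 : (0 : W) ∈ interior L)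
    {u v : W} (hu : u ∈ L.extremePoints ℝ) (hv : v ∈ L.extremePoints ℝ)
    (hind : ∀ s t : ℝ, s • u + t • v = 0 → s = 0 ∧ t = 0)
    (hspan : ∀ x : W, ∃ s t : ℝ, x = s • u + t • v)
    {wu wv wz : W →L[ℝ] ℝ} {U V' : ℝ} (hU : 0 < U) (hV : 0 < V') (hUV : 1 < U * V')
    (h1 : wu u = -U) (h2 : wu v = 1) (h3 : wv v = -V') (h4 : wv u = 1) (h5 : wz u = 1)
    (h6 : wz v = 1)
    {f : W →L[ℝ] ℝ} {p q : W} (hp : p ∈ face L f) (hq : q ∈ face L f) (hfp : 0 < f p)
    (hpu : wu p ≤ 0) (hpv : wv p ≤ 0) (hqz : wz q ≤ 0) : False := by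
  obtain ⟨l, m, hpe⟩ := hspan p
  obtain ⟨l', m', hqe⟩ := hspan q
  have e1 : wu p = -U * l + m := by
    rw [hpe, map_add, map_smul, map_smul, h1, h2, smul_eq_mul, smul_eq_mul]; ring
  have e2 : wv p = l - V' * m := by
    rw [hpe, map_add, map_smul, map_smul, h3, h4, smul_eq_mul, smul_eq_mul]; ring
  have e3 : wz q = l' + m' := by
    rw [hqe, map_add, map_smul, map_smul, h5, h6, smul_eq_mul, smul_eq_mul]; ring
  have i1 : m ≤ U * l := by linarith
  have i2 : l ≤ V' * m := by linarith
  have hm0 : 0 ≤ m := by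
    by_contra hcon
    push Not at hcon
    have : U * l ≤ U * (V' * m) := mul_le_mul_of_nonneg_left i2 hU.le
    have h7 : m ≤ (U * V') * m := by linarith
    nlinarith
  have hl0 : 0 ≤ l := by
    by_contra hcon
    push Not at hcon
    nlinarith
  have hne : ¬ (l = 0 ∧ m = 0) := by
    rintro ⟨rfl, rfl⟩
    rw [hpe] at hfp
    simp at hfp
  have hl : 0 < l := by
    rcases lt_or_eq_of_le hl0 with h | h
    · exact h
    · exfalso
      apply hne
      refine ⟨h.symm, ?_⟩
      rw [← h] at i1
      linarith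
  have hm : 0 < m := by
    rcases lt_or_eq_of_le hm0 with h | h
    · exact h
    · exfalso
      apply hne
      refine ⟨?_, h.symm⟩
      rw [← h] at i2
      linarith
  exact crossing hconv h0 hu hv hind hp hq hfp hpe hqe hl hm (by linarith)

lemma wbtw_nonpos {w : W →L[ℝ] ℝ} {x y z : W} (h : Wbtw ℝ x y z) (hy : w y ≤ 0) :
    w x ≤ 0 ∨ w z ≤ 0 := by
  obtain ⟨t, ⟨ht0, ht1⟩, rfl⟩ := h
  rw [AffineMap.lineMap_apply_module, map_add, map_smul, map_smul, smul_eq_mul, smul_eq_mul] at hy
  by_contra hcon
  push Not at hcon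
  obtain ⟨h1, h2⟩ := hcon
  rcases lt_or_eq_of_le ht0 with h | h
  · have : 0 < t * w z := mul_pos h h2
    have : 0 ≤ (1 - t) * w x := mul_nonneg (by linarith) h1.le
    linarith
  · rw [← h] at hy
    simp at hy
    linarith

lemma face_collinear [FiniteDimensional ℝ W] (hdim : Module.finrank ℝ W = 2) {L : Set W}
    {f : W →L[ℝ] ℝ} (hf : f ≠ 0) {x y z : W} (hx : x ∈ face L f) (hy : y ∈ face L f)
    (hz : z ∈ face L f) : Wbtw ℝ x y z ∨ Wbtw ℝ y z x ∨ Wbtw ℝ z x y := by
  apply Collinear.wbtw_or_wbtw_or_wbtw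
  have hfy : f y = f x := le_antisymm (hx.2 y hy.1) (hy.2 x hx.1)
  have hfz : f z = f x := le_antisymm (hx.2 z hz.1) (hz.2 x hx.1)
  have hker : Module.finrank ℝ (LinearMap.ker (f : W →ₗ[ℝ] ℝ)) = 1 := by
    have h1 := LinearMap.finrank_range_add_finrank_ker (f : W →ₗ[ℝ] ℝ)
    have h2 : LinearMap.range (f : W →ₗ[ℝ] ℝ) = ⊤ := by
      apply LinearMap.range_eq_top.mpr
      apply LinearMap.surjective
      intro h
      apply hf
      ext v
      exact congrArg (fun g : W →ₗ[ℝ] ℝ => g v) h
    rw [h2, finrank_top, Module.finrank_self, hdim] at h1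
    omega
  obtain ⟨v, hv⟩ := finrank_le_one_iff.mp hker.le
  rw [collinear_iff_of_mem (p₀ := x) (by simp)]
  refine ⟨(v : W), ?_⟩
  have hgen : ∀ w : W, f w = f x → ∃ r : ℝ, w = r • (v : W) +ᵥ x := by
    intro w hw
    have hmem : w - x ∈ LinearMap.ker (f : W →ₗ[ℝ] ℝ) := by
      rw [LinearMap.mem_ker]
      change f (w - x) = 0
      rw [map_sub, hw, sub_self]
    obtain ⟨c, hc⟩ := hv ⟨w - x, hmem⟩
    refine ⟨c, ?_⟩
    have : c • (v : W) = w - x := congrArg Subtype.val hc
    rw [this]
    simp
  intro w hw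
  simp only [mem_insert_iff, mem_singleton_iff] at hw
  rcases hw with rfl | rfl | rfl
  · exact hgen _ rfl
  · exact hgen _ hfy
  · exact hgen _ hfz

/-- Three extreme points around the origin give three functionals. -/
theorem triple [FiniteDimensional ℝ W] (hdim : Module.finrank ℝ W = 2) {L : Set W}
    (hconv : Convex ℝ L) (h0 : (0 : W) ∈ interior L) {a b c : W}
    (ha : a ∈ L.extremePoints ℝ) (hb : b ∈ L.extremePoints ℝ) (hc : c ∈ L.extremePoints ℝ)
    (hind : ∀ s t : ℝ, s • a + t • b = 0 → s = 0 ∧ t = 0)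
    {α β γ : ℝ} (hα : 0 < α) (hβ : 0 < β) (hγ : 0 < γ)
    (hsum : α • a + β • b + γ • c = 0) : Sep L 3 := by
  have hnt : Nontrivial W := Module.nontrivial_of_finrank_pos (R := ℝ) (by omega)
  have hli : LinearIndependent ℝ ![a, b] := LinearIndependent.pair_iff.mpr hind
  let B := basisOfLinearIndependentOfCardEqFinrank hli (by simp [hdim])
  have hB : ⇑B = ![a, b] := coe_basisOfLinearIndependentOfCardEqFinrank hli _
  have hB0 : B 0 = a := by rw [hB]; rfl
  have hB1 : B 1 = b := by rw [hB]; rfl
  let la : W →L[ℝ] ℝ := LinearMap.toContinuousLinearMap (B.coord 0)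
  let mu : W →L[ℝ] ℝ := LinearMap.toContinuousLinearMap (B.coord 1)
  have hla_a : la a = 1 := by
    change B.coord 0 a = 1
    rw [← hB0]; simp
  have hla_b : la b = 0 := by
    change B.coord 0 b = 0
    rw [← hB1]; simp
  have hmu_a : mu a = 0 := by
    change B.coord 1 a = 0
    rw [← hB0]; simp
  have hmu_b : mu b = 1 := by
    change B.coord 1 b = 1
    rw [← hB1]; simp
  have hrep : ∀ x : W, x = la x • a + mu x • b := by
    intro x
    have := B.sum_repr x
    rw [Fin.sum_univ_two, hB0, hB1] at this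
    exact this.symm
  have hla_c : la c = -(α / γ) := by
    have := congrArg la hsum
    rw [map_add, map_add, map_smul, map_smul, map_smul, hla_a, hla_b, map_zero] at this
    simp only [smul_eq_mul] at this
    field_simp
    linarith
  have hmu_c : mu c = -(β / γ) := by
    have := congrArg mu hsum
    rw [map_add, map_add, map_smul, map_smul, map_smul, hmu_a, hmu_b, map_zero] at this
    simp only [smul_eq_mul] at this
    field_simp
    linarith
  have hc_eq : c = (-(α / γ)) • a + (-(β / γ)) • b := by
    have := hrep c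
    rwa [hla_c, hmu_c] at this
  have ha_eq : a = (-(β / α)) • b + (-(γ / α)) • c := by
    have h1 : α • ((-(β / α)) • b + (-(γ / α)) • c) = α • a := by
      have h2 : α • a = -(β • b) - γ • c := by
        have h3 : α • a = (α • a + β • b + γ • c) - β • b - γ • c := by module
        rw [h3, hsum]; module
      rw [h2, smul_add, smul_smul, smul_smul]
      have h4 : α * -(β / α) = -β := by field_simp
      have h5 : α * -(γ / α) = -γ := by field_simp
      rw [h4, h5]; module
    exact ((smul_right_injective W hα.ne') h1).symm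
  have hb_eq : b = (-(α / β)) • a + (-(γ / β)) • c := by
    have h1 : β • ((-(α / β)) • a + (-(γ / β)) • c) = β • b := by
      have h2 : β • b = -(α • a) - γ • c := by
        have h3 : β • b = (α • a + β • b + γ • c) - α • a - γ • c := by module
        rw [h3, hsum]; module
      rw [h2, smul_add, smul_smul, smul_smul]
      have h4 : β * -(α / β) = -α := by field_simp
      have h5 : β * -(γ / β) = -γ := by field_simp
      rw [h4, h5]; module
    exact ((smul_right_injective W hβ.ne') h1).symm
  let wc : W →L[ℝ] ℝ := la + mu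
  let wa : W →L[ℝ] ℝ := mu - ((β + γ) / α) • la
  let wb : W →L[ℝ] ℝ := la - ((α + γ) / β) • mu
  have wc_a : wc a = 1 := by simp [wc, hla_a, hmu_a]
  have wc_b : wc b = 1 := by simp [wc, hla_b, hmu_b]
  have wc_c : wc c = -((α + β) / γ) := by
    simp only [wc, ContinuousLinearMap.add_apply, hla_c, hmu_c]; field_simp; ring
  have wa_a : wa a = -((β + γ) / α) := by simp [wa, hla_a, hmu_a]
  have wa_b : wa b = 1 := by simp [wa, hla_b, hmu_b]
  have wa_c : wa c = 1 := by
    simp only [wa, ContinuousLinearMap.sub_apply, FunLike.coe_smul, Pi.smul_apply, smul_eq_mul,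
      hla_c, hmu_c]; field_simp; ring
  have wb_a : wb a = 1 := by simp [wb, hla_a, hmu_a]
  have wb_b : wb b = -((α + γ) / β) := by simp [wb, hla_b, hmu_b]
  have wb_c : wb c = 1 := by
    simp only [wb, ContinuousLinearMap.sub_apply, FunLike.coe_smul, Pi.smul_apply, smul_eq_mul,
      hla_c, hmu_c]; field_simp; ring
  have hUV1 : 1 < ((β + γ) / α) * ((α + γ) / β) := by
    rw [div_mul_div_comm, lt_div_iff₀ (by positivity)]; nlinarith [mul_pos hα hβ, mul_pos hγ hγ,
      mul_pos hα hγ, mul_pos hβ hγ]
  have hUV2 : 1 < ((α + γ) / β) * ((α + β) / γ) := by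
    rw [div_mul_div_comm, lt_div_iff₀ (by positivity)]; nlinarith [mul_pos hα hβ, mul_pos hα hα,
      mul_pos hα hγ, mul_pos hβ hγ]
  have hUV3 : 1 < ((β + γ) / α) * ((α + β) / γ) := by
    rw [div_mul_div_comm, lt_div_iff₀ (by positivity)]; nlinarith [mul_pos hα hβ, mul_pos hβ hβ,
      mul_pos hα hγ, mul_pos hβ hγ]
  have hind_bc : ∀ s t : ℝ, s • b + t • c = 0 → s = 0 ∧ t = 0 := by
    intro s t hst
    rw [hc_eq] at hst
    have h1 : (-(t * (α / γ))) • a + (s - t * (β / γ)) • b = 0 := by
      rw [← hst]; module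
    obtain ⟨h2, h3⟩ := hind _ _ h1
    have h4 : t = 0 := by
      have : t * (α / γ) = 0 := by linarith
      rcases mul_eq_zero.mp this with h | h
      · exact h
      · exfalso
        have : 0 < α / γ := by positivity
        linarith
    rw [h4] at h3
    exact ⟨by linarith, h4⟩
  have hind_ac : ∀ s t : ℝ, s • a + t • c = 0 → s = 0 ∧ t = 0 := by
    intro s t hst
    rw [hc_eq] at hst
    have h1 : (s - t * (α / γ)) • a + (-(t * (β / γ))) • b = 0 := by
      rw [← hst]; module
    obtain ⟨h2, h3⟩ := hind _ _ h1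
    have h4 : t = 0 := by
      have : t * (β / γ) = 0 := by linarith
      rcases mul_eq_zero.mp this with h | h
      · exact h
      · exfalso
        have : 0 < β / γ := by positivity
        linarith
    rw [h4] at h2
    exact ⟨by linarith, h4⟩
  have hspan_ab : ∀ x : W, ∃ s t : ℝ, x = s • a + t • b := fun x => ⟨_, _, hrep x⟩
  have hspan_bc : ∀ x : W, ∃ s t : ℝ, x = s • b + t • c := by
    intro x
    refine ⟨la x * (-(β / α)) + mu x, la x * (-(γ / α)), ?_⟩
    conv_lhs => rw [hrep x, ha_eq]
    module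
  have hspan_ac : ∀ x : W, ∃ s t : ℝ, x = s • a + t • c := by
    intro x
    refine ⟨la x + mu x * (-(α / β)), mu x * (-(γ / β)), ?_⟩
    conv_lhs => rw [hrep x]
    conv_lhs => rw [hb_eq]
    module
  refine ⟨![wa, wb, wc], ?_⟩
  intro f hf
  by_contra hcon
  push Not at hcon
  obtain ⟨xa, hxa, hxa'⟩ := hcon 0
  obtain ⟨xb, hxb, hxb'⟩ := hcon 1
  obtain ⟨xc, hxc, hxc'⟩ := hcon 2
  simp only [Matrix.cons_val_zero] at hxa'
  simp only [Matrix.cons_val_one] at hxb'
  simp only [Matrix.cons_val_two, Matrix.tail_cons, Matrix.head_cons] at hxc'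
  have hpa := pos_of_face h0 hf hxa
  have hpb := pos_of_face h0 hf hxb
  have hpc := pos_of_face h0 hf hxc
  have hU1 : 0 < (β + γ) / α := by positivity
  have hU2 : 0 < (α + γ) / β := by positivity
  have hU3 : 0 < (α + β) / γ := by positivity
  -- the three symmetric contradictions
  have c_ab : ∀ p q, p ∈ face L f → q ∈ face L f → 0 < f p → wa p ≤ 0 → wb p ≤ 0 → wc q ≤ 0 →
      False := fun p q hp hq hfp h1 h2 h3 =>
    two_nonpos hconv h0 ha hb hind hspan_ab hU1 hU2 hUV1 wa_a wa_b wb_b wb_a wc_a wc_b hp hq hfp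
      h1 h2 h3
  have c_bc : ∀ p q, p ∈ face L f → q ∈ face L f → 0 < f p → wb p ≤ 0 → wc p ≤ 0 → wa q ≤ 0 →
      False := fun p q hp hq hfp h1 h2 h3 =>
    two_nonpos hconv h0 hb hc hind_bc hspan_bc hU2 hU3 hUV2 wb_b wb_c wc_c wc_b wa_b wa_c hp hq hfp
      h1 h2 h3
  have c_ac : ∀ p q, p ∈ face L f → q ∈ face L f → 0 < f p → wa p ≤ 0 → wc p ≤ 0 → wb q ≤ 0 →
      False := fun p q hp hq hfp h1 h2 h3 =>
    two_nonpos hconv h0 ha hc hind_ac hspan_ac hU1 hU3 hUV3 wa_a wa_c wc_c wc_a wb_a wb_c hp hq hfp
      h1 h2 h3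
  rcases face_collinear hdim hf hxa hxb hxc with h | h | h
  · rcases wbtw_nonpos h hxb' with h' | h'
    · exact c_ab xa xc hxa hxc hpa hxa' h' hxc'
    · exact c_bc xc xa hxc hxa hpc h' hxc' hxa'
  · rcases wbtw_nonpos h hxc' with h' | h'
    · exact c_bc xb xa hxb hxa hpb hxb' h' hxa'
    · exact c_ac xa xb hxa hxb hpa hxa' h' hxb'
  · rcases wbtw_nonpos h hxa' with h' | h'
    · exact c_ac xc xb hxc hxb hpc h' hxc' hxb'
    · exact c_ab xb xc hxb hxc hpb h' hxb' hxc'

/-- Levi's theorem in separation form: a planar convex body with the origin in its interior either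
needs only three functionals or is a cross-body centred at the origin. -/
theorem levi [FiniteDimensional ℝ W] (hdim : Module.finrank ℝ W = 2) {L : Set W}
    (hL : IsCompact L) (hconv : Convex ℝ L) (h0 : (0 : W) ∈ interior L) :
    Sep L 3 ∨ CrossBody 2 L := by
  have hnt : Nontrivial W := Module.nontrivial_of_finrank_pos (R := ℝ) (by omega)
  by_cases hsep : Sep L 3
  · exact Or.inl hsep
  right
  -- a first extreme point
  obtain ⟨v₀, hv₀⟩ := exists_ne (0 : W)
  obtain ⟨g₀, hg₀⟩ := SeparatingDual.exists_eq_one (R := ℝ) hv₀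
  have hg₀' : g₀ ≠ 0 := by
    rintro rfl
    simp at hg₀
  obtain ⟨a, ha, -⟩ := exists_extreme_pos hL hconv h0 hg₀'
  have ha0 : a ≠ 0 := extreme_ne_zero h0 ha
  obtain ⟨v, hv⟩ := exists_linearIndependent_pair_of_one_lt_finrank (R := ℝ) (by omega) ha0
  have hind := LinearIndependent.pair_iff.mp hv
  let B := basisOfLinearIndependentOfCardEqFinrank hv (by simp [hdim])
  have hB : ⇑B = ![a, v] := coe_basisOfLinearIndependentOfCardEqFinrank hv _
  have hB0 : B 0 = a := by rw [hB]; rfl
  have hB1 : B 1 = v := by rw [hB]; rfl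
  let g : W →L[ℝ] ℝ := LinearMap.toContinuousLinearMap (B.coord 0)
  let f : W →L[ℝ] ℝ := LinearMap.toContinuousLinearMap (B.coord 1)
  have hg_a : g a = 1 := by
    change B.coord 0 a = 1
    rw [← hB0]; simp
  have hf_a : f a = 0 := by
    change B.coord 1 a = 0
    rw [← hB0]; simp
  have hf_v : f v = 1 := by
    change B.coord 1 v = 1
    rw [← hB1]; simp
  have hrep : ∀ x : W, x = g x • a + f x • v := by
    intro x
    have := B.sum_repr x
    rw [Fin.sum_univ_two, hB0, hB1] at this
    exact this.symm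
  have hf0 : f ≠ 0 := by
    intro h
    rw [h] at hf_v
    simp at hf_v
  have hg0 : g ≠ 0 := by
    intro h
    rw [h] at hg_a
    simp at hg_a
  obtain ⟨p₀, hp₀, hfp₀⟩ := exists_extreme_pos hL hconv h0 hf0
  obtain ⟨m₀, hm₀, hfm₀'⟩ := exists_extreme_pos hL hconv h0 (neg_ne_zero.mpr hf0)
  have hfm₀ : f m₀ < 0 := by simpa using hfm₀'
  -- independence of `a` and any vector off the line
  have hinda : ∀ e : W, f e ≠ 0 → ∀ s t : ℝ, s • a + t • e = 0 → s = 0 ∧ t = 0 := by
    intro e he s t hst
    have h1 := congrArg f hst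
    rw [map_add, map_smul, map_smul, hf_a, map_zero] at h1
    simp only [smul_eq_mul, mul_zero, zero_add] at h1
    have ht : t = 0 := (mul_eq_zero.mp h1).resolve_right he
    rw [ht, zero_smul, add_zero] at hst
    exact ⟨(smul_eq_zero.mp hst).resolve_right ha0, ht⟩
  have hcomb : ∀ x y : W, (-(f y)) • x + (f x) • y = (-(f y) * g x + f x * g y) • a := by
    intro x y
    conv_lhs => rw [hrep x, hrep y]
    simp only [map_add, map_smul, hf_a, hf_v, smul_eq_mul, mul_zero, mul_one, zero_add]
    module
  -- every pair has nonnegative crossing with the line through `a`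
  have hpair : ∀ x ∈ L.extremePoints ℝ, ∀ y ∈ L.extremePoints ℝ, 0 < f x → f y < 0 →
      0 ≤ -(f y) * g x + f x * g y := by
    intro x hx y hy hfx hfy
    by_contra hcon
    push Not at hcon
    apply hsep
    refine triple hdim hconv h0 ha hx hy (hinda x hfx.ne')
      (α := -(-(f y) * g x + f x * g y)) (β := -(f y)) (γ := f x) (by linarith) (by linarith)
      hfx ?_
    have := hcomb x y
    rw [add_assoc, this]
    module
  -- an extreme point opposite to `a`
  by_cases hopp : ∃ a' ∈ L.extremePoints ℝ, f a' = 0 ∧ g a' < 0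
  · obtain ⟨a', ha', hfa', hga'⟩ := hopp
    have ha'_eq : a' = g a' • a := by
      have := hrep a'
      rwa [hfa', zero_smul, add_zero] at this
    -- all crossings vanish
    have hpair0 : ∀ x ∈ L.extremePoints ℝ, ∀ y ∈ L.extremePoints ℝ, 0 < f x → f y < 0 →
        -(f y) * g x + f x * g y = 0 := by
      intro x hx y hy hfx hfy
      by_contra hne
      have hpos : 0 < -(f y) * g x + f x * g y :=
        lt_of_le_of_ne (hpair x hx y hy hfx hfy) (Ne.symm hne)
      apply hsep
      have hind' : ∀ s t : ℝ, s • a' + t • x = 0 → s = 0 ∧ t = 0 := by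
        intro s t hst
        rw [ha'_eq, smul_smul] at hst
        obtain ⟨h1, h2⟩ := hinda x hfx.ne' _ _ hst
        exact ⟨(mul_eq_zero.mp h1).resolve_right hga'.ne, h2⟩
      refine triple hdim hconv h0 ha' hx hy hind'
        (α := (-(f y) * g x + f x * g y) / (-(g a'))) (β := -(f y)) (γ := f x)
        (div_pos hpos (by linarith)) (by linarith) hfx ?_
      have := hcomb x y
      rw [add_assoc, this]
      have h3 : (-(f y) * g x + f x * g y) / (-(g a')) * g a'
          + (-(f y) * g x + f x * g y) = 0 := by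
        have : g a' ≠ 0 := hga'.ne
        field_simp
        ring
      have h5 : ((-(f y) * g x + f x * g y) / (-(g a'))) • a'
          = ((-(f y) * g x + f x * g y) / (-(g a')) * g a') • a := by
        rw [← smul_smul, ← ha'_eq]
      rw [h5, ← add_smul, h3, zero_smul]
    -- the point opposite to `p₀`
    set t₁ : ℝ := f m₀ / f p₀ with ht₁
    have ht₁neg : t₁ < 0 := div_neg_of_neg_of_pos hfm₀ hfp₀
    have hm₀_eq : m₀ = t₁ • p₀ := by
      have h1 := hcomb p₀ m₀
      rw [hpair0 p₀ hp₀ m₀ hm₀ hfp₀ hfm₀, zero_smul] at h1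
      have h2 : f p₀ • m₀ = f m₀ • p₀ := by
        have : f p₀ • m₀ = (-(f m₀) • p₀ + f p₀ • m₀) + f m₀ • p₀ := by module
        rw [this, h1, zero_add]
      rw [ht₁, div_eq_inv_mul, ← smul_smul, ← h2, smul_smul, inv_mul_cancel₀ hfp₀.ne', one_smul]
    -- all extreme points
    have hext : L.extremePoints ℝ ⊆ {a, a', p₀, m₀} := by
      intro e he
      simp only [mem_insert_iff, mem_singleton_iff]
      rcases lt_trichotomy (f e) 0 with h | h | h
      · right; right; right
        have h1 := hcomb p₀ e
        rw [hpair0 p₀ hp₀ e he hfp₀ h, zero_smul] at h1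
        have h2 : f p₀ • e = f e • p₀ := by
          have : f p₀ • e = (-(f e) • p₀ + f p₀ • e) + f e • p₀ := by module
          rw [this, h1, zero_add]
        have h3 : e = (f e / f m₀) • m₀ := by
          rw [hm₀_eq, smul_smul]
          have h4 : f e / f m₀ * t₁ = f e / f p₀ := by
            rw [ht₁]
            have := hfm₀.ne
            have := hfp₀.ne'
            field_simp
          have h4' : f e / f (t₁ • p₀) * t₁ = f e / f p₀ := by
            rw [← hm₀_eq]; exact h4
          rw [h4', div_eq_inv_mul, ← smul_smul, ← h2, smul_smul, inv_mul_cancel₀ hfp₀.ne',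
            one_smul]
        exact extreme_same_ray h0 hm₀ he (div_pos_of_neg_of_neg h hfm₀) h3
      · have h1 : e = g e • a := by
          have := hrep e
          rwa [h, zero_smul, add_zero] at this
        rcases lt_trichotomy (g e) 0 with h2 | h2 | h2
        · right; left
          have h3 : e = (g e / g a') • a' := by
            have h4 : (g e / g a') • a' = g e • a := by
              conv_lhs => rw [ha'_eq]
              rw [smul_smul, ← ha'_eq, div_mul_cancel₀ _ hga'.ne]
            rw [h4]; exact h1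
          exact extreme_same_ray h0 ha' he (div_pos_of_neg_of_neg h2 hga') h3
        · exfalso
          rw [h2, zero_smul] at h1
          exact extreme_ne_zero h0 he h1
        · left
          exact extreme_same_ray h0 ha he h2 h1
      · right; right; left
        have h1 := hcomb e m₀
        rw [hpair0 e he m₀ hm₀ h hfm₀, zero_smul] at h1
        have h2 : f m₀ • e = f e • m₀ := by
          have : f e • m₀ = (-(f m₀) • e + f e • m₀) + f m₀ • e := by module
          rw [this, h1, zero_add]
        have h3 : e = (f e / f p₀) • p₀ := by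
          have h4 : f m₀ • ((f e / f p₀) • p₀) = f m₀ • e := by
            rw [h2]
            conv_rhs => rw [hm₀_eq]
            rw [smul_smul, smul_smul, ht₁]
            congr 1
            ring
          exact ((smul_right_injective W hfm₀.ne) h4).symm
        exact extreme_same_ray h0 hp₀ he (div_pos h hfp₀) h3
    have hext2 : ({a, a', p₀, m₀} : Set W) ⊆ L := by
      intro x hx
      simp only [mem_insert_iff, mem_singleton_iff] at hx
      rcases hx with rfl | rfl | rfl | rfl
      · exact ha.1
      · exact ha'.1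
      · exact hp₀.1
      · exact hm₀.1
    have hfin : ({a, a', p₀, m₀} : Set W).Finite := by simp
    have hLeq : L = convexHull ℝ ({a, a', p₀, m₀} : Set W) := by
      apply Subset.antisymm
      · rw [← closure_convexHull_extremePoints hL hconv]
        apply closure_minimal (convexHull_mono hext)
        exact hfin.isClosed_convexHull ℝ
      · exact convexHull_min hext2 hconv
    -- conclusion
    have hlip : LinearIndependent ℝ ![a, p₀] := LinearIndependent.pair_iff.mpr (hinda p₀ hfp₀.ne')
    let B' := basisOfLinearIndependentOfCardEqFinrank hlip (by simp [hdim])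
    have hB' : ⇑B' = ![a, p₀] := coe_basisOfLinearIndependentOfCardEqFinrank hlip _
    have hB0' : B' 0 = a := by rw [hB']; rfl
    have hB1' : B' 1 = p₀ := by rw [hB']; rfl
    refine ⟨B', ![-(g a'), -t₁], ?_, ?_⟩
    · intro i
      fin_cases i
      · simpa using hga'
      · simpa using ht₁neg
    · rw [hLeq]
      congr 1
      ext x
      simp only [mem_insert_iff, mem_singleton_iff, mem_iUnion, Fin.exists_fin_two, hB0', hB1',
        Matrix.cons_val_zero, Matrix.cons_val_one, neg_neg]
      rw [← ha'_eq, ← hm₀_eq]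
      tauto
  · -- no opposite extreme point: contradiction
    exfalso
    push Not at hopp
    let S : Set ℝ := {r | ∃ x ∈ L.extremePoints ℝ, 0 < f x ∧ r = g x / f x}
    have hSne : S.Nonempty := ⟨_, p₀, hp₀, hfp₀, rfl⟩
    have hlow : ∀ y ∈ L.extremePoints ℝ, f y < 0 → ∀ r ∈ S, g y / f y ≤ r := by
      rintro y hy hfy r ⟨x, hx, hfx, rfl⟩
      have h1 := hpair x hx y hy hfx hfy
      have h2 : g y / f y - g x / f x = (-(f y) * g x + f x * g y) / (f x * f y) := by
        have := hfx.ne'
        have := hfy.ne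
        field_simp
        ring
      have h3 : (-(f y) * g x + f x * g y) / (f x * f y) ≤ 0 :=
        div_nonpos_of_nonneg_of_nonpos h1 (by nlinarith)
      linarith
    have hSbdd : BddBelow S := ⟨g m₀ / f m₀, fun r hr => hlow m₀ hm₀ hfm₀ r hr⟩
    set ρ := sInf S with hρ
    let φ : W →L[ℝ] ℝ := g - ρ • f
    have hφa : φ a = 1 := by simp [φ, hg_a, hf_a]
    have hφ0 : φ ≠ 0 := by
      intro h
      rw [h] at hφa
      simp at hφa
    obtain ⟨e, he, hφe⟩ := exists_extreme_pos hL hconv h0 (neg_ne_zero.mpr hφ0)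
    have hφe' : g e - ρ * f e < 0 := by
      have h1 : (-φ) e = -(g e - ρ * f e) := by simp [φ]
      rw [h1] at hφe
      linarith
    rcases lt_trichotomy (f e) 0 with h | h | h
    · have h1 : g e / f e ≤ ρ := le_csInf hSne (fun r hr => hlow e he h r hr)
      rw [div_le_iff_of_neg h] at h1
      linarith
    · have h1 := hopp e he h
      rw [h] at hφe'
      linarith
    · have h1 : ρ ≤ g e / f e := csInf_le hSbdd ⟨e, he, h, rfl⟩
      rw [le_div_iff₀ h] at h1
      linarith

/-- one-dimensional bodies are cross-bodies -/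
theorem dim_one [FiniteDimensional ℝ W] (hdim : Module.finrank ℝ W = 1) {L : Set W}
    (hL : IsCompact L) (hconv : Convex ℝ L) (h0 : (0 : W) ∈ interior L) :
    CrossBody 1 L := by
  have hnt : Nontrivial W := Module.nontrivial_of_finrank_pos (R := ℝ) (by omega)
  obtain ⟨v₀, hv₀⟩ := exists_ne (0 : W)
  obtain ⟨g, hg⟩ := SeparatingDual.exists_eq_one (R := ℝ) hv₀
  have hg' : g ≠ 0 := by
    rintro rfl
    simp at hg
  obtain ⟨a, ha, hga⟩ := exists_extreme_pos hL hconv h0 hg'
  obtain ⟨a', ha', hga'⟩ := exists_extreme_pos hL hconv h0 (neg_ne_zero.mpr hg')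
  have hga'' : g a' < 0 := by simpa using hga'
  have ha0 : a ≠ 0 := extreme_ne_zero h0 ha
  have hspan : ∀ x : W, ∃ c : ℝ, c • a = x := by
    obtain ⟨w, hw0, hw⟩ := finrank_eq_one_iff'.mp hdim
    intro x
    obtain ⟨c1, hc1⟩ := hw a
    obtain ⟨c2, hc2⟩ := hw x
    have hc1' : c1 ≠ 0 := by
      rintro rfl
      rw [zero_smul] at hc1
      exact ha0 hc1.symm
    refine ⟨c2 / c1, ?_⟩
    rw [← hc1, smul_smul, div_mul_cancel₀ _ hc1', hc2]
  have hgx : ∀ x : W, x = (g x / g a) • a := by
    intro x
    obtain ⟨c, rfl⟩ := hspan x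
    rw [map_smul, smul_eq_mul, mul_div_assoc, div_self hga.ne', mul_one]
  have ht : g a' / g a < 0 := div_neg_of_neg_of_pos hga'' hga
  have hext : L.extremePoints ℝ ⊆ {a, a'} := by
    intro e he
    simp only [mem_insert_iff, mem_singleton_iff]
    rcases lt_trichotomy (g e) 0 with h | h | h
    · right
      have h3 : e = (g e / g a') • a' := by
        conv_rhs => rw [hgx a']
        rw [smul_smul, ← hgx a']
        have : g e / g a' * (g a' / g a) = g e / g a := by
          have := hga''.ne
          field_simp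
        rw [this]
        exact hgx e
      exact extreme_same_ray h0 ha' he (div_pos_of_neg_of_neg h hga'') h3
    · exfalso
      have := hgx e
      rw [h, zero_div, zero_smul] at this
      exact extreme_ne_zero h0 he this
    · left
      exact extreme_same_ray h0 ha he (div_pos h hga) (hgx e)
  have hext2 : ({a, a'} : Set W) ⊆ L := by
    intro x hx
    simp only [mem_insert_iff, mem_singleton_iff] at hx
    rcases hx with rfl | rfl
    · exact ha.1
    · exact ha'.1
  have hfin : ({a, a'} : Set W).Finite := by simp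
  have hLeq : L = convexHull ℝ ({a, a'} : Set W) := by
    apply Subset.antisymm
    · rw [← closure_convexHull_extremePoints hL hconv]
      apply closure_minimal (convexHull_mono hext)
      exact hfin.isClosed_convexHull ℝ
    · exact convexHull_min hext2 hconv
  have hli : LinearIndependent ℝ ![a] := by
    rw [linearIndependent_unique_iff]
    simpa using ha0
  let B' := basisOfLinearIndependentOfCardEqFinrank hli (by simp [hdim])
  have hB' : ⇑B' = ![a] := coe_basisOfLinearIndependentOfCardEqFinrank hli _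
  have hB0' : B' 0 = a := by rw [hB']; rfl
  refine ⟨B', ![-(g a' / g a)], ?_, ?_⟩
  · intro i
    fin_cases i
    simpa using ht
  · rw [hLeq]
    congr 1
    ext x
    have h5 : a' = (g a' / g a) • a := hgx a'
    simp only [mem_insert_iff, mem_singleton_iff, mem_iUnion, Fin.exists_fin_one, hB0',
      Matrix.cons_val_fin_one, neg_neg]
    rw [← h5]

end Pool.Agent.Lib.MP_5e7226_co
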