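import Mathlib
import Pool.Agent.Lib.MP_5e7226_co.Reduction

set_option autoImplicit false

open Set Filter Topology

namespace Pool.Agent.Lib.MP_5e7226_co

variable {W : Type*} [NormedAddCommGroup W] [NormedSpace ℝ W] [FiniteDimensional ℝ W]

section cross

variable {n : ℕ} (b : Module.Basis (Fin n) ℝ W) (t : Fin n → ℝ)

lemma tau_apply (σ : Fin n → Bool) (z : W) :
    tau b σ z = ∑ i, (if σ i then (1 : ℝ) else -1) * b.repr z i := by
  unfold tau
  rw [sum_apply]
  apply Finset.sum_congr rfl
  intro i _
  rw [FunLike.coe_smul, Pi.smul_apply, smul_eq_mul]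
  rfl

lemma tau_pos (ht : ∀ i, 0 < t i) {s : W →L[ℝ] ℝ} {z : W}
    (hz : z ∈ face (convexHull ℝ (⋃ i, {b i, -(t i) • b i})) s) (hpos : 0 < s z)
    {σ : Fin n → Bool} (hσ : Compat b t (convexHull ℝ (⋃ i, {b i, -(t i) • b i})) σ s) :
    0 < tau b σ z := by
  have hsign := compat_signs b t ht hz hpos hσ
  rw [tau_apply]
  have hnn : ∀ i, 0 ≤ (if σ i then (1 : ℝ) else -1) * b.repr z i := by
    intro i
    rcases lt_trichotomy (b.repr z i) 0 with h | h | h
    · rw [(hsign i).2 h]; simp; linarith
    · rw [h]; simp
    · rw [(hsign i).1 h]; simp; linarith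
  apply Finset.sum_pos'
  · intro i _; exact hnn i
  · by_contra hcon
    push Not at hcon
    have hz0 : ∀ i, b.repr z i = 0 := by
      intro i
      have h1 := hcon i (Finset.mem_univ i)
      have h2 := hnn i
      have h3 : (if σ i then (1 : ℝ) else -1) * b.repr z i = 0 := le_antisymm h1 h2
      rcases mul_eq_zero.mp h3 with h | h
      · split_ifs at h <;> norm_num at h
      · exact h
    have : z = 0 := by
      apply b.repr.injective
      ext i
      simpa using hz0 i
    rw [this] at hpos
    simp at hpos

lemma exists_compat (ht : ∀ i, 0 < t i) {L : Set W} (h0 : (0 : W) ∈ interior L)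
    {s : W →L[ℝ] ℝ} (hs : s ≠ 0) : Compat b t L (fun i => decide (0 ≤ s (b i))) s := by
  obtain ⟨y, hy, hpos⟩ := exists_pos_of_interior h0 hs
  intro i
  refine ⟨y, hy, lt_of_le_of_lt ?_ hpos⟩
  unfold cvert
  split_ifs with h
  · have h' : 0 ≤ s (b i) := by simpa using h
    rw [map_smul, smul_eq_mul]
    have := ht i
    nlinarith
  · have h' : ¬ 0 ≤ s (b i) := by simpa using h
    linarith

omit [FiniteDimensional ℝ W] in
lemma compat_open {L : Set W} {σ : Fin n → Bool} {s : W →L[ℝ] ℝ} (h : Compat b t L σ s) :
    ∀ᶠ s' in 𝓝 s, Compat b t L σ s' := by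
  unfold Compat
  rw [eventually_all]
  intro i
  obtain ⟨y, hy, hlt⟩ := h i
  have c1 : Continuous (fun s' : W →L[ℝ] ℝ => s' (cvert b t σ i)) :=
    continuous_eval.comp (continuous_id.prodMk continuous_const)
  have c2 : Continuous (fun s' : W →L[ℝ] ℝ => s' y) :=
    continuous_eval.comp (continuous_id.prodMk continuous_const)
  filter_upwards [c1.continuousAt.eventually_lt c2.continuousAt hlt] with s' hs'
  exact ⟨y, hy, hs'⟩

/-- sign of a sign vector -/
def sgn (σ : Fin n → Bool) : ℤ := ∏ i, if σ i then 1 else -1

lemma sgn_eq (σ : Fin n → Bool) : sgn σ = 1 ∨ sgn σ = -1 := by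
  unfold sgn
  apply Finset.prod_induction (fun i => if σ i then (1 : ℤ) else -1) (fun x => x = 1 ∨ x = -1)
  · rintro a b (rfl | rfl) (rfl | rfl) <;> simp
  · left; rfl
  · intro i _
    split_ifs <;> simp

lemma sgn_flip (σ : Fin n → Bool) (i : Fin n) :
    sgn (Function.update σ i (!σ i)) = - sgn σ := by
  unfold sgn
  rw [← Finset.mul_prod_erase Finset.univ _ (Finset.mem_univ i),
    ← Finset.mul_prod_erase Finset.univ (fun j => if σ j then (1 : ℤ) else -1) (Finset.mem_univ i)]
  have : ∏ x ∈ Finset.univ.erase i, (if Function.update σ i (!σ i) x then (1 : ℤ) else -1)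
      = ∏ x ∈ Finset.univ.erase i, (if σ x then (1 : ℤ) else -1) := by
    apply Finset.prod_congr rfl
    intro j hj
    rw [Function.update_of_ne (Finset.ne_of_mem_erase hj)]
  rw [this]
  rw [Function.update_self]
  cases σ i <;> simp

end cross

/-- Reduction when the slice is a cross-body. -/
theorem cross_reduction {p : ℕ} (hp : 7 ≤ p) {ζ : ℂ} (hζ : IsPrimitiveRoot ζ p)
    {K : Set (ℂ × W)} (hK : IsCompact K) (hconv : Convex ℝ K) (hinv : RotInv ζ K)
    (h0 : (0 : ℂ × W) ∈ interior K) {n : ℕ} (hn : 0 < n) (h : CrossBody n (slice K)) :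
    Sep K (3 * 2 ^ n) := by
  classical
  obtain ⟨b, t, ht, hL⟩ := h
  have h0L : (0 : W) ∈ interior (slice K) := slice_interior h0
  -- the sign vectors whose face carries a non-horizontal support
  let V1 : (Fin n → Bool) → Prop := fun σ =>
    ∃ f : (ℂ × W) →L[ℝ] ℝ, nv f ≠ 0 ∧ ∀ i, ((0 : ℂ), vert b t σ i) ∈ face K f
  let A : ℤ → Finset (Fin n → Bool) := fun e => Finset.univ.filter (fun σ => ¬ V1 σ ∧ sgn σ = e)
  -- choice of parity
  obtain ⟨e, he, hcard⟩ : ∃ e : ℤ, (e = 1 ∨ e = -1) ∧
      (A e).card ≤ (A (-e)).card := by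
    rcases le_total (A 1).card (A (-1)).card with h | h
    · exact ⟨1, Or.inl rfl, h⟩
    · exact ⟨-1, Or.inr rfl, by simpa using h⟩
  let κ₁ := {σ : Fin n → Bool // V1 σ ∨ sgn σ = e}
  let κ₀ := {σ : Fin n → Bool // ¬ V1 σ}
  have hne : Nonempty κ₁ := by
    let σ₀ : Fin n → Bool := fun _ => true
    by_cases h1 : sgn σ₀ = e
    · exact ⟨⟨σ₀, Or.inr h1⟩⟩
    · refine ⟨⟨Function.update σ₀ ⟨0, hn⟩ (!σ₀ ⟨0, hn⟩), Or.inr ?_⟩⟩
      rw [sgn_flip]
      have := sgn_eq σ₀
      omega
  have hfacepos : ∀ s : W →L[ℝ] ℝ, s ≠ 0 → ∀ σ, Compat b t (slice K) σ s →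
      ∀ z ∈ face (slice K) s, 0 < tau b σ z := by
    intro s hs σ hσ z hz
    have hpos := pos_of_face h0L hs hz
    rw [hL] at hz hσ
    exact tau_pos b t ht hz hpos hσ
  have key := core hp hζ hK hconv hinv (κ₁ := κ₁) (κ₀ := κ₀) (fun σ => tau b σ.1)
    (fun σ => tau b σ.1) (by
      intro f hnf z₀ hz₀
      have hsz := sv_ne_zero h0 hnf hz₀
      have hs : sv f ≠ 0 := by
        intro h
        simp [h] at hsz
      set σ : Fin n → Bool := fun i => decide (0 ≤ sv f (b i)) with hσdef
      have hσ : Compat b t (slice K) σ (sv f) := exists_compat b t ht h0L hs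
      by_cases hpar : sgn σ = e
      · exact ⟨⟨σ, Or.inr hpar⟩, fun z hz => hfacepos _ hs σ hσ z (mem_face_slice hz)⟩
      by_cases hflip : ∃ i, Compat b t (slice K) (Function.update σ i (!σ i)) (sv f)
      · obtain ⟨i, hi⟩ := hflip
        refine ⟨⟨Function.update σ i (!σ i), Or.inr ?_⟩, fun z hz =>
          hfacepos _ hs _ hi z (mem_face_slice hz)⟩
        rw [sgn_flip]
        have := sgn_eq σ
        omega
      · push Not at hflip
        refine ⟨⟨σ, Or.inl ⟨f, hnf, ?_⟩⟩, fun z hz => hfacepos _ hs σ hσ z (mem_face_slice hz)⟩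
        intro i
        have h1 := hflip i
        unfold Compat at h1
        push Not at h1
        obtain ⟨j, hj⟩ := h1
        have hji : j = i := by
          by_contra hne
          obtain ⟨y, hy, hlt⟩ := hσ j
          have h2 := hj y hy
          have h3 : cvert b t (Function.update σ i (!σ i)) j = cvert b t σ j := by
            unfold cvert
            rw [Function.update_of_ne hne]
          rw [h3] at h2
          linarith
        subst hji
        have h3 : cvert b t (Function.update σ j (!σ j)) j = vert b t σ j := by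
          unfold cvert vert
          rw [Function.update_self]
          cases σ j <;> simp
        rw [h3] at hj
        have hvL : vert b t σ j ∈ slice K := by
          rw [hL]
          apply subset_convexHull ℝ _
          rw [mem_iUnion]
          refine ⟨j, ?_⟩
          unfold vert
          split_ifs <;> simp
        refine ⟨hvL, ?_⟩
        intro y hy
        have h4 := hz₀.2 y hy
        have h5 := hj z₀ hz₀.1
        have h6 : f ((0 : ℂ), z₀) = sv f z₀ := by
          rw [f_apply]; simp [dotC]
        have h7 : f ((0 : ℂ), vert b t σ j) = sv f (vert b t σ j) := by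
          rw [f_apply]; simp [dotC]
        rw [h7]
        rw [h6] at h4
        linarith) (by
      intro s hs
      by_cases hc : ∃ σ, Compat b t (slice K) σ s ∧ ¬ V1 σ
      · obtain ⟨σ, hσ, hV⟩ := hc
        exact Or.inl ⟨⟨σ, hV⟩, hfacepos s hs σ hσ⟩
      · push Not at hc
        right
        set σ : Fin n → Bool := fun i => decide (0 ≤ s (b i)) with hσdef
        have hσ : Compat b t (slice K) σ s := exists_compat b t ht h0L hs
        have hV : V1 σ := hc σ hσ
        refine ⟨⟨⟨σ, Or.inl hV⟩, hfacepos s hs σ hσ⟩, ?_⟩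
        have hopen := compat_open b t hσ
        have hnz : ∀ᶠ s' in 𝓝 s, s' ≠ 0 := eventually_ne_nhds hs
        filter_upwards [hopen, hnz] with s' hs' hs'0
        intro x hx
        obtain ⟨f₁, hf₁n, hf₁⟩ := hV
        have hxL : x.2 ∈ slice K := hinv.avg hp hζ hconv hx.1
        have hxf : x.2 ∈ face (slice K) s' := by
          refine ⟨hxL, ?_⟩
          intro y hy
          have := hx.2 _ hy
          simpa [dotC] using this
        have hpos := pos_of_face h0L hs'0 hxf
        have hxf' := hxf
        rw [hL] at hxf' hs'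
        obtain ⟨hg, hterm⟩ := face_terms b t ht s' hxf' hpos
        have hsign := compat_signs b t ht hxf' hpos hs'
        -- the maximum of `f₁`
        have hM : ∀ i y, y ∈ K → f₁ y ≤ sv f₁ (vert b t σ i) := by
          intro i y hy
          have := (hf₁ i).2 y hy
          rwa [f_apply f₁ ((0 : ℂ), vert b t σ i), show dotC (nv f₁) 0 = 0 by simp [dotC],
            zero_add] at this
        set M := sv f₁ (vert b t σ ⟨0, hn⟩) with hMdef
        have hMi : ∀ i, sv f₁ (vert b t σ i) = M := by
          intro i
          apply le_antisymm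
          · have := hM ⟨0, hn⟩ _ (hf₁ i).1
            rwa [f_apply f₁ ((0 : ℂ), vert b t σ i), show dotC (nv f₁) 0 = 0 by simp [dotC],
              zero_add] at this
          · have := hM i _ (hf₁ ⟨0, hn⟩).1
            rwa [f_apply f₁ ((0 : ℂ), vert b t σ ⟨0, hn⟩), show dotC (nv f₁) 0 = 0 by simp [dotC],
              zero_add] at this
        have hval : sv f₁ x.2 = M := by
          rw [s_eq_sum b (sv f₁) x.2]
          have : ∀ i, sv f₁ (b i) * b.repr x.2 i
              = M * max (b.repr x.2 i) (-(b.repr x.2 i) / t i) := by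
            intro i
            have hti := ht i
            rcases lt_trichotomy (b.repr x.2 i) 0 with h | h | h
            · have h1 := (hsign i).2 h
              have h2 := hMi i
              unfold vert at h2
              rw [h1] at h2
              simp only [Bool.false_eq_true, if_false] at h2
              rw [map_smul, smul_eq_mul] at h2
              have hm : max (b.repr x.2 i) (-(b.repr x.2 i) / t i) = -(b.repr x.2 i) / t i := by
                apply max_eq_right
                rw [le_div_iff₀ hti]
                nlinarith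
              rw [hm, ← h2]
              field_simp
            · rw [h]; simp
            · have h1 := (hsign i).1 h
              have h2 := hMi i
              unfold vert at h2
              rw [h1] at h2
              simp only [if_true] at h2
              have hm : max (b.repr x.2 i) (-(b.repr x.2 i) / t i) = b.repr x.2 i := by
                apply max_eq_left
                rw [div_le_iff₀ hti]
                nlinarith
              rw [hm, h2]
          rw [Finset.sum_congr rfl (fun i _ => this i), ← Finset.mul_sum]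
          have : ∑ i, max (b.repr x.2 i) (-(b.repr x.2 i) / t i) = gau b t x.2 := rfl
          rw [this, hg, mul_one]
        apply eq_zero_of_rot hp hζ hf₁n
        intro k
        have h1 := hM ⟨0, hn⟩ _ (hinv.pow k hx.1)
        rw [f_apply] at h1
        simp only at h1
        linarith)
  apply key.mono
  -- counting
  have hc1 : Fintype.card κ₁ + (A (-e)).card = 2 ^ n := by
    have h1 : Fintype.card κ₁ = (Finset.univ.filter (fun σ : Fin n → Bool => V1 σ ∨ sgn σ = e)).card :=
      Fintype.card_subtype _
    have h2 : (A (-e)) = Finset.univ.filter (fun σ : Fin n → Bool => ¬ (V1 σ ∨ sgn σ = e)) := by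
      ext σ
      simp only [A, Finset.mem_filter, Finset.mem_univ, true_and]
      constructor
      · rintro ⟨h3, h4⟩
        push Not
        refine ⟨h3, ?_⟩
        rw [h4]
        rcases he with h5 | h5 <;> rw [h5] <;> norm_num
      · intro h3
        push Not at h3
        refine ⟨h3.1, ?_⟩
        have := sgn_eq σ
        have := h3.2
        omega
    rw [h1, h2, Finset.card_filter_add_card_filter_not]
    simp
  have hc0 : Fintype.card κ₀ = (A e).card + (A (-e)).card := by
    have h1 : Fintype.card κ₀ = (Finset.univ.filter (fun σ : Fin n → Bool => ¬ V1 σ)).card :=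
      Fintype.card_subtype _
    rw [h1, ← Finset.card_filter_add_card_filter_not (s := Finset.univ.filter
      (fun σ : Fin n → Bool => ¬ V1 σ)) (fun σ => sgn σ = e)]
    congr 2
    · ext σ
      simp [A, Finset.mem_filter]
    · ext σ
      simp only [A, Finset.mem_filter, Finset.mem_univ, true_and]
      constructor
      · rintro ⟨h3, h4⟩
        refine ⟨h3, ?_⟩
        have := sgn_eq σ
        omega
      · rintro ⟨h3, h4⟩
        refine ⟨h3, ?_⟩
        rw [h4]
        rcases he with h5 | h5 <;> rw [h5] <;> norm_num
  omega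

end Pool.Agent.Lib.MP_5e7226_co
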