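import Pool.Agent.Lib.MP_5e7226_co.CubMain

/-!
The dichotomy for centrally symmetric convex bodies.
-/

set_option autoImplicit false

open MeasureTheory Set Module Metric
open scoped InnerProductSpace

namespace Pool.Agent.Lib.MP_5e7226_co.Cub

/-- The dichotomy for a norm given as a seminorm. -/
theorem dichotomyN {E : Type} [AddCommGroup E] [Module ℝ E] [FiniteDimensional ℝ E]
    (N : Seminorm ℝ E) (hN : ∀ x, N x = 0 → x = 0) {d n : ℕ} (hd : finrank ℝ E = d)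
    (hd2 : 2 ≤ d) (hn : 2 ≤ n) (hnd : 2 * n ≤ d + 2) {τ : ℝ} (hτ0 : 0 < τ) (hτ1 : τ < 1) :
    (∃ v : Fin n → E, (∀ i, N (v i) ≤ 1) ∧ ∀ e : Fin n → ℝ, (∀ i, e i = 1 ∨ e i = -1) →
      ∃ f : E →ₗ[ℝ] ℝ, (∀ v, |f v| ≤ N v) ∧ ∀ i, 1 - τ ≤ e i * f (v i)) ∨
    ∃ (k : ℕ) (w : Fin k → E),
      (k : ℝ) ≤ 8 * d * Real.log (9 * d) * 2 ^ d * (1 - τ / 2 ^ n) ^ ((d : ℝ) / ((n : ℝ) - 1)) + 1 ∧
      ∀ x : E, N x = 1 → ∃ i, N (x - (1 / 2 : ℝ) • w i) ≤ 1 - 3 / (8 * d) := by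
  let nm : Norm E := ⟨N⟩
  have core : NormedSpace.Core ℝ E :=
    { norm_nonneg := fun x => apply_nonneg N x
      norm_smul := fun c x => map_smul_eq_mul N c x
      norm_triangle := fun x y => map_add_le_add N x y
      norm_eq_zero_iff := fun x => ⟨fun h => hN x h, fun h => by rw [h]; exact map_zero N⟩ }
  let nag : NormedAddCommGroup E := NormedAddCommGroup.ofCore core
  let ns : NormedSpace ℝ E := NormedSpace.ofCore core
  exact @dichotomy E nag ns _ d n hd hd2 hn hnd τ hτ0 hτ1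

section body

variable {d : ℕ} {K : Set (EuclideanSpace ℝ (Fin d))} {o : EuclideanSpace ℝ (Fin d)}

/-- The support function of `K - o` as a seminorm. -/
theorem exists_supp (hKk : IsCompact K) (hKn : K.Nonempty) (hsym : ∀ x ∈ K, (2 : ℝ) • o - x ∈ K) :
    ∃ N : Seminorm ℝ (EuclideanSpace ℝ (Fin d)), ∀ u,
      (∀ y ∈ K, |⟪u, y - o⟫_ℝ| ≤ N u) ∧ ∃ x ∈ K, ⟪u, x - o⟫_ℝ = N u := by
  have h1 : ∀ u : EuclideanSpace ℝ (Fin d), ∃ x ∈ K, ∀ y ∈ K, ⟪u, y - o⟫_ℝ ≤ ⟪u, x - o⟫_ℝ := by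
    intro u
    obtain ⟨x, hx, hmax⟩ := hKk.exists_isMaxOn hKn
      (f := fun y => ⟪u, y - o⟫_ℝ) (by fun_prop)
    exact ⟨x, hx, fun y hy => hmax hy⟩
  choose X hX hXmax using h1
  have habs : ∀ u, ∀ y ∈ K, |⟪u, y - o⟫_ℝ| ≤ ⟪u, X u - o⟫_ℝ := by
    intro u y hy
    rw [abs_le]
    refine ⟨?_, hXmax u y hy⟩
    have h2 := hXmax u _ (hsym y hy)
    have h3 : (2 : ℝ) • o - y - o = -(y - o) := by
      module
    rw [h3, inner_neg_right] at h2
    linarith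
  have hadd : ∀ u v, ⟪u + v, X (u + v) - o⟫_ℝ ≤ ⟪u, X u - o⟫_ℝ + ⟪v, X v - o⟫_ℝ := by
    intro u v
    rw [inner_add_left]
    exact add_le_add (hXmax u _ (hX _)) (hXmax v _ (hX _))
  have hle : ∀ (a : ℝ) (u), ⟪a • u, X (a • u) - o⟫_ℝ ≤ |a| * ⟪u, X u - o⟫_ℝ := by
    intro a u
    rw [inner_smul_left]
    simp only [conj_trivial]
    calc a * ⟪u, X (a • u) - o⟫_ℝ ≤ |a * ⟪u, X (a • u) - o⟫_ℝ| := le_abs_self _
      _ = |a| * |⟪u, X (a • u) - o⟫_ℝ| := abs_mul _ _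
      _ ≤ _ := mul_le_mul_of_nonneg_left (habs u _ (hX _)) (abs_nonneg a)
  have hge : ∀ (a : ℝ) (u), |a| * ⟪u, X u - o⟫_ℝ ≤ ⟪a • u, X (a • u) - o⟫_ℝ := by
    intro a u
    have h2 := habs (a • u) (X u) (hX u)
    rw [inner_smul_left, conj_trivial, abs_mul] at h2
    have h3 : 0 ≤ ⟪u, X u - o⟫_ℝ := (abs_nonneg _).trans (habs u _ (hX u))
    rwa [abs_of_nonneg h3] at h2
  refine ⟨Seminorm.of (fun u => ⟪u, X u - o⟫_ℝ) hadd (fun a u => ?_), fun u => ⟨?_, X u, hX u, rfl⟩⟩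
  · rw [Real.norm_eq_abs]
    exact le_antisymm (hle a u) (hge a u)
  · intro y hy
    exact habs u y hy

/-- Functionals of norm `≤ 1` come from points of the body. -/
theorem exists_point (hKc : Convex ℝ K) (hKk : IsCompact K)
    (N : EuclideanSpace ℝ (Fin d) → ℝ) (hN : ∀ u, ∃ x ∈ K, ⟪u, x - o⟫_ℝ = N u)
    (f : EuclideanSpace ℝ (Fin d) →ₗ[ℝ] ℝ) (hf : ∀ v, |f v| ≤ N v) :
    ∃ x ∈ K, ∀ v, f v = ⟪v, x - o⟫_ℝ := by
  set y : EuclideanSpace ℝ (Fin d) :=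
    (InnerProductSpace.toDual ℝ _).symm (LinearMap.toContinuousLinearMap f) with hy
  have hfy : ∀ v, f v = ⟪v, y⟫_ℝ := by
    intro v
    rw [real_inner_comm, hy, InnerProductSpace.toDual_symm_apply]
    rfl
  have hmem : o + y ∈ K := by
    by_contra hcon
    obtain ⟨g, c, hg1, hg2⟩ := geometric_hahn_banach_closed_point hKc hKk.isClosed hcon
    set p : EuclideanSpace ℝ (Fin d) := (InnerProductSpace.toDual ℝ _).symm g with hp
    have hgp : ∀ v, g v = ⟪p, v⟫_ℝ := by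
      intro v
      rw [hp, InnerProductSpace.toDual_symm_apply]
    obtain ⟨x, hx, hxN⟩ := hN p
    have h1 := hg1 x hx
    rw [hgp] at h1 hg2
    have h2 := hf p
    rw [hfy] at h2
    have h3 := le_abs_self ⟪p, y⟫_ℝ
    rw [inner_sub_right] at hxN
    rw [inner_add_right] at hg2
    linarith
  refine ⟨o + y, hmem, fun v => ?_⟩
  rw [add_sub_cancel_left]
  exact hfy v

/-- A compact convex set which contains points beyond the `(1 - τ)`-cube in every orthant contains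
the `(1 - τ)`-cube. -/
theorem cube_subset {n : ℕ} {τ : ℝ} {S : Set (Fin n → ℝ)} (hSc : Convex ℝ S)
    (hSk : IsCompact S)
    (hS : ∀ e : Fin n → ℝ, (∀ i, e i = 1 ∨ e i = -1) → ∃ s ∈ S, ∀ i, 1 - τ ≤ e i * s i)
    {t : Fin n → ℝ} (ht : ∀ i, |t i| ≤ 1 - τ) : t ∈ S := by
  by_contra hcon
  obtain ⟨g, c, hg1, hg2⟩ := geometric_hahn_banach_closed_point hSc hSk.isClosed hcon
  set a : Fin n → ℝ := fun i => g (Pi.single i 1) with ha
  have hga : ∀ s : Fin n → ℝ, g s = ∑ i, s i * a i := by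
    intro s
    have h1 : s = ∑ i, s i • (Pi.single i 1 : Fin n → ℝ) := by
      funext j
      simp [Finset.sum_apply, Pi.single_apply]
    conv_lhs => rw [h1]
    rw [map_sum]
    apply Finset.sum_congr rfl
    intro i _
    rw [map_smul, smul_eq_mul]
  obtain ⟨s, hs, hse⟩ := hS (fun i => if 0 ≤ a i then 1 else -1) (fun i => by
    by_cases h : 0 ≤ a i
    · left
      simp [h]
    · right
      simp [h])
  have h1 := hg1 s hs
  have h2 : g t ≤ g s := by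
    rw [hga, hga]
    apply Finset.sum_le_sum
    intro i _
    have h3 := hse i
    have h4 := abs_le.1 (ht i)
    by_cases h : 0 ≤ a i
    · simp only [h, if_true, one_mul] at h3
      exact mul_le_mul_of_nonneg_right (h4.2.trans h3) h
    · simp only [h, if_false] at h3
      push Not at h
      nlinarith
  linarith

/-- **The dichotomy for bodies.** -/
theorem body {n : ℕ} (hd2 : 2 ≤ d) (hn : 2 ≤ n) (hnd : 2 * n ≤ d + 2) {τ : ℝ}
    (hτ0 : 0 < τ) (hτ1 : τ < 1) (hKc : Convex ℝ K) (hKk : IsCompact K) (ho : o ∈ interior K)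
    (hsym : ∀ x ∈ K, (2 : ℝ) • o - x ∈ K) :
    (∃ T : EuclideanSpace ℝ (Fin d) →ₗ[ℝ] (Fin n → ℝ),
      (∀ x ∈ K, ∀ i, |T (x - o) i| ≤ 1) ∧
      ∀ t : Fin n → ℝ, (∀ i, |t i| ≤ 1 - τ) → ∃ x ∈ K, T (x - o) = t) ∨
    ∃ (k : ℕ) (w : Fin k → EuclideanSpace ℝ (Fin d)) (b : Fin k → ℝ),
      (k : ℝ) ≤ 8 * d * Real.log (9 * d) * 2 ^ d * (1 - τ / 2 ^ n) ^ ((d : ℝ) / ((n : ℝ) - 1)) + 1 ∧
      ∀ u x₀ : EuclideanSpace ℝ (Fin d), u ≠ 0 → x₀ ∈ K →
        (∀ y ∈ K, ⟪u, y⟫_ℝ ≤ ⟪u, x₀⟫_ℝ) →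
          ∃ i, ⟪w i, o⟫_ℝ < b i ∧ ∀ x ∈ K, ⟪u, x⟫_ℝ = ⟪u, x₀⟫_ℝ → b i < ⟪w i, x⟫_ℝ := by
  have hd0 : (0 : ℝ) < d := by
    have : 0 < d := by omega
    exact_mod_cast this
  obtain ⟨N, hNK⟩ := exists_supp hKk ⟨o, interior_subset ho⟩ hsym
  have hpos : ∀ u, u ≠ 0 → 0 < N u := by
    intro u hu
    have hun : 0 < ‖u‖ := norm_pos_iff.mpr hu
    obtain ⟨r, hr, hball⟩ := Metric.isOpen_iff.mp isOpen_interior o ho
    have hmem : o + (r / 2 / ‖u‖) • u ∈ K := by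
      apply interior_subset
      apply hball
      rw [Metric.mem_ball, dist_eq_norm, add_sub_cancel_left, norm_smul, Real.norm_eq_abs,
        abs_of_pos (by positivity), div_mul_cancel₀ _ hun.ne']
      linarith
    have h1 := (le_abs_self _).trans ((hNK u).1 _ hmem)
    rw [add_sub_cancel_left, inner_smul_right, real_inner_self_eq_norm_sq] at h1
    have : 0 < r / 2 / ‖u‖ * ‖u‖ ^ 2 := by positivity
    linarith
  rcases dichotomyN N (fun x hx => by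
    by_contra h
    exact (hpos x h).ne' hx) (by simp : finrank ℝ (EuclideanSpace ℝ (Fin d)) = d) hd2 hn hnd
    hτ0 hτ1 with ⟨v, hv1, hv2⟩ | ⟨k, w, hk, hw⟩
  · left
    let T : EuclideanSpace ℝ (Fin d) →ₗ[ℝ] (Fin n → ℝ) :=
      LinearMap.pi fun i => (innerSL ℝ (v i) : EuclideanSpace ℝ (Fin d) →ₗ[ℝ] ℝ)
    have hT : ∀ x i, T x i = ⟪v i, x⟫_ℝ := fun x i => rfl
    refine ⟨T, fun x hx i => ?_, fun t ht => ?_⟩
    · rw [hT]
      exact ((hNK (v i)).1 x hx).trans (hv1 i)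
    · have hTc : Continuous T := LinearMap.continuous_of_finiteDimensional T
      have hS : t ∈ (fun x => T (x - o)) '' K := by
        have hsub : (fun x => T (x - o)) = fun x => -T o + T x := by
          funext x
          rw [map_sub, sub_eq_neg_add]
        apply cube_subset (τ := τ) _ _ _ ht
        · have h1 : (fun x => T (x - o)) '' K = (fun y => -T o + y) '' (T '' K) := by
            rw [hsub, image_image]
          rw [h1]
          exact Convex.translate (hKc.linear_image T) (-T o)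
        · exact hKk.image (hTc.comp (continuous_id.sub continuous_const))
        · intro e he
          obtain ⟨f, hf, hfe⟩ := hv2 e he
          obtain ⟨x, hx, hxf⟩ := exists_point hKc hKk N (fun u => (hNK u).2) f hf
          refine ⟨T (x - o), ⟨x, hx, rfl⟩, fun i => ?_⟩
          rw [hT, ← hxf]
          exact hfe i
      obtain ⟨x, hx, hxt⟩ := hS
      exact ⟨x, hx, hxt⟩
  · right
    refine ⟨k, w, fun i => ⟪w i, o⟫_ℝ + 3 / (8 * d), hk, fun u x₀ hu hx₀ hmax => ?_⟩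
    have hNu := hpos u hu
    obtain ⟨i, hi⟩ := hw ((N u)⁻¹ • u) (by
      rw [map_smul_eq_mul, Real.norm_eq_abs, abs_of_pos (inv_pos.2 hNu),
        inv_mul_cancel₀ hNu.ne'])
    have hx₀N : ⟪u, x₀ - o⟫_ℝ = N u := by
      apply le_antisymm ((le_abs_self _).trans ((hNK u).1 x₀ hx₀))
      obtain ⟨y, hy, hyN⟩ := (hNK u).2
      rw [← hyN, inner_sub_right, inner_sub_right]
      linarith [hmax y hy]
    have h38 : 0 < 3 / (8 * (d : ℝ)) := by positivity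
    refine ⟨i, by linarith, fun x hx hxe => ?_⟩
    have h1 : ⟪u, x - o⟫_ℝ = N u := by
      rw [← hx₀N, inner_sub_right, inner_sub_right, hxe]
    have h2 := ((le_abs_self _).trans ((hNK ((N u)⁻¹ • u - (1 / 2 : ℝ) • w i)).1 x hx)).trans hi
    rw [inner_sub_left, inner_smul_left, inner_smul_left, h1] at h2
    simp only [conj_trivial] at h2
    rw [inv_mul_cancel₀ hNu.ne'] at h2
    rw [inner_sub_right] at h2
    linarith

end body

end Pool.Agent.Lib.MP_5e7226_co.Cub
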