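import Mathlib

/-!
Almost cubic images of the cross-polytope have dimension `≤ 1 + log₂ d`.
-/

set_option autoImplicit false

namespace Pool.Agent.Lib.MP_5e7226_co.Cub

theorem cross {d n : ℕ} {τ : ℝ} (hd : 1 ≤ d) (hτ : n * τ < 1)
    (T : EuclideanSpace ℝ (Fin d) →ₗ[ℝ] (Fin n → ℝ))
    (hT1 : ∀ x : EuclideanSpace ℝ (Fin d), ∑ j, |x j| ≤ 1 → ∀ i, |T x i| ≤ 1)
    (hT2 : ∀ t : Fin n → ℝ, (∀ i, |t i| ≤ 1 - τ) →
      ∃ x : EuclideanSpace ℝ (Fin d), ∑ j, |x j| ≤ 1 ∧ T x = t) :
    2 ^ n ≤ 2 * d := by
  classical
  rcases Nat.eq_zero_or_pos n with rfl | hn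
  · simp only [pow_zero]
    omega
  have hn' : (1 : ℝ) ≤ n := by exact_mod_cast hn
  have hτ1 : 0 < 1 - τ := by
    rcases le_or_gt τ 0 with h | h
    · linarith
    · nlinarith
  let a : Fin d → Fin n → ℝ := fun j => T (EuclideanSpace.single j 1)
  have ha : ∀ j i, |a j i| ≤ 1 := by
    intro j i
    apply hT1
    rw [Finset.sum_eq_single j]
    · simp
    · intro b _ hb
      simp [hb]
    · intro h
      exact absurd (Finset.mem_univ j) h
  have hTx : ∀ x i, T x i = ∑ j, x j * a j i := by
    intro x i
    have h1 : x = ∑ j, x j • EuclideanSpace.single j (1 : ℝ) := by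
      ext k
      simp [Pi.single_apply]
    conv_lhs => rw [h1]
    rw [map_sum, Finset.sum_apply]
    apply Finset.sum_congr rfl
    intro j _
    rw [map_smul, Pi.smul_apply, smul_eq_mul]
  let s : (Fin n → Bool) → Fin n → ℝ := fun e i => if e i then 1 else -1
  have hs : ∀ e i, |s e i| = 1 := by
    intro e i
    by_cases h : e i = true <;> simp [s, h]
  have hss : ∀ e i, s e i * s e i = 1 := by
    intro e i
    by_cases h : e i = true <;> simp [s, h]
  have key : ∀ e : Fin n → Bool, ∃ p : Fin d × Bool, ∀ i,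
      0 < (if p.2 then 1 else -1 : ℝ) * (s e i * a p.1 i) := by
    intro e
    obtain ⟨x, hx, hxt⟩ := hT2 (fun i => (1 - τ) * s e i) (by
      intro i
      rw [abs_mul, hs, mul_one, abs_of_pos hτ1])
    have h1 : ∑ j, x j * ∑ i, s e i * a j i = (1 - τ) * n := by
      have h2 : ∑ i, s e i * T x i = (1 - τ) * n := by
        rw [hxt]
        have h3 : ∀ i ∈ (Finset.univ : Finset (Fin n)), s e i * ((1 - τ) * s e i) = 1 - τ := by
          intro i _
          calc s e i * ((1 - τ) * s e i) = (1 - τ) * (s e i * s e i) := by ring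
            _ = 1 - τ := by rw [hss, mul_one]
        rw [Finset.sum_congr rfl h3, Finset.sum_const, Finset.card_univ, Fintype.card_fin,
          nsmul_eq_mul]
        ring
      rw [← h2]
      simp_rw [hTx, Finset.mul_sum]
      rw [Finset.sum_comm]
      apply Finset.sum_congr rfl
      intro i _
      apply Finset.sum_congr rfl
      intro j _
      ring
    have h2 : ∃ j, (1 - τ) * n ≤ |∑ i, s e i * a j i| := by
      by_contra hcon
      push Not at hcon
      have h3 : ∑ j, x j * ∑ i, s e i * a j i ≤ ∑ j, |x j| * |∑ i, s e i * a j i| := by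
        apply Finset.sum_le_sum
        intro j _
        rw [← abs_mul]
        exact le_abs_self _
      have hpos : 0 < (1 - τ) * n := by positivity
      have h4 : 0 < ∑ j, |x j| := by
        by_contra h5
        push Not at h5
        have h6 : ∑ j, |x j| * |∑ i, s e i * a j i| ≤ ∑ j, |x j| * ((1 - τ) * n) :=
          Finset.sum_le_sum fun j _ => mul_le_mul_of_nonneg_left (hcon j).le (abs_nonneg _)
        rw [← Finset.sum_mul] at h6
        nlinarith
      obtain ⟨j0, -, hj0⟩ : ∃ j ∈ (Finset.univ : Finset (Fin d)), 0 < |x j| := by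
        by_contra h5
        push Not at h5
        exact absurd (Finset.sum_nonpos h5) (not_le.2 h4)
      have h5 : ∑ j, |x j| * |∑ i, s e i * a j i| < ∑ j, |x j| * ((1 - τ) * n) :=
        Finset.sum_lt_sum (fun j _ => mul_le_mul_of_nonneg_left (hcon j).le (abs_nonneg _))
          ⟨j0, Finset.mem_univ _, mul_lt_mul_of_pos_left (hcon j0) hj0⟩
      rw [← Finset.sum_mul] at h5
      nlinarith
    obtain ⟨j, hj⟩ := h2
    have fin : ∀ σ : ℝ, |σ| = 1 → σ * ∑ i, s e i * a j i = |∑ i, s e i * a j i| →
        ∀ i, 0 < σ * (s e i * a j i) := by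
      intro σ hσ hσ2 i
      rw [← hσ2, Finset.mul_sum] at hj
      have h3 : ∀ k, σ * (s e k * a j k) ≤ 1 := by
        intro k
        calc σ * (s e k * a j k) ≤ |σ * (s e k * a j k)| := le_abs_self _
          _ = |a j k| := by rw [abs_mul, abs_mul, hσ, hs, one_mul, one_mul]
          _ ≤ 1 := ha j k
      have h4 : ∑ k, σ * (s e k * a j k) ≤ σ * (s e i * a j i) + (n - 1) := by
        rw [← Finset.add_sum_erase _ _ (Finset.mem_univ i)]
        have h5 : ∑ k ∈ Finset.univ.erase i, σ * (s e k * a j k) ≤
            ∑ k ∈ Finset.univ.erase i, (1 : ℝ) := Finset.sum_le_sum fun k _ => h3 k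
        rw [Finset.sum_const, Finset.card_erase_of_mem (Finset.mem_univ i), Finset.card_univ,
          Fintype.card_fin, nsmul_eq_mul, mul_one, Nat.cast_sub hn, Nat.cast_one] at h5
        linarith
      nlinarith
    rcases le_total 0 (∑ i, s e i * a j i) with h | h
    · refine ⟨(j, true), ?_⟩
      have := fin 1 (by simp) (by rw [abs_of_nonneg h, one_mul])
      simpa using this
    · refine ⟨(j, false), ?_⟩
      have := fin (-1) (by simp) (by rw [abs_of_nonpos h, neg_one_mul])
      simpa using this
  choose p hp using key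
  have hinj : Function.Injective p := by
    intro e e' hee
    funext i
    have h1 := hp e i
    have h2 := hp e' i
    rw [hee] at h1
    by_contra hne
    have h3 : s e i = -s e' i := by
      simp only [s]
      cases h : e i <;> cases h' : e' i <;> simp_all
    rw [h3] at h1
    linarith
  have hcard := Fintype.card_le_of_injective p hinj
  simp only [Fintype.card_pi, Fintype.card_bool, Finset.prod_const, Finset.card_univ,
    Fintype.card_fin, Fintype.card_prod] at hcard
  omega

end Pool.Agent.Lib.MP_5e7226_co.Cub
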