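import Mathlib

/-!
Random dyadic sums: the operator `φ ↦ ∑ x ∈ I, (φ (x/2 + γ u) + φ (-x/2 + γ u))`.
-/

set_option autoImplicit false

open MeasureTheory Set Module Metric

namespace Pool.Agent.Lib.MP_5e7226_co.Cub

variable {E : Type} [NormedAddCommGroup E] [NormedSpace ℝ E]

/-- Summation over all `x ∈ I` and both signs of the values of `φ` at `± x / 2 + γ u`. -/
noncomputable def R (I : Finset E) (γ : ℝ) (φ : E → ENNReal) (u : E) : ENNReal :=
  ∑ x ∈ I, (φ ((1 / 2 : ℝ) • x + γ • u) + φ (-((1 / 2 : ℝ) • x) + γ • u))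

section measure

variable [MeasurableSpace E] [BorelSpace E] [FiniteDimensional ℝ E]

omit [FiniteDimensional ℝ E] in
theorem measurable_R (I : Finset E) (γ : ℝ) {φ : E → ENNReal} (hφ : Measurable φ) :
    Measurable (R I γ φ) := by
  unfold R
  apply Finset.measurable_sum
  intro x _
  apply Measurable.add
  · exact hφ.comp (by fun_prop)
  · exact hφ.comp (by fun_prop)

omit [FiniteDimensional ℝ E] in
theorem measurable_iter (I : Finset E) (γ : ℝ) {φ : E → ENNReal} (hφ : Measurable φ) (m : ℕ) :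
    Measurable ((R I γ)^[m] φ) := by
  induction m with
  | zero => exact hφ
  | succ m ih =>
    rw [Function.iterate_succ_apply']
    exact measurable_R I γ ih

variable (μ : Measure E) [μ.IsAddHaarMeasure]

/-- Change of variables. -/
theorem lint_affine {γ : ℝ} (hγ : 0 < γ) (a : E) {φ : E → ENNReal} (hφ : Measurable φ) :
    ∫⁻ u in closedBall (0 : E) 1, φ (a + γ • u) ∂μ =
      ENNReal.ofReal ((γ ^ finrank ℝ E)⁻¹) *
        ∫⁻ b, (closedBall a γ).indicator φ b ∂μ := by
  have hG : Measurable ((closedBall (0 : E) γ).indicator fun v => φ (a + v)) :=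
    (hφ.comp (measurable_const.add measurable_id)).indicator measurableSet_closedBall
  have h1 : ∀ u : E, (closedBall (0 : E) 1).indicator (fun u => φ (a + γ • u)) u =
      (closedBall (0 : E) γ).indicator (fun v => φ (a + v)) (γ • u) := by
    intro u
    by_cases hu : u ∈ closedBall (0 : E) 1
    · have hu' : γ • u ∈ closedBall (0 : E) γ := by
        rw [mem_closedBall_zero_iff] at hu ⊢
        rw [norm_smul, Real.norm_eq_abs, abs_of_pos hγ]
        nlinarith
      rw [indicator_of_mem hu, indicator_of_mem hu']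
    · have hu' : γ • u ∉ closedBall (0 : E) γ := by
        rw [mem_closedBall_zero_iff] at hu ⊢
        rw [norm_smul, Real.norm_eq_abs, abs_of_pos hγ]
        intro h
        apply hu
        nlinarith
      rw [indicator_of_notMem hu, indicator_of_notMem hu']
  rw [← lintegral_indicator measurableSet_closedBall]
  simp_rw [h1]
  have h2 : ∫⁻ u, (closedBall (0 : E) γ).indicator (fun v => φ (a + v)) (γ • u) ∂μ =
      ∫⁻ v, (closedBall (0 : E) γ).indicator (fun v => φ (a + v)) v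
        ∂(Measure.map (fun u : E => γ • u) μ) :=
    (lintegral_map hG (measurable_const_smul γ)).symm
  rw [h2, Measure.map_addHaar_smul μ hγ.ne', lintegral_smul_measure,
    abs_of_pos (by positivity : 0 < (γ ^ finrank ℝ E)⁻¹), smul_eq_mul]
  congr 1
  rw [← lintegral_add_left_eq_self (μ := μ) (fun b => (closedBall a γ).indicator φ b) a]
  apply lintegral_congr
  intro v
  by_cases hv : v ∈ closedBall (0 : E) γ
  · have hv' : a + v ∈ closedBall a γ := by
      rw [mem_closedBall, dist_eq_norm, add_sub_cancel_left]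
      exact mem_closedBall_zero_iff.1 hv
    rw [indicator_of_mem hv, indicator_of_mem hv']
  · have hv' : a + v ∉ closedBall a γ := by
      rw [mem_closedBall, dist_eq_norm, add_sub_cancel_left]
      exact fun h => hv (mem_closedBall_zero_iff.2 h)
    rw [indicator_of_notMem hv, indicator_of_notMem hv']

/-- One step for one sign. -/
theorem lint_sum_le {γ : ℝ} (hγ : 0 < γ) (hγ2 : γ ≤ 1 / 2) (I : Finset E) (a : E → E)
    (ha : ∀ x ∈ I, ‖a x‖ ≤ 1 / 2) (c : ENNReal)
    (hc : ∀ b : E, (((I.filter fun x => ‖b - a x‖ ≤ γ).card : ℕ) : ENNReal) ≤ c)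
    {φ : E → ENNReal} (hφ : Measurable φ) :
    ∑ x ∈ I, ∫⁻ u in closedBall (0 : E) 1, φ (a x + γ • u) ∂μ ≤
      ENNReal.ofReal ((γ ^ finrank ℝ E)⁻¹) * c * ∫⁻ b in closedBall (0 : E) 1, φ b ∂μ := by
  simp_rw [lint_affine μ hγ _ hφ]
  rw [← Finset.mul_sum, mul_assoc]
  gcongr
  rw [← lintegral_finsetSum I (fun x _ => hφ.indicator measurableSet_closedBall),
    ← lintegral_const_mul c hφ, ← lintegral_indicator measurableSet_closedBall]
  apply lintegral_mono
  intro b
  have h1 : ∑ x ∈ I, (closedBall (a x) γ).indicator φ b =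
      (((I.filter fun x => ‖b - a x‖ ≤ γ).card : ℕ) : ENNReal) * φ b := by
    rw [← nsmul_eq_mul, ← Finset.sum_const, Finset.sum_filter]
    apply Finset.sum_congr rfl
    intro x _
    have hmem : b ∈ closedBall (a x) γ ↔ ‖b - a x‖ ≤ γ := by
      rw [mem_closedBall, dist_eq_norm]
    by_cases h : ‖b - a x‖ ≤ γ
    · rw [indicator_of_mem (hmem.2 h), if_pos h]
    · rw [indicator_of_notMem (fun h' => h (hmem.1 h')), if_neg h]
  show ∑ x ∈ I, (closedBall (a x) γ).indicator φ b ≤ _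
  rw [h1]
  by_cases hb : b ∈ closedBall (0 : E) 1
  · rw [indicator_of_mem hb]
    exact mul_le_mul_left (hc b) _
  · have h2 : (I.filter fun x => ‖b - a x‖ ≤ γ) = ∅ := by
      rw [Finset.filter_eq_empty_iff]
      intro x hx hbx
      apply hb
      rw [mem_closedBall_zero_iff]
      have h3 := ha x hx
      calc ‖b‖ = ‖(b - a x) + a x‖ := by rw [sub_add_cancel]
        _ ≤ ‖b - a x‖ + ‖a x‖ := norm_add_le _ _
        _ ≤ 1 := by linarith
    rw [h2, Finset.card_empty, Nat.cast_zero, zero_mul]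
    exact zero_le

/-- One step. -/
theorem lint_R_le {γ : ℝ} (hγ : 0 < γ) (hγ2 : γ ≤ 1 / 2) (I : Finset E)
    (hI : ∀ x ∈ I, ‖x‖ ≤ 1) (c : ENNReal)
    (hc : ∀ b : E, (((I.filter fun x => ‖x - b‖ ≤ 2 * γ).card : ℕ) : ENNReal) ≤ c)
    {φ : E → ENNReal} (hφ : Measurable φ) :
    ∫⁻ u in closedBall (0 : E) 1, R I γ φ u ∂μ ≤
      2 * ENNReal.ofReal ((γ ^ finrank ℝ E)⁻¹) * c * ∫⁻ b in closedBall (0 : E) 1, φ b ∂μ := by
  have h1 : ∫⁻ u in closedBall (0 : E) 1, R I γ φ u ∂μ =
      (∑ x ∈ I, ∫⁻ u in closedBall (0 : E) 1, φ ((1 / 2 : ℝ) • x + γ • u) ∂μ) +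
        ∑ x ∈ I, ∫⁻ u in closedBall (0 : E) 1, φ (-((1 / 2 : ℝ) • x) + γ • u) ∂μ := by
    unfold R
    rw [lintegral_finsetSum]
    · rw [← Finset.sum_add_distrib]
      apply Finset.sum_congr rfl
      intro x _
      rw [lintegral_add_left]
      exact hφ.comp (by fun_prop)
    · intro x _
      apply Measurable.add
      · exact hφ.comp (by fun_prop)
      · exact hφ.comp (by fun_prop)
  rw [h1]
  have h2 := lint_sum_le μ hγ hγ2 I (fun x => (1 / 2 : ℝ) • x)
    (fun x hx => by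
      rw [norm_smul]
      have := hI x hx
      norm_num
      linarith) c (fun b => by
      refine le_trans ?_ (hc ((2 : ℝ) • b))
      refine Nat.cast_le.2 (Finset.card_le_card ?_)
      intro x hx
      rw [Finset.mem_filter] at hx ⊢
      refine ⟨hx.1, ?_⟩
      have h3 := hx.2
      have h4 : x - (2 : ℝ) • b = (-2 : ℝ) • (b - (1 / 2 : ℝ) • x) := by
        module
      rw [h4, norm_smul]
      norm_num
      exact h3) hφ
  have h2' := lint_sum_le μ hγ hγ2 I (fun x => -((1 / 2 : ℝ) • x))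
    (fun x hx => by
      rw [norm_neg, norm_smul]
      have := hI x hx
      norm_num
      linarith) c (fun b => by
      refine le_trans ?_ (hc ((-2 : ℝ) • b))
      refine Nat.cast_le.2 (Finset.card_le_card ?_)
      intro x hx
      rw [Finset.mem_filter] at hx ⊢
      refine ⟨hx.1, ?_⟩
      have h3 := hx.2
      have h4 : x - (-2 : ℝ) • b = (2 : ℝ) • (b - -((1 / 2 : ℝ) • x)) := by
        module
      rw [h4, norm_smul, Real.norm_eq_abs, abs_of_pos (by norm_num : (0 : ℝ) < 2)]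
      linarith) hφ
  calc _ ≤ _ := add_le_add h2 h2'
    _ = _ := by ring

/-- Iteration. -/
theorem lint_iter_le {γ : ℝ} (hγ : 0 < γ) (hγ2 : γ ≤ 1 / 2) (I : Finset E)
    (hI : ∀ x ∈ I, ‖x‖ ≤ 1) (c : ENNReal)
    (hc : ∀ b : E, (((I.filter fun x => ‖x - b‖ ≤ 2 * γ).card : ℕ) : ENNReal) ≤ c)
    {φ : E → ENNReal} (hφ : Measurable φ) (m : ℕ) :
    ∫⁻ u in closedBall (0 : E) 1, (R I γ)^[m] φ u ∂μ ≤
      (2 * ENNReal.ofReal ((γ ^ finrank ℝ E)⁻¹) * c) ^ m *
        ∫⁻ b in closedBall (0 : E) 1, φ b ∂μ := by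
  induction m with
  | zero => simp
  | succ m ih =>
    rw [Function.iterate_succ_apply']
    refine (lint_R_le μ hγ hγ2 I hI c hc (measurable_iter I γ hφ m)).trans ?_
    rw [pow_succ', mul_assoc _ _ (∫⁻ b in closedBall (0 : E) 1, φ b ∂μ)]
    gcongr

end measure

/-- All `2 ^ m` points `±x₀ / 2 ...` of the dyadic tree have norm `> 1 - η`. -/
def Good (γ η : ℝ) : (m : ℕ) → (Fin m → E) → E → Prop
  | 0, _, u => 1 - η < ‖u‖
  | m + 1, x, u => Good γ η m (Fin.tail x) ((1 / 2 : ℝ) • x 0 + γ • u) ∧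
      Good γ η m (Fin.tail x) (-((1 / 2 : ℝ) • x 0) + γ • u)

/-- Extraction of one tuple which is good for all points. -/
theorem extract (I : Finset E) (γ η : ℝ) (m : ℕ) : ∀ (ι : Type) [Fintype ι] (u : ι → E),
    ∑ j, (R I γ)^[m] ({v : E | ‖v‖ ≤ 1 - η}.indicator fun _ => 1) (u j) < (I.card : ENNReal) ^ m →
    ∃ x : Fin m → E, (∀ k, x k ∈ I) ∧ ∀ j, Good γ η m x (u j) := by
  induction m with
  | zero =>
    intro ι _ u h
    refine ⟨Fin.elim0, fun k => k.elim0, fun j => ?_⟩
    show 1 - η < ‖u j‖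
    by_contra hj
    push Not at hj
    have h1 : ({v : E | ‖v‖ ≤ 1 - η}.indicator (fun _ => (1 : ENNReal)) (u j)) ≤
        ∑ j, ({v : E | ‖v‖ ≤ 1 - η}.indicator (fun _ => (1 : ENNReal)) (u j)) :=
      Finset.single_le_sum (f := fun j => ({v : E | ‖v‖ ≤ 1 - η}.indicator
        (fun _ => (1 : ENNReal)) (u j))) (fun _ _ => zero_le) (Finset.mem_univ j)
    rw [indicator_of_mem (show u j ∈ {v : E | ‖v‖ ≤ 1 - η} from hj)] at h1
    simp only [Function.iterate_zero, id_eq, pow_zero] at h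
    exact absurd h (not_lt.2 h1)
  | succ m ih =>
    intro ι _ u h
    set φ : E → ENNReal := {v : E | ‖v‖ ≤ 1 - η}.indicator fun _ => 1 with hφ
    have h1 : ∑ j, (R I γ)^[m + 1] φ (u j) = ∑ x ∈ I, ∑ p : ι × Bool,
        (R I γ)^[m] φ ((bif p.2 then (1 / 2 : ℝ) • x else -((1 / 2 : ℝ) • x)) + γ • u p.1) := by
      rw [Finset.sum_comm]
      rw [Fintype.sum_prod_type]
      apply Finset.sum_congr rfl
      intro j _
      rw [Function.iterate_succ_apply', R, ← Finset.sum_comm]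
      apply Finset.sum_congr rfl
      intro x _
      rw [Fintype.sum_bool]
      rfl
    rw [h1, pow_succ'] at h
    have h2 : ∃ x ∈ I, ∑ p : ι × Bool,
        (R I γ)^[m] φ ((bif p.2 then (1 / 2 : ℝ) • x else -((1 / 2 : ℝ) • x)) + γ • u p.1) <
          (I.card : ENNReal) ^ m := by
      by_contra hcon
      push Not at hcon
      have h3 := Finset.card_nsmul_le_sum I _ _ hcon
      rw [nsmul_eq_mul] at h3
      exact absurd h (not_lt.2 h3)
    obtain ⟨x0, hx0, h3⟩ := h2
    obtain ⟨x, hx, hg⟩ := ih (ι × Bool) _ h3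
    refine ⟨Fin.cons x0 x, fun k => ?_, fun j => ?_⟩
    · refine Fin.cases ?_ (fun k => ?_) k
      · simpa using hx0
      · simpa using hx k
    · refine ⟨?_, ?_⟩
      · have h4 := hg (j, true)
        simpa [Fin.tail_cons] using h4
      · have h4 := hg (j, false)
        simpa [Fin.tail_cons] using h4

/-- The functionals. -/
theorem functional {γ η : ℝ} (hγ : 0 < γ) (hγ2 : γ ≤ 1 / 2) (hη : 0 ≤ η) (m : ℕ) :
    ∀ (x : Fin m → E) (u : E), (∀ k, ‖x k‖ ≤ 1) → ‖u‖ ≤ 1 → Good γ η m x u →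
    ∀ e : Fin m → ℝ, (∀ k, e k = 1 ∨ e k = -1) →
      ∃ f : E →ₗ[ℝ] ℝ, (∀ v, |f v| ≤ ‖v‖) ∧ 1 - η / γ ^ m ≤ f u ∧
        ∀ k, 1 - η / γ ^ m ≤ e k * f (x k) := by
  induction m with
  | zero =>
    intro x u _ _ hg e _
    obtain ⟨g, hg1, hg2⟩ := exists_dual_vector'' ℝ u
    refine ⟨g, fun v => ?_, ?_, fun k => k.elim0⟩
    · have h1 := g.le_opNorm v
      rw [Real.norm_eq_abs] at h1
      have h2 : ‖g‖ * ‖v‖ ≤ 1 * ‖v‖ := mul_le_mul_of_nonneg_right hg1 (norm_nonneg v)
      show |g v| ≤ ‖v‖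
      linarith
    · rw [pow_zero, div_one]
      have h1 : (g : E →ₗ[ℝ] ℝ) u = ‖u‖ := by
        show g u = ‖u‖
        rw [hg2]
        rfl
      rw [h1]
      exact le_of_lt hg
  | succ m ih =>
    intro x u hx hu hg e he
    have hq : 0 ≤ η / γ ^ m := by positivity
    have hqq : η / γ ^ (m + 1) = (η / γ ^ m) / γ := by
      rw [pow_succ, div_div]
    have hq2 : 2 * (η / γ ^ m) ≤ η / γ ^ (m + 1) := by
      rw [hqq, le_div_iff₀ hγ]
      nlinarith
    have key : ∀ f : E →ₗ[ℝ] ℝ, (∀ v, |f v| ≤ ‖v‖) →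
        1 - η / γ ^ m ≤ f ((e 0 / 2) • x 0 + γ • u) →
        1 - η / γ ^ (m + 1) ≤ f u ∧ 1 - η / γ ^ (m + 1) ≤ e 0 * f (x 0) := by
      intro f hf h1
      rw [map_add, map_smul, map_smul, smul_eq_mul, smul_eq_mul] at h1
      have h2 : f u ≤ 1 := (le_abs_self _).trans ((hf u).trans hu)
      have h3 : e 0 * f (x 0) ≤ 1 := by
        have h4 := (hf (x 0)).trans (hx 0)
        rw [abs_le] at h4
        rcases he 0 with h | h <;> rw [h] <;> linarith [h4.1, h4.2]
      constructor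
      · have h5 : 1 / 2 - η / γ ^ m ≤ γ * f u := by nlinarith
        have h6 : (1 / 2 - η / γ ^ m) / γ ≤ f u := by
          rw [div_le_iff₀ hγ]
          linarith
        have h7 : 1 - η / γ ^ (m + 1) ≤ (1 / 2 - η / γ ^ m) / γ := by
          rw [hqq, sub_div]
          have h8 : 1 ≤ 1 / 2 / γ := by
            rw [le_div_iff₀ hγ]
            linarith
          linarith
        linarith
      · have h5 : γ * f u ≤ 1 / 2 := by nlinarith
        linarith
    have hnorm : ∀ s : ℝ, |s| = 1 / 2 → ‖s • x 0 + γ • u‖ ≤ 1 := by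
      intro s hs
      calc ‖s • x 0 + γ • u‖ ≤ ‖s • x 0‖ + ‖γ • u‖ := norm_add_le _ _
        _ = 1 / 2 * ‖x 0‖ + γ * ‖u‖ := by
            rw [norm_smul, norm_smul, Real.norm_eq_abs, Real.norm_eq_abs, hs, abs_of_pos hγ]
        _ ≤ 1 := by nlinarith [hx 0, norm_nonneg u, norm_nonneg (x 0)]
    rcases he 0 with h0 | h0
    · obtain ⟨f, hf, hfu, hfx⟩ := ih (Fin.tail x) ((1 / 2 : ℝ) • x 0 + γ • u)
        (fun k => hx k.succ) (hnorm _ (by norm_num)) hg.1 (Fin.tail e) (fun k => he k.succ)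
      have h1 := key f hf (by rw [h0]; exact hfu)
      refine ⟨f, hf, h1.1, fun k => ?_⟩
      refine Fin.cases h1.2 (fun k => ?_) k
      have h2 := hfx k
      have h3 : Fin.tail e k * f (Fin.tail x k) = e k.succ * f (x k.succ) := rfl
      rw [h3] at h2
      linarith
    · obtain ⟨f, hf, hfu, hfx⟩ := ih (Fin.tail x) (-((1 / 2 : ℝ) • x 0) + γ • u)
        (fun k => hx k.succ) (by
          have := hnorm (-(1 / 2)) (by norm_num)
          rwa [neg_smul] at this) hg.2 (Fin.tail e) (fun k => he k.succ)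
      have h1 := key f hf (by
        rw [h0]
        have h4 : ((-1 : ℝ) / 2) • x 0 = -((1 / 2 : ℝ) • x 0) := by
          rw [← neg_smul]
          norm_num
        rw [h4]
        exact hfu)
      refine ⟨f, hf, h1.1, fun k => ?_⟩
      refine Fin.cases h1.2 (fun k => ?_) k
      have h2 := hfx k
      have h3 : Fin.tail e k * f (Fin.tail x k) = e k.succ * f (x k.succ) := rfl
      rw [h3] at h2
      linarith

end Pool.Agent.Lib.MP_5e7226_co.Cub
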