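import Pool.Agent.Lib.MP_5e7226_co.CubNet
import Pool.Agent.Lib.MP_5e7226_co.CubStep

/-!
The dichotomy for finite dimensional normed spaces.
-/

set_option autoImplicit false

open MeasureTheory Set Module Metric

namespace Pool.Agent.Lib.MP_5e7226_co.Cub

variable {E : Type} [NormedAddCommGroup E] [NormedSpace ℝ E] [FiniteDimensional ℝ E]

/-- If every ball of radius `2γ` contains less than a fraction `V` of a finite set of vectors of
norm `≤ 1`, then there is a good tuple. -/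
theorem fraction {γ η V : ℝ} (hγ : 0 < γ) (hγ2 : γ ≤ 1 / 2) (hη1 : η < 1)
    {m : ℕ} (hm : m ≠ 0) (I : Finset E) (hI : ∀ x ∈ I, ‖x‖ ≤ 1) (hne : I.Nonempty)
    (hV2 : (2 * V / γ ^ finrank ℝ E) ^ m * (1 - η) ^ finrank ℝ E ≤ 1)
    (hc : ∀ b : E, ((I.filter fun x => ‖x - b‖ ≤ 2 * γ).card : ℝ) < V * I.card) :
    ∃ (x : Fin m → E) (u : E), (∀ k, ‖x k‖ ≤ 1) ∧ ‖u‖ ≤ 1 ∧ Good γ η m x u := by
  borelize E
  let μ : Measure E := Measure.addHaar
  set d := finrank ℝ E with hd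
  have hIpos : (0 : ℝ) < I.card := by exact_mod_cast hne.card_pos
  -- the maximal count
  have hbdd : BddAbove (Set.range fun b : E => (I.filter fun x => ‖x - b‖ ≤ 2 * γ).card) :=
    ⟨I.card, by
      rintro _ ⟨b, rfl⟩
      exact Finset.card_filter_le _ _⟩
  obtain ⟨b0, hb0⟩ := Nat.sSup_mem (Set.range_nonempty
    (fun b : E => (I.filter fun x => ‖x - b‖ ≤ 2 * γ).card)) hbdd
  set c : ℕ := sSup (Set.range fun b : E => (I.filter fun x => ‖x - b‖ ≤ 2 * γ).card) with hcdef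
  have hcmax : ∀ b : E, (I.filter fun x => ‖x - b‖ ≤ 2 * γ).card ≤ c := fun b =>
    le_csSup hbdd ⟨b, rfl⟩
  have hcV : (c : ℝ) < V * I.card := by
    rw [← hb0]
    exact hc b0
  set φ : E → ENNReal := {v : E | ‖v‖ ≤ 1 - η}.indicator fun _ => 1 with hφdef
  have hset : MeasurableSet {v : E | ‖v‖ ≤ 1 - η} :=
    measurableSet_le measurable_norm measurable_const
  have hφ : Measurable φ := measurable_const.indicator hset
  have h1 := lint_iter_le μ hγ hγ2 I hI (c : ENNReal)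
    (fun b => by exact_mod_cast hcmax b) hφ m
  have h2 : ∫⁻ b in closedBall (0 : E) 1, φ b ∂μ ≤
      ENNReal.ofReal ((1 - η) ^ d) * μ (closedBall (0 : E) 1) := by
    calc ∫⁻ b in closedBall (0 : E) 1, φ b ∂μ ≤ ∫⁻ b, φ b ∂μ := setLIntegral_le_lintegral _ _
      _ = μ (closedBall (0 : E) (1 - η)) := by
          rw [hφdef, lintegral_indicator_const hset, one_mul]
          congr 1
          ext v
          rw [mem_closedBall_zero_iff]
          rfl
      _ = _ := Measure.addHaar_closedBall' μ 0 (by linarith)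
  have hB0 : μ (closedBall (0 : E) 1) ≠ 0 := (measure_closedBall_pos μ 0 one_pos).ne'
  have hBt : μ (closedBall (0 : E) 1) ≠ ⊤ := measure_closedBall_lt_top.ne
  have hex : ∃ u ∈ closedBall (0 : E) 1, (R I γ)^[m] φ u < (I.card : ENNReal) ^ m := by
    by_contra hcon
    push Not at hcon
    have h3 : (I.card : ENNReal) ^ m * μ (closedBall (0 : E) 1) ≤
        ∫⁻ u in closedBall (0 : E) 1, (R I γ)^[m] φ u ∂μ := by
      rw [← setLIntegral_const]
      exact setLIntegral_mono (measurable_iter I γ hφ m) hcon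
    have h4 : (I.card : ENNReal) ^ m * μ (closedBall (0 : E) 1) ≤
        ((2 * ENNReal.ofReal ((γ ^ d)⁻¹) * c) ^ m * ENNReal.ofReal ((1 - η) ^ d)) *
          μ (closedBall (0 : E) 1) := by
      refine (h3.trans h1).trans ?_
      rw [mul_assoc ((2 * ENNReal.ofReal ((γ ^ d)⁻¹) * (c : ENNReal)) ^ m)
        (ENNReal.ofReal ((1 - η) ^ d)) _]
      exact mul_le_mul_right h2 _
    have h5 := (ENNReal.mul_le_mul_iff_left hB0 hBt).1 h4
    have h6 : ((I.card : ENNReal) ^ m).toReal ≤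
        ((2 * ENNReal.ofReal ((γ ^ d)⁻¹) * c) ^ m * ENNReal.ofReal ((1 - η) ^ d)).toReal := by
      apply ENNReal.toReal_mono _ h5
      apply ENNReal.mul_ne_top _ ENNReal.ofReal_ne_top
      apply ENNReal.pow_ne_top
      apply ENNReal.mul_ne_top _ (ENNReal.natCast_ne_top c)
      exact ENNReal.mul_ne_top (by simp) ENNReal.ofReal_ne_top
    rw [ENNReal.toReal_pow, ENNReal.toReal_natCast, ENNReal.toReal_mul, ENNReal.toReal_pow,
      ENNReal.toReal_mul, ENNReal.toReal_mul, ENNReal.toReal_natCast,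
      ENNReal.toReal_ofReal (by positivity),
      ENNReal.toReal_ofReal (by
        have : 0 ≤ 1 - η := by linarith
        positivity)] at h6
    have h7 : (ENNReal.toReal 2) = 2 := by simp
    rw [h7] at h6
    have hγd : 0 < γ ^ d := by positivity
    have h8 : 2 * (γ ^ d)⁻¹ * (c : ℝ) < 2 * (γ ^ d)⁻¹ * (V * I.card) := by
      apply mul_lt_mul_of_pos_left hcV
      positivity
    have h9 : (2 * (γ ^ d)⁻¹ * (c : ℝ)) ^ m < (2 * (γ ^ d)⁻¹ * (V * I.card)) ^ m :=
      pow_lt_pow_left₀ h8 (by positivity) hm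
    have h10 : 0 < (1 - η) ^ d := by
      have : 0 < 1 - η := by linarith
      positivity
    have h11 : (2 * (γ ^ d)⁻¹ * (V * I.card)) ^ m * (1 - η) ^ d =
        ((2 * V / γ ^ d) ^ m * (1 - η) ^ d) * (I.card : ℝ) ^ m := by
      have : 2 * (γ ^ d)⁻¹ * (V * I.card) = (2 * V / γ ^ d) * I.card := by
        field_simp
      rw [this, mul_pow]
      ring
    have h12 : (I.card : ℝ) ^ m < (I.card : ℝ) ^ m := by
      calc (I.card : ℝ) ^ m ≤ (2 * (γ ^ d)⁻¹ * (c : ℝ)) ^ m * (1 - η) ^ d := h6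
        _ < (2 * (γ ^ d)⁻¹ * (V * I.card)) ^ m * (1 - η) ^ d :=
            mul_lt_mul_of_pos_right h9 h10
        _ = ((2 * V / γ ^ d) ^ m * (1 - η) ^ d) * (I.card : ℝ) ^ m := h11
        _ ≤ 1 * (I.card : ℝ) ^ m := mul_le_mul_of_nonneg_right hV2 (by positivity)
        _ = (I.card : ℝ) ^ m := one_mul _
    exact lt_irrefl _ h12
  obtain ⟨u, hu, hlt⟩ := hex
  obtain ⟨x, hx, hg⟩ := extract I γ η m Unit (fun _ => u) (by simpa using hlt)
  exact ⟨x, u, fun k => hI _ (hx k), mem_closedBall_zero_iff.1 hu, hg ()⟩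

/-- **The dichotomy.** -/
theorem dichotomy {d n : ℕ} (hd : finrank ℝ E = d) (hd2 : 2 ≤ d) (hn : 2 ≤ n)
    (hnd : 2 * n ≤ d + 2) {τ : ℝ} (hτ0 : 0 < τ) (hτ1 : τ < 1) :
    (∃ v : Fin n → E, (∀ i, ‖v i‖ ≤ 1) ∧ ∀ e : Fin n → ℝ, (∀ i, e i = 1 ∨ e i = -1) →
      ∃ f : E →ₗ[ℝ] ℝ, (∀ v, |f v| ≤ ‖v‖) ∧ ∀ i, 1 - τ ≤ e i * f (v i)) ∨
    ∃ (k : ℕ) (w : Fin k → E),
      (k : ℝ) ≤ 8 * d * Real.log (9 * d) * 2 ^ d * (1 - τ / 2 ^ n) ^ ((d : ℝ) / ((n : ℝ) - 1)) + 1 ∧
      ∀ x : E, ‖x‖ = 1 → ∃ i, ‖x - (1 / 2 : ℝ) • w i‖ ≤ 1 - 3 / (8 * d) := by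
  classical
  by_cases hA : (∃ v : Fin n → E, (∀ i, ‖v i‖ ≤ 1) ∧ ∀ e : Fin n → ℝ,
      (∀ i, e i = 1 ∨ e i = -1) →
      ∃ f : E →ₗ[ℝ] ℝ, (∀ v, |f v| ≤ ‖v‖) ∧ ∀ i, 1 - τ ≤ e i * f (v i))
  · exact Or.inl hA
  right
  obtain ⟨m, rfl⟩ : ∃ m, n = m + 1 := ⟨n - 1, by omega⟩
  have hm0 : m ≠ 0 := by omega
  have hd0 : (0 : ℝ) < d := by
    have : 0 < d := by omega
    exact_mod_cast this
  have hd2' : (2 : ℝ) ≤ d := by exact_mod_cast hd2
  have hmd : 2 * (m : ℝ) ≤ d := by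
    have : 2 * m ≤ d := by omega
    exact_mod_cast this
  have hm0' : (0 : ℝ) < m := by
    have : 0 < m := by omega
    exact_mod_cast this
  have hcast : (((m + 1 : ℕ) : ℝ) - 1) = m := by
    push_cast
    ring
  rw [hcast]
  set κ : ℝ := 1 / d with hκ
  have hκ0 : 0 < κ := by positivity
  have hκd : κ * d = 1 := by
    rw [hκ]
    field_simp
  have hκ2 : κ ≤ 1 / 2 := by
    rw [hκ, div_le_div_iff₀ hd0 (by norm_num)]
    linarith
  set γ : ℝ := (1 - κ) / 2 with hγdef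
  have hγ0 : 0 < γ := by
    rw [hγdef]
    linarith
  have hγ2 : γ ≤ 1 / 2 := by
    rw [hγdef]
    linarith
  set q : ℝ := 1 - τ / 2 ^ (m + 1) with hq
  have hp2 : (0 : ℝ) < 2 ^ (m + 1) := by positivity
  have ht1 : τ / 2 ^ (m + 1) < 1 := by
    rw [div_lt_one hp2]
    have : (1 : ℝ) ≤ 2 ^ (m + 1) := one_le_pow₀ (by norm_num)
    linarith
  have hq0 : 0 < q := by
    rw [hq]
    linarith
  set A : ℝ := q ^ ((d : ℝ) / (m : ℝ)) with hAdef
  have hA0 : 0 < A := Real.rpow_pos_of_pos hq0 _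
  have hAm : A ^ m = q ^ d := by
    rw [hAdef, ← Real.rpow_natCast, ← Real.rpow_mul hq0.le, div_mul_cancel₀ _ hm0'.ne',
      Real.rpow_natCast]
  set η : ℝ := τ * γ ^ m with hη
  have hγm : (1 : ℝ) / 2 ^ (m + 1) ≤ γ ^ m := by
    have h1 := one_add_mul_le_pow (by linarith : (-2 : ℝ) ≤ -κ) m
    have h2 : (m : ℝ) * κ ≤ 1 / 2 := by
      have : (m : ℝ) * κ ≤ (d / 2) * κ := mul_le_mul_of_nonneg_right (by linarith) hκ0.le
      linarith
    have h3 : (1 : ℝ) / 2 ≤ (1 + -κ) ^ m := by linarith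
    rw [hγdef, div_pow, pow_succ, div_le_div_iff₀ (by positivity) (by positivity)]
    have h4 : (1 + -κ) = 1 - κ := by ring
    rw [h4] at h3
    have h5 : (0 : ℝ) < 2 ^ m := by positivity
    nlinarith
  have hηq : τ / 2 ^ (m + 1) ≤ η := by
    rw [hη]
    calc τ / 2 ^ (m + 1) = τ * (1 / 2 ^ (m + 1)) := by ring
      _ ≤ τ * γ ^ m := mul_le_mul_of_nonneg_left hγm hτ0.le
  have hη1 : η < 1 := by
    rw [hη]
    have : γ ^ m ≤ 1 := pow_le_one₀ hγ0.le (by linarith)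
    nlinarith [pow_pos hγ0 m]
  have hηγ : η / γ ^ m = τ := by
    rw [hη]
    exact mul_div_cancel_right₀ _ (pow_pos hγ0 m).ne'
  -- the lower bound of `γ ^ d`
  have hγd : (1 : ℝ) / 4 * (2 ^ d)⁻¹ ≤ γ ^ d := by
    have h1 : (1 : ℝ) / 2 ≤ (1 - κ) ^ ((d : ℝ) / 2) := by
      have h2 := one_add_mul_self_le_rpow_one_add (s := -κ) (by linarith)
        (p := (d : ℝ) / 2) (by linarith)
      have h3 : (1 : ℝ) + (d : ℝ) / 2 * -κ = 1 / 2 := by
        have : (d : ℝ) / 2 * -κ = -(κ * d) / 2 := by ring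
        rw [this, hκd]
        norm_num
      rw [h3] at h2
      have h4 : (1 : ℝ) + -κ = 1 - κ := by ring
      rwa [h4] at h2
    have h5 : ((1 - κ) ^ ((d : ℝ) / 2)) ^ 2 = (1 - κ) ^ d := by
      rw [← Real.rpow_natCast, ← Real.rpow_mul (by linarith), ← Real.rpow_natCast]
      congr 1
      push_cast
      ring
    have h6 : (1 : ℝ) / 4 ≤ (1 - κ) ^ d := by
      rw [← h5]
      nlinarith
    rw [hγdef, div_pow, div_eq_mul_inv]
    exact mul_le_mul_of_nonneg_right h6 (by positivity)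
  set V : ℝ := 1 / 8 * (2 ^ d)⁻¹ * A⁻¹ with hV
  have hV0 : 0 < V := by positivity
  have hV2 : (2 * V / γ ^ finrank ℝ E) ^ m * (1 - η) ^ finrank ℝ E ≤ 1 := by
    rw [hd]
    have h1 : 2 * V / γ ^ d ≤ A⁻¹ := by
      rw [div_le_iff₀ (by positivity), hV]
      calc 2 * (1 / 8 * (2 ^ d)⁻¹ * A⁻¹) = A⁻¹ * (1 / 4 * (2 ^ d)⁻¹) := by ring
        _ ≤ A⁻¹ * γ ^ d := mul_le_mul_of_nonneg_left hγd (by positivity)
    have h2 : (2 * V / γ ^ d) ^ m ≤ (A⁻¹) ^ m := pow_le_pow_left₀ (by positivity) h1 m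
    have h3 : (1 - η) ^ d ≤ q ^ d := by
      apply pow_le_pow_left₀ (by linarith)
      rw [hq]
      linarith
    calc (2 * V / γ ^ d) ^ m * (1 - η) ^ d ≤ (A⁻¹) ^ m * q ^ d := by
          apply mul_le_mul h2 h3 _ (by positivity)
          have : 0 ≤ 1 - η := by linarith
          positivity
      _ = 1 := by
          rw [inv_pow, hAm]
          exact inv_mul_cancel₀ (pow_pos hq0 d).ne'
  -- the net
  obtain ⟨S, hS1, hS2, hS3⟩ := exists_net (E := E) (r := 1 / (4 * d)) (by positivity)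
  have : Nontrivial E := Module.nontrivial_of_finrank_pos (R := ℝ) (by omega : 0 < finrank ℝ E)
  obtain ⟨v0, hv0⟩ := exists_norm_eq E (zero_le_one : (0 : ℝ) ≤ 1)
  have hSne : S.Nonempty := by
    obtain ⟨y, hy, -⟩ := hS2 v0 hv0
    exact ⟨y, hy⟩
  obtain ⟨k, w, hk, hw⟩ := greedy_cover hV0 (fun b y : E => ‖y - b‖ ≤ 1 - κ) S (by
    intro I hI
    rcases I.eq_empty_or_nonempty with rfl | hne
    · exact ⟨0, ∅, by simp, by simp, by simp⟩
    by_contra hcon
    push Not at hcon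
    have h2γ : 2 * γ = 1 - κ := by
      rw [hγdef]
      ring
    have hc : ∀ b : E, ((I.filter fun x => ‖x - b‖ ≤ 2 * γ).card : ℝ) < V * I.card := by
      intro b
      by_contra hb
      push Not at hb
      obtain ⟨y, hy, hy2⟩ := hcon b (I.filter fun x => ‖x - b‖ ≤ 2 * γ)
        (Finset.filter_subset _ _) hb
      rw [Finset.mem_filter, h2γ] at hy
      exact absurd hy.2 (not_le.2 hy2)
    obtain ⟨x, u, hx, hu, hg⟩ := fraction hγ0 hγ2 hη1 hm0 I
      (fun x hx => (hS1 x (hI hx)).le) hne hV2 hc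
    apply hA
    refine ⟨Fin.cons u x, fun i => ?_, fun e he => ?_⟩
    · refine Fin.cases ?_ (fun i => ?_) i
      · simpa using hu
      · simpa using hx i
    · have hfun := functional hγ0 hγ2 (by positivity : 0 ≤ η) m x u hx hu hg
      rw [hηγ] at hfun
      rcases he 0 with h0 | h0
      · obtain ⟨f, hf, hfu, hfx⟩ := hfun (fun k => e k.succ) (fun k => he k.succ)
        refine ⟨f, hf, fun i => ?_⟩
        refine Fin.cases ?_ (fun i => ?_) i
        · simpa [h0] using hfu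
        · simpa using hfx i
      · obtain ⟨f, hf, hfu, hfx⟩ := hfun (fun k => -e k.succ) (fun k => by
          rcases he k.succ with h | h
          · right
            rw [h]
          · left
            rw [h]
            norm_num)
        refine ⟨-f, fun v => by rw [LinearMap.neg_apply, abs_neg]; exact hf v, fun i => ?_⟩
        refine Fin.cases ?_ (fun i => ?_) i
        · simpa [h0] using hfu
        · have := hfx i
          simpa using this) hSne
  refine ⟨k, w, ?_, fun x hx => ?_⟩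
  · refine hk.trans ?_
    have h1 : Real.log S.card ≤ d * Real.log (9 * d) := by
      have h2 : (S.card : ℝ) ≤ (9 * d) ^ d := by
        refine hS3.trans ?_
        rw [hd]
        apply pow_le_pow_left₀ (by positivity)
        have h3 : 2 / (1 / (4 * (d : ℝ))) = 8 * d := by
          field_simp
          norm_num
        rw [h3]
        linarith
      have h4 : (0 : ℝ) < S.card := by exact_mod_cast hSne.card_pos
      have h5 := Real.log_le_log h4 h2
      rwa [Real.log_pow] at h5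
    have h2 : Real.log S.card / V = Real.log S.card * (8 * 2 ^ d * A) := by
      rw [hV]
      field_simp
    rw [h2]
    have h3 : Real.log S.card * (8 * 2 ^ d * A) ≤ (d * Real.log (9 * d)) * (8 * 2 ^ d * A) :=
      mul_le_mul_of_nonneg_right h1 (by positivity)
    have h4 : (d * Real.log (9 * d)) * (8 * 2 ^ d * A) =
        8 * d * Real.log (9 * d) * 2 ^ d * A := by ring
    linarith
  · obtain ⟨y, hy, hxy⟩ := hS2 x hx
    obtain ⟨i, hi⟩ := hw y hy
    refine ⟨i, ?_⟩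
    have h1 : x - (1 / 2 : ℝ) • w i =
        (1 / 2 : ℝ) • x + (1 / 2 : ℝ) • ((x - y) + (y - w i)) := by
      module
    have h2 : ‖x - (1 / 2 : ℝ) • w i‖ ≤ 1 / 2 * 1 + 1 / 2 * (1 / (4 * d) + (1 - κ)) := by
      rw [h1]
      calc _ ≤ ‖(1 / 2 : ℝ) • x‖ + ‖(1 / 2 : ℝ) • ((x - y) + (y - w i))‖ := norm_add_le _ _
        _ = 1 / 2 * ‖x‖ + 1 / 2 * ‖(x - y) + (y - w i)‖ := by
            rw [norm_smul, norm_smul]
            norm_num
        _ ≤ 1 / 2 * 1 + 1 / 2 * (1 / (4 * d) + (1 - κ)) := by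
            rw [hx]
            have := norm_add_le (x - y) (y - w i)
            linarith
    have h3 : (1 : ℝ) / 2 * 1 + 1 / 2 * (1 / (4 * d) + (1 - κ)) = 1 - 3 / (8 * d) := by
      rw [hκ]
      field_simp
      ring
    linarith

end Pool.Agent.Lib.MP_5e7226_co.Cub
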