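import Mathlib

/-!
Nets of the unit sphere of a finite dimensional normed space, and greedy covering.
-/

set_option autoImplicit false

open MeasureTheory Set Module Metric

namespace Pool.Agent.Lib.MP_5e7226_co.Cub

variable {E : Type} [NormedAddCommGroup E] [NormedSpace ℝ E] [FiniteDimensional ℝ E]

/-- Separated families of unit vectors are small. -/
theorem card_separated_le {r : ℝ} (hr : 0 < r) (s : Finset E) (hs : ∀ c ∈ s, ‖c‖ ≤ 1)
    (h : ∀ c ∈ s, ∀ d ∈ s, c ≠ d → r < ‖c - d‖) :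
    (s.card : ℝ) ≤ (1 + 2 / r) ^ finrank ℝ E := by
  borelize E
  let μ : Measure E := Measure.addHaar
  set δ : ℝ := r / 2 with hδ
  set ρ : ℝ := 1 + r / 2 with hρ
  have ρpos : 0 < ρ := by positivity
  have δpos : 0 < δ := by positivity
  set A := ⋃ c ∈ s, ball (c : E) δ with hA
  have D : Set.Pairwise (s : Set E) (Function.onFun Disjoint fun c => ball (c : E) δ) := by
    rintro c hc d hd hcd
    apply ball_disjoint_ball
    rw [dist_eq_norm]
    have := h c hc d hd hcd
    linarith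
  have A_subset : A ⊆ ball (0 : E) ρ := by
    refine iUnion₂_subset fun x hx => ?_
    apply ball_subset_ball'
    rw [dist_zero_right]
    have := hs x hx
    linarith
  have I : (s.card : ENNReal) * ENNReal.ofReal (δ ^ finrank ℝ E) * μ (ball 0 1) ≤
      ENNReal.ofReal (ρ ^ finrank ℝ E) * μ (ball 0 1) := by
    calc (s.card : ENNReal) * ENNReal.ofReal (δ ^ finrank ℝ E) * μ (ball 0 1) = μ A := by
          rw [hA, measure_biUnion_finset D fun c _ => measurableSet_ball]
          simp only [μ.addHaar_ball_of_pos _ δpos]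
          simp only [Finset.sum_const, nsmul_eq_mul, mul_assoc]
      _ ≤ μ (ball (0 : E) ρ) := measure_mono A_subset
      _ = ENNReal.ofReal (ρ ^ finrank ℝ E) * μ (ball 0 1) := by
          simp only [μ.addHaar_ball_of_pos _ ρpos]
  have J : (s.card : ENNReal) * ENNReal.ofReal (δ ^ finrank ℝ E) ≤
      ENNReal.ofReal (ρ ^ finrank ℝ E) :=
    (ENNReal.mul_le_mul_iff_left (measure_ball_pos _ _ zero_lt_one).ne' measure_ball_lt_top.ne).1 I
  have K : (s.card : ℝ) * δ ^ finrank ℝ E ≤ ρ ^ finrank ℝ E := by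
    have h1 : ((s.card : ENNReal) * ENNReal.ofReal (δ ^ finrank ℝ E)).toReal ≤
        (ENNReal.ofReal (ρ ^ finrank ℝ E)).toReal := ENNReal.toReal_mono ENNReal.ofReal_ne_top J
    rw [ENNReal.toReal_mul, ENNReal.toReal_natCast, ENNReal.toReal_ofReal (by positivity),
      ENNReal.toReal_ofReal (by positivity)] at h1
    exact h1
  rw [← le_div_iff₀ (by positivity), ← div_pow] at K
  have e : ρ / δ = 1 + 2 / r := by
    rw [hρ, hδ]
    field_simp
    ring
  rwa [e] at K

/-- A net of the unit sphere. -/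
theorem exists_net {r : ℝ} (hr : 0 < r) : ∃ S : Finset E, (∀ y ∈ S, ‖y‖ = 1) ∧
    (∀ x : E, ‖x‖ = 1 → ∃ y ∈ S, ‖x - y‖ ≤ r) ∧ (S.card : ℝ) ≤ (1 + 2 / r) ^ finrank ℝ E := by
  classical
  let P : ℕ → Prop := fun n => ∃ S : Finset E, S.card = n ∧ (∀ y ∈ S, ‖y‖ = 1) ∧
    ∀ x ∈ S, ∀ y ∈ S, x ≠ y → r < ‖x - y‖
  have hP0 : P 0 := ⟨∅, by simp, by simp, by simp⟩
  have hPb : ∀ n, P n → n ≤ ⌊(1 + 2 / r) ^ finrank ℝ E⌋₊ := by
    rintro n ⟨S, rfl, hS1, hS2⟩
    exact Nat.le_floor (card_separated_le hr S (fun c hc => (hS1 c hc).le) hS2)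
  have hmax := Nat.findGreatest_spec (P := P) (Nat.zero_le ⌊(1 + 2 / r) ^ finrank ℝ E⌋₊) hP0
  obtain ⟨S, hSc, hS1, hS2⟩ := hmax
  refine ⟨S, hS1, fun x hx => ?_, card_separated_le hr S (fun c hc => (hS1 c hc).le) hS2⟩
  by_contra hcon
  push Not at hcon
  have hxS : x ∉ S := by
    intro hxS
    have h1 := hcon x hxS
    rw [sub_self, norm_zero] at h1
    linarith
  have hPs : P (S.card + 1) := by
    refine ⟨insert x S, Finset.card_insert_of_notMem hxS, ?_, ?_⟩
    · intro y hy
      rcases Finset.mem_insert.mp hy with rfl | hy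
      · exact hx
      · exact hS1 y hy
    · intro a ha b hb hab
      rcases Finset.mem_insert.mp ha with ha1 | ha1
      · rcases Finset.mem_insert.mp hb with hb1 | hb1
        · exact absurd (ha1.trans hb1.symm) hab
        · rw [ha1]
          exact hcon b hb1
      · rcases Finset.mem_insert.mp hb with hb1 | hb1
        · have h1 := hcon a ha1
          rw [norm_sub_rev] at h1
          rw [hb1]
          exact h1
        · exact hS2 a ha1 b hb1 hab
  have h1 := Nat.le_findGreatest (P := P) (hPb _ hPs) hPs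
  omega

omit [NormedAddCommGroup E] [NormedSpace ℝ E] [FiniteDimensional ℝ E] in
/-- Greedy covering, `k` steps. -/
theorem greedy_step {V : ℝ} (hV1 : V ≤ 1) (P : E → E → Prop) (S : Finset E)
    (hP : ∀ I : Finset E, I ⊆ S → ∃ b : E, ∃ G : Finset E, G ⊆ I ∧
      V * (I.card : ℝ) ≤ (G.card : ℝ) ∧ ∀ y ∈ G, P b y) (k : ℕ) :
    ∃ (w : Fin k → E) (R : Finset E), R ⊆ S ∧ (R.card : ℝ) ≤ (1 - V) ^ k * (S.card : ℝ) ∧
      ∀ y ∈ S, y ∉ R → ∃ i, P (w i) y := by
  classical
  induction k with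
  | zero =>
    refine ⟨fun i => i.elim0, S, Finset.Subset.refl S, by simp, fun y hy hyR => absurd hy hyR⟩
  | succ k ih =>
    obtain ⟨w, R, hRS, hcard, hcov⟩ := ih
    obtain ⟨b, G, hGR, hG, hPb⟩ := hP R hRS
    refine ⟨Fin.snoc w b, R \ G, (Finset.sdiff_subset).trans hRS, ?_, ?_⟩
    · have h1 : ((R \ G).card : ℝ) = (R.card : ℝ) - (G.card : ℝ) := by
        rw [Finset.card_sdiff_of_subset hGR, Nat.cast_sub (Finset.card_le_card hGR)]
      rw [h1, pow_succ]
      calc (R.card : ℝ) - G.card ≤ (R.card : ℝ) - V * R.card := by linarith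
        _ = (1 - V) * R.card := by ring
        _ ≤ (1 - V) * ((1 - V) ^ k * (S.card : ℝ)) :=
            mul_le_mul_of_nonneg_left hcard (by linarith)
        _ = _ := by ring
    · intro y hy hyR
      by_cases hyR' : y ∈ R
      · have hyG : y ∈ G := by
          by_contra hyG
          exact hyR (Finset.mem_sdiff.mpr ⟨hyR', hyG⟩)
        exact ⟨Fin.last k, by simpa using hPb y hyG⟩
      · obtain ⟨i, hi⟩ := hcov y hy hyR'
        exact ⟨i.castSucc, by simpa using hi⟩

omit [NormedAddCommGroup E] [NormedSpace ℝ E] [FiniteDimensional ℝ E] in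
/-- Greedy covering. -/
theorem greedy_cover {V : ℝ} (hV : 0 < V) (P : E → E → Prop) (S : Finset E)
    (hP : ∀ I : Finset E, I ⊆ S → ∃ b : E, ∃ G : Finset E, G ⊆ I ∧
      V * (I.card : ℝ) ≤ (G.card : ℝ) ∧ ∀ y ∈ G, P b y) (hS : S.Nonempty) :
    ∃ (n : ℕ) (w : Fin n → E), (n : ℝ) ≤ Real.log S.card / V + 1 ∧ ∀ y ∈ S, ∃ i, P (w i) y := by
  have hSpos : (0 : ℝ) < (S.card : ℝ) := by exact_mod_cast hS.card_pos
  have hS1 : (1 : ℝ) ≤ (S.card : ℝ) := by exact_mod_cast hS.card_pos
  have hV1 : V ≤ 1 := by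
    obtain ⟨b, G, hG, hGc, -⟩ := hP S (Finset.Subset.refl S)
    have h1 : (G.card : ℝ) ≤ (S.card : ℝ) := by exact_mod_cast Finset.card_le_card hG
    have h2 : V * (S.card : ℝ) ≤ 1 * (S.card : ℝ) := by linarith
    exact le_of_mul_le_mul_right h2 hSpos
  have hlog : 0 ≤ Real.log S.card := Real.log_nonneg hS1
  obtain ⟨w, R, hRS, hcard, hcov⟩ := greedy_step hV1 P S hP (⌊Real.log S.card / V⌋₊ + 1)
  refine ⟨⌊Real.log S.card / V⌋₊ + 1, w, ?_, fun y hy => hcov y hy ?_⟩
  · push_cast
    have := Nat.floor_le (div_nonneg hlog hV.le)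
    linarith
  · have hn : Real.log S.card / V < ((⌊Real.log S.card / V⌋₊ + 1 : ℕ) : ℝ) := by
      push_cast
      exact Nat.lt_floor_add_one _
    set n : ℕ := ⌊Real.log S.card / V⌋₊ + 1
    have h1 : (1 - V) ^ n ≤ Real.exp (-(V * n)) := by
      have h2 : 1 - V ≤ Real.exp (-V) := by
        have := Real.add_one_le_exp (-V)
        linarith
      calc (1 - V) ^ n ≤ (Real.exp (-V)) ^ n := pow_le_pow_left₀ (by linarith) h2 n
        _ = Real.exp (-(V * n)) := by
            rw [← Real.exp_nat_mul]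
            congr 1
            ring
    have h3 : Real.log S.card < V * n := by
      rw [div_lt_iff₀ hV] at hn
      linarith
    have h4 : (R.card : ℝ) < 1 := by
      calc (R.card : ℝ) ≤ (1 - V) ^ n * (S.card : ℝ) := hcard
        _ ≤ Real.exp (-(V * n)) * (S.card : ℝ) := mul_le_mul_of_nonneg_right h1 hSpos.le
        _ = Real.exp (-(V * n)) * Real.exp (Real.log S.card) := by rw [Real.exp_log hSpos]
        _ = Real.exp (Real.log S.card - V * n) := by
            rw [← Real.exp_add]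
            congr 1
            ring
        _ < 1 := by
            rw [Real.exp_lt_one_iff]
            linarith
    have h5 : R.card = 0 := by
      have : R.card < 1 := by exact_mod_cast h4
      omega
    rw [Finset.card_eq_zero] at h5
    rw [h5]
    exact Finset.notMem_empty y

end Pool.Agent.Lib.MP_5e7226_co.Cub
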