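import Mathlib

/-!
Numerical facts for large dimension, and a lemma on signs.
-/

set_option autoImplicit false

open Filter Topology
open scoped InnerProductSpace

namespace Pool.Agent.Lib.MP_5e7226_co.Cub

theorem ev_log {a c : ℝ} (ha : 0 < a) (hc : 0 < c) :
    ∀ᶠ x : ℝ in atTop, Real.log x ≤ c * x ^ a := by
  have h := (isLittleO_log_rpow_atTop ha).bound hc
  filter_upwards [h, eventually_ge_atTop (1 : ℝ)] with x hx hx1
  rw [Real.norm_eq_abs, Real.norm_eq_abs, abs_of_nonneg (Real.log_nonneg hx1),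
    abs_of_nonneg (by positivity)] at hx
  exact hx

theorem ev_rpow {a : ℝ} (ha : 0 < a) (c : ℝ) : ∀ᶠ x : ℝ in atTop, c ≤ x ^ a :=
  (tendsto_rpow_atTop ha).eventually_ge_atTop c

theorem ev_logb (c : ℝ) : ∀ᶠ x : ℝ in atTop, c ≤ Real.logb 2 x :=
  (Real.tendsto_logb_atTop (by norm_num : (1 : ℝ) < 2)).eventually_ge_atTop c

/-- The numerical facts used in large dimension. -/
theorem num {ε : ℝ} (hε0 : 0 < ε) (hε1 : ε < 1) :
    ∀ᶠ x : ℝ in atTop, 2 ≤ x ∧ 2 ≤ (1 - ε) * Real.logb 2 x ∧ 2 * Real.logb 2 x ≤ x + 2 ∧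
      x ^ (-(ε / 2)) < 1 ∧
      8 * x * Real.log (9 * x) * (2 : ℝ) ^ x * Real.exp (-(x ^ (ε / 2) / Real.logb 2 x)) + 1 ≤
        (2 : ℝ) ^ x * Real.exp (-x ^ (ε / 3)) := by
  have hl2 : 0 < Real.log 2 := Real.log_pos (by norm_num)
  have e1 := ev_log (a := ε / 12) (c := Real.log 2) (by positivity) hl2
  have e2 := ev_log (a := ε / 3) (c := 1 / 4) (by positivity) (by norm_num)
  have e3 := ev_rpow (a := ε / 3) (by positivity) (2 * Real.log 144)
  have e4 := ev_rpow (a := ε / 12) (by positivity) 2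
  have e5 := ev_logb (2 / (1 - ε))
  have e6 := ev_log (a := 1) (c := Real.log 2 / 2) (by norm_num) (by positivity)
  have e7 := ev_rpow (a := 2 / 3) (by norm_num) (2 / Real.log 2)
  have e8 := ev_rpow (a := ε / 2) (by positivity) 2
  filter_upwards [e1, e2, e3, e4, e5, e6, e7, e8, eventually_ge_atTop (2 : ℝ)] with
    x h1 h2 h3 h4 h5 h6 h7 h8 hx
  have hx0 : 0 < x := by linarith
  have hlog : 0 < Real.log x := Real.log_pos (by linarith)
  have hL : Real.logb 2 x = Real.log x / Real.log 2 := rfl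
  have hL0 : 0 < Real.logb 2 x := by
    rw [hL]
    positivity
  refine ⟨hx, ?_, ?_, ?_, ?_⟩
  · have : 0 < 1 - ε := by linarith
    rw [div_le_iff₀ this] at h5
    linarith
  · rw [Real.rpow_one] at h6
    have : Real.logb 2 x ≤ x / 2 := by
      rw [hL, div_le_iff₀ hl2]
      linarith
    linarith
  · rw [Real.rpow_neg hx0.le]
    apply inv_lt_one_of_one_lt₀
    linarith
  · have hA : Real.logb 2 x ≤ x ^ (ε / 12) := by
      rw [hL, div_le_iff₀ hl2]
      linarith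
    have hsplit : x ^ (ε / 2) = x ^ (ε / 3) * x ^ (ε / 12) * x ^ (ε / 12) := by
      rw [← Real.rpow_add hx0, ← Real.rpow_add hx0]
      congr 1
      ring
    have hp3 : 0 < x ^ (ε / 3) := by positivity
    have hB : 2 * x ^ (ε / 3) ≤ x ^ (ε / 2) / Real.logb 2 x := by
      rw [le_div_iff₀ hL0, hsplit]
      have h10 : 2 * x ^ (ε / 3) * Real.logb 2 x ≤ 2 * x ^ (ε / 3) * x ^ (ε / 12) :=
        mul_le_mul_of_nonneg_left hA (by positivity)
      have h11 : 0 ≤ x ^ (ε / 3) * x ^ (ε / 12) := by positivity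
      nlinarith
    have hC : 16 * x * Real.log (9 * x) ≤ Real.exp (x ^ (ε / 3)) := by
      have h10 : Real.log (9 * x) ≤ 9 * x := by
        have := Real.log_le_sub_one_of_pos (by positivity : 0 < 9 * x)
        linarith
      have h11 : 16 * x * Real.log (9 * x) ≤ 144 * x ^ 2 := by nlinarith
      have h12 : Real.log (144 * x ^ 2) ≤ x ^ (ε / 3) := by
        rw [Real.log_mul (by norm_num) (by positivity), Real.log_pow]
        push_cast
        linarith
      calc _ ≤ 144 * x ^ 2 := h11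
        _ = Real.exp (Real.log (144 * x ^ 2)) := (Real.exp_log (by positivity)).symm
        _ ≤ _ := Real.exp_le_exp.2 h12
    have h2x : (2 : ℝ) ^ x = Real.exp (Real.log 2 * x) := Real.rpow_def_of_pos (by norm_num) x
    have hD : 1 ≤ 1 / 2 * ((2 : ℝ) ^ x * Real.exp (-x ^ (ε / 3))) := by
      have h10 : x ^ (ε / 3) ≤ x ^ (1 / 3 : ℝ) := by
        apply Real.rpow_le_rpow_of_exponent_le (by linarith)
        linarith
      have h11 : x = x ^ (1 / 3 : ℝ) * x ^ (2 / 3 : ℝ) := by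
        rw [← Real.rpow_add hx0]
        norm_num
      have h12 : 2 * x ^ (1 / 3 : ℝ) ≤ Real.log 2 * x := by
        rw [div_le_iff₀ hl2] at h7
        have h13 : 0 < x ^ (1 / 3 : ℝ) := by positivity
        have h14 : Real.log 2 * x = x ^ (1 / 3 : ℝ) * (x ^ (2 / 3 : ℝ) * Real.log 2) := by
          conv_lhs => rw [h11]
          ring
        rw [h14]
        nlinarith
      have h13 : Real.log 2 ≤ Real.log 2 * x / 2 := by nlinarith
      have h14 : Real.log 2 ≤ Real.log 2 * x + -x ^ (ε / 3) := by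
        linarith
      have h15 : (2 : ℝ) ≤ (2 : ℝ) ^ x * Real.exp (-x ^ (ε / 3)) := by
        rw [h2x, ← Real.exp_add]
        calc (2 : ℝ) = Real.exp (Real.log 2) := (Real.exp_log (by norm_num)).symm
          _ ≤ _ := Real.exp_le_exp.2 h14
      linarith
    have hE : Real.exp (-(x ^ (ε / 2) / Real.logb 2 x)) ≤
        Real.exp (-x ^ (ε / 3)) * Real.exp (-x ^ (ε / 3)) := by
      rw [← Real.exp_add]
      apply Real.exp_le_exp.2
      linarith
    have hF : 8 * x * Real.log (9 * x) * (2 : ℝ) ^ x *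
        Real.exp (-(x ^ (ε / 2) / Real.logb 2 x)) ≤
        1 / 2 * ((2 : ℝ) ^ x * Real.exp (-x ^ (ε / 3))) := by
      have hlog9 : 0 ≤ Real.log (9 * x) := Real.log_nonneg (by linarith)
      have h2p : 0 < (2 : ℝ) ^ x := by positivity
      calc 8 * x * Real.log (9 * x) * (2 : ℝ) ^ x *
            Real.exp (-(x ^ (ε / 2) / Real.logb 2 x))
          ≤ 8 * x * Real.log (9 * x) * (2 : ℝ) ^ x *
            (Real.exp (-x ^ (ε / 3)) * Real.exp (-x ^ (ε / 3))) :=
            mul_le_mul_of_nonneg_left hE (by positivity)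
        _ = (16 * x * Real.log (9 * x)) * Real.exp (-x ^ (ε / 3)) *
            (1 / 2 * ((2 : ℝ) ^ x * Real.exp (-x ^ (ε / 3)))) := by ring
        _ ≤ Real.exp (x ^ (ε / 3)) * Real.exp (-x ^ (ε / 3)) *
            (1 / 2 * ((2 : ℝ) ^ x * Real.exp (-x ^ (ε / 3)))) := by
            apply mul_le_mul_of_nonneg_right _ (by positivity)
            exact mul_le_mul_of_nonneg_right hC (by positivity)
        _ = _ := by
            rw [← Real.exp_add]
            simp
    linarith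

/-- The numerical facts for `n = ⌊(1 - ε) log₂ d⌋` and `τ = d ^ (-ε / 2)`. -/
theorem num2 {ε : ℝ} (hε0 : 0 < ε) (hε1 : ε < 1) :
    ∀ᶠ d : ℕ in atTop, 2 ≤ d ∧ 2 ≤ ⌊(1 - ε) * Real.logb 2 d⌋₊ ∧
      2 * ⌊(1 - ε) * Real.logb 2 d⌋₊ ≤ d + 2 ∧ (d : ℝ) ^ (-(ε / 2)) < 1 ∧
      8 * d * Real.log (9 * d) * 2 ^ d *
        (1 - (d : ℝ) ^ (-(ε / 2)) / 2 ^ ⌊(1 - ε) * Real.logb 2 d⌋₊) ^
          ((d : ℝ) / ((⌊(1 - ε) * Real.logb 2 d⌋₊ : ℝ) - 1)) + 1 ≤
        (2 : ℝ) ^ d * Real.exp (-(d : ℝ) ^ (ε / 3)) := by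
  filter_upwards [tendsto_natCast_atTop_atTop.eventually (num hε0 hε1)] with d hd
  obtain ⟨h1, h2, h3, h4, h5⟩ := hd
  have hd0 : (0 : ℝ) < d := by linarith
  have hL0 : 0 < Real.logb 2 (d : ℝ) := Real.logb_pos (by norm_num) (by linarith)
  set L := Real.logb 2 (d : ℝ) with hL
  set n := ⌊(1 - ε) * L⌋₊ with hn
  have hnL : (n : ℝ) ≤ (1 - ε) * L := Nat.floor_le (by linarith)
  have hn2 : 2 ≤ n := Nat.le_floor (by exact_mod_cast h2)
  have hn2' : (2 : ℝ) ≤ n := by exact_mod_cast hn2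
  have hnL2 : (n : ℝ) ≤ L := hnL.trans (by nlinarith)
  refine ⟨by exact_mod_cast h1, hn2, ?_, h4, ?_⟩
  · have : (2 : ℝ) * n ≤ d + 2 := by linarith
    exact_mod_cast this
  · set τ := (d : ℝ) ^ (-(ε / 2)) with hτ
    have hτ0 : 0 < τ := by positivity
    have h2n : (2 : ℝ) ^ n ≤ (d : ℝ) ^ (1 - ε) := by
      have e1 : (2 : ℝ) ^ n = (2 : ℝ) ^ (n : ℝ) := (Real.rpow_natCast 2 n).symm
      have e2 : (d : ℝ) ^ (1 - ε) = (2 : ℝ) ^ ((1 - ε) * L) := by
        have e3 : (d : ℝ) = (2 : ℝ) ^ L := (Real.rpow_logb (by norm_num) (by norm_num) hd0).symm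
        conv_lhs => rw [e3]
        rw [← Real.rpow_mul (by norm_num)]
        congr 1
        ring
      rw [e1, e2]
      exact Real.rpow_le_rpow_of_exponent_le (by norm_num) hnL
    have hp2 : (0 : ℝ) < 2 ^ n := by positivity
    set t := τ / 2 ^ n with ht
    have ht0 : 0 < t := by positivity
    have ht1 : t < 1 := by
      rw [ht, div_lt_one hp2]
      have : (1 : ℝ) ≤ 2 ^ n := one_le_pow₀ (by norm_num)
      linarith
    have htd : (d : ℝ) ^ (ε / 2) ≤ t * d := by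
      rw [ht, div_mul_eq_mul_div, le_div_iff₀ hp2]
      calc (d : ℝ) ^ (ε / 2) * 2 ^ n ≤ (d : ℝ) ^ (ε / 2) * (d : ℝ) ^ (1 - ε) :=
            mul_le_mul_of_nonneg_left h2n (by positivity)
        _ = τ * d := by
            rw [hτ, ← Real.rpow_add hd0]
            have e4 : (d : ℝ) ^ (-(ε / 2)) * d = (d : ℝ) ^ (-(ε / 2)) * (d : ℝ) ^ (1 : ℝ) := by
              rw [Real.rpow_one]
            rw [e4, ← Real.rpow_add hd0]
            congr 1
            ring
    have hn1 : 0 < (n : ℝ) - 1 := by linarith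
    have hexp : (1 - t) ^ ((d : ℝ) / ((n : ℝ) - 1)) ≤
        Real.exp (-((d : ℝ) ^ (ε / 2) / L)) := by
      calc (1 - t) ^ ((d : ℝ) / ((n : ℝ) - 1)) ≤ (Real.exp (-t)) ^ ((d : ℝ) / ((n : ℝ) - 1)) := by
            apply Real.rpow_le_rpow (by linarith) _ (by positivity)
            exact Real.one_sub_le_exp_neg t
        _ = Real.exp (-t * ((d : ℝ) / ((n : ℝ) - 1))) := by
            rw [← Real.exp_mul]
        _ ≤ _ := by
            apply Real.exp_le_exp.2
            have e5 : (d : ℝ) ^ (ε / 2) / L ≤ t * d / ((n : ℝ) - 1) := by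
              apply div_le_div₀ (by positivity) htd hn1
              linarith
            have e6 : -t * ((d : ℝ) / ((n : ℝ) - 1)) = -(t * d / ((n : ℝ) - 1)) := by ring
            rw [e6]
            linarith
    have hlog9 : 0 ≤ Real.log (9 * (d : ℝ)) := Real.log_nonneg (by linarith)
    have h2d : (2 : ℝ) ^ (d : ℝ) = (2 : ℝ) ^ d := Real.rpow_natCast 2 d
    rw [h2d] at h5
    have := mul_le_mul_of_nonneg_left hexp
      (by positivity : 0 ≤ 8 * (d : ℝ) * Real.log (9 * d) * 2 ^ d)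
    linarith

/-- The numerical fact for the distance from ellipsoids. -/
theorem num3 {ε : ℝ} (hε0 : 0 < ε) (hε1 : ε < 1) :
    ∀ᶠ d : ℕ in atTop, (1 - ε) * Real.logb 2 d <
      (1 - (d : ℝ) ^ (-(ε / 4))) ^ 2 * (⌊(1 - ε / 2) * Real.logb 2 d⌋₊ : ℝ) := by
  have e1 := ev_rpow (a := ε / 4) (by positivity) (8 / ε)
  have e2 := ev_logb (8 / ε)
  filter_upwards [tendsto_natCast_atTop_atTop.eventually e1,
    tendsto_natCast_atTop_atTop.eventually e2, eventually_ge_atTop 2] with d h1 h2 hd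
  have hd0 : (0 : ℝ) < d := by
    have : 0 < d := by omega
    exact_mod_cast this
  set L := Real.logb 2 (d : ℝ) with hL
  set τ := (d : ℝ) ^ (-(ε / 4)) with hτ
  have hτ0 : 0 < τ := by positivity
  have hτ1 : τ ≤ ε / 8 := by
    rw [hτ, Real.rpow_neg hd0.le, inv_le_comm₀ (by positivity) (by positivity)]
    calc (ε / 8)⁻¹ = 8 / ε := by rw [inv_div]
      _ ≤ _ := h1
  have h8 : 8 ≤ ε * L := by
    rw [div_le_iff₀ hε0] at h2
    linarith
  have hL0 : 0 < L := by
    by_contra hcon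
    push Not at hcon
    nlinarith
  have hfl : (1 - ε / 2) * L - 1 < (⌊(1 - ε / 2) * L⌋₊ : ℝ) := by
    have := Nat.lt_floor_add_one ((1 - ε / 2) * L)
    linarith
  set n : ℝ := (⌊(1 - ε / 2) * L⌋₊ : ℝ) with hn
  have hnL : n ≤ L := by
    have : n ≤ (1 - ε / 2) * L := Nat.floor_le (by
      apply mul_nonneg
      · linarith
      · exact hL0.le)
    nlinarith
  have hn0 : 0 ≤ n := Nat.cast_nonneg _
  have h9 : (1 - 2 * τ) * n ≤ (1 - τ) ^ 2 * n := by
    apply mul_le_mul_of_nonneg_right _ hn0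
    nlinarith [sq_nonneg τ]
  have h10 : 2 * τ * n ≤ ε / 4 * L := by
    calc 2 * τ * n ≤ 2 * (ε / 8) * L := by
          apply mul_le_mul _ hnL hn0 (by positivity)
          linarith
      _ = ε / 4 * L := by ring
  nlinarith

/-- Signs with small sum. -/
theorem signs {E : Type} [NormedAddCommGroup E] [InnerProductSpace ℝ E] {ι : Type}
    (s : Finset ι) (a : ι → E) (ha : ∀ i, ‖a i‖ ≤ 1) :
    ∃ e : ι → ℝ, (∀ i, e i = 1 ∨ e i = -1) ∧ ‖∑ i ∈ s, e i • a i‖ ^ 2 ≤ s.card := by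
  classical
  induction s using Finset.induction_on with
  | empty => exact ⟨fun _ => 1, fun _ => Or.inl rfl, by simp⟩
  | insert j s hj ih =>
    obtain ⟨e, he, hs⟩ := ih
    set S := ∑ i ∈ s, e i • a i with hS
    have hpar := parallelogram_law_with_norm ℝ S (a j)
    have haj : ‖a j‖ ^ 2 ≤ 1 := pow_le_one₀ (norm_nonneg _) (ha j)
    have hsum : ∀ r : ℝ, ∑ i ∈ insert j s, (Function.update e j r) i • a i = S + r • a j := by
      intro r
      rw [Finset.sum_insert hj, Function.update_self, hS, add_comm]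
      congr 1
      apply Finset.sum_congr rfl
      intro i hi
      rw [Function.update_of_ne]
      rintro rfl
      exact hj hi
    rw [Finset.card_insert_of_notMem hj]
    push_cast
    by_cases h : ‖S + a j‖ ^ 2 ≤ s.card + 1
    · refine ⟨Function.update e j 1, fun i => ?_, ?_⟩
      · by_cases hi : i = j
        · subst hi
          left
          simp
        · rw [Function.update_of_ne hi]
          exact he i
      · rw [hsum, one_smul]
        exact h
    · push Not at h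
      refine ⟨Function.update e j (-1), fun i => ?_, ?_⟩
      · by_cases hi : i = j
        · subst hi
          right
          simp
        · rw [Function.update_of_ne hi]
          exact he i
      · rw [hsum, neg_one_smul, ← sub_eq_add_neg]
        nlinarith

/-- Bodies with an almost cubic image are far from ellipsoids. -/
theorem ellipsoid {d n : ℕ} {τ D : ℝ} {K : Set (EuclideanSpace ℝ (Fin d))}
    {o : EuclideanSpace ℝ (Fin d)}
    (A : EuclideanSpace ℝ (Fin d) →ₗ[ℝ] EuclideanSpace ℝ (Fin d))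
    (hA1 : ∀ b, ‖b‖ ≤ 1 → o + A b ∈ K)
    (hA2 : ∀ x ∈ K, ∃ b, ‖b‖ ≤ 1 ∧ x = o + D • A b)
    (hτ0 : 0 ≤ τ) (hτ1 : τ ≤ 1)
    (T : EuclideanSpace ℝ (Fin d) →ₗ[ℝ] (Fin n → ℝ))
    (hT1 : ∀ x ∈ K, ∀ i, |T (x - o) i| ≤ 1)
    (hT2 : ∀ t : Fin n → ℝ, (∀ i, |t i| ≤ 1 - τ) → ∃ x ∈ K, T (x - o) = t) :
    (1 - τ) ^ 2 * n ≤ D ^ 2 := by
  rcases Nat.eq_zero_or_pos n with rfl | hn
  · simp [sq_nonneg]
  have hn' : (0 : ℝ) < n := by exact_mod_cast hn
  let a : Fin n → EuclideanSpace ℝ (Fin d) := fun i =>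
    (InnerProductSpace.toDual ℝ _).symm (LinearMap.toContinuousLinearMap
      ((LinearMap.proj i).comp (T.comp A)))
  have haT : ∀ i b, ⟪a i, b⟫_ℝ = T (A b) i := by
    intro i b
    have h1 : ⟪a i, b⟫_ℝ = (LinearMap.toContinuousLinearMap
      ((LinearMap.proj i).comp (T.comp A))) b := InnerProductSpace.toDual_symm_apply
    rw [h1]
    rfl
  have ha1 : ∀ i, ‖a i‖ ≤ 1 := by
    intro i
    rcases eq_or_ne (a i) 0 with h | h
    · rw [h, norm_zero]
      exact zero_le_one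
    · have hpos : 0 < ‖a i‖ := norm_pos_iff.2 h
      have hb : ‖(‖a i‖)⁻¹ • a i‖ ≤ 1 := by
        rw [norm_smul, norm_inv, norm_norm, inv_mul_cancel₀ hpos.ne']
      have h2 := hT1 _ (hA1 _ hb) i
      rw [add_sub_cancel_left, ← haT, inner_smul_right, real_inner_self_eq_norm_sq] at h2
      have h3 : (‖a i‖)⁻¹ * ‖a i‖ ^ 2 = ‖a i‖ := by
        field_simp
      rw [h3, abs_of_pos hpos] at h2
      exact h2
  obtain ⟨e, he, hs⟩ := signs Finset.univ a ha1
  rw [Finset.card_univ, Fintype.card_fin] at hs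
  obtain ⟨x, hx, hxt⟩ := hT2 (fun i => (1 - τ) * e i) (by
    intro i
    rw [abs_mul, abs_of_nonneg (by linarith : 0 ≤ 1 - τ)]
    rcases he i with h | h <;> rw [h] <;> simp)
  obtain ⟨b, hb, hxb⟩ := hA2 x hx
  have h1 : ∀ i, D * ⟪a i, b⟫_ℝ = (1 - τ) * e i := by
    intro i
    have h2 := congrFun hxt i
    rw [hxb, add_sub_cancel_left, map_smul, Pi.smul_apply, smul_eq_mul, ← haT] at h2
    exact h2
  have h2 : (1 - τ) * n = D * ⟪∑ i, e i • a i, b⟫_ℝ := by
    rw [sum_inner, Finset.mul_sum]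
    have h3 : ∀ i ∈ (Finset.univ : Finset (Fin n)), D * ⟪e i • a i, b⟫_ℝ = (1 - τ) := by
      intro i _
      rw [inner_smul_left]
      simp only [conj_trivial]
      have h4 : D * (e i * ⟪a i, b⟫_ℝ) = e i * (D * ⟪a i, b⟫_ℝ) := by ring
      rw [h4, h1]
      rcases he i with h | h <;> rw [h] <;> ring
    rw [Finset.sum_congr rfl h3, Finset.sum_const, Finset.card_univ, Fintype.card_fin,
      nsmul_eq_mul]
    ring
  have h3 : |⟪∑ i, e i • a i, b⟫_ℝ| ≤ ‖∑ i, e i • a i‖ := by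
    calc _ ≤ ‖∑ i, e i • a i‖ * ‖b‖ := abs_real_inner_le_norm _ _
      _ ≤ ‖∑ i, e i • a i‖ * 1 := mul_le_mul_of_nonneg_left hb (norm_nonneg _)
      _ = _ := mul_one _
  have h4 : ⟪∑ i, e i • a i, b⟫_ℝ ^ 2 ≤ n := by
    rw [← sq_abs]
    calc |⟪∑ i, e i • a i, b⟫_ℝ| ^ 2 ≤ ‖∑ i, e i • a i‖ ^ 2 :=
          pow_le_pow_left₀ (abs_nonneg _) h3 2
      _ ≤ n := hs
  have h5 : ((1 - τ) * n) ^ 2 ≤ D ^ 2 * n := by
    rw [h2, mul_pow]
    exact mul_le_mul_of_nonneg_left h4 (sq_nonneg D)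
  have h6 : ((1 - τ) ^ 2 * n) * n ≤ D ^ 2 * n := by
    calc _ = ((1 - τ) * n) ^ 2 := by ring
      _ ≤ _ := h5
  exact le_of_mul_le_mul_right h6 hn'

end Pool.Agent.Lib.MP_5e7226_co.Cub
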