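import Mathlib

set_option autoImplicit false

open Set MeasureTheory Module

namespace Pool.Agent.Lib.MP_5e7226_co

section vol

variable {E : Type*} [NormedAddCommGroup E] [NormedSpace ℝ E] [FiniteDimensional ℝ E]
  [MeasurableSpace E] [BorelSpace E]

/-- a nonzero functional is a.e. nonconstant -/
lemma level_null (μ : Measure E) [μ.IsAddHaarMeasure] (φ : E →L[ℝ] ℝ) (hφ : φ ≠ 0) (c : ℝ) :
    μ {x | φ x = c} = 0 := by
  by_cases hne : ∃ x₀, φ x₀ = c
  · obtain ⟨x₀, hx₀⟩ := hne
    have hker : LinearMap.ker (φ : E →ₗ[ℝ] ℝ) ≠ ⊤ := by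
      intro h
      apply hφ
      ext x
      have : x ∈ LinearMap.ker (φ : E →ₗ[ℝ] ℝ) := by rw [h]; trivial
      simpa using this
    have hsub : {x | φ x = c} ⊆ (AffineSubspace.mk' x₀ (LinearMap.ker (φ : E →ₗ[ℝ] ℝ)) : Set E) := by
      intro x hx
      simp only [mem_ofPred_eq] at hx
      rw [SetLike.mem_coe, AffineSubspace.mem_mk']
      simp [hx, hx₀]
    refine measure_mono_null hsub (Measure.addHaar_affineSubspace μ _ ?_)
    intro h
    apply hker
    have := congrArg AffineSubspace.direction h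
    rwa [AffineSubspace.direction_mk', AffineSubspace.direction_top] at this
  · have : {x | φ x = c} = ∅ := by
      ext x
      simp only [mem_ofPred_eq, mem_empty_iff_false, iff_false]
      exact fun h => hne ⟨x, h⟩
    rw [this, measure_empty]

/-- Danzer-Grünbaum: volume argument. -/
theorem dg_core (μ : Measure E) [μ.IsAddHaarMeasure] {B : Set E} (hB : IsCompact B)
    (hconv : Convex ℝ B) (hint : (interior B).Nonempty) {ι : Type*} [Fintype ι] (u : ι → E)
    (hu : ∀ i, u i ∈ B)
    (hanti : ∀ i j, i ≠ j → ∃ φ : E →L[ℝ] ℝ, φ (u j) < φ (u i) ∧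
      ∀ b ∈ B, φ (u j) ≤ φ b ∧ φ b ≤ φ (u i)) :
    Fintype.card ι ≤ 2 ^ finrank ℝ E ∧
      (Fintype.card ι = 2 ^ finrank ℝ E →
        B ⊆ ⋃ i, AffineMap.homothety (u i) (1 / 2 : ℝ) '' B) := by
  classical
  set S : ι → Set E := fun i => AffineMap.homothety (u i) (1 / 2 : ℝ) '' B with hS
  have hhom : ∀ (c x : E), AffineMap.homothety c (1 / 2 : ℝ) x = (1 / 2 : ℝ) • x + (1 / 2 : ℝ) • c := by
    intro c x
    rw [AffineMap.homothety_apply]
    simp only [vsub_eq_sub, vadd_eq_add]
    module
  have hScpt : ∀ i, IsCompact (S i) := fun i =>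
    hB.image (AffineMap.homothety_continuous (u i) (1 / 2 : ℝ))
  have hSmeas : ∀ i, MeasurableSet (S i) := fun i => (hScpt i).measurableSet
  have hSB : ∀ i, S i ⊆ B := by
    rintro i _ ⟨b, hb, rfl⟩
    rw [hhom]
    exact hconv hb (hu i) (by norm_num) (by norm_num) (by norm_num)
  have hdisj : Pairwise (fun i j => AEDisjoint μ (S i) (S j)) := by
    intro i j hij
    obtain ⟨φ, hlt, hφ⟩ := hanti i j hij
    have hφ0 : φ ≠ 0 := by
      rintro rfl
      simp at hlt
    refine measure_mono_null ?_ (level_null μ φ hφ0 ((φ (u i) + φ (u j)) / 2))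
    rintro x ⟨⟨b, hb, hbx⟩, ⟨b', hb', hbx'⟩⟩
    simp only [mem_ofPred_eq]
    have h1 : φ x = (1 / 2) * φ b + (1 / 2) * φ (u i) := by
      rw [← hbx, hhom]; simp
    have h2 : φ x = (1 / 2) * φ b' + (1 / 2) * φ (u j) := by
      rw [← hbx', hhom]; simp
    have h3 := (hφ b hb).1
    have h4 := (hφ b' hb').2
    linarith
  have hvol : ∀ i, μ (S i) = ENNReal.ofReal ((1 / 2) ^ finrank ℝ E) * μ B := by
    intro i
    rw [hS]
    simp only
    rw [Measure.addHaar_image_homothety, abs_of_nonneg (by positivity)]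
  have hsum : μ (⋃ i, S i) = Fintype.card ι * (ENNReal.ofReal ((1 / 2) ^ finrank ℝ E) * μ B) := by
    rw [measure_iUnion₀ hdisj (fun i => (hSmeas i).nullMeasurableSet), tsum_fintype]
    simp [hvol]
  have hpos : 0 < μ B := lt_of_lt_of_le (isOpen_interior.measure_pos μ hint)
    (measure_mono interior_subset)
  have hfin : μ B ≠ ⊤ := hB.measure_ne_top
  have hle : μ (⋃ i, S i) ≤ μ B := measure_mono (iUnion_subset hSB)
  have hreal : (Fintype.card ι : ℝ) * ((1 / 2) ^ finrank ℝ E * (μ B).toReal)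
      = (μ (⋃ i, S i)).toReal := by
    rw [hsum, ENNReal.toReal_mul, ENNReal.toReal_mul, ENNReal.toReal_ofReal (by positivity)]
    simp
  have hposr : 0 < (μ B).toReal := ENNReal.toReal_pos hpos.ne' hfin
  have h2 : (0 : ℝ) < 2 ^ finrank ℝ E := by positivity
  have hinv : ((1 : ℝ) / 2) ^ finrank ℝ E * 2 ^ finrank ℝ E = 1 := by
    rw [← mul_pow]; norm_num
  constructor
  · have hle' := ENNReal.toReal_mono hfin hle
    rw [← hreal] at hle'
    have h1 : (Fintype.card ι : ℝ) * (1 / 2) ^ finrank ℝ E ≤ 1 := by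
      by_contra hcon
      push Not at hcon
      nlinarith
    have h3 : (Fintype.card ι : ℝ) ≤ 2 ^ finrank ℝ E := by
      calc (Fintype.card ι : ℝ) = (Fintype.card ι : ℝ) * ((1 / 2) ^ finrank ℝ E * 2 ^ finrank ℝ E) := by
            rw [hinv, mul_one]
        _ = ((Fintype.card ι : ℝ) * (1 / 2) ^ finrank ℝ E) * 2 ^ finrank ℝ E := by ring
        _ ≤ 1 * 2 ^ finrank ℝ E := by gcongr
        _ = 2 ^ finrank ℝ E := one_mul _
    exact_mod_cast h3
  · intro hcard b hb
    by_contra hbn
    have hcl : IsClosed (⋃ i, S i) := isClosed_iUnion_of_finite fun i => (hScpt i).isClosed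
    have hO : IsOpen (⋃ i, S i)ᶜ := hcl.isOpen_compl
    have hbcl : b ∈ closure (interior B) := by
      rw [hconv.closure_interior_eq_closure_of_nonempty_interior hint]
      exact subset_closure hb
    obtain ⟨y, hy1, hy2⟩ := mem_closure_iff.mp hbcl _ hO hbn
    have hne : ((⋃ i, S i)ᶜ ∩ interior B).Nonempty := ⟨y, hy1, hy2⟩
    have hOpos : 0 < μ ((⋃ i, S i)ᶜ ∩ interior B) :=
      (hO.inter isOpen_interior).measure_pos μ hne
    have hadd : μ (⋃ i, S i) + μ ((⋃ i, S i)ᶜ ∩ interior B) ≤ μ B := by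
      rw [← measure_union (disjoint_left.mpr fun x hx hx' => hx'.1 hx)
        (hO.inter isOpen_interior).measurableSet]
      exact measure_mono (union_subset (iUnion_subset hSB)
        (inter_subset_right.trans interior_subset))
    have heq : (μ (⋃ i, S i)).toReal = (μ B).toReal := by
      rw [← hreal, hcard]
      push_cast
      have : (2 : ℝ) ^ finrank ℝ E * ((1 / 2) ^ finrank ℝ E * (μ B).toReal)
          = ((1 / 2) ^ finrank ℝ E * 2 ^ finrank ℝ E) * (μ B).toReal := by ring
      rw [this, hinv, one_mul]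
    have heq' : μ (⋃ i, S i) = μ B :=
      (ENNReal.toReal_eq_toReal_iff' (ne_top_of_le_ne_top hfin hle) hfin).mp heq
    rw [heq'] at hadd
    have := ENNReal.lt_add_right hfin hOpos.ne'
    exact absurd hadd (not_le.mpr this)

end vol

section sub

variable {E : Type*} [NormedAddCommGroup E] [NormedSpace ℝ E] [FiniteDimensional ℝ E]

/-- A functional bounded on points is bounded on their convex hull. -/
lemma le_on_convexHull {F : Type*} [AddCommGroup F] [Module ℝ F] (φ : F →ₗ[ℝ] ℝ) (c : ℝ)
    {s : Set F} (h : ∀ x ∈ s, φ x ≤ c) : ∀ x ∈ convexHull ℝ s, φ x ≤ c := by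
  have hc : Convex ℝ {x | φ x ≤ c} := convex_halfSpace_le φ.isLinear c
  exact fun x hx => convexHull_min h hc hx

/-- Danzer-Grünbaum for finite point sets: the bound is given by the dimension they span. -/
theorem dg_subspace {ι : Type*} [Fintype ι] (i₀ : ι) (u : ι → E)
    (hanti : ∀ i j, i ≠ j → ∃ φ : E →L[ℝ] ℝ, φ (u j) < φ (u i) ∧
      ∀ k, φ (u j) ≤ φ (u k) ∧ φ (u k) ≤ φ (u i)) :
    Fintype.card ι ≤ 2 ^ finrank ℝ (Submodule.span ℝ (range (fun i => u i - u i₀))) := by
  set D := Submodule.span ℝ (range (fun i => u i - u i₀)) with hD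
  have hmem : ∀ i, u i - u i₀ ∈ D := fun i => Submodule.subset_span ⟨i, rfl⟩
  let v : ι → D := fun i => ⟨u i - u i₀, hmem i⟩
  have hspan : Submodule.span ℝ (range v) = ⊤ := by
    apply Submodule.map_injective_of_injective (f := D.subtype) (Submodule.subtype_injective D)
    rw [Submodule.map_span, Submodule.map_subtype_top]
    have : D.subtype '' range v = range (fun i => u i - u i₀) := by
      rw [← range_comp]
      rfl
    rw [this]
  have haff : affineSpan ℝ (range v) = ⊤ := by
    rw [AffineSubspace.affineSpan_eq_top_iff_vectorSpan_eq_top_of_nonempty ℝ D D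
      (range_nonempty_iff_nonempty.mpr ⟨i₀⟩), vectorSpan_range_eq_span_range_vsub_right ℝ v i₀]
    rw [← hspan]
    congr 1
    ext x
    simp only [mem_range, vsub_eq_sub]
    have h0 : v i₀ = 0 := by
      apply Subtype.ext
      simp [v]
    rw [h0]
    simp
  have hint : (interior (convexHull ℝ (range v))).Nonempty :=
    interior_convexHull_nonempty_iff_affineSpan_eq_top.mpr haff
  have hcpt : IsCompact (convexHull ℝ (range v)) := (Set.finite_range v).isCompact_convexHull ℝ
  letI : MeasurableSpace D := borel D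
  haveI : BorelSpace D := ⟨rfl⟩
  refine (dg_core (Measure.addHaar : Measure D) hcpt (convex_convexHull ℝ _) hint v
    (fun i => subset_convexHull ℝ _ ⟨i, rfl⟩) ?_).1
  intro i j hij
  obtain ⟨φ, hlt, hφ⟩ := hanti i j hij
  refine ⟨φ.comp D.subtypeL, ?_, ?_⟩
  · simp [v, hlt]
  · intro b hb
    constructor
    · have := le_on_convexHull (-(φ.comp D.subtypeL : D →ₗ[ℝ] ℝ)) (-(φ (u j) - φ (u i₀)))
        (s := range v) (by
          rintro _ ⟨k, rfl⟩
          have := (hφ k).1
          simp [v]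
          linarith) b hb
      simp [v] at this ⊢
      linarith
    · have := le_on_convexHull (φ.comp D.subtypeL : D →ₗ[ℝ] ℝ) (φ (u i) - φ (u i₀))
        (s := range v) (by
          rintro _ ⟨k, rfl⟩
          have := (hφ k).2
          simp [v]
          linarith) b hb
      simp [v] at this ⊢
      linarith

end sub

end Pool.Agent.Lib.MP_5e7226_co
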