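import Pool.Agent.Lib.MP_5e7226_co.Select

set_option autoImplicit false
set_option linter.unusedSectionVars false

open Set MeasureTheory Module Filter Topology
open scoped InnerProductSpace

namespace Pool.Agent.Lib.MP_5e7226_co

variable {E : Type*} [NormedAddCommGroup E] [InnerProductSpace ℝ E] [FiniteDimensional ℝ E]

/-- Face with outer normal `u`. -/
def fc (K : Set E) (u : E) : Set E := {x | x ∈ K ∧ ∀ y ∈ K, ⟪u, y⟫_ℝ ≤ ⟪u, x⟫_ℝ}

/-- greedy pairing -/
lemma grouping {ι : Type*} [DecidableEq ι] (F : ι → Set E) (hF : ∀ i, IsCompact (F i))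
    (hne : ∀ i, (dcone (F i)).Nonempty) (n : ℕ) : ∀ S : Finset ι, S.card = n →
    ∃ (m : ℕ) (A : Fin m → Set E) (U : Finset ι), U ⊆ S ∧ 2 * m = S.card + U.card ∧
      (∀ g, (dcone (A g)).Nonempty) ∧ (∀ g, IsCompact (A g)) ∧ (∀ i ∈ S, ∃ g, F i ⊆ A g) ∧
      (∀ i ∈ U, ∃ g, A g = F i) ∧
      (∀ i ∈ U, ∀ j ∈ U, i ≠ j → ¬ (dcone (F i ∪ F j)).Nonempty) := by
  induction n using Nat.strong_induction_on with
  | _ n ih =>
    intro S hS
    by_cases h : ∃ i ∈ S, ∃ j ∈ S, i ≠ j ∧ (dcone (F i ∪ F j)).Nonempty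
    · obtain ⟨i, hi, j, hj, hij, hdc⟩ := h
      have hj' : j ∈ S.erase i := Finset.mem_erase.mpr ⟨Ne.symm hij, hj⟩
      have hc1 : (S.erase i).card = S.card - 1 := Finset.card_erase_of_mem hi
      have hc2 : ((S.erase i).erase j).card = (S.erase i).card - 1 := Finset.card_erase_of_mem hj'
      have hpos : 2 ≤ S.card := by
        have h1 : 0 < (S.erase i).card := Finset.card_pos.mpr ⟨j, hj'⟩
        omega
      obtain ⟨m, A, U, hU, hm, h1, h2, h3, h4, h5⟩ :=
        ih ((S.erase i).erase j).card (by omega) _ rfl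
      refine ⟨m + 1, Fin.cons (F i ∪ F j) A, U,
        hU.trans ((Finset.erase_subset _ _).trans (Finset.erase_subset _ _)), ?_, ?_, ?_, ?_, ?_, h5⟩
      · omega
      · intro g
        refine Fin.cases ?_ (fun g => ?_) g
        · simpa using hdc
        · simpa using h1 g
      · intro g
        refine Fin.cases ?_ (fun g => ?_) g
        · simpa using (hF i).union (hF j)
        · simpa using h2 g
      · intro k hk
        by_cases hki : k = i
        · subst hki
          exact ⟨0, by simp⟩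
        by_cases hkj : k = j
        · subst hkj
          exact ⟨0, by simp⟩
        obtain ⟨g, hg⟩ := h3 k (Finset.mem_erase.mpr ⟨hkj, Finset.mem_erase.mpr ⟨hki, hk⟩⟩)
        exact ⟨g.succ, by simpa using hg⟩
      · intro k hk
        obtain ⟨g, hg⟩ := h4 k hk
        exact ⟨g.succ, by simpa using hg⟩
    · push Not at h
      refine ⟨S.card, fun g => F (S.equivFin.symm g), S, Finset.Subset.refl _, by ring,
        fun g => hne _, fun g => hF _, ?_, ?_, ?_⟩
      · intro i hi
        exact ⟨S.equivFin ⟨i, hi⟩, by simp⟩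
      · intro i hi
        exact ⟨S.equivFin ⟨i, hi⟩, by simp⟩
      · intro i hi j hj hij
        rw [Set.not_nonempty_iff_eq_empty]
        exact h i hi j hj hij

lemma fc_smul (K : Set E) (u : E) {c : ℝ} (hc : 0 < c) : fc K (c • u) = fc K u := by
  ext x
  simp only [fc, mem_ofPred_eq, real_inner_smul_left]
  constructor
  · rintro ⟨hx, h⟩
    exact ⟨hx, fun y hy => le_of_mul_le_mul_left (h y hy) hc⟩
  · rintro ⟨hx, h⟩
    exact ⟨hx, fun y hy => mul_le_mul_of_nonneg_left (h y hy) hc.le⟩

lemma fc_compact {K : Set E} (hK : IsCompact K) (u : E) : IsCompact (fc K u) := by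
  have : fc K u = K ∩ ⋂ y ∈ K, {x | ⟪u, y⟫_ℝ ≤ ⟪u, x⟫_ℝ} := by
    ext x
    simp [fc]
  rw [this]
  exact hK.inter_right (isClosed_biInter fun y _ => isClosed_le continuous_const (by fun_prop))

lemma fc_convex {K : Set E} (hK : Convex ℝ K) (u : E) : Convex ℝ (fc K u) := by
  intro a ha b hb s t hs ht hst
  refine ⟨hK ha.1 hb.1 hs ht hst, ?_⟩
  intro y hy
  have h1 := ha.2 y hy
  have h2 := hb.2 y hy
  rw [inner_add_right, real_inner_smul_right, real_inner_smul_right]
  have : ⟪u, y⟫_ℝ = s * ⟪u, y⟫_ℝ + t * ⟪u, y⟫_ℝ := by rw [← add_mul, hst, one_mul]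
  rw [this]
  nlinarith

lemma fc_nonempty {K : Set E} (hK : IsCompact K) (hne : K.Nonempty) (u : E) :
    (fc K u).Nonempty := by
  obtain ⟨x, hx, hmax⟩ := hK.exists_isMaxOn hne (f := fun y => ⟪u, y⟫_ℝ) (by fun_prop)
  exact ⟨x, hx, fun y hy => hmax hy⟩

lemma fc_pos {K : Set E} (h0 : (0 : E) ∈ interior K) {u : E} (hu : u ≠ 0) {x : E}
    (hx : x ∈ fc K u) : 0 < ⟪u, x⟫_ℝ := by
  obtain ⟨r, hr, hball⟩ := Metric.isOpen_iff.mp isOpen_interior 0 h0
  have hun : 0 < ‖u‖ := norm_pos_iff.mpr hu
  have hy : ((r / 2) / ‖u‖) • u ∈ K := by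
    apply interior_subset
    apply hball
    rw [mem_ball_zero_iff, norm_smul, Real.norm_eq_abs, abs_of_pos (by positivity),
      div_mul_cancel₀ _ hun.ne']
    linarith
  have h1 := hx.2 _ hy
  rw [real_inner_smul_right, real_inner_self_eq_norm_sq] at h1
  have : 0 < (r / 2) / ‖u‖ * ‖u‖ ^ 2 := by positivity
  linarith

/-- Main theorem, centred version. -/
theorem few_faces {d : ℕ} (hd : finrank ℝ E = d) (hd3 : 3 ≤ d) {K : Set E} (hK : IsCompact K)
    (hconv : Convex ℝ K) (h0 : (0 : E) ∈ interior K) {N : ℕ} (n : Fin N → E)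
    (hn : ∀ i, n i ≠ 0)
    (hcov : ∀ u : E, u ≠ 0 → (fc K u).Subsingleton ∨ ∃ i, fc K u ⊆ fc K (n i)) :
    (∃ (v : Fin d → E) (t : Fin d → ℝ), LinearIndependent ℝ v ∧ (∀ k, 0 < t k) ∧
      K = convexHull ℝ (⋃ k, {v k, -(t k • v k)})) ∨
    ∃ w : Fin (max (d + 1) ((N + 2 ^ d - 1) / 2)) → E,
      ∀ u : E, u ≠ 0 → ∃ g, ∀ x ∈ fc K u, 0 < ⟪w g, x⟫_ℝ := by
  classical
  have hKne : K.Nonempty := ⟨0, interior_subset h0⟩
  -- normalised normals
  have hnorm : ∀ i, ∃ u : E, u ∈ pol K ∧ fc K u = fc K (n i) ∧ ∀ x ∈ fc K (n i), ⟪u, x⟫_ℝ = 1 := by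
    intro i
    obtain ⟨x, hx⟩ := fc_nonempty hK hKne (n i)
    have hpos := fc_pos h0 (hn i) hx
    refine ⟨(1 / ⟪n i, x⟫_ℝ) • n i, ?_, fc_smul K _ (by positivity), ?_⟩
    · intro y hy
      rw [real_inner_smul_left, one_div, inv_mul_le_iff₀ hpos, mul_one]
      exact hx.2 y hy
    · intro y hy
      have : ⟪n i, y⟫_ℝ = ⟪n i, x⟫_ℝ := le_antisymm (hx.2 y hy.1) (hy.2 x hx.1)
      rw [real_inner_smul_left, this]
      field_simp
  choose u hupol hufc hu1 using hnorm
  set F : Fin N → Set E := fun i => fc K (n i) with hF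
  have hFc : ∀ i, IsCompact (F i) := fun i => fc_compact hK _
  have hFdc : ∀ i, (dcone (F i)).Nonempty := by
    intro i
    refine ⟨u i, ?_⟩
    intro x hx
    rw [hu1 i x hx]
    norm_num
  have hF0 : ∀ i, (0 : E) ∉ F i := by
    intro i h
    have := hu1 i 0 h
    simp at this
  obtain ⟨m, A, U, -, hm, hA1, hA2, hA3, hA4, hA5⟩ :=
    grouping F hFc hFdc _ Finset.univ rfl
  rw [Finset.card_univ, Fintype.card_fin] at hm
  -- opposite position on U
  have hopp : ∀ i j : U, i ≠ j → Opp K (u i) (u j) := by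
    intro i j hij
    have hne : (i : Fin N) ≠ j := fun h => hij (Subtype.ext h)
    rcases merge_or_opp (hFc i) (fc_convex hconv _) (hFc j) (fc_convex hconv _)
      (fc_nonempty hK hKne _) (fc_nonempty hK hKne _) (hF0 i) (hF0 j) with ⟨w, hw1, hw2⟩ | h
    · exfalso
      apply hA5 i i.2 j j.2 hne
      refine ⟨w, ?_⟩
      rintro x (hx | hx)
      · exact hw1 x hx
      · exact hw2 x hx
    · obtain ⟨a, ha, c, hc, hb⟩ := h
      exact ⟨a, ha.1, c, hc, hb.1, hu1 i a ha, hu1 j _ hb⟩
  have hdg := dg_polar hK h0 (fun i : U => u i) (fun i => hupol i) hopp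
  rw [Fintype.card_coe, hd] at hdg
  by_cases hUeq : U.card = 2 ^ d
  · left
    exact cross_of_eq hK hconv h0 (by omega) hd (fun i : U => u i) (fun i => hupol i) hopp
      (by rw [Fintype.card_coe, hUeq])
  right
  have hUlt : U.card ≤ 2 ^ d - 1 := by
    have := hdg.1
    omega
  set M := max (d + 1) ((N + 2 ^ d - 1) / 2) with hM
  have h8 : 8 ≤ 2 ^ d := by
    calc 8 = 2 ^ 3 := by norm_num
      _ ≤ 2 ^ d := Nat.pow_le_pow_right (by norm_num) hd3
  have hmM : m ≤ M := by
    apply le_max_of_le_right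
    omega
  -- extended groups
  let A' : Fin M → Set E := fun g => if h : (g : ℕ) < m then A ⟨g, h⟩ else ∅
  have hA'1 : ∀ g, IsCompact (A' g) := by
    intro g
    simp only [A']
    split_ifs with h
    · exact hA2 _
    · exact isCompact_empty
  have hA'2 : ∀ g, (dcone (A' g)).Nonempty := by
    intro g
    simp only [A']
    split_ifs with h
    · exact hA1 _
    · exact ⟨0, fun x hx => absurd hx (notMem_empty x)⟩
  have hlift : ∀ g : Fin m, ∃ g' : Fin M, A' g' = A g := by
    intro g
    refine ⟨⟨g, lt_of_lt_of_le g.2 hmM⟩, ?_⟩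
    simp [A']
  have hC : ∀ v : E, v ≠ 0 → ∃ g, ∃ w ∈ dcone (A' g), ⟪w, v⟫_ℝ < 0 := by
    intro v hv
    by_cases hsmall : U.card + 3 ≤ 2 ^ d
    · -- there is an empty slot
      have hmM' : m < M := by
        rw [hM]
        apply lt_max_of_lt_right
        omega
      refine ⟨⟨m, hmM'⟩, -v, ?_, ?_⟩
      · intro x hx
        simp [A'] at hx
      · rw [inner_neg_left, neg_lt_zero, real_inner_self_eq_norm_sq]
        have := norm_pos_iff.mpr hv
        positivity
    · by_contra hcon
      push Not at hcon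
      -- every face in U meets the ray of v
      have hray : ∀ i : U, ∃ c : ℝ, 0 < c ∧ (1 / c) • v ∈ F i := by
        intro i
        obtain ⟨g, hg⟩ := hA4 i i.2
        obtain ⟨g', hg'⟩ := hlift g
        have h1 : ∀ w ∈ dcone (F i), 0 ≤ ⟪w, v⟫_ℝ := by
          intro w hw
          apply hcon g' w
          rw [hg', hg]
          exact hw
        rcases merge_or_opp (hFc i) (fc_convex hconv _) (isCompact_singleton (x := -v))
          (convex_singleton _) (fc_nonempty hK hKne _) (singleton_nonempty _) (hF0 i)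
          (by
            rw [mem_singleton_iff]
            intro h
            exact hv (neg_eq_zero.mp h.symm)) with ⟨w, hw1, hw2⟩ | ⟨a, ha, c, hc, hb⟩
        · exfalso
          have h2 := h1 w hw1
          have h3 := hw2 (-v) rfl
          rw [inner_neg_right] at h3
          linarith
        · refine ⟨c, hc, ?_⟩
          rw [mem_singleton_iff, neg_inj] at hb
          have : (1 / c) • v = a := by
            rw [← hb, smul_smul, one_div, inv_mul_cancel₀ hc.ne', one_smul]
          rw [this]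
          exact ha
      choose c hc hcv using hray
      have huv : ∀ i : U, ⟪u i, v⟫_ℝ = c i := by
        intro i
        have h1 := hu1 i _ (hcv i)
        rw [real_inner_smul_right] at h1
        have := (hc i).ne'
        field_simp at h1
        linarith
      have hcle : ∀ i j : U, c j ≤ c i := by
        intro i j
        have h1 := hupol j _ (hcv i).1
        rw [real_inner_smul_right, huv j] at h1
        have := hc i
        rw [one_div, inv_mul_le_iff₀ this, mul_one] at h1
        exact h1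
      have hceq : ∀ i j : U, c i = c j := fun i j => le_antisymm (hcle j i) (hcle i j)
      have hUpos : 0 < U.card := by omega
      obtain ⟨i₀, hi₀⟩ := Finset.card_pos.mp hUpos
      have hsub := dg_subspace (E := E) (⟨i₀, hi₀⟩ : U) (fun i : U => u i) (by
        intro i j hij
        obtain ⟨z, hz, hlt, hall⟩ := (hopp i j hij).spec
        refine ⟨innerSL ℝ z, ?_, ?_⟩
        · rw [innerSL_apply_apply, innerSL_apply_apply, real_inner_comm, real_inner_comm (u i) z]
          exact hlt
        · intro k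
          rw [innerSL_apply_apply, innerSL_apply_apply, innerSL_apply_apply, real_inner_comm,
            real_inner_comm (u i) z, real_inner_comm (u k) z]
          exact hall (u k) (hupol k))
      rw [Fintype.card_coe] at hsub
      have hle : Submodule.span ℝ (range (fun i : U => u i - u (⟨i₀, hi₀⟩ : U))) ≤ (ℝ ∙ v)ᗮ := by
        rw [Submodule.span_le]
        rintro _ ⟨i, rfl⟩
        rw [SetLike.mem_coe, Submodule.mem_orthogonal_singleton_iff_inner_left, inner_sub_left,
          huv, huv, hceq i ⟨i₀, hi₀⟩, sub_self]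
      have hfr : finrank ℝ (ℝ ∙ v)ᗮ = d - 1 := by
        have h1 := Submodule.finrank_add_finrank_orthogonal (ℝ ∙ v)
        rw [finrank_span_singleton hv, hd] at h1
        omega
      have h2 := Submodule.finrank_mono hle
      rw [hfr] at h2
      have h3 : U.card ≤ 2 ^ (d - 1) := hsub.trans (Nat.pow_le_pow_right (by norm_num) h2)
      have h4 : 2 ^ d = 2 * 2 ^ (d - 1) := by
        rw [← pow_succ']
        congr 1
        omega
      have h5 : 4 ≤ 2 ^ (d - 1) := by omega
      omega
  obtain ⟨w, hw1, hw2⟩ := exists_select hd (le_max_left _ _) A' hA'1 hA'2 hC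
  refine ⟨w, ?_⟩
  intro f hf
  rcases hcov f hf with hss | ⟨i, hi⟩
  · obtain ⟨x, hx⟩ := fc_nonempty hK hKne f
    have hx0 : x ≠ 0 := by
      rintro rfl
      have := fc_pos h0 hf hx
      simp at this
    obtain ⟨g, hg⟩ := hw2 x hx0
    refine ⟨g, ?_⟩
    intro y hy
    rw [hss hy hx]
    exact hg
  · obtain ⟨g, hg⟩ := hA3 i (Finset.mem_univ i)
    obtain ⟨g', hg'⟩ := hlift g
    refine ⟨g', ?_⟩
    intro x hx
    apply hw1 g'
    rw [hg']
    exact hg (hi hx)

end Pool.Agent.Lib.MP_5e7226_co
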