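import Pool.Agent.Lib.MP_5e7226_co.Few
import Pool.Agent.Lib.MP_5e7226_co.Basic

set_option autoImplicit false
set_option linter.unusedSectionVars false

open Set MeasureTheory Module Filter Topology
open scoped InnerProductSpace

namespace Pool.Agent.Lib.MP_5e7226_co

lemma sep_of_vectors {E : Type*} [NormedAddCommGroup E] [InnerProductSpace ℝ E]
    [FiniteDimensional ℝ E] {K : Set E} {M : ℕ} (w : Fin M → E)
    (h : ∀ u : E, u ≠ 0 → ∃ g, ∀ x ∈ fc K u, 0 < ⟪w g, x⟫_ℝ) : Sep K M := by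
  refine ⟨fun g => InnerProductSpace.toDual ℝ E (w g), ?_⟩
  intro f hf
  set u := (InnerProductSpace.toDual ℝ E).symm f with hu
  have hfu : ∀ y, f y = ⟪u, y⟫_ℝ := fun y => by
    rw [hu, InnerProductSpace.toDual_symm_apply]
  have hu0 : u ≠ 0 := by
    intro h
    apply hf
    ext y
    rw [hfu, h, inner_zero_left]
    rfl
  obtain ⟨g, hg⟩ := h u hu0
  refine ⟨g, ?_⟩
  intro x hx
  rw [InnerProductSpace.toDual_apply_apply]
  apply hg
  refine ⟨hx.1, ?_⟩
  intro y hy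
  rw [← hfu, ← hfu]
  exact hx.2 y hy

variable {d : ℕ}

lemma translate_fc (K : Set (EuclideanSpace ℝ (Fin d))) (o u : EuclideanSpace ℝ (Fin d)) :
    fc ((fun x => x - o) '' K) u = (fun x => x - o) '' fc K u := by
  ext x
  constructor
  · rintro ⟨⟨y, hy, rfl⟩, h⟩
    refine ⟨y, ⟨hy, ?_⟩, rfl⟩
    intro z hz
    have := h (z - o) ⟨z, hz, rfl⟩
    simp only [inner_sub_right] at this
    linarith
  · rintro ⟨y, ⟨hy, h⟩, rfl⟩
    refine ⟨⟨y, hy, rfl⟩, ?_⟩
    rintro _ ⟨z, hz, rfl⟩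
    have := h z hz
    simp only [inner_sub_right]
    linarith

/-- Main theorem in Euclidean space. -/
theorem few_faces_final (hd : 3 ≤ d) (K : Set (EuclideanSpace ℝ (Fin d))) (hconv : Convex ℝ K)
    (hK : IsCompact K) (o : EuclideanSpace ℝ (Fin d)) (ho : o ∈ interior K) {N : ℕ}
    (n : Fin N → EuclideanSpace ℝ (Fin d)) (hn : ∀ i, n i ≠ 0)
    (hcov : ∀ u : EuclideanSpace ℝ (Fin d), u ≠ 0 →
      (fc K u).Subsingleton ∨ ∃ i, fc K u ⊆ fc K (n i)) :
    (∃ (v : Fin d → EuclideanSpace ℝ (Fin d)) (t : Fin d → ℝ), LinearIndependent ℝ v ∧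
      (∀ k, 0 < t k) ∧ K = convexHull ℝ (⋃ k, {o + v k, o - t k • v k})) ∨
    ∃ w : Fin (max (d + 1) ((N + 2 ^ d - 1) / 2)) → EuclideanSpace ℝ (Fin d),
      ∃ b : Fin (max (d + 1) ((N + 2 ^ d - 1) / 2)) → ℝ,
      ∀ u x₀ : EuclideanSpace ℝ (Fin d), u ≠ 0 → x₀ ∈ K →
        (∀ y ∈ K, ⟪u, y⟫_ℝ ≤ ⟪u, x₀⟫_ℝ) →
          ∃ i, ⟪w i, o⟫_ℝ < b i ∧
            ∀ x ∈ K, ⟪u, x⟫_ℝ = ⟪u, x₀⟫_ℝ → b i < ⟪w i, x⟫_ℝ := by
  set K₁ : Set (EuclideanSpace ℝ (Fin d)) := (fun x => x - o) '' K with hK₁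
  have hK₁c : IsCompact K₁ := hK.image (continuous_id.sub continuous_const)
  have hK₁v : Convex ℝ K₁ := by
    have h := hconv.translate (-o)
    have h' : (fun z => -o + z) '' K = K₁ := by
      rw [hK₁]
      apply image_congr
      intro x _
      abel
    rwa [h'] at h
  have hK₁i : (0 : EuclideanSpace ℝ (Fin d)) ∈ interior K₁ := by
    have h := (Homeomorph.subRight o).isOpenMap.image_interior_subset K
    apply h
    exact ⟨o, ho, by simp⟩
  have hcov₁ : ∀ u : EuclideanSpace ℝ (Fin d), u ≠ 0 →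
      (fc K₁ u).Subsingleton ∨ ∃ i, fc K₁ u ⊆ fc K₁ (n i) := by
    intro u hu
    rcases hcov u hu with h | ⟨i, hi⟩
    · left
      rw [hK₁, translate_fc]
      exact h.image _
    · right
      refine ⟨i, ?_⟩
      rw [hK₁, translate_fc, translate_fc]
      exact image_mono hi
  rcases few_faces (by simp) hd hK₁c hK₁v hK₁i n hn hcov₁ with ⟨v, t, hv, ht, hKe⟩ | ⟨w, hw⟩
  · left
    refine ⟨v, t, hv, ht, ?_⟩
    have h1 : K = (fun x => x + o) '' K₁ := by
      rw [hK₁, ← image_comp]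
      ext x
      simp
    rw [h1, hKe]
    have h2 := (AffineMap.image_convexHull ((AffineEquiv.vaddConst ℝ o).toAffineMap)
      (⋃ k, ({v k, -(t k • v k)} : Set (EuclideanSpace ℝ (Fin d)))))
    have h3 : ∀ S : Set (EuclideanSpace ℝ (Fin d)),
        ((AffineEquiv.vaddConst ℝ o).toAffineMap) '' S = (fun x => x + o) '' S := by
      intro S
      rfl
    rw [h3, h3] at h2
    rw [h2, image_iUnion]
    congr 1
    apply iUnion_congr
    intro k
    rw [image_pair]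
    congr 1
    · abel
    · congr 1
      abel
  · right
    exact sep_to_hyperplanes hK o (sep_of_vectors w hw)

end Pool.Agent.Lib.MP_5e7226_co
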