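import Pool.Agent.Lib.MP_5e7226_co.Induct

set_option autoImplicit false

open Set Filter Topology

namespace Pool.Agent.Lib.MP_5e7226_co

/-- Transport of the main induction to Euclidean space. -/
theorem rotational_sep {d m l : ℕ} (hm : 1 ≤ m) (hl : l ≤ 2)
    (K : Set (EuclideanSpace ℝ (Fin d))) (hconv : Convex ℝ K) (hK : IsCompact K)
    (o : EuclideanSpace ℝ (Fin d)) (ho : o ∈ interior K)
    (T : EuclideanSpace ℝ (Fin d) ≃ₗ[ℝ] (Fin m → ℂ) × (Fin l → ℝ))
    (p : Fin m → ℕ) (ζ : Fin m → ℂ) (hp : ∀ j, 7 ≤ p j) (hζ : ∀ j, IsPrimitiveRoot (ζ j) (p j))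
    (hinv : ∀ j, ∀ x ∈ K, o + T.symm (Function.update (T (x - o)).1 j (ζ j * (T (x - o)).1 j),
      (T (x - o)).2) ∈ K) :
    Sep ((fun x => x - o) '' K) (3 * 2 ^ (d - 2)) := by
  obtain ⟨m, rfl⟩ : ∃ k, m = k + 1 := ⟨m - 1, by omega⟩
  have hd : d = 2 * (m + 1) + l := by
    have h1 := T.finrank_eq
    rw [finrank_euclideanSpace_fin, Module.finrank_prod, Module.finrank_fin_fun,
      Module.finrank_pi_fintype] at h1
    simp only [Complex.finrank_real_complex, Finset.sum_const, Finset.card_univ,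
      Fintype.card_fin, smul_eq_mul] at h1
    omega
  have hfl : Module.finrank ℝ (Fin l → ℝ) = l := by simp
  have hT : Continuous (fun x : EuclideanSpace ℝ (Fin d) => T (x - o)) :=
    T.toLinearMap.continuous_of_finiteDimensional.comp (continuous_id.sub continuous_const)
  let T' := T.toContinuousLinearEquiv
  set K₁ : Set (EuclideanSpace ℝ (Fin d)) := (fun x => x - o) '' K with hK₁
  have hK₁c : IsCompact K₁ := hK.image (continuous_id.sub continuous_const)
  have hK₁v : Convex ℝ K₁ := by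
    have h := hconv.translate (-o)
    have h' : (fun z => -o + z) '' K = K₁ := by
      rw [hK₁]
      apply image_congr
      intro x _
      abel
    rwa [h'] at h
  have hK₁i : (0 : EuclideanSpace ℝ (Fin d)) ∈ interior K₁ := by
    have h := (Homeomorph.subRight o).isOpenMap.image_interior_subset K
    apply h
    exact ⟨o, ho, by simp⟩
  have hint : (0 : (Fin (m + 1) → ℂ) × (Fin l → ℝ)) ∈ interior (T' '' K₁) := by
    have h := T'.toHomeomorph.isOpenMap.image_interior_subset K₁
    apply h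
    exact ⟨0, hK₁i, by simp⟩
  have hrot : MultiRot ζ (T' '' K₁) := by
    rintro j _ ⟨_, ⟨x, hx, rfl⟩, rfl⟩
    refine ⟨_, ⟨_, hinv j x hx, rfl⟩, ?_⟩
    simp only [add_sub_cancel_left]
    exact T.apply_symm_apply _
  have h1 := multi hl hfl m p ζ hp hζ (T' '' K₁) (hK₁c.image T'.continuous)
    (hK₁v.linear_image T'.toLinearMap) hrot hint
  have h2 := h1.image T'.symm
  have h3 : T'.symm '' (T' '' K₁) = K₁ := by
    rw [← image_comp]
    simp
  rw [h3] at h2
  have h4 : 3 * 2 ^ l * 4 ^ m = 3 * 2 ^ (d - 2) := by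
    have : d - 2 = l + 2 * m := by omega
    rw [this, pow_add, pow_mul, mul_assoc]
    norm_num
  rwa [h4] at h2

end Pool.Agent.Lib.MP_5e7226_co
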