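import Mathlib

set_option autoImplicit false

open Set Module
open scoped InnerProductSpace

namespace Pool.Agent.Lib.MP_5e7226_co

/-- The separation statement for a finite family of vectors (generators of a cone). -/
def ConeSep (n : ℕ) {ι : Type} [Fintype ι] {V : Type*} [AddCommGroup V] [Module ℝ V]
    (x : ι → V) (o : V) : Prop :=
  ∃ w : Fin n → (V →ₗ[ℝ] ℝ), (∀ k, w k o < 0) ∧
    ∀ f : V →ₗ[ℝ] ℝ, f ≠ 0 → (∀ i, f (x i) ≤ 0) → ∃ k, ∀ i, f (x i) = 0 → 0 < w k (x i)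

/-- The inductive step: an extreme generator. -/
theorem cone_step {n : ℕ} {ι : Type} [Fintype ι] {V : Type*} [AddCommGroup V] [Module ℝ V]
    [FiniteDimensional ℝ V] (x : ι → V) (hspan : Submodule.span ℝ (range x) = ⊤)
    (g : V →ₗ[ℝ] ℝ) (hg : ∀ i, 0 < g (x i)) (i₁ : ι) (w₀ : V →ₗ[ℝ] ℝ) (hw₁ : w₀ (x i₁) < 0)
    (hw₀ : ∀ i, (∃ t : ℝ, 0 < t ∧ x i = t • x i₁) ∨ 0 < w₀ (x i))
    (ih : ∀ (κ : Type) [Fintype κ] (y : κ → V ⧸ (ℝ ∙ x i₁)),
      Submodule.span ℝ (range y) = ⊤ → (∃ g' : (V ⧸ (ℝ ∙ x i₁)) →ₗ[ℝ] ℝ, ∀ i, 0 < g' (y i)) →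
      ∃ c : κ → ℝ, (∀ i, 0 < c i) ∧ ConeSep n y (∑ i, c i • y i)) :
    ∃ c : ι → ℝ, (∀ i, 0 < c i) ∧ ∃ δ₀ > 0, ∀ δ : ℝ, 0 < δ → δ < δ₀ →
      ConeSep (n + 1) x (x i₁ + δ • ∑ i, c i • x i) := by
  classical
  set Q := ℝ ∙ x i₁ with hQ
  let κ : Type := {i : ι // ¬ ∃ t : ℝ, 0 < t ∧ x i = t • x i₁}
  let y : κ → V ⧸ Q := fun i => Q.mkQ (x i)
  have hx₁ : Q.mkQ (x i₁) = 0 := by
    rw [Submodule.mkQ_apply, Submodule.Quotient.mk_eq_zero]
    exact Submodule.mem_span_singleton_self _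
  have hgx₁ := hg i₁
  -- the family spans the quotient
  have hspan' : Submodule.span ℝ (range y) = ⊤ := by
    rw [eq_top_iff, ← Submodule.range_mkQ Q, LinearMap.range_eq_map, ← hspan, Submodule.map_span,
      Submodule.span_le]
    rintro _ ⟨_, ⟨i, rfl⟩, rfl⟩
    by_cases hi : ∃ t : ℝ, 0 < t ∧ x i = t • x i₁
    · obtain ⟨t, -, ht⟩ := hi
      rw [SetLike.mem_coe, ht, map_smul, hx₁, smul_zero]
      exact Submodule.zero_mem _
    · exact Submodule.subset_span ⟨⟨i, hi⟩, rfl⟩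
  -- pointedness of the quotient
  obtain ⟨g', hg'⟩ : ∃ g' : (V ⧸ Q) →ₗ[ℝ] ℝ, ∀ i, 0 < g' (y i) := by
    let h : V →ₗ[ℝ] ℝ := (-(w₀ (x i₁))) • g + (g (x i₁)) • w₀
    have hh : Q ≤ LinearMap.ker h := by
      rw [hQ, Submodule.span_singleton_le_iff_mem, LinearMap.mem_ker]
      simp only [h, LinearMap.add_apply, LinearMap.smul_apply, smul_eq_mul]
      ring
    refine ⟨Q.liftQ h hh, ?_⟩
    intro i
    have h1 : 0 < w₀ (x i) := (hw₀ i).resolve_left i.2
    have h2 := hg i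
    change 0 < Q.liftQ h hh (Q.mkQ (x i))
    rw [Submodule.mkQ_apply, Submodule.liftQ_apply]
    simp only [h, LinearMap.add_apply, LinearMap.smul_apply, smul_eq_mul]
    nlinarith [mul_pos (neg_pos.mpr hw₁) h2, mul_pos hgx₁ h1]
  obtain ⟨c', hc', w', hw'o, hw'⟩ := ih κ y hspan' ⟨g', hg'⟩
  let c : ι → ℝ := fun i => if h : ¬ ∃ t : ℝ, 0 < t ∧ x i = t • x i₁ then c' ⟨i, h⟩ else 1
  have hc : ∀ i, 0 < c i := by
    intro i
    by_cases h : ¬ ∃ t : ℝ, 0 < t ∧ x i = t • x i₁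
    · have : c i = c' ⟨i, h⟩ := dif_pos h
      rw [this]
      exact hc' _
    · have : c i = 1 := dif_neg h
      rw [this]
      exact one_pos
  set o : V := ∑ i, c i • x i with ho
  have hπo : Q.mkQ o = ∑ i, c' i • y i := by
    rw [ho, map_sum]
    rw [← Finset.sum_filter_add_sum_filter_not Finset.univ
      (fun i => ¬ ∃ t : ℝ, 0 < t ∧ x i = t • x i₁)]
    have h2 : ∑ i ∈ Finset.univ.filter (fun i => ¬ ¬ ∃ t : ℝ, 0 < t ∧ x i = t • x i₁),
        Q.mkQ (c i • x i) = 0 := by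
      apply Finset.sum_eq_zero
      intro i hi
      simp only [not_not, Finset.mem_filter] at hi
      obtain ⟨t, -, ht⟩ := hi.2
      rw [ht, map_smul, map_smul, hx₁, smul_zero, smul_zero]
    rw [h2, add_zero]
    rw [← Finset.sum_subtype_eq_sum_filter]
    rw [Finset.subtype_univ]
    apply Finset.sum_congr rfl
    intro i _
    rw [map_smul]
    congr 1
    simp only [c]
    rw [dif_pos i.2]
  obtain ⟨δ₀, hδ₀, hδ₀'⟩ : ∃ δ₀ > 0, ∀ δ : ℝ, 0 < δ → δ < δ₀ → w₀ (x i₁ + δ • o) < 0 := by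
    refine ⟨-(w₀ (x i₁)) / (|w₀ o| + 1), div_pos (by linarith) (by positivity), ?_⟩
    intro δ hδ hδ'
    rw [map_add, map_smul, smul_eq_mul]
    rw [lt_div_iff₀ (by positivity)] at hδ'
    have h1 := le_abs_self (w₀ o)
    nlinarith [abs_nonneg (w₀ o)]
  refine ⟨c, hc, δ₀, hδ₀, ?_⟩
  intro δ hδ hδ'
  -- the small multiple of `g`
  have hgo : 0 < g (x i₁ + δ • o) := by
    rw [map_add, map_smul, smul_eq_mul]
    have : 0 < g o := by
      rw [ho, map_sum]
      apply Finset.sum_pos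
      · intro i _
        rw [map_smul, smul_eq_mul]
        exact mul_pos (hc i) (hg i)
      · exact ⟨i₁, Finset.mem_univ _⟩
    positivity
  obtain ⟨η, hη, hη'⟩ : ∃ η > 0, ∀ k : Fin n, δ * w' k (Q.mkQ o) + η * g (x i₁ + δ • o) < 0 := by
    rcases isEmpty_or_nonempty (Fin n) with hemp | hne
    · exact ⟨1, one_pos, fun k => (hemp.false k).elim⟩
    · have hneg : ∀ k, δ * w' k (Q.mkQ o) < 0 := by
        intro k
        rw [hπo]
        exact mul_neg_of_pos_of_neg hδ (hw'o k)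
      obtain ⟨k₀, hk₀⟩ := Finite.exists_max (fun k => δ * w' k (Q.mkQ o))
      refine ⟨-(δ * w' k₀ (Q.mkQ o)) / (2 * g (x i₁ + δ • o)),
        div_pos (by linarith [hneg k₀]) (by positivity), ?_⟩
      intro k
      have h1 : δ * w' k (Q.mkQ o) ≤ δ * w' k₀ (Q.mkQ o) := hk₀ k
      have h2 := hneg k₀
      have h3 : -(δ * w' k₀ (Q.mkQ o)) / (2 * g (x i₁ + δ • o)) * g (x i₁ + δ • o)
          = -(δ * w' k₀ (Q.mkQ o)) / 2 := by
        field_simp
      rw [h3]
      linarith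
  refine ⟨Fin.snoc (fun k => (w' k).comp Q.mkQ + η • g) w₀, ?_, ?_⟩
  · intro k
    refine Fin.lastCases ?_ (fun k => ?_) k
    · rw [Fin.snoc_last]
      exact hδ₀' δ hδ hδ'
    · have h := hη' k
      have h1 : Q.mkQ (x i₁ + δ • o) = δ • Q.mkQ o := by
        rw [map_add, hx₁, zero_add, map_smul]
      simp only [Fin.snoc_castSucc, LinearMap.add_apply, LinearMap.comp_apply, LinearMap.smul_apply,
        smul_eq_mul]
      rw [h1, map_smul, smul_eq_mul]
      exact h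
  · intro f hf hfx
    by_cases hf₁ : f (x i₁) = 0
    · have hle : Q ≤ LinearMap.ker f := by
        rw [hQ, Submodule.span_singleton_le_iff_mem, LinearMap.mem_ker]
        exact hf₁
      have hf' : Q.liftQ f hle ≠ 0 := by
        intro h
        apply hf
        ext z
        have := congrArg (fun φ : (V ⧸ Q) →ₗ[ℝ] ℝ => φ (Q.mkQ z)) h
        simpa using this
      obtain ⟨k, hk⟩ := hw' (Q.liftQ f hle) hf' (by
        intro i
        change Q.liftQ f hle (Q.mkQ (x i)) ≤ 0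
        rw [Submodule.mkQ_apply, Submodule.liftQ_apply]
        exact hfx i)
      refine ⟨k.castSucc, ?_⟩
      intro i hi
      simp only [Fin.snoc_castSucc, LinearMap.add_apply, LinearMap.comp_apply,
        LinearMap.smul_apply, smul_eq_mul]
      have hgi := hg i
      by_cases hi' : ∃ t : ℝ, 0 < t ∧ x i = t • x i₁
      · obtain ⟨t, -, ht⟩ := hi'
        have : Q.mkQ (x i) = 0 := by rw [ht, map_smul, hx₁, smul_zero]
        rw [this, map_zero, zero_add]
        positivity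
      · have := hk ⟨i, hi'⟩ (by
          change Q.liftQ f hle (Q.mkQ (x i)) = 0
          rw [Submodule.mkQ_apply, Submodule.liftQ_apply]
          exact hi)
        have h2 : 0 < w' k (Q.mkQ (x i)) := this
        positivity
    · refine ⟨Fin.last n, ?_⟩
      intro i hi
      rw [Fin.snoc_last]
      rcases hw₀ i with ⟨t, ht, hti⟩ | h
      · exfalso
        rw [hti, map_smul, smul_eq_mul] at hi
        rcases mul_eq_zero.mp hi with h | h
        · exact ht.ne' h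
        · exact hf₁ h
      · exact h

/-- Existence of an extreme generator. -/
theorem exists_extreme_gen {ι : Type} [Fintype ι] [Nonempty ι] {V : Type*} [AddCommGroup V]
    [Module ℝ V] [FiniteDimensional ℝ V] (x : ι → V) (g : V →ₗ[ℝ] ℝ) (hg : ∀ i, 0 < g (x i)) :
    ∃ (i₁ : ι) (w₀ : V →ₗ[ℝ] ℝ), w₀ (x i₁) < 0 ∧
      ∀ i, (∃ t : ℝ, 0 < t ∧ x i = t • x i₁) ∨ 0 < w₀ (x i) := by
  classical
  let e : V ≃ₗ[ℝ] EuclideanSpace ℝ (Fin (finrank ℝ V)) :=
    LinearEquiv.ofFinrankEq _ _ (by simp)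
  let y : ι → EuclideanSpace ℝ (Fin (finrank ℝ V)) := fun i => (1 / g (x i)) • e (x i)
  obtain ⟨i₁, hi₁⟩ := Finite.exists_max (fun i => ‖y i‖)
  have hxy : ∀ i, e (x i) = g (x i) • y i := by
    intro i
    simp only [y]
    rw [smul_smul, mul_one_div_cancel (hg i).ne', one_smul]
  have hcs : ∀ i, ⟪y i₁, y i⟫_ℝ ≤ ‖y i₁‖ ^ 2 := by
    intro i
    calc ⟪y i₁, y i⟫_ℝ ≤ ‖y i₁‖ * ‖y i‖ := real_inner_le_norm _ _
      _ ≤ ‖y i₁‖ * ‖y i₁‖ := by gcongr; exact hi₁ i
      _ = ‖y i₁‖ ^ 2 := by ring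
  have heq : ∀ i, ⟪y i₁, y i⟫_ℝ = ‖y i₁‖ ^ 2 → y i = y i₁ := by
    intro i h
    have h1 : ‖y i - y i₁‖ ^ 2 ≤ 0 := by
      rw [@norm_sub_sq_real, real_inner_comm, h]
      have : ‖y i‖ ^ 2 ≤ ‖y i₁‖ ^ 2 := by gcongr; exact hi₁ i
      linarith
    have h2 : ‖y i - y i₁‖ = 0 := by
      have := sq_nonneg ‖y i - y i₁‖
      nlinarith
    exact sub_eq_zero.mp (norm_eq_zero.mp h2)
  let φ : V →ₗ[ℝ] ℝ := ‖y i₁‖ ^ 2 • g - (innerₛₗ ℝ (y i₁)).comp e.toLinearMap
  have hφ : ∀ i, φ (x i) = g (x i) * (‖y i₁‖ ^ 2 - ⟪y i₁, y i⟫_ℝ) := by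
    intro i
    have h1 : φ (x i) = ‖y i₁‖ ^ 2 * g (x i) - ⟪y i₁, e (x i)⟫_ℝ := rfl
    rw [h1, hxy, real_inner_smul_right]
    ring
  -- gap
  obtain ⟨η, hη, hη'⟩ : ∃ η > 0, ∀ i, y i ≠ y i₁ → η < ‖y i₁‖ ^ 2 - ⟪y i₁, y i⟫_ℝ := by
    by_cases hne : ∃ i, y i ≠ y i₁
    · let T : Finset ι := Finset.univ.filter (fun i => y i ≠ y i₁)
      have hT : T.Nonempty := by
        obtain ⟨i, hi⟩ := hne
        exact ⟨i, by simp [T, hi]⟩
      obtain ⟨j, hj, hjmin⟩ := T.exists_min_image (fun i => ‖y i₁‖ ^ 2 - ⟪y i₁, y i⟫_ℝ) hT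
      have hjne : y j ≠ y i₁ := by simpa [T] using hj
      have hpos : 0 < ‖y i₁‖ ^ 2 - ⟪y i₁, y j⟫_ℝ := by
        rcases (hcs j).eq_or_lt with h | h
        · exact absurd (heq j h) hjne
        · linarith
      refine ⟨(‖y i₁‖ ^ 2 - ⟪y i₁, y j⟫_ℝ) / 2, by positivity, ?_⟩
      intro i hi
      have := hjmin i (by simp [T, hi])
      linarith
    · push Not at hne
      exact ⟨1, one_pos, fun i hi => absurd (hne i) hi⟩
  refine ⟨i₁, φ - η • g, ?_, ?_⟩
  · rw [LinearMap.sub_apply, LinearMap.smul_apply, smul_eq_mul, hφ, real_inner_self_eq_norm_sq,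
      sub_self, mul_zero, zero_sub]
    have := hg i₁
    nlinarith
  · intro i
    by_cases hi : y i = y i₁
    · left
      have h1 := hg i
      have h2 := hg i₁
      refine ⟨g (x i) / g (x i₁), by positivity, ?_⟩
      apply e.injective
      have h3 : e (x i₁) = g (x i₁) • y i₁ := hxy i₁
      have h4 : e (x i) = g (x i) • y i₁ := by rw [← hi]; exact hxy i
      rw [map_smul, h4]
      clear_value y
      rw [h3, smul_smul, div_mul_cancel₀ _ h2.ne']
    · right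
      rw [LinearMap.sub_apply, LinearMap.smul_apply, smul_eq_mul, hφ]
      have h1 := hη' i hi
      have h2 := hg i
      nlinarith

/-- Every pointed polyhedral cone of dimension `n` has an interior point for which `n` hyperplanes
suffice. -/
theorem cone_all (n : ℕ) : ∀ (ι : Type) [Fintype ι] (V : Type*) [AddCommGroup V] [Module ℝ V]
    [FiniteDimensional ℝ V] (x : ι → V), finrank ℝ V = n → Submodule.span ℝ (range x) = ⊤ →
    (∃ g : V →ₗ[ℝ] ℝ, ∀ i, 0 < g (x i)) →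
    ∃ c : ι → ℝ, (∀ i, 0 < c i) ∧ ConeSep n x (∑ i, c i • x i) := by
  classical
  induction n with
  | zero =>
    intro ι _ V _ _ _ x hn hspan hg
    have hsub : Subsingleton V := finrank_zero_iff.mp hn
    refine ⟨fun _ => 1, fun _ => one_pos, fun k => k.elim0, fun k => k.elim0, ?_⟩
    intro f hf _
    exfalso
    apply hf
    ext z
    rw [Subsingleton.elim z 0, map_zero, map_zero]
  | succ n ih =>
    intro ι _ V _ _ _ x hn hspan hg
    obtain ⟨g, hg⟩ := hg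
    have hne : Nonempty ι := by
      by_contra hemp
      rw [not_nonempty_iff] at hemp
      rw [range_eq_empty x, Submodule.span_empty] at hspan
      have : finrank ℝ V = 0 := by
        rw [← finrank_top ℝ V, ← hspan, finrank_bot]
      omega
    obtain ⟨i₁, w₀, hw₁, hw₀⟩ := exists_extreme_gen x g hg
    have hx₁ : x i₁ ≠ 0 := by
      intro h
      have := hg i₁
      rw [h, map_zero] at this
      exact lt_irrefl _ this
    have hfin : finrank ℝ (V ⧸ (ℝ ∙ x i₁)) = n := by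
      have h1 := Submodule.finrank_quotient_add_finrank (ℝ ∙ x i₁)
      rw [finrank_span_singleton hx₁, hn] at h1
      omega
    obtain ⟨c, hc, δ₀, hδ₀, hδ⟩ := cone_step x hspan g hg i₁ w₀ hw₁ hw₀
      (fun κ _ y hy hy' => ih κ (V ⧸ (ℝ ∙ x i₁)) y hfin hy hy')
    have h1 := hδ (δ₀ / 2) (by positivity) (by linarith)
    refine ⟨fun i => (if i = i₁ then 1 else 0) + δ₀ / 2 * c i, ?_, ?_⟩
    · intro i
      have := hc i
      change 0 < (if i = i₁ then (1 : ℝ) else 0) + δ₀ / 2 * c i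
      split_ifs <;> positivity
    · have h2 : ∑ i, ((if i = i₁ then (1 : ℝ) else 0) + δ₀ / 2 * c i) • x i
          = x i₁ + (δ₀ / 2) • ∑ i, c i • x i := by
        simp only [add_smul, Finset.sum_add_distrib, ite_smul, one_smul, zero_smul, mul_smul,
          Finset.sum_ite_eq', Finset.mem_univ, if_true, Finset.smul_sum]
      rw [h2]
      exact h1

end Pool.Agent.Lib.MP_5e7226_co
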