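import Pool.Agent.Lib.MP_5e7226_co.Flag

set_option autoImplicit false

open Set Module Filter Topology
open scoped InnerProductSpace

namespace Pool.Agent.Lib.MP_5e7226_co

variable {d : ℕ}

/-- A strictly positive convex combination of all generators is an interior point. -/
lemma pos_comb_interior {F : Type*} [NormedAddCommGroup F] [NormedSpace ℝ F] {S : Finset F}
    (hS : (interior (convexHull ℝ (S : Set F))).Nonempty) (c : S → ℝ) (hc : ∀ i, 0 < c i)
    (hsum : ∑ i, c i = 1) : ∑ i, c i • (i : F) ∈ interior (convexHull ℝ (S : Set F)) := by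
  classical
  obtain ⟨q, hq⟩ := hS
  obtain ⟨μ, hμ0, hμ1, hμq⟩ := Finset.mem_convexHull'.mp (interior_subset hq)
  have hμ1' : ∑ i : S, μ i = 1 := by rw [Finset.sum_coe_sort S μ]; exact hμ1
  have hμq' : ∑ i : S, μ i • (i : F) = q := by
    rw [Finset.sum_coe_sort S (fun y => μ y • y)]; exact hμq
  have hne : Nonempty S := by
    by_contra hemp
    rw [not_nonempty_iff] at hemp
    rw [Finset.univ_eq_empty, Finset.sum_empty] at hμ1'
    exact zero_ne_one hμ1'
  obtain ⟨i₀, hi₀⟩ := Finite.exists_min c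
  have hc₀ := hc i₀
  have hc₀1 : c i₀ ≤ 1 := by
    rw [← hsum]
    exact Finset.single_le_sum (f := c) (fun i _ => (hc i).le) (Finset.mem_univ i₀)
  set l : ℝ := c i₀ / 2 with hl
  have hl0 : 0 < l := by positivity
  have hl1 : l < 1 := by rw [hl]; linarith
  have hμle : ∀ i : S, μ i ≤ 1 := by
    intro i
    rw [← hμ1']
    exact Finset.single_le_sum (f := fun i : S => μ i) (fun i _ => hμ0 i i.2) (Finset.mem_univ i)
  have hcoef : ∀ i : S, 0 ≤ (c i - l * μ i) / (1 - l) := by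
    intro i
    apply div_nonneg _ (by linarith)
    have h1 := hi₀ i
    have h2 := hμle i
    have h3 := hμ0 i i.2
    nlinarith
  have hq' : ∑ i : S, ((c i - l * μ i) / (1 - l)) • (i : F) ∈ convexHull ℝ (S : Set F) := by
    apply (convex_convexHull ℝ (S : Set F)).sum_mem (fun i _ => hcoef i)
    · rw [← Finset.sum_div, Finset.sum_sub_distrib, hsum, ← Finset.mul_sum, hμ1', mul_one]
      exact div_self (by linarith)
    · intro i _
      exact subset_convexHull ℝ _ i.2
  have h := (convex_convexHull ℝ (S : Set F)).combo_interior_self_mem_interior hq hq' hl0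
    (by linarith : 0 ≤ 1 - l) (by ring)
  have heq : l • q + (1 - l) • ∑ i : S, ((c i - l * μ i) / (1 - l)) • (i : F)
      = ∑ i, c i • (i : F) := by
    rw [← hμq', Finset.smul_sum, Finset.smul_sum, ← Finset.sum_add_distrib]
    apply Finset.sum_congr rfl
    intro i _
    rw [smul_smul, smul_smul, ← add_smul]
    congr 1
    have : (1 - l) ≠ 0 := by linarith
    field_simp
    ring
  rwa [heq] at h

/-- Main theorem for polytopes. -/
theorem flag_final {E : Type} [NormedAddCommGroup E] [InnerProductSpace ℝ E]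
    [FiniteDimensional ℝ E] {d : ℕ} (hd : finrank ℝ E = d) (S : Finset E)
    (hS : (interior (convexHull ℝ (S : Set E))).Nonempty) (v : E)
    (hv : v ∈ (convexHull ℝ (S : Set E)).extremePoints ℝ) (ε : ℝ) (hε : 0 < ε) :
    ∃ o ∈ interior (convexHull ℝ (S : Set E)), dist o v < ε ∧
      ∃ w : Fin (d + 1) → E, ∃ b : Fin (d + 1) → ℝ, (∀ i, ⟪w i, o⟫_ℝ < b i) ∧
        ∀ u x₀ : E, u ≠ 0 → x₀ ∈ convexHull ℝ (S : Set E) →
          (∀ y ∈ convexHull ℝ (S : Set E), ⟪u, y⟫_ℝ ≤ ⟪u, x₀⟫_ℝ) →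
            ∃ i, ∀ x ∈ convexHull ℝ (S : Set E), ⟪u, x⟫_ℝ = ⟪u, x₀⟫_ℝ → b i < ⟪w i, x⟫_ℝ := by
  classical
  set K : Set E := convexHull ℝ (S : Set E) with hK
  have hvS : v ∈ S := by
    have := extremePoints_convexHull_subset hv
    exact this
  let x : S → E × ℝ := fun p => ((p : E), (1 : ℝ))
  let i₁ : S := ⟨v, hvS⟩
  let g : (E × ℝ) →ₗ[ℝ] ℝ := LinearMap.snd ℝ E ℝ
  have hg : ∀ i, 0 < g (x i) := fun i => one_pos
  -- spanning
  have hspan : Submodule.span ℝ (range x) = ⊤ := by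
    set D := Submodule.span ℝ (range x) with hD
    have hKD : ∀ y ∈ K, (y, (1 : ℝ)) ∈ D := by
      intro y hy
      obtain ⟨μ, hμ0, hμ1, hμy⟩ := Finset.mem_convexHull'.mp hy
      have : (y, (1 : ℝ)) = ∑ p ∈ S, μ p • (p, (1 : ℝ)) := by
        rw [Prod.ext_iff, Prod.fst_sum, Prod.snd_sum]
        constructor
        · simp [hμy]
        · simp [hμ1]
      rw [this]
      apply Submodule.sum_mem
      intro p hp
      exact Submodule.smul_mem _ _ (Submodule.subset_span ⟨⟨p, hp⟩, rfl⟩)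
    obtain ⟨q, hq⟩ := hS
    obtain ⟨r, hr, hball⟩ := Metric.isOpen_iff.mp isOpen_interior q hq
    have hqD := hKD q (interior_subset hq)
    have hh : ∀ h : E, (h, (0 : ℝ)) ∈ D := by
      intro h
      have hn : 0 < ‖h‖ + 1 := by positivity
      have hmem : q + (r / 2 / (‖h‖ + 1)) • h ∈ K := by
        apply interior_subset
        apply hball
        rw [Metric.mem_ball, dist_eq_norm, add_sub_cancel_left, norm_smul, Real.norm_eq_abs,
          abs_of_pos (by positivity)]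
        have h1 : r / 2 / (‖h‖ + 1) * ‖h‖ ≤ r / 2 := by
          rw [div_mul_eq_mul_div, div_le_iff₀ hn]
          have := norm_nonneg h
          nlinarith
        linarith
      have h1 := D.sub_mem (hKD _ hmem) hqD
      have h2 := D.smul_mem ((‖h‖ + 1) / (r / 2)) h1
      have h3 : ((‖h‖ + 1) / (r / 2)) • ((q + (r / 2 / (‖h‖ + 1)) • h, (1 : ℝ)) - (q, (1 : ℝ)))
          = (h, (0 : ℝ)) := by
        rw [Prod.mk_sub_mk, add_sub_cancel_left, sub_self, Prod.smul_mk, smul_smul, smul_zero]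
        congr 1
        have : (‖h‖ + 1) / (r / 2) * (r / 2 / (‖h‖ + 1)) = 1 := by field_simp
        rw [this, one_smul]
      rwa [h3] at h2
    rw [eq_top_iff]
    rintro ⟨h, s⟩ -
    have h1 := D.add_mem (hh (h - s • q)) (D.smul_mem s hqD)
    have h2 : (h - s • q, (0 : ℝ)) + s • (q, (1 : ℝ)) = (h, s) := by
      rw [Prod.smul_mk, Prod.mk_add_mk, sub_add_cancel, zero_add, smul_eq_mul, mul_one]
    rwa [h2] at h1
  -- the extreme generator
  obtain ⟨w₀, hw₁, hw₀⟩ : ∃ w₀ : (E × ℝ) →ₗ[ℝ] ℝ, w₀ (x i₁) < 0 ∧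
      ∀ i, (∃ t : ℝ, 0 < t ∧ x i = t • x i₁) ∨ 0 < w₀ (x i) := by
    have hnot : v ∉ convexHull ℝ ((S.erase v : Finset E) : Set E) := by
      intro h
      have hsub : convexHull ℝ ((S.erase v : Finset E) : Set E) ⊆ K := by
        apply convexHull_mono
        intro p hp
        exact Finset.mem_of_mem_erase hp
      have h1 := inter_extremePoints_subset_extremePoints_of_subset (𝕜 := ℝ) hsub ⟨h, hv⟩
      have h2 := extremePoints_convexHull_subset h1
      simp at h2
    obtain ⟨a, α, ha1, ha2⟩ := geometric_hahn_banach_point_closed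
      (convex_convexHull ℝ ((S.erase v : Finset E) : Set E))
      ((Finset.finite_toSet _).isClosed_convexHull ℝ) hnot
    refine ⟨(a : E →ₗ[ℝ] ℝ).comp (LinearMap.fst ℝ E ℝ) - α • LinearMap.snd ℝ E ℝ, ?_, ?_⟩
    · simp [x, i₁, ha1]
    · intro i
      by_cases hi : (i : E) = v
      · left
        refine ⟨1, one_pos, ?_⟩
        simp [x, i₁, hi]
      · right
        have := ha2 i (subset_convexHull ℝ _ (by simp [hi]))
        simp [x, this]
  have hx₁ : x i₁ ≠ 0 := by
    intro h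
    have := congrArg Prod.snd h
    simp [x] at this
  have hfin : finrank ℝ ((E × ℝ) ⧸ (ℝ ∙ x i₁)) = d := by
    have h1 := Submodule.finrank_quotient_add_finrank (ℝ ∙ x i₁)
    rw [finrank_span_singleton hx₁, Module.finrank_prod] at h1
    simp only [hd, Module.finrank_self] at h1
    omega
  obtain ⟨c, hc, δ₀, hδ₀, hδ⟩ := cone_step x hspan g hg i₁ w₀ hw₁ hw₀
    (fun κ _ y hy hy' => cone_all d κ ((E × ℝ) ⧸ (ℝ ∙ x i₁)) y hfin hy hy')
  set P : E := ∑ i, c i • (i : E) with hP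
  set C : ℝ := ∑ i, c i with hC
  have hC0 : 0 < C := Finset.sum_pos (fun i _ => hc i) ⟨i₁, Finset.mem_univ _⟩
  -- choice of `δ`
  have htend : Tendsto (fun δ : ℝ => (1 / (1 + δ * C)) • (v + δ • P)) (𝓝[>] 0) (𝓝 v) := by
    have h1 : ContinuousAt (fun δ : ℝ => (1 / (1 + δ * C)) • (v + δ • P)) 0 := by
      refine ContinuousAt.fun_smul ?_ (by fun_prop)
      apply ContinuousAt.div continuousAt_const (by fun_prop)
      simp
    have h2 := h1.tendsto
    simp only [zero_mul, add_zero, div_one, zero_smul, one_smul] at h2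
    exact h2.mono_left nhdsWithin_le_nhds
  have hev1 : ∀ᶠ δ : ℝ in 𝓝[>] 0, dist ((1 / (1 + δ * C)) • (v + δ • P)) v < ε :=
    Metric.tendsto_nhds.mp htend ε hε
  have hev2 : ∀ᶠ δ : ℝ in 𝓝[>] 0, δ ∈ Ioo 0 δ₀ := Ioo_mem_nhdsGT hδ₀
  obtain ⟨δ, hdist, hδ0, hδ1⟩ := (hev1.and hev2).exists
  have h1C : 0 < 1 + δ * C := by positivity
  obtain ⟨w, hwo, hwf⟩ := hδ δ hδ0 hδ1
  have hxo : x i₁ + δ • ∑ i, c i • x i = (v + δ • P, 1 + δ * C) := by
    rw [Prod.ext_iff]
    simp only [Prod.fst_add, Prod.snd_add, Prod.smul_fst, Prod.smul_snd, Prod.fst_sum,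
      Prod.snd_sum, x, i₁, smul_eq_mul, mul_one]
    exact ⟨rfl, rfl⟩
  rw [hxo] at hwo
  set o : E := (1 / (1 + δ * C)) • (v + δ • P) with ho
  refine ⟨o, ?_, hdist, ?_⟩
  · -- interior
    have h1 := pos_comb_interior hS (fun i => ((if i = i₁ then 1 else 0) + δ * c i) / (1 + δ * C))
      (by
        intro i
        have := hc i
        apply div_pos _ h1C
        split_ifs <;> positivity)
      (by
        rw [← Finset.sum_div, Finset.sum_add_distrib, Finset.sum_ite_eq', ← Finset.mul_sum]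
        simp only [Finset.mem_univ, if_true]
        exact div_self h1C.ne')
    have h2 : ∑ i : S, (((if i = i₁ then 1 else 0) + δ * c i) / (1 + δ * C)) • (i : E) = o := by
      rw [ho, hP]
      simp only [div_eq_inv_mul, mul_add, add_smul, Finset.sum_add_distrib, mul_ite, mul_one,
        mul_zero, ite_smul, zero_smul, Finset.sum_ite_eq', Finset.mem_univ, if_true,
        Finset.smul_sum, smul_smul, smul_add]
      congr 1
    rwa [h2] at h1
  · let wE : Fin (d + 1) → E := fun k =>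
      (InnerProductSpace.toDual ℝ E).symm
        (LinearMap.toContinuousLinearMap ((w k).comp (LinearMap.inl ℝ E ℝ)))
    have hwE : ∀ k (y : E) (s : ℝ), w k (y, s) = ⟪wE k, y⟫_ℝ + s * w k (0, 1) := by
      intro k y s
      have h1 : ⟪wE k, y⟫_ℝ = w k (y, 0) := by
        simp only [wE]
        rw [InnerProductSpace.toDual_symm_apply]
        rfl
      rw [h1]
      have h2 : (y, s) = (y, (0 : ℝ)) + s • ((0 : E), (1 : ℝ)) := by
        rw [Prod.smul_mk, Prod.mk_add_mk, smul_zero, add_zero, zero_add, smul_eq_mul, mul_one]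
      rw [h2, map_add, map_smul, smul_eq_mul]
    refine ⟨wE, fun k => -(w k (0, 1)), ?_, ?_⟩
    · intro k
      have h1 := hwo k
      rw [hwE] at h1
      rw [ho, real_inner_smul_right, one_div, inv_mul_lt_iff₀ h1C]
      linarith
    intro u x₀ hu hx₀ hmax
    let f : (E × ℝ) →ₗ[ℝ] ℝ := (innerₛₗ ℝ u).comp (LinearMap.fst ℝ E ℝ)
      - ⟪u, x₀⟫_ℝ • LinearMap.snd ℝ E ℝ
    have hfe : ∀ (y : E) (s : ℝ), f (y, s) = ⟪u, y⟫_ℝ - ⟪u, x₀⟫_ℝ * s := by
      intro y s
      rfl
    have hf0 : f ≠ 0 := by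
      intro h
      have := congrArg (fun φ : (E × ℝ) →ₗ[ℝ] ℝ => φ (u, 0)) h
      simp only [hfe, LinearMap.zero_apply, mul_zero, sub_zero] at this
      exact hu (inner_self_eq_zero.mp this)
    have hSK : ∀ i : S, (i : E) ∈ K := fun i => subset_convexHull ℝ _ i.2
    obtain ⟨k, hk⟩ := hwf f hf0 (by
      intro i
      simp only [x, hfe, mul_one]
      have := hmax i (hSK i)
      linarith)
    refine ⟨k, ?_⟩
    · intro y hy huy
      obtain ⟨μ, hμ0, hμ1, hμy⟩ := Finset.mem_convexHull'.mp hy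
      have hsum : ∑ p ∈ S, μ p * (⟪u, p⟫_ℝ - ⟪u, x₀⟫_ℝ) = 0 := by
        have h1 : ∑ p ∈ S, μ p * ⟪u, p⟫_ℝ = ⟪u, y⟫_ℝ := by
          rw [← hμy, inner_sum]
          exact Finset.sum_congr rfl (fun p _ => (real_inner_smul_right _ _ _).symm)
        simp only [mul_sub, Finset.sum_sub_distrib]
        rw [h1, ← Finset.sum_mul, hμ1, huy]
        ring
      have hterm : ∀ p ∈ S, μ p * (⟪u, p⟫_ℝ - ⟪u, x₀⟫_ℝ) = 0 := by
        apply (Finset.sum_eq_zero_iff_of_nonpos ?_).mp hsum
        intro p hp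
        have h1 := hmax p (hSK ⟨p, hp⟩)
        have h2 := hμ0 p hp
        exact mul_nonpos_of_nonneg_of_nonpos h2 (by linarith)
      have hwy : ⟪wE k, y⟫_ℝ + w k (0, 1) = ∑ p ∈ S, μ p * w k (p, 1) := by
        have h1 : ∀ p ∈ S, μ p * w k (p, 1) = ⟪wE k, μ p • p⟫_ℝ + μ p * w k (0, 1) := by
          intro p _
          rw [hwE k p 1, real_inner_smul_right]
          ring
        rw [Finset.sum_congr rfl h1, Finset.sum_add_distrib, ← Finset.sum_mul, hμ1, one_mul,
          ← inner_sum, hμy]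
      have hpos : 0 < ∑ p ∈ S, μ p * w k (p, 1) := by
        obtain ⟨p, hp, hμp⟩ : ∃ p ∈ S, 0 < μ p := by
          by_contra hcon
          push Not at hcon
          have : ∑ p ∈ S, μ p ≤ 0 := Finset.sum_nonpos hcon
          linarith
        have hval : ∀ p ∈ S, 0 < μ p → 0 < w k (p, 1) := by
          intro p hp hμp
          apply hk ⟨p, hp⟩
          simp only [x, hfe, mul_one]
          exact (mul_eq_zero.mp (hterm p hp)).resolve_left hμp.ne'
        apply Finset.sum_pos'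
        · intro p hp
          rcases (hμ0 p hp).eq_or_lt with h | h
          · rw [← h, zero_mul]
          · exact (mul_pos h (hval p hp h)).le
        · exact ⟨p, hp, mul_pos hμp (hval p hp hμp)⟩
      rw [← hwy] at hpos
      linarith

/-- Version with an open set of points. -/
theorem flag_open {E : Type} [NormedAddCommGroup E] [InnerProductSpace ℝ E]
    [FiniteDimensional ℝ E] {d : ℕ} (hd : finrank ℝ E = d) (S : Finset E)
    (hS : (interior (convexHull ℝ (S : Set E))).Nonempty) (v : E)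
    (hv : v ∈ (convexHull ℝ (S : Set E)).extremePoints ℝ) (ε : ℝ) (hε : 0 < ε) :
    ∃ U : Set E, IsOpen U ∧ U.Nonempty ∧ U ⊆ interior (convexHull ℝ (S : Set E)) ∩ Metric.ball v ε ∧
      ∃ w : Fin (d + 1) → E, ∃ b : Fin (d + 1) → ℝ, ∀ o ∈ U,
        ∀ u x₀ : E, u ≠ 0 → x₀ ∈ convexHull ℝ (S : Set E) →
          (∀ y ∈ convexHull ℝ (S : Set E), ⟪u, y⟫_ℝ ≤ ⟪u, x₀⟫_ℝ) →
            ∃ i, ⟪w i, o⟫_ℝ < b i ∧
              ∀ x ∈ convexHull ℝ (S : Set E), ⟪u, x⟫_ℝ = ⟪u, x₀⟫_ℝ → b i < ⟪w i, x⟫_ℝ := by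
  obtain ⟨o, ho, hdist, w, b, hwb, hsep⟩ := flag_final hd S hS v hv ε hε
  refine ⟨(interior (convexHull ℝ (S : Set E)) ∩ Metric.ball v ε) ∩ ⋂ i, {x | ⟪w i, x⟫_ℝ < b i},
    ?_, ⟨o, ⟨ho, hdist⟩, ?_⟩, inter_subset_left, w, b, ?_⟩
  · apply IsOpen.inter (isOpen_interior.inter Metric.isOpen_ball)
    exact isOpen_iInter_of_finite fun i => isOpen_lt (by fun_prop) continuous_const
  · rw [mem_iInter]
    exact hwb
  · intro o' ho' u x₀ hu hx₀ hmax
    obtain ⟨i, hi⟩ := hsep u x₀ hu hx₀ hmax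
    exact ⟨i, mem_iInter.mp ho'.2 i, hi⟩

end Pool.Agent.Lib.MP_5e7226_co
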