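import Pool.Agent.Lib.MP_5e7226_co.Levi
import Pool.Agent.Lib.MP_5e7226_co.Cross

set_option autoImplicit false

open Set Filter Topology

namespace Pool.Agent.Lib.MP_5e7226_co

section base

variable {W : Type*} [NormedAddCommGroup W] [NormedSpace ℝ W]

/-- One rotation, fixed space of dimension at most two. -/
theorem base_low [FiniteDimensional ℝ W] {l : ℕ} (hl : l ≤ 2) (hdim : Module.finrank ℝ W = l)
    {p : ℕ} (hp : 7 ≤ p) {ζ : ℂ} (hζ : IsPrimitiveRoot ζ p) {K : Set (ℂ × W)} (hK : IsCompact K)
    (hconv : Convex ℝ K) (hinv : RotInv ζ K) (h0 : (0 : ℂ × W) ∈ interior K) :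
    Sep K (3 * 2 ^ l) := by
  have hc := slice_compact hK
  have hcv := slice_convex hconv
  have hi := slice_interior h0
  interval_cases l
  · have : Subsingleton W := Module.finrank_zero_iff.mp hdim
    simpa using base_zero hp hζ hK hconv hinv h0
  · exact cross_reduction hp hζ hK hconv hinv h0 one_pos (dim_one hdim hc hcv hi)
  · rcases levi hdim hc hcv hi with h | h
    · exact reduction hp hζ hK hconv hinv h0 (by norm_num) h
    · exact cross_reduction hp hζ hK hconv hinv h0 (by norm_num) h

end base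

section induct

variable {W : Type*} [NormedAddCommGroup W] [NormedSpace ℝ W]

/-- splitting off the first complex coordinate -/
noncomputable def splitL (m : ℕ) (W : Type*) [NormedAddCommGroup W] [NormedSpace ℝ W] :
    ((Fin (m + 1) → ℂ) × W) ≃ₗ[ℝ] ℂ × ((Fin m → ℂ) × W) where
  toFun x := (x.1 0, (fun i => x.1 i.succ, x.2))
  invFun y := (Fin.cons y.1 y.2.1, y.2.2)
  map_add' x y := rfl
  map_smul' c x := rfl
  left_inv x := by
    apply Prod.ext
    · funext i
      refine Fin.cases ?_ (fun i => ?_) i <;> simp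
    · rfl
  right_inv y := by
    simp

/-- continuous version -/
noncomputable def split (m : ℕ) (W : Type*) [NormedAddCommGroup W] [NormedSpace ℝ W]
    [FiniteDimensional ℝ W] :
    ((Fin (m + 1) → ℂ) × W) ≃L[ℝ] ℂ × ((Fin m → ℂ) × W) :=
  (splitL m W).toContinuousLinearEquiv

/-- invariance under one rotation in each complex coordinate -/
def MultiRot {m : ℕ} (ζ : Fin m → ℂ) (K : Set ((Fin m → ℂ) × W)) : Prop :=
  ∀ j, ∀ x ∈ K, (Function.update x.1 j (ζ j * x.1 j), x.2) ∈ K

lemma split_rot [FiniteDimensional ℝ W] {m : ℕ} {ζ : Fin (m + 1) → ℂ}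
    {K : Set ((Fin (m + 1) → ℂ) × W)} (h : MultiRot ζ K) :
    RotInv (ζ 0) (split m W '' K) := by
  rintro _ ⟨x, hx, rfl⟩
  refine ⟨_, h 0 x hx, ?_⟩
  apply Prod.ext
  · simp [split, splitL]
  · apply Prod.ext
    · funext i
      simp [split, splitL]
    · simp [split, splitL]

lemma split_slice_rot [FiniteDimensional ℝ W] {m : ℕ} {ζ : Fin (m + 1) → ℂ}
    {K : Set ((Fin (m + 1) → ℂ) × W)} (h : MultiRot ζ K) :
    MultiRot (fun j => ζ j.succ) (slice (split m W '' K)) := by
  rintro j y ⟨x, hx, hxy⟩
  refine ⟨_, h j.succ x hx, ?_⟩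
  have h1 : x.1 0 = 0 := congrArg Prod.fst hxy
  have h2 : (fun i : Fin m => x.1 i.succ) = y.1 := congrArg (fun z => z.2.1) hxy
  have h3 : x.2 = y.2 := congrArg (fun z => z.2.2) hxy
  apply Prod.ext
  · have h6 : Function.update x.1 j.succ (ζ j.succ * x.1 j.succ) 0 = 0 := by
      rw [Function.update_of_ne (Fin.succ_ne_zero j).symm, h1]
    simpa [split, splitL] using h6
  · apply Prod.ext
    · funext i
      have h4 : x.1 j.succ = y.1 j := congrFun h2 j
      have h5 : x.1 i.succ = y.1 i := congrFun h2 i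
      by_cases hij : i = j
      · subst hij
        simp [split, splitL, h4]
      · simp [split, splitL, Function.update_of_ne, hij, h5]
    · simpa [split, splitL] using h3

lemma split_interior [FiniteDimensional ℝ W] {m : ℕ} {K : Set ((Fin (m + 1) → ℂ) × W)}
    (h0 : 0 ∈ interior K) : 0 ∈ interior (split m W '' K) := by
  have h := (split m W).toHomeomorph.isOpenMap.image_interior_subset K
  apply h
  exact ⟨0, h0, by simp⟩

theorem multi [FiniteDimensional ℝ W] {l : ℕ} (hl : l ≤ 2) (hdim : Module.finrank ℝ W = l) :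
    ∀ (m : ℕ) (p : Fin (m + 1) → ℕ) (ζ : Fin (m + 1) → ℂ), (∀ j, 7 ≤ p j) →
      (∀ j, IsPrimitiveRoot (ζ j) (p j)) → ∀ K : Set ((Fin (m + 1) → ℂ) × W), IsCompact K →
      Convex ℝ K → MultiRot ζ K → 0 ∈ interior K → Sep K (3 * 2 ^ l * 4 ^ m) := by
  intro m
  induction m with
  | zero =>
    intro p ζ hp hζ K hK hconv hrot h0
    have hdim' : Module.finrank ℝ ((Fin 0 → ℂ) × W) = l := by
      rw [Module.finrank_prod, hdim, Module.finrank_zero_of_subsingleton, zero_add]
    have h1 := base_low hl hdim' (hp 0) (hζ 0) (K := split 0 W '' K)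
      (hK.image (split 0 W).continuous) (hconv.linear_image (split 0 W).toLinearMap)
      (split_rot hrot) (split_interior h0)
    have h2 := h1.image (split 0 W).symm
    have h3 : (split 0 W).symm '' (split 0 W '' K) = K := by
      rw [← image_comp]
      simp
    rw [h3] at h2
    simpa using h2
  | succ m ih =>
    intro p ζ hp hζ K hK hconv hrot h0
    have hK' := hK.image (split (m + 1) W).continuous
    have hconv' := hconv.linear_image (split (m + 1) W).toLinearMap
    have h0' := split_interior h0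
    have h1 := ih (fun j => p j.succ) (fun j => ζ j.succ) (fun j => hp _) (fun j => hζ _)
      (slice (split (m + 1) W '' K)) (slice_compact hK') (slice_convex hconv')
      (split_slice_rot hrot) (slice_interior h0')
    have h2 := reduction (hp 0) (hζ 0) hK' hconv' (split_rot hrot) h0'
      (N := 3 * 2 ^ l * 4 ^ m) (by positivity) h1
    have h2 := h2.image (split (m + 1) W).symm
    have h3 : (split (m + 1) W).symm '' (split (m + 1) W '' K) = K := by
      rw [← image_comp]
      simp
    rw [h3] at h2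
    have h4 : 4 * (3 * 2 ^ l * 4 ^ m) = 3 * 2 ^ l * 4 ^ (m + 1) := by ring
    rwa [h4] at h2

end induct

end Pool.Agent.Lib.MP_5e7226_co
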