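import Pool.Agent.Lib.MP_5e7226_co.PermPlanar2

set_option autoImplicit false
set_option linter.unusedSectionVars false

open Set Filter Topology

namespace Pool.Agent.Lib.MP_5e7226_co

namespace Pm

variable {m : ℕ}

/-- value of a functional at a coordinate vector -/
noncomputable def co (f : (Fin (m + 1) → ℝ) →L[ℝ] ℝ) (i : Fin (m + 1)) : ℝ := f (Pi.single i 1)

lemma f_rep (f : (Fin (m + 1) → ℝ) →L[ℝ] ℝ) (y : Fin (m + 1) → ℝ) :
    f y = ∑ i, y i * co f i := by
  have h := LinearMap.pi_apply_eq_sum_univ (f : (Fin (m + 1) → ℝ) →ₗ[ℝ] ℝ) y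
  have h2 : f y = ∑ i, y i • f (fun j => if i = j then 1 else 0) := by
    simpa using h
  rw [h2]
  refine Finset.sum_congr rfl fun i _ => ?_
  rw [smul_eq_mul, co]
  congr 2
  ext j
  rw [Pi.single_apply]
  by_cases hij : i = j
  · subst hij; simp
  · rw [if_neg hij, if_neg (fun h => hij h.symm)]

/-- the sum of all coordinates -/
noncomputable def Zf (m : ℕ) : (Fin (m + 1) → ℝ) →L[ℝ] ℝ := ∑ i, ContinuousLinearMap.proj i

lemma Zf_apply (y : Fin (m + 1) → ℝ) : Zf m y = ∑ i, y i := by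
  simp [Zf]

/-- the transverse coordinate -/
noncomputable def Xf (m : ℕ) : (Fin (m + 1) → ℝ) →L[ℝ] ℝ :=
  ContinuousLinearMap.proj 0 - (1 / (m : ℝ)) • ∑ i : Fin m, ContinuousLinearMap.proj i.succ

lemma Xf_apply (y : Fin (m + 1) → ℝ) : Xf m y = y 0 - 1 / m * ∑ i : Fin m, y i.succ := by
  simp [Xf]

/-- points with equal coordinates outside zero -/
noncomputable def emb (p : ℝ × ℝ) : Fin (m + 1) → ℝ :=
  Fin.cons ((p.2 + m * p.1) / (m + 1)) (fun _ => (p.2 - p.1) / (m + 1))

lemma emb_zero_idx (p : ℝ × ℝ) : (emb p : Fin (m + 1) → ℝ) 0 = (p.2 + m * p.1) / (m + 1) := rfl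

lemma emb_succ (p : ℝ × ℝ) (i : Fin m) :
    (emb p : Fin (m + 1) → ℝ) i.succ = (p.2 - p.1) / (m + 1) := rfl

lemma emb_neg (p : ℝ × ℝ) : (emb (-p) : Fin (m + 1) → ℝ) = -emb p := by
  ext i
  refine Fin.cases ?_ (fun i => ?_) i
  · rw [Pi.neg_apply, emb_zero_idx, emb_zero_idx]
    simp only [Prod.snd_neg, Prod.fst_neg]
    ring
  · rw [Pi.neg_apply, emb_succ, emb_succ]
    simp only [Prod.snd_neg, Prod.fst_neg]
    ring

lemma emb_comb (p q : ℝ × ℝ) (a b : ℝ) :
    (emb (a • p + b • q) : Fin (m + 1) → ℝ) = a • emb p + b • emb q := by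
  ext i
  refine Fin.cases ?_ (fun i => ?_) i
  · rw [Pi.add_apply, Pi.smul_apply, Pi.smul_apply, emb_zero_idx, emb_zero_idx, emb_zero_idx]
    simp only [Prod.fst_add, Prod.smul_fst, Prod.snd_add, Prod.smul_snd, smul_eq_mul]
    ring
  · rw [Pi.add_apply, Pi.smul_apply, Pi.smul_apply, emb_succ, emb_succ, emb_succ]
    simp only [Prod.fst_add, Prod.smul_fst, Prod.snd_add, Prod.smul_snd, smul_eq_mul]
    ring

lemma emb_continuous : Continuous (emb : ℝ × ℝ → (Fin (m + 1) → ℝ)) := by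
  apply continuous_pi
  intro i
  refine Fin.cases ?_ (fun i => ?_) i
  · have : Continuous (fun p : ℝ × ℝ => (p.2 + m * p.1) / ((m : ℝ) + 1)) := by fun_prop
    exact this
  · have : Continuous (fun p : ℝ × ℝ => (p.2 - p.1) / ((m : ℝ) + 1)) := by fun_prop
    exact this

lemma Zf_emb (p : ℝ × ℝ) : Zf m (emb p) = p.2 := by
  rw [Zf_apply, Fin.sum_univ_succ]
  simp only [emb_succ, emb_zero_idx, Finset.sum_const, Finset.card_univ, Fintype.card_fin,
    nsmul_eq_mul]
  have : (0 : ℝ) < m + 1 := by positivity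
  field_simp
  ring

lemma Xf_emb (hm : 0 < m) (p : ℝ × ℝ) : Xf m (emb p) = p.1 := by
  rw [Xf_apply]
  simp only [emb_succ, emb_zero_idx, Finset.sum_const, Finset.card_univ, Fintype.card_fin,
    nsmul_eq_mul]
  have h1 : (0 : ℝ) < m + 1 := by positivity
  have h2 : (0 : ℝ) < m := by exact_mod_cast hm
  field_simp
  ring

lemma eq_emb (hm : 0 < m) {y : Fin (m + 1) → ℝ} {c : ℝ} (h : ∀ i : Fin m, y i.succ = c) :
    y = emb (Xf m y, Zf m y) := by
  have h1 : (0 : ℝ) < m + 1 := by positivity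
  have h2 : (0 : ℝ) < m := by exact_mod_cast hm
  have hX : Xf m y = y 0 - c := by
    rw [Xf_apply, Finset.sum_congr rfl (fun i _ => h i)]
    simp only [Finset.sum_const, Finset.card_univ, Fintype.card_fin, nsmul_eq_mul]
    field_simp
  have hZ : Zf m y = y 0 + m * c := by
    rw [Zf_apply, Fin.sum_univ_succ, Finset.sum_congr rfl (fun i _ => h i)]
    simp only [Finset.sum_const, Finset.card_univ, Fintype.card_fin, nsmul_eq_mul]
  ext i
  refine Fin.cases ?_ (fun i => ?_) i
  · rw [emb_zero_idx, hX, hZ]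
    field_simp
    ring
  · rw [emb_succ, hX, hZ, h i]
    field_simp
    ring

/-- values of a functional on the section -/
lemma f_emb (f : (Fin (m + 1) → ℝ) →L[ℝ] ℝ) (p : ℝ × ℝ) :
    ((m : ℝ) + 1) * f (emb p) = ((m + 1) * co f 0 - ∑ i, co f i) * p.1 + (∑ i, co f i) * p.2 := by
  rw [f_rep, Fin.sum_univ_succ, Fin.sum_univ_succ]
  simp only [emb_succ, emb_zero_idx]
  rw [← Finset.mul_sum]
  have : (0 : ℝ) < m + 1 := by positivity
  field_simp
  ring

/-- values on the section with the index `j` as the special index -/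
lemma f_emb_swap (f : (Fin (m + 1) → ℝ) →L[ℝ] ℝ) (p : ℝ × ℝ) (j : Fin (m + 1)) :
    ((m : ℝ) + 1) * f (fun i => (emb p : Fin (m + 1) → ℝ) (Equiv.swap 0 j i))
      = ((m + 1) * co f j - ∑ i, co f i) * p.1 + (∑ i, co f i) * p.2 := by
  classical
  have h1 : ∀ i, (emb p : Fin (m + 1) → ℝ) (Equiv.swap 0 j i)
      = (p.2 - p.1) / (m + 1) + (if i = j then p.1 else 0) := by
    intro i
    have h2 : (0 : ℝ) < m + 1 := by positivity
    by_cases hij : i = j
    · subst hij
      rw [Equiv.swap_apply_right, emb_zero_idx, if_pos rfl]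
      field_simp
      ring
    · rw [if_neg hij, add_zero]
      have h3 : Equiv.swap 0 j i ≠ 0 := by
        intro h4
        apply hij
        have := congrArg (Equiv.swap 0 j) h4
        rw [Equiv.swap_apply_self, Equiv.swap_apply_left] at this
        exact this
      obtain ⟨k, hk⟩ := Fin.exists_succ_eq.mpr h3
      rw [← hk, emb_succ]
  rw [f_rep]
  simp only [h1, add_mul, ite_mul, zero_mul, Finset.sum_add_distrib, Finset.sum_ite_eq',
    Finset.mem_univ, if_true]
  rw [← Finset.mul_sum]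
  have : (0 : ℝ) < m + 1 := by positivity
  field_simp
  ring

/-- averaging -/
lemma avg {K : Set (Fin (m + 1) → ℝ)} (hK : IsCompact K) (hconv : Convex ℝ K)
    (hinv : ∀ π : Equiv.Perm (Fin (m + 1)), ∀ y ∈ K, (fun i => y (π i)) ∈ K)
    {y : Fin (m + 1) → ℝ} (hy : y ∈ K) (B : Finset (Fin (m + 1))) :
    ∃ z ∈ K, (∀ k ∉ B, z k = y k) ∧ ∀ i ∈ B, (B.card : ℝ) * z i = ∑ j ∈ B, y j := by
  classical
  let S : Set (Fin (m + 1) → ℝ) :=
    {z | z ∈ K ∧ (∀ k ∉ B, z k = y k) ∧ ∑ j ∈ B, z j = ∑ j ∈ B, y j}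
  have hS : IsCompact S := by
    have h1 : IsClosed {z : Fin (m + 1) → ℝ | (∀ k ∉ B, z k = y k) ∧
        ∑ j ∈ B, z j = ∑ j ∈ B, y j} := by
      have : {z : Fin (m + 1) → ℝ | (∀ k ∉ B, z k = y k) ∧ ∑ j ∈ B, z j = ∑ j ∈ B, y j}
          = (⋂ k, ⋂ (_ : k ∉ B), {z : Fin (m + 1) → ℝ | z k = y k}) ∩
            {z | ∑ j ∈ B, z j = ∑ j ∈ B, y j} := by
        ext z; simp
      rw [this]
      refine IsClosed.inter (isClosed_iInter fun k => isClosed_iInter fun _ =>
        isClosed_eq (continuous_apply k) continuous_const) ?_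
      exact isClosed_eq (by fun_prop) continuous_const
    exact hK.inter_right h1
  have hne : S.Nonempty := ⟨y, hy, fun k _ => rfl, rfl⟩
  let g : (Fin (m + 1) → ℝ) → ℝ := fun z => ∑ i ∈ B, (z i) ^ 2
  have hg : ContinuousOn g S := by
    apply Continuous.continuousOn
    exact continuous_finsetSum _ fun i _ => ((continuous_apply i).pow 2)
  obtain ⟨z, hzS, hmin⟩ := hS.exists_isMinOn hne hg
  have heq : ∀ i ∈ B, ∀ j ∈ B, z i = z j := by
    intro i hi j hj
    by_contra hij
    have hne' : i ≠ j := fun h => hij (by rw [h])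
    set t : ℝ := z j - z i with ht
    let w : Fin (m + 1) → ℝ := fun k => z (Equiv.swap i j k)
    let z' : Fin (m + 1) → ℝ := (1 / 2 : ℝ) • z + (1 / 2 : ℝ) • w
    have hwk : ∀ k, w k = z k + t * ((if k = i then 1 else 0) - (if k = j then 1 else 0)) := by
      intro k
      simp only [w]
      by_cases h1 : k = i
      · subst h1
        rw [Equiv.swap_apply_left]
        simp [hne', ht]
      · by_cases h2 : k = j
        · subst h2
          rw [Equiv.swap_apply_right]
          simp [h1, ht]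
        · rw [Equiv.swap_apply_of_ne_of_ne h1 h2]
          simp [h1, h2]
    have hz'K : z' ∈ K := hconv hzS.1 (hinv (Equiv.swap i j) z hzS.1) (by norm_num) (by norm_num)
      (by norm_num)
    have hck : ∀ k, z' k = z k + t / 2 * ((if k = i then 1 else 0) - (if k = j then 1 else 0)) := by
      intro k
      simp only [z', Pi.add_apply, Pi.smul_apply, smul_eq_mul]
      rw [hwk]
      ring
    have hz'S : z' ∈ S := by
      refine ⟨hz'K, ?_, ?_⟩
      · intro k hk
        rw [hck k, ← hzS.2.1 k hk]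
        have h1 : k ≠ i := fun h => hk (h ▸ hi)
        have h2 : k ≠ j := fun h => hk (h ▸ hj)
        simp [h1, h2]
      · rw [← hzS.2.2]
        simp only [hck]
        rw [Finset.sum_add_distrib, ← Finset.mul_sum, Finset.sum_sub_distrib, Finset.sum_ite_eq',
          Finset.sum_ite_eq', if_pos hi, if_pos hj]
        ring
    have hle : g z ≤ g z' := hmin hz'S
    have hgz' : g z' = g z - t ^ 2 / 2 := by
      have h1 : ∀ k ∈ B, (z' k) ^ 2 = (z k) ^ 2 + ((if k = i then t * z i + t ^ 2 / 4 else 0)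
          + (if k = j then - t * z j + t ^ 2 / 4 else 0)) := by
        intro k _
        rw [hck k]
        by_cases h1 : k = i
        · subst h1
          simp only [if_true, if_neg hne']
          ring
        · by_cases h2 : k = j
          · subst h2
            simp only [if_true, if_neg h1]
            ring
          · simp [h1, h2]
      change ∑ k ∈ B, (z' k) ^ 2 = ∑ k ∈ B, (z k) ^ 2 - t ^ 2 / 2
      rw [Finset.sum_congr rfl h1, Finset.sum_add_distrib, Finset.sum_add_distrib,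
        Finset.sum_ite_eq', Finset.sum_ite_eq', if_pos hi, if_pos hj]
      rw [ht]
      ring
    have ht0 : t ≠ 0 := by
      intro h
      apply hij
      rw [ht] at h
      linarith
    have : 0 < t ^ 2 := by positivity
    linarith
  refine ⟨z, hzS.1, hzS.2.1, ?_⟩
  intro i hi
  rw [← hzS.2.2, ← nsmul_eq_mul, ← Finset.sum_const]
  exact Finset.sum_congr rfl fun j hj => heq i hi j hj

/-- points of faces are ordered as the coefficients -/
lemma ordered {K : Set (Fin (m + 1) → ℝ)}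
    (hinv : ∀ π : Equiv.Perm (Fin (m + 1)), ∀ y ∈ K, (fun i => y (π i)) ∈ K)
    {f : (Fin (m + 1) → ℝ) →L[ℝ] ℝ} {y : Fin (m + 1) → ℝ} (hy : y ∈ face K f)
    {i j : Fin (m + 1)} (h : co f j < co f i) : y j ≤ y i := by
  classical
  have h1 := hy.2 _ (hinv (Equiv.swap i j) y hy.1)
  have hne : i ≠ j := by
    rintro rfl
    exact lt_irrefl _ h
  have hwk : ∀ k, y (Equiv.swap i j k)
      = y k + (y j - y i) * ((if k = i then 1 else 0) - (if k = j then 1 else 0)) := by
    intro k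
    by_cases h3 : k = i
    · subst h3
      rw [Equiv.swap_apply_left]
      simp [hne]
    · by_cases h2 : k = j
      · subst h2
        rw [Equiv.swap_apply_right]
        simp [h3]
      · rw [Equiv.swap_apply_of_ne_of_ne h3 h2]
        simp [h3, h2]
  rw [f_rep, f_rep] at h1
  simp only [hwk] at h1
  have h2 : ∑ k, (y k + (y j - y i) * ((if k = i then 1 else 0) - (if k = j then 1 else 0)))
      * co f k = ∑ k, y k * co f k + (y j - y i) * (co f i - co f j) := by
    simp only [add_mul, Finset.sum_add_distrib, mul_assoc, ← Finset.mul_sum, sub_mul, ite_mul,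
      one_mul, zero_mul, Finset.sum_sub_distrib, Finset.sum_ite_eq', Finset.mem_univ, if_true]
  rw [h2] at h1
  by_contra hcon
  push Not at hcon
  nlinarith [mul_pos (sub_pos.mpr hcon) (sub_pos.mpr h)]

/-- the functional attached to a set of nonneutral indices -/
noncomputable def W (A : Finset (Fin m)) : (Fin (m + 1) → ℝ) →L[ℝ] ℝ :=
  ∑ i ∈ A, ∑ j ∈ Aᶜ, ((ContinuousLinearMap.proj i.succ : (Fin (m + 1) → ℝ) →L[ℝ] ℝ)
    - ContinuousLinearMap.proj j.succ)

lemma W_apply (A : Finset (Fin m)) (y : Fin (m + 1) → ℝ) :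
    W A y = ∑ i ∈ A, ∑ j ∈ Aᶜ, (y i.succ - y j.succ) := by
  simp [W]

lemma W_neg (A : Finset (Fin m)) (y : Fin (m + 1) → ℝ) : W Aᶜ (-y) = W A y := by
  rw [W_apply, W_apply, compl_compl, Finset.sum_comm]
  refine Finset.sum_congr rfl fun i _ => Finset.sum_congr rfl fun j _ => ?_
  simp only [Pi.neg_apply]
  ring

lemma W_nonneg {A : Finset (Fin m)} {y : Fin (m + 1) → ℝ}
    (h : ∀ i ∈ A, ∀ j ∈ Aᶜ, y j.succ ≤ y i.succ) : 0 ≤ W A y := by
  rw [W_apply]
  exact Finset.sum_nonneg fun i hi => Finset.sum_nonneg fun j hj => sub_nonneg.mpr (h i hi j hj)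

lemma of_W_zero {A : Finset (Fin m)} (hA : A.Nonempty) (hA' : Aᶜ.Nonempty)
    {y : Fin (m + 1) → ℝ} (h : ∀ i ∈ A, ∀ j ∈ Aᶜ, y j.succ ≤ y i.succ) (h0 : W A y = 0) :
    ∃ c, ∀ i : Fin m, y i.succ = c := by
  rw [W_apply] at h0
  have h1 : ∀ i ∈ A, ∑ j ∈ Aᶜ, (y i.succ - y j.succ) = 0 :=
    (Finset.sum_eq_zero_iff_of_nonneg (fun i hi =>
      Finset.sum_nonneg fun j hj => sub_nonneg.mpr (h i hi j hj))).mp h0
  have h2 : ∀ i ∈ A, ∀ j ∈ Aᶜ, y i.succ = y j.succ := by
    intro i hi j hj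
    have := (Finset.sum_eq_zero_iff_of_nonneg (fun j hj =>
      sub_nonneg.mpr (h i hi j hj))).mp (h1 i hi) j hj
    linarith
  obtain ⟨a, ha⟩ := hA
  obtain ⟨b, hb⟩ := hA'
  refine ⟨y a.succ, fun i => ?_⟩
  by_cases hi : i ∈ A
  · rw [h2 i hi b hb, h2 a ha b hb]
  · rw [h2 a ha i (Finset.mem_compl.mpr hi)]

end Pm

end Pool.Agent.Lib.MP_5e7226_co
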