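import Pool.Agent.Lib.MP_5e7226_co.PermMain

set_option autoImplicit false
set_option linter.unusedSectionVars false

open Set Filter Topology

namespace Pool.Agent.Lib.MP_5e7226_co

namespace Pm

variable {m : ℕ}

namespace KD

variable {P : KD m} {s₁ s₂ : ℕ → ℝ}

/-- averaging over the nonneutral indices -/
lemma sec_mem (hm : 0 < m) {y : Fin (m + 1) → ℝ} (hy : y ∈ P.K) :
    emb (Xf m y, Zf m y) ∈ P.K := by
  classical
  obtain ⟨z, hz, hz1, hz2⟩ := avg P.cpt P.conv P.inv hy
    ((Finset.univ : Finset (Fin (m + 1))).erase 0)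
  have hcard : (((Finset.univ : Finset (Fin (m + 1))).erase 0).card : ℝ) = m := by
    rw [Finset.card_erase_of_mem (Finset.mem_univ _)]
    simp
  have hmr : (0 : ℝ) < m := by exact_mod_cast hm
  have hzs : ∀ i : Fin m, z i.succ = (∑ j : Fin m, y j.succ) / m := by
    intro i
    have e1 := hz2 i.succ (by simp [Fin.succ_ne_zero])
    rw [hcard] at e1
    have e2 : ∑ j ∈ (Finset.univ : Finset (Fin (m + 1))).erase 0, y j = ∑ j : Fin m, y j.succ := by
      have e3 := Finset.add_sum_erase (Finset.univ : Finset (Fin (m + 1))) y (Finset.mem_univ 0)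
      rw [Fin.sum_univ_succ] at e3
      linarith
    rw [e2] at e1
    rw [eq_div_iff hmr.ne']
    linarith
  have hz0 : z 0 = y 0 := hz1 0 (by simp)
  have hzsum : ∑ i : Fin m, z i.succ = ∑ i : Fin m, y i.succ := by
    rw [Finset.sum_congr rfl (fun i _ => hzs i)]
    simp only [Finset.sum_const, Finset.card_univ, Fintype.card_fin, nsmul_eq_mul]
    field_simp
  have hZ : Zf m z = Zf m y := by
    rw [Zf_apply, Zf_apply, Fin.sum_univ_succ, Fin.sum_univ_succ, hzsum, hz0]
  have hX : Xf m z = Xf m y := by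
    rw [Xf_apply, Xf_apply, hzsum, hz0]
  have hze := eq_emb hm hzs
  rw [hZ, hX] at hze
  rw [← hze]
  exact hz

/-- the top face is a point if an edge from the top pole reaches level zero -/
lemma top_point (hm : 0 < m) (hup : P.up) {y : Fin (m + 1) → ℝ} (hy : y ∈ P.K)
    (hyν : Zf m y = P.ν) : Xf m y = 0 := by
  classical
  have hm1 : (0 : ℝ) < m + 1 := by positivity
  have hmr : (0 : ℝ) < m := by exact_mod_cast hm
  have hsec : ∀ i : Fin (m + 1), emb ((((m : ℝ) + 1) * y i - P.ν) / m, P.ν) ∈ P.K := by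
    intro i
    have h1 := sec_mem hm (P.inv (Equiv.swap 0 i) y hy)
    have hZ : Zf m (fun j => y (Equiv.swap 0 i j)) = P.ν := by
      rw [Zf_apply, Equiv.sum_comp (Equiv.swap 0 i) y, ← Zf_apply, hyν]
    have hX : Xf m (fun j => y (Equiv.swap 0 i j)) = (((m : ℝ) + 1) * y i - P.ν) / m := by
      have h2 : ∑ j : Fin m, y (Equiv.swap 0 i j.succ) = P.ν - y i := by
        have h3 := hZ
        rw [Zf_apply, Fin.sum_univ_succ, Equiv.swap_apply_left] at h3
        linarith
      rw [Xf_apply, h2, Equiv.swap_apply_left]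
      field_simp
      ring
    rw [hZ, hX] at h1
    exact h1
  have hsum : ∑ i, y i = P.ν := by rw [← Zf_apply, hyν]
  have key : ∀ i, ((m : ℝ) + 1) * y i = P.ν := by
    rcases hup with ⟨t, h1, -⟩ | ⟨t, h1, -⟩
    · have h2 : ∀ i, 0 ≤ ((m : ℝ) + 1) * y i - P.ν := by
        intro i
        have h3 := h1 _ (hsec i)
        simp only at h3
        have h4 : 0 ≤ (((m : ℝ) + 1) * y i - P.ν) / m := by linarith
        have h5 := mul_nonneg h4 hmr.le
        rwa [div_mul_cancel₀ _ hmr.ne'] at h5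
      have h3 : ∑ i, (((m : ℝ) + 1) * y i - P.ν) = 0 := by
        rw [Finset.sum_sub_distrib, ← Finset.mul_sum, hsum]
        simp
      intro i
      have := (Finset.sum_eq_zero_iff_of_nonneg (fun i _ => h2 i)).mp h3 i (Finset.mem_univ i)
      linarith
    · have h2 : ∀ i, ((m : ℝ) + 1) * y i - P.ν ≤ 0 := by
        intro i
        have h3 := h1 _ (hsec i)
        simp only at h3
        have h4 : (((m : ℝ) + 1) * y i - P.ν) / m ≤ 0 := by linarith
        have h5 := mul_nonneg (neg_nonneg.mpr h4) hmr.le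
        rw [neg_mul, div_mul_cancel₀ _ hmr.ne'] at h5
        linarith
      have h3 : ∑ i, (((m : ℝ) + 1) * y i - P.ν) = 0 := by
        rw [Finset.sum_sub_distrib, ← Finset.mul_sum, hsum]
        simp
      intro i
      have := (Finset.sum_eq_zero_iff_of_nonpos (fun i _ => h2 i)).mp h3 i (Finset.mem_univ i)
      linarith
  have hy' : ∀ i, y i = P.ν / (m + 1) := by
    intro i
    rw [eq_div_iff hm1.ne', mul_comm]
    exact key i
  rw [Xf_apply, hy' 0, Finset.sum_congr rfl (fun i _ => hy' i.succ)]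
  simp only [Finset.sum_const, Finset.card_univ, Fintype.card_fin, nsmul_eq_mul]
  field_simp
  ring

lemma eval_const {f : (Fin (m + 1) → ℝ) →L[ℝ] ℝ} (h : ∀ i, co f i = co f 0)
    (y : Fin (m + 1) → ℝ) : f y = co f 0 * Zf m y := by
  rw [f_rep, Zf_apply, Finset.mul_sum]
  exact Finset.sum_congr rfl fun i _ => by rw [h i, mul_comm]

lemma top_face {f : (Fin (m + 1) → ℝ) →L[ℝ] ℝ} (h : ∀ i, co f i = co f 0) (hpos : 0 < co f 0)
    {y : Fin (m + 1) → ℝ} (hy : y ∈ face P.K f) : Zf m y = P.ν := by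
  have h1 := hy.2 _ P.memN
  rw [eval_const h, eval_const h y, Zf_emb] at h1
  have h2 := le_of_mul_le_mul_left h1 hpos
  exact le_antisymm (P.bnd y hy.1).2 h2

/-- vertical functionals -/
lemma cov_vert (hm : 0 < m) {f₀ : (Fin (m + 1) → ℝ) →L[ℝ] ℝ} (h : ∀ i, co f₀ i = co f₀ 0)
    (hpos : 0 < co f₀ 0) : P.Cov s₁ s₂ f₀ := by
  classical
  have hZpos : ∀ y ∈ face P.K f₀, 0 < Zf m y := by
    intro y hy
    rw [top_face h hpos hy]
    exact P.hν
  by_cases hup : P.up
  · have hX0 : ∀ y ∈ face P.K f₀, Xf m y = 0 := fun y hy =>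
      top_point hm hup hy.1 (top_face h hpos hy)
    have hev1 : ∀ᶠ z : ℝ × ((Fin (m + 1) → ℝ) →L[ℝ] ℝ) in 𝓝 (0, f₀), ∀ A : Finset (Fin m),
        ∀ x ∈ face P.K z.2, 0 < (s₁ A.card • Xf m + Zf m) x := by
      rw [eventually_all]
      intro A
      apply cover_fixed P.cpt
      intro x hx
      have h1 := hX0 x hx
      have h2 := hZpos x hx
      simp only [add_apply, smul_apply, smul_eq_mul]
      rw [h1, mul_zero, zero_add]
      exact h2
    have hev2 := cover_fixed P.cpt (Zf m) hZpos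
    have hev3 : ∀ᶠ z : ℝ × ((Fin (m + 1) → ℝ) →L[ℝ] ℝ) in 𝓝 (0, f₀), 0 < co z.2 0 := by
      have hc2 : Continuous (fun z : ℝ × ((Fin (m + 1) → ℝ) →L[ℝ] ℝ) => co z.2 0) :=
        continuous_eval.comp (continuous_snd.prodMk continuous_const)
      exact (hc2.continuousAt (x := ((0 : ℝ), f₀))).eventually (lt_mem_nhds hpos)
    filter_upwards [hev1, hev2, hev3] with z hz1 hz2 hz3 hεpos
    by_cases hnc : ∃ i j : Fin m, co z.2 i.succ < co z.2 j.succ
    · obtain ⟨i0, j0, hij⟩ := hnc
      obtain ⟨b, -, hb⟩ := Finset.exists_min_image (Finset.univ : Finset (Fin m))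
        (fun i => co z.2 i.succ) ⟨i0, Finset.mem_univ _⟩
      let A : Finset (Fin m) := Finset.univ.filter fun i => co z.2 b.succ < co z.2 i.succ
      have hAmem : ∀ i, i ∈ A ↔ co z.2 b.succ < co z.2 i.succ := by intro i; simp [A]
      have hA : A.Nonempty :=
        ⟨j0, (hAmem j0).mpr ((hb i0 (Finset.mem_univ _)).trans_lt hij)⟩
      have hA' : Aᶜ.Nonempty := ⟨b, by rw [Finset.mem_compl, hAmem]; exact lt_irrefl _⟩
      refine ⟨(A, true), fun y hy => ?_⟩
      rw [Fam_m1 _ _ _ _ hA.ne_empty (by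
        intro hu
        rw [hu, Finset.compl_univ] at hA'
        exact Finset.not_nonempty_empty hA')]
      have h1 : 0 ≤ W A y := W_nonneg fun i hi j hj => by
        rw [Finset.mem_compl, hAmem, not_lt] at hj
        exact ordered P.inv hy (hj.trans_lt ((hAmem i).mp hi))
      have h2 := hz1 A y hy
      simp only [add_apply, smul_apply, smul_eq_mul] at h2
      have h3 := mul_pos hεpos h2
      linarith
    · push Not at hnc
      have hc : ∀ i j : Fin m, co z.2 i.succ = co z.2 j.succ :=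
        fun i j => le_antisymm (hnc j i) (hnc i j)
      let i0 : Fin m := ⟨0, hm⟩
      rcases lt_trichotomy (co z.2 0) (co z.2 i0.succ) with h1 | h1 | h1
      · refine ⟨(Finset.univ, true), fun y hy => ?_⟩
        rw [Fam_u1 _ _ _ _ hm hup]
        have h2 : Xf m y ≤ 0 := Xf_nonpos hm fun i =>
          ordered P.inv hy (by rw [hc i i0]; exact h1)
        have h3 := mul_pos hεpos (hz2 y hy)
        linarith
      · refine ⟨(∅, true), fun y hy => ?_⟩
        rw [Fam_e1]
        have h4 : ∀ i, co z.2 i = co z.2 0 := by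
          intro i
          refine Fin.cases rfl (fun i => ?_) i
          rw [hc i i0, h1]
        have h2 : Xf m y = 0 := top_point hm hup hy.1 (top_face h4 hz3 hy)
        have h3 := mul_pos hεpos (hz2 y hy)
        linarith
      · refine ⟨(∅, true), fun y hy => ?_⟩
        rw [Fam_e1]
        have h2 : 0 ≤ Xf m y := Xf_nonneg hm fun i =>
          ordered P.inv hy (by rw [hc i i0]; exact h1)
        have h3 := mul_pos hεpos (hz2 y hy)
        linarith
  · filter_upwards [cover_fixed P.cpt (Zf m) hZpos] with z hz _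
    refine ⟨(Finset.univ, true), fun y hy => ?_⟩
    rw [Fam_u2 _ _ _ _ hm hup]
    exact hz y hy

/-- the neutral index at the bottom -/
lemma cov_lowside (hgood : P.GoodAll s₁ s₂) (hm : 0 < m) {f₀ : (Fin (m + 1) → ℝ) →L[ℝ] ℝ}
    (hf₀ : f₀ ≠ 0) (h1 : ∀ i, co f₀ 0 ≤ co f₀ i) (h2 : ∃ i, co f₀ 0 < co f₀ i) :
    P.Cov s₁ s₂ f₀ := by
  obtain ⟨i, hi⟩ := h2
  obtain ⟨a, rfl⟩ := Fin.exists_succ_eq.mpr (fun h : i = 0 => by subst h; exact lt_irrefl _ hi)
  by_cases h3 : ∃ i : Fin m, co f₀ i.succ = co f₀ 0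
  · exact cov_low hgood hm h1 ⟨a, hi⟩ h3
  · push Not at h3
    exact cov_bot hgood hm hf₀ fun i => lt_of_le_of_ne (h1 _) (Ne.symm (h3 i))

/-- all functionals -/
theorem cov_all (hgood : P.GoodAll s₁ s₂) (hm : 0 < m) {f₀ : (Fin (m + 1) → ℝ) →L[ℝ] ℝ}
    (hf₀ : f₀ ≠ 0) : P.Cov s₁ s₂ f₀ := by
  have hco : ∀ i, co (-f₀) i = -co f₀ i := fun i => rfl
  by_cases h1 : ∀ i, co f₀ 0 ≤ co f₀ i
  · by_cases h2 : ∃ i, co f₀ 0 < co f₀ i
    · exact cov_lowside hgood hm hf₀ h1 h2
    · push Not at h2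
      have h3 : ∀ i, co f₀ i = co f₀ 0 := fun i => le_antisymm (h2 i) (h1 i)
      rcases lt_trichotomy (co f₀ 0) 0 with h4 | h4 | h4
      · apply Cov.of_neg hm
        apply cov_vert hm
        · intro i
          rw [hco, hco, h3 i]
        · rw [hco]
          linarith
      · exfalso
        apply hf₀
        ext y
        rw [eval_const h3, h4]
        simp
      · exact cov_vert hm h3 h4
  · push Not at h1
    by_cases h2 : ∃ i, co f₀ 0 < co f₀ i
    · exact cov_mixed hm hf₀ h2 h1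
    · push Not at h2
      apply Cov.of_neg hm
      apply cov_lowside hgood.neg hm (neg_ne_zero.mpr hf₀)
      · intro i
        rw [hco, hco]
        exact neg_le_neg (h2 i)
      · obtain ⟨i, hi⟩ := h1
        exact ⟨i, by rw [hco, hco]; exact neg_lt_neg hi⟩

end KD

/-- Main theorem in coordinates. -/
theorem sep_perm (hm : 0 < m) {K : Set (Fin (m + 1) → ℝ)} (hK : IsCompact K)
    (hconv : Convex ℝ K)
    (hinv : ∀ π : Equiv.Perm (Fin (m + 1)), ∀ y ∈ K, (fun i => y (π i)) ∈ K)
    (h0 : (0 : Fin (m + 1) → ℝ) ∈ interior K) : Sep K (2 ^ (m + 1)) := by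
  obtain ⟨P, rfl⟩ := exists_KD hK hconv hinv h0
  obtain ⟨s₁, s₂, hgood⟩ := P.exists_goodAll
  obtain ⟨ε, hε, h⟩ := exists_eps (V := Fin (m + 1) → ℝ) (P := fun ε f => 0 < ε →
      ∃ i, ∀ x ∈ face P.K f, 0 < P.Fam s₁ s₂ ε i x)
    (by
      intro ε f c hc h hε
      obtain ⟨A, hA⟩ := h hε
      exact ⟨A, by rwa [face_smul P.K f hc]⟩)
    (by
      intro f₀ hf₀
      filter_upwards [KD.cov_all hgood hm hf₀] with z hz h1 _
      exact hz h1)
  refine Sep.of_fintype (fun i => P.Fam s₁ s₂ ε i) (fun f hf => h f hf hε) ?_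
  simp [pow_succ]

end Pm

/-- Final form for bodies invariant under all permutations of the vectors of a basis. -/
theorem perm_final {d : ℕ} (hd : 2 ≤ d) (K : Set (EuclideanSpace ℝ (Fin d)))
    (hconv : Convex ℝ K) (hK : IsCompact K)
    (o : EuclideanSpace ℝ (Fin d)) (ho : o ∈ interior K)
    (b : Fin d → EuclideanSpace ℝ (Fin d)) (hb : LinearIndependent ℝ b)
    (hsym : ∀ (σ : Equiv.Perm (Fin d)) (c : Fin d → ℝ),
      o + ∑ i, c i • b i ∈ K → o + ∑ i, c i • b (σ i) ∈ K) :
    ∃ w : Fin (2 ^ d) → EuclideanSpace ℝ (Fin d), ∃ a : Fin (2 ^ d) → ℝ,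
      ∀ u x₀ : EuclideanSpace ℝ (Fin d), u ≠ 0 → x₀ ∈ K →
        (∀ y ∈ K, inner ℝ u y ≤ inner ℝ u x₀) →
          ∃ i, inner ℝ (w i) o < a i ∧
            ∀ x ∈ K, inner ℝ u x = inner ℝ u x₀ → a i < inner ℝ (w i) x := by
  classical
  obtain ⟨m, rfl⟩ : ∃ m, d = m + 1 := ⟨d - 1, by omega⟩
  have hm : 0 < m := by omega
  let B : Module.Basis (Fin (m + 1)) ℝ (EuclideanSpace ℝ (Fin (m + 1))) :=
    basisOfLinearIndependentOfCardEqFinrank hb (by simp)
  have hB : ∀ i, B i = b i := fun i => by simp [B]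
  let T : (Fin (m + 1) → ℝ) ≃L[ℝ] EuclideanSpace ℝ (Fin (m + 1)) :=
    B.equivFun.symm.toContinuousLinearEquiv
  have hT : ∀ c : Fin (m + 1) → ℝ, T c = ∑ i, c i • b i := by
    intro c
    change B.equivFun.symm c = _
    rw [Module.Basis.equivFun_symm_apply]
    exact Finset.sum_congr rfl fun i _ => by rw [hB]
  apply sep_to_hyperplanes hK o
  set K₁ : Set (Fin (m + 1) → ℝ) := {c | o + T c ∈ K} with hK₁
  have himg : (fun x => x - o) '' K = T '' K₁ := by
    ext x
    constructor
    · rintro ⟨y, hy, rfl⟩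
      refine ⟨T.symm (y - o), ?_, by simp⟩
      change o + T (T.symm (y - o)) ∈ K
      simpa using hy
    · rintro ⟨c, hc, rfl⟩
      exact ⟨o + T c, hc, by simp⟩
  have hcont : Continuous (fun c : Fin (m + 1) → ℝ => o + T c) :=
    continuous_const.add T.continuous
  have hcpt : IsCompact K₁ := by
    have h1 : K₁ = T.symm '' ((fun x => x - o) '' K) := by
      rw [himg, ← Set.image_comp]
      simp
    rw [h1]
    exact (hK.image (continuous_id.sub continuous_const)).image T.symm.continuous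
  have hconv1 : Convex ℝ K₁ := by
    intro x hx y hy a c ha hc hac
    change o + T (a • x + c • y) ∈ K
    have h1 := hconv hx hy ha hc hac
    have h2 : a • (o + T x) + c • (o + T y) = o + T (a • x + c • y) := by
      rw [map_add, map_smul, map_smul, smul_add, smul_add]
      have h3 : a • o + c • o = o := by rw [← add_smul, hac, one_smul]
      calc a • o + a • T x + (c • o + c • T y) = (a • o + c • o) + (a • T x + c • T y) := by abel
        _ = _ := by rw [h3]
    rw [← h2]
    exact h1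
  have h0 : (0 : Fin (m + 1) → ℝ) ∈ interior K₁ := by
    rw [mem_interior_iff_mem_nhds]
    have h1 : K ∈ 𝓝 (o + T 0) := by
      rw [map_zero, add_zero]
      exact mem_interior_iff_mem_nhds.mp ho
    exact hcont.continuousAt.preimage_mem_nhds h1
  have hinv : ∀ π : Equiv.Perm (Fin (m + 1)), ∀ y ∈ K₁, (fun i => y (π i)) ∈ K₁ := by
    intro π y hy
    change o + T (fun i => y (π i)) ∈ K
    change o + T y ∈ K at hy
    rw [hT] at hy ⊢
    have h1 := hsym π.symm y hy
    have h2 : ∑ i, y i • b (π.symm i) = ∑ i, y (π i) • b i := by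
      rw [← Equiv.sum_comp π (fun i => y i • b (π.symm i))]
      exact Finset.sum_congr rfl fun i _ => by rw [Equiv.symm_apply_apply]
    rwa [h2] at h1
  rw [himg]
  exact (Pm.sep_perm hm hcpt hconv1 hinv h0).image T

end Pool.Agent.Lib.MP_5e7226_co
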