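import Pool.Agent.Lib.MP_5e7226_co.PermBase
import Pool.Agent.Lib.MP_5e7226_co.Reduction

set_option autoImplicit false
set_option linter.unusedSectionVars false

open Set Filter Topology

namespace Pool.Agent.Lib.MP_5e7226_co

namespace Pm

/-- a permutation invariant convex body with some numerical data -/
structure KD (m : ℕ) where
  K : Set (Fin (m + 1) → ℝ)
  ν : ℝ
  σ : ℝ
  x₁ : ℝ
  x₂ : ℝ
  cpt : IsCompact K
  conv : Convex ℝ K
  inv : ∀ π : Equiv.Perm (Fin (m + 1)), ∀ y ∈ K, (fun i => y (π i)) ∈ K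
  zero_int : (0 : Fin (m + 1) → ℝ) ∈ interior K
  hν : 0 < ν
  hσ : 0 < σ
  hx₁ : 0 < x₁
  hx₂ : 0 < x₂
  memN : emb ((0 : ℝ), ν) ∈ K
  memS : emb ((0 : ℝ), -σ) ∈ K
  memR : emb (x₁, (0 : ℝ)) ∈ K
  memL : emb (-x₂, (0 : ℝ)) ∈ K
  bnd : ∀ y ∈ K, -σ ≤ Zf m y ∧ Zf m y ≤ ν

variable {m : ℕ}

lemma exists_KD {K : Set (Fin (m + 1) → ℝ)} (hK : IsCompact K) (hconv : Convex ℝ K)
    (hinv : ∀ π : Equiv.Perm (Fin (m + 1)), ∀ y ∈ K, (fun i => y (π i)) ∈ K)
    (h0 : (0 : Fin (m + 1) → ℝ) ∈ interior K) : ∃ P : KD m, P.K = K := by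
  have hm : (0 : ℝ) < m + 1 := by positivity
  have hmem0 := interior_subset h0
  have hemb0 : (emb ((0 : ℝ), (0 : ℝ)) : Fin (m + 1) → ℝ) = 0 := by
    ext i
    refine Fin.cases ?_ (fun i => ?_) i
    · rw [emb_zero_idx]; simp
    · rw [emb_succ]; simp
  have hnear : ∀ᶠ p : ℝ × ℝ in 𝓝 (0, 0), emb p ∈ K := by
    have h1 : ContinuousAt (emb : ℝ × ℝ → (Fin (m + 1) → ℝ)) (0, 0) := emb_continuous.continuousAt
    have h2 : K ∈ 𝓝 (emb ((0 : ℝ), (0 : ℝ)) : Fin (m + 1) → ℝ) := by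
      rw [hemb0]
      exact mem_interior_iff_mem_nhds.mp h0
    exact h1.eventually h2
  obtain ⟨r, hr, hball⟩ := Metric.eventually_nhds_iff.mp hnear
  have hr1 : ∀ x : ℝ, |x| < r → emb (x, (0 : ℝ)) ∈ K := by
    intro x hx
    apply hball
    rw [Prod.dist_eq]
    simp [hx]
  have hr2 : ∀ x : ℝ, |x| < r → emb ((0 : ℝ), x) ∈ K := by
    intro x hx
    apply hball
    rw [Prod.dist_eq]
    simp [hx]
  have habs : |r / 2| < r := by rw [abs_of_pos (by linarith)]; linarith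
  have habs' : |-(r / 2)| < r := by rw [abs_neg]; exact habs
  obtain ⟨y, hy, hmax⟩ := hK.exists_isMaxOn ⟨0, hmem0⟩ (Zf m).continuous.continuousOn
  obtain ⟨z, hz, hmin⟩ := hK.exists_isMinOn ⟨0, hmem0⟩ (Zf m).continuous.continuousOn
  have hpos : 0 < Zf m y := by
    have h1 : Zf m (emb ((0 : ℝ), r / 2)) ≤ Zf m y := hmax (hr2 _ habs)
    rw [Zf_emb] at h1
    simp only at h1
    linarith
  have hneg : Zf m z < 0 := by
    have h1 : Zf m z ≤ Zf m (emb ((0 : ℝ), -(r / 2))) := hmin (hr2 _ habs')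
    rw [Zf_emb] at h1
    simp only at h1
    linarith
  have havg : ∀ y ∈ K, emb ((0 : ℝ), Zf m y) ∈ K := by
    intro y hy
    obtain ⟨w, hw, -, h2⟩ := avg hK hconv hinv hy Finset.univ
    have h3 : w = emb ((0 : ℝ), Zf m y) := by
      ext i
      have h4 := h2 i (Finset.mem_univ i)
      rw [Finset.card_univ, Fintype.card_fin, ← Zf_apply] at h4
      push_cast at h4
      have h5 : w i = Zf m y / (m + 1) := by
        rw [eq_div_iff hm.ne']
        linarith
      rw [h5]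
      refine Fin.cases ?_ (fun i => ?_) i
      · rw [emb_zero_idx]; simp
      · rw [emb_succ]; simp
    rw [← h3]
    exact hw
  exact ⟨{
    K := K
    ν := Zf m y
    σ := -Zf m z
    x₁ := r / 2
    x₂ := r / 2
    cpt := hK
    conv := hconv
    inv := hinv
    zero_int := h0
    hν := hpos
    hσ := by linarith
    hx₁ := by linarith
    hx₂ := by linarith
    memN := havg y hy
    memS := by
      rw [neg_neg]
      exact havg z hz
    memR := hr1 _ habs
    memL := hr1 _ habs'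
    bnd := by
      intro w hw
      have h1 : Zf m w ≤ Zf m y := hmax hw
      have h2 : Zf m z ≤ Zf m w := hmin hw
      constructor <;> linarith
  }, rfl⟩

namespace KD

/-- reflection in the origin -/
def neg (P : KD m) : KD m where
  K := -P.K
  ν := P.σ
  σ := P.ν
  x₁ := P.x₂
  x₂ := P.x₁
  cpt := P.cpt.neg
  conv := P.conv.neg
  inv := by
    intro π y hy
    have := P.inv π (-y) hy
    exact this
  zero_int := by
    rw [mem_interior_iff_mem_nhds]
    have h1 := mem_interior_iff_mem_nhds.mp P.zero_int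
    have h2 : Filter.Tendsto (fun y : Fin (m + 1) → ℝ => -y) (𝓝 0) (𝓝 0) := by
      have := (continuous_neg (G := Fin (m + 1) → ℝ)).tendsto 0
      simpa using this
    exact h2 h1
  hν := P.hσ
  hσ := P.hν
  hx₁ := P.hx₂
  hx₂ := P.hx₁
  memN := by
    have h := P.memS
    have h2 : (emb ((0 : ℝ), P.σ) : Fin (m + 1) → ℝ) = -emb ((0 : ℝ), -P.σ) := by
      rw [← emb_neg]; simp
    rw [h2, Set.neg_mem_neg]
    exact h
  memS := by
    have h := P.memN
    have h2 : (emb ((0 : ℝ), -P.ν) : Fin (m + 1) → ℝ) = -emb ((0 : ℝ), P.ν) := by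
      rw [← emb_neg]; simp
    rw [h2, Set.neg_mem_neg]
    exact h
  memR := by
    have h := P.memL
    have h2 : (emb (P.x₂, (0 : ℝ)) : Fin (m + 1) → ℝ) = -emb (-P.x₂, (0 : ℝ)) := by
      rw [← emb_neg]; simp
    rw [h2, Set.neg_mem_neg]
    exact h
  memL := by
    have h := P.memR
    have h2 : (emb (-P.x₁, (0 : ℝ)) : Fin (m + 1) → ℝ) = -emb (P.x₁, (0 : ℝ)) := by
      rw [← emb_neg]; simp
    rw [h2, Set.neg_mem_neg]
    exact h
  bnd := by
    intro y hy
    have := P.bnd (-y) hy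
    rw [map_neg] at this
    constructor <;> linarith [this.1, this.2]

/-- touched points of the first kind -/
def LoK (P : KD m) (k : ℕ) (t : ℝ) (p : ℝ × ℝ) : Prop :=
  emb p ∈ P.K ∧ ∀ A : Finset (Fin (m + 1)), A.card = k → ∀ y ∈ P.K,
    (m + 1) * ∑ i ∈ A, y i - k * Zf m y + t * Zf m y ≤ -(k * p.1) + t * p.2

lemma sum_emb_not {A : Finset (Fin (m + 1))} (h : (0 : Fin (m + 1)) ∉ A) (p : ℝ × ℝ) :
    ((m : ℝ) + 1) * ∑ i ∈ A, (emb p : Fin (m + 1) → ℝ) i = A.card * (p.2 - p.1) := by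
  have : ∑ i ∈ A, (emb p : Fin (m + 1) → ℝ) i = ∑ i ∈ A, (p.2 - p.1) / (m + 1) := by
    refine Finset.sum_congr rfl fun i hi => ?_
    obtain ⟨k, hk⟩ := Fin.exists_succ_eq.mpr (fun h0 : i = 0 => h (h0 ▸ hi))
    rw [← hk, emb_succ]
  rw [this, Finset.sum_const, nsmul_eq_mul]
  have : (0 : ℝ) < m + 1 := by positivity
  field_simp

lemma sum_emb_mem {A : Finset (Fin (m + 1))} (h : (0 : Fin (m + 1)) ∈ A) (p : ℝ × ℝ) :
    ((m : ℝ) + 1) * ∑ i ∈ A, (emb p : Fin (m + 1) → ℝ) i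
      = A.card * (p.2 - p.1) + (m + 1) * p.1 := by
  have h1 := Finset.add_sum_erase A (fun i => (emb p : Fin (m + 1) → ℝ) i) h
  rw [← h1, mul_add, sum_emb_not (Finset.notMem_erase _ _), Finset.card_erase_of_mem h,
    emb_zero_idx]
  have hc : 1 ≤ A.card := Finset.card_pos.mpr ⟨_, h⟩
  rw [Nat.cast_sub hc]
  have : (0 : ℝ) < m + 1 := by positivity
  field_simp
  push_cast
  ring

/-- sets of indices with or without `0` -/
lemma exists_not_mem {k : ℕ} (hk : k ≤ m) :
    ∃ A : Finset (Fin (m + 1)), A.card = k ∧ (0 : Fin (m + 1)) ∉ A := by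
  obtain ⟨B, -, hB⟩ := Finset.exists_subset_card_eq
    (s := (Finset.univ : Finset (Fin m))) (n := k) (by simpa using hk)
  exact ⟨B.map (Fin.succEmb m), by simpa using hB, by simp [Fin.succ_ne_zero]⟩

lemma exists_mem {k : ℕ} (hk : 1 ≤ k) (hk' : k ≤ m + 1) :
    ∃ A : Finset (Fin (m + 1)), A.card = k ∧ (0 : Fin (m + 1)) ∈ A := by
  obtain ⟨B, h1, h2⟩ := exists_not_mem (m := m) (k := k - 1) (by omega)
  exact ⟨insert 0 B, by rw [Finset.card_insert_of_notMem h2, h1]; omega,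
    Finset.mem_insert_self _ _⟩

lemma loK_a (P : KD m) {k : ℕ} (hk' : k ≤ m) {t : ℝ} {p : ℝ × ℝ}
    (h : P.LoK k t p) {q : ℝ × ℝ} (hq : emb q ∈ P.K) :
    -(k * q.1) + t * q.2 ≤ -(k * p.1) + t * p.2 := by
  obtain ⟨A, hA, hA0⟩ := exists_not_mem hk'
  have h1 := h.2 A hA _ hq
  rw [sum_emb_not hA0, hA, Zf_emb] at h1
  linarith

lemma loK_b (P : KD m) {k : ℕ} (hk : 1 ≤ k) (hk' : k ≤ m) {t : ℝ} {p : ℝ × ℝ}
    (h : P.LoK k t p) {q : ℝ × ℝ} (hq : emb q ∈ P.K) :
    ((m : ℝ) + 1 - k) * q.1 + t * q.2 ≤ -(k * p.1) + t * p.2 := by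
  obtain ⟨A, hA, hA0⟩ := exists_mem (m := m) hk (by omega)
  have h1 := h.2 A hA _ hq
  rw [sum_emb_mem hA0, hA, Zf_emb] at h1
  linarith

lemma loK_eq (P : KD m) {k : ℕ} {t : ℝ} {p q : ℝ × ℝ} (h : P.LoK k t p) (hq : emb q ∈ P.K)
    (he : -(k * q.1) + t * q.2 = -(k * p.1) + t * p.2) : P.LoK k t q :=
  ⟨hq, fun A hA y hy => by rw [he]; exact h.2 A hA y hy⟩

lemma neg_mem {P : KD m} {q : ℝ × ℝ} : emb (-q) ∈ P.neg.K ↔ emb q ∈ P.K := by
  rw [emb_neg]
  change -emb q ∈ -P.K ↔ _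
  rw [Set.neg_mem_neg]

lemma neg_mem' {P : KD m} {q : ℝ × ℝ} : emb q ∈ P.neg.K ↔ emb (-q) ∈ P.K := by
  have h := neg_mem (P := P) (q := -q)
  rwa [_root_.neg_neg] at h

lemma neg_neg (P : KD m) : P.neg.neg = P := by
  cases P
  simp [KD.neg]

/-- the planar data of level `k` -/
def pd (P : KD m) (k : ℕ) (hk : 1 ≤ k) (hk' : k + 1 ≤ m) : PD where
  D := {p | emb p ∈ P.K}
  a := k
  b := ((m - k : ℕ) : ℝ)
  ν := P.ν
  σ := P.σ
  x₁ := P.x₁
  x₂ := P.x₂
  Lo := fun t p => P.LoK k t p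
  Hi := fun t p => P.neg.LoK (m - k) (-t) (-p)
  cpt := by
    have hcl : IsClosed {p : ℝ × ℝ | emb p ∈ P.K} := P.cpt.isClosed.preimage emb_continuous
    have hm : 0 < m := by omega
    have h2 : {p : ℝ × ℝ | emb p ∈ P.K} ⊆ (fun y => (Xf m y, Zf m y)) '' P.K := by
      intro p hp
      exact ⟨emb p, hp, by simp only [Xf_emb hm, Zf_emb]⟩
    have h3 : IsCompact ((fun y => (Xf m y, Zf m y)) '' P.K) :=
      P.cpt.image ((Xf m).continuous.prodMk (Zf m).continuous)
    exact h3.of_isClosed_subset hcl h2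
  conv := by
    intro p hp q hq a b ha hb hab
    change emb (a • p + b • q) ∈ P.K
    rw [emb_comb]
    exact P.conv hp hq ha hb hab
  ha := by exact_mod_cast hk
  hb := by
    have : 0 < m - k := by omega
    exact_mod_cast this
  hν := P.hν
  hσ := P.hσ
  hx₁ := P.hx₁
  hx₂ := P.hx₂
  memN := P.memN
  memS := P.memS
  memR := P.memR
  memL := P.memL
  bnd := by
    intro p hp
    have := P.bnd _ hp
    rwa [Zf_emb] at this
  lo_mem := fun t p h => h.1
  lo_a := fun t p h q hq => P.loK_a (by omega) h hq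
  lo_b := by
    intro t p h q hq
    have := P.loK_b hk (by omega) h hq
    rw [Nat.cast_sub (by omega)]
    linarith
  lo_eq := fun t p q h hq he => P.loK_eq h hq he
  hi_mem := fun t p h => neg_mem.mp h.1
  hi_b := by
    intro t q h p hp
    have := P.neg.loK_a (by omega) h (neg_mem.mpr hp)
    simp only [Prod.fst_neg, Prod.snd_neg] at this
    linarith
  hi_a := by
    intro t q h p hp
    have := P.neg.loK_b (by omega) (by omega) h (neg_mem.mpr hp)
    simp only [Prod.fst_neg, Prod.snd_neg] at this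
    rw [Nat.cast_sub (by omega)] at this ⊢
    linarith
  hi_eq := by
    intro t p q h hq he
    apply P.neg.loK_eq h (neg_mem.mpr hq)
    simp only [Prod.fst_neg, Prod.snd_neg]
    linarith

lemma pd_neg (P : KD m) (k : ℕ) (hk : 1 ≤ k) (hk' : k + 1 ≤ m) :
    P.neg.pd (m - k) (by omega) (by omega) = (P.pd k hk hk').mirror := by
  unfold pd PD.mirror
  congr 1
  · ext p
    exact neg_mem'
  · rw [Nat.sub_sub_self (by omega)]
  · ext t p
    simp only [_root_.neg_neg]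
  · ext t p
    rw [Nat.sub_sub_self (by omega), KD.neg_neg]

/-- a left or right edge from the top pole reaches level zero -/
def up (P : KD m) : Prop :=
  (∃ t : ℝ, (∀ q : ℝ × ℝ, emb q ∈ P.K → -q.1 + t * q.2 ≤ t * P.ν) ∧
    ∃ p : ℝ × ℝ, emb p ∈ P.K ∧ p.2 ≤ 0 ∧ -p.1 + t * p.2 = t * P.ν) ∨
  (∃ t : ℝ, (∀ q : ℝ × ℝ, emb q ∈ P.K → q.1 + t * q.2 ≤ t * P.ν) ∧
    ∃ p : ℝ × ℝ, emb p ∈ P.K ∧ p.2 ≤ 0 ∧ p.1 + t * p.2 = t * P.ν)

def dn (P : KD m) : Prop :=
  (∃ t : ℝ, (∀ q : ℝ × ℝ, emb q ∈ P.K → -q.1 + t * q.2 ≤ -(t * P.σ)) ∧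
    ∃ p : ℝ × ℝ, emb p ∈ P.K ∧ 0 ≤ p.2 ∧ -p.1 + t * p.2 = -(t * P.σ)) ∨
  (∃ t : ℝ, (∀ q : ℝ × ℝ, emb q ∈ P.K → q.1 + t * q.2 ≤ -(t * P.σ)) ∧
    ∃ p : ℝ × ℝ, emb p ∈ P.K ∧ 0 ≤ p.2 ∧ p.1 + t * p.2 = -(t * P.σ))

lemma up_iff (P : KD m) (k : ℕ) (hk : 1 ≤ k) (hk' : k + 1 ≤ m) : (P.pd k hk hk').up ↔ P.up :=
  Iff.rfl

lemma dn_iff (P : KD m) (k : ℕ) (hk : 1 ≤ k) (hk' : k + 1 ≤ m) : (P.pd k hk hk').dn ↔ P.dn :=
  Iff.rfl

lemma up_neg (P : KD m) : P.neg.up ↔ P.dn := by
  unfold up dn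
  constructor
  · rintro (⟨t, h, p, hp, hp2, he⟩ | ⟨t, h, p, hp, hp2, he⟩)
    · right
      refine ⟨-t, fun q hq => ?_, -p, neg_mem'.mp hp, by simpa using hp2, ?_⟩
      · have := h (-q) (neg_mem.mpr hq)
        simp only [Prod.snd_neg, Prod.fst_neg, KD.neg] at this
        linarith
      · simp only [Prod.snd_neg, Prod.fst_neg, KD.neg] at he ⊢
        linarith
    · left
      refine ⟨-t, fun q hq => ?_, -p, neg_mem'.mp hp, by simpa using hp2, ?_⟩
      · have := h (-q) (neg_mem.mpr hq)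
        simp only [Prod.snd_neg, Prod.fst_neg, KD.neg] at this
        linarith
      · simp only [Prod.snd_neg, Prod.fst_neg, KD.neg] at he ⊢
        linarith
  · rintro (⟨t, h, p, hp, hp2, he⟩ | ⟨t, h, p, hp, hp2, he⟩)
    · right
      refine ⟨-t, fun q hq => ?_, -p, neg_mem.mpr hp, by simpa using hp2, ?_⟩
      · have := h (-q) (neg_mem'.mp hq)
        simp only [Prod.snd_neg, Prod.fst_neg, KD.neg] at this ⊢
        linarith
      · simp only [Prod.snd_neg, Prod.fst_neg, KD.neg] at he ⊢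
        linarith
    · left
      refine ⟨-t, fun q hq => ?_, -p, neg_mem.mpr hp, by simpa using hp2, ?_⟩
      · have := h (-q) (neg_mem'.mp hq)
        simp only [Prod.snd_neg, Prod.fst_neg, KD.neg] at this ⊢
        linarith
      · simp only [Prod.snd_neg, Prod.fst_neg, KD.neg] at he ⊢
        linarith

lemma dn_neg (P : KD m) : P.neg.dn ↔ P.up := by
  rw [← up_neg, neg_neg]

/-- First averaging argument: touched points of functionals with the neutral index at the bottom. -/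
lemma lo_of_low (P : KD m) {f : (Fin (m + 1) → ℝ) →L[ℝ] ℝ} {A : Finset (Fin (m + 1))}
    (hA : A.Nonempty) (h0 : ∀ i ∉ A, co f i = co f 0) (h1 : ∀ i ∈ A, co f 0 < co f i) :
    ∃ t, ∀ p, emb p ∈ face P.K f → P.LoK A.card t p := by
  classical
  set C : ℝ := ∑ i ∈ A, (co f i - co f 0) with hC
  have hCpos : 0 < C := Finset.sum_pos (fun i hi => sub_pos.mpr (h1 i hi)) hA
  have hk : (0 : ℝ) < A.card := by exact_mod_cast Finset.card_pos.mpr hA
  have hm : (0 : ℝ) < m + 1 := by positivity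
  have hval : ∀ z : Fin (m + 1) → ℝ, f z = co f 0 * Zf m z + ∑ i ∈ A, z i * (co f i - co f 0) := by
    intro z
    rw [f_rep, Zf_apply, ← Finset.sum_add_sum_compl A (fun i => z i * co f i),
      ← Finset.sum_add_sum_compl A (fun i => z i), mul_add, Finset.mul_sum, Finset.mul_sum]
    have e1 : ∑ i ∈ Aᶜ, z i * co f i = ∑ i ∈ Aᶜ, co f 0 * z i :=
      Finset.sum_congr rfl fun i hi => by rw [h0 i (Finset.mem_compl.mp hi), mul_comm]
    have e2 : ∑ i ∈ A, z i * co f i = ∑ i ∈ A, co f 0 * z i + ∑ i ∈ A, z i * (co f i - co f 0) := by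
      rw [← Finset.sum_add_distrib]
      exact Finset.sum_congr rfl fun i _ => by ring
    rw [e1, e2]
    ring
  have h0A : (0 : Fin (m + 1)) ∉ A := fun h => lt_irrefl _ (h1 0 h)
  set S : ℝ := (m + 1) * co f 0 + C with hS
  refine ⟨A.card * S / C, fun p hp => ⟨hp.1, fun B hB y hy => ?_⟩⟩
  -- move `B` to `A`
  let e : {x // x ∈ A} ≃ {x // x ∈ B} := Finset.equivOfCardEq hB.symm
  let π : Equiv.Perm (Fin (m + 1)) := e.extendSubtype
  have hπ : ∀ x (hx : x ∈ A), π x = e ⟨x, hx⟩ := fun x hx => e.extendSubtype_apply_of_mem x hx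
  have hy' := P.inv π y hy
  obtain ⟨z, hz, hz1, hz2⟩ := avg P.cpt P.conv P.inv hy' A
  have hsum : ∑ i ∈ A, y (π i) = ∑ i ∈ B, y i := by
    rw [← Finset.sum_coe_sort A, ← Finset.sum_coe_sort B]
    rw [← Equiv.sum_comp e (fun x : {x // x ∈ B} => y x)]
    refine Finset.sum_congr rfl fun x _ => ?_
    rw [hπ x x.2]
  have hZ : Zf m z = Zf m y := by
    rw [Zf_apply, Zf_apply, ← Equiv.sum_comp π (fun i => y i), ← Finset.sum_add_sum_compl A,
      ← Finset.sum_add_sum_compl A (fun i => y (π i))]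
    congr 1
    · have : (A.card : ℝ) * ∑ i ∈ A, z i = A.card * ∑ i ∈ A, y (π i) := by
        rw [Finset.mul_sum, Finset.sum_congr rfl hz2, Finset.sum_const, nsmul_eq_mul]
      exact mul_left_cancel₀ hk.ne' this
    · exact Finset.sum_congr rfl fun i hi => hz1 i (Finset.mem_compl.mp hi)
  have hle := hp.2 z hz
  rw [hval z, hval (emb p), Zf_emb, hZ] at hle
  have e1 : (A.card : ℝ) * ∑ i ∈ A, z i * (co f i - co f 0) = C * ∑ i ∈ B, y i := by
    rw [Finset.mul_sum, hC, Finset.sum_mul]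
    refine Finset.sum_congr rfl fun i hi => ?_
    rw [← mul_assoc, hz2 i hi, hsum, mul_comm]
  have e2 : ((m : ℝ) + 1) * ∑ i ∈ A, (emb p : Fin (m + 1) → ℝ) i * (co f i - co f 0)
      = C * (p.2 - p.1) := by
    rw [Finset.mul_sum, hC, Finset.sum_mul]
    refine Finset.sum_congr rfl fun i hi => ?_
    obtain ⟨k, hk⟩ := Fin.exists_succ_eq.mpr (fun h0 : i = 0 => h0A (h0 ▸ hi))
    rw [← hk, emb_succ]
    field_simp
  -- conclude
  have h2 : (A.card : ℝ) * (m + 1) * (co f 0 * Zf m y) + (m + 1) * (C * ∑ i ∈ B, y i)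
      ≤ A.card * (m + 1) * (co f 0 * p.2) + A.card * (C * (p.2 - p.1)) := by
    rw [← e1, ← e2]
    have := mul_le_mul_of_nonneg_left hle (mul_pos hk hm).le
    linarith
  have h3 : C * ((m + 1) * ∑ i ∈ B, y i - A.card * Zf m y + A.card * S / C * Zf m y)
      ≤ C * (-(A.card * p.1) + A.card * S / C * p.2) := by
    have f1 : C * ((m + 1) * ∑ i ∈ B, y i - A.card * Zf m y + A.card * S / C * Zf m y)
        = (m + 1) * (C * ∑ i ∈ B, y i) - A.card * C * Zf m y + A.card * S * Zf m y := by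
      field_simp
    have f2 : C * (-(A.card * p.1) + A.card * S / C * p.2)
        = -(A.card * C * p.1) + A.card * S * p.2 := by
      field_simp
    rw [f1, f2, hS]
    linarith
  exact le_of_mul_le_mul_left h3 hCpos

/-- The exemption lemma. -/
lemma exempt (P : KD m) {k : ℕ} (hk : 1 ≤ k) (hk' : k + 1 ≤ m) {t : ℝ} {l r : ℝ × ℝ}
    (hl : P.LoK k t l) (hr : P.LoK k t r) (hl2 : l.2 < 0) (hr2 : 0 < r.2)
    {f : (Fin (m + 1) → ℝ) →L[ℝ] ℝ} (htop : ∀ i, co f i ≤ co f 0) (hne : ∃ i, co f i < co f 0)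
    (hcard : k + 1 ≤ (Finset.univ.filter fun i => co f i = co f 0).card)
    {y : Fin (m + 1) → ℝ} (hy : y ∈ face P.K f) (hy0 : Zf m y = 0) {q : ℝ × ℝ}
    (hq : emb q ∈ face P.K f) : q.1 ≤ 0 := by
  classical
  have hm : (0 : ℝ) < m + 1 := by positivity
  have hkr : (0 : ℝ) < k := by exact_mod_cast hk
  set M : Finset (Fin (m + 1)) := Finset.univ.filter fun i => co f i = co f 0 with hM
  have hMmem : ∀ i, i ∈ M ↔ co f i = co f 0 := by intro i; simp [hM]
  -- the lowest coefficient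
  obtain ⟨j, -, hj⟩ := Finset.exists_min_image (Finset.univ : Finset (Fin (m + 1))) (co f)
    ⟨0, Finset.mem_univ _⟩
  have hj' : ∀ i, co f j ≤ co f i := fun i => hj i (Finset.mem_univ i)
  have hj0 : co f j < co f 0 := by
    obtain ⟨i, hi⟩ := hne
    exact lt_of_le_of_lt (hj' i) hi
  set S : ℝ := ∑ i, co f i with hS
  set Pp : ℝ := S - (m + 1) * co f j with hPp
  have hPsum : Pp = ∑ i, (co f i - co f j) := by
    rw [Finset.sum_sub_distrib, hPp, hS]
    simp
  have hPge : ((k : ℝ) + 1) * (co f 0 - co f j) ≤ Pp := by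
    rw [hPsum]
    calc ((k : ℝ) + 1) * (co f 0 - co f j) ≤ M.card * (co f 0 - co f j) := by
          apply mul_le_mul_of_nonneg_right _ (by linarith)
          exact_mod_cast hcard
      _ = ∑ i ∈ M, (co f i - co f j) := by
          rw [← nsmul_eq_mul, ← Finset.sum_const]
          exact Finset.sum_congr rfl fun i hi => by rw [(hMmem i).mp hi]
      _ ≤ ∑ i, (co f i - co f j) :=
          Finset.sum_le_sum_of_subset_of_nonneg (Finset.subset_univ _)
            (fun i _ _ => sub_nonneg.mpr (hj' i))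
  have hPpos : 0 < Pp := lt_of_lt_of_le (mul_pos (by positivity) (by linarith)) hPge
  set h : ℝ := -(k * l.1) + t * l.2 with hh
  have hhr : -(k * r.1) + t * r.2 = h :=
    le_antisymm (P.loK_a (by omega) hl hr.1) (P.loK_a (by omega) hr hl.1)
  -- average over the top class
  obtain ⟨z, hz, hz1, hz2⟩ := avg P.cpt P.conv P.inv hy.1 M
  have h0M : (0 : Fin (m + 1)) ∈ M := (hMmem 0).mpr rfl
  set v : ℝ := z 0 with hv
  have hMc : (0 : ℝ) < M.card := by exact_mod_cast Finset.card_pos.mpr ⟨0, h0M⟩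
  have hzM : ∀ i ∈ M, z i = v := by
    intro i hi
    have h1 := hz2 i hi
    rw [← hz2 0 h0M] at h1
    exact mul_left_cancel₀ hMc.ne' h1
  have hsumM : ∑ i ∈ M, z i = ∑ i ∈ M, y i := by
    have : (M.card : ℝ) * ∑ i ∈ M, z i = M.card * ∑ i ∈ M, y i := by
      rw [Finset.mul_sum, Finset.sum_congr rfl hz2, Finset.sum_const, nsmul_eq_mul]
    exact mul_left_cancel₀ hMc.ne' this
  have hZz : Zf m z = 0 := by
    rw [← hy0, Zf_apply, Zf_apply, ← Finset.sum_add_sum_compl M,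
      ← Finset.sum_add_sum_compl M (fun i => y i), hsumM]
    congr 1
    exact Finset.sum_congr rfl fun i hi => hz1 i (Finset.mem_compl.mp hi)
  have hfz : f z = f y := by
    rw [f_rep, f_rep, ← Finset.sum_add_sum_compl M, ← Finset.sum_add_sum_compl M
      (fun i => y i * co f i)]
    congr 1
    · have e1 : ∑ i ∈ M, z i * co f i = (∑ i ∈ M, z i) * co f 0 := by
        rw [Finset.sum_mul]
        exact Finset.sum_congr rfl fun i hi => by rw [(hMmem i).mp hi]
      have e2 : ∑ i ∈ M, y i * co f i = (∑ i ∈ M, y i) * co f 0 := by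
        rw [Finset.sum_mul]
        exact Finset.sum_congr rfl fun i hi => by rw [(hMmem i).mp hi]
      rw [e1, e2, hsumM]
    · exact Finset.sum_congr rfl fun i hi => by rw [hz1 i (Finset.mem_compl.mp hi)]
  have hzface : z ∈ face P.K f := ⟨hz, fun w hw => by rw [hfz]; exact hy.2 w hw⟩
  have hzle : ∀ i, z i ≤ v := by
    intro i
    by_cases hi : i ∈ M
    · exact (hzM i hi).le
    · apply ordered P.inv hzface
      refine lt_of_le_of_ne (htop i) ?_
      rwa [hMmem] at hi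
  -- the value `v` is small
  obtain ⟨A, hAM, hA⟩ := Finset.exists_subset_card_eq (s := M) (n := k) (by omega)
  have hvle : ((m : ℝ) + 1) * (k * v) ≤ h := by
    have h1 := hl.2 A hA z hz
    rw [hZz, mul_zero, mul_zero, sub_zero, add_zero] at h1
    have h2 : ∑ i ∈ A, z i = k * v := by
      rw [Finset.sum_congr rfl (fun i hi => hzM i (hAM hi)), Finset.sum_const, hA, nsmul_eq_mul]
    rw [h2] at h1
    exact h1
  have hfy : f y ≤ Pp * v := by
    rw [← hfz, f_rep]
    have e1 : ∑ i, z i * co f i = ∑ i, (co f i - co f j) * z i + co f j * Zf m z := by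
      rw [Zf_apply, Finset.mul_sum, ← Finset.sum_add_distrib]
      exact Finset.sum_congr rfl fun i _ => by ring
    rw [e1, hZz, mul_zero, add_zero, hPsum, Finset.sum_mul]
    exact Finset.sum_le_sum fun i _ =>
      mul_le_mul_of_nonneg_left (hzle i) (sub_nonneg.mpr (hj' i))
  have hfy2 : ((m : ℝ) + 1) * (k * f y) ≤ Pp * h := by
    calc ((m : ℝ) + 1) * (k * f y) ≤ (m + 1) * (k * (Pp * v)) := by
          apply mul_le_mul_of_nonneg_left _ hm.le
          exact mul_le_mul_of_nonneg_left hfy hkr.le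
      _ = Pp * ((m + 1) * (k * v)) := by ring
      _ ≤ Pp * h := mul_le_mul_of_nonneg_left hvle hPpos.le
  -- the moved end points
  have hmoved : ∀ p : ℝ × ℝ, emb p ∈ P.K → k * (S * p.2 - Pp * p.1) ≤ (m + 1) * (k * f y) := by
    intro p hp
    have h1 := hy.2 _ (P.inv (Equiv.swap 0 j) _ hp)
    have h2 := f_emb_swap f p j
    have h3 : S * p.2 - Pp * p.1 ≤ (m + 1) * f y := by
      have := mul_le_mul_of_nonneg_left h1 hm.le
      rw [h2] at this
      rw [hPp]
      linarith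
    have := mul_le_mul_of_nonneg_left h3 hkr.le
    linarith
  have hl3 := (hmoved l hl.1).trans hfy2
  have hr3 := (hmoved r hr.1).trans hfy2
  have el : (k : ℝ) * l.1 = t * l.2 - h := by rw [hh]; ring
  have er : (k : ℝ) * r.1 = t * r.2 - h := by linarith
  have hl4 : (k * S - Pp * t) * l.2 ≤ 0 := by
    have : k * (S * l.2 - Pp * l.1) = (k * S - Pp * t) * l.2 + Pp * h := by
      calc k * (S * l.2 - Pp * l.1) = k * S * l.2 - Pp * (k * l.1) := by ring
        _ = _ := by rw [el]; ring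
    linarith
  have hr4 : (k * S - Pp * t) * r.2 ≤ 0 := by
    have : k * (S * r.2 - Pp * r.1) = (k * S - Pp * t) * r.2 + Pp * h := by
      calc k * (S * r.2 - Pp * r.1) = k * S * r.2 - Pp * (k * r.1) := by ring
        _ = _ := by rw [er]; ring
    linarith
  have hst : k * S = Pp * t := by
    have h1 : k * S - Pp * t ≤ 0 := by
      by_contra hcon
      push Not at hcon
      have := mul_pos hcon hr2
      linarith
    have h2 : 0 ≤ k * S - Pp * t := by
      by_contra hcon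
      push Not at hcon
      have := mul_pos (neg_pos.mpr hcon) (neg_pos.mpr hl2)
      linarith
    linarith
  have hfy3 : Pp * h ≤ (m + 1) * (k * f y) := by
    have h1 := hmoved l hl.1
    have : k * (S * l.2 - Pp * l.1) = (k * S - Pp * t) * l.2 + Pp * h := by
      calc k * (S * l.2 - Pp * l.1) = k * S * l.2 - Pp * (k * l.1) := by ring
        _ = _ := by rw [el]; ring
    rw [this, hst, sub_self, zero_mul, zero_add] at h1
    exact h1
  -- the point `q`
  have hfq : f (emb q) = f y := le_antisymm (hy.2 _ hq.1) (hq.2 _ hy.1)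
  have hq1 := f_emb f q
  rw [hfq] at hq1
  have hq2 : (k : ℝ) * (((m + 1) * co f 0 - S) * q.1 + S * q.2) = Pp * h := by
    rw [← hq1]
    apply le_antisymm
    · have : (k : ℝ) * ((m + 1) * f y) = (m + 1) * (k * f y) := by ring
      rw [this]; exact hfy2
    · have : (k : ℝ) * ((m + 1) * f y) = (m + 1) * (k * f y) := by ring
      rw [this]; exact hfy3
  have hq3 := P.loK_b hk (by omega) hl hq.1
  by_contra hcon
  push Not at hcon
  have h5 : Pp * (((m : ℝ) + 1 - k) * q.1 + t * q.2) ≤ Pp * h :=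
    mul_le_mul_of_nonneg_left hq3 hPpos.le
  have h6 : (((m : ℝ) + 1 - k) * Pp - k * ((m + 1) * co f 0 - S)) * q.1 ≤ 0 := by
    have e1 : Pp * (((m : ℝ) + 1 - k) * q.1 + t * q.2)
        = ((m : ℝ) + 1 - k) * Pp * q.1 + (Pp * t) * q.2 := by ring
    have e2 : (k : ℝ) * (((m + 1) * co f 0 - S) * q.1 + S * q.2)
        = k * ((m + 1) * co f 0 - S) * q.1 + (k * S) * q.2 := by ring
    rw [e1, ← hst] at h5
    rw [e2] at hq2
    linarith
  have h7 : ((m : ℝ) + 1 - k) * Pp - k * ((m + 1) * co f 0 - S) ≤ 0 := by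
    by_contra hc
    push Not at hc
    have := mul_pos hc hcon
    linarith
  -- `(m+1) Pp ≤ k (m+1) (co f 0 - co f j)`
  have h8 : ((m : ℝ) + 1) * Pp ≤ (m + 1) * (k * (co f 0 - co f j)) := by
    have : ((m : ℝ) + 1 - k) * Pp - k * ((m + 1) * co f 0 - S)
        = (m + 1) * Pp - (m + 1) * (k * (co f 0 - co f j)) := by
      rw [hPp]; ring
    linarith
  have h9 : Pp ≤ k * (co f 0 - co f j) := le_of_mul_le_mul_left h8 hm
  nlinarith

end KD

end Pm

end Pool.Agent.Lib.MP_5e7226_co
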