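import Pool.Agent.Lib.MP_5e7226_co.PermKD

set_option autoImplicit false
set_option linter.unusedSectionVars false

open Set Filter Topology

namespace Pool.Agent.Lib.MP_5e7226_co

namespace PD

lemma mirror_mirror (P : PD) : P.mirror.mirror = P := by
  cases P
  simp [mirror]

lemma Good.mirror {P : PD} {s₁ s₂ : ℝ} (h : P.Good s₁ s₂) : P.mirror.Good (-s₂) (-s₁) := by
  apply P.mirror.good_of_mirror
  rw [mirror_mirror, neg_neg, neg_neg]
  exact h

end PD

namespace Pm

variable {m : ℕ}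

lemma cover_fixed {K : Set (Fin (m + 1) → ℝ)} (hK : IsCompact K)
    {f₀ : (Fin (m + 1) → ℝ) →L[ℝ] ℝ} (G : (Fin (m + 1) → ℝ) →L[ℝ] ℝ)
    (h : ∀ x ∈ face K f₀, 0 < G x) :
    ∀ᶠ z : ℝ × ((Fin (m + 1) → ℝ) →L[ℝ] ℝ) in 𝓝 (0, f₀), ∀ x ∈ face K z.2, 0 < G x := by
  apply eventually_face hK (0 : ℝ) f₀ (fun _ _ x => 0 < G x)
  intro x hx
  have hc : Continuous (fun z : (ℝ × ((Fin (m + 1) → ℝ) →L[ℝ] ℝ)) × (Fin (m + 1) → ℝ) => G z.2) :=
    G.continuous.comp continuous_snd
  have := (hc.continuousAt (x := (((0 : ℝ), f₀), x))).eventually (lt_mem_nhds (h x hx))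
  filter_upwards [this] with z hz _ using hz

lemma cover_lex {K : Set (Fin (m + 1) → ℝ)} (hK : IsCompact K)
    {f₀ : (Fin (m + 1) → ℝ) →L[ℝ] ℝ} (G H : (Fin (m + 1) → ℝ) →L[ℝ] ℝ)
    (hG : ∀ᶠ z : ℝ × ((Fin (m + 1) → ℝ) →L[ℝ] ℝ) in 𝓝 (0, f₀), ∀ x ∈ face K z.2, 0 ≤ G x)
    (h0 : ∀ x ∈ face K f₀, G x = 0 → 0 < H x) :
    ∀ᶠ z : ℝ × ((Fin (m + 1) → ℝ) →L[ℝ] ℝ) in 𝓝 (0, f₀), 0 < z.1 →
      ∀ x ∈ face K z.2, 0 < G x + z.1 * H x := by
  have h1 := eventually_face hK (0 : ℝ) f₀ (fun ε _ x => 0 < ε → 0 ≤ G x → 0 < G x + ε * H x) (by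
    intro x hx
    have hGx : 0 ≤ G x := hG.self_of_nhds x hx
    rcases hGx.eq_or_lt with h2 | h2
    · have h3 := h0 x hx h2.symm
      have hc : Continuous (fun z : (ℝ × ((Fin (m + 1) → ℝ) →L[ℝ] ℝ)) × (Fin (m + 1) → ℝ) =>
          H z.2) := H.continuous.comp continuous_snd
      have := (hc.continuousAt (x := (((0 : ℝ), f₀), x))).eventually (lt_mem_nhds h3)
      filter_upwards [this] with z hz _ hpos hge
      have := mul_pos hpos hz
      linarith
    · have hc : Continuous (fun z : (ℝ × ((Fin (m + 1) → ℝ) →L[ℝ] ℝ)) × (Fin (m + 1) → ℝ) =>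
          G z.2 + z.1.1 * H z.2) := by fun_prop
      have h4 : 0 < (fun z : (ℝ × ((Fin (m + 1) → ℝ) →L[ℝ] ℝ)) × (Fin (m + 1) → ℝ) =>
          G z.2 + z.1.1 * H z.2) (((0 : ℝ), f₀), x) := by simpa using h2
      have := (hc.continuousAt (x := (((0 : ℝ), f₀), x))).eventually (lt_mem_nhds h4)
      filter_upwards [this] with z hz _ _ _ using hz)
  filter_upwards [h1, hG] with z hz1 hz2 hpos x hx
  exact hz1 x hx hpos (hz2 x hx)

lemma eventually_order (f₀ : (Fin (m + 1) → ℝ) →L[ℝ] ℝ) :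
    ∀ᶠ z : ℝ × ((Fin (m + 1) → ℝ) →L[ℝ] ℝ) in 𝓝 (0, f₀), ∀ i j, co f₀ j < co f₀ i →
      co z.2 j < co z.2 i := by
  rw [eventually_all]
  intro i
  rw [eventually_all]
  intro j
  by_cases h : co f₀ j < co f₀ i
  · have hc1 : Continuous (fun z : ℝ × ((Fin (m + 1) → ℝ) →L[ℝ] ℝ) => co z.2 j) :=
      continuous_eval.comp (continuous_snd.prodMk continuous_const)
    have hc2 : Continuous (fun z : ℝ × ((Fin (m + 1) → ℝ) →L[ℝ] ℝ) => co z.2 i) :=
      continuous_eval.comp (continuous_snd.prodMk continuous_const)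
    have := (hc1.continuousAt (x := ((0 : ℝ), f₀))).eventually_lt
      (hc2.continuousAt (x := ((0 : ℝ), f₀))) h
    filter_upwards [this] with z hz _ using hz
  · exact Eventually.of_forall fun z hz => absurd hz h

/-- nonnegativity of the transverse coordinate -/
lemma Xf_nonneg (hm : 0 < m) {y : Fin (m + 1) → ℝ} (h : ∀ i : Fin m, y i.succ ≤ y 0) :
    0 ≤ Xf m y := by
  rw [Xf_apply]
  have h1 : ∑ i : Fin m, y i.succ ≤ m * y 0 := by
    have := Finset.sum_le_card_nsmul (Finset.univ : Finset (Fin m)) (fun i => y i.succ) (y 0)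
      (fun i _ => h i)
    simpa using this
  have h2 : (0 : ℝ) < m := by exact_mod_cast hm
  have h3 : 1 / (m : ℝ) * ∑ i : Fin m, y i.succ ≤ 1 / m * (m * y 0) :=
    mul_le_mul_of_nonneg_left h1 (by positivity)
  have h4 : 1 / (m : ℝ) * (m * y 0) = y 0 := by field_simp
  linarith

lemma of_Xf_zero (hm : 0 < m) {y : Fin (m + 1) → ℝ} (h : ∀ i : Fin m, y i.succ ≤ y 0)
    (h0 : Xf m y = 0) : y = emb ((0 : ℝ), Zf m y) := by
  have h2 : (0 : ℝ) < m := by exact_mod_cast hm
  have h1 : ∀ i : Fin m, y i.succ = y 0 := by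
    rw [Xf_apply] at h0
    have h3 : ∑ i : Fin m, (y 0 - y i.succ) = 0 := by
      rw [Finset.sum_sub_distrib]
      simp only [Finset.sum_const, Finset.card_univ, Fintype.card_fin, nsmul_eq_mul]
      have : ∑ i : Fin m, y i.succ = m * y 0 := by
        have h4 : (m : ℝ) * (1 / m * ∑ i : Fin m, y i.succ) = m * y 0 := by
          rw [show 1 / (m : ℝ) * ∑ i : Fin m, y i.succ = y 0 by linarith]
        rw [← h4]
        field_simp
      linarith
    intro i
    have := (Finset.sum_eq_zero_iff_of_nonneg (fun i _ => sub_nonneg.mpr (h i))).mp h3 i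
      (Finset.mem_univ i)
    linarith
  have := eq_emb hm h1
  rwa [h0] at this

lemma Xf_nonpos (hm : 0 < m) {y : Fin (m + 1) → ℝ} (h : ∀ i : Fin m, y 0 ≤ y i.succ) :
    Xf m y ≤ 0 := by
  have := Xf_nonneg hm (y := -y) (fun i => neg_le_neg (h i))
  rw [map_neg] at this
  linarith

lemma of_Xf_zero' (hm : 0 < m) {y : Fin (m + 1) → ℝ} (h : ∀ i : Fin m, y 0 ≤ y i.succ)
    (h0 : Xf m y = 0) : y = emb ((0 : ℝ), Zf m y) := by
  have := of_Xf_zero hm (y := -y) (fun i => neg_le_neg (h i)) (by rw [map_neg, h0, neg_zero])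
  rw [map_neg] at this
  have h2 : (emb ((0 : ℝ), -Zf m y) : Fin (m + 1) → ℝ) = -emb ((0 : ℝ), Zf m y) := by
    rw [← emb_neg]; simp
  rw [h2] at this
  exact neg_injective this

namespace KD

open Classical in
/-- the family of functionals -/
noncomputable def Fam (P : KD m) (s₁ s₂ : ℕ → ℝ) (ε : ℝ) (i : Finset (Fin m) × Bool) :
    (Fin (m + 1) → ℝ) →L[ℝ] ℝ :=
  if i.1 = ∅ then
    (if i.2 then Xf m + ε • Zf m else if P.dn then Xf m - ε • Zf m else -Zf m)
  else if i.1 = Finset.univ then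
    (if i.2 then (if P.up then -Xf m + ε • Zf m else Zf m) else -Xf m - ε • Zf m)
  else if i.2 then W i.1 + ε • (s₁ i.1.card • Xf m + Zf m)
  else W i.1 + ε • (s₂ i.1.card • Xf m - Zf m)

variable (P : KD m) (s₁ s₂ : ℕ → ℝ) (ε : ℝ)

lemma Fam_e1 (y : Fin (m + 1) → ℝ) : P.Fam s₁ s₂ ε (∅, true) y = Xf m y + ε * Zf m y := by
  simp [Fam]

lemma Fam_e2 (h : P.dn) (y : Fin (m + 1) → ℝ) :
    P.Fam s₁ s₂ ε (∅, false) y = Xf m y - ε * Zf m y := by
  simp [Fam, h]

lemma Fam_e3 (h : ¬ P.dn) (y : Fin (m + 1) → ℝ) : P.Fam s₁ s₂ ε (∅, false) y = -Zf m y := by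
  simp [Fam, h]

lemma univ_ne (hm : 0 < m) : (Finset.univ : Finset (Fin m)) ≠ ∅ := by
  have : Nonempty (Fin m) := ⟨⟨0, hm⟩⟩
  exact Finset.univ_nonempty.ne_empty

lemma Fam_u1 (hm : 0 < m) (h : P.up) (y : Fin (m + 1) → ℝ) :
    P.Fam s₁ s₂ ε (Finset.univ, true) y = -Xf m y + ε * Zf m y := by
  simp [Fam, h, univ_ne hm]

lemma Fam_u2 (hm : 0 < m) (h : ¬ P.up) (y : Fin (m + 1) → ℝ) :
    P.Fam s₁ s₂ ε (Finset.univ, true) y = Zf m y := by
  simp [Fam, h, univ_ne hm]

lemma Fam_u3 (hm : 0 < m) (y : Fin (m + 1) → ℝ) :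
    P.Fam s₁ s₂ ε (Finset.univ, false) y = -Xf m y - ε * Zf m y := by
  simp [Fam, univ_ne hm]

lemma Fam_m1 {A : Finset (Fin m)} (h1 : A ≠ ∅) (h2 : A ≠ Finset.univ) (y : Fin (m + 1) → ℝ) :
    P.Fam s₁ s₂ ε (A, true) y = W A y + ε * (s₁ A.card * Xf m y + Zf m y) := by
  simp [Fam, h1, h2]
  ring

lemma Fam_m2 {A : Finset (Fin m)} (h1 : A ≠ ∅) (h2 : A ≠ Finset.univ) (y : Fin (m + 1) → ℝ) :
    P.Fam s₁ s₂ ε (A, false) y = W A y + ε * (s₂ A.card * Xf m y - Zf m y) := by
  simp [Fam, h1, h2]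

/-- behaviour under reflection -/
lemma Fam_neg (hm : 0 < m) (A : Finset (Fin m)) (σ : Bool) (y : Fin (m + 1) → ℝ) :
    P.neg.Fam (fun k => -s₂ (m - k)) (fun k => -s₁ (m - k)) ε (Aᶜ, !σ) (-y)
      = P.Fam s₁ s₂ ε (A, σ) y := by
  by_cases h1 : A = ∅
  · subst h1
    rw [Finset.compl_empty]
    cases σ
    · rw [Bool.not_false]
      by_cases hd : P.dn
      · rw [Fam_u1 _ _ _ _ hm ((up_neg P).mpr hd), Fam_e2 _ _ _ _ hd, map_neg, map_neg]
        ring
      · rw [Fam_u2 _ _ _ _ hm (fun h => hd ((up_neg P).mp h)), Fam_e3 _ _ _ _ hd, map_neg]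
    · rw [Bool.not_true, Fam_u3 _ _ _ _ hm, Fam_e1, map_neg, map_neg]
      ring
  · by_cases h2 : A = Finset.univ
    · subst h2
      rw [Finset.compl_univ]
      cases σ
      · rw [Bool.not_false, Fam_e1, Fam_u3 _ _ _ _ hm, map_neg, map_neg]
        ring
      · rw [Bool.not_true]
        by_cases hd : P.up
        · rw [Fam_e2 _ _ _ _ ((dn_neg P).mpr hd), Fam_u1 _ _ _ _ hm hd, map_neg, map_neg]
          ring
        · rw [Fam_e3 _ _ _ _ (fun h => hd ((dn_neg P).mp h)), Fam_u2 _ _ _ _ hm hd, map_neg]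
          ring
    · have h3 : Aᶜ ≠ ∅ := fun h => h2 (Finset.compl_eq_empty_iff _ |>.mp h)
      have h4 : Aᶜ ≠ Finset.univ := fun h => h1 (Finset.compl_eq_univ_iff _ |>.mp h)
      have h5 : m - Aᶜ.card = A.card := by
        have := Finset.card_add_card_compl A
        rw [Fintype.card_fin] at this
        omega
      cases σ
      · rw [Bool.not_false, Fam_m1 _ _ _ _ h3 h4, Fam_m2 _ _ _ _ h1 h2, W_neg, map_neg, map_neg, h5]
        ring
      · rw [Bool.not_true, Fam_m2 _ _ _ _ h3 h4, Fam_m1 _ _ _ _ h1 h2, W_neg, map_neg, map_neg, h5]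
        ring

/-- the local covering property -/
def Cov (f₀ : (Fin (m + 1) → ℝ) →L[ℝ] ℝ) : Prop :=
  ∀ᶠ z : ℝ × ((Fin (m + 1) → ℝ) →L[ℝ] ℝ) in 𝓝 (0, f₀), 0 < z.1 →
    ∃ i, ∀ y ∈ face P.K z.2, 0 < P.Fam s₁ s₂ z.1 i y

variable {P s₁ s₂}

lemma face_neg {f : (Fin (m + 1) → ℝ) →L[ℝ] ℝ} {y : Fin (m + 1) → ℝ} (h : y ∈ face P.K f) :
    -y ∈ face P.neg.K (-f) := by
  refine ⟨?_, ?_⟩
  · change -y ∈ -P.K
    rw [Set.neg_mem_neg]
    exact h.1
  · intro z hz
    have hz' : -z ∈ P.K := hz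
    have := h.2 _ hz'
    rw [map_neg] at this
    change -f z ≤ -f (-y)
    rw [map_neg]
    linarith

lemma Cov.of_neg (hm : 0 < m) {f₀ : (Fin (m + 1) → ℝ) →L[ℝ] ℝ}
    (h : P.neg.Cov (fun k => -s₂ (m - k)) (fun k => -s₁ (m - k)) (-f₀)) : P.Cov s₁ s₂ f₀ := by
  have hc : Filter.Tendsto (fun z : ℝ × ((Fin (m + 1) → ℝ) →L[ℝ] ℝ) => (z.1, -z.2)) (𝓝 (0, f₀))
      (𝓝 (0, -f₀)) := by
    have : Continuous (fun z : ℝ × ((Fin (m + 1) → ℝ) →L[ℝ] ℝ) => (z.1, -z.2)) := by fun_prop
    exact this.tendsto (0, f₀)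
  filter_upwards [hc.eventually h] with z hz hpos
  obtain ⟨⟨A, σ⟩, hi⟩ := hz hpos
  refine ⟨(Aᶜ, !σ), fun y hy => ?_⟩
  have := hi (-y) (face_neg hy)
  rw [← Fam_neg _ _ _ _ hm, compl_compl, Bool.not_not]
  exact this

/-- good slopes at all levels -/
def GoodAll (P : KD m) (s₁ s₂ : ℕ → ℝ) : Prop :=
  ∀ (k : ℕ) (hk : 1 ≤ k) (hk' : k + 1 ≤ m), (P.pd k hk hk').Good (s₁ k) (s₂ k)

lemma exists_goodAll (P : KD m) : ∃ s₁ s₂, P.GoodAll s₁ s₂ := by
  classical
  have h : ∀ k : ℕ, ∃ s : ℝ × ℝ, ∀ (hk : 1 ≤ k) (hk' : k + 1 ≤ m), (P.pd k hk hk').Good s.1 s.2 := by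
    intro k
    by_cases hk : 1 ≤ k ∧ k + 1 ≤ m
    · obtain ⟨s₁, s₂, h⟩ := PD.exists_good (P.pd k hk.1 hk.2)
      exact ⟨(s₁, s₂), fun _ _ => h⟩
    · exact ⟨(0, 0), fun h1 h2 => absurd ⟨h1, h2⟩ hk⟩
  choose s hs using h
  exact ⟨fun k => (s k).1, fun k => (s k).2, fun k hk hk' => hs k hk hk'⟩

lemma GoodAll.neg (h : P.GoodAll s₁ s₂) :
    P.neg.GoodAll (fun k => -s₂ (m - k)) (fun k => -s₁ (m - k)) := by
  intro k hk hk'
  obtain ⟨j, rfl, hj1, hj2⟩ : ∃ j, k = m - j ∧ 1 ≤ j ∧ j + 1 ≤ m := ⟨m - k, by omega, by omega, by omega⟩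
  rw [P.pd_neg j hj1 hj2]
  have h1 := (h j hj1 hj2).mirror
  have h2 : m - (m - j) = j := by omega
  simp only [h2]
  exact h1

/-- axis points of a face -/
lemma axis_val (f : (Fin (m + 1) → ℝ) →L[ℝ] ℝ) (z : ℝ) :
    ((m : ℝ) + 1) * f (emb ((0 : ℝ), z)) = (∑ i, co f i) * z := by
  rw [f_emb]
  ring

lemma axis_sign {f : (Fin (m + 1) → ℝ) →L[ℝ] ℝ} (hf : f ≠ 0) {z : ℝ}
    (h : emb ((0 : ℝ), z) ∈ face P.K f) : 0 < (∑ i, co f i) * z := by
  have h1 := pos_of_face P.zero_int hf h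
  rw [← axis_val]
  positivity

lemma north_mem {f : (Fin (m + 1) → ℝ) →L[ℝ] ℝ} (hf : f ≠ 0) {z : ℝ}
    (h : emb ((0 : ℝ), z) ∈ face P.K f) (hz : 0 < z) : emb ((0 : ℝ), P.ν) ∈ face P.K f := by
  have h1 := axis_sign hf h
  have hS : 0 < ∑ i, co f i := by
    by_contra hcon
    push Not at hcon
    nlinarith
  refine ⟨P.memN, fun y hy => (h.2 y hy).trans ?_⟩
  have h2 : z ≤ P.ν := by
    have := (P.bnd _ h.1).2
    rwa [Zf_emb] at this
  have h3 : ((m : ℝ) + 1) * f (emb ((0 : ℝ), z)) ≤ (m + 1) * f (emb ((0 : ℝ), P.ν)) := by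
    rw [axis_val, axis_val]
    exact mul_le_mul_of_nonneg_left h2 hS.le
  exact le_of_mul_le_mul_left h3 (by positivity)

/-- covering by the functional of a cut, plus sign -/
lemma cov_plus {f₀ : (Fin (m + 1) → ℝ) →L[ℝ] ℝ} {A : Finset (Fin m)} (hA : A.Nonempty)
    (hA' : Aᶜ.Nonempty) (hm : 0 < m) (hcut : ∀ i ∈ A, ∀ j ∈ Aᶜ, co f₀ j.succ < co f₀ i.succ)
    (hH : ∀ p, emb p ∈ face P.K f₀ → 0 < s₁ A.card * p.1 + p.2) : P.Cov s₁ s₂ f₀ := by
  have hG : ∀ᶠ z : ℝ × ((Fin (m + 1) → ℝ) →L[ℝ] ℝ) in 𝓝 (0, f₀), ∀ x ∈ face P.K z.2, 0 ≤ W A x := by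
    filter_upwards [eventually_order f₀] with z hz x hx
    exact W_nonneg fun i hi j hj => ordered P.inv hx (hz _ _ (hcut i hi j hj))
  have h0 : ∀ x ∈ face P.K f₀, W A x = 0 → 0 < (s₁ A.card • Xf m + Zf m) x := by
    intro x hx hx0
    obtain ⟨c, hc⟩ := of_W_zero hA hA' (fun i hi j hj => ordered P.inv hx (hcut i hi j hj)) hx0
    have h1 := eq_emb hm hc
    have h2 := hH (Xf m x, Zf m x) (by rwa [← h1])
    simpa using h2
  filter_upwards [cover_lex P.cpt (W A) (s₁ A.card • Xf m + Zf m) hG h0] with z hz hpos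
  refine ⟨(A, true), fun y hy => ?_⟩
  rw [Fam_m1 _ _ _ _ hA.ne_empty (by rintro rfl; simp at hA')]
  have := hz hpos y hy
  simpa using this

/-- covering by the functional of a cut, minus sign -/
lemma cov_minus {f₀ : (Fin (m + 1) → ℝ) →L[ℝ] ℝ} {A : Finset (Fin m)} (hA : A.Nonempty)
    (hA' : Aᶜ.Nonempty) (hm : 0 < m) (hcut : ∀ i ∈ A, ∀ j ∈ Aᶜ, co f₀ j.succ < co f₀ i.succ)
    (hH : ∀ p, emb p ∈ face P.K f₀ → 0 < s₂ A.card * p.1 - p.2) : P.Cov s₁ s₂ f₀ := by
  have hG : ∀ᶠ z : ℝ × ((Fin (m + 1) → ℝ) →L[ℝ] ℝ) in 𝓝 (0, f₀), ∀ x ∈ face P.K z.2, 0 ≤ W A x := by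
    filter_upwards [eventually_order f₀] with z hz x hx
    exact W_nonneg fun i hi j hj => ordered P.inv hx (hz _ _ (hcut i hi j hj))
  have h0 : ∀ x ∈ face P.K f₀, W A x = 0 → 0 < (s₂ A.card • Xf m - Zf m) x := by
    intro x hx hx0
    obtain ⟨c, hc⟩ := of_W_zero hA hA' (fun i hi j hj => ordered P.inv hx (hcut i hi j hj)) hx0
    have h1 := eq_emb hm hc
    have h2 := hH (Xf m x, Zf m x) (by rwa [← h1])
    simpa using h2
  filter_upwards [cover_lex P.cpt (W A) (s₂ A.card • Xf m - Zf m) hG h0] with z hz hpos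
  refine ⟨(A, false), fun y hy => ?_⟩
  rw [Fam_m2 _ _ _ _ hA.ne_empty (by rintro rfl; simp at hA')]
  have := hz hpos y hy
  simpa using this

/-- mixed functionals -/
lemma cov_mixed (hm : 0 < m) {f₀ : (Fin (m + 1) → ℝ) →L[ℝ] ℝ} (hf₀ : f₀ ≠ 0)
    (h1 : ∃ i, co f₀ 0 < co f₀ i) (h2 : ∃ i, co f₀ i < co f₀ 0) : P.Cov s₁ s₂ f₀ := by
  classical
  obtain ⟨i, hi⟩ := h1
  obtain ⟨j, hj⟩ := h2
  obtain ⟨a, rfl⟩ := Fin.exists_succ_eq.mpr (fun h : i = 0 => by subst h; exact lt_irrefl _ hi)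
  obtain ⟨b, rfl⟩ := Fin.exists_succ_eq.mpr (fun h : j = 0 => by subst h; exact lt_irrefl _ hj)
  let A : Finset (Fin m) := Finset.univ.filter fun i => co f₀ 0 < co f₀ i.succ
  have hAmem : ∀ i, i ∈ A ↔ co f₀ 0 < co f₀ i.succ := by intro i; simp [A]
  have hA : A.Nonempty := ⟨a, (hAmem a).mpr hi⟩
  have hbA : b ∈ Aᶜ := by rw [Finset.mem_compl, hAmem, not_lt]; exact hj.le
  have hA' : Aᶜ.Nonempty := ⟨b, hbA⟩
  have hcut : ∀ i ∈ A, ∀ j ∈ Aᶜ, co f₀ j.succ < co f₀ i.succ := by
    intro i hi j hj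
    rw [Finset.mem_compl, hAmem, not_lt] at hj
    exact hj.trans_lt ((hAmem i).mp hi)
  have hT : ∀ p, emb p ∈ face P.K f₀ → p.1 = 0 ∧ 0 < (∑ i, co f₀ i) * p.2 := by
    intro p hp
    have e1 := ordered P.inv hp hi
    have e2 := ordered P.inv hp hj
    rw [emb_zero_idx, emb_succ] at e1 e2
    have hm1 : (0 : ℝ) < m + 1 := by positivity
    have e3 : (p.2 + m * p.1) / (m + 1) = (p.2 - p.1) / (m + 1) := le_antisymm e1 e2
    rw [div_left_inj' hm1.ne'] at e3
    have e4 : ((m : ℝ) + 1) * p.1 = 0 := by linarith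
    have e5 : p.1 = 0 := (mul_eq_zero.mp e4).resolve_left hm1.ne'
    refine ⟨e5, ?_⟩
    have e6 : p = ((0 : ℝ), p.2) := Prod.ext e5 rfl
    rw [e6] at hp
    exact axis_sign hf₀ hp
  by_cases hS : 0 < ∑ i, co f₀ i
  · apply cov_plus hA hA' hm hcut
    intro p hp
    obtain ⟨e1, e2⟩ := hT p hp
    rw [e1, mul_zero, zero_add]
    by_contra hcon
    push Not at hcon
    nlinarith
  · push Not at hS
    apply cov_minus hA hA' hm hcut
    intro p hp
    obtain ⟨e1, e2⟩ := hT p hp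
    rw [e1, mul_zero, zero_sub]
    by_contra hcon
    push Not at hcon
    nlinarith

/-- the bottom class is the neutral index alone -/
lemma cov_bot (hgood : P.GoodAll s₁ s₂) (hm : 0 < m) {f₀ : (Fin (m + 1) → ℝ) →L[ℝ] ℝ}
    (hf₀ : f₀ ≠ 0) (h1 : ∀ i : Fin m, co f₀ 0 < co f₀ i.succ) : P.Cov s₁ s₂ f₀ := by
  classical
  have hm1 : (0 : ℝ) < m + 1 := by positivity
  have hG : ∀ᶠ z : ℝ × ((Fin (m + 1) → ℝ) →L[ℝ] ℝ) in 𝓝 (0, f₀), ∀ x ∈ face P.K z.2,
      0 ≤ (-Xf m) x := by
    filter_upwards [eventually_order f₀] with z hz x hx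
    have := Xf_nonpos hm (fun i => ordered P.inv hx (hz _ _ (h1 i)))
    change 0 ≤ -(Xf m x)
    linarith
  have haxis : ∀ x ∈ face P.K f₀, (-Xf m) x = 0 → x = emb ((0 : ℝ), Zf m x) := by
    intro x hx h0
    apply of_Xf_zero' hm (fun i => ordered P.inv hx (h1 i))
    change -(Xf m x) = 0 at h0
    linarith
  by_cases hN : emb ((0 : ℝ), P.ν) ∈ face P.K f₀
  · have hS : 0 < ∑ i, co f₀ i := by
      have := axis_sign hf₀ hN
      by_contra hcon
      push Not at hcon
      nlinarith [P.hν]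
    by_cases hup : P.up
    · have h0 : ∀ x ∈ face P.K f₀, (-Xf m) x = 0 → 0 < Zf m x := by
        intro x hx hx0
        have e1 := haxis x hx hx0
        have e2 : emb ((0 : ℝ), Zf m x) ∈ face P.K f₀ := by rwa [← e1]
        have e3 := axis_sign hf₀ e2
        by_contra hcon
        push Not at hcon
        nlinarith
      filter_upwards [cover_lex P.cpt (-Xf m) (Zf m) hG h0] with z hz hpos
      refine ⟨(Finset.univ, true), fun y hy => ?_⟩
      rw [Fam_u1 _ _ _ _ hm hup]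
      exact hz hpos y hy
    · by_cases hpos : ∀ y ∈ face P.K f₀, 0 < Zf m y
      · filter_upwards [cover_fixed P.cpt (Zf m) hpos] with z hz _
        refine ⟨(Finset.univ, true), fun y hy => ?_⟩
        rw [Fam_u2 _ _ _ _ hm hup]
        exact hz y hy
      · push Not at hpos
        obtain ⟨y, hy, hy0⟩ := hpos
        -- the slope
        set κ : ℝ := (∑ i, co f₀ i) - (m + 1) * co f₀ 0 with hκ
        have hκpos : 0 < κ := by
          have e1 : κ = ∑ i : Fin m, (co f₀ i.succ - co f₀ 0) := by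
            rw [hκ, Fin.sum_univ_succ, Finset.sum_sub_distrib]
            simp only [Finset.sum_const, Finset.card_univ, Fintype.card_fin, nsmul_eq_mul]
            ring
          rw [e1]
          have : Nonempty (Fin m) := ⟨⟨0, hm⟩⟩
          exact Finset.sum_pos (fun i _ => sub_pos.mpr (h1 i)) Finset.univ_nonempty
        set t : ℝ := (∑ i, co f₀ i) / κ with ht
        have hval : ∀ q : ℝ × ℝ, ((m : ℝ) + 1) * f₀ (emb q) = κ * (-q.1 + t * q.2) := by
          intro q
          have e1 : κ * t = ∑ i, co f₀ i := by rw [ht]; field_simp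
          have e2 : κ * (-q.1 + t * q.2) = -(κ * q.1) + (κ * t) * q.2 := by ring
          rw [e2, e1, f_emb, hκ]
          ring
        have hside : ∀ q : ℝ × ℝ, emb q ∈ P.K → -q.1 + t * q.2 ≤ t * P.ν := by
          intro q hq
          have e1 := mul_le_mul_of_nonneg_left (hN.2 _ hq) hm1.le
          rw [hval, hval] at e1
          have e2 := le_of_mul_le_mul_left e1 hκpos
          simpa using e2
        have hside' : ∀ q : ℝ × ℝ, emb q ∈ face P.K f₀ → -q.1 + t * q.2 = t * P.ν := by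
          intro q hq
          have e1 : f₀ (emb q) = f₀ (emb ((0 : ℝ), P.ν)) :=
            le_antisymm (hN.2 _ hq.1) (hq.2 _ hN.1)
          have e2 : κ * (-q.1 + t * q.2) = κ * (-(0 : ℝ) + t * P.ν) := by
            rw [← hval, e1, hval]
          have e3 := mul_left_cancel₀ hκpos.ne' e2
          linarith
        -- nonconstant coefficients
        have hnc : ∃ i j : Fin m, co f₀ i.succ < co f₀ j.succ := by
          by_contra hcon
          push Not at hcon
          have hc : ∀ i j : Fin m, co f₀ i.succ = co f₀ j.succ :=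
            fun i j => le_antisymm (hcon j i) (hcon i j)
          obtain ⟨z, hz, hz1, hz2⟩ := avg P.cpt P.conv P.inv hy.1
            ((Finset.univ : Finset (Fin (m + 1))).erase 0)
          have hcard : (((Finset.univ : Finset (Fin (m + 1))).erase 0).card : ℝ) = m := by
            rw [Finset.card_erase_of_mem (Finset.mem_univ _)]
            simp
          have hmr : (0 : ℝ) < m := by exact_mod_cast hm
          have hzs : ∀ i : Fin m, z i.succ = (∑ j : Fin m, y j.succ) / m := by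
            intro i
            have e1 := hz2 i.succ (by simp [Fin.succ_ne_zero])
            rw [hcard] at e1
            have e2 : ∑ j ∈ (Finset.univ : Finset (Fin (m + 1))).erase 0, y j
                = ∑ j : Fin m, y j.succ := by
              have e3 := Finset.add_sum_erase (Finset.univ : Finset (Fin (m + 1))) y
                (Finset.mem_univ 0)
              rw [Fin.sum_univ_succ] at e3
              linarith
            rw [e2] at e1
            rw [eq_div_iff hmr.ne']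
            linarith
          have hz0 : z 0 = y 0 := hz1 0 (by simp)
          have hzsum : ∑ i : Fin m, z i.succ = ∑ i : Fin m, y i.succ := by
            rw [Finset.sum_congr rfl (fun i _ => hzs i)]
            simp only [Finset.sum_const, Finset.card_univ, Fintype.card_fin, nsmul_eq_mul]
            field_simp
          have hZ : Zf m z = Zf m y := by
            rw [Zf_apply, Zf_apply, Fin.sum_univ_succ, Fin.sum_univ_succ, hzsum, hz0]
          have hfz : f₀ z = f₀ y := by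
            rw [f_rep, f_rep, Fin.sum_univ_succ, Fin.sum_univ_succ, hz0]
            congr 1
            let i0 : Fin m := ⟨0, hm⟩
            rw [Finset.sum_congr rfl (fun i _ => by rw [hc i i0] :
                ∀ i ∈ (Finset.univ : Finset (Fin m)), z i.succ * co f₀ i.succ
                  = z i.succ * co f₀ i0.succ),
              Finset.sum_congr rfl (fun i _ => by rw [hc i i0] :
                ∀ i ∈ (Finset.univ : Finset (Fin m)), y i.succ * co f₀ i.succ
                  = y i.succ * co f₀ i0.succ), ← Finset.sum_mul, ← Finset.sum_mul, hzsum]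
          have hze := eq_emb hm hzs
          have hzface : z ∈ face P.K f₀ := ⟨hz, fun w hw => by rw [hfz]; exact hy.2 w hw⟩
          rw [hze] at hzface
          apply hup
          left
          refine ⟨t, hside, _, hzface.1, ?_, hside' _ hzface⟩
          simp only
          rw [hZ]
          exact hy0
        obtain ⟨i0, j0, hij⟩ := hnc
        obtain ⟨b, -, hb⟩ := Finset.exists_min_image (Finset.univ : Finset (Fin m))
          (fun i => co f₀ i.succ) ⟨i0, Finset.mem_univ _⟩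
        let A : Finset (Fin m) := Finset.univ.filter fun i => co f₀ b.succ < co f₀ i.succ
        have hAmem : ∀ i, i ∈ A ↔ co f₀ b.succ < co f₀ i.succ := by intro i; simp [A]
        have hA : A.Nonempty :=
          ⟨j0, (hAmem j0).mpr ((hb i0 (Finset.mem_univ _)).trans_lt hij)⟩
        have hA' : Aᶜ.Nonempty := ⟨b, by rw [Finset.mem_compl, hAmem]; exact lt_irrefl _⟩
        have hcut : ∀ i ∈ A, ∀ j ∈ Aᶜ, co f₀ j.succ < co f₀ i.succ := by
          intro i hi j hj
          rw [Finset.mem_compl, hAmem, not_lt] at hj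
          exact hj.trans_lt ((hAmem i).mp hi)
        have hk : 1 ≤ A.card := Finset.card_pos.mpr hA
        have hk' : A.card + 1 ≤ m := by
          have e1 := Finset.card_add_card_compl A
          rw [Fintype.card_fin] at e1
          have e2 := Finset.card_pos.mpr hA'
          omega
        apply cov_plus hA hA' hm hcut
        intro p hp
        exact (hgood A.card hk hk').2.2.1 hup t hside p hp.1 (hside' p hp)
  · have h0 : ∀ x ∈ face P.K f₀, (-Xf m) x = 0 → 0 < (-Zf m) x := by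
      intro x hx hx0
      have e1 := haxis x hx hx0
      have e2 : emb ((0 : ℝ), Zf m x) ∈ face P.K f₀ := by rwa [← e1]
      have e3 := axis_sign hf₀ e2
      change 0 < -(Zf m x)
      rcases lt_trichotomy (Zf m x) 0 with e4 | e4 | e4
      · linarith
      · rw [e4] at e3; simp at e3
      · exact absurd (north_mem hf₀ e2 e4) hN
    filter_upwards [cover_lex P.cpt (-Xf m) (-Zf m) hG h0] with z hz hpos
    refine ⟨(Finset.univ, false), fun y hy => ?_⟩
    rw [Fam_u3 _ _ _ _ hm]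
    have := hz hpos y hy
    change 0 < -(Xf m y) + z.1 * -(Zf m y) at this
    linarith

/-- the neutral index in a bottom class of size at least two -/
lemma cov_low (hgood : P.GoodAll s₁ s₂) (hm : 0 < m) {f₀ : (Fin (m + 1) → ℝ) →L[ℝ] ℝ}
    (h1 : ∀ i, co f₀ 0 ≤ co f₀ i) (h2 : ∃ i : Fin m, co f₀ 0 < co f₀ i.succ)
    (h3 : ∃ i : Fin m, co f₀ i.succ = co f₀ 0) : P.Cov s₁ s₂ f₀ := by
  classical
  let A : Finset (Fin m) := Finset.univ.filter fun i => co f₀ 0 < co f₀ i.succ
  have hAmem : ∀ i, i ∈ A ↔ co f₀ 0 < co f₀ i.succ := by intro i; simp [A]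
  have hA : A.Nonempty := by
    obtain ⟨a, ha⟩ := h2
    exact ⟨a, (hAmem a).mpr ha⟩
  have hA' : Aᶜ.Nonempty := by
    obtain ⟨b, hb⟩ := h3
    exact ⟨b, by rw [Finset.mem_compl, hAmem, hb]; exact lt_irrefl _⟩
  have hcut : ∀ i ∈ A, ∀ j ∈ Aᶜ, co f₀ j.succ < co f₀ i.succ := by
    intro i hi j hj
    rw [Finset.mem_compl, hAmem, not_lt] at hj
    exact hj.trans_lt ((hAmem i).mp hi)
  have hk : 1 ≤ A.card := Finset.card_pos.mpr hA
  have hcc := Finset.card_add_card_compl A
  rw [Fintype.card_fin] at hcc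
  have hk' : A.card + 1 ≤ m := by
    have e2 := Finset.card_pos.mpr hA'
    omega
  -- the lifted set
  set A₁ : Finset (Fin (m + 1)) := A.map (Fin.succEmb m) with hA₁
  have hA₁mem : ∀ i : Fin m, i.succ ∈ A₁ ↔ i ∈ A := by intro i; simp [hA₁]
  have hA₁zero : (0 : Fin (m + 1)) ∉ A₁ := by simp [hA₁, Fin.succ_ne_zero]
  have hA₁card : A₁.card = A.card := by simp [hA₁]
  obtain ⟨t, ht⟩ := P.lo_of_low (f := f₀) (A := A₁) (hA.map)
    (by
      intro i hi
      refine Fin.cases (fun _ => rfl) (fun k hk => ?_) i hi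
      rw [hA₁mem, hAmem, not_lt] at hk
      exact le_antisymm hk (h1 _))
    (by
      intro i hi
      refine Fin.cases (fun h => absurd h hA₁zero) (fun k hk => ?_) i hi
      rw [hA₁mem, hAmem] at hk
      exact hk)
  rw [hA₁card] at ht
  have hlo := (hgood A.card hk hk').1 t
  rcases hlo with h | h | ⟨hcross, hdn, hneg⟩
  · exact cov_plus hA hA' hm hcut fun p hp => h p (ht p hp)
  · exact cov_minus hA hA' hm hcut fun p hp => h p (ht p hp)
  · by_cases hmeet : ∃ y ∈ face P.K f₀, Zf m y = 0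
    · obtain ⟨y, hy, hy0⟩ := hmeet
      obtain ⟨t', p', q', c1, c2, c3, c4⟩ := hcross
      have hxpos : ∀ p, emb p ∈ face P.K f₀ → 0 ≤ p.1 := by
        intro p hp
        have hco : ∀ i, co (-f₀) i = -co f₀ i := fun i => rfl
        have h5 := P.neg.exempt (k := m - A.card) (by omega) (by omega) (t := -t') (l := -q')
          (r := -p') c2 c1 (by simpa using c4) (by simpa using c3) (f := -f₀)
          (by
            intro i
            rw [hco, hco]
            exact neg_le_neg (h1 i))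
          (by
            obtain ⟨a, ha⟩ := h2
            exact ⟨a.succ, by rw [hco, hco]; exact neg_lt_neg ha⟩)
          (by
            have e1 : A₁ᶜ ⊆ Finset.univ.filter fun i => co (-f₀) i = co (-f₀) 0 := by
              intro i hi
              rw [Finset.mem_compl] at hi
              simp only [Finset.mem_filter, Finset.mem_univ, true_and]
              rw [hco, hco, neg_inj]
              refine Fin.cases (fun _ => rfl) (fun k hk => ?_) i hi
              rw [hA₁mem, hAmem, not_lt] at hk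
              exact le_antisymm hk (h1 _)
            have e2 := Finset.card_le_card e1
            have e3 := Finset.card_add_card_compl A₁
            rw [Fintype.card_fin, hA₁card] at e3
            omega)
          (y := -y) (face_neg hy) (by rw [map_neg, hy0, neg_zero]) (q := -p)
          (by rw [emb_neg]; exact face_neg hp)
        simp only [Prod.fst_neg] at h5
        linarith
      apply cov_minus hA hA' hm hcut
      intro p hp
      have e1 : p.1 ≤ 0 := (P.pd A.card hk hk').lo_nonpos (ht p hp)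
      have e2 : p.1 = 0 := le_antisymm e1 (hxpos p hp)
      have e3 := hneg p (ht p hp)
      rw [e2]
      linarith
    · push Not at hmeet
      by_cases hall : ∀ y ∈ face P.K f₀, 0 < (-Zf m) y
      · filter_upwards [cover_fixed P.cpt (-Zf m) hall] with z hz _
        refine ⟨(∅, false), fun y hy => ?_⟩
        rw [Fam_e3 _ _ _ _ hdn]
        exact hz y hy
      · push Not at hall
        obtain ⟨y, hy, hy0⟩ := hall
        have hypos : 0 < Zf m y := by
          change -(Zf m y) ≤ 0 at hy0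
          exact lt_of_le_of_ne (by linarith) (Ne.symm (hmeet y hy))
        -- no touched points
        apply cov_plus hA hA' hm hcut
        intro p hp
        exfalso
        have e1 := hneg p (ht p hp)
        -- intermediate value on the segment
        set z : ℝ := Zf m y with hz
        have hpz : Zf m (emb p) = p.2 := Zf_emb p
        have hd : 0 < z - p.2 := by linarith
        set u : ℝ := -p.2 / (z - p.2) with hu
        have hu0 : 0 ≤ u := div_nonneg (by linarith) hd.le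
        have hu1 : u ≤ 1 := by rw [hu, div_le_one hd]; linarith
        have hw : (1 - u) • emb p + u • y ∈ face P.K f₀ := by
          refine ⟨P.conv hp.1 hy.1 (by linarith) hu0 (by ring), fun w hw => ?_⟩
          have e2 : f₀ (emb p) = f₀ y := le_antisymm (hy.2 _ hp.1) (hp.2 _ hy.1)
          rw [map_add, map_smul, map_smul, smul_eq_mul, smul_eq_mul, e2]
          have e3 := hy.2 w hw
          have e4 : (1 - u) * f₀ y + u * f₀ y = f₀ y := by ring
          rw [e4]
          exact e3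
        apply hmeet _ hw
        rw [map_add, map_smul, map_smul, smul_eq_mul, smul_eq_mul, hpz, ← hz]
        have e5 : u * (z - p.2) = -p.2 := by
          rw [hu]
          field_simp
        linarith

end KD

end Pm

end Pool.Agent.Lib.MP_5e7226_co
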