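import Pool.Agent.Lib.MP_5e7226_co.Basic

set_option autoImplicit false
set_option linter.unusedSectionVars false

open Set Filter Topology

namespace Pool.Agent.Lib.MP_5e7226_co

/-- Planar data: the section `D` of the body by the plane of points with equal coordinates outside
the neutral index, in coordinates `(x, Z)`, with the touched points of the two kinds. -/
structure PD where
  D : Set (ℝ × ℝ)
  a : ℝ
  b : ℝ
  ν : ℝ
  σ : ℝ
  x₁ : ℝ
  x₂ : ℝ
  Lo : ℝ → ℝ × ℝ → Prop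
  Hi : ℝ → ℝ × ℝ → Prop
  cpt : IsCompact D
  conv : Convex ℝ D
  ha : 0 < a
  hb : 0 < b
  hν : 0 < ν
  hσ : 0 < σ
  hx₁ : 0 < x₁
  hx₂ : 0 < x₂
  memN : ((0 : ℝ), ν) ∈ D
  memS : ((0 : ℝ), -σ) ∈ D
  memR : (x₁, (0 : ℝ)) ∈ D
  memL : (-x₂, (0 : ℝ)) ∈ D
  bnd : ∀ p ∈ D, -σ ≤ p.2 ∧ p.2 ≤ ν
  lo_mem : ∀ t p, Lo t p → p ∈ D
  lo_a : ∀ t p, Lo t p → ∀ q ∈ D, -(a * q.1) + t * q.2 ≤ -(a * p.1) + t * p.2
  lo_b : ∀ t p, Lo t p → ∀ q ∈ D, (b + 1) * q.1 + t * q.2 ≤ -(a * p.1) + t * p.2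
  lo_eq : ∀ t p q, Lo t p → q ∈ D → -(a * q.1) + t * q.2 = -(a * p.1) + t * p.2 → Lo t q
  hi_mem : ∀ t p, Hi t p → p ∈ D
  hi_b : ∀ t q, Hi t q → ∀ p ∈ D, b * p.1 + t * p.2 ≤ b * q.1 + t * q.2
  hi_a : ∀ t q, Hi t q → ∀ p ∈ D, -((a + 1) * p.1) + t * p.2 ≤ b * q.1 + t * q.2
  hi_eq : ∀ t p q, Hi t p → q ∈ D → b * q.1 + t * q.2 = b * p.1 + t * p.2 → Hi t q

namespace PD

/-- reflection in the origin -/
def mirror (P : PD) : PD where
  D := {p | -p ∈ P.D}
  a := P.b
  b := P.a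
  ν := P.σ
  σ := P.ν
  x₁ := P.x₂
  x₂ := P.x₁
  Lo := fun t p => P.Hi (-t) (-p)
  Hi := fun t p => P.Lo (-t) (-p)
  cpt := by
    have : {p | -p ∈ P.D} = -P.D := rfl
    rw [this]
    exact P.cpt.neg
  conv := by
    have : {p | -p ∈ P.D} = -P.D := rfl
    rw [this]
    exact P.conv.neg
  ha := P.hb
  hb := P.ha
  hν := P.hσ
  hσ := P.hν
  hx₁ := P.hx₂
  hx₂ := P.hx₁
  memN := by
    have := P.memS
    simpa using this
  memS := by
    have := P.memN
    simpa using this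
  memR := by
    have := P.memL
    simpa using this
  memL := by
    have := P.memR
    simpa using this
  bnd := by
    intro p hp
    have := P.bnd _ hp
    simp only [Prod.snd_neg] at this
    constructor <;> linarith [this.1, this.2]
  lo_mem := fun t p h => P.hi_mem _ _ h
  lo_a := by
    intro t p h q hq
    have := P.hi_b _ _ h _ hq
    simp only [Prod.snd_neg, Prod.fst_neg] at this
    linarith
  lo_b := by
    intro t p h q hq
    have := P.hi_a _ _ h _ hq
    simp only [Prod.snd_neg, Prod.fst_neg] at this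
    linarith
  lo_eq := by
    intro t p q h hq he
    apply P.hi_eq _ _ _ h hq
    simp only [Prod.snd_neg, Prod.fst_neg]
    linarith
  hi_mem := fun t p h => P.lo_mem _ _ h
  hi_b := by
    intro t p h q hq
    have := P.lo_a _ _ h _ hq
    simp only [Prod.snd_neg, Prod.fst_neg] at this
    linarith
  hi_a := by
    intro t p h q hq
    have := P.lo_b _ _ h _ hq
    simp only [Prod.snd_neg, Prod.fst_neg] at this
    linarith
  hi_eq := by
    intro t p q h hq he
    apply P.lo_eq _ _ _ h hq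
    simp only [Prod.snd_neg, Prod.fst_neg]
    linarith

variable (P : PD)

/-- a left edge from the top pole reaches the level zero -/
def Lp : Prop := ∃ t : ℝ, (∀ q ∈ P.D, -q.1 + t * q.2 ≤ t * P.ν) ∧
  ∃ p ∈ P.D, p.2 ≤ 0 ∧ -p.1 + t * p.2 = t * P.ν

/-- a right edge from the top pole reaches the level zero -/
def Rp : Prop := ∃ t : ℝ, (∀ q ∈ P.D, q.1 + t * q.2 ≤ t * P.ν) ∧
  ∃ p ∈ P.D, p.2 ≤ 0 ∧ p.1 + t * p.2 = t * P.ν

/-- a left edge from the bottom pole reaches the level zero -/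
def Lm : Prop := ∃ t : ℝ, (∀ q ∈ P.D, -q.1 + t * q.2 ≤ -(t * P.σ)) ∧
  ∃ p ∈ P.D, 0 ≤ p.2 ∧ -p.1 + t * p.2 = -(t * P.σ)

/-- a right edge from the bottom pole reaches the level zero -/
def Rm : Prop := ∃ t : ℝ, (∀ q ∈ P.D, q.1 + t * q.2 ≤ -(t * P.σ)) ∧
  ∃ p ∈ P.D, 0 ≤ p.2 ∧ p.1 + t * p.2 = -(t * P.σ)

def up : Prop := P.Lp ∨ P.Rp

def dn : Prop := P.Lm ∨ P.Rm

def loCross : Prop := ∃ t p q, P.Lo t p ∧ P.Lo t q ∧ p.2 < 0 ∧ 0 < q.2

def hiCross : Prop := ∃ t p q, P.Hi t p ∧ P.Hi t q ∧ p.2 < 0 ∧ 0 < q.2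

lemma mirror_Lp : P.mirror.Lp ↔ P.Rm := by
  constructor
  · rintro ⟨t, h, p, hp, hp2, he⟩
    refine ⟨-t, fun q hq => ?_, -p, hp, by simpa using hp2, ?_⟩
    · have := h (-q) (by simpa [mirror] using hq)
      simp only [Prod.snd_neg, Prod.fst_neg, mirror] at this
      linarith
    · simp only [Prod.snd_neg, Prod.fst_neg, mirror] at he ⊢
      linarith
  · rintro ⟨t, h, p, hp, hp2, he⟩
    refine ⟨-t, fun q hq => ?_, -p, by simpa [mirror] using hp, by simpa using hp2, ?_⟩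
    · have := h (-q) hq
      simp only [Prod.snd_neg, Prod.fst_neg, mirror] at this ⊢
      linarith
    · simp only [Prod.snd_neg, Prod.fst_neg, mirror] at he ⊢
      linarith

lemma mirror_Rp : P.mirror.Rp ↔ P.Lm := by
  constructor
  · rintro ⟨t, h, p, hp, hp2, he⟩
    refine ⟨-t, fun q hq => ?_, -p, hp, by simpa using hp2, ?_⟩
    · have := h (-q) (by simpa [mirror] using hq)
      simp only [Prod.snd_neg, Prod.fst_neg, mirror] at this
      linarith
    · simp only [Prod.snd_neg, Prod.fst_neg, mirror] at he ⊢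
      linarith
  · rintro ⟨t, h, p, hp, hp2, he⟩
    refine ⟨-t, fun q hq => ?_, -p, by simpa [mirror] using hp, by simpa using hp2, ?_⟩
    · have := h (-q) hq
      simp only [Prod.snd_neg, Prod.fst_neg, mirror] at this ⊢
      linarith
    · simp only [Prod.snd_neg, Prod.fst_neg, mirror] at he ⊢
      linarith

lemma mirror_Lm : P.mirror.Lm ↔ P.Rp := by
  constructor
  · rintro ⟨t, h, p, hp, hp2, he⟩
    refine ⟨-t, fun q hq => ?_, -p, hp, by simpa using hp2, ?_⟩
    · have := h (-q) (by simpa [mirror] using hq)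
      simp only [Prod.snd_neg, Prod.fst_neg, mirror] at this
      linarith
    · simp only [Prod.snd_neg, Prod.fst_neg, mirror] at he ⊢
      linarith
  · rintro ⟨t, h, p, hp, hp2, he⟩
    refine ⟨-t, fun q hq => ?_, -p, by simpa [mirror] using hp, by simpa using hp2, ?_⟩
    · have := h (-q) hq
      simp only [Prod.snd_neg, Prod.fst_neg, mirror] at this ⊢
      linarith
    · simp only [Prod.snd_neg, Prod.fst_neg, mirror] at he ⊢
      linarith

lemma mirror_Rm : P.mirror.Rm ↔ P.Lp := by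
  constructor
  · rintro ⟨t, h, p, hp, hp2, he⟩
    refine ⟨-t, fun q hq => ?_, -p, hp, by simpa using hp2, ?_⟩
    · have := h (-q) (by simpa [mirror] using hq)
      simp only [Prod.snd_neg, Prod.fst_neg, mirror] at this
      linarith
    · simp only [Prod.snd_neg, Prod.fst_neg, mirror] at he ⊢
      linarith
  · rintro ⟨t, h, p, hp, hp2, he⟩
    refine ⟨-t, fun q hq => ?_, -p, by simpa [mirror] using hp, by simpa using hp2, ?_⟩
    · have := h (-q) hq
      simp only [Prod.snd_neg, Prod.fst_neg, mirror] at this ⊢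
      linarith
    · simp only [Prod.snd_neg, Prod.fst_neg, mirror] at he ⊢
      linarith

lemma mirror_up : P.mirror.up ↔ P.dn := by
  unfold up dn
  rw [mirror_Lp, mirror_Rp]
  exact or_comm

lemma mirror_dn : P.mirror.dn ↔ P.up := by
  unfold up dn
  rw [mirror_Lm, mirror_Rm]
  exact or_comm

lemma mirror_loCross : P.mirror.loCross ↔ P.hiCross := by
  constructor
  · rintro ⟨t, p, q, h1, h2, h3, h4⟩
    exact ⟨-t, -q, -p, h2, h1, by simpa using h4, by simpa using h3⟩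
  · rintro ⟨t, p, q, h1, h2, h3, h4⟩
    exact ⟨-t, -q, -p, by simpa [mirror] using h2, by simpa [mirror] using h1,
      by simpa using h4, by simpa using h3⟩

lemma mirror_hiCross : P.mirror.hiCross ↔ P.loCross := by
  constructor
  · rintro ⟨t, p, q, h1, h2, h3, h4⟩
    exact ⟨-t, -q, -p, h2, h1, by simpa using h4, by simpa using h3⟩
  · rintro ⟨t, p, q, h1, h2, h3, h4⟩
    exact ⟨-t, -q, -p, by simpa [mirror] using h2, by simpa [mirror] using h1,
      by simpa using h4, by simpa using h3⟩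

/-- the requirement on the slopes for functionals with the neutral index at the bottom -/
def LowProp (s₁ s₂ : ℝ) : Prop := ∀ t : ℝ,
  (∀ p, P.Lo t p → 0 < s₁ * p.1 + p.2) ∨ (∀ p, P.Lo t p → 0 < s₂ * p.1 - p.2) ∨
    (P.hiCross ∧ ¬ P.dn ∧ ∀ p, P.Lo t p → p.2 < 0)

def HighProp (s₁ s₂ : ℝ) : Prop := ∀ t : ℝ,
  (∀ p, P.Hi t p → 0 < s₁ * p.1 + p.2) ∨ (∀ p, P.Hi t p → 0 < s₂ * p.1 - p.2) ∨
    (P.loCross ∧ ¬ P.up ∧ ∀ p, P.Hi t p → 0 < p.2)

def BotProp (s₁ : ℝ) : Prop := ¬ P.up → ∀ t : ℝ, (∀ q ∈ P.D, -q.1 + t * q.2 ≤ t * P.ν) →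
  ∀ p ∈ P.D, -p.1 + t * p.2 = t * P.ν → 0 < s₁ * p.1 + p.2

def TopProp (s₂ : ℝ) : Prop := ¬ P.dn → ∀ t : ℝ, (∀ q ∈ P.D, q.1 + t * q.2 ≤ -(t * P.σ)) →
  ∀ p ∈ P.D, p.1 + t * p.2 = -(t * P.σ) → 0 < s₂ * p.1 - p.2

def Good (s₁ s₂ : ℝ) : Prop :=
  P.LowProp s₁ s₂ ∧ P.HighProp s₁ s₂ ∧ P.BotProp s₁ ∧ P.TopProp s₂

lemma high_of_mirror_low {s₁ s₂ : ℝ} (h : P.mirror.LowProp (-s₂) (-s₁)) : P.HighProp s₁ s₂ := by
  intro t
  rcases h (-t) with h1 | h1 | ⟨h1, h2, h3⟩
  · right; left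
    intro p hp
    have := h1 (-p) (by simpa [mirror] using hp)
    simp only [Prod.snd_neg, Prod.fst_neg] at this
    linarith
  · left
    intro p hp
    have := h1 (-p) (by simpa [mirror] using hp)
    simp only [Prod.snd_neg, Prod.fst_neg] at this
    linarith
  · right; right
    rw [mirror_hiCross] at h1
    rw [mirror_dn] at h2
    refine ⟨h1, h2, fun p hp => ?_⟩
    have := h3 (-p) (by simpa [mirror] using hp)
    simp only [Prod.snd_neg] at this
    linarith

lemma low_of_mirror_high {s₁ s₂ : ℝ} (h : P.mirror.HighProp (-s₂) (-s₁)) : P.LowProp s₁ s₂ := by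
  intro t
  rcases h (-t) with h1 | h1 | ⟨h1, h2, h3⟩
  · right; left
    intro p hp
    have := h1 (-p) (by simpa [mirror] using hp)
    simp only [Prod.snd_neg, Prod.fst_neg] at this
    linarith
  · left
    intro p hp
    have := h1 (-p) (by simpa [mirror] using hp)
    simp only [Prod.snd_neg, Prod.fst_neg] at this
    linarith
  · right; right
    rw [mirror_loCross] at h1
    rw [mirror_up] at h2
    refine ⟨h1, h2, fun p hp => ?_⟩
    have := h3 (-p) (by simpa [mirror] using hp)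
    simp only [Prod.snd_neg] at this
    linarith

lemma top_of_mirror_bot {s₂ : ℝ} (h : P.mirror.BotProp (-s₂)) : P.TopProp s₂ := by
  intro hdn t ht p hp he
  have := h (by rwa [mirror_up]) (-t) (by
    intro q hq
    have := ht (-q) hq
    simp only [Prod.snd_neg, Prod.fst_neg, mirror] at this ⊢
    linarith) (-p) (by simpa [mirror] using hp) (by
    simp only [Prod.snd_neg, Prod.fst_neg, mirror]
    linarith)
  simp only [Prod.snd_neg, Prod.fst_neg] at this
  linarith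

lemma bot_of_mirror_top {s₁ : ℝ} (h : P.mirror.TopProp (-s₁)) : P.BotProp s₁ := by
  intro hdn t ht p hp he
  have := h (by rwa [mirror_dn]) (-t) (by
    intro q hq
    have := ht (-q) hq
    simp only [Prod.snd_neg, Prod.fst_neg, mirror] at this ⊢
    linarith) (-p) (by simpa [mirror] using hp) (by
    simp only [Prod.snd_neg, Prod.fst_neg, mirror]
    linarith)
  simp only [Prod.snd_neg, Prod.fst_neg] at this
  linarith

lemma good_of_mirror {s₁ s₂ : ℝ} (h : P.mirror.Good (-s₂) (-s₁)) : P.Good s₁ s₂ :=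
  ⟨P.low_of_mirror_high h.2.1, P.high_of_mirror_low h.1, P.bot_of_mirror_top h.2.2.2,
    P.top_of_mirror_bot h.2.2.1⟩

variable {P}

/-- basic sign facts -/
lemma lo_nonpos {t : ℝ} {p : ℝ × ℝ} (h : P.Lo t p) : p.1 ≤ 0 := by
  have := P.lo_b t p h p (P.lo_mem t p h)
  have h1 := P.ha
  have h2 := P.hb
  by_contra hcon
  push Not at hcon
  nlinarith [mul_pos h1 hcon, mul_pos h2 hcon]

lemma hi_nonneg {t : ℝ} {p : ℝ × ℝ} (h : P.Hi t p) : 0 ≤ p.1 := by
  have := P.hi_a t p h p (P.hi_mem t p h)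
  have h1 := P.ha
  have h2 := P.hb
  by_contra hcon
  push Not at hcon
  nlinarith [mul_pos h1 (neg_pos.mpr hcon), mul_pos h2 (neg_pos.mpr hcon)]

lemma lo_ne {t : ℝ} {p : ℝ × ℝ} (h : P.Lo t p) (h2 : p.2 = 0) : p.1 < 0 := by
  refine lt_of_le_of_ne (lo_nonpos h) ?_
  intro h1
  have := P.lo_a t p h _ P.memL
  rw [h1, h2] at this
  have h3 := mul_pos P.ha P.hx₂
  simp only at this
  linarith

lemma hi_ne {t : ℝ} {p : ℝ × ℝ} (h : P.Hi t p) (h2 : p.2 = 0) : 0 < p.1 := by
  refine lt_of_le_of_ne (hi_nonneg h) ?_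
  intro h1
  have := P.hi_b t p h _ P.memR
  rw [← h1, h2] at this
  have h3 := mul_pos P.hb P.hx₁
  simp only at this
  linarith

/-- the fundamental inequality -/
lemma fund {t t' : ℝ} {p q : ℝ × ℝ} (hp : P.Lo t p) (hq : P.Hi t' q) :
    q.1 - p.1 ≤ (t - t') * (p.2 - q.2) := by
  have h1 := P.lo_b t p hp q (P.hi_mem _ _ hq)
  have h2 := P.hi_a t' q hq p (P.lo_mem _ _ hp)
  linarith

lemma fund_eq {t t' : ℝ} {p q : ℝ × ℝ} (hp : P.Lo t p) (hq : P.Hi t' q) (h : p.2 = q.2) :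
    p.1 = 0 ∧ q.1 = 0 := by
  have h1 := fund hp hq
  rw [h, sub_self, mul_zero] at h1
  have h2 := lo_nonpos hp
  have h3 := hi_nonneg hq
  constructor <;> linarith

/-- intermediate points of a touched face -/
lemma lo_between {t : ℝ} {p q : ℝ × ℝ} (hp : P.Lo t p) (hq : P.Lo t q) {c : ℝ}
    (h1 : p.2 ≤ c) (h2 : c ≤ q.2) : ∃ r, P.Lo t r ∧ r.2 = c := by
  rcases h1.eq_or_lt with h1 | h1
  · exact ⟨p, hp, h1⟩
  rcases h2.eq_or_lt with h2 | h2
  · exact ⟨q, hq, h2.symm⟩
  have hpq : 0 < q.2 - p.2 := by linarith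
  set u : ℝ := (c - p.2) / (q.2 - p.2) with hu
  have hu0 : 0 ≤ u := div_nonneg (by linarith) hpq.le
  have hu1 : u ≤ 1 := by rw [hu, div_le_one hpq]; linarith
  have hmem : (1 - u) • p + u • q ∈ P.D :=
    P.conv (P.lo_mem _ _ hp) (P.lo_mem _ _ hq) (by linarith) hu0 (by ring)
  have hval : -(P.a * p.1) + t * p.2 = -(P.a * q.1) + t * q.2 :=
    le_antisymm (P.lo_a t q hq p (P.lo_mem _ _ hp)) (P.lo_a t p hp q (P.lo_mem _ _ hq))
  refine ⟨_, P.lo_eq t p _ hp hmem ?_, ?_⟩
  · simp only [Prod.fst_add, Prod.smul_fst, Prod.snd_add, Prod.smul_snd, smul_eq_mul]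
    have : -(P.a * ((1 - u) * p.1 + u * q.1)) + t * ((1 - u) * p.2 + u * q.2)
      = (1 - u) * (-(P.a * p.1) + t * p.2) + u * (-(P.a * q.1) + t * q.2) := by ring
    rw [this, ← hval]
    ring
  · simp only [Prod.snd_add, Prod.smul_snd, smul_eq_mul]
    have : (1 - u) * p.2 + u * q.2 = p.2 + u * (q.2 - p.2) := by ring
    rw [this, hu, div_mul_cancel₀ _ hpq.ne']
    ring

/-- intermediate points of a touched face -/
lemma hi_between {t : ℝ} {p q : ℝ × ℝ} (hp : P.Hi t p) (hq : P.Hi t q) {c : ℝ}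
    (h1 : p.2 ≤ c) (h2 : c ≤ q.2) : ∃ r, P.Hi t r ∧ r.2 = c := by
  obtain ⟨r, hr, hr2⟩ := lo_between (P := P.mirror) (t := -t) (p := -q) (q := -p) (c := -c)
    (by simpa [mirror] using hq) (by simpa [mirror] using hp)
    (by simpa using h2) (by simpa using h1)
  refine ⟨-r, ?_, ?_⟩
  · simpa [mirror] using hr
  · simp only [Prod.snd_neg]
    linarith

/-- monotonicity of the touched points in the slope -/
lemma lo_mono {t t' : ℝ} {p q : ℝ × ℝ} (hp : P.Lo t p) (hq : P.Lo t' q) (h : t < t') :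
    p.2 ≤ q.2 := by
  have h1 := P.lo_a t p hp q (P.lo_mem _ _ hq)
  have h2 := P.lo_a t' q hq p (P.lo_mem _ _ hp)
  by_contra hcon
  push Not at hcon
  nlinarith [mul_pos (sub_pos.mpr h) (sub_pos.mpr hcon)]

end PD

/-- a large multiple -/
lemma exists_large {α : Type*} [TopologicalSpace α] {T : Set α} (hT : IsCompact T)
    {u v : α → ℝ} (hu : Continuous u) (hv : Continuous v) (h0 : ∀ x ∈ T, 0 ≤ u x)
    (h1 : ∀ x ∈ T, u x = 0 → 0 < v x) : ∃ s : ℝ, 0 < s ∧ ∀ x ∈ T, 0 < s * u x + v x := by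
  have key : ∃ n : ℕ, T ⊆ {x | 0 < (n : ℝ) * u x + v x} ∪ {x | u x < 0} := by
    apply hT.elim_directed_cover
    · intro n
      exact (isOpen_lt continuous_const ((continuous_const.mul hu).add hv)).union
        (isOpen_lt hu continuous_const)
    · intro x hx
      rw [mem_iUnion]
      rcases (h0 x hx).eq_or_lt with h2 | h2
      · exact ⟨0, Or.inl (by
          have := h1 x hx h2.symm
          simpa using this)⟩
      · obtain ⟨n, hn⟩ := exists_nat_gt (-v x / u x)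
        refine ⟨n, Or.inl ?_⟩
        rw [div_lt_iff₀ h2] at hn
        simp only [mem_ofPred_eq]
        linarith
    · intro i j
      refine ⟨max i j, ?_, ?_⟩
      · rintro x (hx | hx)
        · by_cases h3 : u x < 0
          · exact Or.inr h3
          · push Not at h3
            left
            simp only [mem_ofPred_eq] at hx ⊢
            have : (i : ℝ) ≤ ((max i j : ℕ) : ℝ) := by exact_mod_cast le_max_left i j
            nlinarith
        · exact Or.inr hx
      · rintro x (hx | hx)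
        · by_cases h3 : u x < 0
          · exact Or.inr h3
          · push Not at h3
            left
            simp only [mem_ofPred_eq] at hx ⊢
            have : (j : ℝ) ≤ ((max i j : ℕ) : ℝ) := by exact_mod_cast le_max_right i j
            nlinarith
        · exact Or.inr hx
  obtain ⟨n, hn⟩ := key
  refine ⟨n + 1, by positivity, fun x hx => ?_⟩
  rcases hn hx with h2 | h2
  · simp only [mem_ofPred_eq] at h2
    have := h0 x hx
    linarith
  · exact absurd (h0 x hx) (not_le.mpr h2)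

end Pool.Agent.Lib.MP_5e7226_co
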