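import Pool.Agent.Lib.MP_5e7226_co.PermPlanar

set_option autoImplicit false
set_option linter.unusedSectionVars false

open Set Filter Topology

namespace Pool.Agent.Lib.MP_5e7226_co

namespace PD

variable {P : PD}

lemma hi_side {t : ℝ} (h : ∀ p, P.Hi t p → p.2 ≠ 0) :
    (∀ p, P.Hi t p → 0 < p.2) ∨ (∀ p, P.Hi t p → p.2 < 0) := by
  by_contra hcon
  push Not at hcon
  obtain ⟨⟨p, hp, hp2⟩, ⟨q, hq, hq2⟩⟩ := hcon
  obtain ⟨r, hr, hr2⟩ := hi_between hp hq hp2 hq2
  exact h r hr hr2

lemma lo_side {t : ℝ} (h : ∀ p, P.Lo t p → p.2 ≠ 0) :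
    (∀ p, P.Lo t p → 0 < p.2) ∨ (∀ p, P.Lo t p → p.2 < 0) := by
  by_contra hcon
  push Not at hcon
  obtain ⟨⟨p, hp, hp2⟩, ⟨q, hq, hq2⟩⟩ := hcon
  obtain ⟨r, hr, hr2⟩ := lo_between hp hq hp2 hq2
  exact h r hr hr2

lemma lo_compact {t : ℝ} {p : ℝ × ℝ} (hp : P.Lo t p) : IsCompact {q | P.Lo t q} := by
  have : {q | P.Lo t q} = P.D ∩ {q | -(P.a * q.1) + t * q.2 = -(P.a * p.1) + t * p.2} := by
    ext q
    simp only [mem_ofPred_eq, mem_inter_iff]
    constructor
    · intro hq
      exact ⟨P.lo_mem _ _ hq, le_antisymm (P.lo_a t p hp q (P.lo_mem _ _ hq))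
        (P.lo_a t q hq p (P.lo_mem _ _ hp))⟩
    · rintro ⟨h1, h2⟩
      exact P.lo_eq t p q hp h1 h2
  rw [this]
  apply P.cpt.inter_right
  exact isClosed_eq (by fun_prop) (by fun_prop)

lemma lo_axis {t : ℝ} {q : ℝ × ℝ} (hq : P.Lo t q) (h : q.1 = 0) :
    0 < t * q.2 ∧ (q = (0, P.ν) ∨ q = (0, -P.σ)) := by
  have h1 := P.lo_a t q hq _ P.memL
  have h2 := P.lo_a t q hq _ P.memN
  have h3 := P.lo_a t q hq _ P.memS
  have h4 := P.bnd q (P.lo_mem _ _ hq)
  rw [h] at h1 h2 h3
  simp only at h1 h2 h3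
  have h5 := mul_pos P.ha P.hx₂
  have h6 : 0 < t * q.2 := by linarith
  refine ⟨h6, ?_⟩
  rcases lt_trichotomy t 0 with ht | ht | ht
  · right
    have : q.2 ≤ -P.σ := by
      by_contra hcon
      push Not at hcon
      nlinarith [mul_pos (neg_pos.mpr ht) (sub_pos.mpr hcon)]
    exact Prod.ext h (le_antisymm this h4.1)
  · rw [ht] at h6
    simp at h6
  · left
    have : P.ν ≤ q.2 := by
      by_contra hcon
      push Not at hcon
      nlinarith [mul_pos ht (sub_pos.mpr hcon)]
    exact Prod.ext h (le_antisymm h4.2 this)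

/-- left edges at the top pole -/
lemma left_top {t : ℝ} (h : ∀ q ∈ P.D, -q.1 + t * q.2 ≤ t * P.ν) {p : ℝ × ℝ} (hp : p ∈ P.D)
    (he : -p.1 + t * p.2 = t * P.ν) : 0 < t ∧ p.1 ≤ 0 := by
  have h1 := h _ P.memL
  simp only at h1
  have h2 := P.hx₂
  have h3 := P.hν
  have ht : 0 < t := by
    by_contra hcon
    push Not at hcon
    nlinarith [mul_nonneg (neg_nonneg.mpr hcon) h3.le]
  refine ⟨ht, ?_⟩
  have h4 := (P.bnd p hp).2
  nlinarith [mul_nonneg ht.le (sub_nonneg.mpr h4)]

/-- right edges at the bottom pole -/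
lemma right_bot {t : ℝ} (h : ∀ q ∈ P.D, q.1 + t * q.2 ≤ -(t * P.σ)) {p : ℝ × ℝ} (hp : p ∈ P.D)
    (he : p.1 + t * p.2 = -(t * P.σ)) : t < 0 ∧ 0 ≤ p.1 := by
  have h1 := h _ P.memR
  simp only at h1
  have h2 := P.hx₁
  have h3 := P.hσ
  have ht : t < 0 := by
    by_contra hcon
    push Not at hcon
    nlinarith [mul_nonneg hcon h3.le]
  refine ⟨ht, ?_⟩
  have h4 := (P.bnd p hp).1
  nlinarith [mul_nonneg (neg_pos.mpr ht).le (sub_nonneg.mpr h4)]

lemma left_top_pos (hup : ¬ P.up) {t : ℝ} (h : ∀ q ∈ P.D, -q.1 + t * q.2 ≤ t * P.ν) {p : ℝ × ℝ}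
    (hp : p ∈ P.D) (he : -p.1 + t * p.2 = t * P.ν) : 0 < p.2 := by
  by_contra hcon
  push Not at hcon
  exact hup (Or.inl ⟨t, h, p, hp, hcon, he⟩)

lemma right_bot_neg (hdn : ¬ P.dn) {t : ℝ} (h : ∀ q ∈ P.D, q.1 + t * q.2 ≤ -(t * P.σ))
    {p : ℝ × ℝ} (hp : p ∈ P.D) (he : p.1 + t * p.2 = -(t * P.σ)) : p.2 < 0 := by
  by_contra hcon
  push Not at hcon
  exact hdn (Or.inr ⟨t, h, p, hp, hcon, he⟩)

lemma bot_of_nonpos {s₁ : ℝ} (hs : s₁ ≤ 0) : P.BotProp s₁ := by
  intro hup t ht p hp he
  have h1 := left_top_pos hup ht hp he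
  have h2 := (left_top ht hp he).2
  nlinarith [mul_nonneg (neg_nonneg.mpr hs) (neg_nonneg.mpr h2)]

lemma top_of_nonneg {s₂ : ℝ} (hs : 0 ≤ s₂) : P.TopProp s₂ := by
  intro hdn t ht p hp he
  have h1 := right_bot_neg hdn ht hp he
  have h2 := (right_bot ht hp he).2
  nlinarith [mul_nonneg hs h2]

/-- bound for touched points of the other kind -/
lemma exists_delta_hi {t₀ : ℝ} {p₀ : ℝ × ℝ} (hp₀ : P.Lo t₀ p₀) (h0 : p₀.2 = 0) :
    ∃ δ > 0, ∀ δ', 0 < δ' → δ' ≤ δ → ∀ t q, P.Hi t q → δ' * q.1 < |q.2| := by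
  obtain ⟨R, hR⟩ : ∃ R : ℝ, ∀ p ∈ P.D, p.1 ≤ R := by
    obtain ⟨x, hx, hmax⟩ := P.cpt.exists_isMaxOn ⟨_, P.memN⟩ (continuous_fst.continuousOn)
    exact ⟨x.1, fun p hp => hmax hp⟩
  have hR0 : 0 < R := lt_of_lt_of_le P.hx₁ (hR _ P.memR)
  have hx₀ := lo_ne hp₀ h0
  have hν := P.hν
  have hσ := P.hσ
  have hb := P.hb
  set M : ℝ := 2 * P.b * R / P.ν + 2 * P.b * R / P.σ + 1 with hM
  have hM1 : 2 * P.b * R / P.ν ≤ M := by
    have : 0 ≤ 2 * P.b * R / P.σ := by positivity
    linarith
  have hM2 : 2 * P.b * R / P.σ ≤ M := by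
    have : 0 ≤ 2 * P.b * R / P.ν := by positivity
    linarith
  have hM0 : 0 < M := by positivity
  have hMt : 0 < M + |t₀| := by positivity
  set c : ℝ := min (-p₀.1 / (M + |t₀|)) (min (P.ν / 2) (P.σ / 2)) with hc
  have hc0 : 0 < c := by
    apply lt_min
    · exact div_pos (by linarith) hMt
    · exact lt_min (by linarith) (by linarith)
  refine ⟨c / (2 * R), by positivity, ?_⟩
  intro δ' hδ' hle t q hq
  have hq1 := hi_nonneg hq
  have hqR := hR q (P.hi_mem _ _ hq)
  have h1 : δ' * q.1 < c := by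
    calc δ' * q.1 ≤ (c / (2 * R)) * R := by
          apply mul_le_mul hle hqR hq1 (by positivity)
      _ = c / 2 := by field_simp
      _ < c := by linarith
  refine lt_of_lt_of_le h1 ?_
  by_cases ht : |t| ≤ M
  · have h2 := fund hp₀ hq
    rw [h0] at h2
    have h3 : -p₀.1 ≤ (M + |t₀|) * |q.2| := by
      calc -p₀.1 ≤ (t₀ - t) * (0 - q.2) := by linarith
        _ ≤ |(t₀ - t) * (0 - q.2)| := le_abs_self _
        _ = |t₀ - t| * |q.2| := by rw [abs_mul, zero_sub, abs_neg]
        _ ≤ (M + |t₀|) * |q.2| := by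
            apply mul_le_mul_of_nonneg_right _ (abs_nonneg _)
            calc |t₀ - t| ≤ |t₀| + |t| := abs_sub _ _
              _ ≤ M + |t₀| := by linarith
    have h4 : -p₀.1 / (M + |t₀|) ≤ |q.2| := by
      rw [div_le_iff₀ hMt]
      linarith
    exact (min_le_left _ _).trans h4
  · push Not at ht
    rcases le_or_gt 0 t with ht0 | ht0
    · rw [abs_of_nonneg ht0] at ht
      have h2 := P.hi_b t q hq _ P.memN
      simp only at h2
      have h3 : 2 * P.b * R ≤ t * P.ν := by
        have := hM1.trans ht.le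
        rwa [div_le_iff₀ hν] at this
      have h4 : P.ν / 2 ≤ q.2 := by
        by_contra hcon
        push Not at hcon
        have h5 : t * q.2 < t * (P.ν / 2) := mul_lt_mul_of_pos_left hcon (by linarith)
        have h6 : P.b * q.1 ≤ P.b * R := mul_le_mul_of_nonneg_left hqR hb.le
        nlinarith
      exact ((min_le_right _ _).trans (min_le_left _ _)).trans (h4.trans (le_abs_self _))
    · rw [abs_of_neg ht0] at ht
      have h2 := P.hi_b t q hq _ P.memS
      simp only at h2
      have h3 : 2 * P.b * R ≤ -t * P.σ := by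
        have := hM2.trans ht.le
        rwa [div_le_iff₀ hσ] at this
      have h4 : P.σ / 2 ≤ -q.2 := by
        by_contra hcon
        push Not at hcon
        have h5 : -t * -q.2 < -t * (P.σ / 2) := mul_lt_mul_of_pos_left hcon (by linarith)
        have h6 : P.b * q.1 ≤ P.b * R := mul_le_mul_of_nonneg_left hqR hb.le
        nlinarith
      exact ((min_le_right _ _).trans (min_le_right _ _)).trans (h4.trans (neg_le_abs _))

lemma exists_delta_top (hdn : ¬ P.dn) : ∃ δ > 0, ∀ δ', 0 < δ' → δ' ≤ δ → ∀ t : ℝ,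
    (∀ q ∈ P.D, q.1 + t * q.2 ≤ -(t * P.σ)) → ∀ p ∈ P.D, p.1 + t * p.2 = -(t * P.σ) →
      δ' * p.1 < -p.2 := by
  by_cases h : ∃ t₁ q₁, (∀ q ∈ P.D, q.1 + t₁ * q.2 ≤ -(t₁ * P.σ)) ∧ q₁ ∈ P.D ∧
      q₁.1 + t₁ * q₁.2 = -(t₁ * P.σ) ∧ 0 < q₁.1
  · obtain ⟨t₁, q₁, h1, h2, h3, h4⟩ := h
    have hT : IsCompact (P.D ∩ {q | q.1 + t₁ * q.2 = -(t₁ * P.σ)}) := by
      apply P.cpt.inter_right
      exact isClosed_eq (by fun_prop) (by fun_prop)
    obtain ⟨s, hs, hs'⟩ := exists_large hT (u := fun q => -q.2) (v := fun q => -q.1)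
      (by fun_prop) (by fun_prop)
      (fun q hq => by
        have := right_bot_neg hdn h1 hq.1 hq.2
        linarith)
      (fun q hq h0 => by
        have := right_bot_neg hdn h1 hq.1 hq.2
        linarith)
    refine ⟨1 / s, by positivity, ?_⟩
    intro δ' hδ' hle t ht p hp he
    have h5 := (right_bot ht hp he).2
    have h6 := right_bot_neg hdn ht hp he
    rcases h5.eq_or_lt with h5 | h5
    · rw [← h5]
      linarith
    · have ht0 := (right_bot ht hp he).1
      have ht1 := (right_bot h1 h2 h3).1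
      have e1 := ht q₁ h2
      have e2 := h1 p hp
      have b1 : 0 < P.σ + p.2 := by
        by_contra hcon
        push Not at hcon
        nlinarith [mul_nonneg (neg_pos.mpr ht0).le (neg_nonneg.mpr hcon)]
      have b2 : 0 < P.σ + q₁.2 := by
        by_contra hcon
        push Not at hcon
        nlinarith [mul_nonneg (neg_pos.mpr ht1).le (neg_nonneg.mpr hcon)]
      have e3 : (t - t₁) * (P.σ + q₁.2) ≤ 0 := by linarith
      have e4 : (t₁ - t) * (P.σ + p.2) ≤ 0 := by linarith
      have htt : t = t₁ := by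
        apply le_antisymm
        · by_contra hcon
          push Not at hcon
          have := mul_pos (sub_pos.mpr hcon) b2
          linarith
        · by_contra hcon
          push Not at hcon
          have := mul_pos (sub_pos.mpr hcon) b1
          linarith
      subst htt
      have h7 := hs' p ⟨hp, he⟩
      have h8 : δ' * s ≤ 1 := by
        calc δ' * s ≤ (1 / s) * s := mul_le_mul_of_nonneg_right hle hs.le
          _ = 1 := by field_simp
      have h9 : p.1 < s * -p.2 := by linarith
      calc δ' * p.1 < δ' * (s * -p.2) := mul_lt_mul_of_pos_left h9 hδ'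
        _ = (δ' * s) * -p.2 := by ring
        _ ≤ 1 * -p.2 := mul_le_mul_of_nonneg_right h8 (by linarith)
        _ = -p.2 := one_mul _
  · refine ⟨1, one_pos, ?_⟩
    intro δ' hδ' hle t ht p hp he
    have h5 := (right_bot ht hp he).2
    have h6 := right_bot_neg hdn ht hp he
    rcases h5.eq_or_lt with h5 | h5
    · rw [← h5]
      linarith
    · exact absurd ⟨t, p, ht, hp, he, h5⟩ h

/-- the strictly crossing case with the bottom pole on the crossing face -/
lemma case_cross_S {t : ℝ} {l r : ℝ × ℝ} (hl : P.Lo t l) (hr : P.Lo t r) (hl2 : l.2 < 0)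
    (hr2 : 0 < r.2) (hS : P.Lo t (0, -P.σ)) : ∃ s₁ s₂, P.Good s₁ s₂ := by
  have low_gt : ∀ t' p, P.Lo t' p → t < t' → 0 < p.2 :=
    fun t' p hp h => lt_of_lt_of_le hr2 (lo_mono hr hp h)
  have low_lt : ∀ t' p, P.Lo t' p → t' < t → p.2 < 0 :=
    fun t' p hp h => lt_of_le_of_lt (lo_mono hp hl h) hl2
  have hνσ : 0 < P.ν + P.σ := add_pos P.hν P.hσ
  obtain ⟨s, hs, hs'⟩ := exists_large (lo_compact hl) (u := fun q => -q.1) (v := fun q => -q.2)
    (by fun_prop) (by fun_prop)
    (fun q hq => by
      have := lo_nonpos (P := P) hq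
      linarith)
    (fun q hq h0 => by
      obtain ⟨h1, h2 | h2⟩ := lo_axis (P := P) hq (by linarith)
      · exfalso
        have h3 := P.lo_a t q hq _ (P.lo_mem _ _ hS)
        have h4 := P.lo_a t _ hS q (P.lo_mem _ _ hq)
        have h5 := (lo_axis hS rfl).1
        rw [h2] at h1 h3 h4
        simp only at h1 h3 h4 h5
        have h6 : t * (P.ν + P.σ) = 0 := by linarith
        rcases mul_eq_zero.mp h6 with h7 | h7
        · rw [h7] at h1; simp at h1
        · linarith
      · rw [h2]
        simp only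
        linarith [P.hσ])
  refine ⟨0, -s, ?_, ?_, bot_of_nonpos le_rfl, ?_⟩
  · intro t'
    rcases lt_trichotomy t' t with h | h | h
    · right; left
      intro p hp
      have h1 := low_lt t' p hp h
      have h2 := lo_nonpos hp
      nlinarith [mul_nonneg hs.le (neg_nonneg.mpr h2)]
    · subst h
      right; left
      intro p hp
      have := hs' p hp
      linarith
    · left
      intro p hp
      have := low_gt t' p hp h
      linarith
  · intro t'
    have hle : ∀ q, P.Hi t' q → q.2 ≤ 0 → q.1 = 0 ∧ q.2 < 0 := by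
      intro q hq hq2
      obtain ⟨p, hp, hp2⟩ := lo_between hS hr (c := q.2) (P.bnd q (P.hi_mem _ _ hq)).1
        (by linarith)
      have h1 := fund_eq hp hq hp2
      refine ⟨h1.2, lt_of_le_of_ne hq2 ?_⟩
      intro h0
      have := hi_ne hq h0
      linarith [h1.2]
    rcases hi_side (P := P) (t := t') (fun q hq h0 => (hle q hq h0.le).2.ne h0) with h | h
    · left
      intro q hq
      have := h q hq
      linarith
    · right; left
      intro q hq
      obtain ⟨h1, h2⟩ := hle q hq (h q hq).le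
      rw [h1]
      linarith
  · intro hdn
    exfalso
    apply hdn
    left
    have ha := P.ha
    refine ⟨t / P.a, ?_, r, P.lo_mem _ _ hr, hr2.le, ?_⟩
    · intro q hq
      have h1 := P.lo_a t _ hS q hq
      simp only at h1
      have e : -q.1 + t / P.a * q.2 = (-(P.a * q.1) + t * q.2) / P.a := by
        field_simp
      have e2 : -(t / P.a * P.σ) = (-(P.a * 0) + t * -P.σ) / P.a := by
        field_simp
        ring
      rw [e, e2]
      exact div_le_div_of_nonneg_right h1 ha.le
    · have h1 := le_antisymm (P.lo_a t _ hS r (P.lo_mem _ _ hr))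
        (P.lo_a t r hr _ (P.lo_mem _ _ hS))
      simp only at h1
      have e : -r.1 + t / P.a * r.2 = (-(P.a * r.1) + t * r.2) / P.a := by
        field_simp
      have e2 : -(t / P.a * P.σ) = (-(P.a * 0) + t * -P.σ) / P.a := by
        field_simp
        ring
      rw [e, e2, h1]

/-- the strictly crossing case without the bottom pole -/
lemma case_cross_noS {t : ℝ} {l r : ℝ × ℝ} (hl : P.Lo t l) (hr : P.Lo t r) (hl2 : l.2 < 0)
    (hr2 : 0 < r.2) (hS : ¬ P.Lo t (0, -P.σ)) : ∃ s₁ s₂, P.Good s₁ s₂ := by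
  have low_gt : ∀ t' p, P.Lo t' p → t < t' → 0 < p.2 :=
    fun t' p hp h => lt_of_lt_of_le hr2 (lo_mono hr hp h)
  have low_lt : ∀ t' p, P.Lo t' p → t' < t → p.2 < 0 :=
    fun t' p hp h => lt_of_le_of_lt (lo_mono hp hl h) hl2
  obtain ⟨p₀, hp₀, hp₀2⟩ := lo_between hl hr hl2.le hr2.le
  have hx₀ := lo_ne hp₀ hp₀2
  have hHi0 : ∀ t p, P.Hi t p → p.2 ≠ 0 := by
    intro t p hp h0
    have := (fund_eq hp₀ hp (by rw [hp₀2, h0])).1
    linarith
  obtain ⟨s, hs, hs'⟩ := exists_large (lo_compact hl) (u := fun q => -q.1) (v := fun q => q.2)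
    (by fun_prop) (by fun_prop)
    (fun q hq => by
      have := lo_nonpos (P := P) hq
      linarith)
    (fun q hq h0 => by
      obtain ⟨h1, h2 | h2⟩ := lo_axis (P := P) hq (by linarith)
      · rw [h2]
        exact P.hν
      · exfalso
        apply hS
        rw [← h2]
        exact hq)
  refine ⟨-s, 0, ?_, ?_, bot_of_nonpos (by linarith), top_of_nonneg le_rfl⟩
  · intro t'
    rcases lt_trichotomy t' t with h | h | h
    · right; left
      intro p hp
      have h1 := low_lt t' p hp h
      linarith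
    · subst h
      left
      intro p hp
      have := hs' p hp
      linarith
    · left
      intro p hp
      have h1 := low_gt t' p hp h
      have h2 := lo_nonpos hp
      nlinarith [mul_nonneg hs.le (neg_nonneg.mpr h2)]
  · intro t'
    rcases hi_side (P := P) (t := t') (hHi0 t') with h | h
    · by_cases hup : P.up
      · left
        intro q hq
        have hq2 := h q hq
        have hq1 : q.1 = 0 := by
          by_contra hne
          have hpos : 0 < q.1 := lt_of_le_of_ne (hi_nonneg hq) (Ne.symm hne)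
          have ha := P.ha
          have hb := P.hb
          rcases hup with ⟨t₁, h1, p₁, hp₁, hp₁2, he₁⟩ | ⟨t₁, h1, p₁, hp₁, hp₁2, he₁⟩
          · -- left edge from the top pole
            have i1 := h1 r (P.lo_mem _ _ hr)
            have i2 := P.lo_a t r hr p₁ hp₁
            have i3 := h1 l (P.lo_mem _ _ hl)
            have i4 := P.lo_a t l hl _ P.memN
            simp only at i4
            have e1 : P.a * t₁ = t := by
              apply le_antisymm
              · by_contra hcon
                push Not at hcon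
                have j1 : P.a * (-r.1 + t₁ * r.2) ≤ P.a * (t₁ * P.ν) :=
                  mul_le_mul_of_nonneg_left i1 ha.le
                have j2 : P.a * (-p₁.1 + t₁ * p₁.2) = P.a * (t₁ * P.ν) := by rw [he₁]
                have j3 : 0 < (P.a * t₁ - t) * (r.2 - p₁.2) :=
                  mul_pos (sub_pos.mpr hcon) (by linarith)
                nlinarith
              · by_contra hcon
                push Not at hcon
                have j1 : P.a * (-l.1 + t₁ * l.2) ≤ P.a * (t₁ * P.ν) :=
                  mul_le_mul_of_nonneg_left i3 ha.le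
                have j3 : 0 < (t - P.a * t₁) * (P.ν - l.2) :=
                  mul_pos (sub_pos.mpr hcon) (by linarith [P.hν])
                nlinarith
            have hN : P.Lo t (0, P.ν) := by
              apply P.lo_eq t l _ hl P.memN
              apply le_antisymm i4
              have j1 : P.a * (-l.1 + t₁ * l.2) ≤ P.a * (t₁ * P.ν) :=
                mul_le_mul_of_nonneg_left i3 ha.le
              rw [← e1]
              linarith
            obtain ⟨p, hp, hp2⟩ := lo_between hl hN (c := q.2) (by linarith)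
              (P.bnd q (P.hi_mem _ _ hq)).2
            have := (fund_eq hp hq hp2).2
            exact hne this
          · -- right edge from the top pole
            have i1 := h1 q (P.hi_mem _ _ hq)
            have i2 := P.hi_b t' q hq p₁ hp₁
            have i3 := P.hi_b t' q hq _ P.memN
            simp only at i3
            have hqν := (P.bnd q (P.hi_mem _ _ hq)).2
            have j1 : P.b * (q.1 + t₁ * q.2) ≤ P.b * (t₁ * P.ν) :=
              mul_le_mul_of_nonneg_left i1 hb.le
            have j2 : P.b * (p₁.1 + t₁ * p₁.2) = P.b * (t₁ * P.ν) := by rw [he₁]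
            rcases lt_trichotomy (P.b * t₁) t' with h5 | h5 | h5
            · have j3 : 0 ≤ (t' - P.b * t₁) * (P.ν - q.2) :=
                mul_nonneg (sub_nonneg.mpr h5.le) (by linarith)
              have j4 := mul_pos hb hpos
              -- b q.1 + b t₁ q.2 ≤ b t₁ ν, and t' ν ≤ b q.1 + t' q.2
              rcases hqν.eq_or_lt with h6 | h6
              · rw [h6] at j1
                nlinarith
              · have j5 : 0 < (t' - P.b * t₁) * (P.ν - q.2) :=
                  mul_pos (sub_pos.mpr h5) (by linarith)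
                nlinarith
            · have k1 : P.Hi t' p₁ := by
                apply P.hi_eq t' q p₁ hq hp₁
                apply le_antisymm i2
                rw [← h5]
                nlinarith
              obtain ⟨z, hz, hz2⟩ := hi_between k1 hq hp₁2 hq2.le
              exact hHi0 t' z hz hz2
            · have j3 : 0 < (P.b * t₁ - t') * (q.2 - p₁.2) :=
                mul_pos (sub_pos.mpr h5) (by linarith)
              nlinarith
        rw [hq1]
        linarith
      · right; right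
        exact ⟨⟨t, l, r, hl, hr, hl2, hr2⟩, hup, h⟩
    · right; left
      intro q hq
      have := h q hq
      linarith

/-- the case without crossing -/
lemma case_nocross {t₀ : ℝ} {p₀ : ℝ × ℝ} (hp₀ : P.Lo t₀ p₀) (h0 : p₀.2 = 0)
    (hc : ¬ P.loCross) : ∃ s₁ s₂, P.Good s₁ s₂ := by
  have hx₀ := lo_ne hp₀ h0
  have hHi0 : ∀ t p, P.Hi t p → p.2 ≠ 0 := by
    intro t p hp h1
    have := (fund_eq hp₀ hp (by rw [h0, h1])).1
    linarith
  obtain ⟨δ₁, hδ₁, hd₁⟩ := exists_delta_hi hp₀ h0
  obtain ⟨δ₂, hδ₂, hd₂⟩ : ∃ δ > 0, ¬ P.dn → ∀ t : ℝ,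
      (∀ q ∈ P.D, q.1 + t * q.2 ≤ -(t * P.σ)) → ∀ p ∈ P.D, p.1 + t * p.2 = -(t * P.σ) →
        ∀ δ', 0 < δ' → δ' ≤ δ → δ' * p.1 < -p.2 := by
    by_cases hdn : P.dn
    · exact ⟨1, one_pos, fun h => absurd hdn h⟩
    · obtain ⟨δ, hδ, h⟩ := exists_delta_top hdn
      exact ⟨δ, hδ, fun _ t ht p hp he δ' h1 h2 => h δ' h1 h2 t ht p hp he⟩
  set δ : ℝ := min δ₁ δ₂ with hδ
  have hδ0 : 0 < δ := lt_min hδ₁ hδ₂
  refine ⟨-δ, -δ, ?_, ?_, bot_of_nonpos (by linarith), ?_⟩
  · intro t
    by_cases h : ∀ p, P.Lo t p → 0 ≤ p.2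
    · left
      intro p hp
      have h1 := lo_nonpos hp
      have h2 := h p hp
      rcases h2.eq_or_lt with h3 | h3
      · have h4 := lo_ne hp h3.symm
        rw [← h3]
        nlinarith [mul_pos hδ0 (neg_pos.mpr h4)]
      · nlinarith [mul_nonneg hδ0.le (neg_nonneg.mpr h1)]
    · right; left
      push Not at h
      obtain ⟨l, hl, hl2⟩ := h
      intro p hp
      have h1 := lo_nonpos hp
      have h2 : p.2 ≤ 0 := by
        by_contra hcon
        push Not at hcon
        exact hc ⟨t, l, p, hl, hp, hl2, hcon⟩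
      rcases h2.eq_or_lt with h3 | h3
      · have h4 := lo_ne hp h3
        rw [h3]
        nlinarith [mul_pos hδ0 (neg_pos.mpr h4)]
      · nlinarith [mul_nonneg hδ0.le (neg_nonneg.mpr h1)]
  · intro t
    rcases hi_side (P := P) (t := t) (hHi0 t) with h | h
    · left
      intro q hq
      have h1 := hd₁ δ hδ0 (min_le_left _ _) t q hq
      rw [abs_of_pos (h q hq)] at h1
      linarith
    · right; left
      intro q hq
      have h1 := hd₁ δ hδ0 (min_le_left _ _) t q hq
      rw [abs_of_neg (h q hq)] at h1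
      linarith
  · intro hdn t ht p hp he
    have := hd₂ hdn t ht p hp he δ hδ0 (min_le_right _ _)
    linarith

lemma case_lo (h : ∃ t p, P.Lo t p ∧ p.2 = 0) : ∃ s₁ s₂, P.Good s₁ s₂ := by
  obtain ⟨t₀, p₀, hp₀, h0⟩ := h
  by_cases hc : P.loCross
  · obtain ⟨t, l, r, hl, hr, hl2, hr2⟩ := hc
    by_cases hS : P.Lo t (0, -P.σ)
    · exact case_cross_S hl hr hl2 hr2 hS
    · exact case_cross_noS hl hr hl2 hr2 hS
  · exact case_nocross hp₀ h0 hc

/-- Main planar statement. -/
theorem exists_good (P : PD) : ∃ s₁ s₂, P.Good s₁ s₂ := by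
  by_cases h1 : ∃ t p, P.Lo t p ∧ p.2 = 0
  · exact case_lo h1
  · by_cases h2 : ∃ t p, P.Hi t p ∧ p.2 = 0
    · obtain ⟨t, p, hp, hp2⟩ := h2
      obtain ⟨s₁, s₂, h⟩ := case_lo (P := P.mirror)
        ⟨-t, -p, by simpa [mirror] using hp, by simpa using hp2⟩
      refine ⟨-s₂, -s₁, P.good_of_mirror ?_⟩
      simpa using h
    · push Not at h1 h2
      refine ⟨0, 0, ?_, ?_, bot_of_nonpos le_rfl, top_of_nonneg le_rfl⟩
      · intro t
        rcases lo_side (P := P) (t := t) (h1 t) with h | h
        · left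
          intro p hp
          have := h p hp
          linarith
        · right; left
          intro p hp
          have := h p hp
          linarith
      · intro t
        rcases hi_side (P := P) (t := t) (h2 t) with h | h
        · left
          intro p hp
          have := h p hp
          linarith
        · right; left
          intro p hp
          have := h p hp
          linarith

end PD

end Pool.Agent.Lib.MP_5e7226_co
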