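import Mathlib
import Pool.Agent.Lib.MP_5e7226_co.Reduction

set_option autoImplicit false

open Set Filter Topology

namespace Pool.Agent.Lib.MP_5e7226_co

/-! ### The dot product on `ℂ` -/

lemma dotC_comm (a b : ℂ) : dotC a b = dotC b a := by simp [dotC, mul_comm]

lemma dotC_add_left (a b c : ℂ) : dotC (a + b) c = dotC a c + dotC b c := by
  simp [dotC]; ring

lemma dotC_sub_left (a b c : ℂ) : dotC (a - b) c = dotC a c - dotC b c := by
  simp [dotC]; ring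

lemma dotC_neg_left (a b : ℂ) : dotC (-a) b = -dotC a b := by
  simp [dotC]; ring

lemma dotC_add_right (a b c : ℂ) : dotC a (b + c) = dotC a b + dotC a c := by
  simp [dotC]; ring

lemma dotC_sub_right (a b c : ℂ) : dotC a (b - c) = dotC a b - dotC a c := by
  simp [dotC]; ring

lemma dotC_neg_right (a b : ℂ) : dotC a (-b) = -dotC a b := by
  simp [dotC]; ring

lemma dotC_zero_right (a : ℂ) : dotC a 0 = 0 := by simp [dotC]

lemma dotC_zero_left (a : ℂ) : dotC 0 a = 0 := by simp [dotC]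

lemma dotC_ofReal_left (r : ℝ) (a b : ℂ) : dotC ((r : ℂ) * a) b = r * dotC a b := by
  simp [dotC]; ring

lemma dotC_ofReal_right (r : ℝ) (a b : ℂ) : dotC a ((r : ℂ) * b) = r * dotC a b := by
  simp [dotC]; ring

lemma dotC_self (a : ℂ) : dotC a a = ‖a‖ ^ 2 := by
  rw [sq_norm]; simp [dotC]; ring

lemma dotC_mul_mul (z a b : ℂ) : dotC (z * a) (z * b) = ‖z‖ ^ 2 * dotC a b := by
  rw [sq_norm]
  simp [dotC]
  ring

lemma cross_sq (a b : ℂ) :
    dotC a b ^ 2 + (a.re * b.im - a.im * b.re) ^ 2 = ‖a‖ ^ 2 * ‖b‖ ^ 2 := by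
  rw [sq_norm, sq_norm]
  simp only [dotC]
  ring

lemma dotC_le (a b : ℂ) : dotC a b ≤ ‖a‖ * ‖b‖ := by
  have h := cross_sq a b
  have h2 : dotC a b ^ 2 ≤ (‖a‖ * ‖b‖) ^ 2 := by
    rw [mul_pow]; nlinarith [sq_nonneg (a.re * b.im - a.im * b.re)]
  exact le_of_sq_le_sq h2 (by positivity)
where
  le_of_sq_le_sq {x y : ℝ} (h : x ^ 2 ≤ y ^ 2) (hy : 0 ≤ y) : x ≤ y := by
    exact (abs_le_of_sq_le_sq' h hy).2

/-- unit vector at angle `t` -/
noncomputable def eA (t : ℝ) : ℂ := ⟨Real.cos t, Real.sin t⟩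

@[simp] lemma eA_re (t : ℝ) : (eA t).re = Real.cos t := rfl
@[simp] lemma eA_im (t : ℝ) : (eA t).im = Real.sin t := rfl

lemma eA_eq_exp (t : ℝ) : eA t = Complex.exp (t * Complex.I) := by
  apply Complex.ext
  · rw [Complex.exp_ofReal_mul_I_re]; rfl
  · rw [Complex.exp_ofReal_mul_I_im]; rfl

lemma norm_eA (t : ℝ) : ‖eA t‖ = 1 := by
  rw [eA_eq_exp, Complex.norm_exp_ofReal_mul_I]

lemma eA_add (s t : ℝ) : eA (s + t) = eA s * eA t := by
  rw [eA_eq_exp, eA_eq_exp, eA_eq_exp, ← Complex.exp_add]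
  congr 1
  push_cast
  ring

lemma eA_zero : eA 0 = 1 := by
  rw [eA_eq_exp]; simp

lemma eA_ne_zero (t : ℝ) : eA t ≠ 0 := by
  intro h
  have := norm_eA t
  rw [h] at this
  simp at this

lemma dotC_eA (s t : ℝ) : dotC (eA s) (eA t) = Real.cos (s - t) := by
  rw [Real.cos_sub]
  simp [dotC]

lemma dotC_mul_eA (x : ℂ) (s t : ℝ) : dotC (x * eA s) (x * eA t) = ‖x‖ ^ 2 * Real.cos (s - t) := by
  rw [dotC_mul_mul, dotC_eA]

/-- polar form relative to `x` -/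
lemma exists_polar (x z : ℂ) (hx : x ≠ 0) : ∃ t : ℝ, z = ((‖z‖ / ‖x‖ : ℝ) : ℂ) * (x * eA t) := by
  refine ⟨Complex.arg (z / x), ?_⟩
  have h := Complex.norm_mul_exp_arg_mul_I (z / x)
  rw [eA_eq_exp]
  have h1 : ((‖z‖ / ‖x‖ : ℝ) : ℂ) = (‖z / x‖ : ℂ) := by
    rw [norm_div]
  rw [h1]
  calc z = x * (z / x) := by field_simp
    _ = x * (‖z / x‖ * Complex.exp (Complex.arg (z / x) * Complex.I)) := by rw [h]
    _ = _ := by ring

/-- combining two angle conditions -/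
lemma dot_pos_of {a n y : ℂ} {s t : ℝ} (hs : 0 ≤ s) (ht : 0 ≤ t) (hst : s ^ 2 + t ^ 2 = 1)
    (hn : n ≠ 0) (ha : a ≠ 0) (hy : y ≠ 0) (h1 : s * ‖a‖ * ‖n‖ < dotC a n)
    (h2 : t * ‖n‖ * ‖y‖ ≤ dotC n y) : 0 < dotC a y := by
  have hN0 : 0 < ‖n‖ := norm_pos_iff.mpr hn
  have hA0 : 0 < ‖a‖ := norm_pos_iff.mpr ha
  have hY0 : 0 < ‖y‖ := norm_pos_iff.mpr hy
  have e1 := cross_sq a n
  have e2 := cross_sq n y
  set c1 := a.re * n.im - a.im * n.re with hc1
  set c2 := n.re * y.im - n.im * y.re with hc2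
  have e3 : ‖n‖ ^ 2 * dotC a y = dotC a n * dotC n y - c1 * c2 := by
    rw [hc1, hc2, sq_norm]
    simp only [dotC]
    ring
  have hd1 : 0 < dotC a n := lt_of_le_of_lt (by positivity) h1
  have hd2 : 0 ≤ dotC n y := le_trans (by positivity) h2
  -- |c1| < t |a||n|  , |c2| ≤ s |n||y|
  have f1 : c1 ^ 2 < t ^ 2 * (‖a‖ ^ 2 * ‖n‖ ^ 2) := by
    have : (s * ‖a‖ * ‖n‖) ^ 2 < dotC a n ^ 2 := pow_lt_pow_left₀ h1 (by positivity) (by norm_num)
    have h5 : t ^ 2 * (‖a‖ ^ 2 * ‖n‖ ^ 2) = ‖a‖ ^ 2 * ‖n‖ ^ 2 - (s * ‖a‖ * ‖n‖) ^ 2 := by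
      have : t ^ 2 = 1 - s ^ 2 := by linarith
      rw [this]; ring
    rw [h5]
    linarith
  have f2 : c2 ^ 2 ≤ s ^ 2 * (‖n‖ ^ 2 * ‖y‖ ^ 2) := by
    have : (t * ‖n‖ * ‖y‖) ^ 2 ≤ dotC n y ^ 2 := pow_le_pow_left₀ (by positivity) h2 2
    have h5 : s ^ 2 * (‖n‖ ^ 2 * ‖y‖ ^ 2) = ‖n‖ ^ 2 * ‖y‖ ^ 2 - (t * ‖n‖ * ‖y‖) ^ 2 := by
      have : s ^ 2 = 1 - t ^ 2 := by linarith
      rw [this]; ring
    rw [h5]
    linarith
  have htpos : 0 < t := by
    rcases ht.eq_or_lt with h | h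
    · rw [← h] at f1
      simp at f1
      nlinarith [sq_nonneg c1]
    · exact h
  have f3 : |c1| < t * (‖a‖ * ‖n‖) := by
    apply abs_lt_of_sq_lt_sq _ (by positivity)
    calc c1 ^ 2 < t ^ 2 * (‖a‖ ^ 2 * ‖n‖ ^ 2) := f1
      _ = (t * (‖a‖ * ‖n‖)) ^ 2 := by ring
  have f4 : |c2| ≤ s * (‖n‖ * ‖y‖) := by
    apply abs_le_of_sq_le_sq _ (by positivity)
    calc c2 ^ 2 ≤ s ^ 2 * (‖n‖ ^ 2 * ‖y‖ ^ 2) := f2
      _ = (s * (‖n‖ * ‖y‖)) ^ 2 := by ring
  have f5 : c1 * c2 ≤ |c1| * |c2| := by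
    rw [← abs_mul]; exact le_abs_self _
  have f6 : |c1| * |c2| ≤ t * (‖a‖ * ‖n‖) * (s * (‖n‖ * ‖y‖)) :=
    mul_le_mul f3.le f4 (abs_nonneg _) (by positivity)
  have f7 : s * ‖a‖ * ‖n‖ * (t * ‖n‖ * ‖y‖) < dotC a n * dotC n y := by
    have g1 : 0 < t * ‖n‖ * ‖y‖ := by positivity
    calc s * ‖a‖ * ‖n‖ * (t * ‖n‖ * ‖y‖) < dotC a n * (t * ‖n‖ * ‖y‖) :=
          mul_lt_mul_of_pos_right h1 g1
      _ ≤ dotC a n * dotC n y := mul_le_mul_of_nonneg_left h2 hd1.le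
  have f8 : 0 < ‖n‖ ^ 2 * dotC a y := by
    rw [e3]
    nlinarith
  exact pos_of_mul_pos_of_pos f8 (by positivity)
where
  pos_of_mul_pos_of_pos {x y : ℝ} (h : 0 < x * y) (hx : 0 < x) : 0 < y := by
    by_contra hcon
    push Not at hcon
    have := mul_nonpos_of_nonneg_of_nonpos hx.le hcon
    linarith

/-- Rotating by powers of a primitive root of unity of order `p` brings any vector within an angle
`π / p` of any other. -/
lemma exists_rot_gen {p : ℕ} (hp : 2 ≤ p) {ζ : ℂ} (hζ : IsPrimitiveRoot ζ p) (n y : ℂ) :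
    ∃ k : ℕ, Real.cos (Real.pi / p) * ‖n‖ * ‖y‖ ≤ dotC n (ζ ^ k * y) := by
  by_cases hn : n = 0
  · exact ⟨0, by simp [hn, dotC]⟩
  by_cases hy : y = 0
  · exact ⟨0, by simp [hy, dotC]⟩
  have hp0 : (0 : ℝ) < p := by
    have : 0 < p := by omega
    exact_mod_cast this
  have hp2 : (2 : ℝ) ≤ p := by exact_mod_cast hp
  have hpne : (p : ℂ) ≠ 0 := by
    exact_mod_cast hp0.ne'
  have : NeZero p := ⟨by omega⟩
  set c : ℂ := (starRingEnd ℂ) n * y with hc
  have hc0 : c ≠ 0 := mul_ne_zero (by simpa using hn) hy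
  have hcn : ‖c‖ = ‖n‖ * ‖y‖ := by simp [hc]
  set φ : ℝ := Complex.arg c with hφ
  set j : ℤ := round (-φ * p / (2 * Real.pi)) with hj
  have hpi := Real.pi_pos
  have hround : |(-φ * p / (2 * Real.pi)) - j| ≤ 1 / 2 := abs_sub_round _
  have hang : |φ + 2 * Real.pi * j / p| ≤ Real.pi / p := by
    have h1 : φ + 2 * Real.pi * j / p
        = (-(2 * Real.pi / p)) * ((-φ * p / (2 * Real.pi)) - j) := by
      field_simp
      ring
    rw [h1, abs_mul, abs_neg, abs_of_pos (by positivity)]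
    calc 2 * Real.pi / p * |(-φ * p / (2 * Real.pi)) - j|
        ≤ 2 * Real.pi / p * (1 / 2) := by
          apply mul_le_mul_of_nonneg_left hround (by positivity)
      _ = Real.pi / p := by ring
  set ξ : ℂ := Complex.exp ((2 * Real.pi * j / p : ℝ) * Complex.I) with hξ
  have hξp : ξ ^ p = 1 := by
    rw [hξ, ← Complex.exp_nat_mul]
    rw [Complex.exp_eq_one_iff]
    refine ⟨j, ?_⟩
    push_cast
    field_simp
  obtain ⟨k, _, hk⟩ := hζ.eq_pow_of_pow_eq_one hξp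
  refine ⟨k, ?_⟩
  rw [dotC_eq, hk]
  have h2 : (starRingEnd ℂ) n * (ξ * y) = ξ * c := by rw [hc]; ring
  have h3 : c = ‖c‖ * Complex.exp (φ * Complex.I) := (Complex.norm_mul_exp_arg_mul_I c).symm
  have h4 : ξ * c = ‖c‖ * Complex.exp (((φ + 2 * Real.pi * j / p : ℝ) : ℂ) * Complex.I) := by
    calc ξ * c = ξ * (‖c‖ * Complex.exp (φ * Complex.I)) := by rw [← h3]
      _ = ‖c‖ * (ξ * Complex.exp (φ * Complex.I)) := by ring
      _ = ‖c‖ * Complex.exp (((φ + 2 * Real.pi * j / p : ℝ) : ℂ) * Complex.I) := by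
        rw [hξ, ← Complex.exp_add]
        congr 2
        push_cast
        ring
  rw [h2, h4]
  have h5 : ((‖c‖ : ℂ) * Complex.exp (((φ + 2 * Real.pi * j / p : ℝ) : ℂ) * Complex.I)).re
      = ‖c‖ * Real.cos (φ + 2 * Real.pi * j / p) := by
    rw [Complex.re_ofReal_mul, Complex.exp_ofReal_mul_I_re]
  rw [h5, hcn]
  have h6 : Real.cos (Real.pi / p) ≤ Real.cos (φ + 2 * Real.pi * j / p) := by
    rw [← Real.cos_abs (φ + 2 * Real.pi * j / p)]
    apply Real.cos_le_cos_of_nonneg_of_le_pi (abs_nonneg _) _ hang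
    calc Real.pi / p ≤ Real.pi / 1 := by
          apply div_le_div_of_nonneg_left hpi.le (by norm_num) (by linarith)
      _ = Real.pi := by ring
  have h7 : 0 < ‖n‖ * ‖y‖ := mul_pos (norm_pos_iff.mpr hn) (norm_pos_iff.mpr hy)
  nlinarith

/-! ### Functionals on `ℂ × ℝ` -/

/-- vertical coordinate of a functional -/
noncomputable def zc (f : (ℂ × ℝ) →L[ℝ] ℝ) : ℝ := f (0, 1)

/-- the functional with coordinates `a`, `c` -/
noncomputable def mk3 (a : ℂ) (c : ℝ) : (ℂ × ℝ) →L[ℝ] ℝ := mkf a (c • ContinuousLinearMap.id ℝ ℝ)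

@[simp] lemma mk3_apply (a : ℂ) (c : ℝ) (y : ℂ × ℝ) : mk3 a c y = dotC a y.1 + c * y.2 := by
  simp [mk3]

lemma f3_apply (f : (ℂ × ℝ) →L[ℝ] ℝ) (y : ℂ × ℝ) : f y = dotC (nv f) y.1 + zc f * y.2 := by
  rw [f_apply]
  congr 1
  have h : ((0 : ℂ), y.2) = y.2 • ((0 : ℂ), (1 : ℝ)) := by ext <;> simp
  simp only [sv, zc, ContinuousLinearMap.comp_apply, ContinuousLinearMap.inr_apply]
  rw [h, map_smul, smul_eq_mul, mul_comm]

lemma eq_mk3 (f : (ℂ × ℝ) →L[ℝ] ℝ) : f = mk3 (nv f) (zc f) := by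
  ext1
  all_goals
    ext1
    simp only [ContinuousLinearMap.comp_apply]
    rw [f3_apply, mk3_apply]

lemma continuous_zc : Continuous (zc : ((ℂ × ℝ) →L[ℝ] ℝ) → ℝ) :=
  continuous_eval.comp (continuous_id.prodMk continuous_const)

/-- The geometric data used: a compact convex body in `ℂ × ℝ` whose faces have bounded angular
width around the direction of the normal, with poles `(0, β)` and `(0, -α)`. -/
structure PB (p : ℕ) (ζ : ℂ) (K : Set (ℂ × ℝ)) (α β : ℝ) : Prop where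
  hp : 3 ≤ p
  hζ : IsPrimitiveRoot ζ p
  cpt : IsCompact K
  conv : Convex ℝ K
  h0 : (0 : ℂ × ℝ) ∈ interior K
  inv : RotInv ζ K
  hα : 0 < α
  hβ : 0 < β
  top : ((0 : ℂ), β) ∈ K
  bot : ((0 : ℂ), -α) ∈ K
  le_top : ∀ y ∈ K, y.2 ≤ β
  ge_bot : ∀ y ∈ K, -α ≤ y.2

lemma avg_gen {p : ℕ} (hp : 2 ≤ p) {ζ : ℂ} (hζ : IsPrimitiveRoot ζ p) {K : Set (ℂ × ℝ)}
    (hconv : Convex ℝ K) (h : RotInv ζ K) {x : ℂ × ℝ} (hx : x ∈ K) : ((0 : ℂ), x.2) ∈ K := by
  have hp0 : (0 : ℝ) < p := by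
    have : 0 < p := by omega
    exact_mod_cast this
  have hsum : ∑ k ∈ Finset.range p, ((1 : ℝ) / p) • ((ζ ^ k * x.1, x.2) : ℂ × ℝ) ∈ K := by
    apply hconv.sum_mem
    · intro i _; positivity
    · simp [hp0.ne']
    · intro k _; exact h.pow k hx
  have hz : ∑ k ∈ Finset.range p, ζ ^ k = 0 := hζ.geom_sum_eq_zero (by omega)
  have : ∑ k ∈ Finset.range p, ((1 : ℝ) / p) • ((ζ ^ k * x.1, x.2) : ℂ × ℝ) = ((0 : ℂ), x.2) := by
    ext1
    · rw [Prod.fst_sum]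
      simp only [Prod.smul_fst]
      rw [← Finset.smul_sum, ← Finset.sum_mul, hz]
      simp
    · rw [Prod.snd_sum]
      simp only [Prod.smul_snd]
      rw [Finset.sum_const, Finset.card_range, ← Nat.cast_smul_eq_nsmul ℝ, smul_smul]
      field_simp
      simp
  rwa [this] at hsum

lemma PB.mk' {p : ℕ} (hp : 3 ≤ p) {ζ : ℂ} (hζ : IsPrimitiveRoot ζ p) {K : Set (ℂ × ℝ)}
    (hcpt : IsCompact K) (hconv : Convex ℝ K) (h0 : (0 : ℂ × ℝ) ∈ interior K)
    (hinv : RotInv ζ K) : ∃ α β : ℝ, PB p ζ K α β := by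
  have hne : K.Nonempty := ⟨0, interior_subset h0⟩
  obtain ⟨a, ha, hamax⟩ := hcpt.exists_isMaxOn hne (continuous_snd.continuousOn)
  obtain ⟨b, hb, hbmin⟩ := hcpt.exists_isMinOn hne (continuous_snd.continuousOn)
  have ht : ((0 : ℂ), a.2) ∈ K := avg_gen (by omega) hζ hconv hinv ha
  have hb' : ((0 : ℂ), b.2) ∈ K := avg_gen (by omega) hζ hconv hinv hb
  have hf1 : mk3 0 1 ≠ 0 := by
    intro h
    have := congrArg (fun g : (ℂ × ℝ) →L[ℝ] ℝ => g (0, 1)) h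
    simp [dotC] at this
  have hf2 : mk3 0 (-1) ≠ 0 := by
    intro h
    have := congrArg (fun g : (ℂ × ℝ) →L[ℝ] ℝ => g (0, 1)) h
    simp [dotC] at this
  obtain ⟨y, hy, hy0⟩ := exists_pos_of_interior h0 hf1
  obtain ⟨w, hw, hw0⟩ := exists_pos_of_interior h0 hf2
  rw [mk3_apply, dotC_zero_left] at hy0 hw0
  have h1 := hamax hy
  have h2 := hbmin hw
  simp only [mem_ofPred_eq] at h1 h2
  refine ⟨-b.2, a.2, hp, hζ, hcpt, hconv, h0, hinv, by linarith, by linarith, ht, by simpa using hb', ?_, ?_⟩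
  · intro y hy
    exact hamax hy
  · intro y hy
    have := hbmin hy
    simpa using this

namespace PB

variable {p : ℕ} {ζ : ℂ} {K : Set (ℂ × ℝ)} {α β : ℝ}

lemma angle (B : PB p ζ K α β) {f : (ℂ × ℝ) →L[ℝ] ℝ} {y : ℂ × ℝ} (hy : y ∈ face K f) :
    Real.cos (Real.pi / p) * ‖nv f‖ * ‖y.1‖ ≤ dotC (nv f) y.1 := by
  obtain ⟨k, hk⟩ := exists_rot_gen (by have := B.hp; omega) B.hζ (nv f) y.1
  have := hy.2 _ (B.inv.pow k hy.1)
  rw [f3_apply, f3_apply f y] at this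
  simp only at this
  linarith

lemma cos_ge_half (B : PB p ζ K α β) : 1 / 2 ≤ Real.cos (Real.pi / p) := by
  have hp : (3 : ℝ) ≤ p := by exact_mod_cast B.hp
  rw [← Real.cos_pi_div_three]
  have hpi := Real.pi_pos
  apply Real.cos_le_cos_of_nonneg_of_le_pi (by positivity) (by linarith)
  apply div_le_div_of_nonneg_left hpi.le (by norm_num) hp

lemma angle_half (B : PB p ζ K α β) {f : (ℂ × ℝ) →L[ℝ] ℝ} {y : ℂ × ℝ} (hy : y ∈ face K f) :
    1 / 2 * ‖nv f‖ * ‖y.1‖ ≤ dotC (nv f) y.1 := by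
  refine le_trans ?_ (B.angle hy)
  have := B.cos_ge_half
  gcongr

lemma cos_ge_sqrt (B : PB p ζ K α β) (hp4 : 4 ≤ p) : √2 / 2 ≤ Real.cos (Real.pi / p) := by
  have hp : (4 : ℝ) ≤ p := by exact_mod_cast hp4
  rw [← Real.cos_pi_div_four]
  have hpi := Real.pi_pos
  apply Real.cos_le_cos_of_nonneg_of_le_pi (by positivity) (by linarith)
  apply div_le_div_of_nonneg_left hpi.le (by norm_num) hp

lemma angle_sqrt (B : PB p ζ K α β) (hp4 : 4 ≤ p) {f : (ℂ × ℝ) →L[ℝ] ℝ} {y : ℂ × ℝ}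
    (hy : y ∈ face K f) : √2 / 2 * ‖nv f‖ * ‖y.1‖ ≤ dotC (nv f) y.1 := by
  refine le_trans ?_ (B.angle hy)
  have := B.cos_ge_sqrt hp4
  gcongr

/-- points of a face on the axis are poles -/
lemma pole (B : PB p ζ K α β) {f : (ℂ × ℝ) →L[ℝ] ℝ} (hf : f ≠ 0) {y : ℂ × ℝ}
    (hy : y ∈ face K f) (h : y.1 = 0) : y = ((0 : ℂ), β) ∨ y = ((0 : ℂ), -α) := by
  have hpos := pos_of_face B.h0 hf hy
  rw [f3_apply, h, dotC_zero_right, zero_add] at hpos
  rcases lt_trichotomy y.2 0 with h2 | h2 | h2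
  · right
    have hs : zc f < 0 := by
      by_contra hcon
      push Not at hcon
      have := mul_nonpos_of_nonneg_of_nonpos hcon h2.le
      linarith
    have h3 := hy.2 _ B.bot
    rw [f3_apply, f3_apply f y, h, dotC_zero_right] at h3
    simp only [dotC_zero_right, zero_add] at h3
    have h4 : y.2 ≤ -α := by
      by_contra hcon
      push Not at hcon
      have := mul_lt_mul_of_neg_left hcon hs
      linarith
    have h5 := B.ge_bot y hy.1
    exact Prod.ext h (le_antisymm h4 h5)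
  · rw [h2, mul_zero] at hpos
    exact absurd hpos (lt_irrefl _)
  · left
    have hs : 0 < zc f := by
      by_contra hcon
      push Not at hcon
      have := mul_nonpos_of_nonpos_of_nonneg hcon h2.le
      linarith
    have h3 := hy.2 _ B.top
    rw [f3_apply, f3_apply f y, h, dotC_zero_right] at h3
    simp only [dotC_zero_right, zero_add] at h3
    have h4 : β ≤ y.2 := le_of_mul_le_mul_left h3 hs
    exact Prod.ext h (le_antisymm (B.le_top y hy.1) h4)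

/-- a normal with vanishing horizontal part exposes a pole -/
lemma pole_of_nv_zero (B : PB p ζ K α β) {f : (ℂ × ℝ) →L[ℝ] ℝ} (hf : f ≠ 0) (hn : nv f = 0) :
    (((0 : ℂ), β) ∈ face K f ∧ 0 < zc f ∧ ∀ y ∈ face K f, y.2 = β) ∨
    (((0 : ℂ), -α) ∈ face K f ∧ zc f < 0 ∧ ∀ y ∈ face K f, y.2 = -α) := by
  have hz : zc f ≠ 0 := by
    intro h
    apply hf
    rw [eq_mk3 f, hn, h]
    ext1 <;> ext1 <;> simp [dotC]
  rcases lt_or_gt_of_ne hz with h | h
  · right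
    refine ⟨⟨B.bot, ?_⟩, h, ?_⟩
    · intro y hy
      rw [f3_apply, f3_apply f (0, -α), hn, dotC_zero_left, dotC_zero_left]
      have := B.ge_bot y hy
      simp only
      nlinarith
    · intro y hy
      have h3 := hy.2 _ B.bot
      rw [f3_apply, f3_apply f y, hn, dotC_zero_left, dotC_zero_left, zero_add, zero_add] at h3
      simp only at h3
      have h4 : y.2 ≤ -α := by
        by_contra hcon
        push Not at hcon
        have := mul_lt_mul_of_neg_left hcon h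
        linarith
      exact le_antisymm h4 (B.ge_bot y hy.1)
  · left
    refine ⟨⟨B.top, ?_⟩, h, ?_⟩
    · intro y hy
      rw [f3_apply, f3_apply f (0, β), hn, dotC_zero_left, dotC_zero_left]
      have := B.le_top y hy
      simp only
      nlinarith
    · intro y hy
      have h3 := hy.2 _ B.top
      rw [f3_apply, f3_apply f y, hn, dotC_zero_left, dotC_zero_left, zero_add, zero_add] at h3
      simp only at h3
      have h4 : β ≤ y.2 := le_of_mul_le_mul_left h3 h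
      exact le_antisymm (B.le_top y hy.1) h4

/-- reflection in the horizontal plane -/
lemma flip (B : PB p ζ K α β) : PB p ζ ((fun y : ℂ × ℝ => (y.1, -y.2)) '' K) β α := by
  have hc : Continuous (fun y : ℂ × ℝ => (y.1, -y.2)) := by fun_prop
  have hmem : ∀ y : ℂ × ℝ, y ∈ (fun y : ℂ × ℝ => (y.1, -y.2)) '' K ↔ (y.1, -y.2) ∈ K := by
    intro y
    constructor
    · rintro ⟨w, hw, rfl⟩
      simpa using hw
    · intro h
      exact ⟨_, h, by simp⟩
  refine ⟨B.hp, B.hζ, B.cpt.image hc, ?_, ?_, ?_, B.hβ, B.hα, ?_, ?_, ?_, ?_⟩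
  · intro x hx y hy a b ha hb hab
    rw [hmem] at hx hy ⊢
    have := B.conv hx hy ha hb hab
    convert this using 1
    ext1
    · simp
    · simp
      ring
  · rw [mem_interior_iff_mem_nhds]
    have h1 : (fun y : ℂ × ℝ => (y.1, -y.2)) '' K = (fun y : ℂ × ℝ => (y.1, -y.2)) ⁻¹' K := by
      ext y
      rw [hmem]
      rfl
    rw [h1]
    apply hc.continuousAt.preimage_mem_nhds
    simp only [Prod.fst_zero, Prod.snd_zero, neg_zero]
    exact mem_interior_iff_mem_nhds.mp B.h0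
  · intro x hx
    rw [hmem] at hx ⊢
    exact B.inv _ hx
  · rw [hmem]; exact B.bot
  · rw [hmem]; simpa using B.top
  · intro y hy
    rw [hmem] at hy
    have := B.ge_bot _ hy
    simp only at this
    linarith
  · intro y hy
    rw [hmem] at hy
    have := B.le_top _ hy
    simp only at this
    linarith

end PB

lemma Sep.of_flip {K : Set (ℂ × ℝ)} {N : ℕ} (h : Sep ((fun y : ℂ × ℝ => (y.1, -y.2)) '' K) N) :
    Sep K N := by
  let T : (ℂ × ℝ) ≃L[ℝ] (ℂ × ℝ) :=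
    (ContinuousLinearEquiv.refl ℝ ℂ).prodCongr (ContinuousLinearEquiv.neg ℝ)
  have h2 := h.image T
  have h3 : T '' ((fun y : ℂ × ℝ => (y.1, -y.2)) '' K) = K := by
    rw [← image_comp]
    have : (T ∘ fun y : ℂ × ℝ => (y.1, -y.2)) = id := by
      ext y <;> simp [T]
    rw [this, image_id]
  rwa [h3] at h2

end Pool.Agent.Lib.MP_5e7226_co
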