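import Pool.Agent.Lib.MP_5e7226_co.R3Glue

set_option autoImplicit false

open Set Filter Topology

namespace Pool.Agent.Lib.MP_5e7226_co

/-- the normals at a pole, in horizontal coordinates -/
def MS (K : Set (ℂ × ℝ)) (c : ℝ) : Set ℂ := {n | ∀ y ∈ K, dotC n y.1 + c * y.2 ≤ 1}

lemma MS_convex (K : Set (ℂ × ℝ)) (c : ℝ) : Convex ℝ (MS K c) := by
  intro x hx y hy a b ha hb hab z hz
  have h1 := hx z hz
  have h2 := hy z hz
  have h3 : dotC (a • x + b • y) z.1 = a * dotC x z.1 + b * dotC y z.1 := by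
    rw [dotC_add_left, Complex.real_smul, Complex.real_smul, dotC_ofReal_left, dotC_ofReal_left]
  rw [h3]
  have h4 := mul_le_mul_of_nonneg_left h1 ha
  have h5 := mul_le_mul_of_nonneg_left h2 hb
  have h6 : c * z.2 = (a + b) * (c * z.2) := by rw [hab, one_mul]
  rw [h6]
  nlinarith

lemma MS_closed (K : Set (ℂ × ℝ)) (c : ℝ) : IsClosed (MS K c) := by
  have : MS K c = ⋂ y ∈ K, {n : ℂ | dotC n y.1 + c * y.2 ≤ 1} := by
    ext n
    simp [MS]
  rw [this]
  apply isClosed_biInter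
  intro y _
  apply isClosed_le _ continuous_const
  exact (continuous_dotC.comp (continuous_id.prodMk continuous_const)).add continuous_const

lemma MS_bounded {K : Set (ℂ × ℝ)} (h0 : (0 : ℂ × ℝ) ∈ interior K) (c : ℝ) :
    ∃ R : ℝ, ∀ n ∈ MS K c, ‖n‖ ≤ R := by
  obtain ⟨ε, hε, hball⟩ := Metric.isOpen_iff.mp isOpen_interior _ h0
  refine ⟨2 / ε, ?_⟩
  intro n hn
  by_cases hn0 : n = 0
  · rw [hn0]; simp; positivity
  have hnn : 0 < ‖n‖ := norm_pos_iff.mpr hn0
  have hmem : (((ε / (2 * ‖n‖) : ℝ) : ℂ) * n, (0 : ℝ)) ∈ K := by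
    apply interior_subset
    apply hball
    rw [Metric.mem_ball, dist_zero_right, Prod.norm_def]
    have : ‖((ε / (2 * ‖n‖) : ℝ) : ℂ) * n‖ = ε / 2 := by
      rw [norm_mul, Complex.norm_real, Real.norm_of_nonneg (by positivity)]
      field_simp
    simp only [this]
    rw [norm_zero, max_lt_iff]
    constructor <;> linarith
  have h1 := hn _ hmem
  simp only [dotC_ofReal_right, dotC_self, mul_zero, add_zero] at h1
  have h2 : ε / (2 * ‖n‖) * ‖n‖ ^ 2 = ε * ‖n‖ / 2 := by field_simp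
  rw [h2] at h1
  rw [le_div_iff₀ hε]
  linarith

/-- adjoint of a rotation -/
lemma dotC_mul_left (z a b : ℂ) : dotC (z * a) b = dotC a ((starRingEnd ℂ) z * b) := by
  simp only [dotC, Complex.mul_re, Complex.mul_im, Complex.conj_re, Complex.conj_im]
  ring

lemma PB.MS_rot {p : ℕ} {ζ : ℂ} {K : Set (ℂ × ℝ)} {α β : ℝ} (B : PB p ζ K α β) (c : ℝ) {n : ℂ}
    (hn : n ∈ MS K c) : ζ * n ∈ MS K c := by
  intro y hy
  have hp := B.hp
  have hnorm : ‖ζ‖ = 1 := B.hζ.norm'_eq_one (by omega)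
  have hconj : (starRingEnd ℂ) ζ = ζ ^ (p - 1) := by
    have h1 : ζ * (starRingEnd ℂ) ζ = 1 := by
      rw [Complex.mul_conj, Complex.normSq_eq_norm_sq, hnorm]; simp
    have h2 : ζ * ζ ^ (p - 1) = 1 := by
      rw [← pow_succ', Nat.sub_add_cancel (by omega), B.hζ.pow_eq_one]
    have h3 : ζ ≠ 0 := by
      intro h; rw [h] at hnorm; simp at hnorm
    exact mul_left_cancel₀ h3 (h1.trans h2.symm)
  rw [dotC_mul_left, hconj]
  exact hn _ (B.inv.pow (p - 1) hy)

/-- the data of a planar set of pole normals -/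
structure PM (p : ℕ) (ζ : ℂ) (M : Set ℂ) : Prop where
  hp : 3 ≤ p
  hζ : IsPrimitiveRoot ζ p
  conv : Convex ℝ M
  cpt : IsCompact M
  rot : ∀ n ∈ M, ζ * n ∈ M
  h0 : (0 : ℂ) ∈ interior M

lemma rot_pow_mem {ζ : ℂ} {M : Set ℂ} (h : ∀ n ∈ M, ζ * n ∈ M) (k : ℕ) {n : ℂ} (hn : n ∈ M) :
    ζ ^ k * n ∈ M := by
  induction k with
  | zero => simpa using hn
  | succ k ih =>
    have := h _ ih
    rwa [pow_succ', mul_assoc]

lemma cos_pi_ge_half {p : ℕ} (hp3 : 3 ≤ p) : 1 / 2 ≤ Real.cos (Real.pi / p) := by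
  have hp : (3 : ℝ) ≤ p := by exact_mod_cast hp3
  rw [← Real.cos_pi_div_three]
  have hpi := Real.pi_pos
  apply Real.cos_le_cos_of_nonneg_of_le_pi (by positivity) (by linarith)
  apply div_le_div_of_nonneg_left hpi.le (by norm_num) hp

/-- a closed convex rotation invariant set contains the inscribed disc of an orbit -/
lemma ball_mem {p : ℕ} (hp : 3 ≤ p) {ζ : ℂ} (hζ : IsPrimitiveRoot ζ p) {M : Set ℂ}
    (hconv : Convex ℝ M) (hcl : IsClosed M) (hrot : ∀ n ∈ M, ζ * n ∈ M) {x : ℂ} (hx : x ∈ M)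
    {q : ℂ} (hq : ‖q‖ ≤ Real.cos (Real.pi / p) * ‖x‖) : q ∈ M := by
  by_contra hcon
  obtain ⟨f, s, hf1, hf2⟩ := geometric_hahn_banach_closed_point hconv hcl hcon
  set w : ℂ := ⟨f 1, f Complex.I⟩ with hw
  have hfw : ∀ z : ℂ, f z = dotC w z := by
    intro z
    have h : z = z.re • (1 : ℂ) + z.im • Complex.I := by
      apply Complex.ext <;> simp
    conv_lhs => rw [h]
    rw [map_add, map_smul, map_smul]
    simp [hw, dotC, mul_comm]
  obtain ⟨k, hk⟩ := exists_rot_gen (by omega) hζ w x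
  have h1 := hf1 _ (rot_pow_mem hrot k hx)
  rw [hfw] at h1 hf2
  have h2 := dotC_le w q
  have h3 : ‖w‖ * ‖q‖ ≤ ‖w‖ * (Real.cos (Real.pi / p) * ‖x‖) :=
    mul_le_mul_of_nonneg_left hq (norm_nonneg _)
  nlinarith

lemma PM.of_mem {p : ℕ} (hp : 3 ≤ p) {ζ : ℂ} (hζ : IsPrimitiveRoot ζ p) {M : Set ℂ}
    (hconv : Convex ℝ M) (hcpt : IsCompact M) (hrot : ∀ n ∈ M, ζ * n ∈ M) {x : ℂ} (hx : x ∈ M)
    (hx0 : x ≠ 0) : PM p ζ M := by
  refine ⟨hp, hζ, hconv, hcpt, hrot, ?_⟩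
  rw [mem_interior]
  refine ⟨Metric.ball 0 (Real.cos (Real.pi / p) * ‖x‖), ?_, Metric.isOpen_ball, ?_⟩
  · intro q hq
    rw [Metric.mem_ball, dist_zero_right] at hq
    exact ball_mem hp hζ hconv hcpt.isClosed hrot hx hq.le
  · rw [Metric.mem_ball, dist_self]
    have := cos_pi_ge_half hp
    have := norm_pos_iff.mpr hx0
    have : 0 < Real.cos (Real.pi / p) := by linarith
    positivity

lemma PM.far {p : ℕ} {ζ : ℂ} {M : Set ℂ} (P : PM p ζ M) :
    ∃ x ∈ M, x ≠ 0 ∧ ∀ y ∈ M, ‖y‖ ≤ ‖x‖ := by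
  obtain ⟨x, hx, hmax⟩ := P.cpt.exists_isMaxOn ⟨0, interior_subset P.h0⟩ continuous_norm.continuousOn
  refine ⟨x, hx, ?_, fun y hy => hmax hy⟩
  rintro rfl
  obtain ⟨ε, hε, hball⟩ := Metric.isOpen_iff.mp isOpen_interior _ P.h0
  have h1 : ((ε / 2 : ℝ) : ℂ) ∈ M := by
    apply interior_subset
    apply hball
    rw [Metric.mem_ball, dist_zero_right, Complex.norm_real, Real.norm_of_nonneg (by positivity)]
    linarith
  have h2 : ‖((ε / 2 : ℝ) : ℂ)‖ ≤ ‖(0 : ℂ)‖ := hmax h1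
  rw [Complex.norm_real, Real.norm_of_nonneg (by positivity), norm_zero] at h2
  linarith

/-- normals of a pole -/
lemma pole_mem {K : Set (ℂ × ℝ)} {b : ℝ} {f : (ℂ × ℝ) →L[ℝ] ℝ} (hPf : ((0 : ℂ), b) ∈ face K f)
    (hpos : 0 < zc f * b) : (((zc f * b)⁻¹ : ℝ) : ℂ) * nv f ∈ MS K b⁻¹ := by
  intro y hy
  have h1 := hPf.2 y hy
  rw [f3_apply, f3_apply f (0, b)] at h1
  simp only [dotC_zero_right, zero_add] at h1
  rw [dotC_ofReal_left]
  have hb : b ≠ 0 := by rintro rfl; simp at hpos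
  have hz : zc f ≠ 0 := by intro h; rw [h] at hpos; simp at hpos
  have h2 : (zc f * b)⁻¹ * dotC (nv f) y.1 + b⁻¹ * y.2
      = (zc f * b)⁻¹ * (dotC (nv f) y.1 + zc f * y.2) := by
    field_simp
  rw [h2]
  calc (zc f * b)⁻¹ * (dotC (nv f) y.1 + zc f * y.2) ≤ (zc f * b)⁻¹ * (zc f * b) :=
        mul_le_mul_of_nonneg_left h1 (inv_pos.mpr hpos).le
    _ = 1 := inv_mul_cancel₀ hpos.ne'

lemma pole_local {K : Set (ℂ × ℝ)} {b : ℝ} {f : (ℂ × ℝ) →L[ℝ] ℝ}
    (hPf : ((0 : ℂ), b) ∈ face K f) (hpos : 0 < zc f * b) {u : ℂ} {l : ℝ} (hl : 0 < l)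
    (hx : (((zc f * b)⁻¹ : ℝ) : ℂ) * nv f - (l : ℂ) * u ∈ interior (MS K b⁻¹)) :
    (∀ y ∈ face K f, y.1 ≠ 0 → 0 < dotC u y.1) ∧
      ∀ᶠ f' in 𝓝 f, ∀ y ∈ face K f', 0 ≤ dotC u y.1 := by
  have hb : b ≠ 0 := by rintro rfl; simp at hpos
  have key : ∀ f' : (ℂ × ℝ) →L[ℝ] ℝ, 0 < zc f' * b → ∀ y ∈ face K f',
      1 ≤ dotC ((((zc f' * b)⁻¹ : ℝ) : ℂ) * nv f') y.1 + b⁻¹ * y.2 := by
    intro f' hf' y hy
    have hz : zc f' ≠ 0 := by intro h; rw [h] at hf'; simp at hf'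
    have h1 := hy.2 _ hPf.1
    rw [f3_apply, f3_apply f' y] at h1
    simp only [dotC_zero_right, zero_add] at h1
    rw [dotC_ofReal_left]
    have h2 : (zc f' * b)⁻¹ * dotC (nv f') y.1 + b⁻¹ * y.2
        = (zc f' * b)⁻¹ * (dotC (nv f') y.1 + zc f' * y.2) := by
      field_simp
    rw [h2]
    calc 1 = (zc f' * b)⁻¹ * (zc f' * b) := (inv_mul_cancel₀ hf'.ne').symm
      _ ≤ _ := mul_le_mul_of_nonneg_left h1 (inv_pos.mpr hf').le
  constructor
  · intro y hy hy0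
    have h1 := key f hpos y hy
    -- interior point gives strict inequality
    have h2 : dotC ((((zc f * b)⁻¹ : ℝ) : ℂ) * nv f - (l : ℂ) * u) y.1 + b⁻¹ * y.2 < 1 := by
      set x' := (((zc f * b)⁻¹ : ℝ) : ℂ) * nv f - (l : ℂ) * u with hx'
      have hc : Continuous (fun t : ℝ => x' + (t : ℂ) * y.1) := by fun_prop
      have hev : ∀ᶠ t : ℝ in 𝓝 0, x' + (t : ℂ) * y.1 ∈ interior (MS K b⁻¹) := by
        apply hc.continuousAt.eventually_mem
        simp only [Complex.ofReal_zero, zero_mul, add_zero]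
        exact isOpen_interior.mem_nhds hx
      obtain ⟨t, ht, htpos⟩ := ((hev.filter_mono nhdsWithin_le_nhds).and
        (self_mem_nhdsWithin : Set.Ioi (0 : ℝ) ∈ 𝓝[>] (0 : ℝ))).exists
      have h3 := interior_subset ht y hy.1
      rw [dotC_add_left, dotC_ofReal_left, dotC_self] at h3
      have h4 : 0 < t * ‖y.1‖ ^ 2 := by
        have := norm_pos_iff.mpr hy0
        have htp : 0 < t := htpos
        positivity
      linarith
    rw [dotC_sub_left, dotC_ofReal_left l u] at h2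
    have h3 : 0 < l * dotC u y.1 := by linarith
    exact (mul_pos_iff_of_pos_left hl).mp h3
  · have c1 : ContinuousAt (fun f' : (ℂ × ℝ) →L[ℝ] ℝ => zc f' * b) f :=
      (continuous_zc.mul continuous_const).continuousAt
    have c2 : ContinuousAt (fun f' : (ℂ × ℝ) →L[ℝ] ℝ =>
        (((zc f' * b)⁻¹ : ℝ) : ℂ) * nv f' - (l : ℂ) * u) f := by
      apply ContinuousAt.sub _ continuousAt_const
      apply ContinuousAt.mul _ (continuous_nv (W := ℝ)).continuousAt
      exact Complex.continuous_ofReal.continuousAt.comp (c1.inv₀ hpos.ne')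
    have e1 : ∀ᶠ f' in 𝓝 f, 0 < zc f' * b := continuousAt_const.eventually_lt c1 hpos
    have e2 : ∀ᶠ f' in 𝓝 f, (((zc f' * b)⁻¹ : ℝ) : ℂ) * nv f' - (l : ℂ) * u
        ∈ interior (MS K b⁻¹) := c2.eventually_mem (isOpen_interior.mem_nhds hx)
    filter_upwards [e1, e2] with f' h1 h2 y hy
    have h3 := key f' h1 y hy
    have h4 := interior_subset h2 y hy.1
    rw [dotC_sub_left, dotC_ofReal_left l u] at h4
    have h5 : 0 ≤ l * dotC u y.1 := by linarith
    exact (mul_nonneg_iff_of_pos_left hl).mp h5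

/-- `u` covers the normals in `M` -/
def Covers {ι : Type*} (M : Set ℂ) (u : ι → ℂ) : Prop :=
  ∀ x ∈ M, ∃ i, ∃ l : ℝ, 0 < l ∧ x - (l : ℂ) * u i ∈ interior M

theorem PB.c3 {p : ℕ} {ζ : ℂ} {K : Set (ℂ × ℝ)} {α β : ℝ} (B : PB p ζ K α β)
    {ι κ : Type*} [Fintype ι] [Fintype κ] {u : ι → ℂ} {v : κ → ℂ}
    (hu : Covers (MS K β⁻¹) u) (hv : Covers (MS K (-α)⁻¹) v)
    (hw : ∀ f : (ℂ × ℝ) →L[ℝ] ℝ, f ≠ 0 → ((0 : ℂ), β) ∉ face K f → ((0 : ℂ), -α) ∉ face K f →
      (∃ i, ∀ y ∈ face K f, 0 < dotC (u i) y.1) ∨ (∃ i, ∀ y ∈ face K f, 0 < dotC (v i) y.1))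
    {n : ℕ} (hn : Fintype.card ι + Fintype.card κ ≤ n) : Sep K n := by
  have hα := B.hα
  have hβ := B.hβ
  refine glue B.cpt (τ := Fin 0) u v (fun _ => 0) ?_ (by simpa using hn)
  intro f hf
  by_cases hN : ((0 : ℂ), β) ∈ face K f
  · right; right; right; left
    have hpos : 0 < zc f * β := by
      have := pos_of_face B.h0 hf hN
      rw [f3_apply] at this
      simpa [dotC_zero_right] using this
    obtain ⟨i, l, hl, hi⟩ := hu _ (pole_mem hN hpos)
    obtain ⟨h1, h2⟩ := pole_local hN hpos hl hi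
    refine ⟨i, ?_, h2⟩
    intro y hy
    by_cases hy0 : y.1 = 0
    · right
      rcases B.pole hf hy hy0 with h | h
      · rw [h]; exact hβ
      · exfalso
        have h3 := pos_of_face B.h0 hf hy
        rw [h, f3_apply] at h3
        simp only [dotC_zero_right, zero_add] at h3
        have h4 : 0 < zc f := (mul_pos_iff_of_pos_right hβ).mp hpos
        have h5 := mul_pos h4 hα
        linarith
    · left; exact h1 y hy hy0
  by_cases hS : ((0 : ℂ), -α) ∈ face K f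
  · right; right; right; right; left
    have hpos : 0 < zc f * (-α) := by
      have := pos_of_face B.h0 hf hS
      rw [f3_apply] at this
      simpa [dotC_zero_right] using this
    obtain ⟨i, l, hl, hi⟩ := hv _ (pole_mem hS hpos)
    obtain ⟨h1, h2⟩ := pole_local hS hpos hl hi
    refine ⟨i, ?_, h2⟩
    intro y hy
    by_cases hy0 : y.1 = 0
    · right
      rcases B.pole hf hy hy0 with h | h
      · rw [h] at hy; exact absurd hy hN
      · rw [h]; simp only; linarith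
    · left; exact h1 y hy hy0
  rcases hw f hf hN hS with h | h
  · right; left; exact h
  · right; right; left; exact h

lemma PB.pm_top {p : ℕ} {ζ : ℂ} {K : Set (ℂ × ℝ)} {α β : ℝ} (B : PB p ζ K α β)
    (hT : TopCross K β) : PM p ζ (MS K β⁻¹) := by
  obtain ⟨f, hf, hN, y, hy, hy0⟩ := hT
  have hβ := B.hβ
  have hα := B.hα
  have hn : nv f ≠ 0 := by
    intro h
    rcases B.pole_of_nv_zero hf h with h1 | h1
    · have := h1.2.2 y hy
      linarith
    · have := h1.2.2 _ hN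
      linarith
  have hpos : 0 < zc f * β := by
    have := pos_of_face B.h0 hf hN
    rw [f3_apply] at this
    simpa [dotC_zero_right] using this
  obtain ⟨R, hR⟩ := MS_bounded B.h0 β⁻¹
  have hcpt : IsCompact (MS K β⁻¹) := by
    apply Metric.isCompact_of_isClosed_isBounded (MS_closed K _)
    exact (Metric.isBounded_closedBall (x := (0 : ℂ)) (r := R)).subset (by
      intro n hn; rw [Metric.mem_closedBall, dist_zero_right]; exact hR n hn)
  refine PM.of_mem B.hp B.hζ (MS_convex K _) hcpt (fun n hn => B.MS_rot _ hn) (pole_mem hN hpos) ?_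
  apply mul_ne_zero _ hn
  exact_mod_cast (inv_pos.mpr hpos).ne'

lemma PB.pm_bot {p : ℕ} {ζ : ℂ} {K : Set (ℂ × ℝ)} {α β : ℝ} (B : PB p ζ K α β)
    (hT : BotCross K α) : PM p ζ (MS K (-α)⁻¹) := by
  obtain ⟨f, hf, hN, y, hy, hy0⟩ := hT
  have hβ := B.hβ
  have hα := B.hα
  have hn : nv f ≠ 0 := by
    intro h
    rcases B.pole_of_nv_zero hf h with h1 | h1
    · have := h1.2.2 _ hN
      linarith
    · have := h1.2.2 y hy
      linarith
  have hpos : 0 < zc f * (-α) := by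
    have := pos_of_face B.h0 hf hN
    rw [f3_apply] at this
    simpa [dotC_zero_right] using this
  obtain ⟨R, hR⟩ := MS_bounded B.h0 (-α)⁻¹
  have hcpt : IsCompact (MS K (-α)⁻¹) := by
    apply Metric.isCompact_of_isClosed_isBounded (MS_closed K _)
    exact (Metric.isBounded_closedBall (x := (0 : ℂ)) (r := R)).subset (by
      intro n hn; rw [Metric.mem_closedBall, dist_zero_right]; exact hR n hn)
  refine PM.of_mem B.hp B.hζ (MS_convex K _) hcpt (fun n hn => B.MS_rot _ hn) (pole_mem hN hpos) ?_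
  apply mul_ne_zero _ hn
  exact_mod_cast (inv_pos.mpr hpos).ne'

end Pool.Agent.Lib.MP_5e7226_co
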