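import Pool.Agent.Lib.MP_5e7226_co.R3Base

set_option autoImplicit false

open Set Filter Topology

namespace Pool.Agent.Lib.MP_5e7226_co

lemma face_convex {K : Set (ℂ × ℝ)} (hK : Convex ℝ K) (f : (ℂ × ℝ) →L[ℝ] ℝ) :
    Convex ℝ (face K f) := by
  intro x hx y hy a b ha hb hab
  refine ⟨hK hx.1 hy.1 ha hb hab, ?_⟩
  intro z hz
  rw [map_add, map_smul, map_smul, smul_eq_mul, smul_eq_mul]
  have h1 := hx.2 z hz
  have h2 := hy.2 z hz
  calc f z = a * f z + b * f z := by rw [← add_mul, hab, one_mul]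
    _ ≤ a * f x + b * f y := by
      have := mul_le_mul_of_nonneg_left h1 ha
      have := mul_le_mul_of_nonneg_left h2 hb
      linarith

lemma face_val {K : Set (ℂ × ℝ)} {f : (ℂ × ℝ) →L[ℝ] ℝ} {x y : ℂ × ℝ} (hx : x ∈ face K f)
    (hy : y ∈ face K f) : f x = f y := le_antisymm (hy.2 x hx.1) (hx.2 y hy.1)

/-- a face with points on both sides of the horizontal plane meets it -/
lemma exists_level {K : Set (ℂ × ℝ)} (hK : Convex ℝ K) {f : (ℂ × ℝ) →L[ℝ] ℝ} {x y : ℂ × ℝ}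
    (hx : x ∈ face K f) (hy : y ∈ face K f) (h1 : x.2 ≤ 0) (h2 : 0 ≤ y.2) :
    ∃ w ∈ face K f, w.2 = 0 := by
  by_cases h : y.2 - x.2 = 0
  · exact ⟨x, hx, by linarith⟩
  have hpos : 0 < y.2 - x.2 := lt_of_le_of_ne (by linarith) (Ne.symm h)
  refine ⟨(y.2 / (y.2 - x.2)) • x + (-x.2 / (y.2 - x.2)) • y, ?_, ?_⟩
  · apply face_convex hK f hx hy
    · positivity
    · apply div_nonneg (by linarith) hpos.le
    · rw [← add_div, ← sub_eq_add_neg, div_self h]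
  · simp only [Prod.snd_add, Prod.smul_snd, smul_eq_mul]
    field_simp
    ring

/-- the directions `g * (primitive root)^j` -/
noncomputable def dirN (N : ℕ) (g : ℂ) (j : Fin N) : ℂ :=
  Complex.exp (2 * Real.pi * Complex.I / N) ^ (j : ℕ) * g

lemma dirN_pow {N : ℕ} (hN : N ≠ 0) (g : ℂ) (j : Fin N) : dirN N g j ^ N = g ^ N := by
  have h := Complex.isPrimitiveRoot_exp N hN
  rw [dirN, mul_pow, ← pow_mul, mul_comm (j : ℕ) N, pow_mul, h.pow_eq_one, one_pow, one_mul]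

lemma norm_dirN {N : ℕ} (hN : N ≠ 0) {g : ℂ} (hg : ‖g‖ = 1) (j : Fin N) : ‖dirN N g j‖ = 1 := by
  have h := Complex.isPrimitiveRoot_exp N hN
  rw [dirN, norm_mul, norm_pow, h.norm'_eq_one hN, one_pow, one_mul, hg]

lemma exists_dirN {N : ℕ} (hN : 2 ≤ N) {g : ℂ} (hg : ‖g‖ = 1) (ν : ℂ) :
    ∃ j : Fin N, Real.cos (Real.pi / N) * ‖ν‖ ≤ dotC (dirN N g j) ν := by
  have hN0 : N ≠ 0 := by omega
  have h := Complex.isPrimitiveRoot_exp N hN0
  obtain ⟨k, hk⟩ := exists_rot_gen hN h ν g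
  refine ⟨⟨k % N, Nat.mod_lt _ (by omega)⟩, ?_⟩
  rw [hg, mul_one] at hk
  rw [dotC_comm, dirN]
  simp only
  have h2 : Complex.exp (2 * Real.pi * Complex.I / N) ^ (k % N)
      = Complex.exp (2 * Real.pi * Complex.I / N) ^ k := by
    conv_rhs => rw [← Nat.div_add_mod k N, pow_add, pow_mul, h.pow_eq_one, one_pow, one_mul]
  rw [h2]
  exact hk

/-- equality discussion for two complementary angles -/
lemma dot_nonpos_eq {a n y : ℂ} {s t : ℝ} (hs : 0 ≤ s) (ht : 0 ≤ t) (hst : s ^ 2 + t ^ 2 = 1)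
    (hn : n ≠ 0) (ha : a ≠ 0) (hy : y ≠ 0) (h1 : s * ‖a‖ * ‖n‖ ≤ dotC a n)
    (h2 : t * ‖n‖ * ‖y‖ ≤ dotC n y) (h3 : dotC a y ≤ 0) :
    dotC a n = s * ‖a‖ * ‖n‖ ∧ dotC n y = t * ‖n‖ * ‖y‖ := by
  constructor
  · rcases h1.eq_or_lt with h | h
    · exact h.symm
    · exact absurd (dot_pos_of hs ht hst hn ha hy h h2) (not_lt.mpr h3)
  · rcases h2.eq_or_lt with h | h
    · exact h.symm
    · exfalso
      have h4 : t * ‖y‖ * ‖n‖ < dotC y n := by rw [dotC_comm y n]; linarith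
      have h5 : s * ‖n‖ * ‖a‖ ≤ dotC n a := by rw [dotC_comm n a]; linarith
      have := dot_pos_of ht hs (by linarith) hn hy ha h4 h5
      rw [dotC_comm] at this
      linarith

/-- The key algebraic inequality. -/
lemma key_ineq {a b μ : ℂ} (hang : 1 / 2 * ‖a‖ * ‖μ‖ ≤ dotC a μ) (hpos : 0 < dotC a μ)
    (huv : |a.re * b.im - a.im * b.re| ≤ √3 * dotC a b)
    (h0 : dotC b μ ≤ dotC a μ)
    (h1 : dotC b (⟨-1/2, √3/2⟩ * μ) ≤ dotC a μ)
    (h2 : dotC b (⟨-1/2, -(√3/2)⟩ * μ) ≤ dotC a μ) :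
    ‖b‖ ^ 2 ≤ dotC a b + √3 * |a.re * b.im - a.im * b.re| := by
  have h3 : √3 ^ 2 = 3 := Real.sq_sqrt (by norm_num)
  have h3p : 0 < √3 := Real.sqrt_pos.mpr (by norm_num)
  set u := dotC a b with hu
  set v := a.re * b.im - a.im * b.re with hv
  set P := dotC a μ with hP
  set Q := a.re * μ.im - a.im * μ.re with hQ
  have ha0 : a ≠ 0 := by
    rintro rfl
    rw [hP, dotC_zero_left] at hpos
    exact lt_irrefl _ hpos
  have hA : 0 < ‖a‖ ^ 2 := by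
    have := norm_pos_iff.mpr ha0
    positivity
  have euv : u ^ 2 + v ^ 2 = ‖a‖ ^ 2 * ‖b‖ ^ 2 := cross_sq a b
  have ePQ : P ^ 2 + Q ^ 2 = ‖a‖ ^ 2 * ‖μ‖ ^ 2 := cross_sq a μ
  -- the three products
  have e0 : ‖a‖ ^ 2 * dotC b μ = u * P + v * Q := by
    rw [sq_norm, hu, hv, hP, hQ]; simp only [dotC]; ring
  have e1 : ‖a‖ ^ 2 * dotC b (⟨-1/2, √3/2⟩ * μ)
      = -(1/2) * (u * P + v * Q) - √3 / 2 * (u * Q - v * P) := by
    rw [sq_norm, hu, hv, hP, hQ]; simp only [dotC, Complex.mul_re, Complex.mul_im]; ring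
  have e2 : ‖a‖ ^ 2 * dotC b (⟨-1/2, -(√3/2)⟩ * μ)
      = -(1/2) * (u * P + v * Q) + √3 / 2 * (u * Q - v * P) := by
    rw [sq_norm, hu, hv, hP, hQ]; simp only [dotC, Complex.mul_re, Complex.mul_im]; ring
  have g0 : u * P + v * Q ≤ ‖a‖ ^ 2 * P := by
    rw [← e0]; exact mul_le_mul_of_nonneg_left h0 hA.le
  have g1 : -(1/2) * (u * P + v * Q) - √3 / 2 * (u * Q - v * P) ≤ ‖a‖ ^ 2 * P := by
    rw [← e1]; exact mul_le_mul_of_nonneg_left h1 hA.le
  have g2 : -(1/2) * (u * P + v * Q) + √3 / 2 * (u * Q - v * P) ≤ ‖a‖ ^ 2 * P := by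
    rw [← e2]; exact mul_le_mul_of_nonneg_left h2 hA.le
  have hu0 : 0 ≤ u := by
    by_contra hcon
    push Not at hcon
    have := abs_nonneg v
    nlinarith
  have main : u ^ 2 + v ^ 2 ≤ ‖a‖ ^ 2 * (u + √3 * |v|) := by
    have hT : 0 ≤ u + √3 * |v| := by positivity
    suffices h : (u ^ 2 + v ^ 2) * P ≤ ‖a‖ ^ 2 * (u + √3 * |v|) * P from
      le_of_mul_le_mul_right h hpos
    rcases le_or_gt 0 v with hv0 | hv0
    · rw [abs_of_nonneg hv0] at hT ⊢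
      set E := √3 * (u * P + v * Q) + (u * Q - v * P) with hE
      rcases le_or_gt 0 E with hE0 | hE0
      · have i1 : (u * P + v * Q) * (u + √3 * v) - (u ^ 2 + v ^ 2) * P = v * E := by
          rw [hE]
          ring_nf
          try rw [h3]
          try ring
        have i2 : (u * P + v * Q) * (u + √3 * v) ≤ ‖a‖ ^ 2 * P * (u + √3 * v) :=
          mul_le_mul_of_nonneg_right g0 hT
        have i3 : 0 ≤ v * E := mul_nonneg hv0 hE0
        linarith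
      · have i1 : (-(1/2) * (u * P + v * Q) - √3 / 2 * (u * Q - v * P)) * (u + √3 * v)
            - (u ^ 2 + v ^ 2) * P = -(1/2) * (√3 * u + v) * E := by
          rw [hE]
          linear_combination (-(1/2) * v * u * Q + (1/2) * v ^ 2 * P + (1/2) * u ^ 2 * P
            + 1/2 * u * v * Q) * h3
        have i2 : (-(1/2) * (u * P + v * Q) - √3 / 2 * (u * Q - v * P)) * (u + √3 * v)
            ≤ ‖a‖ ^ 2 * P * (u + √3 * v) := mul_le_mul_of_nonneg_right g1 hT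
        have i3 : 0 ≤ -(1/2) * (√3 * u + v) * E := by
          have h5 : 0 ≤ √3 * u + v := by positivity
          have h6 := mul_nonneg h5 (neg_nonneg.mpr hE0.le)
          linarith
        linarith
    · rw [abs_of_neg hv0] at hT ⊢
      set E := √3 * (u * P + v * Q) - (u * Q - v * P) with hE
      rcases le_or_gt 0 E with hE0 | hE0
      · have i1 : (u * P + v * Q) * (u + √3 * -v) - (u ^ 2 + v ^ 2) * P = -v * E := by
          rw [hE]
          ring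
        have i2 : (u * P + v * Q) * (u + √3 * -v) ≤ ‖a‖ ^ 2 * P * (u + √3 * -v) :=
          mul_le_mul_of_nonneg_right g0 hT
        have i3 : 0 ≤ -v * E := mul_nonneg (by linarith) hE0
        linarith
      · have i1 : (-(1/2) * (u * P + v * Q) + √3 / 2 * (u * Q - v * P)) * (u + √3 * -v)
            - (u ^ 2 + v ^ 2) * P = -(1/2) * (√3 * u - v) * E := by
          rw [hE]
          linear_combination (-(1/2) * v * u * Q + (1/2) * v ^ 2 * P + (1/2) * u ^ 2 * P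
            + 1/2 * u * v * Q) * h3
        have i2 : (-(1/2) * (u * P + v * Q) + √3 / 2 * (u * Q - v * P)) * (u + √3 * -v)
            ≤ ‖a‖ ^ 2 * P * (u + √3 * -v) := mul_le_mul_of_nonneg_right g2 hT
        have i3 : 0 ≤ -(1/2) * (√3 * u - v) * E := by
          have h4 : 0 ≤ √3 * u := by positivity
          have h5 : 0 ≤ √3 * u - v := by linarith
          have h6 := mul_nonneg h5 (neg_nonneg.mpr hE0.le)
          linarith
        linarith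
  rw [euv] at main
  exact le_of_mul_le_mul_left main hA


/-- the two primitive cube roots of unity -/
noncomputable def om1 : ℂ := ⟨-1/2, √3/2⟩
noncomputable def om2 : ℂ := ⟨-1/2, -(√3/2)⟩

lemma sqrt3_sq : √3 * √3 = 3 := Real.mul_self_sqrt (by norm_num)

lemma om1_mul_om2 : om1 * om2 = 1 := by
  apply Complex.ext
  · simp only [om1, om2, Complex.mul_re, Complex.one_re]
    nlinarith [sqrt3_sq]
  · simp only [om1, om2, Complex.mul_im, Complex.one_im]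
    ring

lemma om1_sq : om1 * om1 = om2 := by
  apply Complex.ext
  · simp only [om1, om2, Complex.mul_re]
    nlinarith [sqrt3_sq]
  · simp only [om1, om2, Complex.mul_im]
    ring

lemma om2_sq : om2 * om2 = om1 := by
  apply Complex.ext
  · simp only [om1, om2, Complex.mul_re]
    nlinarith [sqrt3_sq]
  · simp only [om1, om2, Complex.mul_im]
    ring

lemma om_sum : 1 + om1 + om2 = 0 := by
  apply Complex.ext
  · simp [om1, om2]; ring
  · simp [om1, om2]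

lemma om1_cube : om1 ^ 3 = 1 := by
  have : om1 ^ 3 = om1 * om1 * om1 := by ring
  rw [this, om1_sq, mul_comm, om1_mul_om2]

lemma om2_cube : om2 ^ 3 = 1 := by
  have : om2 ^ 3 = om2 * om2 * om2 := by ring
  rw [this, om2_sq, om1_mul_om2]

lemma norm_om1 : ‖om1‖ = 1 := by
  have h : ‖om1‖ ^ 3 = 1 := by rw [← norm_pow, om1_cube, norm_one]
  exact (pow_eq_one_iff_of_nonneg (norm_nonneg _) (by norm_num)).mp h

lemma norm_om2 : ‖om2‖ = 1 := by
  have h : ‖om2‖ ^ 3 = 1 := by rw [← norm_pow, om2_cube, norm_one]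
  exact (pow_eq_one_iff_of_nonneg (norm_nonneg _) (by norm_num)).mp h

lemma prim_cube {ζ : ℂ} (h : IsPrimitiveRoot ζ 3) : ζ = om1 ∨ ζ = om2 := by
  have h3 : ζ ^ 3 = 1 := h.pow_eq_one
  have h1 : ζ ≠ 1 := h.ne_one (by norm_num)
  have h2 : ζ ^ 2 + ζ + 1 = 0 := by
    have : (ζ - 1) * (ζ ^ 2 + ζ + 1) = 0 := by
      have : (ζ - 1) * (ζ ^ 2 + ζ + 1) = ζ ^ 3 - 1 := by ring
      rw [this, h3, sub_self]
    rcases mul_eq_zero.mp this with h4 | h4
    · exact absurd (sub_eq_zero.mp h4) h1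
    · exact h4
  have h4 : (ζ - om1) * (ζ - om2) = 0 := by
    have h5 : om1 + om2 = -1 := by linear_combination om_sum
    calc (ζ - om1) * (ζ - om2) = ζ ^ 2 - ζ * (om1 + om2) + om1 * om2 := by ring
      _ = ζ ^ 2 + ζ + 1 := by rw [h5, om1_mul_om2]; ring
      _ = 0 := h2
  rcases mul_eq_zero.mp h4 with h5 | h5
  · left; exact sub_eq_zero.mp h5
  · right; exact sub_eq_zero.mp h5

lemma PB.inv_om {ζ : ℂ} {K : Set (ℂ × ℝ)} {α β : ℝ} (B : PB 3 ζ K α β) :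
    RotInv om1 K ∧ RotInv om2 K := by
  rcases prim_cube B.hζ with h | h
  · have h1 : RotInv om1 K := by rw [← h]; exact B.inv
    refine ⟨h1, ?_⟩
    intro x hx
    have := h1 _ (h1 x hx)
    simp only at this
    rwa [← mul_assoc, om1_sq] at this
  · have h1 : RotInv om2 K := by rw [← h]; exact B.inv
    refine ⟨?_, h1⟩
    intro x hx
    have := h1 _ (h1 x hx)
    simp only at this
    rwa [← mul_assoc, om2_sq] at this

/-- adjointness of the two rotations -/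
lemma dotC_om1 (a b : ℂ) : dotC (om1 * a) b = dotC a (om2 * b) := by
  simp only [dotC, om1, om2, Complex.mul_re, Complex.mul_im]
  ring

lemma dotC_om2 (a b : ℂ) : dotC (om2 * a) b = dotC a (om1 * b) := by
  simp only [dotC, om1, om2, Complex.mul_re, Complex.mul_im]
  ring

/-- exceptional faces (normalised): the face spans the full angle and meets the plane -/
structure Exc (K : Set (ℂ × ℝ)) (ν : ℂ) (z ρ m : ℝ) (μ : ℂ) : Prop where
  hν : ν ≠ 0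
  le : ∀ y ∈ K, dotC ν y.1 + z * y.2 ≤ 1
  hρ : 0 < ρ
  mem1 : ((ρ : ℂ) * (ν * ⟨1/2, √3/2⟩), m) ∈ K
  mem2 : ((ρ : ℂ) * (ν * ⟨1/2, -(√3/2)⟩), m) ∈ K
  val : ρ * ‖ν‖ ^ 2 / 2 + z * m = 1
  mu_mem : (μ, (0 : ℝ)) ∈ K
  mu_val : dotC ν μ = 1
  mu_ang : 1 / 2 * ‖ν‖ * ‖μ‖ ≤ dotC ν μ

lemma Exc.rot1 {K : Set (ℂ × ℝ)} {ν : ℂ} {z ρ m : ℝ} {μ : ℂ} (E : Exc K ν z ρ m μ)
    (h1 : RotInv om1 K) (h2 : RotInv om2 K) : Exc K (om1 * ν) z ρ m (om1 * μ) where
  hν := mul_ne_zero (by intro h; have := norm_om1; rw [h] at this; simp at this) E.hν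
  le := by
    intro y hy
    rw [dotC_om1]
    exact E.le _ (h2 y hy)
  hρ := E.hρ
  mem1 := by
    have := h1 _ E.mem1
    simp only at this
    convert this using 2
    ring
  mem2 := by
    have := h1 _ E.mem2
    simp only at this
    convert this using 2
    ring
  val := by rw [norm_mul, norm_om1, one_mul]; exact E.val
  mu_mem := h1 _ E.mu_mem
  mu_val := by rw [dotC_mul_mul, norm_om1, one_pow, one_mul]; exact E.mu_val
  mu_ang := by
    rw [dotC_mul_mul, norm_om1, one_pow, one_mul, norm_mul, norm_mul, norm_om1, one_mul, one_mul]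
    exact E.mu_ang

lemma Exc.rot_pow {K : Set (ℂ × ℝ)} {ν : ℂ} {z ρ m : ℝ} {μ : ℂ} (E : Exc K ν z ρ m μ)
    (h1 : RotInv om1 K) (h2 : RotInv om2 K) (k : ℕ) :
    Exc K (om1 ^ k * ν) z ρ m (om1 ^ k * μ) := by
  induction k with
  | zero => simpa using E
  | succ k ih =>
    have := ih.rot1 h1 h2
    simpa [pow_succ', mul_assoc] using this

lemma Exc.core {K : Set (ℂ × ℝ)} {ν₁ ν₂ : ℂ} {z₁ ρ₁ m₁ z₂ ρ₂ m₂ : ℝ} {μ₁ μ₂ : ℂ}
    (E₁ : Exc K ν₁ z₁ ρ₁ m₁ μ₁) (E₂ : Exc K ν₂ z₂ ρ₂ m₂ μ₂)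
    (h1 : RotInv om1 K) (h2 : RotInv om2 K) (hu : 1 / 2 * ‖ν₁‖ * ‖ν₂‖ ≤ dotC ν₁ ν₂)
    (hm : 0 < m₁ * m₂ ∨ (m₁ = 0 ∧ m₂ = 0)) : ν₁ = ν₂ := by
  have h3 : √3 ^ 2 = 3 := Real.sq_sqrt (by norm_num)
  have h3p : 0 < √3 := Real.sqrt_pos.mpr (by norm_num)
  have euv := cross_sq ν₁ ν₂
  have hcr : ν₂.re * ν₁.im - ν₂.im * ν₁.re = -(ν₁.re * ν₂.im - ν₁.im * ν₂.re) := by ring
  have hn1 : 0 < ‖ν₁‖ := norm_pos_iff.mpr E₁.hν
  have hn2 : 0 < ‖ν₂‖ := norm_pos_iff.mpr E₂.hν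
  have hu0 : 0 < dotC ν₁ ν₂ := lt_of_lt_of_le (by positivity) hu
  have habs : |ν₁.re * ν₂.im - ν₁.im * ν₂.re| ≤ √3 * dotC ν₁ ν₂ := by
    apply abs_le_of_sq_le_sq _ (by positivity)
    rw [mul_pow, h3]
    have h5 : (1 / 2 * ‖ν₁‖ * ‖ν₂‖) ^ 2 ≤ dotC ν₁ ν₂ ^ 2 := pow_le_pow_left₀ (by positivity) hu 2
    nlinarith
  -- the two key inequalities
  have k1 : ‖ν₁‖ ^ 2 ≤ dotC ν₁ ν₂ + √3 * |ν₁.re * ν₂.im - ν₁.im * ν₂.re| := by
    have h := key_ineq (a := ν₂) (b := ν₁) (μ := μ₂) E₂.mu_ang (by rw [E₂.mu_val]; norm_num)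
      (by rw [hcr, abs_neg, dotC_comm ν₂ ν₁]; exact habs)
      (by rw [E₂.mu_val]; simpa using E₁.le _ E₂.mu_mem)
      (by rw [E₂.mu_val]; have := E₁.le _ (h1 _ E₂.mu_mem); simpa [om1] using this)
      (by rw [E₂.mu_val]; have := E₁.le _ (h2 _ E₂.mu_mem); simpa [om2] using this)
    rwa [hcr, abs_neg, dotC_comm ν₂ ν₁] at h
  have k2 : ‖ν₂‖ ^ 2 ≤ dotC ν₁ ν₂ + √3 * |ν₁.re * ν₂.im - ν₁.im * ν₂.re| :=
    key_ineq (a := ν₁) (b := ν₂) (μ := μ₁) E₁.mu_ang (by rw [E₁.mu_val]; norm_num) habs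
      (by rw [E₁.mu_val]; simpa using E₂.le _ E₁.mu_mem)
      (by rw [E₁.mu_val]; have := E₂.le _ (h1 _ E₁.mu_mem); simpa [om1] using this)
      (by rw [E₁.mu_val]; have := E₂.le _ (h2 _ E₁.mu_mem); simpa [om2] using this)
  set u := dotC ν₁ ν₂ with hudef
  set v := ν₁.re * ν₂.im - ν₁.im * ν₂.re with hvdef
  -- values at the rotated points
  have p1 : dotC ν₂ (ν₁ * ⟨1/2, √3/2⟩) = 1/2 * u + √3/2 * v := by
    rw [hudef, hvdef]; simp only [dotC, Complex.mul_re, Complex.mul_im]; ring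
  have p2 : dotC ν₂ (ν₁ * ⟨1/2, -(√3/2)⟩) = 1/2 * u - √3/2 * v := by
    rw [hudef, hvdef]; simp only [dotC, Complex.mul_re, Complex.mul_im]; ring
  have q1 : dotC ν₁ (ν₂ * ⟨1/2, √3/2⟩) = 1/2 * u - √3/2 * v := by
    rw [hudef, hvdef]; simp only [dotC, Complex.mul_re, Complex.mul_im]; ring
  have q2 : dotC ν₁ (ν₂ * ⟨1/2, -(√3/2)⟩) = 1/2 * u + √3/2 * v := by
    rw [hudef, hvdef]; simp only [dotC, Complex.mul_re, Complex.mul_im]; ring
  set T := u + √3 * |v| with hT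
  have i1 : ρ₁ * (T - ‖ν₁‖ ^ 2) / 2 ≤ (z₁ - z₂) * m₁ := by
    have a1 := E₂.le _ E₁.mem1
    have a2 := E₂.le _ E₁.mem2
    simp only [dotC_ofReal_right, p1, p2] at a1 a2
    have hval := E₁.val
    rcases abs_cases v with ⟨hv, _⟩ | ⟨hv, _⟩ <;> rw [hT, hv] <;> nlinarith
  have i2 : ρ₂ * (T - ‖ν₂‖ ^ 2) / 2 ≤ (z₂ - z₁) * m₂ := by
    have a1 := E₁.le _ E₂.mem1
    have a2 := E₁.le _ E₂.mem2
    simp only [dotC_ofReal_right, q1, q2] at a1 a2
    have hval := E₂.val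
    rcases abs_cases v with ⟨hv, _⟩ | ⟨hv, _⟩ <;> rw [hT, hv] <;> nlinarith
  have j1 : 0 ≤ ρ₁ * (T - ‖ν₁‖ ^ 2) / 2 := by
    have := mul_nonneg E₁.hρ.le (sub_nonneg.mpr k1)
    linarith
  have j2 : 0 ≤ ρ₂ * (T - ‖ν₂‖ ^ 2) / 2 := by
    have := mul_nonneg E₂.hρ.le (sub_nonneg.mpr k2)
    linarith
  have hz : (z₁ - z₂) * m₁ = 0 ∧ (z₂ - z₁) * m₂ = 0 := by
    rcases hm with hm | ⟨hm1, hm2⟩
    · have h4 : 0 ≤ (z₁ - z₂) * m₁ := j1.trans i1
      have h5 : 0 ≤ (z₂ - z₁) * m₂ := j2.trans i2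
      have h6 := mul_nonneg h4 h5
      have h7 : (z₁ - z₂) * m₁ * ((z₂ - z₁) * m₂) = -((z₁ - z₂) ^ 2 * (m₁ * m₂)) := by ring
      rw [h7] at h6
      have h8 : (z₁ - z₂) ^ 2 = 0 := by
        by_contra hcon
        have : 0 < (z₁ - z₂) ^ 2 := lt_of_le_of_ne (sq_nonneg _) (Ne.symm hcon)
        have := mul_pos this hm
        linarith
      have h9 : z₁ - z₂ = 0 := by simpa using h8
      have h10 : z₂ - z₁ = 0 := by linarith
      rw [h9, h10]; simp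
    · rw [hm1, hm2]; simp
  have t1 : T = ‖ν₁‖ ^ 2 := by
    have h4 : ρ₁ * (T - ‖ν₁‖ ^ 2) = 0 := by linarith [hz.1]
    rcases mul_eq_zero.mp h4 with h | h
    · exact absurd h E₁.hρ.ne'
    · linarith
  have t2 : T = ‖ν₂‖ ^ 2 := by
    have h4 : ρ₂ * (T - ‖ν₂‖ ^ 2) = 0 := by linarith [hz.2]
    rcases mul_eq_zero.mp h4 with h | h
    · exact absurd h E₂.hρ.ne'
    · linarith
  have hv0 : v = 0 := by
    by_contra hcon
    have hvp : 0 < |v| := abs_pos.mpr hcon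
    rw [← t1, ← t2] at euv
    have h4 : T * T = u ^ 2 + 2 * √3 * u * |v| + 3 * v ^ 2 := by
      rw [hT, ← sq_abs v]
      linear_combination (|v| ^ 2) * h3
    have h5 : 0 < √3 * u * |v| := by positivity
    nlinarith [sq_nonneg v]
  have hT2 : T = u := by rw [hT, hv0]; simp
  have h6 : ‖ν₁ - ν₂‖ ^ 2 = 0 := by
    have : ‖ν₁ - ν₂‖ ^ 2 = ‖ν₁‖ ^ 2 - 2 * u + ‖ν₂‖ ^ 2 := by
      rw [← dotC_self, dotC_sub_left, dotC_sub_right, dotC_sub_right, dotC_self, dotC_self,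
        dotC_comm ν₂ ν₁]
      ring
    rw [this]
    linarith
  have h7 : ‖ν₁ - ν₂‖ = 0 := by simpa using h6
  exact sub_eq_zero.mp (norm_eq_zero.mp h7)

lemma prim_om1 : IsPrimitiveRoot om1 3 := by
  rw [IsPrimitiveRoot.iff_def]
  refine ⟨om1_cube, ?_⟩
  intro l hl
  have h1 : om1 ≠ 1 := by
    intro h
    have := congrArg Complex.re h
    simp [om1] at this
    norm_num at this
  have h2 : om1 ^ 2 ≠ 1 := by
    rw [sq, om1_sq]
    intro h
    have := congrArg Complex.re h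
    simp [om2] at this
    norm_num at this
  have h3 : om1 ^ (l % 3) = 1 := by
    have := hl
    rw [← Nat.div_add_mod l 3, pow_add, pow_mul, om1_cube, one_pow, one_mul] at this
    exact this
  have h4 : l % 3 < 3 := Nat.mod_lt _ (by norm_num)
  interval_cases h : l % 3
  · exact Nat.dvd_of_mod_eq_zero h
  · simp at h3; exact absurd h3 h1
  · exact absurd h3 h2

lemma Exc.unique {K : Set (ℂ × ℝ)} {ν₁ ν₂ : ℂ} {z₁ ρ₁ m₁ z₂ ρ₂ m₂ : ℝ} {μ₁ μ₂ : ℂ}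
    (E₁ : Exc K ν₁ z₁ ρ₁ m₁ μ₁) (E₂ : Exc K ν₂ z₂ ρ₂ m₂ μ₂)
    (h1 : RotInv om1 K) (h2 : RotInv om2 K)
    (hm : 0 < m₁ * m₂ ∨ (m₁ = 0 ∧ m₂ = 0)) : ν₁ ^ 6 = ν₂ ^ 6 ∧ ‖ν₁‖ = ‖ν₂‖ := by
  obtain ⟨k, hk⟩ := exists_rot_gen (by norm_num) prim_om1 ν₁ ν₂
  have hc : Real.cos (Real.pi / (3 : ℕ)) = 1 / 2 := by
    have : ((3 : ℕ) : ℝ) = 3 := by norm_num
    rw [this, Real.cos_pi_div_three]
  rw [hc] at hk
  have hpow : ‖om1 ^ k‖ = 1 := by rw [norm_pow, norm_om1, one_pow]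
  have := E₁.core (E₂.rot_pow h1 h2 k) h1 h2 (by rw [norm_mul, hpow, one_mul]; exact hk) hm
  rw [this]
  constructor
  · rw [mul_pow, ← pow_mul, mul_comm k 6, show 6 * k = 3 * (2 * k) by ring, pow_mul, om1_cube,
      one_pow, one_mul]
  · rw [norm_mul, hpow, one_mul]

end Pool.Agent.Lib.MP_5e7226_co
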