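import Pool.Agent.Lib.MP_5e7226_co.R3Case1

set_option autoImplicit false

open Set Filter Topology

namespace Pool.Agent.Lib.MP_5e7226_co

def TopCross (K : Set (ℂ × ℝ)) (β : ℝ) : Prop :=
  ∃ f : (ℂ × ℝ) →L[ℝ] ℝ, f ≠ 0 ∧ ((0 : ℂ), β) ∈ face K f ∧ ∃ y ∈ face K f, y.2 ≤ 0

def BotCross (K : Set (ℂ × ℝ)) (α : ℝ) : Prop :=
  ∃ f : (ℂ × ℝ) →L[ℝ] ℝ, f ≠ 0 ∧ ((0 : ℂ), -α) ∈ face K f ∧ ∃ y ∈ face K f, 0 ≤ y.2

/-- faces without poles: all points off the axis and the normal is not vertical -/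
lemma PB.off_axis {p : ℕ} {ζ : ℂ} {K : Set (ℂ × ℝ)} {α β : ℝ} (B : PB p ζ K α β)
    {f : (ℂ × ℝ) →L[ℝ] ℝ} (hf : f ≠ 0) (hN : ((0 : ℂ), β) ∉ face K f)
    (hS : ((0 : ℂ), -α) ∉ face K f) : nv f ≠ 0 ∧ ∀ y ∈ face K f, y.1 ≠ 0 := by
  constructor
  · intro h
    rcases B.pole_of_nv_zero hf h with h1 | h1
    · exact hN h1.1
    · exact hS h1.1
  · intro y hy h
    rcases B.pole hf hy h with h1 | h1
    · rw [h1] at hy; exact hN hy
    · rw [h1] at hy; exact hS hy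

lemma cos_pi_six' : Real.cos (Real.pi / (6 : ℕ)) = √3 / 2 := by
  have : ((6 : ℕ) : ℝ) = 6 := by norm_num
  rw [this, Real.cos_pi_div_six]

lemma sqrt2_lt_sqrt3 : √2 < √3 := Real.sqrt_lt_sqrt (by norm_num) (by norm_num)

lemma sqrt2_sq : √2 ^ 2 = 2 := Real.sq_sqrt (by norm_num)

/-- case 1 for `p ≥ 4` -/
lemma PB.case1_four {p : ℕ} {ζ : ℂ} {K : Set (ℂ × ℝ)} {α β : ℝ} (B : PB p ζ K α β) (hp4 : 4 ≤ p)
    {f : (ℂ × ℝ) →L[ℝ] ℝ} (hf : f ≠ 0) (hN : ((0 : ℂ), β) ∉ face K f)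
    (hS : ((0 : ℂ), -α) ∉ face K f) {g : ℂ} (hg : ‖g‖ = 1) :
    ∃ j : Fin 6, ∀ y ∈ face K f, 0 < dotC (dirN 6 g j) y.1 := by
  obtain ⟨hn, hoff⟩ := B.off_axis hf hN hS
  obtain ⟨j, hj⟩ := exists_dirN (N := 6) (by norm_num) hg (nv f)
  refine ⟨j, ?_⟩
  intro y hy
  rw [cos_pi_six'] at hj
  have hnn : 0 < ‖nv f‖ := norm_pos_iff.mpr hn
  have hu : ‖dirN 6 g j‖ = 1 := norm_dirN (by norm_num) hg j
  have hu0 : dirN 6 g j ≠ 0 := by
    intro h; rw [h] at hu; simp at hu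
  have h2 : √2 / 2 * ‖dirN 6 g j‖ * ‖nv f‖ < dotC (dirN 6 g j) (nv f) := by
    rw [hu, mul_one]
    have := sqrt2_lt_sqrt3
    have : √2 / 2 * ‖nv f‖ < √3 / 2 * ‖nv f‖ := by
      apply mul_lt_mul_of_pos_right _ hnn
      linarith
    linarith
  have hs := sqrt2_sq
  exact dot_pos_of (s := √2 / 2) (t := √2 / 2) (by positivity) (by positivity)
    (by nlinarith) hn hu0 (hoff y hy) h2 (B.angle_sqrt hp4 hy)

lemma eA_pow (t : ℝ) (n : ℕ) : eA t ^ n = eA (n * t) := by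
  rw [eA_eq_exp, eA_eq_exp, ← Complex.exp_nat_mul]
  congr 1
  push_cast
  ring

lemma pow_six_of_dot {u ν : ℂ} (hu : ‖u‖ = 1) (hν : ν ≠ 0)
    (h : dotC u ν = √3 / 2 * ‖u‖ * ‖ν‖) : ν ^ 6 = -((‖ν‖ : ℝ) : ℂ) ^ 6 * u ^ 6 := by
  have hu0 : u ≠ 0 := by
    intro h; rw [h] at hu; simp at hu
  obtain ⟨t, ht⟩ := exists_polar u ν hu0
  rw [hu, div_one] at ht
  have hn : 0 < ‖ν‖ := norm_pos_iff.mpr hν
  have hc : Real.cos t = √3 / 2 := by
    rw [ht, dotC_ofReal_right] at h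
    have h1 : dotC u (u * eA t) = Real.cos t := by
      have := dotC_mul_eA u 0 t
      rw [eA_zero, mul_one, hu, zero_sub, Real.cos_neg] at this
      rw [this]; ring
    have h2 : ‖((‖ν‖ : ℝ) : ℂ) * (u * eA t)‖ = ‖ν‖ := by
      rw [norm_mul, norm_mul, hu, norm_eA]
      simp
    rw [h1, h2, hu] at h
    have h3 : ‖ν‖ * (Real.cos t - √3 / 2) = 0 := by linarith
    rcases mul_eq_zero.mp h3 with h4 | h4
    · exact absurd h4 hn.ne'
    · linarith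
  have h3 : √3 ^ 2 = 3 := Real.sq_sqrt (by norm_num)
  have hs : Real.sin t ^ 2 = 1 / 4 := by
    have := Real.sin_sq_add_cos_sq t
    rw [hc] at this
    nlinarith
  have e2 : eA t * eA t = ⟨1/2, 2 * (Real.cos t * Real.sin t)⟩ := by
    apply Complex.ext
    · simp only [Complex.mul_re, eA_re, eA_im]
      rw [hc]
      nlinarith
    · simp only [Complex.mul_im, eA_re, eA_im]
      ring
  have e3 : eA t * eA t * eA t = ⟨0, 2 * Real.sin t⟩ := by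
    rw [e2]
    apply Complex.ext
    · simp only [Complex.mul_re, eA_re, eA_im]
      have : 1 / 2 * Real.cos t - 2 * (Real.cos t * Real.sin t) * Real.sin t
        = Real.cos t * (1 / 2 - 2 * Real.sin t ^ 2) := by ring
      rw [this, hs]
      norm_num
    · simp only [Complex.mul_im, eA_re, eA_im]
      have : 1 / 2 * Real.sin t + 2 * (Real.cos t * Real.sin t) * Real.cos t
        = Real.sin t * (1 / 2 + 2 * Real.cos t ^ 2) := by ring
      rw [this, hc]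
      have : (√3 / 2) ^ 2 = 3 / 4 := by nlinarith
      rw [this]
      ring
  have e6 : eA t ^ 6 = -1 := by
    have : eA t ^ 6 = (eA t * eA t * eA t) * (eA t * eA t * eA t) := by ring
    rw [this, e3]
    apply Complex.ext
    · simp only [Complex.mul_re, Complex.neg_re, Complex.one_re]
      nlinarith
    · simp only [Complex.mul_im, Complex.neg_im, Complex.one_im]
      ring
  conv_lhs => rw [ht]
  rw [mul_pow, mul_pow, e6]
  ring

lemma cases_of_half {ν y : ℂ} (hν : ν ≠ 0) (hy : y ≠ 0)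
    (h : dotC ν y = 1 / 2 * ‖ν‖ * ‖y‖) :
    y = ((‖y‖ / ‖ν‖ : ℝ) : ℂ) * (ν * ⟨1/2, √3/2⟩) ∨
    y = ((‖y‖ / ‖ν‖ : ℝ) : ℂ) * (ν * ⟨1/2, -(√3/2)⟩) := by
  obtain ⟨t, ht⟩ := exists_polar ν y hν
  have hn : 0 < ‖ν‖ := norm_pos_iff.mpr hν
  have hyn : 0 < ‖y‖ := norm_pos_iff.mpr hy
  have hc : Real.cos t = 1 / 2 := by
    have h1 : dotC ν (ν * eA t) = ‖ν‖ ^ 2 * Real.cos t := by
      have := dotC_mul_eA ν 0 t
      rwa [eA_zero, mul_one, zero_sub, Real.cos_neg] at this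
    have h2 : dotC ν y = ‖y‖ / ‖ν‖ * (‖ν‖ ^ 2 * Real.cos t) := by
      conv_lhs => rw [ht]
      rw [dotC_ofReal_right, h1]
    rw [h2] at h
    have h3 : ‖y‖ * ‖ν‖ * (Real.cos t - 1 / 2) = 0 := by
      have : ‖y‖ / ‖ν‖ * (‖ν‖ ^ 2 * Real.cos t) = ‖y‖ * ‖ν‖ * Real.cos t := by
        field_simp
      rw [this] at h
      linarith
    rcases mul_eq_zero.mp h3 with h4 | h4
    · exact absurd h4 (mul_pos hyn hn).ne'
    · linarith
  have h3 : √3 ^ 2 = 3 := Real.sq_sqrt (by norm_num)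
  have hs : Real.sin t ^ 2 = (√3 / 2) ^ 2 := by
    have := Real.sin_sq_add_cos_sq t
    rw [hc] at this
    nlinarith
  rcases sq_eq_sq_iff_eq_or_eq_neg.mp hs with h5 | h5
  · left
    have : eA t = ⟨1/2, √3/2⟩ := Complex.ext hc h5
    rw [← this]; exact ht
  · right
    have : eA t = ⟨1/2, -(√3/2)⟩ := Complex.ext hc h5
    rw [← this]; exact ht

lemma half_om1 : om2 * (⟨1/2, √3/2⟩ : ℂ) = ⟨1/2, -(√3/2)⟩ := by
  apply Complex.ext
  · simp only [om2, Complex.mul_re]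
    nlinarith [sqrt3_sq]
  · simp only [om2, Complex.mul_im]
    ring

lemma half_om2 : om1 * (⟨1/2, -(√3/2)⟩ : ℂ) = ⟨1/2, √3/2⟩ := by
  apply Complex.ext
  · simp only [om1, Complex.mul_re]
    nlinarith [sqrt3_sq]
  · simp only [om1, Complex.mul_im]
    ring

/-- failure of the hexagonal family yields exceptional data -/
lemma PB.exc_of_fail {ζ : ℂ} {K : Set (ℂ × ℝ)} {α β : ℝ} (B : PB 3 ζ K α β)
    {f : (ℂ × ℝ) →L[ℝ] ℝ} (hf : f ≠ 0) (hN : ((0 : ℂ), β) ∉ face K f)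
    (hS : ((0 : ℂ), -α) ∉ face K f) {w : ℂ × ℝ} (hw : w ∈ face K f) (hw0 : w.2 = 0) {g : ℂ}
    (hg : ‖g‖ = 1) (hfail : ∀ j : Fin 6, ∃ y ∈ face K f, dotC (dirN 6 g j) y.1 ≤ 0) :
    ∃ ν z ρ m μ, Exc K ν z ρ m μ ∧ ν ^ 6 = -((‖ν‖ : ℝ) : ℂ) ^ 6 * g ^ 6 := by
  obtain ⟨hn, hoff⟩ := B.off_axis hf hN hS
  obtain ⟨hi1, hi2⟩ := B.inv_om
  obtain ⟨j, hj⟩ := exists_dirN (N := 6) (by norm_num) hg (nv f)
  obtain ⟨y, hy, hy0⟩ := hfail j
  rw [cos_pi_six'] at hj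
  have h3 : √3 ^ 2 = 3 := Real.sq_sqrt (by norm_num)
  have hnn : 0 < ‖nv f‖ := norm_pos_iff.mpr hn
  have hyn : 0 < ‖y.1‖ := norm_pos_iff.mpr (hoff y hy)
  have hu : ‖dirN 6 g j‖ = 1 := norm_dirN (by norm_num) hg j
  have hu0 : dirN 6 g j ≠ 0 := by
    intro h; rw [h] at hu; simp at hu
  have hang := B.angle_half hy
  obtain ⟨e1, e2⟩ := dot_nonpos_eq (s := √3 / 2) (t := 1 / 2) (by positivity) (by norm_num)
    (by nlinarith) hn hu0 (hoff y hy) (by rw [hu, mul_one]; exact hj) hang hy0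
  have hM : 0 < f y := pos_of_face B.h0 hf hy
  set M := f y with hMdef
  set ν := nv f with hνdef
  set z := zc f with hzdef
  have hfy : M = dotC ν y.1 + z * y.2 := by rw [hMdef, f3_apply]
  -- the normalised normal
  have hMc : (M : ℂ) ≠ 0 := by exact_mod_cast hM.ne'
  have hpow := pow_six_of_dot hu hn e1
  rw [dirN_pow (by norm_num)] at hpow
  have hpts : (((‖y.1‖ / ‖ν‖ : ℝ) : ℂ) * (ν * ⟨1/2, √3/2⟩), y.2) ∈ K ∧
      (((‖y.1‖ / ‖ν‖ : ℝ) : ℂ) * (ν * ⟨1/2, -(√3/2)⟩), y.2) ∈ K := by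
    rcases cases_of_half hn (hoff y hy) e2 with h | h
    · constructor
      · rw [← h]; exact hy.1
      · have h4 := hi2 _ hy.1
        rw [h] at h4
        rw [← half_om1]
        convert h4 using 2
        ring
    · constructor
      · have h4 := hi1 _ hy.1
        rw [h] at h4
        rw [← half_om2]
        convert h4 using 2
        ring
      · rw [← h]; exact hy.1
  refine ⟨((M⁻¹ : ℝ) : ℂ) * ν, M⁻¹ * z, M * (‖y.1‖ / ‖ν‖), y.2, w.1, ?_, ?_⟩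
  · constructor
    · apply mul_ne_zero _ hn
      exact_mod_cast (inv_pos.mpr hM).ne'
    · intro x hx
      have h4 := hy.2 x hx
      rw [f3_apply f x] at h4
      rw [dotC_ofReal_left]
      calc M⁻¹ * dotC ν x.1 + M⁻¹ * z * x.2 = M⁻¹ * (dotC ν x.1 + z * x.2) := by ring
        _ ≤ M⁻¹ * M := mul_le_mul_of_nonneg_left h4 (inv_pos.mpr hM).le
        _ = 1 := inv_mul_cancel₀ hM.ne'
    · positivity
    · have : ((M * (‖y.1‖ / ‖ν‖) : ℝ) : ℂ) * (((M⁻¹ : ℝ) : ℂ) * ν * ⟨1/2, √3/2⟩)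
          = ((‖y.1‖ / ‖ν‖ : ℝ) : ℂ) * (ν * ⟨1/2, √3/2⟩) := by
        push_cast
        field_simp
      rw [this]
      exact hpts.1
    · have : ((M * (‖y.1‖ / ‖ν‖) : ℝ) : ℂ) * (((M⁻¹ : ℝ) : ℂ) * ν * ⟨1/2, -(√3/2)⟩)
          = ((‖y.1‖ / ‖ν‖ : ℝ) : ℂ) * (ν * ⟨1/2, -(√3/2)⟩) := by
        push_cast
        field_simp
      rw [this]
      exact hpts.2
    · have h4 : ‖((M⁻¹ : ℝ) : ℂ) * ν‖ = M⁻¹ * ‖ν‖ := by
        rw [norm_mul, Complex.norm_real, Real.norm_of_nonneg (inv_pos.mpr hM).le]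
      rw [h4]
      rw [e2] at hfy
      have h5 : M * (‖y.1‖ / ‖ν‖) * (M⁻¹ * ‖ν‖) ^ 2 / 2 + M⁻¹ * z * y.2
          = M⁻¹ * (1 / 2 * ‖ν‖ * ‖y.1‖ + z * y.2) := by
        field_simp
      rw [h5, ← hfy]
      exact inv_mul_cancel₀ hM.ne'
    · have := hw.1
      rw [← hw0]
      exact this
    · rw [dotC_ofReal_left]
      have h4 := face_val hw hy
      rw [f3_apply f w, hw0, mul_zero, add_zero] at h4
      change M⁻¹ * dotC ν w.1 = 1
      rw [show dotC ν w.1 = M from h4]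
      exact inv_mul_cancel₀ hM.ne'
    · rw [dotC_ofReal_left, norm_mul, Complex.norm_real, Real.norm_of_nonneg (inv_pos.mpr hM).le]
      have h4 := B.angle_half hw
      calc 1 / 2 * (M⁻¹ * ‖ν‖) * ‖w.1‖ = M⁻¹ * (1 / 2 * ‖ν‖ * ‖w.1‖) := by ring
        _ ≤ M⁻¹ * dotC ν w.1 := mul_le_mul_of_nonneg_left h4 (inv_pos.mpr hM).le
  · rw [mul_pow, hpow, norm_mul, Complex.norm_real, Real.norm_of_nonneg (inv_pos.mpr hM).le]
    push_cast
    ring

lemma g_pow (k : ℕ) : eA (k * Real.pi / 12) ^ 6 = Complex.I ^ k := by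
  rw [eA_pow]
  have h1 : ((6 : ℕ) : ℝ) * (k * Real.pi / 12) = k * (Real.pi / 2) := by
    push_cast; ring
  rw [h1, ← eA_pow]
  congr 1
  apply Complex.ext <;> simp

lemma I_pow_inj {k l : Fin 4} (h : Complex.I ^ (k : ℕ) = Complex.I ^ (l : ℕ)) : k = l := by
  have h2 : Complex.I ^ 2 = -1 := Complex.I_sq
  have h3 : Complex.I ^ 3 = -Complex.I := Complex.I_pow_three
  fin_cases k <;> fin_cases l <;>
    simp [h2, h3, Complex.ext_iff] at h ⊢
  all_goals norm_num at h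

theorem PB.case1 {p : ℕ} {ζ : ℂ} {K : Set (ℂ × ℝ)} {α β : ℝ} (B : PB p ζ K α β)
    (hT : ¬ TopCross K β) (hB : ¬ BotCross K α) : Sep K 8 := by
  classical
  let w : ℂ → Bool ⊕ Fin 6 → ((ℂ × ℝ) →L[ℝ] ℝ) := fun g i =>
    match i with
    | Sum.inl true => mk3 0 1
    | Sum.inl false => mk3 0 (-1)
    | Sum.inr j => mk3 (dirN 6 g j) 0
  have hlev : ∀ f : (ℂ × ℝ) →L[ℝ] ℝ, f ≠ 0 → (∀ y ∈ face K f, 0 < y.2) ∨ (∀ y ∈ face K f, y.2 < 0)
      ∨ (((0 : ℂ), β) ∉ face K f ∧ ((0 : ℂ), -α) ∉ face K f ∧ ∃ v ∈ face K f, v.2 = 0) := by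
    intro f hf
    by_cases h1 : ∀ y ∈ face K f, 0 < y.2
    · exact Or.inl h1
    by_cases h2 : ∀ y ∈ face K f, y.2 < 0
    · exact Or.inr (Or.inl h2)
    push Not at h1 h2
    obtain ⟨x, hx, hx0⟩ := h1
    obtain ⟨y, hy, hy0⟩ := h2
    refine Or.inr (Or.inr ⟨?_, ?_, exists_level B.conv hx hy hx0 hy0⟩)
    · intro hN
      exact hT ⟨f, hf, hN, x, hx, hx0⟩
    · intro hS
      exact hB ⟨f, hf, hS, y, hy, hy0⟩
  have hfin : ∀ g : ℂ, (∀ f : (ℂ × ℝ) →L[ℝ] ℝ, f ≠ 0 → ((0 : ℂ), β) ∉ face K f →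
      ((0 : ℂ), -α) ∉ face K f → (∃ v ∈ face K f, v.2 = 0) →
      ∃ j : Fin 6, ∀ y ∈ face K f, 0 < dotC (dirN 6 g j) y.1) → Sep K 8 := by
    intro g hg
    refine Sep.of_fintype (w g) ?_ (by simp)
    intro f hf
    rcases hlev f hf with h | h | ⟨h1, h2, h3⟩
    · refine ⟨Sum.inl true, ?_⟩
      intro x hx
      simp only [w, mk3_apply, dotC_zero_left]
      have := h x hx
      linarith
    · refine ⟨Sum.inl false, ?_⟩
      intro x hx
      simp only [w, mk3_apply, dotC_zero_left]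
      have := h x hx
      linarith
    · obtain ⟨j, hj⟩ := hg f hf h1 h2 h3
      refine ⟨Sum.inr j, ?_⟩
      intro x hx
      simp only [w, mk3_apply]
      have := hj x hx
      linarith
  rcases Nat.lt_or_ge p 4 with hp | hp
  · have hp3 : p = 3 := by have := B.hp; omega
    subst hp3
    by_contra hcon
    have hfail : ∀ g : ℂ, ‖g‖ = 1 →
        ∃ ν z ρ m μ, Exc K ν z ρ m μ ∧ ν ^ 6 = -((‖ν‖ : ℝ) : ℂ) ^ 6 * g ^ 6 := by
      intro g hg
      by_contra hno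
      apply hcon
      apply hfin g
      intro f hf h1 h2 h3
      by_contra hj
      push Not at hj
      obtain ⟨v, hv, hv0⟩ := h3
      exact hno (B.exc_of_fail hf h1 h2 hv hv0 hg hj)
    obtain ⟨hi1, hi2⟩ := B.inv_om
    have hall : ∀ k : Fin 4, ∃ ν z ρ m μ, Exc K ν z ρ m μ ∧
        ν ^ 6 = -((‖ν‖ : ℝ) : ℂ) ^ 6 * (Complex.I ^ (k : ℕ)) := by
      intro k
      obtain ⟨ν, z, ρ, m, μ, hE, hp⟩ := hfail (eA ((k : ℕ) * Real.pi / 12)) (norm_eA _)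
      rw [g_pow] at hp
      exact ⟨ν, z, ρ, m, μ, hE, hp⟩
    choose ν z ρ m μ hE hpw using hall
    obtain ⟨k, l, hkl, hsgn⟩ := Fintype.exists_ne_map_eq_of_card_lt
      (fun k : Fin 4 => SignType.sign (m k)) (by decide)
    have hm : 0 < m k * m l ∨ (m k = 0 ∧ m l = 0) := by
      rcases lt_trichotomy (m k) 0 with h | h | h
      · left
        rw [sign_neg h] at hsgn
        have h2 : m l < 0 := by
          rw [← sign_eq_neg_one_iff]; exact hsgn.symm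
        exact mul_pos_of_neg_of_neg h h2
      · right
        rw [h, sign_zero] at hsgn
        exact ⟨h, sign_eq_zero_iff.mp hsgn.symm⟩
      · left
        rw [sign_pos h] at hsgn
        have h2 : 0 < m l := by
          rw [← sign_eq_one_iff]; exact hsgn.symm
        exact mul_pos h h2
    obtain ⟨hp6, hnorm⟩ := (hE k).unique (hE l) hi1 hi2 hm
    rw [hpw k, hpw l, hnorm] at hp6
    have hnl : ((‖ν l‖ : ℝ) : ℂ) ^ 6 ≠ 0 := by
      apply pow_ne_zero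
      have := norm_pos_iff.mpr (hE l).hν
      exact_mod_cast this.ne'
    have hII : Complex.I ^ (k : ℕ) = Complex.I ^ (l : ℕ) :=
      mul_left_cancel₀ (neg_ne_zero.mpr hnl) hp6
    exact hkl (I_pow_inj hII)
  · apply hfin 1
    intro f hf h1 h2 _
    exact B.case1_four hp hf h1 h2 (by simp)

end Pool.Agent.Lib.MP_5e7226_co
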