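import Pool.Agent.Lib.MP_5e7226_co.R3Four

set_option autoImplicit false

open Set Filter Topology

namespace Pool.Agent.Lib.MP_5e7226_co

lemma sin_add_third (t : ℝ) : Real.sin (t + Real.pi / 3) = 1 / 2 * Real.sin t + √3 / 2 * Real.cos t := by
  rw [Real.sin_add, Real.cos_pi_div_three, Real.sin_pi_div_three]; ring

lemma cos_sub_third (t : ℝ) : Real.cos (t - Real.pi / 3) = 1 / 2 * Real.cos t + √3 / 2 * Real.sin t := by
  rw [Real.cos_sub, Real.cos_pi_div_three, Real.sin_pi_div_three]; ring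

lemma sin_add_sixth (t : ℝ) : Real.sin (t + Real.pi / 6) = √3 / 2 * Real.sin t + 1 / 2 * Real.cos t := by
  rw [Real.sin_add, Real.cos_pi_div_six, Real.sin_pi_div_six]; ring

lemma eA_basis (x : ℂ) (t : ℝ) : x * eA t = ((2 * √3 / 3 * Real.sin (t + Real.pi / 3) : ℝ) : ℂ) * x
    + ((2 * √3 / 3 * Real.sin t : ℝ) : ℂ) * (om1 * x) := by
  have h3 : √3 * √3 = 3 := sqrt3_sq
  have h : eA t = ((2 * √3 / 3 * Real.sin (t + Real.pi / 3) : ℝ) : ℂ)
      + ((2 * √3 / 3 * Real.sin t : ℝ) : ℂ) * om1 := by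
    apply Complex.ext
    · rw [Complex.add_re, Complex.ofReal_re, Complex.re_ofReal_mul, eA_re, sin_add_third]
      simp only [om1]
      have : 2 * √3 / 3 * (1 / 2 * Real.sin t + √3 / 2 * Real.cos t)
          + 2 * √3 / 3 * Real.sin t * (-1 / 2) = (√3 * √3) / 3 * Real.cos t := by ring
      rw [this, h3]; ring
    · rw [Complex.add_im, Complex.ofReal_im, Complex.im_ofReal_mul, eA_im]
      simp only [om1]
      have : 0 + 2 * √3 / 3 * Real.sin t * (√3 / 2) = (√3 * √3) / 3 * Real.sin t := by ring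
      rw [this, h3]; ring
  rw [h]
  ring

lemma c1_pos {ρ θ φ : ℝ} (hρ1 : ρ ≤ 1) (hθ0 : 0 < θ) (hθ1 : θ < 2 * Real.pi / 3)
    (hφ0 : θ / 2 - Real.pi / 6 < φ) (hφ1 : φ < θ / 2 + Real.pi / 2)
    (hD : 1 / 2 ≤ ρ * Real.cos (θ - Real.pi / 3)) :
    0 < Real.sin φ - ρ * Real.sin (φ - θ) := by
  have hpi := Real.pi_pos
  have h3 : √3 * √3 = 3 := sqrt3_sq
  rcases le_or_gt 0 (Real.sin (φ - θ)) with h | h
  · have h1 : 0 < Real.sin φ - Real.sin (φ - θ) := by
      rw [Real.sin_sub_sin]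
      have e1 : (φ - (φ - θ)) / 2 = θ / 2 := by ring
      have e2 : (φ + (φ - θ)) / 2 = φ - θ / 2 := by ring
      rw [e1, e2]
      have := Real.sin_pos_of_pos_of_lt_pi (x := θ / 2) (by linarith) (by linarith)
      have := Real.cos_pos_of_mem_Ioo (x := φ - θ / 2) ⟨by linarith, by linarith⟩
      positivity
    nlinarith
  · have hcos : 0 < Real.cos (θ - Real.pi / 3) :=
      Real.cos_pos_of_mem_Ioo ⟨by linarith, by linarith⟩
    have key : 2 * Real.cos (θ - Real.pi / 3) * Real.sin φ - Real.sin (φ - θ)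
        = 2 * Real.sin θ * Real.sin (φ + Real.pi / 6) := by
      rw [cos_sub_third, sin_add_sixth, Real.sin_sub]; ring
    have h4 : 0 < Real.sin θ := Real.sin_pos_of_pos_of_lt_pi hθ0 (by linarith)
    have h5 : 0 < Real.sin (φ + Real.pi / 6) :=
      Real.sin_pos_of_pos_of_lt_pi (by linarith) (by linarith)
    have h6 : 0 < 2 * Real.sin θ * Real.sin (φ + Real.pi / 6) := by positivity
    have h7 : 0 < 2 * Real.cos (θ - Real.pi / 3) * (Real.sin φ - ρ * Real.sin (φ - θ)) := by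
      nlinarith
    exact (mul_pos_iff_of_pos_left (by positivity)).mp h7

lemma c2_pos {ρ θ φ : ℝ} (hρ1 : ρ ≤ 1) (hθ0 : 0 < θ) (hθ1 : θ < 2 * Real.pi / 3)
    (hφ0 : θ / 2 - Real.pi / 6 < φ) (hφ1 : φ < θ / 2 + Real.pi / 2)
    (hD : 1 / 2 ≤ ρ * Real.cos (θ - Real.pi / 3)) :
    0 < Real.sin (φ + Real.pi / 3) + ρ * Real.sin (φ - θ) := by
  have hpi := Real.pi_pos
  have h3 : √3 * √3 = 3 := sqrt3_sq
  rcases le_or_gt (Real.sin (φ - θ)) 0 with h | h
  · have h1 : 0 < Real.sin (φ + Real.pi / 3) + Real.sin (φ - θ) := by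
      rw [Real.sin_add_sin]
      have e1 : (φ + Real.pi / 3 - (φ - θ)) / 2 = θ / 2 + Real.pi / 6 := by ring
      have e2 : (φ + Real.pi / 3 + (φ - θ)) / 2 = φ - θ / 2 + Real.pi / 6 := by ring
      rw [e1, e2]
      have := Real.cos_pos_of_mem_Ioo (x := θ / 2 + Real.pi / 6) ⟨by linarith, by linarith⟩
      have := Real.sin_pos_of_pos_of_lt_pi (x := φ - θ / 2 + Real.pi / 6) (by linarith) (by linarith)
      positivity
    nlinarith
  · have hcos : 0 < Real.cos (θ - Real.pi / 3) :=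
      Real.cos_pos_of_mem_Ioo ⟨by linarith, by linarith⟩
    have key : 2 * Real.cos (θ - Real.pi / 3) * Real.sin (φ + Real.pi / 3) + Real.sin (φ - θ)
        = 2 * Real.sin (θ + Real.pi / 3) * Real.sin (φ + Real.pi / 6) := by
      rw [cos_sub_third, sin_add_sixth, Real.sin_sub, sin_add_third, sin_add_third]
      linear_combination (1 / 2 * Real.sin θ * Real.cos φ - 1/2 * Real.cos θ * Real.sin φ) * h3
    have h4 : 0 < Real.sin (θ + Real.pi / 3) := Real.sin_pos_of_pos_of_lt_pi (by linarith) (by linarith)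
    have h5 : 0 < Real.sin (φ + Real.pi / 6) :=
      Real.sin_pos_of_pos_of_lt_pi (by linarith) (by linarith)
    have h6 : 0 < 2 * Real.sin (θ + Real.pi / 3) * Real.sin (φ + Real.pi / 6) := by positivity
    have h7 : 0 < 2 * Real.cos (θ - Real.pi / 3) *
        (Real.sin (φ + Real.pi / 3) + ρ * Real.sin (φ - θ)) := by
      nlinarith
    exact (mul_pos_iff_of_pos_left (by positivity)).mp h7

lemma window {M : Set ℂ} (hconv : Convex ℝ M) (h0 : (0 : ℂ) ∈ interior M) {x : ℂ} (hx : x ∈ M)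
    (hx' : om1 * x ∈ M) {ρ θ φ : ℝ} (hρ0 : 0 < ρ) (hρ1 : ρ ≤ 1) (hθ0 : 0 < θ)
    (hθ1 : θ < 2 * Real.pi / 3) (hφ0 : θ / 2 - Real.pi / 6 < φ) (hφ1 : φ < θ / 2 + Real.pi / 2) :
    ∃ l : ℝ, 0 < l ∧ (ρ : ℂ) * (x * eA θ) - (l : ℂ) * (x * eA φ) ∈ interior M := by
  have hpi := Real.pi_pos
  have h3 : √3 * √3 = 3 := sqrt3_sq
  have h3p : 0 < √3 := Real.sqrt_pos.mpr (by norm_num)
  have hrep : ∀ l : ℝ, (ρ : ℂ) * (x * eA θ) - (l : ℂ) * (x * eA φ)
      = ((2 * √3 / 3 * (ρ * Real.sin (θ + Real.pi / 3) - l * Real.sin (φ + Real.pi / 3)) : ℝ) : ℂ) * x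
      + ((2 * √3 / 3 * (ρ * Real.sin θ - l * Real.sin φ) : ℝ) : ℂ) * (om1 * x) := by
    intro l
    rw [eA_basis x θ, eA_basis x φ]
    push_cast
    ring
  have hsum : ∀ t : ℝ, 2 * √3 / 3 * (Real.sin (t + Real.pi / 3) + Real.sin t)
      = 2 * Real.cos (t - Real.pi / 3) := by
    intro t
    rw [sin_add_third, cos_sub_third]
    linear_combination (1 / 3 * Real.cos t) * h3
  have hsθ : 0 < Real.sin θ := Real.sin_pos_of_pos_of_lt_pi hθ0 (by linarith)
  have hsθ' : 0 < Real.sin (θ + Real.pi / 3) := Real.sin_pos_of_pos_of_lt_pi (by linarith) (by linarith)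
  rcases lt_or_ge (ρ * Real.cos (θ - Real.pi / 3)) (1 / 2) with hD | hD
  · have hy : (ρ : ℂ) * (x * eA θ) ∈ interior M := by
      have := hrep 0
      simp only [Complex.ofReal_zero, zero_mul, sub_zero] at this
      rw [this]
      apply tri_int hconv h0 hx hx' (by positivity) (by positivity)
      have := hsum θ
      have h5 : 2 * √3 / 3 * (ρ * Real.sin (θ + Real.pi / 3)) + 2 * √3 / 3 * (ρ * Real.sin θ)
          = ρ * (2 * √3 / 3 * (Real.sin (θ + Real.pi / 3) + Real.sin θ)) := by ring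
      rw [h5, this]
      linarith
    exact int_move hy _
  · have hC : 0 < Real.cos (φ - Real.pi / 3) := Real.cos_pos_of_mem_Ioo ⟨by linarith, by linarith⟩
    set l₀ := (ρ * Real.cos (θ - Real.pi / 3) - 1 / 2) / Real.cos (φ - Real.pi / 3) with hl₀
    have hl₀0 : 0 ≤ l₀ := div_nonneg (by linarith) hC.le
    have hl₀C : l₀ * Real.cos (φ - Real.pi / 3) = ρ * Real.cos (θ - Real.pi / 3) - 1 / 2 :=
      div_mul_cancel₀ _ hC.ne'
    have hS : 0 < ρ * Real.sin (θ + Real.pi / 3) - l₀ * Real.sin (φ + Real.pi / 3) := by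
      have h5 : 0 < (ρ * Real.sin (θ + Real.pi / 3) - l₀ * Real.sin (φ + Real.pi / 3))
          * Real.cos (φ - Real.pi / 3) := by
        have h6 : (ρ * Real.sin (θ + Real.pi / 3) - l₀ * Real.sin (φ + Real.pi / 3))
            * Real.cos (φ - Real.pi / 3)
            = 1 / 2 * (Real.sin (φ + Real.pi / 3) + ρ * Real.sin (φ - θ)) := by
          have : (ρ * Real.sin (θ + Real.pi / 3) - l₀ * Real.sin (φ + Real.pi / 3))
            * Real.cos (φ - Real.pi / 3) = ρ * Real.sin (θ + Real.pi / 3) * Real.cos (φ - Real.pi / 3)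
              - (l₀ * Real.cos (φ - Real.pi / 3)) * Real.sin (φ + Real.pi / 3) := by ring
          rw [this, hl₀C, cos_sub_third, cos_sub_third, sin_add_third, sin_add_third, Real.sin_sub]
          linear_combination (1/4 * ρ * Real.cos θ * Real.sin φ
            - 1/4 * ρ * Real.cos φ * Real.sin θ) * h3
        rw [h6]
        have := c2_pos hρ1 hθ0 hθ1 hφ0 hφ1 hD
        linarith
      exact (mul_pos_iff_of_pos_right hC).mp h5
    have hT : 0 < ρ * Real.sin θ - l₀ * Real.sin φ := by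
      have h5 : 0 < (ρ * Real.sin θ - l₀ * Real.sin φ) * Real.cos (φ - Real.pi / 3) := by
        have h6 : (ρ * Real.sin θ - l₀ * Real.sin φ) * Real.cos (φ - Real.pi / 3)
            = 1 / 2 * (Real.sin φ - ρ * Real.sin (φ - θ)) := by
          have : (ρ * Real.sin θ - l₀ * Real.sin φ) * Real.cos (φ - Real.pi / 3)
            = ρ * Real.sin θ * Real.cos (φ - Real.pi / 3)
              - (l₀ * Real.cos (φ - Real.pi / 3)) * Real.sin φ := by ring
          rw [this, hl₀C, cos_sub_third, cos_sub_third, Real.sin_sub]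
          ring
        rw [h6]
        have := c1_pos hρ1 hθ0 hθ1 hφ0 hφ1 hD
        linarith
      exact (mul_pos_iff_of_pos_right hC).mp h5
    have e1 : ∀ᶠ l : ℝ in 𝓝 l₀, 0 < ρ * Real.sin (θ + Real.pi / 3) - l * Real.sin (φ + Real.pi / 3) := by
      have hc : Continuous (fun l : ℝ => ρ * Real.sin (θ + Real.pi / 3)
        - l * Real.sin (φ + Real.pi / 3)) := by fun_prop
      exact continuousAt_const.eventually_lt (hc.continuousAt (x := l₀)) hS
    have e2 : ∀ᶠ l : ℝ in 𝓝 l₀, 0 < ρ * Real.sin θ - l * Real.sin φ := by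
      have hc : Continuous (fun l : ℝ => ρ * Real.sin θ - l * Real.sin φ) := by fun_prop
      exact continuousAt_const.eventually_lt (hc.continuousAt (x := l₀)) hT
    obtain ⟨l, ⟨hl1, hl2⟩, hl3⟩ := (((e1.and e2).filter_mono nhdsWithin_le_nhds).and
      (self_mem_nhdsWithin : Set.Ioi l₀ ∈ 𝓝[>] l₀)).exists
    have hl3' : l₀ < l := hl3
    refine ⟨l, by linarith, ?_⟩
    rw [hrep l]
    apply tri_int hconv h0 hx hx' (by positivity) (by positivity)
    have h5 : 2 * √3 / 3 * (ρ * Real.sin (θ + Real.pi / 3) - l * Real.sin (φ + Real.pi / 3))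
        + 2 * √3 / 3 * (ρ * Real.sin θ - l * Real.sin φ)
        = ρ * (2 * √3 / 3 * (Real.sin (θ + Real.pi / 3) + Real.sin θ))
          - l * (2 * √3 / 3 * (Real.sin (φ + Real.pi / 3) + Real.sin φ)) := by ring
    rw [h5, hsum, hsum]
    have h6 : l₀ * Real.cos (φ - Real.pi / 3) < l * Real.cos (φ - Real.pi / 3) :=
      mul_lt_mul_of_pos_right hl3' hC
    linarith

/-- the cone at a vertex -/
lemma vertex_cone {M : Set ℂ} (hconv : Convex ℝ M) (h0 : (0 : ℂ) ∈ interior M) {x : ℂ} (hx : x ∈ M)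
    (hx1 : om1 * x ∈ M) (hx2 : om2 * x ∈ M) {φ : ℝ} (h1 : -(Real.pi / 6) < φ)
    (h2 : φ < Real.pi / 6) :
    ∃ l : ℝ, 0 < l ∧ x - (l : ℂ) * (x * eA φ) ∈ interior M := by
  have hpi := Real.pi_pos
  have h3 : √3 * √3 = 3 := sqrt3_sq
  have h3p : 0 < √3 := Real.sqrt_pos.mpr (by norm_num)
  have hcos1 : 0 < Real.cos (φ + Real.pi / 3) := Real.cos_pos_of_mem_Ioo ⟨by linarith, by linarith⟩
  have hcos2 : 0 < Real.cos (φ - Real.pi / 3) := Real.cos_pos_of_mem_Ioo ⟨by linarith, by linarith⟩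
  rw [Real.cos_add, Real.cos_pi_div_three, Real.sin_pi_div_three] at hcos1
  rw [cos_sub_third] at hcos2
  have hc1 := Real.cos_le_one φ
  refine ⟨1 / 2, by norm_num, ?_⟩
  rcases le_or_gt 0 φ with h | h
  · have hs : 0 ≤ Real.sin φ := Real.sin_nonneg_of_nonneg_of_le_pi h (by linarith)
    have e : x - ((1 / 2 : ℝ) : ℂ) * (x * eA φ)
        = ((1 - 1 / 2 * Real.cos φ + √3 / 6 * Real.sin φ : ℝ) : ℂ) * x
          + ((√3 / 3 * Real.sin φ : ℝ) : ℂ) * (om2 * x) := by
      have : (1 : ℂ) - ((1 / 2 : ℝ) : ℂ) * eA φ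
          = ((1 - 1 / 2 * Real.cos φ + √3 / 6 * Real.sin φ : ℝ) : ℂ)
            + ((√3 / 3 * Real.sin φ : ℝ) : ℂ) * om2 := by
        apply Complex.ext
        · rw [Complex.sub_re, Complex.add_re, Complex.re_ofReal_mul, Complex.re_ofReal_mul,
            Complex.ofReal_re, Complex.one_re]
          simp only [om2, eA_re]
          ring
        · rw [Complex.sub_im, Complex.add_im, Complex.im_ofReal_mul, Complex.im_ofReal_mul,
            Complex.ofReal_im, Complex.one_im]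
          simp only [om2, eA_im]
          linear_combination (1/6 * Real.sin φ) * h3
      calc x - ((1 / 2 : ℝ) : ℂ) * (x * eA φ) = (1 - ((1 / 2 : ℝ) : ℂ) * eA φ) * x := by ring
        _ = _ := by rw [this]; ring
    rw [e]
    apply tri_int hconv h0 hx hx2
    · have : 0 ≤ √3 / 6 * Real.sin φ := by positivity
      linarith
    · positivity
    · nlinarith
  · have hs : 0 ≤ -Real.sin φ := by
      have := Real.sin_nonpos_of_nonpos_of_neg_pi_le h.le (by linarith)
      linarith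
    have e : x - ((1 / 2 : ℝ) : ℂ) * (x * eA φ)
        = ((1 - 1 / 2 * Real.cos φ + √3 / 6 * (-Real.sin φ) : ℝ) : ℂ) * x
          + ((√3 / 3 * (-Real.sin φ) : ℝ) : ℂ) * (om1 * x) := by
      have : (1 : ℂ) - ((1 / 2 : ℝ) : ℂ) * eA φ
          = ((1 - 1 / 2 * Real.cos φ + √3 / 6 * (-Real.sin φ) : ℝ) : ℂ)
            + ((√3 / 3 * (-Real.sin φ) : ℝ) : ℂ) * om1 := by
        apply Complex.ext
        · rw [Complex.sub_re, Complex.add_re, Complex.re_ofReal_mul, Complex.re_ofReal_mul,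
            Complex.ofReal_re, Complex.one_re]
          simp only [om1, eA_re]
          ring
        · rw [Complex.sub_im, Complex.add_im, Complex.im_ofReal_mul, Complex.im_ofReal_mul,
            Complex.ofReal_im, Complex.one_im]
          simp only [om1, eA_im]
          linear_combination (1/6 * Real.sin φ) * h3
      calc x - ((1 / 2 : ℝ) : ℂ) * (x * eA φ) = (1 - ((1 / 2 : ℝ) : ℂ) * eA φ) * x := by ring
        _ = _ := by rw [this]; ring
    rw [e]
    apply tri_int hconv h0 hx hx1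
    · have : 0 ≤ √3 / 6 * (-Real.sin φ) := by positivity
      linarith
    · positivity
    · nlinarith

lemma rot_int {M : Set ℂ} {z : ℂ} (hz : z ≠ 0) (h : ∀ n ∈ M, z * n ∈ M) {y : ℂ}
    (hy : y ∈ interior M) : z * y ∈ interior M := by
  have ho : IsOpen ((fun w => z * w) '' interior M) :=
    (Homeomorph.mulLeft₀ z hz).isOpenMap _ isOpen_interior
  have hsub : (fun w => z * w) '' interior M ⊆ M := by
    rintro _ ⟨w, hw, rfl⟩
    exact h w (interior_subset hw)
  exact interior_maximal hsub ho ⟨y, hy, rfl⟩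

lemma om1_ne : om1 ≠ 0 := by
  intro h; have := norm_om1; rw [h] at this; simp at this

lemma om2_ne : om2 ≠ 0 := by
  intro h; have := norm_om2; rw [h] at this; simp at this

lemma om1_eA : om1 = eA (2 * Real.pi / 3) := by
  have h : Real.cos (2 * Real.pi / 3) = -1 / 2 ∧ Real.sin (2 * Real.pi / 3) = √3 / 2 := by
    have e : 2 * Real.pi / 3 = Real.pi - Real.pi / 3 := by ring
    rw [e, Real.cos_pi_sub, Real.sin_pi_sub, Real.cos_pi_div_three, Real.sin_pi_div_three]
    constructor <;> ring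
  apply Complex.ext
  · rw [eA_re, h.1]; rfl
  · rw [eA_im, h.2]; rfl

lemma eA_add_int (t : ℝ) (n : ℤ) : eA (t + 2 * Real.pi * n) = eA t := by
  have e : t + 2 * Real.pi * n = t + n * (2 * Real.pi) := by ring
  apply Complex.ext
  · rw [eA_re, eA_re, e, Real.cos_add_int_mul_two_pi]
  · rw [eA_im, eA_im, e, Real.sin_add_int_mul_two_pi]

/-- The covering lemma for a set with threefold symmetry. -/
lemma covers_three {ι : Type*} {M : Set ℂ} (hconv : Convex ℝ M) (h0 : (0 : ℂ) ∈ interior M)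
    (hrot : ∀ n ∈ M, om1 * n ∈ M) {x : ℂ} (hx : x ∈ M) (hx0 : x ≠ 0)
    (hmax : ∀ y ∈ M, ‖y‖ ≤ ‖x‖) (a : ι → ℝ)
    (hv : ∀ k : ℕ, ∃ i, ∃ l : ℝ, 0 < l ∧ om1 ^ k * x - (l : ℂ) * (x * eA (a i)) ∈ interior M)
    (hg : ∀ t : ℝ, ∃ i, ∃ n : ℤ, t < a i + 2 * Real.pi * n ∧
      a i + 2 * Real.pi * n < t + 2 * Real.pi / 3) :
    Covers M (fun i => x * eA (a i)) := by
  intro y hy
  have hpi := Real.pi_pos
  by_cases hy0 : y = 0
  · obtain ⟨i, -⟩ := hg 0
    obtain ⟨l, hl, h⟩ := int_move h0 (x * eA (a i))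
    exact ⟨i, l, hl, by rw [hy0]; exact h⟩
  obtain ⟨T, hT⟩ := exists_polar x y hx0
  have hxn : 0 < ‖x‖ := norm_pos_iff.mpr hx0
  have hyn : 0 < ‖y‖ := norm_pos_iff.mpr hy0
  set ρ := ‖y‖ / ‖x‖ with hρ
  have hρ0 : 0 < ρ := by positivity
  have hρ1 : ρ ≤ 1 := by rw [hρ, div_le_one hxn]; exact hmax y hy
  -- normalise the angle
  obtain ⟨k, θ, hθ0, hθ1, hTk⟩ : ∃ k : ℕ, ∃ θ : ℝ, 0 ≤ θ ∧ θ < 2 * Real.pi / 3 ∧
      eA T = om1 ^ k * eA θ := by
    obtain ⟨m, hm⟩ := exists_nat_gt (-T / (2 * Real.pi))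
    have hT' : 0 < T + 2 * Real.pi * m := by
      rw [div_lt_iff₀ (by positivity)] at hm
      linarith
    set T' := T + 2 * Real.pi * m with hT'def
    have h2 : 0 ≤ T' / (2 * Real.pi / 3) := by positivity
    refine ⟨⌊T' / (2 * Real.pi / 3)⌋₊, T' - ⌊T' / (2 * Real.pi / 3)⌋₊ * (2 * Real.pi / 3), ?_, ?_, ?_⟩
    · have := Nat.floor_le h2
      rw [le_div_iff₀ (by positivity)] at this
      linarith
    · have := Nat.lt_floor_add_one (T' / (2 * Real.pi / 3))
      rw [div_lt_iff₀ (by positivity)] at this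
      linarith
    · rw [om1_eA, eA_pow, ← eA_add]
      have e1 : (⌊T' / (2 * Real.pi / 3)⌋₊ : ℝ) * (2 * Real.pi / 3)
          + (T' - ⌊T' / (2 * Real.pi / 3)⌋₊ * (2 * Real.pi / 3)) = T' := by ring
      rw [e1, hT'def]
      have := eA_add_int T (m : ℤ)
      push_cast at this
      exact this.symm
  have hrotk : ∀ {z : ℂ}, z ∈ interior M → om1 ^ k * z ∈ interior M := by
    intro z hz
    exact rot_int (pow_ne_zero _ om1_ne) (fun n hn => rot_pow_mem hrot k hn) hz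
  rcases hθ0.eq_or_lt with hθ | hθ
  · -- on a vertex ray
    obtain ⟨i, l, hl, h⟩ := hv k
    refine ⟨i, ρ * l, by positivity, ?_⟩
    have h5 := smul_int' hconv h0 h hρ0.le hρ1
    convert h5 using 1
    rw [hT, hTk, ← hθ, eA_zero]
    push_cast
    ring
  · obtain ⟨i, n, hn1, hn2⟩ := hg (θ / 2 - Real.pi / 6 + k * (2 * Real.pi / 3))
    obtain ⟨l, hl, h⟩ := window hconv h0 hx (hrot x hx) hρ0 hρ1 hθ hθ1
      (φ := a i + 2 * Real.pi * n - k * (2 * Real.pi / 3)) (by linarith) (by linarith)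
    refine ⟨i, l, hl, ?_⟩
    have h5 := hrotk h
    convert h5 using 1
    have h6 : om1 ^ k * eA (a i + 2 * Real.pi * n - k * (2 * Real.pi / 3)) = eA (a i) := by
      rw [om1_eA, eA_pow, ← eA_add]
      have e1 : (k : ℝ) * (2 * Real.pi / 3) + (a i + 2 * Real.pi * n - k * (2 * Real.pi / 3))
        = a i + 2 * Real.pi * n := by ring
      rw [e1, eA_add_int]
    rw [hT, hTk]
    calc (ρ : ℂ) * (x * (om1 ^ k * eA θ)) - (l : ℂ) * (x * eA (a i))
        = (ρ : ℂ) * (x * (om1 ^ k * eA θ)) - (l : ℂ) * (x * (om1 ^ k *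
          eA (a i + 2 * Real.pi * n - k * (2 * Real.pi / 3)))) := by rw [h6]
      _ = _ := by ring

/-- the gap lemma -/
lemma gap {c : ℕ → ℝ} {m : ℕ} {G : ℝ} (hm : c m = c 0 + 2 * Real.pi)
    (h : ∀ j < m, c (j + 1) - c j < G) (t : ℝ) :
    ∃ j ≤ m, ∃ n : ℤ, t < c j + 2 * Real.pi * n ∧ c j + 2 * Real.pi * n < t + G := by
  have hpi := Real.pi_pos
  set n : ℤ := ⌊(t - c 0) / (2 * Real.pi)⌋ with hn
  have h1 : c 0 + 2 * Real.pi * n ≤ t := by
    have := Int.floor_le ((t - c 0) / (2 * Real.pi))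
    rw [le_div_iff₀ (by positivity)] at this
    rw [hn]; linarith
  have h2 : t < c m + 2 * Real.pi * n := by
    have := Int.lt_floor_add_one ((t - c 0) / (2 * Real.pi))
    rw [div_lt_iff₀ (by positivity)] at this
    rw [hm, hn]; linarith
  have hex : ∃ j, t < c j + 2 * Real.pi * n := ⟨m, h2⟩
  classical
  set j := Nat.find hex with hj
  have hj1 : t < c j + 2 * Real.pi * n := Nat.find_spec hex
  have hjm : j ≤ m := Nat.find_min' hex h2
  have hj0 : j ≠ 0 := by
    intro h0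
    rw [h0] at hj1
    linarith
  obtain ⟨i, hi⟩ := Nat.exists_eq_succ_of_ne_zero hj0
  have hi1 : ¬ t < c i + 2 * Real.pi * n := Nat.find_min hex (by omega)
  have hi2 := h i (by omega)
  rw [Nat.succ_eq_add_one] at hi
  refine ⟨j, hjm, n, hj1, ?_⟩
  rw [hi]
  linarith

end Pool.Agent.Lib.MP_5e7226_co
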