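import Pool.Agent.Lib.MP_5e7226_co.R3Chain

set_option autoImplicit false

open Set Filter Topology

namespace Pool.Agent.Lib.MP_5e7226_co

/-- planar sets with threefold symmetry together with a farthest point -/
structure TM (M : Set ℂ) (x : ℂ) : Prop where
  conv : Convex ℝ M
  h0 : (0 : ℂ) ∈ interior M
  rot1 : ∀ n ∈ M, om1 * n ∈ M
  rot2 : ∀ n ∈ M, om2 * n ∈ M
  mem : x ∈ M
  ne : x ≠ 0
  max : ∀ y ∈ M, ‖y‖ ≤ ‖x‖

lemma om1_pow_mod (k : ℕ) : om1 ^ k = om1 ^ (k % 3) := by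
  conv_lhs => rw [← Nat.div_add_mod k 3, pow_add, pow_mul, om1_cube, one_pow, one_mul]

lemma norm_mul_eA (x : ℂ) (t : ℝ) : ‖x * eA t‖ = ‖x‖ := by rw [norm_mul, norm_eA, mul_one]

lemma TM.hv_of {M : Set ℂ} {x : ℂ} (T : TM M x) {a : Fin 4 → ℝ}
    (h : ∀ i : Fin 3, ∃ l : ℝ, 0 < l ∧
      x - (l : ℂ) * (x * eA (a (Fin.castSucc i) - (i : ℕ) * (2 * Real.pi / 3))) ∈ interior M)
    (k : ℕ) : ∃ i, ∃ l : ℝ, 0 < l ∧ om1 ^ k * x - (l : ℂ) * (x * eA (a i)) ∈ interior M := by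
  set i : Fin 3 := ⟨k % 3, Nat.mod_lt _ (by norm_num)⟩ with hi
  obtain ⟨l, hl, h1⟩ := h i
  refine ⟨Fin.castSucc i, l, hl, ?_⟩
  have h2 := rot_int (pow_ne_zero (i : ℕ) om1_ne) (fun n hn => rot_pow_mem T.rot1 (i : ℕ) hn) h1
  have h3 : om1 ^ (i : ℕ) * eA (a (Fin.castSucc i) - (i : ℕ) * (2 * Real.pi / 3))
      = eA (a (Fin.castSucc i)) := by
    rw [om1_eA, eA_pow, ← eA_add]
    congr 1
    ring
  rw [om1_pow_mod k]
  convert h2 using 1
  calc om1 ^ (k % 3) * x - (l : ℂ) * (x * eA (a (Fin.castSucc i)))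
      = om1 ^ (i : ℕ) * x - (l : ℂ) * (x * (om1 ^ (i : ℕ) *
        eA (a (Fin.castSucc i) - (i : ℕ) * (2 * Real.pi / 3)))) := by rw [h3]
    _ = _ := by ring

lemma gap4 {a : Fin 4 → ℝ} {G : ℝ} (h0 : a 1 - a 0 < G) (h1 : a 2 - a 1 < G) (h2 : a 3 - a 2 < G)
    (h3 : a 0 + 2 * Real.pi - a 3 < G) (t : ℝ) :
    ∃ i, ∃ n : ℤ, t < a i + 2 * Real.pi * n ∧ a i + 2 * Real.pi * n < t + G := by
  obtain ⟨j, hj, n, hn1, hn2⟩ := gap (c := fun j : ℕ =>
    match j with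
    | 0 => a 0
    | 1 => a 1
    | 2 => a 2
    | 3 => a 3
    | _ => a 0 + 2 * Real.pi) (m := 4) (G := G) rfl (by
      intro j hj
      interval_cases j
      · exact h0
      · exact h1
      · exact h2
      · exact h3) t
  interval_cases j
  · exact ⟨0, n, hn1, hn2⟩
  · exact ⟨1, n, hn1, hn2⟩
  · exact ⟨2, n, hn1, hn2⟩
  · exact ⟨3, n, hn1, hn2⟩
  · refine ⟨0, n + 1, ?_, ?_⟩
    · push_cast
      simp only at hn1
      linarith
    · push_cast
      simp only at hn2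
      linarith

lemma gap7 {c : Fin 7 → ℝ} {G : ℝ} (h0 : c 1 - c 0 < G) (h1 : c 2 - c 1 < G) (h2 : c 3 - c 2 < G)
    (h3 : c 4 - c 3 < G) (h4 : c 5 - c 4 < G) (h5 : c 6 - c 5 < G)
    (h6 : c 0 + 2 * Real.pi - c 6 < G) (t : ℝ) :
    ∃ i, ∃ n : ℤ, t < c i + 2 * Real.pi * n ∧ c i + 2 * Real.pi * n < t + G := by
  obtain ⟨j, hj, n, hn1, hn2⟩ := gap (c := fun j : ℕ =>
    match j with
    | 0 => c 0
    | 1 => c 1
    | 2 => c 2
    | 3 => c 3
    | 4 => c 4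
    | 5 => c 5
    | 6 => c 6
    | _ => c 0 + 2 * Real.pi) (m := 7) (G := G) rfl (by
      intro j hj
      interval_cases j
      · exact h0
      · exact h1
      · exact h2
      · exact h3
      · exact h4
      · exact h5
      · exact h6) t
  interval_cases j
  · exact ⟨0, n, hn1, hn2⟩
  · exact ⟨1, n, hn1, hn2⟩
  · exact ⟨2, n, hn1, hn2⟩
  · exact ⟨3, n, hn1, hn2⟩
  · exact ⟨4, n, hn1, hn2⟩
  · exact ⟨5, n, hn1, hn2⟩
  · exact ⟨6, n, hn1, hn2⟩
  · refine ⟨0, n + 1, ?_, ?_⟩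
    · push_cast
      simp only at hn1
      linarith
    · push_cast
      simp only at hn2
      linarith

/-- a direction within 30 degrees -/
lemma dot_of_close {x ν : ℂ} (hx : x ≠ 0) (hν : ν ≠ 0) {T a : ℝ} {n : ℤ}
    (hT : ν = ((‖ν‖ / ‖x‖ : ℝ) : ℂ) * (x * eA T)) (h1 : T - Real.pi / 6 < a + 2 * Real.pi * n)
    (h2 : a + 2 * Real.pi * n < T + Real.pi / 6) :
    √3 / 2 * ‖x * eA a‖ * ‖ν‖ < dotC (x * eA a) ν := by
  have hpi := Real.pi_pos
  have hxn : 0 < ‖x‖ := norm_pos_iff.mpr hx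
  have hνn : 0 < ‖ν‖ := norm_pos_iff.mpr hν
  have e1 : dotC (x * eA a) ν = ‖ν‖ * ‖x‖ * Real.cos (a - T) := by
    conv_lhs => rw [hT]
    rw [dotC_ofReal_right, dotC_mul_eA]
    field_simp
  have e2 : √3 / 2 < Real.cos (a - T) := by
    have e3 : Real.cos (a - T) = Real.cos |a + 2 * Real.pi * n - T| := by
      rw [Real.cos_abs]
      have : a + 2 * Real.pi * n - T = (a - T) + n * (2 * Real.pi) := by ring
      rw [this, Real.cos_add_int_mul_two_pi]
    rw [e3, ← Real.cos_pi_div_six]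
    apply Real.cos_lt_cos_of_nonneg_of_le_pi (abs_nonneg _) (by linarith)
    rw [abs_lt]
    constructor <;> linarith
  rw [e1, norm_mul_eA]
  have h3 : 0 < ‖ν‖ * ‖x‖ := by positivity
  nlinarith

/-- The chain of directions. -/
theorem chain {M M' : Set ℂ} {x x' : ℂ} (T : TM M x) (T' : TM M' x') {d r : ℝ} (hd0 : 0 ≤ d)
    (hd1 : d ≤ Real.pi / 3) (hr : 0 < r) (hx' : x' = (r : ℂ) * (x * eA d))
    (hG : ∃ l : ℝ, 0 < l ∧ x - (l : ℂ) * (x * eA (d / 2 - Real.pi / 6)) ∈ interior M) :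
    ∃ U V : Fin 4 → ℂ, Covers M U ∧ Covers M' V ∧ (∀ i, U i ≠ 0) ∧ (∀ i, V i ≠ 0) ∧
      ∀ ν : ℂ, ν ≠ 0 → (∃ i, √3 / 2 * ‖U i‖ * ‖ν‖ < dotC (U i) ν) ∨
        (∃ i, √3 / 2 * ‖V i‖ * ‖ν‖ < dotC (V i) ν) := by
  have hpi := Real.pi_pos
  obtain ⟨l, hl, hG⟩ := hG
  set q := d / 2 - Real.pi / 6 with hq
  obtain ⟨δ, hδ, hopen⟩ : ∃ δ > 0, ∀ φ : ℝ, |φ - q| < δ → x - (l : ℂ) * (x * eA φ) ∈ interior M := by
    have hc : Continuous (fun φ : ℝ => x - (l : ℂ) * (x * eA φ)) := by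
      have : (fun φ : ℝ => x - (l : ℂ) * (x * eA φ))
          = fun φ : ℝ => x - (l : ℂ) * (x * Complex.exp (φ * Complex.I)) := by
        ext φ; rw [eA_eq_exp]
      rw [this]
      fun_prop
    have hev := hc.continuousAt.eventually_mem (isOpen_interior.mem_nhds hG)
    obtain ⟨δ, hδ, h⟩ := Metric.eventually_nhds_iff.mp hev
    exact ⟨δ, hδ, fun φ hφ => h (by rwa [Real.dist_eq])⟩
  obtain ⟨η, hη0, hη1, hη2⟩ : ∃ η : ℝ, 0 < η ∧ 4 * η < δ ∧ η ≤ Real.pi / 60 := by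
    refine ⟨min (δ / 5) (Real.pi / 60), by positivity, ?_, min_le_right _ _⟩
    have := min_le_left (δ / 5) (Real.pi / 60)
    linarith
  set a : Fin 4 → ℝ := ![q, q + 2 * Real.pi / 3 - 2 * η, q + 4 * Real.pi / 3 - 4 * η,
    q + 11 * Real.pi / 6 - 5 * η / 2] with ha
  set b : Fin 4 → ℝ := ![q + Real.pi / 3 - η - d, q + Real.pi - 3 * η - d,
    q + 5 * Real.pi / 3 - 5 * η - d, q + 11 * Real.pi / 6 - 5 * η / 2 - d] with hb
  have a0 : a 0 = q := rfl
  have a1 : a 1 = q + 2 * Real.pi / 3 - 2 * η := rfl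
  have a2 : a 2 = q + 4 * Real.pi / 3 - 4 * η := rfl
  have a3 : a 3 = q + 11 * Real.pi / 6 - 5 * η / 2 := rfl
  have b0 : b 0 = q + Real.pi / 3 - η - d := rfl
  have b1 : b 1 = q + Real.pi - 3 * η - d := rfl
  have b2 : b 2 = q + 5 * Real.pi / 3 - 5 * η - d := rfl
  have b3 : b 3 = q + 11 * Real.pi / 6 - 5 * η / 2 - d := rfl
  have hxe : ∀ t : ℝ, x * eA t ≠ 0 := fun t => mul_ne_zero T.ne (eA_ne_zero t)
  have hxe' : ∀ t : ℝ, x' * eA t ≠ 0 := fun t => mul_ne_zero T'.ne (eA_ne_zero t)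
  refine ⟨fun i => x * eA (a i), fun i => x' * eA (b i), ?_, ?_, fun i => hxe _, fun i => hxe' _, ?_⟩
  · apply covers_three T.conv T.h0 T.rot1 T.mem T.ne T.max a
    · apply T.hv_of
      intro i
      refine ⟨l, hl, ?_⟩
      apply hopen
      fin_cases i
      · have : a (Fin.castSucc 0) = q := rfl
        change |a (Fin.castSucc 0) - ((0 : ℕ) : ℝ) * (2 * Real.pi / 3) - q| < δ
        rw [this]
        have : q - ((0 : ℕ) : ℝ) * (2 * Real.pi / 3) - q = 0 := by push_cast; ring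
        rw [this, abs_zero]; exact hδ
      · have : a (Fin.castSucc 1) = q + 2 * Real.pi / 3 - 2 * η := rfl
        change |a (Fin.castSucc 1) - ((1 : ℕ) : ℝ) * (2 * Real.pi / 3) - q| < δ
        rw [this, abs_lt]
        push_cast
        constructor <;> linarith
      · have : a (Fin.castSucc 2) = q + 4 * Real.pi / 3 - 4 * η := rfl
        change |a (Fin.castSucc 2) - ((2 : ℕ) : ℝ) * (2 * Real.pi / 3) - q| < δ
        rw [this, abs_lt]
        push_cast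
        constructor <;> linarith
    · have := gap4 (a := a) (G := 2 * Real.pi / 3) (by rw [a0, a1]; linarith)
        (by rw [a2, a1]; linarith) (by rw [a3, a2]; linarith) (by rw [a3, a0]; linarith)
      exact this
  · apply covers_three T'.conv T'.h0 T'.rot1 T'.mem T'.ne T'.max b
    · apply T'.hv_of
      intro i
      apply vertex_cone T'.conv T'.h0 T'.mem (T'.rot1 _ T'.mem) (T'.rot2 _ T'.mem)
      · fin_cases i
        · change -(Real.pi / 6) < q + Real.pi / 3 - η - d - ((0 : ℕ) : ℝ) * (2 * Real.pi / 3)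
          push_cast
          linarith
        · change -(Real.pi / 6) < q + Real.pi - 3 * η - d - ((1 : ℕ) : ℝ) * (2 * Real.pi / 3)
          push_cast
          linarith
        · change -(Real.pi / 6) < q + 5 * Real.pi / 3 - 5 * η - d - ((2 : ℕ) : ℝ) * (2 * Real.pi / 3)
          push_cast
          linarith
      · fin_cases i
        · change q + Real.pi / 3 - η - d - ((0 : ℕ) : ℝ) * (2 * Real.pi / 3) < Real.pi / 6
          push_cast
          linarith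
        · change q + Real.pi - 3 * η - d - ((1 : ℕ) : ℝ) * (2 * Real.pi / 3) < Real.pi / 6
          push_cast
          linarith
        · change q + 5 * Real.pi / 3 - 5 * η - d - ((2 : ℕ) : ℝ) * (2 * Real.pi / 3) < Real.pi / 6
          push_cast
          linarith
    · have := gap4 (a := b) (G := 2 * Real.pi / 3) (by rw [b0, b1]; linarith)
        (by rw [b2, b1]; linarith) (by rw [b3, b2]; linarith) (by rw [b3, b0]; linarith)
      exact this
  · intro ν hν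
    obtain ⟨S, hS⟩ := exists_polar x ν T.ne
    have hU : ∀ (i : Fin 4) (n : ℤ), S - Real.pi / 6 < a i + 2 * Real.pi * n →
        a i + 2 * Real.pi * n < S + Real.pi / 6 →
        √3 / 2 * ‖x * eA (a i)‖ * ‖ν‖ < dotC (x * eA (a i)) ν := by
      intro i n h1 h2
      exact dot_of_close T.ne hν hS h1 h2
    have hV : ∀ (i : Fin 4) (n : ℤ), S - Real.pi / 6 < b i + d + 2 * Real.pi * n →
        b i + d + 2 * Real.pi * n < S + Real.pi / 6 →
        √3 / 2 * ‖x' * eA (b i)‖ * ‖ν‖ < dotC (x' * eA (b i)) ν := by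
      intro i n h1 h2
      have h3 := dot_of_close T.ne hν hS h1 h2
      have h4 : x' * eA (b i) = (r : ℂ) * (x * eA (b i + d)) := by
        rw [hx', eA_add]; ring
      rw [h4, dotC_ofReal_left, norm_mul, Complex.norm_real, Real.norm_of_nonneg hr.le]
      have h5 := mul_lt_mul_of_pos_left h3 hr
      calc √3 / 2 * (r * ‖x * eA (b i + d)‖) * ‖ν‖ = r * (√3 / 2 * ‖x * eA (b i + d)‖ * ‖ν‖) := by ring
        _ < _ := h5
    set c : Fin 7 → ℝ := ![a 0, b 0 + d, a 1, b 1 + d, a 2, b 2 + d, a 3] with hc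
    have c0 : c 0 = a 0 := rfl
    have c1 : c 1 = b 0 + d := rfl
    have c2 : c 2 = a 1 := rfl
    have c3 : c 3 = b 1 + d := rfl
    have c4 : c 4 = a 2 := rfl
    have c5 : c 5 = b 2 + d := rfl
    have c6 : c 6 = a 3 := rfl
    obtain ⟨i, n, h1, h2⟩ := gap7 (c := c) (G := Real.pi / 3)
      (by rw [c1, c0, b0, a0]; linarith) (by rw [c2, c1, a1, b0]; linarith)
      (by rw [c3, c2, b1, a1]; linarith) (by rw [c4, c3, b1, a2]; linarith)
      (by rw [c5, c4, b2, a2]; linarith) (by rw [c6, c5, a3, b2]; linarith)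
      (by rw [c0, c6, a0, a3]; linarith) (S - Real.pi / 6)
    have h2' : c i + 2 * Real.pi * n < S + Real.pi / 6 := by linarith
    fin_cases i
    · exact Or.inl ⟨0, hU 0 n h1 h2'⟩
    · exact Or.inr ⟨0, hV 0 n h1 h2'⟩
    · exact Or.inl ⟨1, hU 1 n h1 h2'⟩
    · exact Or.inr ⟨1, hV 1 n h1 h2'⟩
    · exact Or.inl ⟨2, hU 2 n h1 h2'⟩
    · exact Or.inr ⟨2, hV 2 n h1 h2'⟩
    · exact Or.inl ⟨3, hU 3 n h1 h2'⟩

end Pool.Agent.Lib.MP_5e7226_co
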