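import Pool.Agent.Lib.MP_5e7226_co.R3Chain2

set_option autoImplicit false

open Set Filter Topology

namespace Pool.Agent.Lib.MP_5e7226_co

lemma frame_id (x a b : ℂ) : dotC x a * dotC x b + dotC (om1 * x) a * dotC (om1 * x) b
    + dotC (om2 * x) a * dotC (om2 * x) b = 3 / 2 * ‖x‖ ^ 2 * dotC a b := by
  have h3 : √3 * √3 = 3 := sqrt3_sq
  rw [sq_norm]
  simp only [dotC, om1, om2, Complex.mul_re, Complex.mul_im]
  linear_combination ((x.re * a.im - x.im * a.re) * (x.re * b.im - x.im * b.re) / 2) * h3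

lemma frame_sum (x a : ℂ) : dotC x a + dotC (om1 * x) a + dotC (om2 * x) a = 0 := by
  simp only [dotC, om1, om2, Complex.mul_re, Complex.mul_im]
  ring

lemma frame_vec (x a : ℂ) (hx : x ≠ 0) : a = ((2 / (3 * ‖x‖ ^ 2) * dotC x a : ℝ) : ℂ) * x
    + ((2 / (3 * ‖x‖ ^ 2) * dotC (om1 * x) a : ℝ) : ℂ) * (om1 * x)
    + ((2 / (3 * ‖x‖ ^ 2) * dotC (om2 * x) a : ℝ) : ℂ) * (om2 * x) := by
  have hxn : 0 < ‖x‖ := norm_pos_iff.mpr hx
  -- test against the coordinates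
  have key : ∀ e : ℂ, dotC (((2 / (3 * ‖x‖ ^ 2) * dotC x a : ℝ) : ℂ) * x
    + ((2 / (3 * ‖x‖ ^ 2) * dotC (om1 * x) a : ℝ) : ℂ) * (om1 * x)
    + ((2 / (3 * ‖x‖ ^ 2) * dotC (om2 * x) a : ℝ) : ℂ) * (om2 * x)) e = dotC a e := by
    intro e
    rw [dotC_add_left, dotC_add_left, dotC_ofReal_left, dotC_ofReal_left, dotC_ofReal_left]
    have h := frame_id x a e
    have : 2 / (3 * ‖x‖ ^ 2) * dotC x a * dotC x e
        + 2 / (3 * ‖x‖ ^ 2) * dotC (om1 * x) a * dotC (om1 * x) e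
        + 2 / (3 * ‖x‖ ^ 2) * dotC (om2 * x) a * dotC (om2 * x) e
        = 2 / (3 * ‖x‖ ^ 2) * (dotC x a * dotC x e + dotC (om1 * x) a * dotC (om1 * x) e
    + dotC (om2 * x) a * dotC (om2 * x) e) := by ring
    rw [this, h]
    field_simp
  apply Complex.ext
  · have := key 1
    simp only [dotC, Complex.one_re, Complex.one_im, mul_one, mul_zero, add_zero] at this
    exact this.symm
  · have := key Complex.I
    simp only [dotC, Complex.I_re, Complex.I_im, mul_one, mul_zero, zero_add] at this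
    exact this.symm

/-- coordinates with respect to `x`, `om1 * x` -/
lemma exists_coord (x y : ℂ) (hx : x ≠ 0) : ∃ s t : ℝ, y = (s : ℂ) * x + (t : ℂ) * (om1 * x) := by
  have h3 : √3 * √3 = 3 := sqrt3_sq
  refine ⟨(y / x).re + √3 / 3 * (y / x).im, 2 * √3 / 3 * (y / x).im, ?_⟩
  have h : y / x = (((y / x).re + √3 / 3 * (y / x).im : ℝ) : ℂ)
      + ((2 * √3 / 3 * (y / x).im : ℝ) : ℂ) * om1 := by
    apply Complex.ext
    · rw [Complex.add_re, Complex.ofReal_re, Complex.re_ofReal_mul]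
      simp only [om1]
      ring
    · rw [Complex.add_im, Complex.ofReal_im, Complex.im_ofReal_mul]
      simp only [om1]
      linear_combination (-(1/3) * (y / x).im) * h3
  calc y = (y / x) * x := by field_simp
    _ = ((((y / x).re + √3 / 3 * (y / x).im : ℝ) : ℂ)
      + ((2 * √3 / 3 * (y / x).im : ℝ) : ℂ) * om1) * x := by rw [← h]
    _ = _ := by ring

/-- if the edge is not interior the set is contained in the half plane -/
lemma TM.half_of_not_edge {M : Set ℂ} {x : ℂ} (T : TM M x)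
    (h : ¬ ∃ l : ℝ, 0 < l ∧ x - (l : ℂ) * (x * eA (-(Real.pi / 6))) ∈ interior M) {y : ℂ}
    (hy : y ∈ M) : -(‖x‖ ^ 2 / 2) ≤ dotC (om2 * x) y := by
  have h3 : √3 * √3 = 3 := sqrt3_sq
  have h3p : 0 < √3 := Real.sqrt_pos.mpr (by norm_num)
  by_contra hcon
  push Not at hcon
  apply h
  obtain ⟨s, t, hst⟩ := exists_coord x y T.ne
  have hxn : 0 < ‖x‖ := norm_pos_iff.mpr T.ne
  have hdot : dotC (om2 * x) y = -(‖x‖ ^ 2 * (s + t) / 2) := by
    rw [hst, sq_norm]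
    simp only [dotC, om1, om2, Complex.mul_re, Complex.mul_im, Complex.add_re, Complex.add_im,
      Complex.ofReal_re, Complex.ofReal_im]
    linear_combination (-(t * (x.re ^ 2 + x.im ^ 2)) / 4) * h3
  have hst1 : 1 < s + t := by
    rw [hdot] at hcon
    have : 0 < ‖x‖ ^ 2 := by positivity
    nlinarith
  set ε : ℝ := 1 / (4 * (1 + |s| + |t|)) with hε
  have hεpos : 0 < ε := by positivity
  have hεs : |ε * (1 / 2 - s)| ≤ 1 / 4 := by
    rw [abs_mul, abs_of_pos hεpos, hε, div_mul_eq_mul_div, one_mul, div_le_iff₀ (by positivity)]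
    have h5 : |1 / 2 - s| ≤ 1 / 2 + |s| := by
      calc |1 / 2 - s| ≤ |(1 / 2 : ℝ)| + |s| := abs_sub _ _
        _ = 1 / 2 + |s| := by rw [abs_of_pos (by norm_num)]
    have := abs_nonneg t
    have := abs_nonneg s
    linarith
  have hεt : |ε * (1 / 2 - t)| ≤ 1 / 4 := by
    rw [abs_mul, abs_of_pos hεpos, hε, div_mul_eq_mul_div, one_mul, div_le_iff₀ (by positivity)]
    have h5 : |1 / 2 - t| ≤ 1 / 2 + |t| := by
      calc |1 / 2 - t| ≤ |(1 / 2 : ℝ)| + |t| := abs_sub _ _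
        _ = 1 / 2 + |t| := by rw [abs_of_pos (by norm_num)]
    have := abs_nonneg t
    have := abs_nonneg s
    linarith
  rw [abs_le] at hεs hεt
  have hq : ((1 / 2 + ε * (1 / 2 - s) : ℝ) : ℂ) * x + ((1 / 2 + ε * (1 / 2 - t) : ℝ) : ℂ) * (om1 * x)
      ∈ interior M := by
    apply tri_int T.conv T.h0 T.mem (T.rot1 _ T.mem) (by linarith) (by linarith)
    have : 1 / 2 + ε * (1 / 2 - s) + (1 / 2 + ε * (1 / 2 - t)) = 1 + ε * (1 - (s + t)) := by ring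
    rw [this]
    nlinarith
  have hm := T.conv.combo_interior_self_mem_interior hq hy (a := 1 / (1 + ε)) (b := ε / (1 + ε))
    (by positivity) (by positivity) (by field_simp)
  refine ⟨√3 / 2, by positivity, ?_⟩
  convert hm using 1
  have e1 : x - ((√3 / 2 : ℝ) : ℂ) * (x * eA (-(Real.pi / 6)))
      = ((1 / 2 : ℝ) : ℂ) * x + ((1 / 2 : ℝ) : ℂ) * (om1 * x) := by
    have : (1 : ℂ) - ((√3 / 2 : ℝ) : ℂ) * eA (-(Real.pi / 6))
        = ((1 / 2 : ℝ) : ℂ) + ((1 / 2 : ℝ) : ℂ) * om1 := by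
      apply Complex.ext
      · rw [Complex.sub_re, Complex.add_re, Complex.re_ofReal_mul, Complex.re_ofReal_mul,
          Complex.ofReal_re, Complex.one_re, eA_re, Real.cos_neg, Real.cos_pi_div_six]
        simp only [om1]
        nlinarith
      · rw [Complex.sub_im, Complex.add_im, Complex.im_ofReal_mul, Complex.im_ofReal_mul,
          Complex.ofReal_im, Complex.one_im, eA_im, Real.sin_neg, Real.sin_pi_div_six]
        simp only [om1]
        ring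
    calc x - ((√3 / 2 : ℝ) : ℂ) * (x * eA (-(Real.pi / 6)))
        = ((1 : ℂ) - ((√3 / 2 : ℝ) : ℂ) * eA (-(Real.pi / 6))) * x := by ring
      _ = _ := by rw [this]; ring
  rw [e1, hst, Complex.real_smul, Complex.real_smul]
  have hne : (1 + (ε : ℂ)) ≠ 0 := by
    have : (1 + ε : ℝ) ≠ 0 := by positivity
    exact_mod_cast this
  push_cast
  field_simp
  ring

lemma TM.tri_of_not_edge {M : Set ℂ} {x : ℂ} (T : TM M x)
    (h : ¬ ∃ l : ℝ, 0 < l ∧ x - (l : ℂ) * (x * eA (-(Real.pi / 6))) ∈ interior M) {y : ℂ}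
    (hy : y ∈ M) : -(‖x‖ ^ 2 / 2) ≤ dotC x y ∧ -(‖x‖ ^ 2 / 2) ≤ dotC (om1 * x) y ∧
      -(‖x‖ ^ 2 / 2) ≤ dotC (om2 * x) y := by
  refine ⟨?_, ?_, T.half_of_not_edge h hy⟩
  · have := T.half_of_not_edge h (T.rot2 _ hy)
    rwa [dotC_mul_mul, norm_om2, one_pow, one_mul] at this
  · have := T.half_of_not_edge h (T.rot1 _ hy)
    have e : dotC (om2 * x) (om1 * y) = dotC (om1 * x) y := by
      rw [dotC_om2, ← mul_assoc, om1_sq, dotC_om1]
    rwa [e] at this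

/-- from a crossing at a pole: a horizontal point of `K` on a vertex line -/
lemma cross_mu {K : Set (ℂ × ℝ)} (hconv : Convex ℝ K) (hi1 : RotInv om1 K) (hi2 : RotInv om2 K)
    {b : ℝ} {x : ℂ} (hx0 : x ≠ 0) (hx : x ∈ MS K b⁻¹)
    (hr1 : om1 * x ∈ MS K b⁻¹) (hr2 : om2 * x ∈ MS K b⁻¹)
    (htri : ∀ y ∈ MS K b⁻¹, -(‖x‖ ^ 2 / 2) ≤ dotC x y ∧ -(‖x‖ ^ 2 / 2) ≤ dotC (om1 * x) y ∧
      -(‖x‖ ^ 2 / 2) ≤ dotC (om2 * x) y) {f : (ℂ × ℝ) →L[ℝ] ℝ}
    (hPf : ((0 : ℂ), b) ∈ face K f) (hpos : 0 < zc f * b) {v : ℂ × ℝ} (hv : v ∈ face K f)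
    (hv0 : v.2 = 0) : ∃ μ : ℂ, (μ, (0 : ℝ)) ∈ K ∧ dotC x μ = 1 := by
  have hn := pole_mem hPf hpos
  set n := (((zc f * b)⁻¹ : ℝ) : ℂ) * nv f with hndef
  have hxn : 0 < ‖x‖ := norm_pos_iff.mpr hx0
  have hval : dotC n v.1 = 1 := by
    have h1 := face_val hv hPf
    rw [f3_apply, f3_apply f (0, b), hv0] at h1
    simp only [dotC_zero_right, mul_zero, add_zero, zero_add] at h1
    rw [hndef, dotC_ofReal_left, h1]
    exact inv_mul_cancel₀ hpos.ne'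
  have hvK : (v.1, (0 : ℝ)) ∈ K := by rw [← hv0]; exact hv.1
  obtain ⟨t0, t1, t2⟩ := htri n hn
  have b0 := hx _ hvK
  have b1 := hr1 _ hvK
  have b2 := hr2 _ hvK
  simp only [mul_zero, add_zero] at b0 b1 b2
  have hid := frame_id x n v.1
  rw [hval, mul_one] at hid
  have hs1 := frame_sum x n
  have hs2 := frame_sum x v.1
  have hX : 0 < ‖x‖ ^ 2 := by positivity
  set A0 := dotC x n
  set A1 := dotC (om1 * x) n
  set A2 := dotC (om2 * x) n
  set B0 := dotC x v.1 with hB0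
  set B1 := dotC (om1 * x) v.1 with hB1
  set B2 := dotC (om2 * x) v.1 with hB2
  have g0 : 0 ≤ (A0 + ‖x‖ ^ 2 / 2) * (1 - B0) := mul_nonneg (by linarith) (by linarith)
  have g1 : 0 ≤ (A1 + ‖x‖ ^ 2 / 2) * (1 - B1) := mul_nonneg (by linarith) (by linarith)
  have g2 : 0 ≤ (A2 + ‖x‖ ^ 2 / 2) * (1 - B2) := mul_nonneg (by linarith) (by linarith)
  have gs : (A0 + ‖x‖ ^ 2 / 2) * (1 - B0) + (A1 + ‖x‖ ^ 2 / 2) * (1 - B1)
      + (A2 + ‖x‖ ^ 2 / 2) * (1 - B2) = 0 := by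
    linear_combination hs1 - hid - (‖x‖ ^ 2 / 2) * hs2
  have z0 : (A0 + ‖x‖ ^ 2 / 2) * (1 - B0) = 0 := by linarith
  have z1 : (A1 + ‖x‖ ^ 2 / 2) * (1 - B1) = 0 := by linarith
  have z2 : (A2 + ‖x‖ ^ 2 / 2) * (1 - B2) = 0 := by linarith
  have hex : B0 = 1 ∨ B1 = 1 ∨ B2 = 1 := by
    by_contra hcon
    push Not at hcon
    obtain ⟨c0, c1, c2⟩ := hcon
    have d0 : A0 + ‖x‖ ^ 2 / 2 = 0 := by
      rcases mul_eq_zero.mp z0 with h | h
      · exact h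
      · exact absurd (by linarith) c0
    have d1 : A1 + ‖x‖ ^ 2 / 2 = 0 := by
      rcases mul_eq_zero.mp z1 with h | h
      · exact h
      · exact absurd (by linarith) c1
    have d2 : A2 + ‖x‖ ^ 2 / 2 = 0 := by
      rcases mul_eq_zero.mp z2 with h | h
      · exact h
      · exact absurd (by linarith) c2
    linarith
  rcases hex with h | h | h
  · exact ⟨v.1, hvK, h⟩
  · refine ⟨om2 * v.1, hi2 _ hvK, ?_⟩
    rw [← dotC_om1]; exact h
  · refine ⟨om1 * v.1, hi1 _ hvK, ?_⟩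
    rw [← dotC_om2]; exact h

/-- the exceptional configuration -/
structure ExB (ζ : ℂ) (K : Set (ℂ × ℝ)) (α β : ℝ) (x : ℂ) : Prop where
  B : PB 3 ζ K α β
  T1 : TM (MS K β⁻¹) x
  T0 : TM (MS K (-α)⁻¹) x
  tri1 : ∀ y ∈ MS K β⁻¹, -(‖x‖ ^ 2 / 2) ≤ dotC x y ∧ -(‖x‖ ^ 2 / 2) ≤ dotC (om1 * x) y ∧
      -(‖x‖ ^ 2 / 2) ≤ dotC (om2 * x) y
  tri0 : ∀ y ∈ MS K (-α)⁻¹, -(‖x‖ ^ 2 / 2) ≤ dotC x y ∧ -(‖x‖ ^ 2 / 2) ≤ dotC (om1 * x) y ∧
      -(‖x‖ ^ 2 / 2) ≤ dotC (om2 * x) y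
  mu : ∃ μ : ℂ, (μ, (0 : ℝ)) ∈ K ∧ dotC x μ = 1

end Pool.Agent.Lib.MP_5e7226_co
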