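import Pool.Agent.Lib.MP_5e7226_co.R3C3

set_option autoImplicit false

open Set Filter Topology

namespace Pool.Agent.Lib.MP_5e7226_co

lemma smul_int {M : Set ℂ} (hconv : Convex ℝ M) (h0 : (0 : ℂ) ∈ interior M) {q : ℂ} (hq : q ∈ M)
    {t : ℝ} (ht0 : 0 ≤ t) (ht1 : t < 1) : (t : ℂ) * q ∈ interior M := by
  have := hconv.combo_interior_self_mem_interior h0 hq (a := 1 - t) (b := t) (by linarith) ht0
    (by ring)
  simpa using this

lemma smul_int' {M : Set ℂ} (hconv : Convex ℝ M) (h0 : (0 : ℂ) ∈ interior M) {q : ℂ}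
    (hq : q ∈ interior M) {t : ℝ} (ht0 : 0 ≤ t) (ht1 : t ≤ 1) : (t : ℂ) * q ∈ interior M := by
  rcases ht1.eq_or_lt with h | h
  · rw [h]; simpa using hq
  · exact smul_int hconv h0 (interior_subset hq) ht0 h

lemma tri_int {M : Set ℂ} (hconv : Convex ℝ M) (h0 : (0 : ℂ) ∈ interior M) {a b : ℂ}
    (ha : a ∈ M) (hb : b ∈ M) {s t : ℝ} (hs : 0 ≤ s) (ht : 0 ≤ t) (hst : s + t < 1) :
    (s : ℂ) * a + (t : ℂ) * b ∈ interior M := by
  by_cases h : s + t = 0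
  · have h1 : s = 0 := by linarith
    have h2 : t = 0 := by linarith
    rw [h1, h2]; simpa using h0
  have hpos : 0 < s + t := lt_of_le_of_ne (by linarith) (Ne.symm h)
  have hmem : (s / (s + t)) • a + (t / (s + t)) • b ∈ M :=
    hconv ha hb (by positivity) (by positivity) (by field_simp)
  have := smul_int hconv h0 hmem hpos.le hst
  convert this using 1
  rw [Complex.real_smul, Complex.real_smul]
  have hc : ((s : ℂ) + (t : ℂ)) ≠ 0 := by exact_mod_cast h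
  push_cast
  field_simp

/-- an interior point can be moved a little in any direction -/
lemma int_move {M : Set ℂ} {y : ℂ} (hy : y ∈ interior M) (u : ℂ) :
    ∃ l : ℝ, 0 < l ∧ y - (l : ℂ) * u ∈ interior M := by
  have hc : Continuous (fun t : ℝ => y - (t : ℂ) * u) := by fun_prop
  have hev : ∀ᶠ t : ℝ in 𝓝 0, y - (t : ℂ) * u ∈ interior M := by
    apply hc.continuousAt.eventually_mem
    simp only [Complex.ofReal_zero, zero_mul, sub_zero]
    exact isOpen_interior.mem_nhds hy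
  obtain ⟨t, ht, htpos⟩ := ((hev.filter_mono nhdsWithin_le_nhds).and
    (self_mem_nhdsWithin : Set.Ioi (0 : ℝ) ∈ 𝓝[>] (0 : ℝ))).exists
  exact ⟨t, htpos, ht⟩

lemma I_pow_mod (k : ℕ) : Complex.I ^ k = Complex.I ^ (k % 4) := by
  conv_lhs => rw [← Nat.div_add_mod k 4, pow_add, pow_mul, Complex.I_pow_four, one_pow, one_mul]

lemma foot_decomp (x u : ℂ) (hu : u ≠ 0) : x - ((dotC x u / ‖u‖ ^ 2 : ℝ) : ℂ) * u
    = (((u.re * x.im - u.im * x.re) / ‖u‖ ^ 2 : ℝ) : ℂ) * (Complex.I * u) := by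
  have hne : ‖u‖ ^ 2 ≠ 0 := by
    have := norm_pos_iff.mpr hu
    positivity
  have hne2 : u.re ^ 2 + u.im ^ 2 ≠ 0 := by rw [← sq_norm]; exact hne
  apply Complex.ext
  · rw [Complex.sub_re, Complex.re_ofReal_mul, Complex.re_ofReal_mul, Complex.mul_re,
      Complex.I_re, Complex.I_im, sq_norm]
    simp only [dotC]
    field_simp
    ring
  · rw [Complex.sub_im, Complex.im_ofReal_mul, Complex.im_ofReal_mul, Complex.mul_im,
      Complex.I_re, Complex.I_im, sq_norm]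
    simp only [dotC]
    field_simp
    ring

/-- a good orthogonal frame covers -/
lemma frame_covers {M : Set ℂ} (hconv : Convex ℝ M) (h0 : (0 : ℂ) ∈ interior M) {w : ℂ}
    (hw0 : w ≠ 0) (hmax : ∀ y ∈ M, ‖y‖ ≤ ‖w‖)
    (hfr : ∀ k : ℕ, ((√2 / 2 : ℝ) : ℂ) * (Complex.I ^ k * w) ∈ interior M) :
    Covers M (fun k : Fin 4 => Complex.I ^ (k : ℕ) * w) := by
  intro x hx
  by_cases hx0 : x = 0
  · obtain ⟨l, hl, h⟩ := int_move h0 (Complex.I ^ ((0 : Fin 4) : ℕ) * w)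
    exact ⟨0, l, hl, by rw [hx0]; exact h⟩
  obtain ⟨k, hk⟩ := exists_rot_gen (p := 4) (by norm_num) Complex.isPrimitiveRoot_I x w
  have hc : Real.cos (Real.pi / (4 : ℕ)) = √2 / 2 := by
    have : ((4 : ℕ) : ℝ) = 4 := by norm_num
    rw [this, Real.cos_pi_div_four]
  rw [hc] at hk
  have hs2 := sqrt2_sq
  have hs2p : 0 < √2 := by positivity
  set u := Complex.I ^ k * w with hu
  have hnu : ‖u‖ = ‖w‖ := by rw [hu, norm_mul, norm_pow, Complex.norm_I, one_pow, one_mul]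
  have hwn : 0 < ‖w‖ := norm_pos_iff.mpr hw0
  have hxn : 0 < ‖x‖ := norm_pos_iff.mpr hx0
  set l := dotC x u / ‖u‖ ^ 2 with hl
  set s := (u.re * x.im - u.im * x.re) / ‖u‖ ^ 2 with hs
  have hun : 0 < ‖u‖ := by rw [hnu]; exact hwn
  have hdot : 0 < dotC x u := lt_of_lt_of_le (by positivity) hk
  have hlpos : 0 < l := by positivity
  have hu0 : u ≠ 0 := norm_pos_iff.mp hun
  have hdec : x - (l : ℂ) * u = (s : ℂ) * (Complex.I * u) := foot_decomp x u hu0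
  have hsb : |s| ≤ √2 / 2 := by
    have h1 := cross_sq u x
    rw [dotC_comm u x] at h1
    have h2 : (√2 / 2 * ‖x‖ * ‖w‖) ^ 2 ≤ dotC x u ^ 2 := pow_le_pow_left₀ (by positivity) hk 2
    have h3 : (u.re * x.im - u.im * x.re) ^ 2 ≤ (√2 / 2 * ‖u‖ ^ 2) ^ 2 := by
      have h4 : ‖x‖ ^ 2 ≤ ‖u‖ ^ 2 := by
        rw [hnu]; exact pow_le_pow_left₀ hxn.le (hmax x hx) 2
      have h5 : (√2 / 2 * ‖x‖ * ‖w‖) ^ 2 = 1 / 2 * (‖u‖ ^ 2 * ‖x‖ ^ 2) := by
        rw [← hnu, mul_pow, mul_pow, div_pow, hs2]; ring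
      have h6 : (√2 / 2 * ‖u‖ ^ 2) ^ 2 = 1 / 2 * (‖u‖ ^ 2 * ‖u‖ ^ 2) := by
        rw [mul_pow, div_pow, hs2]; ring
      rw [h6]
      have h7 : ‖u‖ ^ 2 * ‖x‖ ^ 2 ≤ ‖u‖ ^ 2 * ‖u‖ ^ 2 := mul_le_mul_of_nonneg_left h4 (by positivity)
      linarith
    have h8 := abs_le_of_sq_le_sq h3 (by positivity)
    rw [hs, abs_div, abs_of_pos (show (0 : ℝ) < ‖u‖ ^ 2 by positivity), div_le_iff₀ (by positivity)]
    exact h8
  -- the foot is interior
  have hfoot : (s : ℂ) * (Complex.I * u) ∈ interior M := by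
    rcases le_or_gt 0 s with hs0 | hs0
    · have h1 := smul_int' hconv h0 (hfr (k + 1)) (t := s / (√2 / 2)) (by positivity)
        (by rw [div_le_one (by positivity)]; rwa [abs_of_nonneg hs0] at hsb)
      convert h1 using 1
      rw [← mul_assoc (((s / (√2 / 2) : ℝ)) : ℂ), ← Complex.ofReal_mul,
        div_mul_cancel₀ _ (by positivity), hu, pow_succ']
      ring
    · have h1 := smul_int' hconv h0 (hfr (k + 3)) (t := -s / (√2 / 2))
        (div_nonneg (by linarith) (by positivity))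
        (by rw [div_le_one (by positivity)]; rwa [abs_of_neg hs0] at hsb)
      convert h1 using 1
      rw [← mul_assoc (((-s / (√2 / 2) : ℝ)) : ℂ), ← Complex.ofReal_mul,
        div_mul_cancel₀ _ (by positivity), hu, pow_add, Complex.I_pow_three]
      push_cast
      ring
  refine ⟨⟨k % 4, Nat.mod_lt _ (by norm_num)⟩, l, hlpos, ?_⟩
  simp only
  rw [← I_pow_mod, ← hu, hdec]
  exact hfoot

lemma pow_four_of_dot {u ν : ℂ} (hu : u ≠ 0) (hν : ν ≠ 0)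
    (h : dotC ν u = √2 / 2 * ‖ν‖ * ‖u‖) :
    ν ^ 4 * ((‖u‖ : ℝ) : ℂ) ^ 4 = -((‖ν‖ : ℝ) : ℂ) ^ 4 * u ^ 4 := by
  obtain ⟨t, ht⟩ := exists_polar u ν hu
  have hn : 0 < ‖ν‖ := norm_pos_iff.mpr hν
  have hun : 0 < ‖u‖ := norm_pos_iff.mpr hu
  have hs2 := sqrt2_sq
  have hc : Real.cos t = √2 / 2 := by
    have h1 : dotC ν u = ‖ν‖ / ‖u‖ * (‖u‖ ^ 2 * Real.cos t) := by
      conv_lhs => rw [ht]
      rw [dotC_ofReal_left]
      have := dotC_mul_eA u t 0
      rw [eA_zero, mul_one, sub_zero] at this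
      rw [this]
    rw [h1] at h
    have h3 : ‖ν‖ * ‖u‖ * (Real.cos t - √2 / 2) = 0 := by
      have : ‖ν‖ / ‖u‖ * (‖u‖ ^ 2 * Real.cos t) = ‖ν‖ * ‖u‖ * Real.cos t := by
        field_simp
      rw [this] at h
      linarith
    rcases mul_eq_zero.mp h3 with h4 | h4
    · exact absurd h4 (mul_pos hn hun).ne'
    · linarith
  have hs : Real.sin t ^ 2 = 1 / 2 := by
    have := Real.sin_sq_add_cos_sq t
    rw [hc, div_pow, hs2] at this
    linarith
  have hc2 : Real.cos t ^ 2 = 1 / 2 := by rw [hc, div_pow, hs2]; norm_num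
  have e4 : eA t ^ 4 = -1 := by
    have e2 : eA t * eA t = ⟨0, 2 * (Real.cos t * Real.sin t)⟩ := by
      apply Complex.ext
      · simp only [Complex.mul_re, eA_re, eA_im]
        nlinarith
      · simp only [Complex.mul_im, eA_re, eA_im]
        ring
    have : eA t ^ 4 = (eA t * eA t) * (eA t * eA t) := by ring
    rw [this, e2]
    apply Complex.ext
    · simp only [Complex.mul_re, Complex.neg_re, Complex.one_re]
      have : (0 : ℝ) * 0 - 2 * (Real.cos t * Real.sin t) * (2 * (Real.cos t * Real.sin t))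
        = -4 * (Real.cos t ^ 2 * Real.sin t ^ 2) := by ring
      rw [this, hs, hc2]
      norm_num
    · simp only [Complex.mul_im, Complex.neg_im, Complex.one_im]
      ring
  have hunc : ((‖u‖ : ℝ) : ℂ) ≠ 0 := by exact_mod_cast hun.ne'
  have h5 : ν ^ 4 = (((‖ν‖ / ‖u‖ : ℝ) : ℂ) * (u * eA t)) ^ 4 := by rw [← ht]
  rw [h5, mul_pow, mul_pow, e4]
  push_cast
  field_simp

/-- eight directions from two different orthogonal frames -/
lemma four_dirs {w₁ w₀ ν : ℂ} (h1 : w₁ ≠ 0) (h0 : w₀ ≠ 0) (hν : ν ≠ 0)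
    (hD : w₁ ^ 4 * ((‖w₀‖ : ℝ) : ℂ) ^ 4 ≠ w₀ ^ 4 * ((‖w₁‖ : ℝ) : ℂ) ^ 4) :
    (∃ k : Fin 4, √2 / 2 * ‖Complex.I ^ (k : ℕ) * w₁‖ * ‖ν‖
        < dotC (Complex.I ^ (k : ℕ) * w₁) ν) ∨
    (∃ k : Fin 4, √2 / 2 * ‖Complex.I ^ (k : ℕ) * w₀‖ * ‖ν‖
        < dotC (Complex.I ^ (k : ℕ) * w₀) ν) := by
  have hc : Real.cos (Real.pi / (4 : ℕ)) = √2 / 2 := by
    have : ((4 : ℕ) : ℝ) = 4 := by norm_num
    rw [this, Real.cos_pi_div_four]
  have hnorm : ∀ (k : ℕ) (w : ℂ), ‖Complex.I ^ k * w‖ = ‖w‖ := by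
    intro k w
    rw [norm_mul, norm_pow, Complex.norm_I, one_pow, one_mul]
  have key : ∀ w : ℂ, w ≠ 0 → (∃ k : Fin 4, √2 / 2 * ‖Complex.I ^ (k : ℕ) * w‖ * ‖ν‖
        < dotC (Complex.I ^ (k : ℕ) * w) ν) ∨
        ν ^ 4 * ((‖w‖ : ℝ) : ℂ) ^ 4 = -((‖ν‖ : ℝ) : ℂ) ^ 4 * w ^ 4 := by
    intro w hw
    obtain ⟨k, hk⟩ := exists_rot_gen (p := 4) (by norm_num) Complex.isPrimitiveRoot_I ν w
    rw [hc] at hk
    rcases hk.eq_or_lt with h | h
    · right
      have hu0 : Complex.I ^ k * w ≠ 0 := mul_ne_zero (pow_ne_zero _ Complex.I_ne_zero) hw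
      have := pow_four_of_dot hu0 hν (by rw [hnorm]; exact h.symm)
      rw [hnorm, mul_pow (Complex.I ^ k), ← pow_mul, mul_comm k 4, pow_mul, Complex.I_pow_four,
        one_pow, one_mul] at this
      exact this
    · left
      refine ⟨⟨k % 4, Nat.mod_lt _ (by norm_num)⟩, ?_⟩
      simp only
      rw [← I_pow_mod, hnorm, dotC_comm _ ν]
      linarith
  rcases key w₁ h1 with h | h
  · exact Or.inl h
  rcases key w₀ h0 with h' | h'
  · exact Or.inr h'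
  exfalso
  apply hD
  have hνc : -((‖ν‖ : ℝ) : ℂ) ^ 4 ≠ 0 := by
    apply neg_ne_zero.mpr
    apply pow_ne_zero
    have := norm_pos_iff.mpr hν
    exact_mod_cast this.ne'
  apply mul_left_cancel₀ hνc
  calc -((‖ν‖ : ℝ) : ℂ) ^ 4 * (w₁ ^ 4 * ((‖w₀‖ : ℝ) : ℂ) ^ 4)
      = (-((‖ν‖ : ℝ) : ℂ) ^ 4 * w₁ ^ 4) * ((‖w₀‖ : ℝ) : ℂ) ^ 4 := by ring
    _ = ν ^ 4 * ((‖w₁‖ : ℝ) : ℂ) ^ 4 * ((‖w₀‖ : ℝ) : ℂ) ^ 4 := by rw [h]
    _ = (ν ^ 4 * ((‖w₀‖ : ℝ) : ℂ) ^ 4) * ((‖w₁‖ : ℝ) : ℂ) ^ 4 := by ring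
    _ = -((‖ν‖ : ℝ) : ℂ) ^ 4 * w₀ ^ 4 * ((‖w₁‖ : ℝ) : ℂ) ^ 4 := by rw [h']
    _ = _ := by ring

/-- frames through the farthest point -/
lemma PM.frame {p : ℕ} {ζ : ℂ} {M : Set ℂ} (P : PM p ζ M) (hp : 4 ≤ p) {x : ℂ} (hx : x ∈ M)
    (hx0 : x ≠ 0) {c : ℂ} (hc : c = 1 ∨ c = eA (Real.pi / 8)) (k : ℕ) :
    ((√2 / 2 : ℝ) : ℂ) * (Complex.I ^ k * (c * x)) ∈ interior M := by
  have hs2 := sqrt2_sq
  have hs2p : 0 < √2 := by positivity
  have hxn : 0 < ‖x‖ := norm_pos_iff.mpr hx0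
  have hpi := Real.pi_pos
  have hcn : ‖c‖ = 1 := by
    rcases hc with h | h
    · rw [h]; simp
    · rw [h]; exact norm_eA _
  rcases Nat.lt_or_ge 4 p with hp5 | hp5
  · -- disc argument
    have hcos : √2 / 2 < Real.cos (Real.pi / p) := by
      rw [← Real.cos_pi_div_four]
      have hp' : (5 : ℝ) ≤ p := by exact_mod_cast hp5
      apply Real.cos_lt_cos_of_nonneg_of_le_pi (by positivity) (by linarith)
      apply div_lt_div_of_pos_left hpi (by norm_num) (by linarith)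
    rw [mem_interior]
    refine ⟨Metric.ball 0 (Real.cos (Real.pi / p) * ‖x‖), ?_, Metric.isOpen_ball, ?_⟩
    · intro q hq
      rw [Metric.mem_ball, dist_zero_right] at hq
      exact ball_mem P.hp P.hζ P.conv P.cpt.isClosed P.rot hx hq.le
    · rw [Metric.mem_ball, dist_zero_right, norm_mul, norm_mul, norm_mul, norm_pow,
        Complex.norm_I, one_pow, one_mul, hcn, one_mul, Complex.norm_real,
        Real.norm_of_nonneg (by positivity)]
      exact mul_lt_mul_of_pos_right hcos hxn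
  · have hp4 : p = 4 := by omega
    subst hp4
    -- invariance under `I`
    have hI : ∀ n ∈ M, Complex.I * n ∈ M := by
      obtain ⟨j, _, hj⟩ := P.hζ.eq_pow_of_pow_eq_one Complex.I_pow_four
      intro n hn
      rw [← hj]
      exact rot_pow_mem P.rot j hn
    have hlt : √2 / 2 < 1 := by nlinarith
    rcases hc with h | h
    · rw [h, one_mul]
      exact smul_int P.conv P.h0 (rot_pow_mem hI k hx) (by positivity) hlt
    · have h1 : ((√2 / 2 : ℝ) : ℂ) * (Complex.I ^ k * (c * x))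
          = ((√2 / 2 * Real.cos (Real.pi / 8) : ℝ) : ℂ) * (Complex.I ^ k * x)
            + ((√2 / 2 * Real.sin (Real.pi / 8) : ℝ) : ℂ) * (Complex.I ^ (k + 1) * x) := by
        have h2 : c = (Real.cos (Real.pi / 8) : ℂ) + (Real.sin (Real.pi / 8) : ℂ) * Complex.I := by
          rw [h]
          apply Complex.ext <;> simp [-Real.cos_pi_div_eight, -Real.sin_pi_div_eight,
            -Complex.ofReal_cos, -Complex.ofReal_sin]
        rw [h2, pow_succ]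
        push_cast
        ring
      rw [h1]
      have hcp : 0 < Real.cos (Real.pi / 8) := Real.cos_pos_of_mem_Ioo ⟨by linarith, by linarith⟩
      have hsp : 0 < Real.sin (Real.pi / 8) := Real.sin_pos_of_pos_of_lt_pi (by linarith) (by linarith)
      apply tri_int P.conv P.h0 (rot_pow_mem hI k hx) (rot_pow_mem hI (k + 1) hx) (by positivity)
        (by positivity)
      have h3 : √2 / 2 * Real.cos (Real.pi / 8) + √2 / 2 * Real.sin (Real.pi / 8)
          = Real.sin (Real.pi / 4 + Real.pi / 8) := by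
        rw [Real.sin_add, Real.sin_pi_div_four, Real.cos_pi_div_four]
      rw [h3]
      have h4 : Real.sin (Real.pi / 4 + Real.pi / 8) < Real.sin (Real.pi / 2) := by
        apply Real.sin_lt_sin_of_lt_of_le_pi_div_two <;> linarith
      rwa [Real.sin_pi_div_two] at h4

/-- case 3 for `p ≥ 4` -/
theorem PB.case3_four {p : ℕ} {ζ : ℂ} {K : Set (ℂ × ℝ)} {α β : ℝ} (B : PB p ζ K α β) (hp4 : 4 ≤ p)
    (hT : TopCross K β) (hB : BotCross K α) : Sep K 8 := by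
  have P1 := B.pm_top hT
  have P0 := B.pm_bot hB
  obtain ⟨x₁, hx₁, hx₁0, hmax₁⟩ := P1.far
  obtain ⟨x₀, hx₀, hx₀0, hmax₀⟩ := P0.far
  obtain ⟨c, hc, hD⟩ : ∃ c : ℂ, (c = 1 ∨ c = eA (Real.pi / 8)) ∧
      x₁ ^ 4 * ((‖c * x₀‖ : ℝ) : ℂ) ^ 4 ≠ (c * x₀) ^ 4 * ((‖x₁‖ : ℝ) : ℂ) ^ 4 := by
    by_cases h : x₁ ^ 4 * ((‖x₀‖ : ℝ) : ℂ) ^ 4 = x₀ ^ 4 * ((‖x₁‖ : ℝ) : ℂ) ^ 4
    · refine ⟨eA (Real.pi / 8), Or.inr rfl, ?_⟩
      rw [norm_mul, norm_eA, one_mul, h, mul_pow, eA_pow]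
      have h1 : ((4 : ℕ) : ℝ) * (Real.pi / 8) = Real.pi / 2 := by push_cast; ring
      rw [h1]
      have h2 : eA (Real.pi / 2) = Complex.I := by
        apply Complex.ext <;> simp
      rw [h2]
      intro h3
      have h4 : x₀ ^ 4 * ((‖x₁‖ : ℝ) : ℂ) ^ 4 ≠ 0 := by
        apply mul_ne_zero (pow_ne_zero _ hx₀0)
        apply pow_ne_zero
        have := norm_pos_iff.mpr hx₁0
        exact_mod_cast this.ne'
      have h5 : (x₀ ^ 4 * ((‖x₁‖ : ℝ) : ℂ) ^ 4) * 1 = (x₀ ^ 4 * ((‖x₁‖ : ℝ) : ℂ) ^ 4) * Complex.I := by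
        rw [mul_one]
        calc _ = Complex.I * x₀ ^ 4 * ((‖x₁‖ : ℝ) : ℂ) ^ 4 := h3
          _ = _ := by ring
      have h6 := mul_left_cancel₀ h4 h5
      have := congrArg Complex.re h6
      simp at this
    · refine ⟨1, Or.inl rfl, ?_⟩
      simpa using h
  have hcn : ‖c‖ = 1 := by
    rcases hc with h | h
    · rw [h]; simp
    · rw [h]; exact norm_eA _
  have hc0 : c ≠ 0 := by intro h; rw [h] at hcn; simp at hcn
  have hcx0 : c * x₀ ≠ 0 := mul_ne_zero hc0 hx₀0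
  refine B.c3 (u := fun k : Fin 4 => Complex.I ^ (k : ℕ) * x₁)
    (v := fun k : Fin 4 => Complex.I ^ (k : ℕ) * (c * x₀)) ?_ ?_ ?_ (by simp)
  · refine frame_covers P1.conv P1.h0 hx₁0 hmax₁ ?_
    intro k
    have := P1.frame hp4 hx₁ hx₁0 (Or.inl rfl) k
    rwa [one_mul] at this
  · refine frame_covers P0.conv P0.h0 hcx0 ?_ ?_
    · intro y hy
      rw [norm_mul, hcn, one_mul]
      exact hmax₀ y hy
    · intro k
      exact P0.frame hp4 hx₀ hx₀0 hc k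
  · intro f hf hN hS
    obtain ⟨hn, hoff⟩ := B.off_axis hf hN hS
    have hs2 := sqrt2_sq
    have hdot : ∀ d : ℂ, d ≠ 0 → √2 / 2 * ‖d‖ * ‖nv f‖ < dotC d (nv f) →
        ∀ y ∈ face K f, 0 < dotC d y.1 := by
      intro d hd h y hy
      exact dot_pos_of (s := √2 / 2) (t := √2 / 2) (by positivity) (by positivity)
        (by nlinarith) hn hd (hoff y hy) h (B.angle_sqrt hp4 hy)
    rcases four_dirs hx₁0 hcx0 hn hD with ⟨k, hk⟩ | ⟨k, hk⟩
    · left
      exact ⟨k, hdot _ (mul_ne_zero (pow_ne_zero _ Complex.I_ne_zero) hx₁0) hk⟩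
    · right
      exact ⟨k, hdot _ (mul_ne_zero (pow_ne_zero _ Complex.I_ne_zero) hcx0) hk⟩

end Pool.Agent.Lib.MP_5e7226_co
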