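import Pool.Agent.Lib.MP_5e7226_co.R3Case1b

set_option autoImplicit false

open Set Filter Topology

namespace Pool.Agent.Lib.MP_5e7226_co

/-- strict positivity on a face passes to nearby faces, also with a small perturbation -/
lemma face_pos_near {K : Set (ℂ × ℝ)} (hK : IsCompact K) (f₀ : (ℂ × ℝ) →L[ℝ] ℝ) (u : ℂ) (s : ℝ)
    (h : ∀ y ∈ face K f₀, 0 < dotC u y.1) :
    ∀ᶠ z : ℝ × ((ℂ × ℝ) →L[ℝ] ℝ) in 𝓝 (0, f₀), ∀ y ∈ face K z.2, 0 < mk3 u (s * z.1) y := by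
  apply eventually_face hK (0 : ℝ) f₀ (fun ε _ y => 0 < mk3 u (s * ε) y)
  intro x hx
  have hlt : (0 : ℝ) < dotC u x.1 + s * 0 * x.2 := by simpa using h x hx
  have hc2 : Continuous (fun z : (ℝ × ((ℂ × ℝ) →L[ℝ] ℝ)) × (ℂ × ℝ) =>
      dotC u z.2.1 + s * z.1.1 * z.2.2) := by
    apply Continuous.add
    · exact continuous_dotC.comp (continuous_const.prodMk (continuous_fst.comp continuous_snd))
    · exact (continuous_const.mul (continuous_fst.comp continuous_fst)).mul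
        (continuous_snd.comp continuous_snd)
  have hev : ∀ᶠ z : (ℝ × ((ℂ × ℝ) →L[ℝ] ℝ)) × (ℂ × ℝ) in 𝓝 (((0 : ℝ), f₀), x),
      0 < dotC u z.2.1 + s * z.1.1 * z.2.2 :=
    (continuousAt_const).eventually_lt (hc2.continuousAt (x := (((0 : ℝ), f₀), x))) hlt
  filter_upwards [hev] with z hz _
  simpa using hz

/-- the mixed version -/
lemma face_mixed_near {K : Set (ℂ × ℝ)} (hK : IsCompact K) (f₀ : (ℂ × ℝ) →L[ℝ] ℝ) (u : ℂ) (s : ℝ)
    (h : ∀ y ∈ face K f₀, 0 < dotC u y.1 ∨ 0 < s * y.2)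
    (h2 : ∀ᶠ f' in 𝓝 f₀, ∀ y ∈ face K f', 0 ≤ dotC u y.1) :
    ∀ᶠ z : ℝ × ((ℂ × ℝ) →L[ℝ] ℝ) in 𝓝 (0, f₀), 0 < z.1 →
      ∀ y ∈ face K z.2, 0 < mk3 u (s * z.1) y := by
  have h2' : ∀ᶠ z : ℝ × ((ℂ × ℝ) →L[ℝ] ℝ) in 𝓝 ((0 : ℝ), f₀),
      ∀ y ∈ face K z.2, 0 ≤ dotC u y.1 :=
    (continuous_snd.continuousAt (x := ((0 : ℝ), f₀))).eventually h2
  have h1 : ∀ᶠ z : ℝ × ((ℂ × ℝ) →L[ℝ] ℝ) in 𝓝 ((0 : ℝ), f₀),
      ∀ y ∈ face K z.2, (0 < z.1 → 0 ≤ dotC u y.1 → 0 < mk3 u (s * z.1) y) := by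
    apply eventually_face hK (0 : ℝ) f₀
      (fun ε _ y => (0 < ε → 0 ≤ dotC u y.1 → 0 < mk3 u (s * ε) y))
    intro x hx
    rcases h x hx with hlt | hlt
    · have hlt' : (0 : ℝ) < dotC u x.1 + s * 0 * x.2 := by simpa using hlt
      have hc2 : Continuous (fun z : (ℝ × ((ℂ × ℝ) →L[ℝ] ℝ)) × (ℂ × ℝ) =>
          dotC u z.2.1 + s * z.1.1 * z.2.2) := by
        apply Continuous.add
        · exact continuous_dotC.comp (continuous_const.prodMk (continuous_fst.comp continuous_snd))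
        · exact (continuous_const.mul (continuous_fst.comp continuous_fst)).mul
            (continuous_snd.comp continuous_snd)
      have hev : ∀ᶠ z : (ℝ × ((ℂ × ℝ) →L[ℝ] ℝ)) × (ℂ × ℝ) in 𝓝 (((0 : ℝ), f₀), x),
          0 < dotC u z.2.1 + s * z.1.1 * z.2.2 :=
        (continuousAt_const).eventually_lt (hc2.continuousAt (x := (((0 : ℝ), f₀), x))) hlt'
      filter_upwards [hev] with z hz _ _ _
      simpa using hz
    · have hc2 : Continuous (fun z : (ℝ × ((ℂ × ℝ) →L[ℝ] ℝ)) × (ℂ × ℝ) => s * z.2.2) :=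
        continuous_const.mul (continuous_snd.comp continuous_snd)
      have hev : ∀ᶠ z : (ℝ × ((ℂ × ℝ) →L[ℝ] ℝ)) × (ℂ × ℝ) in 𝓝 (((0 : ℝ), f₀), x),
          0 < s * z.2.2 :=
        (continuousAt_const).eventually_lt (hc2.continuousAt (x := (((0 : ℝ), f₀), x))) hlt
      filter_upwards [hev] with z hz _ hpos hnn
      rw [mk3_apply]
      have h3 : 0 < z.1.1 * (s * z.2.2) := mul_pos hpos hz
      have h4 : s * z.1.1 * z.2.2 = z.1.1 * (s * z.2.2) := by ring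
      rw [h4]
      linarith
  filter_upwards [h1, h2'] with z hz1 hz2 hpos y hy
  exact hz1 y hy hpos (hz2 y hy)

/-- strict positivity of a fixed functional on a face passes to nearby faces -/
lemma face_fix_near {K : Set (ℂ × ℝ)} (hK : IsCompact K) (f₀ h₀ : (ℂ × ℝ) →L[ℝ] ℝ)
    (h : ∀ y ∈ face K f₀, 0 < h₀ y) :
    ∀ᶠ z : ℝ × ((ℂ × ℝ) →L[ℝ] ℝ) in 𝓝 (0, f₀), ∀ y ∈ face K z.2, 0 < h₀ y := by
  apply eventually_face hK (0 : ℝ) f₀ (fun _ _ y => 0 < h₀ y)
  intro x hx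
  have hc2 : Continuous (fun z : (ℝ × ((ℂ × ℝ) →L[ℝ] ℝ)) × (ℂ × ℝ) => h₀ z.2) :=
    h₀.continuous.comp continuous_snd
  have hev : ∀ᶠ z : (ℝ × ((ℂ × ℝ) →L[ℝ] ℝ)) × (ℂ × ℝ) in 𝓝 (((0 : ℝ), f₀), x), 0 < h₀ z.2 :=
    (continuousAt_const).eventually_lt (hc2.continuousAt (x := (((0 : ℝ), f₀), x))) (h x hx)
  filter_upwards [hev] with z hz _ using hz

/-- The glueing lemma. -/
theorem glue {K : Set (ℂ × ℝ)} (hK : IsCompact K) {ι κ τ : Type*} [Fintype ι] [Fintype κ]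
    [Fintype τ] (u : ι → ℂ) (v : κ → ℂ) (h : τ → ((ℂ × ℝ) →L[ℝ] ℝ))
    (H : ∀ f : (ℂ × ℝ) →L[ℝ] ℝ, f ≠ 0 →
      (∃ t, ∀ y ∈ face K f, 0 < h t y) ∨
      (∃ i, ∀ y ∈ face K f, 0 < dotC (u i) y.1) ∨
      (∃ i, ∀ y ∈ face K f, 0 < dotC (v i) y.1) ∨
      (∃ i, (∀ y ∈ face K f, 0 < dotC (u i) y.1 ∨ 0 < y.2) ∧
        ∀ᶠ f' in 𝓝 f, ∀ y ∈ face K f', 0 ≤ dotC (u i) y.1) ∨
      (∃ i, (∀ y ∈ face K f, 0 < dotC (v i) y.1 ∨ y.2 < 0) ∧
        ∀ᶠ f' in 𝓝 f, ∀ y ∈ face K f', 0 ≤ dotC (v i) y.1) ∨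
      ((∀ y ∈ face K f, 0 < y.2) ∧
        ∀ᶠ f' in 𝓝 f, ∃ i, ∀ y ∈ face K f', 0 ≤ dotC (u i) y.1)) {n : ℕ}
    (hn : Fintype.card ι + Fintype.card κ + Fintype.card τ ≤ n) : Sep K n := by
  classical
  let w : ℝ → (ι ⊕ κ) ⊕ τ → ((ℂ × ℝ) →L[ℝ] ℝ) := fun ε i =>
    match i with
    | Sum.inl (Sum.inl i) => mk3 (u i) (1 * ε)
    | Sum.inl (Sum.inr i) => mk3 (v i) (-1 * ε)
    | Sum.inr t => h t
  have main : ∃ ε > 0, ∀ f : (ℂ × ℝ) →L[ℝ] ℝ, f ≠ 0 → ∃ i, ∀ x ∈ face K f, 0 < w ε i x := by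
    apply exists_eps (P := fun ε f => ∃ i, ∀ x ∈ face K f, 0 < w ε i x)
    · rintro ε f c hc ⟨i, hi⟩
      exact ⟨i, by rwa [face_smul K f hc]⟩
    intro f₀ hf₀
    rcases H f₀ hf₀ with ⟨t, ht⟩ | ⟨i, hi⟩ | ⟨i, hi⟩ | ⟨i, hi, hi2⟩ | ⟨i, hi, hi2⟩ | ⟨h1, h2⟩
    · filter_upwards [face_fix_near hK f₀ (h t) ht] with z hz _
      exact ⟨Sum.inr t, hz⟩
    · filter_upwards [face_pos_near hK f₀ (u i) 1 hi] with z hz _
      exact ⟨Sum.inl (Sum.inl i), hz⟩
    · filter_upwards [face_pos_near hK f₀ (v i) (-1) hi] with z hz _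
      exact ⟨Sum.inl (Sum.inr i), hz⟩
    · filter_upwards [face_mixed_near hK f₀ (u i) 1 (by
        intro y hy
        rcases hi y hy with h3 | h3
        · exact Or.inl h3
        · exact Or.inr (by linarith)) hi2] with z hz hpos
      exact ⟨Sum.inl (Sum.inl i), hz hpos⟩
    · filter_upwards [face_mixed_near hK f₀ (v i) (-1) (by
        intro y hy
        rcases hi y hy with h3 | h3
        · exact Or.inl h3
        · exact Or.inr (by linarith)) hi2] with z hz hpos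
      exact ⟨Sum.inl (Sum.inr i), hz hpos⟩
    · have h2' : ∀ᶠ z : ℝ × ((ℂ × ℝ) →L[ℝ] ℝ) in 𝓝 ((0 : ℝ), f₀),
          ∃ i, ∀ y ∈ face K z.2, 0 ≤ dotC (u i) y.1 :=
        (continuous_snd.continuousAt (x := ((0 : ℝ), f₀))).eventually h2
      have h3 := face_fix_near hK f₀ (mk3 0 1) (by
        intro y hy
        have := h1 y hy
        rw [mk3_apply, dotC_zero_left]
        linarith)
      filter_upwards [h2', h3] with z hz1 hz2 hpos
      obtain ⟨i, hi⟩ := hz1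
      refine ⟨Sum.inl (Sum.inl i), ?_⟩
      intro y hy
      have h4 := hz2 y hy
      rw [mk3_apply, dotC_zero_left] at h4
      have h5 : 0 < z.1 * y.2 := mul_pos hpos (by linarith)
      have h6 := hi y hy
      simp only [w, mk3_apply, one_mul]
      linarith
  obtain ⟨ε, _, hε⟩ := main
  refine Sep.of_fintype (w ε) hε ?_
  simpa using hn

lemma cos_pi_seven_gt : √3 / 2 < Real.cos (Real.pi / (7 : ℕ)) := by
  rw [← Real.cos_pi_div_six]
  have hpi := Real.pi_pos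
  apply Real.cos_lt_cos_of_nonneg_of_le_pi (by positivity) (by linarith)
  push_cast
  linarith

/-- case 2: crossing at the top only -/
theorem PB.case2 {p : ℕ} {ζ : ℂ} {K : Set (ℂ × ℝ)} {α β : ℝ} (B : PB p ζ K α β)
    (hT : TopCross K β) (hB : ¬ BotCross K α) : Sep K 8 := by
  obtain ⟨f₁, hf₁, hN₁, y₁, hy₁, hy₁0⟩ := hT
  have h3 : √3 ^ 2 = 3 := Real.sq_sqrt (by norm_num)
  have hn₁ : nv f₁ ≠ 0 := by
    intro h
    rcases B.pole_of_nv_zero hf₁ h with h1 | h1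
    · have := h1.2.2 y₁ hy₁
      have := B.hβ
      linarith
    · have := h1.2.2 _ hN₁
      have := B.hβ
      have := B.hα
      linarith
  -- the top is a single point
  have htop : ∀ y ∈ K, y.2 = β → y.1 = 0 := by
    intro y hy hyβ
    by_contra hy0
    obtain ⟨k, hk⟩ := exists_rot_gen (by have := B.hp; omega) B.hζ (nv f₁) y.1
    have h4 := hN₁.2 _ (B.inv.pow k hy)
    rw [f3_apply, f3_apply f₁ (0, β)] at h4
    simp only [dotC_zero_right, hyβ] at h4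
    have h5 : 0 < Real.cos (Real.pi / p) * ‖nv f₁‖ * ‖y.1‖ := by
      have := B.cos_ge_half
      have : 0 < Real.cos (Real.pi / p) := by linarith
      have := norm_pos_iff.mpr hn₁
      have := norm_pos_iff.mpr hy0
      positivity
    linarith
  -- goodness
  have hgood : ∀ f : (ℂ × ℝ) →L[ℝ] ℝ, nv f ≠ 0 → ∀ j : Fin 7,
      √3 / 2 * ‖nv f‖ < dotC (dirN 7 1 j) (nv f) → ∀ y ∈ face K f, y.1 ≠ 0 →
      0 < dotC (dirN 7 1 j) y.1 := by
    intro f hn j hj y hy hy0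
    have hu : ‖dirN 7 1 j‖ = 1 := norm_dirN (by norm_num) (by simp) j
    have hu0 : dirN 7 1 j ≠ 0 := by
      intro h; rw [h] at hu; simp at hu
    exact dot_pos_of (s := √3 / 2) (t := 1 / 2) (by positivity) (by norm_num)
      (by nlinarith) hn hu0 hy0 (by rw [hu, mul_one]; exact hj) (B.angle_half hy)
  have hex : ∀ ν : ℂ, ν ≠ 0 → ∃ j : Fin 7, √3 / 2 * ‖ν‖ < dotC (dirN 7 1 j) ν := by
    intro ν hν
    obtain ⟨j, hj⟩ := exists_dirN (N := 7) (by norm_num) (g := 1) (by simp) ν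
    refine ⟨j, lt_of_lt_of_le ?_ hj⟩
    have := cos_pi_seven_gt
    have h4 := norm_pos_iff.mpr hν
    exact mul_lt_mul_of_pos_right this h4
  refine glue B.cpt (ι := Fin 7) (κ := Fin 0) (τ := Fin 1) (dirN 7 1) (fun _ => 0)
    (fun _ => mk3 0 (-1)) ?_ (by simp)
  intro f hf
  by_cases hS : ((0 : ℂ), -α) ∈ face K f
  · left
    refine ⟨0, ?_⟩
    intro y hy
    rw [mk3_apply, dotC_zero_left]
    have : y.2 < 0 := by
      by_contra hcon
      push Not at hcon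
      exact hB ⟨f, hf, hS, y, hy, hcon⟩
    linarith
  by_cases hn : nv f = 0
  · -- the vertical normal
    right; right; right; right; right
    rcases B.pole_of_nv_zero hf hn with ⟨h1, h2, h5⟩ | h1
    · constructor
      · intro y hy
        rw [h5 y hy]
        exact B.hβ
      · have hz : ∀ᶠ f' in 𝓝 f, 0 < zc f' :=
          (continuousAt_const).eventually_lt (continuous_zc.continuousAt (x := f)) h2
        filter_upwards [hz] with f' hf'
        by_cases hn' : nv f' = 0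
        · refine ⟨0, ?_⟩
          intro y hy
          have hf'0 : f' ≠ 0 := by
            rintro rfl
            simp [zc] at hf'
          have : y.1 = 0 := by
            rcases B.pole_of_nv_zero hf'0 hn' with h6 | h6
            · exact htop y hy.1 (h6.2.2 y hy)
            · have := h6.2.1
              linarith
          rw [this, dotC_zero_right]
        · obtain ⟨j, hj⟩ := hex _ hn'
          refine ⟨j, ?_⟩
          intro y hy
          by_cases hy0 : y.1 = 0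
          · rw [hy0, dotC_zero_right]
          · exact (hgood f' hn' j hj y hy hy0).le
    · exact absurd h1.1 hS
  · -- other normals
    right; right; right; left
    obtain ⟨j, hj⟩ := hex _ hn
    refine ⟨j, ?_, ?_⟩
    · intro y hy
      by_cases hy0 : y.1 = 0
      · right
        rcases B.pole hf hy hy0 with h | h
        · rw [h]; exact B.hβ
        · rw [h] at hy; exact absurd hy hS
      · left
        exact hgood f hn j hj y hy hy0
    · have c1 : Continuous (fun f' : (ℂ × ℝ) →L[ℝ] ℝ => dotC (dirN 7 1 j) (nv f')) :=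
        continuous_dotC.comp (continuous_const.prodMk (continuous_nv (W := ℝ)))
      have c2 : Continuous (fun f' : (ℂ × ℝ) →L[ℝ] ℝ => √3 / 2 * ‖nv f'‖) :=
        continuous_const.mul ((continuous_nv (W := ℝ)).norm)
      have e1 : ∀ᶠ f' in 𝓝 f, √3 / 2 * ‖nv f'‖ < dotC (dirN 7 1 j) (nv f') :=
        (c2.continuousAt (x := f)).eventually_lt (c1.continuousAt (x := f)) hj
      have e2 : ∀ᶠ f' in 𝓝 f, nv f' ≠ 0 :=
        ((continuous_nv (W := ℝ)).continuousAt (x := f)).eventually_ne hn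
      filter_upwards [e1, e2] with f' h5 h6 y hy
      by_cases hy0 : y.1 = 0
      · rw [hy0, dotC_zero_right]
      · exact (hgood f' h6 j h5 y hy hy0).le

end Pool.Agent.Lib.MP_5e7226_co
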