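import Pool.Agent.Lib.MP_5e7226_co.R3Three

set_option autoImplicit false

open Set Filter Topology Polynomial

namespace Pool.Agent.Lib.MP_5e7226_co

lemma continuous_eA : Continuous eA := by
  have : eA = fun t : ℝ => Complex.exp (t * Complex.I) := by
    ext1 t; exact eA_eq_exp t
  rw [this]
  fun_prop

lemma eA_two_pi : eA (2 * Real.pi) = 1 := by
  have := eA_add_int 0 1
  rw [eA_zero] at this
  simpa using this

/-- the closed group of rotation angles preserving `K` -/
def rotGroup (K : Set (ℂ × ℝ)) : AddSubgroup ℝ where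
  carrier := {t | (∀ y ∈ K, (eA t * y.1, y.2) ∈ K) ∧ (∀ y ∈ K, (eA (-t) * y.1, y.2) ∈ K)}
  zero_mem' := by
    constructor
    · intro y hy; rw [eA_zero, one_mul]; exact hy
    · intro y hy; rw [neg_zero, eA_zero, one_mul]; exact hy
  add_mem' := by
    rintro s t ⟨hs1, hs2⟩ ⟨ht1, ht2⟩
    constructor
    · intro y hy
      have := hs1 _ (ht1 y hy)
      simp only at this
      rw [eA_add, mul_assoc]; exact this
    · intro y hy
      have := hs2 _ (ht2 y hy)
      simp only at this
      rw [neg_add, eA_add, mul_assoc]; exact this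
  neg_mem' := by
    rintro s ⟨hs1, hs2⟩
    exact ⟨hs2, by simpa using hs1⟩

lemma rotGroup_closed {K : Set (ℂ × ℝ)} (hK : IsClosed K) : IsClosed (rotGroup K : Set ℝ) := by
  have h : (rotGroup K : Set ℝ) = (⋂ y ∈ K, {t : ℝ | (eA t * y.1, y.2) ∈ K}) ∩
      (⋂ y ∈ K, {t : ℝ | (eA (-t) * y.1, y.2) ∈ K}) := by
    ext t
    simp [rotGroup]
  rw [h]
  apply IsClosed.inter
  · apply isClosed_biInter
    intro y _
    exact hK.preimage ((continuous_eA.mul continuous_const).prodMk continuous_const)
  · apply isClosed_biInter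
    intro y _
    exact hK.preimage (((continuous_eA.comp continuous_neg).mul continuous_const).prodMk
      continuous_const)

theorem sep_of_rot {K : Set (ℂ × ℝ)} (hcpt : IsCompact K) (hconv : Convex ℝ K)
    (h0 : (0 : ℂ × ℝ) ∈ interior K) {z₀ : ℂ} (hz : ‖z₀‖ = 1) (hz2 : z₀ ^ 2 ≠ 1)
    (hinv : RotInv z₀ K) (hinv' : RotInv z₀⁻¹ K) : Sep K 8 := by
  have hpi := Real.pi_pos
  set θ := Complex.arg z₀ with hθ
  have hz₀ : z₀ = eA θ := by
    have := Complex.norm_mul_exp_arg_mul_I z₀
    rw [hz, Complex.ofReal_one, one_mul] at this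
    rw [eA_eq_exp, hθ, this]
  have hz₀' : z₀⁻¹ = eA (-θ) := by
    rw [hz₀]
    have e1 : eA θ * eA (-θ) = 1 := by rw [← eA_add, add_neg_cancel, eA_zero]
    exact inv_eq_of_mul_eq_one_right e1
  have hθS : θ ∈ rotGroup K := by
    constructor
    · intro y hy; rw [← hz₀]; exact hinv y hy
    · intro y hy; rw [← hz₀']; exact hinv' y hy
  have hpiS : 2 * Real.pi ∈ rotGroup K := by
    constructor
    · intro y hy; rw [eA_two_pi, one_mul]; exact hy
    · intro y hy
      have : eA (-(2 * Real.pi)) = 1 := by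
        have := eA_add_int 0 (-1)
        rw [eA_zero] at this
        simpa using this
      rw [this, one_mul]; exact hy
  rcases AddSubgroup.dense_or_cyclic (rotGroup K) with hd | ⟨a, ha⟩
  · have huniv : (rotGroup K : Set ℝ) = univ := by
      rw [← (rotGroup_closed hcpt.isClosed).closure_eq]
      exact hd.closure_eq
    have hmem : 2 * Real.pi / 3 ∈ rotGroup K := by
      have : 2 * Real.pi / 3 ∈ (rotGroup K : Set ℝ) := by rw [huniv]; exact mem_univ _
      exact this
    have hrot : RotInv om1 K := by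
      intro y hy
      rw [om1_eA]
      exact hmem.1 y hy
    obtain ⟨α, β, B⟩ := PB.mk' (by norm_num) prim_om1 hcpt hconv h0 hrot
    exact B.sep
  · rw [ha] at hθS hpiS
    obtain ⟨m, hm⟩ := AddSubgroup.mem_closure_singleton.mp hθS
    obtain ⟨n, hn⟩ := AddSubgroup.mem_closure_singleton.mp hpiS
    rw [zsmul_eq_mul] at hm hn
    have hn0 : n ≠ 0 := by
      rintro rfl
      simp at hn
    have hpow : z₀ ^ n.natAbs = 1 := by
      rw [hz₀, eA_pow, ← hm]
      have hcast : ((n.natAbs : ℕ) : ℝ) = |(n : ℝ)| := by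
        rw [← Int.cast_abs, Int.abs_eq_natAbs]; simp
      rw [hcast]
      rcases abs_cases (n : ℝ) with ⟨h, _⟩ | ⟨h, _⟩
      · rw [h]
        have : (n : ℝ) * (m * a) = 0 + 2 * Real.pi * m := by rw [← hn]; ring
        rw [this, eA_add_int, eA_zero]
      · rw [h]
        have : -(n : ℝ) * (m * a) = 0 + 2 * Real.pi * ((-m : ℤ) : ℝ) := by
          rw [← hn]; push_cast; ring
        rw [this, eA_add_int, eA_zero]
    have hfin : IsOfFinOrder z₀ :=
      isOfFinOrder_iff_pow_eq_one.mpr ⟨n.natAbs, Int.natAbs_pos.mpr hn0, hpow⟩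
    have hprim := IsPrimitiveRoot.orderOf z₀
    have hpos : 0 < orderOf z₀ := hfin.orderOf_pos
    have h3 : 3 ≤ orderOf z₀ := by
      by_contra hcon
      push Not at hcon
      have h1 := pow_orderOf_eq_one z₀
      interval_cases h : orderOf z₀
      · apply hz2
        rw [pow_one] at h1
        rw [h1]; norm_num
      · exact hz2 h1
    obtain ⟨α, β, B⟩ := PB.mk' h3 hprim hcpt hconv h0 hinv
    exact B.sep

/-! ### Linear algebra in dimension three -/

lemma cubic_root (a2 a1 a0 : ℝ) : ∃ t : ℝ, t ^ 3 + a2 * t ^ 2 + a1 * t + a0 = 0 := by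
  have hc : Continuous (fun t : ℝ => t ^ 3 + a2 * t ^ 2 + a1 * t + a0) := by fun_prop
  set R : ℝ := 1 + |a2| + |a1| + |a0| with hR
  have hR1 : 1 ≤ R := by
    have := abs_nonneg a2; have := abs_nonneg a1; have := abs_nonneg a0
    linarith
  have hR2 : 0 ≤ R ^ 2 - R := by nlinarith
  have hR3 : 0 ≤ R ^ 2 - 1 := by nlinarith
  have b2 := abs_le.mp (le_refl |a2|)
  have b1 := abs_le.mp (le_refl |a1|)
  have b0 := abs_le.mp (le_refl |a0|)
  have hRp : 0 < R := by linarith
  have m1 : |a1| * R ≤ |a1| * R ^ 2 := mul_le_mul_of_nonneg_left (by linarith) (abs_nonneg _)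
  have m0 : |a0| ≤ |a0| * R ^ 2 := by
    have := mul_le_mul_of_nonneg_left (show (1 : ℝ) ≤ R ^ 2 by linarith) (abs_nonneg a0)
    linarith
  have c2 : -(|a2| * R ^ 2) ≤ a2 * R ^ 2 := by nlinarith [sq_nonneg R]
  have c2' : a2 * R ^ 2 ≤ |a2| * R ^ 2 := by nlinarith [sq_nonneg R]
  have c1 : -(|a1| * R) ≤ a1 * R := by nlinarith
  have c1' : a1 * R ≤ |a1| * R := by nlinarith
  have key : R ^ 3 = R ^ 2 + |a2| * R ^ 2 + |a1| * R ^ 2 + |a0| * R ^ 2 := by
    have : R ^ 3 = R * R ^ 2 := by ring
    rw [this]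
    conv_lhs => rw [hR]
    ring
  have hR0 : 0 < R ^ 2 := by positivity
  obtain ⟨t, ht⟩ := mem_range_of_exists_le_of_exists_ge hc (c := 0)
    ⟨-R, by
      have : (-R) ^ 3 + a2 * (-R) ^ 2 + a1 * (-R) + a0 = -(R ^ 3) + a2 * R ^ 2 - a1 * R + a0 := by ring
      simp only [this]
      linarith [b0.2]⟩
    ⟨R, by
      linarith [b0.1]⟩
  exact ⟨t, ht⟩

variable {V : Type*} [NormedAddCommGroup V] [NormedSpace ℝ V]

/-- bounded orbits in both directions -/
def PBd (A : V →ₗ[ℝ] V) : Prop :=
  ∃ C : ℝ, 0 < C ∧ ∀ (k : ℕ) (x : V), ‖(A ^ k) x‖ ≤ C * ‖x‖ ∧ ‖x‖ ≤ C * ‖(A ^ k) x‖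

lemma le_one_of_pow_le {t C : ℝ} (h : ∀ k : ℕ, t ^ k ≤ C) : t ≤ 1 := by
  by_contra hcon
  push Not at hcon
  obtain ⟨n, hn⟩ := pow_unbounded_of_one_lt C hcon
  exact absurd (h n) (not_le.mpr hn)

lemma one_le_of_pow_ge {t C : ℝ} (h0 : 0 ≤ t) (hC : 0 < C) (h : ∀ k : ℕ, C ≤ t ^ k) : 1 ≤ t := by
  by_contra hcon
  push Not at hcon
  obtain ⟨n, hn⟩ := exists_pow_lt_of_lt_one hC hcon
  exact absurd (h n) (not_le.mpr hn)

lemma PBd.eig {A : V →ₗ[ℝ] V} (h : PBd A) {t : ℝ} {v : V} (hv : v ≠ 0) (hA : A v = t • v) :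
    t ^ 2 = 1 := by
  obtain ⟨C, hC, hb⟩ := h
  have hvn : 0 < ‖v‖ := norm_pos_iff.mpr hv
  have hk : ∀ k : ℕ, (A ^ k) v = t ^ k • v := by
    intro k
    induction k with
    | zero => simp
    | succ k ih => rw [pow_succ', Module.End.mul_apply, ih, map_smul, hA, smul_smul, pow_succ]
  have h1 : |t| ≤ 1 := by
    apply le_one_of_pow_le (C := C)
    intro k
    have := (hb k v).1
    rw [hk, norm_smul, norm_pow, Real.norm_eq_abs] at this
    exact le_of_mul_le_mul_right this hvn
  have h2 : 1 ≤ |t| := by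
    apply one_le_of_pow_ge (C := C⁻¹) (abs_nonneg _) (inv_pos.mpr hC)
    intro k
    have := (hb k v).2
    rw [hk, norm_smul, norm_pow, Real.norm_eq_abs] at this
    rw [inv_le_iff_one_le_mul₀ hC]
    have h3 : 1 * ‖v‖ ≤ (|t| ^ k * C) * ‖v‖ := by linarith
    exact le_of_mul_le_mul_right h3 hvn
  have h3 : |t| = 1 := le_antisymm h1 h2
  rw [← sq_abs, h3]; norm_num

/-- unipotent part is trivial -/
lemma PBd.nilp {A N : V →ₗ[ℝ] V} (h : PBd A) (hNdef : N = A ^ 2 - 1)
    (hN : ∀ x, N (N (N x)) = 0) : A ^ 2 = 1 := by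
  obtain ⟨C, hC, hb⟩ := h
  -- vectors with `N (N y) = 0` satisfy `N y = 0`
  have key : ∀ y, N (N y) = 0 → N y = 0 := by
    intro y hy
    by_contra hne
    have hA2 : ∀ z, (A ^ 2) z = z + N z := by
      intro z; rw [hNdef]; simp
    have hk : ∀ k : ℕ, (A ^ (2 * k)) y = y + (k : ℝ) • N y := by
      intro k
      induction k with
      | zero => simp
      | succ k ih =>
        rw [show 2 * (k + 1) = 2 + 2 * k by ring, pow_add, Module.End.mul_apply, ih, map_add,
          map_smul, hA2, hA2, hy]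
        push_cast
        rw [add_smul, one_smul, add_zero]
        abel
    have hNn : 0 < ‖N y‖ := norm_pos_iff.mpr hne
    obtain ⟨k, hk2⟩ := exists_nat_gt ((C * ‖y‖ + ‖y‖) / ‖N y‖)
    rw [div_lt_iff₀ hNn] at hk2
    have h1 := (hb (2 * k) y).1
    rw [hk] at h1
    have h2 : ‖(k : ℝ) • N y‖ ≤ ‖y + (k : ℝ) • N y‖ + ‖y‖ := by
      calc ‖(k : ℝ) • N y‖ = ‖(y + (k : ℝ) • N y) - y‖ := by congr 1; abel
        _ ≤ _ := norm_sub_le _ _
    rw [norm_smul, Real.norm_of_nonneg (by positivity)] at h2
    linarith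
  have h1 : ∀ x, N (N x) = 0 := fun x => key _ (hN x)
  have h2 : ∀ x, N x = 0 := fun x => key _ (h1 x)
  have h3 : N = 0 := LinearMap.ext h2
  rw [hNdef] at h3
  exact sub_eq_zero.mp h3

/-- A linear automorphism of a three-dimensional space with bounded orbits, positive determinant
and nontrivial square is a rotation in suitable coordinates. -/
theorem exists_coords [FiniteDimensional ℝ V] (hdim : Module.finrank ℝ V = 3) {A : V →ₗ[ℝ] V}
    (h : PBd A) (hdet : 0 < LinearMap.det A) (hA2 : A ^ 2 ≠ 1) :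
    ∃ (Φ : (ℂ × ℝ) ≃ₗ[ℝ] V) (z₀ : ℂ), ‖z₀‖ = 1 ∧ z₀ ^ 2 ≠ 1 ∧
      ∀ y : ℂ × ℝ, Φ (z₀ * y.1, y.2) = A (Φ y) := by
  set χ := A.charpoly with hχ
  have hmonic : χ.Monic := A.charpoly_monic
  have hdeg : χ.natDegree = 3 := by rw [hχ, LinearMap.charpoly_natDegree, hdim]
  have hCH : aeval A χ = 0 := A.aeval_self_charpoly
  have heig : ∀ t : ℝ, χ.IsRoot t → t ^ 2 = 1 := by
    intro t ht
    obtain ⟨v, hv⟩ := (Module.End.hasEigenvalue_iff_isRoot_charpoly A t).mpr ht |>.exists_hasEigenvector
    exact h.eig hv.2 hv.apply_eq_smul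
  -- a real root
  obtain ⟨l, hl⟩ : ∃ l : ℝ, χ.IsRoot l := by
    obtain ⟨t, ht⟩ := cubic_root (χ.coeff 2) (χ.coeff 1) (χ.coeff 0)
    refine ⟨t, ?_⟩
    rw [Polynomial.IsRoot.def, Polynomial.eval_eq_sum_range, hdeg]
    simp only [Finset.sum_range_succ, Finset.sum_range_zero]
    have hc3 : χ.coeff 3 = 1 := by rw [← hdeg]; exact hmonic
    rw [hc3]
    linarith
  have hl2 := heig l hl
  obtain ⟨q, hq⟩ := Polynomial.dvd_iff_isRoot.mpr hl
  have hqm : q.Monic := by
    have h1 : ((X - C l) * q).Monic := by rw [← hq]; exact hmonic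
    exact (Polynomial.monic_X_sub_C l).of_mul_monic_left h1
  have hqd : q.natDegree = 2 := by
    have h1 : ((X - C l) * q).natDegree = (X - C l).natDegree + q.natDegree :=
      (Polynomial.monic_X_sub_C l).natDegree_mul hqm
    rw [← hq, hdeg, Polynomial.natDegree_X_sub_C] at h1
    omega
  have hqf : q = X ^ 2 + C (q.coeff 1) * X + C (q.coeff 0) := by
    have h1 := Polynomial.eq_quadratic_of_degree_le_two (p := q) (by
      rw [Polynomial.degree_eq_natDegree hqm.ne_zero, hqd]; norm_num)
    have h2 : q.coeff 2 = 1 := by rw [← hqd]; exact hqm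
    rw [h2] at h1
    simpa using h1
  set b := q.coeff 1 with hb
  set c := q.coeff 0 with hc
  have hdet2 : LinearMap.det A = l * c := by
    rw [LinearMap.det_eq_sign_charpoly_coeff, hdim, ← hχ, hq, Polynomial.mul_coeff_zero]
    simp only [Polynomial.coeff_sub, Polynomial.coeff_X_zero, Polynomial.coeff_C_zero, ← hc]
    ring
  by_cases hroot : ∃ t, q.IsRoot t
  · -- all roots are real
    exfalso
    apply hA2
    obtain ⟨m₁, hm₁⟩ := hroot
    obtain ⟨r, hr⟩ := Polynomial.dvd_iff_isRoot.mpr hm₁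
    have hrm : r.Monic := by
      have h1 : ((X - C m₁) * r).Monic := by rw [← hr]; exact hqm
      exact (Polynomial.monic_X_sub_C m₁).of_mul_monic_left h1
    have hrd : r.natDegree = 1 := by
      have h1 : ((X - C m₁) * r).natDegree = (X - C m₁).natDegree + r.natDegree :=
        (Polynomial.monic_X_sub_C m₁).natDegree_mul hrm
      rw [← hr, hqd, Polynomial.natDegree_X_sub_C] at h1
      omega
    have hrf : r = X - C (-(r.coeff 0)) := by
      have h1 := Polynomial.eq_X_add_C_of_natDegree_le_one (p := r) hrd.le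
      have h2 : r.coeff 1 = 1 := by rw [← hrd]; exact hrm
      rw [h2] at h1
      rw [Polynomial.C_neg, sub_neg_eq_add]
      simpa using h1
    set m₂ := -(r.coeff 0) with hm₂
    have h1 : m₁ ^ 2 = 1 := by
      apply heig
      rw [hq]
      exact Polynomial.root_mul_left_of_isRoot _ hm₁
    have h2 : m₂ ^ 2 = 1 := by
      apply heig
      rw [hq, hr]
      apply Polynomial.root_mul_left_of_isRoot
      apply Polynomial.root_mul_left_of_isRoot
      rw [hrf]
      exact Polynomial.root_X_sub_C.mpr rfl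
    have hpoly : (X ^ 2 - 1 : ℝ[X]) ^ 3 = ((X + C l) * (X + C m₁) * (X + C m₂)) * χ := by
      have e : ∀ t : ℝ, t ^ 2 = 1 → (X + C t) * (X - C t) = (X ^ 2 - 1 : ℝ[X]) := by
        intro t ht
        have : (X + C t) * (X - C t) = (X ^ 2 - C (t ^ 2) : ℝ[X]) := by
          rw [Polynomial.C_pow]; ring
        rw [this, ht, Polynomial.C_1]
      calc (X ^ 2 - 1 : ℝ[X]) ^ 3 = (X ^ 2 - 1) * (X ^ 2 - 1) * (X ^ 2 - 1) := by ring
        _ = ((X + C l) * (X - C l)) * ((X + C m₁) * (X - C m₁)) * ((X + C m₂) * (X - C m₂)) := by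
            rw [e l hl2, e m₁ h1, e m₂ h2]
        _ = ((X + C l) * (X + C m₁) * (X + C m₂)) * ((X - C l) * ((X - C m₁) * (X - C m₂))) := by
            ring
        _ = _ := by rw [← hrf, ← hr, ← hq]
    have hN : (A ^ 2 - 1) ^ 3 = 0 := by
      have := congrArg (aeval A) hpoly
      rw [map_mul, hCH, mul_zero, map_pow, map_sub, map_pow, aeval_X, map_one] at this
      exact this
    refine h.nilp (N := A ^ 2 - 1) rfl ?_
    intro x
    have := congrArg (fun g : V →ₗ[ℝ] V => g x) hN
    simp only [pow_succ, pow_zero, one_mul] at this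
    simpa [pow_succ] using this
  · -- a rotation
    push Not at hroot
    have hdisc : b ^ 2 < 4 * c := by
      by_contra hcon
      push Not at hcon
      have hs : 0 ≤ b ^ 2 - 4 * c := by linarith
      apply hroot ((-b + √(b ^ 2 - 4 * c)) / 2)
      rw [Polynomial.IsRoot.def, hqf]
      simp only [Polynomial.eval_add, Polynomial.eval_mul, Polynomial.eval_pow,
        Polynomial.eval_X, Polynomial.eval_C]
      have := Real.sq_sqrt hs
      nlinarith
    have hc0 : 0 < c := by nlinarith [sq_nonneg b]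
    have hl1 : l = 1 := by
      have h1 : 0 < l := by
        rw [hdet2] at hdet
        exact (mul_pos_iff_of_pos_right hc0).mp hdet
      nlinarith
    -- the eigenvector
    obtain ⟨v, hv⟩ := (Module.End.hasEigenvalue_iff_isRoot_charpoly A l).mpr hl
      |>.exists_hasEigenvector
    have hv0 : v ≠ 0 := hv.2
    have hAv : A v = v := by
      have := hv.apply_eq_smul
      rw [hl1, one_smul] at this
      exact this
    -- the plane
    have hqA : ∀ x, A (A x) + b • A x + c • x = (aeval A q) x := by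
      intro x
      rw [hqf]
      simp only [map_add, map_mul, map_pow, aeval_X, aeval_C, LinearMap.add_apply,
        Module.End.mul_apply, pow_two, Module.algebraMap_end_apply]
    obtain ⟨p, hp0, hp⟩ : ∃ p, p ≠ 0 ∧ A (A p) + b • A p + c • p = 0 := by
      by_cases hall : ∀ x, A x - l • x = 0
      · exfalso
        apply hA2
        ext x
        have h1 : ∀ x, A x = x := by
          intro x
          have := hall x
          rw [hl1, one_smul] at this
          exact sub_eq_zero.mp this
        rw [pow_two, Module.End.mul_apply, h1, h1]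
        rfl
      · push Not at hall
        obtain ⟨x, hx⟩ := hall
        refine ⟨A x - l • x, hx, ?_⟩
        rw [hqA]
        have h1 : aeval A (q * (X - C l)) = 0 := by
          rw [mul_comm, ← hq]; exact hCH
        have h2 := congrArg (fun g : V →ₗ[ℝ] V => g x) h1
        simp only [map_mul, map_sub, aeval_X, aeval_C, Module.End.mul_apply,
          LinearMap.sub_apply, Module.algebraMap_end_apply, LinearMap.zero_apply] at h2
        rw [map_sub]
        exact h2
    set s := √(c - b ^ 2 / 4) with hs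
    have hspos : 0 < c - b ^ 2 / 4 := by linarith
    have hs0 : 0 < s := Real.sqrt_pos.mpr hspos
    have hs2 : s ^ 2 = c - b ^ 2 / 4 := Real.sq_sqrt hspos.le
    obtain ⟨w, hsw⟩ : ∃ w, s • w = A p + (b / 2) • p :=
      ⟨s⁻¹ • (A p + (b / 2) • p), by rw [smul_smul, mul_inv_cancel₀ hs0.ne', one_smul]⟩
    have hAp : A p = -(b / 2) • p + s • w := by
      rw [hsw]; module
    have hAw : A w = -s • p + -(b / 2) • w := by
      have h1 : s • A w = A (A p) + (b / 2) • A p := by
        rw [← map_smul, hsw, map_add, map_smul]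
      have h2 : A (A p) = -(b • A p) - c • p := by
        have := hp
        have h3 : A (A p) = (A (A p) + b • A p + c • p) - b • A p - c • p := by abel
        rw [h3, this]; abel
      have h4 : s • A w = s • (-s • p + -(b / 2) • w) := by
        rw [h1, h2]
        have h5 : s • (-s • p + -(b / 2) • w) = -(s ^ 2) • p + -(b / 2) • (s • w) := by
          module
        rw [h5, hsw, hs2]
        module
      exact smul_right_injective V hs0.ne' h4
    -- the coordinate map
    set z₀ : ℂ := ⟨-(b / 2), s⟩ with hz₀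
    let Φ₀ : (ℂ × ℝ) →ₗ[ℝ] V :=
      { toFun := fun y => y.1.re • p + y.1.im • w + y.2 • v
        map_add' := by
          intro x y
          simp only [Prod.fst_add, Prod.snd_add, Complex.add_re, Complex.add_im]
          module
        map_smul' := by
          intro t x
          simp only [Prod.smul_fst, Prod.smul_snd, Complex.real_smul, Complex.re_ofReal_mul,
            Complex.im_ofReal_mul, smul_eq_mul, RingHom.id_apply]
          module }
    have hΦA : ∀ y : ℂ × ℝ, Φ₀ (z₀ * y.1, y.2) = A (Φ₀ y) := by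
      intro y
      change (z₀ * y.1).re • p + (z₀ * y.1).im • w + y.2 • v
        = A (y.1.re • p + y.1.im • w + y.2 • v)
      rw [map_add, map_add, map_smul, map_smul, map_smul, hAp, hAw, hAv]
      simp only [hz₀, Complex.mul_re, Complex.mul_im]
      module
    -- injectivity
    have hinj : ∀ y : ℂ × ℝ, Φ₀ y = 0 → y = 0 := by
      intro y hy
      have hy' : y.1.re • p + y.1.im • w + y.2 • v = 0 := hy
      -- apply the quadratic polynomial
      have hQ : ∀ x, x = p ∨ x = w → A (A x) + b • A x + c • x = 0 := by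
        rintro x (rfl | rfl)
        · exact hp
        · rw [hAw, map_add, map_smul, map_smul, hAp, hAw]
          have hc' : c = s ^ 2 + b ^ 2 / 4 := by rw [hs2]; ring
          rw [hc']
          module
      have hQy : A (A (y.1.re • p + y.1.im • w + y.2 • v))
          + b • A (y.1.re • p + y.1.im • w + y.2 • v)
          + c • (y.1.re • p + y.1.im • w + y.2 • v) = 0 := by
        rw [hy']; simp
      have e1 : A (A (y.1.re • p + y.1.im • w + y.2 • v))
          + b • A (y.1.re • p + y.1.im • w + y.2 • v)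
          + c • (y.1.re • p + y.1.im • w + y.2 • v)
          = y.1.re • (A (A p) + b • A p + c • p) + y.1.im • (A (A w) + b • A w + c • w)
            + (y.2 * (1 + b + c)) • v := by
        simp only [map_add, map_smul, hAv]
        module
      rw [e1, hQ p (Or.inl rfl), hQ w (Or.inr rfl), smul_zero, smul_zero, zero_add, zero_add] at hQy
      have h1 : y.2 * (1 + b + c) = 0 := by
        rcases smul_eq_zero.mp hQy with h | h
        · exact h
        · exact absurd h hv0
      have hbc : 1 + b + c ≠ 0 := by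
        intro h
        nlinarith [sq_nonneg (b + 2)]
      have hy2 : y.2 = 0 := by
        rcases mul_eq_zero.mp h1 with h | h
        · exact h
        · exact absurd h hbc
      rw [hy2, zero_smul, add_zero] at hy'
      -- now the plane
      have h2 : A (y.1.re • p + y.1.im • w) = 0 := by rw [hy', map_zero]
      rw [map_add, map_smul, map_smul, hAp, hAw] at h2
      -- combine
      have h3 : (s * (y.1.re ^ 2 + y.1.im ^ 2)) • p = 0 := by
        have e2 : (s * (y.1.re ^ 2 + y.1.im ^ 2)) • p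
            = (s * y.1.re - (b / 2) * y.1.im) • (y.1.re • p + y.1.im • w)
              - y.1.im • (y.1.re • (-(b / 2) • p + s • w) + y.1.im • (-s • p + -(b / 2) • w)) := by
          module
        rw [e2, hy', h2]; simp
      have h4 : s * (y.1.re ^ 2 + y.1.im ^ 2) = 0 := by
        rcases smul_eq_zero.mp h3 with h | h
        · exact h
        · exact absurd h hp0
      have h5 : y.1.re ^ 2 + y.1.im ^ 2 = 0 := by
        rcases mul_eq_zero.mp h4 with h | h
        · exact absurd h hs0.ne'
        · exact h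
      have h6 : y.1.re = 0 := by nlinarith [sq_nonneg y.1.re, sq_nonneg y.1.im]
      have h7 : y.1.im = 0 := by nlinarith [sq_nonneg y.1.re, sq_nonneg y.1.im]
      exact Prod.ext (Complex.ext h6 h7) hy2
    have hinj' : Function.Injective Φ₀ := (injective_iff_map_eq_zero Φ₀).mpr hinj
    have hfin : Module.finrank ℝ (ℂ × ℝ) = Module.finrank ℝ V := by
      rw [hdim, Module.finrank_prod, Complex.finrank_real_complex, Module.finrank_self]
    set Φ := Φ₀.linearEquivOfInjective hinj' hfin with hΦ
    have hΦΦ : ∀ y, Φ y = Φ₀ y := fun y => by rw [hΦ]; rfl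
    refine ⟨Φ, z₀, ?_, ?_, ?_⟩
    · -- norm one
      obtain ⟨C', hC', hb'⟩ := h
      have hpow : ∀ k : ℕ, (A ^ k) (Φ₀ (1, 0)) = Φ₀ (z₀ ^ k, 0) := by
        intro k
        induction k with
        | zero => simp
        | succ k ih =>
          rw [pow_succ', Module.End.mul_apply, ih, ← hΦA]
          simp only [pow_succ']
      obtain ⟨κ, hκ, hanti⟩ := Φ₀.exists_antilipschitzWith (LinearMap.ker_eq_bot.mpr hinj')
      have hlow : ∀ k : ℕ, ‖z₀‖ ^ k ≤ κ * ‖Φ₀ (z₀ ^ k, 0)‖ := by
        intro k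
        have := hanti.le_mul_dist (z₀ ^ k, (0 : ℝ)) 0
        rw [dist_zero_right, map_zero, dist_zero_right, Prod.norm_def] at this
        simp only [norm_zero, norm_pow] at this
        exact (le_max_left _ _).trans this
      obtain ⟨D, hD, hup⟩ : ∃ D : ℝ, 0 < D ∧ ∀ y, ‖Φ₀ y‖ ≤ D * ‖y‖ := by
        obtain ⟨D, hD, h1⟩ := (LinearMap.toContinuousLinearMap Φ₀).bound
        exact ⟨D, hD, h1⟩
      have hx0 : 0 < ‖Φ₀ (1, 0)‖ := by
        rw [norm_pos_iff]
        intro h0
        have := hinj _ h0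
        simp [Prod.ext_iff] at this
      apply le_antisymm
      · apply le_one_of_pow_le (C := κ * (C' * ‖Φ₀ (1, 0)‖))
        intro k
        refine (hlow k).trans ?_
        rw [← hpow]
        exact mul_le_mul_of_nonneg_left (hb' k _).1 hκ.le
      · apply one_le_of_pow_ge (C := ‖Φ₀ (1, 0)‖ / (C' * D)) (norm_nonneg _) (by positivity)
        intro k
        have h1 := (hb' k (Φ₀ (1, 0))).2
        rw [hpow] at h1
        have h2 := hup (z₀ ^ k, (0 : ℝ))
        have h3 : ‖((z₀ ^ k, (0 : ℝ)) : ℂ × ℝ)‖ = ‖z₀‖ ^ k := by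
          rw [Prod.norm_def]
          simp
        rw [h3] at h2
        rw [div_le_iff₀ (by positivity)]
        calc ‖Φ₀ (1, 0)‖ ≤ C' * ‖Φ₀ (z₀ ^ k, 0)‖ := h1
          _ ≤ C' * (D * ‖z₀‖ ^ k) := mul_le_mul_of_nonneg_left h2 hC'.le
          _ = _ := by ring
    · intro h1
      have := congrArg Complex.im h1
      have h2 := congrArg Complex.re h1
      simp only [hz₀, pow_two, Complex.mul_im, Complex.mul_re, Complex.one_im,
        Complex.one_re] at this h2
      have h3 : b * s = 0 := by linarith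
      have h4 : b = 0 := by
        rcases mul_eq_zero.mp h3 with h | h
        · exact h
        · exact absurd h hs0.ne'
      rw [h4] at h2
      nlinarith
    · intro y
      rw [hΦΦ, hΦΦ]
      exact hΦA y

end Pool.Agent.Lib.MP_5e7226_co
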