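import Pool.Agent.Lib.MP_5e7226_co.R3Rigid

set_option autoImplicit false

open Set Filter Topology

namespace Pool.Agent.Lib.MP_5e7226_co

/-- one dimensional extension -/
lemma exists_height {K : Set (ℂ × ℝ)} (hconv : Convex ℝ K) {α β : ℝ} (hα : 0 < α) (hβ : 0 < β)
    (htop : ((0 : ℂ), β) ∈ K) (hbot : ((0 : ℂ), -α) ∈ K) (n : ℂ)
    (h : ∀ μ : ℂ, (μ, (0 : ℝ)) ∈ K → dotC n μ ≤ 1) :
    ∃ z : ℝ, ∀ y ∈ K, dotC n y.1 + z * y.2 ≤ 1 := by
  set S : Set ℝ := {s | ∃ y ∈ K, y.2 < 0 ∧ s = (dotC n y.1 - 1) / (-y.2)} with hS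
  have hcross : ∀ y ∈ K, ∀ y' ∈ K, y.2 < 0 → 0 < y'.2 →
      (dotC n y.1 - 1) / (-y.2) ≤ (1 - dotC n y'.1) / y'.2 := by
    intro y hy y' hy' h1 h2
    have hd : 0 < y'.2 - y.2 := by linarith
    have hmem : (y'.2 / (y'.2 - y.2)) • y + (-y.2 / (y'.2 - y.2)) • y' ∈ K := by
      apply hconv hy hy'
      · positivity
      · apply div_nonneg (by linarith) hd.le
      · rw [← add_div, ← sub_eq_add_neg, div_self hd.ne']
    have e0 : ((y'.2 / (y'.2 - y.2)) • y + (-y.2 / (y'.2 - y.2)) • y').2 = 0 := by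
      simp only [Prod.snd_add, Prod.smul_snd, smul_eq_mul]
      field_simp
      ring
    have h3 := h ((y'.2 / (y'.2 - y.2)) • y + (-y.2 / (y'.2 - y.2)) • y').1 (by
      rw [← e0]; exact hmem)
    simp only [Prod.fst_add, Prod.smul_fst, dotC_add_right, Complex.real_smul,
      dotC_ofReal_right] at h3
    rw [div_mul_eq_mul_div, div_mul_eq_mul_div, ← add_div, div_le_one hd] at h3
    rw [div_le_div_iff₀ (by linarith) h2]
    linarith
  have hbdd : BddAbove S := by
    refine ⟨(1 - dotC n (((0 : ℂ), β) : ℂ × ℝ).1) / (((0 : ℂ), β) : ℂ × ℝ).2, ?_⟩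
    rintro s ⟨y, hy, hy0, rfl⟩
    exact hcross y hy _ htop hy0 hβ
  have hne : S.Nonempty := ⟨_, ((0 : ℂ), -α), hbot, by simpa using hα, rfl⟩
  refine ⟨sSup S, ?_⟩
  intro y hy
  rcases lt_trichotomy y.2 0 with h0 | h0 | h0
  · have h1 : (dotC n y.1 - 1) / (-y.2) ≤ sSup S := le_csSup hbdd ⟨y, hy, h0, rfl⟩
    rw [div_le_iff₀ (by linarith)] at h1
    linarith
  · rw [h0, mul_zero, add_zero]
    apply h
    rw [← h0]
    exact hy
  · have h1 : sSup S ≤ (1 - dotC n y.1) / y.2 := by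
      apply csSup_le hne
      rintro s ⟨y', hy', hy'0, rfl⟩
      exact hcross y' hy' y hy hy'0 h0
    rw [le_div_iff₀ h0] at h1
    linarith

lemma dot_om2_basis (x : ℂ) (s t : ℝ) :
    dotC (om2 * x) ((s : ℂ) * x + (t : ℂ) * (om1 * x)) = -(‖x‖ ^ 2 * (s + t) / 2) := by
  have h3 : √3 * √3 = 3 := sqrt3_sq
  rw [sq_norm]
  simp only [dotC, om1, om2, Complex.mul_re, Complex.mul_im, Complex.add_re, Complex.add_im,
    Complex.ofReal_re, Complex.ofReal_im]
  linear_combination (-(t * (x.re ^ 2 + x.im ^ 2)) / 4) * h3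

/-- covering lemma for an exact triangle -/
lemma covers_tri {M : Set ℂ} {x : ℂ} (T : TM M x)
    (htri : ∀ y ∈ M, -(‖x‖ ^ 2 / 2) ≤ dotC (om2 * x) y) {a : Fin 4 → ℝ} {φ : ℝ}
    (h1 : -(Real.pi / 6) < φ) (h2 : φ < Real.pi / 6)
    (ha : ∀ i : Fin 3, a (Fin.castSucc i) = φ + (i : ℕ) * (2 * Real.pi / 3)) :
    Covers M (fun i => x * eA (a i)) := by
  intro y hy
  have hpi := Real.pi_pos
  have h3 : √3 * √3 = 3 := sqrt3_sq
  have h3p : 0 < √3 := Real.sqrt_pos.mpr (by norm_num)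
  have hx0 := T.ne
  by_cases hy0 : y = 0
  · obtain ⟨l, hl, h⟩ := int_move T.h0 (x * eA (a 0))
    exact ⟨0, l, hl, by rw [hy0]; exact h⟩
  obtain ⟨S, hS⟩ := exists_polar x y hx0
  have hxn : 0 < ‖x‖ := norm_pos_iff.mpr hx0
  have hyn : 0 < ‖y‖ := norm_pos_iff.mpr hy0
  set ρ := ‖y‖ / ‖x‖ with hρ
  have hρ0 : 0 < ρ := by positivity
  have hρ1 : ρ ≤ 1 := by rw [hρ, div_le_one hxn]; exact T.max y hy
  -- normalise the angle
  obtain ⟨k, θ, hθ0, hθ1, hTk⟩ : ∃ k : ℕ, ∃ θ : ℝ, 0 ≤ θ ∧ θ < 2 * Real.pi / 3 ∧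
      eA S = om1 ^ k * eA θ := by
    obtain ⟨m, hm⟩ := exists_nat_gt (-S / (2 * Real.pi))
    have hT' : 0 < S + 2 * Real.pi * m := by
      rw [div_lt_iff₀ (by positivity)] at hm
      linarith
    set T' := S + 2 * Real.pi * m with hT'def
    have h2 : 0 ≤ T' / (2 * Real.pi / 3) := by positivity
    refine ⟨⌊T' / (2 * Real.pi / 3)⌋₊, T' - ⌊T' / (2 * Real.pi / 3)⌋₊ * (2 * Real.pi / 3), ?_, ?_, ?_⟩
    · have := Nat.floor_le h2
      rw [le_div_iff₀ (by positivity)] at this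
      linarith
    · have := Nat.lt_floor_add_one (T' / (2 * Real.pi / 3))
      rw [div_lt_iff₀ (by positivity)] at this
      linarith
    · rw [om1_eA, eA_pow, ← eA_add]
      have e1 : (⌊T' / (2 * Real.pi / 3)⌋₊ : ℝ) * (2 * Real.pi / 3)
          + (T' - ⌊T' / (2 * Real.pi / 3)⌋₊ * (2 * Real.pi / 3)) = T' := by ring
      rw [e1, hT'def]
      have := eA_add_int S (m : ℤ)
      push_cast at this
      exact this.symm
  set i : Fin 3 := ⟨k % 3, Nat.mod_lt _ (by norm_num)⟩ with hi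
  have hik : om1 ^ k = om1 ^ (i : ℕ) := om1_pow_mod k
  have hrotk : ∀ {z : ℂ}, z ∈ interior M → om1 ^ k * z ∈ interior M := by
    intro z hz
    exact rot_int (pow_ne_zero _ om1_ne) (fun n hn => rot_pow_mem T.rot1 k hn) hz
  have hdir : om1 ^ k * eA φ = eA (a (Fin.castSucc i)) := by
    rw [hik, om1_eA, eA_pow, ← eA_add, ha i]
    congr 1
    ring
  -- the point in the basic sector
  have hz : ∃ l : ℝ, 0 < l ∧ (ρ : ℂ) * (x * eA θ) - (l : ℂ) * (x * eA φ) ∈ interior M := by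
    rcases hθ0.eq_or_lt with hθ | hθ
    · obtain ⟨l, hl, h⟩ := vertex_cone T.conv T.h0 T.mem (T.rot1 _ T.mem) (T.rot2 _ T.mem) h1 h2
      refine ⟨ρ * l, by positivity, ?_⟩
      have h5 := smul_int' T.conv T.h0 h hρ0.le hρ1
      convert h5 using 1
      rw [← hθ, eA_zero]
      push_cast
      ring
    · have hsθ : 0 < Real.sin θ := Real.sin_pos_of_pos_of_lt_pi hθ (by linarith)
      have hsθ' : 0 < Real.sin (θ + Real.pi / 3) :=
        Real.sin_pos_of_pos_of_lt_pi (by linarith) (by linarith)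
      have hC : 0 < Real.cos (φ - Real.pi / 3) := Real.cos_pos_of_mem_Ioo ⟨by linarith, by linarith⟩
      have hsum : ∀ t : ℝ, 2 * √3 / 3 * (Real.sin (t + Real.pi / 3) + Real.sin t)
          = 2 * Real.cos (t - Real.pi / 3) := by
        intro t
        rw [sin_add_third, cos_sub_third]
        linear_combination (1 / 3 * Real.cos t) * h3
      have hrep : ∀ l : ℝ, (ρ : ℂ) * (x * eA θ) - (l : ℂ) * (x * eA φ)
          = ((2 * √3 / 3 * (ρ * Real.sin (θ + Real.pi / 3)
            - l * Real.sin (φ + Real.pi / 3)) : ℝ) : ℂ) * x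
          + ((2 * √3 / 3 * (ρ * Real.sin θ - l * Real.sin φ) : ℝ) : ℂ) * (om1 * x) := by
        intro l
        rw [eA_basis x θ, eA_basis x φ]
        push_cast
        ring
      -- the half plane condition
      have hhalf : 2 * ρ * Real.cos (θ - Real.pi / 3) ≤ 1 := by
        have hyM : (ρ : ℂ) * (x * eA θ) ∈ M := by
          -- rotate back
          have h5 := rot_pow_mem T.rot1 (2 * k) hy
          convert h5 using 1
          rw [hS, hTk]
          have h6 : om1 ^ (2 * k) * om1 ^ k = 1 := by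
            rw [← pow_add, show 2 * k + k = 3 * k by ring, pow_mul, om1_cube, one_pow]
          calc (ρ : ℂ) * (x * eA θ) = (om1 ^ (2 * k) * om1 ^ k) * ((ρ : ℂ) * (x * eA θ)) := by
                rw [h6, one_mul]
            _ = _ := by ring
        have h5 := htri _ hyM
        have h6 := hrep 0
        simp only [Complex.ofReal_zero, zero_mul, sub_zero] at h6
        rw [h6, dot_om2_basis] at h5
        have h7 : 2 * √3 / 3 * (ρ * Real.sin (θ + Real.pi / 3)) + 2 * √3 / 3 * (ρ * Real.sin θ)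
            = ρ * (2 * √3 / 3 * (Real.sin (θ + Real.pi / 3) + Real.sin θ)) := by ring
        rw [h7, hsum] at h5
        have hX : 0 < ‖x‖ ^ 2 := by positivity
        have h8 : ‖x‖ ^ 2 * (ρ * (2 * Real.cos (θ - Real.pi / 3))) ≤ ‖x‖ ^ 2 * 1 := by linarith
        have h9 := le_of_mul_le_mul_left h8 hX
        linarith
      have e1 : ∀ᶠ l : ℝ in 𝓝 0,
          0 < ρ * Real.sin (θ + Real.pi / 3) - l * Real.sin (φ + Real.pi / 3) := by
        have hc : Continuous (fun l : ℝ => ρ * Real.sin (θ + Real.pi / 3)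
          - l * Real.sin (φ + Real.pi / 3)) := by fun_prop
        apply continuousAt_const.eventually_lt (hc.continuousAt (x := 0))
        simp only [zero_mul, sub_zero]
        positivity
      have e2 : ∀ᶠ l : ℝ in 𝓝 0, 0 < ρ * Real.sin θ - l * Real.sin φ := by
        have hc : Continuous (fun l : ℝ => ρ * Real.sin θ - l * Real.sin φ) := by fun_prop
        apply continuousAt_const.eventually_lt (hc.continuousAt (x := 0))
        simp only [zero_mul, sub_zero]
        positivity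
      obtain ⟨l, ⟨hl1, hl2⟩, hl3⟩ := (((e1.and e2).filter_mono nhdsWithin_le_nhds).and
        (self_mem_nhdsWithin : Set.Ioi (0 : ℝ) ∈ 𝓝[>] (0 : ℝ))).exists
      have hl3' : 0 < l := hl3
      refine ⟨l, hl3', ?_⟩
      rw [hrep l]
      apply tri_int T.conv T.h0 T.mem (T.rot1 _ T.mem) (by positivity) (by positivity)
      have h5 : 2 * √3 / 3 * (ρ * Real.sin (θ + Real.pi / 3) - l * Real.sin (φ + Real.pi / 3))
          + 2 * √3 / 3 * (ρ * Real.sin θ - l * Real.sin φ)
          = ρ * (2 * √3 / 3 * (Real.sin (θ + Real.pi / 3) + Real.sin θ))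
            - l * (2 * √3 / 3 * (Real.sin (φ + Real.pi / 3) + Real.sin φ)) := by ring
      rw [h5, hsum, hsum]
      have h6 : 0 < l * Real.cos (φ - Real.pi / 3) := mul_pos hl3' hC
      linarith
  obtain ⟨l, hl, h⟩ := hz
  refine ⟨Fin.castSucc i, l, hl, ?_⟩
  have h5 := hrotk h
  convert h5 using 1
  simp only
  rw [hS, hTk, ← hdir]
  ring

lemma neg_om1_eA : -om1 = eA (-(Real.pi / 3)) := by
  apply Complex.ext
  · rw [eA_re, Real.cos_neg, Real.cos_pi_div_three]
    simp only [om1, Complex.neg_re]; norm_num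
  · rw [eA_im, Real.sin_neg, Real.sin_pi_div_three]
    simp only [om1, Complex.neg_im]

lemma om2_eA : om2 = eA (-(2 * Real.pi / 3)) := by
  have e : -(2 * Real.pi / 3) = Real.pi / 3 - Real.pi := by ring
  apply Complex.ext
  · rw [eA_re, e, Real.cos_sub_pi, Real.cos_pi_div_three]
    simp only [om2]; norm_num
  · rw [eA_im, e, Real.sin_sub_pi, Real.sin_pi_div_three]
    simp only [om2]

/-- the linear relation between three directions -/
lemma three_dirs (φ η : ℝ) : ((Real.sin (Real.pi / 3 + φ) : ℝ) : ℂ) * eA (-(Real.pi / 6) + η)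
    = ((Real.cos η : ℝ) : ℂ) * eA (-(Real.pi / 3) + φ)
      - ((Real.sin (Real.pi / 6 + η - φ) : ℝ) : ℂ) * om2 := by
  have h3 : √3 * √3 = 3 := sqrt3_sq
  have s1 : Real.sin (Real.pi / 3 + φ) = √3 / 2 * Real.cos φ + 1 / 2 * Real.sin φ := by
    rw [Real.sin_add, Real.sin_pi_div_three, Real.cos_pi_div_three]
  have s2 : Real.sin (Real.pi / 6 + η - φ) = (1 / 2 * Real.cos η + √3 / 2 * Real.sin η) * Real.cos φ
      - (√3 / 2 * Real.cos η - 1 / 2 * Real.sin η) * Real.sin φ := by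
    rw [Real.sin_sub, Real.sin_add, Real.cos_add, Real.sin_pi_div_six, Real.cos_pi_div_six]
  have c1 : Real.cos (-(Real.pi / 6) + η) = √3 / 2 * Real.cos η + 1 / 2 * Real.sin η := by
    rw [Real.cos_add, Real.cos_neg, Real.sin_neg, Real.sin_pi_div_six, Real.cos_pi_div_six]; ring
  have c2 : Real.sin (-(Real.pi / 6) + η) = -(1 / 2) * Real.cos η + √3 / 2 * Real.sin η := by
    rw [Real.sin_add, Real.cos_neg, Real.sin_neg, Real.sin_pi_div_six, Real.cos_pi_div_six]
  have c3 : Real.cos (-(Real.pi / 3) + φ) = 1 / 2 * Real.cos φ + √3 / 2 * Real.sin φ := by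
    rw [Real.cos_add, Real.cos_neg, Real.sin_neg, Real.sin_pi_div_three, Real.cos_pi_div_three]; ring
  have c4 : Real.sin (-(Real.pi / 3) + φ) = -(√3 / 2) * Real.cos φ + 1 / 2 * Real.sin φ := by
    rw [Real.sin_add, Real.cos_neg, Real.sin_neg, Real.sin_pi_div_three, Real.cos_pi_div_three]
  apply Complex.ext
  · rw [Complex.re_ofReal_mul, Complex.sub_re, Complex.re_ofReal_mul, Complex.re_ofReal_mul,
      eA_re, eA_re, s1, s2, c1, c3]
    simp only [om2]
    linear_combination (1 / 4 * Real.cos φ * Real.cos η) * h3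
  · rw [Complex.im_ofReal_mul, Complex.sub_im, Complex.im_ofReal_mul, Complex.im_ofReal_mul,
      eA_im, eA_im, s1, s2, c2, c4]
    simp only [om2]
    linear_combination (1/4 * Real.sin φ * Real.cos η) * h3

end Pool.Agent.Lib.MP_5e7226_co
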