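import Pool.Agent.Lib.MP_5e7226_co.R3Exc

set_option autoImplicit false

open Set Filter Topology

namespace Pool.Agent.Lib.MP_5e7226_co

lemma le_inv_iff_mul {a b : ℝ} (hb : 0 < b) : a ≤ b⁻¹ ↔ a * b ≤ 1 := by
  rw [← one_div, le_div_iff₀ hb]

/-- the real inequalities behind the rigid case -/
lemma rigid_core {ia ib H zs z σ κ m a b b2 : ℝ} (hH : H = ia + ib)
    (hz0 : -ia ≤ z) (hz1 : z ≤ ib) (hσ0 : 0 ≤ σ) (hσ1 : σ ≤ 1)
    (hκ1 : ib - zs < 3 * κ * H) (hκ0 : zs + ia < 3 * κ * H) (hκ3 : 3 * κ < 1) (hκp : 0 < κ)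
    (hHp : 0 < H) (hzs0 : -ia < zs) (hzs1 : zs < ib)
    (hsum : a + b + b2 = 0) (a1 : a + ib * m ≤ 1) (a2 : a - ia * m ≤ 1)
    (b1 : b + ib * m ≤ 1) (b3 : b - ia * m ≤ 1)
    (c1 : b2 + ib * m ≤ 1) (c2 : b2 - ia * m ≤ 1) (s2 : -2 * b2 + zs * m ≤ 1)
    (heq : -(1 + σ) * b - (1 - σ) * b2 + z * m = 1) :
    (3 * σ * κ * H < 2 * (z + ia) → 0 < -b + κ * H * m) ∧
      (2 * (z + ia) ≤ 3 * σ * κ * H → 0 < -b - κ * H * m) := by
  have hs1 : 0 ≤ 1 - σ := by linarith
  have hs2 : 0 < 1 + σ := by linarith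
  have P0 : (1 - σ) * (-2 * b2 + zs * m) ≤ (1 - σ) * 1 := mul_le_mul_of_nonneg_left s2 hs1
  have hzero : m = 0 → b < 0 := by
    intro hm
    rw [hm] at P0 heq
    nlinarith
  constructor
  · intro hζ
    rcases lt_trichotomy m 0 with hm | hm | hm
    · -- m < 0
      by_contra hcon
      push Not at hcon
      -- 3 σ b ≤ 2 (z + ia) m
      have A1 : (1 - σ) * (a - ia * m) ≤ (1 - σ) * 1 := mul_le_mul_of_nonneg_left a2 hs1
      have A2 : -2 * (1 + ia * m) ≤ b := by linarith
      have A3 : σ * (-2 * (1 + ia * m)) ≤ σ * b := mul_le_mul_of_nonneg_left A2 hσ0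
      have A4 : 3 * σ * b ≤ 2 * ((z + ia) * m) := by
        have ha : a = -b - b2 := by linarith
        rw [ha] at A1
        nlinarith
      have A5 : σ * (κ * H * m) ≤ σ * b := mul_le_mul_of_nonneg_left (by linarith) hσ0
      have A6 : (3 * σ * κ * H - 2 * (z + ia)) * m ≤ 0 := by nlinarith
      have A7 : 0 < (3 * σ * κ * H - 2 * (z + ia)) * m := mul_pos_of_neg_of_neg (by linarith) hm
      linarith
    · rw [hm]; have := hzero hm; linarith
    · -- m > 0
      have Q1 : (1 + σ) * (b + ib * m) ≤ (1 + σ) * 1 := mul_le_mul_of_nonneg_left b1 hs2.le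
      have Q2 : 3 * (1 + σ) * b ≤ m * ((1 - σ) * (z - zs) - (1 + σ) * (ib - z)) := by nlinarith
      have Q3 : (1 - σ) * (z - zs) - (1 + σ) * (ib - z) ≤ (1 + σ) * (ib - zs) := by nlinarith
      have Q4 : m * ((1 - σ) * (z - zs) - (1 + σ) * (ib - z)) ≤ m * ((1 + σ) * (ib - zs)) :=
        mul_le_mul_of_nonneg_left Q3 hm.le
      have Q5 : m * ((1 + σ) * (ib - zs)) < m * ((1 + σ) * (3 * κ * H)) :=
        mul_lt_mul_of_pos_left (mul_lt_mul_of_pos_left hκ1 hs2) hm
      have Q6 : (1 + σ) * b < (1 + σ) * (κ * H * m) := by nlinarith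
      have := lt_of_mul_lt_mul_left Q6 hs2.le
      linarith
  · intro hζ
    rcases lt_trichotomy m 0 with hm | hm | hm
    · -- m < 0
      have Q1 : (1 + σ) * (b - ia * m) ≤ (1 + σ) * 1 := mul_le_mul_of_nonneg_left b3 hs2.le
      have Q2 : 3 * (1 + σ) * b ≤ m * ((1 + σ) * (z + ia) + (1 - σ) * (z - zs)) := by nlinarith
      have Q3 : -((1 + σ) * (zs + ia)) ≤ (1 + σ) * (z + ia) + (1 - σ) * (z - zs) := by nlinarith
      have Q4 : m * ((1 + σ) * (z + ia) + (1 - σ) * (z - zs)) ≤ m * (-((1 + σ) * (zs + ia))) :=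
        mul_le_mul_of_nonpos_left Q3 hm.le
      have Q5 : m * (-((1 + σ) * (zs + ia))) < m * (-((1 + σ) * (3 * κ * H))) :=
        mul_lt_mul_of_neg_left (neg_lt_neg (mul_lt_mul_of_pos_left hκ0 hs2)) hm
      have Q6 : (1 + σ) * b < (1 + σ) * (-(κ * H * m)) := by nlinarith
      have := lt_of_mul_lt_mul_left Q6 hs2.le
      linarith
    · rw [hm]; have := hzero hm; linarith
    · -- m > 0
      by_contra hcon
      push Not at hcon
      have A1 : (1 - σ) * (a + ib * m) ≤ (1 - σ) * 1 := mul_le_mul_of_nonneg_left a1 hs1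
      have A2 : -2 * (1 - ib * m) ≤ b := by linarith
      have A3 : σ * (-2 * (1 - ib * m)) ≤ σ * b := mul_le_mul_of_nonneg_left A2 hσ0
      have A4 : 3 * σ * b ≤ -(2 * ((ib - z) * m)) := by
        have ha : a = -b - b2 := by linarith
        rw [ha] at A1
        nlinarith
      have A5 : σ * (-(κ * H * m)) ≤ σ * b := mul_le_mul_of_nonneg_left (by linarith) hσ0
      have A6 : (2 * (ib - z) - 3 * σ * κ * H) * m ≤ 0 := by nlinarith
      have A7 : 2 * (ib - z) - 3 * σ * κ * H ≤ 0 := by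
        by_contra h
        push Not at h
        have := mul_pos h hm
        linarith
      have A8 : 3 * σ * κ * H < H := by
        have h1 : σ * (3 * κ) ≤ 1 * (3 * κ) := mul_le_mul_of_nonneg_right hσ1 (by positivity)
        have h2 : σ * (3 * κ) < 1 := by linarith
        have h3 := mul_lt_mul_of_pos_right h2 hHp
        nlinarith
      linarith

lemma ExB.swap_cases {p0 p1 p2 : ℝ} (hs : p0 + p1 + p2 = 0) (h0 : p0 ≤ 1) (h1 : p1 ≤ 1)
    (h2 : p2 ≤ 1) (h : p0 = 1 ∨ p1 = 1 ∨ p2 = 1) :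
    (p0 = 1 ∧ p1 ≤ p2) ∨ (p0 = 1 ∧ p2 ≤ p1) ∨ (p1 = 1 ∧ p0 ≤ p2) ∨ (p1 = 1 ∧ p2 ≤ p0) ∨
      (p2 = 1 ∧ p0 ≤ p1) ∨ (p2 = 1 ∧ p1 ≤ p0) := by
  rcases h with h | h | h
  · rcases le_total p1 p2 with h' | h'
    · exact Or.inl ⟨h, h'⟩
    · exact Or.inr (Or.inl ⟨h, h'⟩)
  · rcases le_total p0 p2 with h' | h'
    · exact Or.inr (Or.inr (Or.inl ⟨h, h'⟩))
    · exact Or.inr (Or.inr (Or.inr (Or.inl ⟨h, h'⟩)))
  · rcases le_total p0 p1 with h' | h'
    · exact Or.inr (Or.inr (Or.inr (Or.inr (Or.inl ⟨h, h'⟩))))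
    · exact Or.inr (Or.inr (Or.inr (Or.inr (Or.inr ⟨h, h'⟩))))

/-- The rigid case. -/
theorem ExB.rigid {ζ : ℂ} {K : Set (ℂ × ℝ)} {α β : ℝ} {x : ℂ} (E : ExB ζ K α β x) {zs : ℝ}
    (hzs : ∀ y ∈ K, -2 * dotC (om1 * x) y.1 + zs * y.2 ≤ 1) : Sep K 8 := by
  have B := E.B
  have hα := B.hα
  have hβ := B.hβ
  obtain ⟨hi1, hi2⟩ := B.inv_om
  have hx0 := E.T1.ne
  have hxn : 0 < ‖x‖ := norm_pos_iff.mpr hx0
  have hX : 0 < ‖x‖ ^ 2 := by positivity
  set ia := α⁻¹ with hia
  set ib := β⁻¹ with hib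
  have hiap : 0 < ia := inv_pos.mpr hα
  have hibp : 0 < ib := inv_pos.mpr hβ
  set H := ia + ib with hH
  have hHp : 0 < H := by positivity
  have hneg : (-α)⁻¹ = -ia := by rw [hia, inv_neg]
  -- all the constraints on points of `K`
  have q1 : ∀ y ∈ K, dotC x y.1 + ib * y.2 ≤ 1 := E.T1.mem
  have q2 : ∀ y ∈ K, dotC (om1 * x) y.1 + ib * y.2 ≤ 1 := E.T1.rot1 _ E.T1.mem
  have q3 : ∀ y ∈ K, dotC (om2 * x) y.1 + ib * y.2 ≤ 1 := E.T1.rot2 _ E.T1.mem
  have r1 : ∀ y ∈ K, dotC x y.1 - ia * y.2 ≤ 1 := by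
    intro y hy
    have := E.T0.mem y hy
    rw [hneg] at this
    linarith
  have r2 : ∀ y ∈ K, dotC (om1 * x) y.1 - ia * y.2 ≤ 1 := by
    intro y hy
    have := E.T0.rot1 _ E.T0.mem y hy
    rw [hneg] at this
    linarith
  have r3 : ∀ y ∈ K, dotC (om2 * x) y.1 - ia * y.2 ≤ 1 := by
    intro y hy
    have := E.T0.rot2 _ E.T0.mem y hy
    rw [hneg] at this
    linarith
  have s2 := hzs
  have s1 : ∀ y ∈ K, -2 * dotC x y.1 + zs * y.2 ≤ 1 := by
    intro y hy
    have := hzs _ (hi1 y hy)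
    simp only at this
    rwa [dotC_mul_mul, norm_om1, one_pow, one_mul] at this
  have s3 : ∀ y ∈ K, -2 * dotC (om2 * x) y.1 + zs * y.2 ≤ 1 := by
    intro y hy
    have := hzs _ (hi2 y hy)
    simp only at this
    have e : dotC (om1 * x) (om2 * y.1) = dotC (om2 * x) y.1 := by
      rw [dotC_om1, ← mul_assoc, om2_sq, dotC_om2]
    rwa [e] at this
  -- bounds on `zs`
  have hzs1 : zs < ib := by
    have h1 := hzs _ B.top
    simp only [dotC_zero_right, mul_zero, zero_add] at h1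
    have h2 : zs ≤ ib := by
      rw [hib, le_inv_iff_mul hβ]
      exact h1
    refine lt_of_le_of_ne h2 ?_
    intro h3
    have h4 : ((-2 : ℝ) : ℂ) * (om1 * x) ∈ MS K β⁻¹ := by
      intro y hy
      rw [dotC_ofReal_left]
      have := hzs y hy
      rw [h3] at this
      exact this
    have h5 := (E.tri1 _ h4).2.1
    rw [dotC_ofReal_right, dotC_self, norm_mul, norm_om1, one_mul] at h5
    linarith
  have hzs0 : -ia < zs := by
    have h1 := hzs _ B.bot
    simp only [dotC_zero_right, mul_zero, zero_add] at h1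
    have h2 : -ia ≤ zs := by
      have h3 : -zs * α ≤ 1 := by linarith
      have h4 : -zs ≤ ia := by
        rw [hia, le_inv_iff_mul hα]
        exact h3
      linarith
    refine lt_of_le_of_ne h2 ?_
    intro h3
    have h4 : ((-2 : ℝ) : ℂ) * (om1 * x) ∈ MS K (-α)⁻¹ := by
      intro y hy
      rw [dotC_ofReal_left, hneg]
      have := hzs y hy
      rw [← h3] at this
      exact this
    have h5 := (E.tri0 _ h4).2.1
    rw [dotC_ofReal_right, dotC_self, norm_mul, norm_om1, one_mul] at h5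
    linarith
  -- the horizontal points
  obtain ⟨μ, hμ, hμ1⟩ := E.mu
  have hμx : μ = ((1 / ‖x‖ ^ 2 : ℝ) : ℂ) * x := by
    have e1 := s2 _ hμ
    have e2 := s3 _ hμ
    simp only [mul_zero, add_zero] at e1 e2
    have e3 := frame_sum x μ
    have e4 : dotC (om1 * x) μ = -1/2 := by linarith
    have e5 : dotC (om2 * x) μ = -1/2 := by linarith
    have e6 := frame_vec x μ hx0
    rw [hμ1, e4, e5] at e6
    rw [e6]
    have hXc : ((‖x‖ : ℝ) : ℂ) ≠ 0 := by exact_mod_cast hxn.ne'
    have e7 : om2 = -1 - om1 := by linear_combination om_sum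
    rw [e7]
    push_cast
    field_simp
    ring
  have hx_mem : (((1 / ‖x‖ ^ 2 : ℝ) : ℂ) * x, (0 : ℝ)) ∈ K := by rw [← hμx]; exact hμ
  have hx_mem1 : (((1 / ‖x‖ ^ 2 : ℝ) : ℂ) * (om1 * x), (0 : ℝ)) ∈ K := by
    have := hi1 _ hx_mem
    simp only at this
    convert this using 2
    ring
  have hx_mem2 : (((1 / ‖x‖ ^ 2 : ℝ) : ℂ) * (om2 * x), (0 : ℝ)) ∈ K := by
    have := hi2 _ hx_mem
    simp only at this
    convert this using 2
    ring
  -- the parameter
  obtain ⟨κ, hκp, hκ3, hκ1, hκ0⟩ : ∃ κ : ℝ, 0 < κ ∧ 3 * κ < 1 ∧ ib - zs < 3 * κ * H ∧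
      zs + ia < 3 * κ * H := by
    set t := max (ib - zs) (zs + ia) with ht
    have ht1 : ib - zs ≤ t := le_max_left _ _
    have ht2 : zs + ia ≤ t := le_max_right _ _
    have htH : t < H := by
      rw [ht]; apply max_lt <;> linarith
    have ht0 : 0 < t := lt_of_lt_of_le (by linarith) ht2
    refine ⟨(t + H) / (6 * H), by positivity, ?_, ?_, ?_⟩
    · have : 3 * ((t + H) / (6 * H)) = (t + H) / (2 * H) := by
        field_simp
        norm_num
      rw [this, div_lt_one (by positivity)]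
      linarith
    · have : 3 * ((t + H) / (6 * H)) * H = (t + H) / 2 := by
        field_simp
        norm_num
      rw [this]
      linarith
    · have : 3 * ((t + H) / (6 * H)) * H = (t + H) / 2 := by
        field_simp
        norm_num
      rw [this]
      linarith
  -- the functionals
  let w : Bool ⊕ (Fin 3 × Bool) → ((ℂ × ℝ) →L[ℝ] ℝ) := fun i =>
    match i with
    | Sum.inl true => mk3 0 1
    | Sum.inl false => mk3 0 (-1)
    | Sum.inr (0, true) => mk3 (-x) (κ * H)
    | Sum.inr (0, false) => mk3 (-x) (-(κ * H))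
    | Sum.inr (1, true) => mk3 (-(om1 * x)) (κ * H)
    | Sum.inr (1, false) => mk3 (-(om1 * x)) (-(κ * H))
    | Sum.inr (2, true) => mk3 (-(om2 * x)) (κ * H)
    | Sum.inr (2, false) => mk3 (-(om2 * x)) (-(κ * H))
  refine Sep.of_fintype w ?_ (by simp)
  intro f₀ hf₀
  -- normalise
  by_cases hemp : ∃ y, y ∈ face K f₀
  swap
  · push Not at hemp
    exact ⟨Sum.inl true, fun y hy => absurd hy (hemp y)⟩
  obtain ⟨y₀, hy₀⟩ := hemp
  have hM : 0 < f₀ y₀ := pos_of_face B.h0 hf₀ hy₀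
  set f := (f₀ y₀)⁻¹ • f₀ with hfdef
  have hface : face K f = face K f₀ := face_smul K f₀ (inv_pos.mpr hM)
  rw [← hface]
  have hle : ∀ y ∈ K, dotC (nv f) y.1 + zc f * y.2 ≤ 1 := by
    intro y hy
    rw [← f3_apply, hfdef]
    simp only [FunLike.coe_smul, Pi.smul_apply, smul_eq_mul]
    calc (f₀ y₀)⁻¹ * f₀ y ≤ (f₀ y₀)⁻¹ * f₀ y₀ :=
          mul_le_mul_of_nonneg_left (hy₀.2 y hy) (inv_pos.mpr hM).le
      _ = 1 := inv_mul_cancel₀ hM.ne'
  have heq : ∀ y ∈ face K f, dotC (nv f) y.1 + zc f * y.2 = 1 := by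
    intro y hy
    rw [← f3_apply, face_val hy (by rw [hface]; exact hy₀), hfdef]
    simp only [FunLike.coe_smul, Pi.smul_apply, smul_eq_mul]
    exact inv_mul_cancel₀ hM.ne'
  set n := nv f with hn
  set z := zc f with hz
  have hz1 : z ≤ ib := by
    have := hle _ B.top
    simp only [dotC_zero_right, zero_add] at this
    rw [hib, le_inv_iff_mul hβ]
    exact this
  have hz0 : -ia ≤ z := by
    have := hle _ B.bot
    simp only [dotC_zero_right, zero_add] at this
    have h4 : -z ≤ ia := by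
      rw [hia, le_inv_iff_mul hα]
      linarith
    linarith
  set p0 := dotC x n / ‖x‖ ^ 2 with hp0
  set p1 := dotC (om1 * x) n / ‖x‖ ^ 2 with hp1
  set p2 := dotC (om2 * x) n / ‖x‖ ^ 2 with hp2
  have hpsum : p0 + p1 + p2 = 0 := by
    have := frame_sum x n
    rw [hp0, hp1, hp2, ← add_div, ← add_div, this, zero_div]
  have hle0 : p0 ≤ 1 := by
    have := hle _ hx_mem
    simp only [dotC_ofReal_right, mul_zero, add_zero] at this
    rw [hp0, dotC_comm x n]
    calc dotC n x / ‖x‖ ^ 2 = 1 / ‖x‖ ^ 2 * dotC n x := by ring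
      _ ≤ 1 := this
  have hle1 : p1 ≤ 1 := by
    have := hle _ hx_mem1
    simp only [dotC_ofReal_right, mul_zero, add_zero] at this
    rw [hp1, dotC_comm (om1 * x) n]
    calc dotC n (om1 * x) / ‖x‖ ^ 2 = 1 / ‖x‖ ^ 2 * dotC n (om1 * x) := by ring
      _ ≤ 1 := this
  have hle2 : p2 ≤ 1 := by
    have := hle _ hx_mem2
    simp only [dotC_ofReal_right, mul_zero, add_zero] at this
    rw [hp2, dotC_comm (om2 * x) n]
    calc dotC n (om2 * x) / ‖x‖ ^ 2 = 1 / ‖x‖ ^ 2 * dotC n (om2 * x) := by ring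
      _ ≤ 1 := this
  have hdot : ∀ v : ℂ, dotC n v = 2 / 3 * (p0 * dotC x v + p1 * dotC (om1 * x) v
      + p2 * dotC (om2 * x) v) := by
    intro v
    have := frame_id x n v
    have e : 2 / 3 * (p0 * dotC x v + p1 * dotC (om1 * x) v + p2 * dotC (om2 * x) v)
        = 2 / 3 * ((dotC x n * dotC x v + dotC (om1 * x) n * dotC (om1 * x) v
          + dotC (om2 * x) n * dotC (om2 * x) v) / ‖x‖ ^ 2) := by
      rw [hp0, hp1, hp2]; ring
    rw [e, this]
    field_simp
  by_cases hall : p0 = 1 ∨ p1 = 1 ∨ p2 = 1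
  · -- general use of the core
    have core : ∀ (p q : ℝ) (a b b2 : ℂ × ℝ → ℝ), p ≤ q → p + q = -1 → q ≤ 1 →
        (∀ y ∈ K, a y + b y + b2 y = 0) →
        (∀ y ∈ K, a y + ib * y.2 ≤ 1) → (∀ y ∈ K, a y - ia * y.2 ≤ 1) →
        (∀ y ∈ K, b y + ib * y.2 ≤ 1) → (∀ y ∈ K, b y - ia * y.2 ≤ 1) →
        (∀ y ∈ K, b2 y + ib * y.2 ≤ 1) → (∀ y ∈ K, b2 y - ia * y.2 ≤ 1) →
        (∀ y ∈ K, -2 * b2 y + zs * y.2 ≤ 1) →
        (∀ y ∈ face K f, 2 / 3 * (a y + p * b y + q * b2 y) + z * y.2 = 1) →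
        (∀ y ∈ face K f, 0 < -b y + κ * H * y.2) ∨ (∀ y ∈ face K f, 0 < -b y - κ * H * y.2) := by
      intro p q a b b2 hpq hpq1 hq1 h0 h1 h2 h3 h4 h5 h6 h7 h8
      set σ := -(1 + 2 * p) / 3 with hσ
      have hcore : ∀ y ∈ face K f, (3 * σ * κ * H < 2 * (z + ia) → 0 < -b y + κ * H * y.2) ∧
          (2 * (z + ia) ≤ 3 * σ * κ * H → 0 < -b y - κ * H * y.2) := by
        intro y hy
        have hyK := hy.1
        refine rigid_core (ia := ia) (ib := ib) (zs := zs) (a := a y) (b2 := b2 y) hH hz0 hz1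
          (by rw [hσ]; linarith) (by rw [hσ]; linarith) hκ1 hκ0 hκ3 hκp hHp hzs0 hzs1
          (h0 y hyK) (h1 y hyK) (h2 y hyK) (h3 y hyK) (h4 y hyK) (h5 y hyK) (h6 y hyK)
          (h7 y hyK) ?_
        have e1 := h8 y hy
        have e2 := h0 y hyK
        have ha : a y = -b y - b2 y := by linarith
        have hq : q = -1 - p := by linarith
        rw [ha, hq] at e1
        rw [hσ]
        linarith
      rcases lt_or_ge (3 * σ * κ * H) (2 * (z + ia)) with h | h
      · left; intro y hy; exact (hcore y hy).1 h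
      · right; intro y hy; exact (hcore y hy).2 h
    have heqf : ∀ y ∈ face K f, 2 / 3 * (p0 * dotC x y.1 + p1 * dotC (om1 * x) y.1
        + p2 * dotC (om2 * x) y.1) + z * y.2 = 1 := by
      intro y hy
      rw [← hdot]
      exact heq y hy
    have fs : ∀ y ∈ K, dotC x y.1 + dotC (om1 * x) y.1 + dotC (om2 * x) y.1 = 0 :=
      fun y _ => frame_sum x y.1
    rcases ExB.swap_cases hpsum hle0 hle1 hle2 hall with ⟨h, h'⟩ | ⟨h, h'⟩ | ⟨h, h'⟩ | ⟨h, h'⟩ |
      ⟨h, h'⟩ | ⟨h, h'⟩
    · -- p0 = 1, p1 ≤ p2 : use om1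
      rcases core p1 p2 (fun y => dotC x y.1) (fun y => dotC (om1 * x) y.1)
        (fun y => dotC (om2 * x) y.1) h' (by linarith) hle2 fs q1 r1 q2 r2 q3 r3 s3
        (by intro y hy; have := heqf y hy; rw [h] at this; linarith) with h1 | h1
      · refine ⟨Sum.inr (1, true), ?_⟩
        intro y hy
        simp only [w, mk3_apply, dotC_neg_left]
        exact h1 y hy
      · refine ⟨Sum.inr (1, false), ?_⟩
        intro y hy
        simp only [w, mk3_apply, dotC_neg_left]
        have := h1 y hy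
        linarith
    · -- p0 = 1, p2 ≤ p1 : use om2
      rcases core p2 p1 (fun y => dotC x y.1) (fun y => dotC (om2 * x) y.1)
        (fun y => dotC (om1 * x) y.1) h' (by linarith) hle1
        (by intro y hy; have := fs y hy; linarith) q1 r1 q3 r3 q2 r2 s2
        (by intro y hy; have := heqf y hy; rw [h] at this; linarith) with h1 | h1
      · refine ⟨Sum.inr (2, true), ?_⟩
        intro y hy
        simp only [w, mk3_apply, dotC_neg_left]
        exact h1 y hy
      · refine ⟨Sum.inr (2, false), ?_⟩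
        intro y hy
        simp only [w, mk3_apply, dotC_neg_left]
        have := h1 y hy
        linarith
    · -- p1 = 1, p0 ≤ p2 : use x
      rcases core p0 p2 (fun y => dotC (om1 * x) y.1) (fun y => dotC x y.1)
        (fun y => dotC (om2 * x) y.1) h' (by linarith) hle2
        (by intro y hy; have := fs y hy; linarith) q2 r2 q1 r1 q3 r3 s3
        (by intro y hy; have := heqf y hy; rw [h] at this; linarith) with h1 | h1
      · refine ⟨Sum.inr (0, true), ?_⟩
        intro y hy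
        simp only [w, mk3_apply, dotC_neg_left]
        exact h1 y hy
      · refine ⟨Sum.inr (0, false), ?_⟩
        intro y hy
        simp only [w, mk3_apply, dotC_neg_left]
        have := h1 y hy
        linarith
    · -- p1 = 1, p2 ≤ p0 : use om2
      rcases core p2 p0 (fun y => dotC (om1 * x) y.1) (fun y => dotC (om2 * x) y.1)
        (fun y => dotC x y.1) h' (by linarith) hle0
        (by intro y hy; have := fs y hy; linarith) q2 r2 q3 r3 q1 r1 s1
        (by intro y hy; have := heqf y hy; rw [h] at this; linarith) with h1 | h1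
      · refine ⟨Sum.inr (2, true), ?_⟩
        intro y hy
        simp only [w, mk3_apply, dotC_neg_left]
        exact h1 y hy
      · refine ⟨Sum.inr (2, false), ?_⟩
        intro y hy
        simp only [w, mk3_apply, dotC_neg_left]
        have := h1 y hy
        linarith
    · -- p2 = 1, p0 ≤ p1 : use x
      rcases core p0 p1 (fun y => dotC (om2 * x) y.1) (fun y => dotC x y.1)
        (fun y => dotC (om1 * x) y.1) h' (by linarith) hle1
        (by intro y hy; have := fs y hy; linarith) q3 r3 q1 r1 q2 r2 s2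
        (by intro y hy; have := heqf y hy; rw [h] at this; linarith) with h1 | h1
      · refine ⟨Sum.inr (0, true), ?_⟩
        intro y hy
        simp only [w, mk3_apply, dotC_neg_left]
        exact h1 y hy
      · refine ⟨Sum.inr (0, false), ?_⟩
        intro y hy
        simp only [w, mk3_apply, dotC_neg_left]
        have := h1 y hy
        linarith
    · -- p2 = 1, p1 ≤ p0 : use om1
      rcases core p1 p0 (fun y => dotC (om2 * x) y.1) (fun y => dotC (om1 * x) y.1)
        (fun y => dotC x y.1) h' (by linarith) hle0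
        (by intro y hy; have := fs y hy; linarith) q3 r3 q2 r2 q1 r1 s1
        (by intro y hy; have := heqf y hy; rw [h] at this; linarith) with h1 | h1
      · refine ⟨Sum.inr (1, true), ?_⟩
        intro y hy
        simp only [w, mk3_apply, dotC_neg_left]
        exact h1 y hy
      · refine ⟨Sum.inr (1, false), ?_⟩
        intro y hy
        simp only [w, mk3_apply, dotC_neg_left]
        have := h1 y hy
        linarith
  · -- the face misses the horizontal plane
    push Not at hall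
    obtain ⟨n0, n1, n2⟩ := hall
    have l0 : p0 < 1 := lt_of_le_of_ne hle0 n0
    have l1 : p1 < 1 := lt_of_le_of_ne hle1 n1
    have l2 : p2 < 1 := lt_of_le_of_ne hle2 n2
    have hmiss : ∀ y ∈ face K f, y.2 ≠ 0 := by
      intro y hy hy0
      have e1 := heq y hy
      rw [hy0, mul_zero, add_zero, hdot] at e1
      have t0 := s1 y hy.1
      have t1 := s2 y hy.1
      have t2 := s3 y hy.1
      rw [hy0, mul_zero, add_zero] at t0 t1 t2
      have fs := frame_sum x y.1
      set A := dotC x y.1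
      set A' := dotC (om1 * x) y.1
      set A'' := dotC (om2 * x) y.1
      have g0 : 0 ≤ (1 - p0) * (A + 1 / 2) := mul_nonneg (by linarith) (by linarith)
      have g1 : 0 ≤ (1 - p1) * (A' + 1 / 2) := mul_nonneg (by linarith) (by linarith)
      have g2 : 0 ≤ (1 - p2) * (A'' + 1 / 2) := mul_nonneg (by linarith) (by linarith)
      have gs : (1 - p0) * (A + 1 / 2) + (1 - p1) * (A' + 1 / 2) + (1 - p2) * (A'' + 1 / 2) = 0 := by
        linear_combination fs - (3 / 2) * e1 - (1 / 2) * hpsum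
      have z0 : (1 - p0) * (A + 1 / 2) = 0 := by linarith
      have z1 : (1 - p1) * (A' + 1 / 2) = 0 := by linarith
      have z2 : (1 - p2) * (A'' + 1 / 2) = 0 := by linarith
      have y0 : A + 1 / 2 = 0 := by
        rcases mul_eq_zero.mp z0 with h | h
        · linarith
        · exact h
      have y1 : A' + 1 / 2 = 0 := by
        rcases mul_eq_zero.mp z1 with h | h
        · linarith
        · exact h
      have y2 : A'' + 1 / 2 = 0 := by
        rcases mul_eq_zero.mp z2 with h | h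
        · linarith
        · exact h
      linarith
    by_cases h1 : ∀ y ∈ face K f, 0 < y.2
    · refine ⟨Sum.inl true, ?_⟩
      intro y hy
      simp only [w, mk3_apply, dotC_zero_left]
      have := h1 y hy
      linarith
    by_cases h2 : ∀ y ∈ face K f, y.2 < 0
    · refine ⟨Sum.inl false, ?_⟩
      intro y hy
      simp only [w, mk3_apply, dotC_zero_left]
      have := h2 y hy
      linarith
    exfalso
    push Not at h1 h2
    obtain ⟨v, hv, hv0⟩ := h1
    obtain ⟨v', hv', hv'0⟩ := h2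
    obtain ⟨v'', hv'', hv''0⟩ := exists_level B.conv hv hv' hv0 hv'0
    exact hmiss v'' hv'' hv''0

end Pool.Agent.Lib.MP_5e7226_co
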