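import Pool.Agent.Lib.MP_5e7226_co.R3NR

set_option autoImplicit false

open Set Filter Topology

namespace Pool.Agent.Lib.MP_5e7226_co

lemma gap9 {c : Fin 9 → ℝ} {G : ℝ} (h0 : c 1 - c 0 < G) (h1 : c 2 - c 1 < G) (h2 : c 3 - c 2 < G)
    (h3 : c 4 - c 3 < G) (h4 : c 5 - c 4 < G) (h5 : c 6 - c 5 < G) (h6 : c 7 - c 6 < G)
    (h7 : c 8 - c 7 < G) (h8 : c 0 + 2 * Real.pi - c 8 < G) (t : ℝ) :
    ∃ i, ∃ n : ℤ, t < c i + 2 * Real.pi * n ∧ c i + 2 * Real.pi * n < t + G := by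
  obtain ⟨j, hj, n, hn1, hn2⟩ := gap (c := fun j : ℕ =>
    match j with
    | 0 => c 0
    | 1 => c 1
    | 2 => c 2
    | 3 => c 3
    | 4 => c 4
    | 5 => c 5
    | 6 => c 6
    | 7 => c 7
    | 8 => c 8
    | _ => c 0 + 2 * Real.pi) (m := 9) (G := G) rfl (by
      intro j hj
      interval_cases j
      · exact h0
      · exact h1
      · exact h2
      · exact h3
      · exact h4
      · exact h5
      · exact h6
      · exact h7
      · exact h8) t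
  interval_cases j
  · exact ⟨0, n, hn1, hn2⟩
  · exact ⟨1, n, hn1, hn2⟩
  · exact ⟨2, n, hn1, hn2⟩
  · exact ⟨3, n, hn1, hn2⟩
  · exact ⟨4, n, hn1, hn2⟩
  · exact ⟨5, n, hn1, hn2⟩
  · exact ⟨6, n, hn1, hn2⟩
  · exact ⟨7, n, hn1, hn2⟩
  · exact ⟨8, n, hn1, hn2⟩
  · refine ⟨0, n + 1, ?_, ?_⟩
    · push_cast
      simp only at hn1
      linarith
    · push_cast
      simp only at hn2
      linarith

/-- The special directions in the non-rigid exceptional case. -/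
lemma ExB.special {ζ : ℂ} {K : Set (ℂ × ℝ)} {α β : ℝ} {x : ℂ} (E : ExB ζ K α β x) {μ' : ℂ}
    (hμ' : (μ', (0 : ℝ)) ∈ K) {η φ S : ℝ} {n : ℤ} (hη0 : 0 < η) (hη1 : η ≤ Real.pi / 60)
    (hφ : |φ| ≤ η) (hS : S = -(Real.pi / 3) + φ + 2 * Real.pi * n)
    (hh : 0 < Real.cos η * dotC (x * eA (-(Real.pi / 3) + φ)) μ' - Real.sin (Real.pi / 6 + η - φ))
    {f₀ : (ℂ × ℝ) →L[ℝ] ℝ} (hf₀ : f₀ ≠ 0) (hn : nv f₀ ≠ 0) (hoff : ∀ y ∈ face K f₀, y.1 ≠ 0)
    (hν : nv f₀ = ((‖nv f₀‖ / ‖x‖ : ℝ) : ℂ) * (x * eA S)) :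
    ∀ y ∈ face K f₀, 0 < dotC (x * eA (-(Real.pi / 6) + η)) y.1 := by
  intro y hy
  have hpi := Real.pi_pos
  have B := E.B
  have hα := B.hα
  have hβ := B.hβ
  rw [abs_le] at hφ
  have hxn : 0 < ‖x‖ := norm_pos_iff.mpr E.T1.ne
  have hM : 0 < f₀ y := pos_of_face B.h0 hf₀ hy
  set M := f₀ y with hMdef
  have hnn : 0 < ‖nv f₀‖ := norm_pos_iff.mpr hn
  set P := x * eA (-(Real.pi / 3) + φ) with hP
  have heS : eA S = eA (-(Real.pi / 3) + φ) := by rw [hS, eA_add_int]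
  rw [heS, ← hP] at hν
  set t := ‖nv f₀‖ / ‖x‖ with ht
  have htp : 0 < t := by positivity
  -- values of the functional
  have hval : t * dotC P y.1 + zc f₀ * y.2 = M := by
    have := f3_apply f₀ y
    rw [← hMdef] at this
    rw [this]
    conv_rhs => rw [hν, dotC_ofReal_left]
  have hPy : 0 < dotC P y.1 := by
    have h1 := B.angle_half hy
    have h2 := norm_pos_iff.mpr (hoff y hy)
    have h3 : 0 < dotC (nv f₀) y.1 := lt_of_lt_of_le (by positivity) h1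
    rw [hν, dotC_ofReal_left] at h3
    exact (mul_pos_iff_of_pos_left htp).mp h3
  have hμle : t * dotC P μ' ≤ M := by
    have := hy.2 _ hμ'
    rw [← hMdef, f3_apply] at this
    simp only [mul_zero, add_zero] at this
    rwa [hν, dotC_ofReal_left] at this
  -- pole bounds of the functional
  have hztop : zc f₀ * β ≤ M := by
    have := hy.2 _ B.top
    rw [← hMdef, f3_apply] at this
    simpa [dotC_zero_right] using this
  have hzbot : zc f₀ * (-α) ≤ M := by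
    have := hy.2 _ B.bot
    rw [← hMdef, f3_apply] at this
    simpa [dotC_zero_right] using this
  -- comparison with the vertex
  have hQ : M * dotC (om2 * x) y.1 ≤ t * dotC P y.1 := by
    have h1 := E.T1.rot2 _ E.T1.mem y hy.1
    have h2 := E.T0.rot2 _ E.T0.mem y hy.1
    rw [inv_neg] at h2
    have h1' := mul_le_mul_of_nonneg_left h1 hM.le
    have h2' := mul_le_mul_of_nonneg_left h2 hM.le
    rcases le_or_gt 0 y.2 with h | h
    · have h3 : zc f₀ * y.2 ≤ M * (β⁻¹ * y.2) := by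
        have : zc f₀ ≤ M * β⁻¹ := by
          rw [← div_eq_mul_inv, le_div_iff₀ hβ]; exact hztop
        calc zc f₀ * y.2 ≤ M * β⁻¹ * y.2 := mul_le_mul_of_nonneg_right this h
          _ = _ := by ring
      linarith
    · have h3 : zc f₀ * y.2 ≤ M * (-α⁻¹ * y.2) := by
        have : -zc f₀ ≤ M * α⁻¹ := by
          rw [← div_eq_mul_inv, le_div_iff₀ hα]; linarith
        have h4 := mul_le_mul_of_nonneg_left this (neg_nonneg.mpr h.le)
        linarith
      linarith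
  have hcη : 0 < Real.cos η := Real.cos_pos_of_mem_Ioo ⟨by linarith, by linarith⟩
  have hs1 : 0 < Real.sin (Real.pi / 6 + η - φ) :=
    Real.sin_pos_of_pos_of_lt_pi (by linarith) (by linarith)
  have hs2 : 0 < Real.sin (Real.pi / 3 + φ) :=
    Real.sin_pos_of_pos_of_lt_pi (by linarith) (by linarith)
  have hts : t * Real.sin (Real.pi / 6 + η - φ) < M * Real.cos η := by
    have h1 : t * Real.sin (Real.pi / 6 + η - φ) < t * (Real.cos η * dotC P μ') :=
      mul_lt_mul_of_pos_left (by linarith) htp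
    have h2 : Real.cos η * (t * dotC P μ') ≤ Real.cos η * M := mul_le_mul_of_nonneg_left hμle hcη.le
    linarith
  have key : Real.sin (Real.pi / 3 + φ) * dotC (x * eA (-(Real.pi / 6) + η)) y.1
      = Real.cos η * dotC P y.1 - Real.sin (Real.pi / 6 + η - φ) * dotC (om2 * x) y.1 := by
    rw [← dotC_ofReal_left, ← dotC_ofReal_left, ← dotC_ofReal_left, ← dotC_sub_left]
    congr 1
    have := three_dirs φ η
    calc ((Real.sin (Real.pi / 3 + φ) : ℝ) : ℂ) * (x * eA (-(Real.pi / 6) + η))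
        = x * (((Real.sin (Real.pi / 3 + φ) : ℝ) : ℂ) * eA (-(Real.pi / 6) + η)) := by ring
      _ = _ := by rw [this, hP]; ring
  have h5 : 0 < M * (Real.sin (Real.pi / 3 + φ) * dotC (x * eA (-(Real.pi / 6) + η)) y.1) := by
    rw [key]
    have h6 := mul_le_mul_of_nonneg_left hQ hs1.le
    have h7 := mul_lt_mul_of_pos_right hts hPy
    nlinarith
  have h6 := (mul_pos_iff_of_pos_left hM).mp h5
  exact (mul_pos_iff_of_pos_left hs2).mp h6

theorem ExB.nonrigid {ζ : ℂ} {K : Set (ℂ × ℝ)} {α β : ℝ} {x : ℂ} (E : ExB ζ K α β x) {μ' : ℂ}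
    (hμ' : (μ', (0 : ℝ)) ∈ K) (h : 1 < -2 * dotC (om1 * x) μ') : Sep K 8 := by
  have hpi := Real.pi_pos
  have B := E.B
  have h3 : √3 ^ 2 = 3 := Real.sq_sqrt (by norm_num)
  have hx0 := E.T1.ne
  -- choice of the angle
  obtain ⟨η, hη0, hη1, hη⟩ : ∃ η : ℝ, 0 < η ∧ η ≤ Real.pi / 60 ∧ ∀ φ : ℝ, |φ| ≤ η →
      0 < Real.cos η * dotC (x * eA (-(Real.pi / 3) + φ)) μ' - Real.sin (Real.pi / 6 + η - φ) := by
    have hc : Continuous (fun p : ℝ × ℝ => Real.cos p.1 * dotC (x * eA (-(Real.pi / 3) + p.2)) μ'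
        - Real.sin (Real.pi / 6 + p.1 - p.2)) := by
      have he : Continuous (fun p : ℝ × ℝ => x * eA (-(Real.pi / 3) + p.2)) := by
        have : (fun p : ℝ × ℝ => x * eA (-(Real.pi / 3) + p.2))
            = fun p : ℝ × ℝ => x * Complex.exp (((-(Real.pi / 3) + p.2 : ℝ) : ℂ) * Complex.I) := by
          ext p; rw [eA_eq_exp]
        rw [this]
        fun_prop
      have hd : Continuous (fun p : ℝ × ℝ => dotC (x * eA (-(Real.pi / 3) + p.2)) μ') :=
        continuous_dotC.comp (he.prodMk continuous_const)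
      fun_prop
    have hpos : (0 : ℝ) < Real.cos ((0 : ℝ), (0 : ℝ)).1
        * dotC (x * eA (-(Real.pi / 3) + ((0 : ℝ), (0 : ℝ)).2)) μ'
        - Real.sin (Real.pi / 6 + ((0 : ℝ), (0 : ℝ)).1 - ((0 : ℝ), (0 : ℝ)).2) := by
      simp only [add_zero, sub_zero, Real.cos_zero, one_mul, Real.sin_pi_div_six]
      rw [← neg_om1_eA]
      have : dotC (x * -om1) μ' = -dotC (om1 * x) μ' := by
        rw [← dotC_neg_left]; congr 1; ring
      rw [this]
      linarith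
    have hev := continuousAt_const.eventually_lt (hc.continuousAt (x := ((0 : ℝ), (0 : ℝ)))) hpos
    obtain ⟨δ, hδ, hball⟩ := Metric.eventually_nhds_iff.mp hev
    refine ⟨min (δ / 2) (Real.pi / 60), by positivity, min_le_right _ _, ?_⟩
    intro φ hφ
    have hm := min_le_left (δ / 2) (Real.pi / 60)
    have hm0 : 0 < min (δ / 2) (Real.pi / 60) := by positivity
    apply hball (y := (min (δ / 2) (Real.pi / 60), φ))
    rw [Prod.dist_eq, max_lt_iff]
    constructor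
    · rw [dist_zero_right, Real.norm_eq_abs, abs_of_pos hm0]
      linarith
    · rw [dist_zero_right, Real.norm_eq_abs]
      linarith
  set a : Fin 4 → ℝ := ![-(Real.pi / 6) + η, Real.pi / 2 + η, 7 * Real.pi / 6 + η, Real.pi / 3]
    with ha
  set b : Fin 4 → ℝ := ![Real.pi / 6 - η, 5 * Real.pi / 6 - η, 3 * Real.pi / 2 - η, Real.pi] with hb
  have a0 : a 0 = -(Real.pi / 6) + η := rfl
  have a1 : a 1 = Real.pi / 2 + η := rfl
  have a2 : a 2 = 7 * Real.pi / 6 + η := rfl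
  have a3 : a 3 = Real.pi / 3 := rfl
  have b0 : b 0 = Real.pi / 6 - η := rfl
  have b1 : b 1 = 5 * Real.pi / 6 - η := rfl
  have b2 : b 2 = 3 * Real.pi / 2 - η := rfl
  have b3 : b 3 = Real.pi := rfl
  refine B.c3 (u := fun i : Fin 4 => x * eA (a i)) (v := fun i : Fin 4 => x * eA (b i)) ?_ ?_ ?_
    (by simp)
  · apply covers_tri E.T1 (fun y hy => (E.tri1 y hy).2.2) (φ := -(Real.pi / 6) + η) (by linarith)
      (by linarith)
    intro i
    fin_cases i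
    · change -(Real.pi / 6) + η = -(Real.pi / 6) + η + ((0 : ℕ) : ℝ) * (2 * Real.pi / 3)
      push_cast; ring
    · change Real.pi / 2 + η = -(Real.pi / 6) + η + ((1 : ℕ) : ℝ) * (2 * Real.pi / 3)
      push_cast; ring
    · change 7 * Real.pi / 6 + η = -(Real.pi / 6) + η + ((2 : ℕ) : ℝ) * (2 * Real.pi / 3)
      push_cast; ring
  · apply covers_tri E.T0 (fun y hy => (E.tri0 y hy).2.2) (φ := Real.pi / 6 - η) (by linarith)
      (by linarith)
    intro i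
    fin_cases i
    · change Real.pi / 6 - η = Real.pi / 6 - η + ((0 : ℕ) : ℝ) * (2 * Real.pi / 3)
      push_cast; ring
    · change 5 * Real.pi / 6 - η = Real.pi / 6 - η + ((1 : ℕ) : ℝ) * (2 * Real.pi / 3)
      push_cast; ring
    · change 3 * Real.pi / 2 - η = Real.pi / 6 - η + ((2 : ℕ) : ℝ) * (2 * Real.pi / 3)
      push_cast; ring
  · intro f hf hN hS
    obtain ⟨hn, hoff⟩ := B.off_axis hf hN hS
    obtain ⟨S, hSν⟩ := exists_polar x (nv f) hx0
    have hxe : ∀ t : ℝ, x * eA t ≠ 0 := fun t => mul_ne_zero hx0 (eA_ne_zero t)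
    have hgood : ∀ (t : ℝ) (n : ℤ), S - Real.pi / 6 < t + 2 * Real.pi * n →
        t + 2 * Real.pi * n < S + Real.pi / 6 → ∀ y ∈ face K f, 0 < dotC (x * eA t) y.1 := by
      intro t n h1 h2 y hy
      have h4 := dot_of_close hx0 hn hSν h1 h2
      exact dot_pos_of (s := √3 / 2) (t := 1 / 2) (by positivity) (by norm_num)
        (by nlinarith) hn (hxe t) (hoff y hy) h4 (B.angle_half hy)
    set c : Fin 9 → ℝ := ![a 0, b 0, a 3, a 1, b 1, b 3, a 2, b 2, 5 * Real.pi / 3] with hc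
    have c0 : c 0 = a 0 := rfl
    have c1 : c 1 = b 0 := rfl
    have c2 : c 2 = a 3 := rfl
    have c3 : c 3 = a 1 := rfl
    have c4 : c 4 = b 1 := rfl
    have c5 : c 5 = b 3 := rfl
    have c6 : c 6 = a 2 := rfl
    have c7 : c 7 = b 2 := rfl
    have c8 : c 8 = 5 * Real.pi / 3 := rfl
    obtain ⟨i, n, h1, h2⟩ := gap9 (c := c) (G := Real.pi / 3)
      (by rw [c1, c0, b0, a0]; linarith) (by rw [c2, c1, a3, b0]; linarith)
      (by rw [c3, c2, a1, a3]; linarith) (by rw [c4, c3, b1, a1]; linarith)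
      (by rw [c5, c4, b3, b1]; linarith) (by rw [c6, c5, a2, b3]; linarith)
      (by rw [c7, c6, b2, a2]; linarith) (by rw [c8, c7, b2]; linarith)
      (by rw [c0, c8, a0]; linarith) (S - Real.pi / 6)
    have h2' : c i + 2 * Real.pi * n < S + Real.pi / 6 := by linarith
    by_cases hi8 : i = 8
    · rw [hi8, c8] at h1 h2'
      set φ := S - 5 * Real.pi / 3 - 2 * Real.pi * n with hφ
      rcases lt_or_ge η φ with hφ1 | hφ1
      · left
        refine ⟨0, hgood _ (n + 1) ?_ ?_⟩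
        · rw [a0]; push_cast; linarith
        · rw [a0]; push_cast; linarith
      rcases lt_or_ge φ (-η) with hφ2 | hφ2
      · right
        refine ⟨2, hgood _ n ?_ ?_⟩
        · rw [b2]; linarith
        · rw [b2]; linarith
      · left
        refine ⟨0, ?_⟩
        have hφabs : |φ| ≤ η := abs_le.mpr ⟨hφ2, hφ1⟩
        have hSeq : S = -(Real.pi / 3) + φ + 2 * Real.pi * ((n + 1 : ℤ) : ℝ) := by
          rw [hφ]; push_cast; ring
        exact E.special hμ' hη0 hη1 hφabs hSeq (hη φ hφabs) hf hn hoff hSν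
    · fin_cases i
      · exact Or.inl ⟨0, hgood _ n h1 h2'⟩
      · exact Or.inr ⟨0, hgood _ n h1 h2'⟩
      · exact Or.inl ⟨3, hgood _ n h1 h2'⟩
      · exact Or.inl ⟨1, hgood _ n h1 h2'⟩
      · exact Or.inr ⟨1, hgood _ n h1 h2'⟩
      · exact Or.inr ⟨3, hgood _ n h1 h2'⟩
      · exact Or.inl ⟨2, hgood _ n h1 h2'⟩
      · exact Or.inr ⟨2, hgood _ n h1 h2'⟩
      · exact absurd rfl hi8

theorem ExB.sep {ζ : ℂ} {K : Set (ℂ × ℝ)} {α β : ℝ} {x : ℂ} (E : ExB ζ K α β x) : Sep K 8 := by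
  by_cases h : ∀ μ : ℂ, (μ, (0 : ℝ)) ∈ K → -2 * dotC (om1 * x) μ ≤ 1
  · obtain ⟨z, hz⟩ := exists_height E.B.conv E.B.hα E.B.hβ E.B.top E.B.bot
      (((-2 : ℝ) : ℂ) * (om1 * x)) (by
        intro μ hμ
        rw [dotC_ofReal_left]
        exact h μ hμ)
    apply E.rigid (zs := z)
    intro y hy
    have := hz y hy
    rwa [dotC_ofReal_left] at this
  · push Not at h
    obtain ⟨μ, hμ, h⟩ := h
    exact E.nonrigid hμ h

lemma PB.MS_rot12 {ζ : ℂ} {K : Set (ℂ × ℝ)} {α β : ℝ} (B : PB 3 ζ K α β) (c : ℝ) :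
    (∀ n ∈ MS K c, om1 * n ∈ MS K c) ∧ (∀ n ∈ MS K c, om2 * n ∈ MS K c) := by
  obtain ⟨h1, h2⟩ := B.inv_om
  constructor
  · intro n hn y hy
    rw [dotC_om1]
    exact hn _ (h2 y hy)
  · intro n hn y hy
    rw [dotC_om2]
    exact hn _ (h1 y hy)

lemma int_mod_three (k : ℤ) : ∃ (m : ℕ) (j : ℤ), k = m + 3 * j := by
  refine ⟨(k % 3).toNat, k / 3, ?_⟩
  have : 0 ≤ k % 3 := Int.emod_nonneg _ (by norm_num)
  omega

/-- case 3 for `p = 3` -/
theorem PB.case3_three {ζ : ℂ} {K : Set (ℂ × ℝ)} {α β : ℝ} (B : PB 3 ζ K α β)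
    (hT : TopCross K β) (hB : BotCross K α) : Sep K 8 := by
  have hpi := Real.pi_pos
  have h3 : √3 ^ 2 = 3 := Real.sq_sqrt (by norm_num)
  have P1 := B.pm_top hT
  have P0 := B.pm_bot hB
  obtain ⟨x₁, hx₁, hx₁0, hmax₁⟩ := P1.far
  obtain ⟨y₀, hy₀, hy₀0, hmax₀⟩ := P0.far
  obtain ⟨hr11, hr12⟩ := B.MS_rot12 β⁻¹
  obtain ⟨hr01, hr02⟩ := B.MS_rot12 (-α)⁻¹
  have T1 : TM (MS K β⁻¹) x₁ := ⟨P1.conv, P1.h0, hr11, hr12, hx₁, hx₁0, hmax₁⟩
  -- rotate the second farthest point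
  obtain ⟨x₀, d, hd0, hd1, T0, hx₀⟩ : ∃ (x₀ : ℂ) (d : ℝ), -(Real.pi / 3) ≤ d ∧ d ≤ Real.pi / 3 ∧
      TM (MS K (-α)⁻¹) x₀ ∧ x₀ = ((‖x₀‖ / ‖x₁‖ : ℝ) : ℂ) * (x₁ * eA d) := by
    obtain ⟨S, hS⟩ := exists_polar x₁ y₀ hx₁0
    set k : ℤ := round (S / (2 * Real.pi / 3)) with hk
    obtain ⟨m, j, hmj⟩ := int_mod_three (-k)
    have hround := abs_sub_round (S / (2 * Real.pi / 3))
    rw [← hk, abs_le] at hround
    have e1 : S / (2 * Real.pi / 3) - k = (S - k * (2 * Real.pi / 3)) / (2 * Real.pi / 3) := by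
      field_simp
    rw [e1, le_div_iff₀ (by positivity), div_le_iff₀ (by positivity)] at hround
    have hnorm : ‖om1 ^ m * y₀‖ = ‖y₀‖ := by
      rw [norm_mul, norm_pow, norm_om1, one_pow, one_mul]
    refine ⟨om1 ^ m * y₀, S - k * (2 * Real.pi / 3), by linarith, by linarith, ?_, ?_⟩
    · refine ⟨P0.conv, P0.h0, hr01, hr02, rot_pow_mem hr01 m hy₀,
        mul_ne_zero (pow_ne_zero _ om1_ne) hy₀0, ?_⟩
      intro y hy
      rw [hnorm]
      exact hmax₀ y hy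
    · rw [hnorm]
      have e2 : eA (S - k * (2 * Real.pi / 3)) = om1 ^ m * eA S := by
        have hmj' : -(k : ℝ) = m + 3 * j := by exact_mod_cast hmj
        have e3 : S - k * (2 * Real.pi / 3) = (m * (2 * Real.pi / 3) + S) + 2 * Real.pi * j := by
          have e4 : S - k * (2 * Real.pi / 3) = S + (-(k : ℝ)) * (2 * Real.pi / 3) := by ring
          rw [e4, hmj']
          ring
        rw [e3, eA_add_int, eA_add, om1_eA, eA_pow]
      rw [e2]
      conv_lhs => rw [hS]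
      ring
  have hx₁n : 0 < ‖x₁‖ := norm_pos_iff.mpr hx₁0
  have hx₀n : 0 < ‖x₀‖ := norm_pos_iff.mpr T0.ne
  set r := ‖x₀‖ / ‖x₁‖ with hr
  have hrp : 0 < r := by positivity
  -- finishing from the chain
  have fin : ∀ U V : Fin 4 → ℂ, Covers (MS K β⁻¹) U → Covers (MS K (-α)⁻¹) V → (∀ i, U i ≠ 0) →
      (∀ i, V i ≠ 0) → (∀ ν : ℂ, ν ≠ 0 → (∃ i, √3 / 2 * ‖U i‖ * ‖ν‖ < dotC (U i) ν) ∨
        (∃ i, √3 / 2 * ‖V i‖ * ‖ν‖ < dotC (V i) ν)) → Sep K 8 := by
    intro U V hU hV hU0 hV0 hUV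
    refine B.c3 (u := U) (v := V) hU hV ?_ (by simp)
    intro f hf hN hS
    obtain ⟨hn, hoff⟩ := B.off_axis hf hN hS
    rcases hUV _ hn with ⟨i, hi⟩ | ⟨i, hi⟩
    · left
      refine ⟨i, fun y hy => ?_⟩
      exact dot_pos_of (s := √3 / 2) (t := 1 / 2) (by positivity) (by norm_num)
        (by nlinarith) hn (hU0 i) (hoff y hy) hi (B.angle_half hy)
    · right
      refine ⟨i, fun y hy => ?_⟩
      exact dot_pos_of (s := √3 / 2) (t := 1 / 2) (by positivity) (by norm_num)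
        (by nlinarith) hn (hV0 i) (hoff y hy) hi (B.angle_half hy)
  have hx₁' : x₁ = ((r⁻¹ : ℝ) : ℂ) * (x₀ * eA (-d)) := by
    conv_rhs => rw [hx₀]
    have e1 : eA d * eA (-d) = 1 := by rw [← eA_add, add_neg_cancel, eA_zero]
    have e2 : ((r⁻¹ : ℝ) : ℂ) * (r : ℂ) = 1 := by
      rw [← Complex.ofReal_mul, inv_mul_cancel₀ hrp.ne', Complex.ofReal_one]
    calc x₁ = (((r⁻¹ : ℝ) : ℂ) * (r : ℂ)) * (x₁ * (eA d * eA (-d))) := by rw [e1, e2]; ring
      _ = _ := by ring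
  by_cases h1 : ∃ l : ℝ, 0 < l ∧ x₁ - (l : ℂ) * (x₁ * eA (d / 2 - Real.pi / 6)) ∈ interior (MS K β⁻¹)
      ∧ 0 ≤ d
  · obtain ⟨l, hl, hl', hd⟩ := h1
    obtain ⟨U, V, hU, hV, hU0, hV0, hUV⟩ := chain T1 T0 hd hd1 hrp hx₀ ⟨l, hl, hl'⟩
    exact fin U V hU hV hU0 hV0 hUV
  by_cases h2 : ∃ l : ℝ, 0 < l ∧ x₀ - (l : ℂ) * (x₀ * eA (-d / 2 - Real.pi / 6))
      ∈ interior (MS K (-α)⁻¹) ∧ d ≤ 0
  · obtain ⟨l, hl, hl', hd⟩ := h2
    obtain ⟨V, U, hV, hU, hV0, hU0, hUV⟩ := chain T0 T1 (d := -d) (r := r⁻¹) (by linarith)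
      (by linarith) (by positivity) hx₁' ⟨l, hl, hl'⟩
    exact fin U V hU hV hU0 hV0 (fun ν hν => (hUV ν hν).symm)
  -- the exceptional case
  have hd : d = 0 := by
    rcases lt_trichotomy d 0 with hd | hd | hd
    · exfalso
      apply h2
      obtain ⟨l, hl, hl'⟩ := vertex_cone T0.conv T0.h0 T0.mem (T0.rot1 _ T0.mem)
        (T0.rot2 _ T0.mem) (φ := -d / 2 - Real.pi / 6) (by linarith) (by linarith)
      exact ⟨l, hl, hl', hd.le⟩
    · exact hd
    · exfalso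
      apply h1
      obtain ⟨l, hl, hl'⟩ := vertex_cone T1.conv T1.h0 T1.mem (T1.rot1 _ T1.mem)
        (T1.rot2 _ T1.mem) (φ := d / 2 - Real.pi / 6) (by linarith) (by linarith)
      exact ⟨l, hl, hl', hd.le⟩
  subst hd
  have hx₀' : x₀ = (r : ℂ) * x₁ := by rw [eA_zero, mul_one] at hx₀; exact hx₀
  have hE1 : ¬ ∃ l : ℝ, 0 < l ∧ x₁ - (l : ℂ) * (x₁ * eA (-(Real.pi / 6))) ∈ interior (MS K β⁻¹) := by
    rintro ⟨l, hl, h⟩
    apply h1
    refine ⟨l, hl, ?_, le_refl _⟩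
    have e : (0 : ℝ) / 2 - Real.pi / 6 = -(Real.pi / 6) := by ring
    rw [e]; exact h
  have hE0 : ¬ ∃ l : ℝ, 0 < l ∧ x₀ - (l : ℂ) * (x₀ * eA (-(Real.pi / 6)))
      ∈ interior (MS K (-α)⁻¹) := by
    rintro ⟨l, hl, h⟩
    apply h2
    refine ⟨l, hl, ?_, le_refl _⟩
    have e : -(0 : ℝ) / 2 - Real.pi / 6 = -(Real.pi / 6) := by ring
    rw [e]; exact h
  have tri1 := fun y (hy : y ∈ MS K β⁻¹) => T1.tri_of_not_edge hE1 hy
  have tri0 := fun y (hy : y ∈ MS K (-α)⁻¹) => T0.tri_of_not_edge hE0 hy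
  obtain ⟨hi1, hi2⟩ := B.inv_om
  have hα := B.hα
  have hβ := B.hβ
  obtain ⟨μ₁, hμ₁, hμ₁1⟩ : ∃ μ : ℂ, (μ, (0 : ℝ)) ∈ K ∧ dotC x₁ μ = 1 := by
    obtain ⟨f, hf, hN, y, hy, hy0⟩ := hT
    have hpos : 0 < zc f * β := by
      have := pos_of_face B.h0 hf hN
      rw [f3_apply] at this
      simpa [dotC_zero_right] using this
    obtain ⟨v, hv, hv0⟩ := exists_level B.conv hy hN hy0 hβ.le
    exact cross_mu B.conv hi1 hi2 T1.ne T1.mem (T1.rot1 _ T1.mem) (T1.rot2 _ T1.mem) tri1 hN hpos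
      hv hv0
  obtain ⟨μ₀, hμ₀, hμ₀1⟩ : ∃ μ : ℂ, (μ, (0 : ℝ)) ∈ K ∧ dotC x₀ μ = 1 := by
    obtain ⟨f, hf, hN, y, hy, hy0⟩ := hB
    have hpos : 0 < zc f * (-α) := by
      have := pos_of_face B.h0 hf hN
      rw [f3_apply] at this
      simpa [dotC_zero_right] using this
    obtain ⟨v, hv, hv0⟩ := exists_level B.conv hN hy (by simp only; linarith) hy0
    exact cross_mu B.conv hi1 hi2 T0.ne T0.mem (T0.rot1 _ T0.mem) (T0.rot2 _ T0.mem) tri0 hN hpos
      hv hv0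
  have hr1 : r = 1 := by
    have e1 := T1.mem _ hμ₀
    have e2 := T0.mem _ hμ₁
    simp only [mul_zero, add_zero] at e1 e2
    rw [hx₀', dotC_ofReal_left] at e2 hμ₀1
    rw [hμ₁1] at e2
    apply le_antisymm
    · linarith
    · have := mul_le_mul_of_nonneg_left e1 hrp.le
      linarith
  have hx01 : x₀ = x₁ := by rw [hx₀', hr1]; simp
  rw [hx01] at T0 tri0
  exact ExB.sep ⟨B, T1, T0, tri1, tri0, ⟨μ₁, hμ₁, hμ₁1⟩⟩

/-- All rotational symmetries of order at least three. -/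
theorem PB.sep {p : ℕ} {ζ : ℂ} {K : Set (ℂ × ℝ)} {α β : ℝ} (B : PB p ζ K α β) : Sep K 8 := by
  by_cases hT : TopCross K β
  · by_cases hB : BotCross K α
    · rcases Nat.lt_or_ge p 4 with hp | hp
      · have hp3 : p = 3 := by have := B.hp; omega
        subst hp3
        exact B.case3_three hT hB
      · exact B.case3_four hp hT hB
    · exact B.case2 hT hB
  · by_cases hB : BotCross K α
    · apply Sep.of_flip
      have hmem : ∀ y : ℂ × ℝ, y ∈ (fun y : ℂ × ℝ => (y.1, -y.2)) '' K ↔ (y.1, -y.2) ∈ K := by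
        intro y
        constructor
        · rintro ⟨w, hw, rfl⟩
          simpa using hw
        · intro h
          exact ⟨_, h, by simp⟩
      let T : (ℂ × ℝ) ≃L[ℝ] (ℂ × ℝ) :=
        (ContinuousLinearEquiv.refl ℝ ℂ).prodCongr (ContinuousLinearEquiv.neg ℝ)
      have hTa : ∀ y : ℂ × ℝ, T y = (y.1, -y.2) := fun y => by simp [T]
      -- faces of the flipped body
      have hface : ∀ (f : (ℂ × ℝ) →L[ℝ] ℝ) (y : ℂ × ℝ),
          y ∈ face ((fun y : ℂ × ℝ => (y.1, -y.2)) '' K) f ↔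
            (y.1, -y.2) ∈ face K (f.comp (T : (ℂ × ℝ) →L[ℝ] (ℂ × ℝ))) := by
        intro f y
        constructor
        · rintro ⟨h1, h2⟩
          refine ⟨(hmem y).mp h1, ?_⟩
          intro v hv
          have := h2 (v.1, -v.2) ((hmem _).mpr (by simpa using hv))
          simpa [hTa] using this
        · rintro ⟨h1, h2⟩
          refine ⟨(hmem y).mpr h1, ?_⟩
          intro v hv
          have := h2 (v.1, -v.2) ((hmem v).mp hv)
          simpa [hTa] using this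
      have hne : ∀ f : (ℂ × ℝ) →L[ℝ] ℝ, f ≠ 0 → f.comp (T : (ℂ × ℝ) →L[ℝ] (ℂ × ℝ)) ≠ 0 := by
        intro f hf h0
        apply hf
        have hc : (f.comp (T : (ℂ × ℝ) →L[ℝ] (ℂ × ℝ))).comp (T : (ℂ × ℝ) →L[ℝ] (ℂ × ℝ)) = f := by
          ext v <;> simp [hTa]
        rw [← hc, h0, ContinuousLinearMap.zero_comp]
      refine B.flip.case2 ?_ ?_
      · -- top crossing of the flipped body
        obtain ⟨f, hf, hS, y, hy, hy0⟩ := hB
        have hc : (f.comp (T : (ℂ × ℝ) →L[ℝ] (ℂ × ℝ))).comp (T : (ℂ × ℝ) →L[ℝ] (ℂ × ℝ)) = f := by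
          ext v <;> simp [hTa]
        refine ⟨f.comp (T : (ℂ × ℝ) →L[ℝ] (ℂ × ℝ)), hne f hf, ?_, (y.1, -y.2), ?_, ?_⟩
        · rw [hface, hc]; exact hS
        · rw [hface, hc]; simpa using hy
        · simp only; linarith
      · rintro ⟨f, hf, hS, y, hy, hy0⟩
        apply hT
        rw [hface] at hS hy
        refine ⟨f.comp (T : (ℂ × ℝ) →L[ℝ] (ℂ × ℝ)), hne f hf, ?_, (y.1, -y.2), hy, ?_⟩
        · simpa using hS
        · simp only; linarith
    · exact B.case1 hT hB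

end Pool.Agent.Lib.MP_5e7226_co
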