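import Pool.Agent.Lib.MP_5e7226_co.TwoLevel

set_option autoImplicit false
set_option linter.unusedSectionVars false

open Set MeasureTheory Module Filter Topology
open scoped InnerProductSpace

namespace Pool.Agent.Lib.MP_5e7226_co

variable {E : Type*} [NormedAddCommGroup E] [InnerProductSpace ℝ E] [FiniteDimensional ℝ E]

/-- Two compact convex sets missing the origin either lie in a common open half-space or contain
opposite points. -/
lemma merge_or_opp {A B : Set E} (hA : IsCompact A) (hAc : Convex ℝ A) (hB : IsCompact B)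
    (hBc : Convex ℝ B) (hAne : A.Nonempty) (hBne : B.Nonempty) (h0A : (0 : E) ∉ A)
    (h0B : (0 : E) ∉ B) :
    (∃ w : E, (∀ x ∈ A, 0 < ⟪w, x⟫_ℝ) ∧ ∀ x ∈ B, 0 < ⟪w, x⟫_ℝ) ∨
      ∃ a ∈ A, ∃ c : ℝ, 0 < c ∧ -(c • a) ∈ B := by
  by_cases h : (0 : E) ∈ convexJoin ℝ A B
  · right
    obtain ⟨a, ha, b, hb, s, t, hs, ht, hst, hab⟩ := mem_convexJoin.mp h
    have ht' : t ≠ 0 := by
      rintro rfl
      have : s = 1 := by linarith
      rw [this, one_smul, zero_smul, add_zero] at hab
      exact h0A (hab ▸ ha)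
    have hs' : s ≠ 0 := by
      rintro rfl
      have : t = 1 := by linarith
      rw [this, one_smul, zero_smul, zero_add] at hab
      exact h0B (hab ▸ hb)
    have hspos : 0 < s := lt_of_le_of_ne hs (Ne.symm hs')
    have htpos : 0 < t := lt_of_le_of_ne ht (Ne.symm ht')
    refine ⟨a, ha, s / t, by positivity, ?_⟩
    have h1 : t • b = -(s • a) := eq_neg_of_add_eq_zero_right hab
    have h2 : b = -((s / t) • a) := by
      have h3 : b = t⁻¹ • (t • b) := by rw [smul_smul, inv_mul_cancel₀ ht', one_smul]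
      rw [h3, h1, smul_neg, smul_smul, div_eq_inv_mul]
    rwa [← h2]
  · left
    have himg : convexJoin ℝ A B
        = (fun p : ℝ × E × E => (1 - p.1) • p.2.1 + p.1 • p.2.2) '' (Icc 0 1 ×ˢ A ×ˢ B) := by
      ext y
      rw [mem_convexJoin]
      constructor
      · rintro ⟨a, ha, b, hb, hy⟩
        rw [segment_eq_image] at hy
        obtain ⟨t, ht, rfl⟩ := hy
        exact ⟨(t, a, b), ⟨ht, ha, hb⟩, rfl⟩
      · rintro ⟨⟨t, a, b⟩, ⟨ht, ha, hb⟩, rfl⟩
        refine ⟨a, ha, b, hb, ?_⟩
        rw [segment_eq_image]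
        exact ⟨t, ht, rfl⟩
    have hcpt : IsCompact (convexJoin ℝ A B) := by
      rw [himg]
      exact (isCompact_Icc.prod (hA.prod hB)).image (by fun_prop)
    obtain ⟨f, r, hr, hf⟩ := geometric_hahn_banach_point_closed (hAc.convexJoin hBc)
      hcpt.isClosed h
    rw [map_zero] at hr
    refine ⟨(InnerProductSpace.toDual ℝ E).symm f, ?_, ?_⟩
    · intro x hx
      rw [InnerProductSpace.toDual_symm_apply]
      exact hr.trans (hf x (subset_convexJoin_left hBne hx))
    · intro x hx
      rw [InnerProductSpace.toDual_symm_apply]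
      exact hr.trans (hf x (subset_convexJoin_right hAne hx))

/-- The open dual cone of a set. -/
def dcone (A : Set E) : Set E := {w | ∀ x ∈ A, 0 < ⟪w, x⟫_ℝ}

lemma dcone_open {A : Set E} (hA : IsCompact A) : IsOpen (dcone A) := by
  rw [isOpen_iff_eventually]
  intro w hw
  apply hA.eventually_forall_of_forall_eventually
  intro x hx
  have h1 : Continuous (fun z : E × E => ⟪z.1, z.2⟫_ℝ) := by fun_prop
  exact (h1.continuousAt (x := (w, x))).eventually (lt_mem_nhds (hw x hx))

lemma dcone_convex (A : Set E) : Convex ℝ (dcone A) := by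
  intro a ha b hb s t hs ht hst x hx
  have h1 := ha x hx
  have h2 := hb x hx
  rw [inner_add_left, real_inner_smul_left, real_inner_smul_left]
  rcases hs.eq_or_lt with h | h
  · subst h
    have : t = 1 := by linarith
    subst this
    simpa using h2
  · nlinarith [mul_pos h h1, mul_nonneg ht h2.le]

/-- Choice of one vector from each dual cone with sum zero. -/
lemma exists_sum_zero {M : ℕ} (hM : 0 < M) (A : Fin M → Set E) (hA : ∀ g, IsCompact (A g))
    (hne : ∀ g, (dcone (A g)).Nonempty)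
    (hC : ∀ v : E, v ≠ 0 → ∃ g, ∃ w ∈ dcone (A g), ⟪w, v⟫_ℝ < 0) :
    ∃ w : Fin M → E, (∀ g, w g ∈ dcone (A g)) ∧ ∑ g, w g = 0 := by
  classical
  set C : Set E := {y | ∃ w : Fin M → E, (∀ g, w g ∈ dcone (A g)) ∧ ∑ g, w g = y} with hCdef
  have hCconv : Convex ℝ C := by
    rintro _ ⟨w, hw, rfl⟩ _ ⟨w', hw', rfl⟩ s t hs ht hst
    refine ⟨fun g => s • w g + t • w' g, fun g => dcone_convex _ (hw g) (hw' g) hs ht hst, ?_⟩
    rw [Finset.sum_add_distrib, Finset.smul_sum, Finset.smul_sum]
  have hCopen : IsOpen C := by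
    rw [isOpen_iff_eventually]
    rintro y ⟨w, hw, rfl⟩
    let g₀ : Fin M := ⟨0, hM⟩
    have h1 : ∀ᶠ y' in 𝓝 (∑ g, w g), w g₀ + (y' - ∑ g, w g) ∈ dcone (A g₀) := by
      have hcont : Continuous (fun y' : E => w g₀ + (y' - ∑ g, w g)) := by fun_prop
      apply hcont.continuousAt.eventually
      have h2 : w g₀ + (∑ g, w g - ∑ g, w g) = w g₀ := by rw [sub_self, add_zero]
      change ∀ᶠ y in 𝓝 (w g₀ + (∑ g, w g - ∑ g, w g)), y ∈ dcone (A g₀)
      rw [h2]
      exact (dcone_open (hA g₀)).mem_nhds (hw g₀)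
    filter_upwards [h1] with y' hy'
    refine ⟨Function.update w g₀ (w g₀ + (y' - ∑ g, w g)), ?_, ?_⟩
    · intro g
      by_cases hg : g = g₀
      · rw [hg, Function.update_self]; exact hy'
      · rw [Function.update_of_ne hg]; exact hw g
    · rw [Finset.sum_update_of_mem (Finset.mem_univ g₀)]
      have h2 := Finset.add_sum_erase Finset.univ w (Finset.mem_univ g₀)
      rw [Finset.sdiff_singleton_eq_erase]
      have h3 : ∑ x ∈ Finset.univ.erase g₀, w x = ∑ g, w g - w g₀ := by
        rw [← h2]; abel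
      rw [h3]; abel
  have h0 : (0 : E) ∈ C := by
    by_contra hcon
    obtain ⟨f, hf⟩ := geometric_hahn_banach_open_point hCconv hCopen hcon
    rw [map_zero] at hf
    choose w₀ hw₀ using hne
    set v := (InnerProductSpace.toDual ℝ E).symm f with hv
    have hfv : ∀ y, f y = ⟪v, y⟫_ℝ := fun y => by
      rw [hv, InnerProductSpace.toDual_symm_apply]
    have hv0 : v ≠ 0 := by
      intro h
      have := hf _ ⟨w₀, hw₀, rfl⟩
      rw [hfv, h, inner_zero_left] at this
      exact lt_irrefl _ this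
    obtain ⟨g, w, hw, hneg⟩ := hC (-v) (neg_ne_zero.mpr hv0)
    rw [inner_neg_right, neg_lt_zero, real_inner_comm] at hneg
    -- scale the vector in slot `g`
    have hbase := hf _ ⟨w₀, hw₀, rfl⟩
    set S := f (∑ g, w₀ g) with hS
    have key : ∀ t : ℝ, 0 < t → f (∑ g, w₀ g) - f (w₀ g) + t * ⟪v, w⟫_ℝ < 0 := by
      intro t ht
      have h1 := hf (∑ k, Function.update w₀ g (t • w) k) ⟨Function.update w₀ g (t • w), ?_, rfl⟩
      · rw [Finset.sum_update_of_mem (Finset.mem_univ g), Finset.sdiff_singleton_eq_erase] at h1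
        have h2 := Finset.add_sum_erase Finset.univ w₀ (Finset.mem_univ g)
        have h3 : ∑ x ∈ Finset.univ.erase g, w₀ x = ∑ g, w₀ g - w₀ g := by
          rw [← h2]; abel
        rw [h3, map_add, map_sub, map_smul, hfv w, smul_eq_mul] at h1
        linarith
      · intro k
        by_cases hk : k = g
        · rw [hk, Function.update_self]
          intro x hx
          rw [real_inner_smul_left]
          exact mul_pos ht (hw x hx)
        · rw [Function.update_of_ne hk]; exact hw₀ k
    set Q := f (∑ g, w₀ g) - f (w₀ g) with hQ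
    have h2 := key ((|Q| + 1) / ⟪v, w⟫_ℝ) (by positivity)
    rw [div_mul_cancel₀ _ hneg.ne'] at h2
    have := neg_abs_le Q
    linarith
  exact h0

/-- Positively spanning selection. -/
theorem exists_select {d M : ℕ} (hd : finrank ℝ E = d) (hM : d + 1 ≤ M) (A : Fin M → Set E)
    (hA : ∀ g, IsCompact (A g)) (hne : ∀ g, (dcone (A g)).Nonempty)
    (hC : ∀ v : E, v ≠ 0 → ∃ g, ∃ w ∈ dcone (A g), ⟪w, v⟫_ℝ < 0) :
    ∃ w : Fin M → E, (∀ g, w g ∈ dcone (A g)) ∧ ∀ x : E, x ≠ 0 → ∃ g, 0 < ⟪w g, x⟫_ℝ := by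
  classical
  obtain ⟨w, hw, hsum⟩ := exists_sum_zero (by omega) A hA hne hC
  obtain ⟨k, rfl⟩ : ∃ k, M = (d + 1) + k := ⟨M - (d + 1), by omega⟩
  let e : OrthonormalBasis (Fin d) ℝ E := stdOrthonormalBasis ℝ E |>.reindex (finCongr hd)
  let B : Basis (Fin d) ℝ E := e.toBasis
  let emb : Fin d → Fin (d + 1 + k) := fun i => Fin.castAdd k i.castSucc
  let last : Fin (d + 1 + k) := Fin.castAdd k (Fin.last d)
  let T : E →ₗ[ℝ] E := B.constr ℝ (fun i => w (emb i))
  -- the perturbation
  let pert : Fin (d + 1 + k) → E :=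
    Fin.addCases (Fin.lastCases (-∑ i, B i) (fun i => B i)) (fun _ => 0)
  have hpert_emb : ∀ i, pert (emb i) = B i := by
    intro i
    simp [pert, emb]
  have hpert_sum : ∑ g, pert g = 0 := by
    rw [Fin.sum_univ_add]
    simp only [pert, Fin.addCases_left, Fin.addCases_right, Finset.sum_const_zero, add_zero]
    rw [Fin.sum_univ_castSucc]
    simp
  -- small perturbations stay in the cones
  have hopen : ∀ᶠ ε : ℝ in 𝓝 0, ∀ g, w g + ε • pert g ∈ dcone (A g) := by
    rw [Filter.eventually_all]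
    intro g
    have hcont : Continuous (fun ε : ℝ => w g + ε • pert g) := by fun_prop
    have : Tendsto (fun ε : ℝ => w g + ε • pert g) (𝓝 0) (𝓝 (w g)) := by
      have := hcont.tendsto 0
      simpa using this
    exact this.eventually ((dcone_open (hA g)).mem_nhds (hw g))
  -- all but finitely many perturbations give a basis
  have hfin : Set.Finite {μ : ℝ | Module.End.HasEigenvalue T μ} := Module.End.finite_hasEigenvalue T
  have hfin' : Set.Finite {ε : ℝ | Module.End.HasEigenvalue T (-ε)} := by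
    have : {ε : ℝ | Module.End.HasEigenvalue T (-ε)}
        = (fun x : ℝ => -x) ⁻¹' {μ : ℝ | Module.End.HasEigenvalue T μ} := rfl
    rw [this]
    exact hfin.preimage (neg_injective.injOn)
  obtain ⟨r, hr, hball⟩ := Metric.eventually_nhds_iff.mp hopen
  have hinf : (Ioo (0 : ℝ) r).Infinite := Ioo_infinite hr
  obtain ⟨ε, hε, hεn⟩ := (hinf.sdiff hfin').nonempty
  have hε1 := hball (y := ε) (by rw [Real.dist_0_eq_abs, abs_of_pos hε.1]; exact hε.2)
  refine ⟨fun g => w g + ε • pert g, hε1, ?_⟩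
  intro x hx
  by_contra hcon
  push Not at hcon
  have hs : ∑ g, ⟪w g + ε • pert g, x⟫_ℝ = 0 := by
    rw [← sum_inner, Finset.sum_add_distrib, ← Finset.smul_sum, hsum, hpert_sum]
    simp
  have hall : ∀ g, ⟪w g + ε • pert g, x⟫_ℝ = 0 := by
    intro g
    exact (Finset.sum_eq_zero_iff_of_nonpos (fun g _ => hcon g)).mp hs g (Finset.mem_univ g)
  -- injectivity of the perturbed map
  have hTinj : Function.Injective (T + ε • (1 : Module.End ℝ E)) := by
    rw [← LinearMap.ker_eq_bot]
    by_contra hne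
    apply hεn
    simp only [mem_ofPred_eq]
    obtain ⟨y, hy, hy0⟩ := Submodule.exists_mem_ne_zero_of_ne_bot hne
    apply Module.End.hasEigenvalue_of_hasEigenvector (x := y)
    rw [Module.End.hasEigenvector_iff, Module.End.mem_eigenspace_iff]
    refine ⟨?_, hy0⟩
    rw [LinearMap.mem_ker, LinearMap.add_apply, LinearMap.smul_apply, Module.End.one_apply] at hy
    rw [neg_smul]
    exact eq_neg_of_add_eq_zero_left hy
  have hTsurj : Function.Surjective (T + ε • (1 : Module.End ℝ E)) :=
    LinearMap.injective_iff_surjective.mp hTinj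
  obtain ⟨y, hy⟩ := hTsurj x
  have h1 : (T + ε • (1 : Module.End ℝ E)) y = ∑ i, B.repr y i • (w (emb i) + ε • pert (emb i)) := by
    conv_lhs => rw [← B.sum_repr y]
    rw [map_sum]
    apply Finset.sum_congr rfl
    intro i _
    rw [map_smul, LinearMap.add_apply, LinearMap.smul_apply, Module.End.one_apply, hpert_emb]
    simp [T]
  have h2 : ⟪x, x⟫_ℝ = 0 := by
    nth_rewrite 1 [← hy]
    rw [h1, sum_inner]
    apply Finset.sum_eq_zero
    intro i _
    rw [real_inner_smul_left, hall, mul_zero]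
  exact hx (inner_self_eq_zero.mp h2)

end Pool.Agent.Lib.MP_5e7226_co
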