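import Pool.Agent.Lib.MP_5e7226_co.Reduction

set_option autoImplicit false
set_option linter.unusedSectionVars false

open Set Filter Topology

namespace Pool.Agent.Lib.MP_5e7226_co

variable {d : ℕ} {E : Type*} [NormedAddCommGroup E] [NormedSpace ℝ E]

/-- Coordinates with respect to the vertices `v` of a simplex centred at the origin. -/
structure Coords (d : ℕ) (E : Type*) [NormedAddCommGroup E] [NormedSpace ℝ E] where
  v : Fin (d + 1) → E
  c : Fin (d + 1) → (E →L[ℝ] ℝ)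
  rep : ∀ x, ∑ i, c i x • v i = x
  sum_zero : ∀ x, ∑ i, c i x = 0
  eval : ∀ i j, c i (v j) = (if i = j then 1 else 0) - 1 / (d + 1 : ℝ)

namespace Coords

variable (C : Coords d E)

/-- swap of two coordinates -/
def sw (i j : Fin (d + 1)) (x : E) : E := x + (C.c j x - C.c i x) • (C.v i - C.v j)

lemma c_sw (i j k : Fin (d + 1)) (x : E) :
    C.c k (C.sw i j x) = C.c k x
      + (C.c j x - C.c i x) * ((if k = i then 1 else 0) - (if k = j then 1 else 0)) := by
  unfold sw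
  rw [map_add, map_smul, map_sub, C.eval, C.eval, smul_eq_mul]
  ring

lemma c_sw_left {i j : Fin (d + 1)} (h : i ≠ j) (x : E) : C.c i (C.sw i j x) = C.c j x := by
  rw [c_sw]; simp [h]

lemma c_sw_right {i j : Fin (d + 1)} (h : i ≠ j) (x : E) : C.c j (C.sw i j x) = C.c i x := by
  rw [c_sw]; simp [h.symm]

lemma c_sw_other {i j k : Fin (d + 1)} (hi : k ≠ i) (hj : k ≠ j) (x : E) :
    C.c k (C.sw i j x) = C.c k x := by
  rw [c_sw]; simp [hi, hj]

lemma f_rep (f : E →L[ℝ] ℝ) (x : E) : f x = ∑ i, C.c i x * f (C.v i) := by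
  conv_lhs => rw [← C.rep x]
  rw [map_sum]
  exact Finset.sum_congr rfl (fun i _ => by rw [map_smul, smul_eq_mul])

lemma ext_c {x y : E} (h : ∀ i, C.c i x = C.c i y) : x = y := by
  rw [← C.rep x, ← C.rep y]
  exact Finset.sum_congr rfl (fun i _ => by rw [h])

lemma eq_zero_of {x : E} (h : ∀ i j, C.c i x = C.c j x) : x = 0 := by
  have h0 : ∀ i, C.c i x = 0 := by
    intro i
    have hs := C.sum_zero x
    have : ∑ j, C.c j x = ((d : ℝ) + 1) * C.c i x := by
      rw [Finset.sum_congr rfl (fun j _ => h j i)]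
      simp
    rw [this] at hs
    have hd : (0 : ℝ) < d + 1 := by positivity
    exact (mul_eq_zero.mp hs).resolve_left hd.ne'
  apply C.ext_c
  intro i
  rw [h0 i, map_zero]

/-- invariance under swaps -/
def Inv (K : Set E) : Prop := ∀ i j, ∀ x ∈ K, C.sw i j x ∈ K

variable {C}

lemma ordered {K : Set E} (hinv : C.Inv K) {f : E →L[ℝ] ℝ} {x : E} (hx : x ∈ face K f)
    {i j : Fin (d + 1)} (h : f (C.v j) < f (C.v i)) : C.c j x ≤ C.c i x := by
  have h1 := hx.2 _ (hinv i j x hx.1)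
  unfold sw at h1
  rw [map_add, map_smul, map_sub, smul_eq_mul] at h1
  by_contra hcon
  push Not at hcon
  nlinarith [mul_pos (sub_pos.mpr hcon) (sub_pos.mpr h)]

variable (C)

/-- the functional attached to a set of indices `A`, with `0` as the neutral index -/
noncomputable def W (A : Finset (Fin d)) : E →L[ℝ] ℝ :=
  ∑ i ∈ A, ∑ j ∈ Aᶜ, (C.c i.succ - C.c j.succ)

/-- sum of coordinates in `A` -/
noncomputable def fA (A : Finset (Fin d)) : E →L[ℝ] ℝ := ∑ i ∈ A, C.c i.succ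

lemma W_apply (A : Finset (Fin d)) (x : E) :
    C.W A x = ∑ i ∈ A, ∑ j ∈ Aᶜ, (C.c i.succ x - C.c j.succ x) := by
  simp [W]

lemma fA_apply (A : Finset (Fin d)) (x : E) : C.fA A x = ∑ i ∈ A, C.c i.succ x := by
  simp [fA]

lemma total (A : Finset (Fin d)) (x : E) : C.c 0 x + C.fA A x + C.fA Aᶜ x = 0 := by
  have h := C.sum_zero x
  rw [Fin.sum_univ_succ] at h
  rw [fA_apply, fA_apply, add_assoc, Finset.sum_add_sum_compl]
  exact h

lemma card_compl_real (A : Finset (Fin d)) : ((Aᶜ.card : ℝ)) = d - A.card := by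
  have h := Finset.card_add_card_compl A
  rw [Fintype.card_fin] at h
  have : ((A.card + Aᶜ.card : ℕ) : ℝ) = d := by exact_mod_cast h
  push_cast at this
  linarith

lemma W_eq (A : Finset (Fin d)) (x : E) :
    C.W A x = Aᶜ.card * C.fA A x - A.card * C.fA Aᶜ x := by
  rw [W_apply, fA_apply, fA_apply]
  simp only [Finset.sum_sub_distrib, Finset.sum_const, nsmul_eq_mul]
  rw [← Finset.mul_sum]

lemma W_eq' (A : Finset (Fin d)) (x : E) :
    C.W A x = d * C.fA A x + A.card * C.c 0 x := by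
  rw [W_eq, card_compl_real A]
  have h := C.total A x
  have h2 : C.fA Aᶜ x = - C.c 0 x - C.fA A x := by linarith
  rw [h2]; ring

lemma W_eq'' (A : Finset (Fin d)) (x : E) :
    C.W A x = -(d * C.fA Aᶜ x) - Aᶜ.card * C.c 0 x := by
  rw [W_eq, card_compl_real A]
  have h := C.total A x
  have h2 : C.fA A x = - C.c 0 x - C.fA Aᶜ x := by linarith
  rw [h2]; ring

/-- nonnegativity, and the case of equality -/
lemma W_nonneg {A : Finset (Fin d)} {x : E}
    (h : ∀ i ∈ A, ∀ j ∈ Aᶜ, C.c j.succ x ≤ C.c i.succ x) : 0 ≤ C.W A x := by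
  rw [W_apply]
  exact Finset.sum_nonneg fun i hi => Finset.sum_nonneg fun j hj => sub_nonneg.mpr (h i hi j hj)

lemma of_W_zero {A : Finset (Fin d)} (hA : A.Nonempty) (hA' : Aᶜ.Nonempty) {x : E}
    (h : ∀ i ∈ A, ∀ j ∈ Aᶜ, C.c j.succ x ≤ C.c i.succ x) (h0 : C.W A x = 0) :
    ∀ i : Fin d, C.c i.succ x = -(1 / d) * C.c 0 x := by
  rw [W_apply] at h0
  have h1 : ∀ i ∈ A, ∑ j ∈ Aᶜ, (C.c i.succ x - C.c j.succ x) = 0 :=
    (Finset.sum_eq_zero_iff_of_nonneg (fun i hi =>
      Finset.sum_nonneg fun j hj => sub_nonneg.mpr (h i hi j hj))).mp h0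
  have h2 : ∀ i ∈ A, ∀ j ∈ Aᶜ, C.c i.succ x = C.c j.succ x := by
    intro i hi j hj
    have := (Finset.sum_eq_zero_iff_of_nonneg (fun j hj =>
      sub_nonneg.mpr (h i hi j hj))).mp (h1 i hi) j hj
    linarith
  obtain ⟨a, ha⟩ := hA
  obtain ⟨b, hb⟩ := hA'
  have h3 : ∀ i : Fin d, C.c i.succ x = C.c a.succ x := by
    intro i
    by_cases hi : i ∈ A
    · rw [h2 i hi b hb, h2 a ha b hb]
    · rw [h2 a ha i (Finset.mem_compl.mpr hi)]
  have hs := C.sum_zero x
  rw [Fin.sum_univ_succ, Finset.sum_congr rfl (fun i _ => h3 i)] at hs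
  simp only [Finset.sum_const, Finset.card_univ, Fintype.card_fin, nsmul_eq_mul] at hs
  intro i
  rw [h3 i]
  have hd : (0 : ℝ) < d := by
    have : 0 < d := lt_of_le_of_lt (Nat.zero_le _) a.2
    exact_mod_cast this
  field_simp
  linarith

/-- the vector with equal coordinates outside `0` -/
lemma eq_smul_v {x : E} (hd : 0 < d) (h : ∀ i : Fin d, C.c i.succ x = -(1 / d) * C.c 0 x) :
    x = (((d : ℝ) + 1) / d * C.c 0 x) • C.v 0 := by
  have hd' : (0 : ℝ) < d := by exact_mod_cast hd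
  apply C.ext_c
  intro i
  rw [map_smul, smul_eq_mul, C.eval]
  refine Fin.cases ?_ (fun i => ?_) i
  · simp only [if_true]
    field_simp
    ring
  · rw [h i, if_neg (Fin.succ_ne_zero i)]
    field_simp
    ring

/-- ordered with `0` below -/
lemma pos_minus {A : Finset (Fin d)} (hA : A.Nonempty) {x : E} (hx : x ≠ 0)
    (h : ∀ i ∈ A, ∀ j ∈ Aᶜ, C.c j.succ x ≤ C.c i.succ x) (h0 : ∀ i ∈ A, C.c 0 x ≤ C.c i.succ x)
    {ε : ℝ} (hε : 0 < ε) (hε1 : ε < 1) : 0 < C.W A x - ε * C.c 0 x := by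
  have hW := C.W_nonneg h
  have hk : (1 : ℝ) ≤ A.card := by exact_mod_cast Finset.card_pos.mpr hA
  have hsum : A.card * C.c 0 x ≤ C.fA A x := by
    rw [fA_apply, ← nsmul_eq_mul]
    exact Finset.card_nsmul_le_sum _ _ _ h0
  have hd' : (1 : ℝ) ≤ d := by
    obtain ⟨a, -⟩ := hA
    have : 0 < d := lt_of_le_of_lt (Nat.zero_le _) a.2
    exact_mod_cast this
  rcases lt_trichotomy (C.c 0 x) 0 with h1 | h1 | h1
  · nlinarith
  · rw [h1, mul_zero, sub_zero]
    have h2 := C.W_eq' A x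
    rw [h1, mul_zero, add_zero] at h2
    rw [h1, mul_zero] at hsum
    rcases hsum.eq_or_lt with h3 | h3
    · exfalso
      -- all coordinates vanish
      apply hx
      have h4 : ∀ i ∈ A, C.c i.succ x = 0 := by
        have h5 : ∑ i ∈ A, C.c i.succ x = 0 := by rw [← fA_apply, ← h3]
        have h6 : ∀ i ∈ A, 0 ≤ C.c i.succ x := fun i hi => by rw [← h1]; exact h0 i hi
        exact (Finset.sum_eq_zero_iff_of_nonneg h6).mp h5
      have h5 : C.fA Aᶜ x = 0 := by
        have := C.total A x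
        rw [h1, ← h3] at this
        linarith
      have h6 : ∀ j ∈ Aᶜ, C.c j.succ x = 0 := by
        obtain ⟨a, ha⟩ := hA
        have h7 : ∀ j ∈ Aᶜ, C.c j.succ x ≤ 0 := fun j hj => by
          rw [← h4 a ha]; exact h a ha j hj
        rw [fA_apply] at h5
        exact (Finset.sum_eq_zero_iff_of_nonpos h7).mp h5
      apply C.ext_c
      intro i
      rw [map_zero]
      refine Fin.cases h1 (fun i => ?_) i
      by_cases hi : i ∈ A
      · exact h4 i hi
      · exact h6 i (Finset.mem_compl.mpr hi)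
    · rw [h2]; positivity
  · have h2 := C.W_eq' A x
    have h3 : 0 < C.fA A x := by nlinarith
    have h4 : C.c 0 x ≤ C.fA A x := by nlinarith
    rw [h2]
    nlinarith

/-- ordered with `0` above -/
lemma pos_plus {A : Finset (Fin d)} (hA' : Aᶜ.Nonempty) {x : E} (hx : x ≠ 0)
    (h : ∀ i ∈ A, ∀ j ∈ Aᶜ, C.c j.succ x ≤ C.c i.succ x) (h0 : ∀ j ∈ Aᶜ, C.c j.succ x ≤ C.c 0 x)
    {ε : ℝ} (hε : 0 < ε) (hε1 : ε < 1) : 0 < C.W A x + ε * C.c 0 x := by
  have hW := C.W_nonneg h
  have hk : (1 : ℝ) ≤ Aᶜ.card := by exact_mod_cast Finset.card_pos.mpr hA'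
  have hsum : C.fA Aᶜ x ≤ Aᶜ.card * C.c 0 x := by
    rw [fA_apply, ← nsmul_eq_mul]
    exact Finset.sum_le_card_nsmul _ _ _ h0
  have hd' : (1 : ℝ) ≤ d := by
    obtain ⟨a, -⟩ := hA'
    have : 0 < d := lt_of_le_of_lt (Nat.zero_le _) a.2
    exact_mod_cast this
  rcases lt_trichotomy (C.c 0 x) 0 with h1 | h1 | h1
  · have h2 := C.W_eq'' A x
    have h3 : C.fA Aᶜ x < 0 := by nlinarith
    have h4 : C.fA Aᶜ x ≤ C.c 0 x := by nlinarith
    rw [h2]
    nlinarith
  · rw [h1, mul_zero, add_zero]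
    have h2 := C.W_eq'' A x
    rw [h1, mul_zero, sub_zero] at h2
    rw [h1, mul_zero] at hsum
    rcases hsum.eq_or_lt with h3 | h3
    · exfalso
      apply hx
      have h4 : ∀ j ∈ Aᶜ, C.c j.succ x = 0 := by
        have h5 : ∑ j ∈ Aᶜ, C.c j.succ x = 0 := by rw [← fA_apply, h3]
        have h6 : ∀ j ∈ Aᶜ, C.c j.succ x ≤ 0 := fun j hj => by rw [← h1]; exact h0 j hj
        exact (Finset.sum_eq_zero_iff_of_nonpos h6).mp h5
      have h5 : C.fA A x = 0 := by
        have := C.total A x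
        rw [h1, h3] at this
        linarith
      have h6 : ∀ i ∈ A, C.c i.succ x = 0 := by
        obtain ⟨b, hb⟩ := hA'
        have h7 : ∀ i ∈ A, 0 ≤ C.c i.succ x := fun i hi => by
          rw [← h4 b hb]; exact h i hi b hb
        rw [fA_apply] at h5
        exact (Finset.sum_eq_zero_iff_of_nonneg h7).mp h5
      apply C.ext_c
      intro i
      rw [map_zero]
      refine Fin.cases h1 (fun i => ?_) i
      by_cases hi : i ∈ A
      · exact h6 i hi
      · exact h4 i (Finset.mem_compl.mpr hi)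
    · rw [h2]; nlinarith
  · nlinarith

end Coords

end Pool.Agent.Lib.MP_5e7226_co
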