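import Pool.Agent.Lib.MP_5e7226_co.SimpMain

set_option autoImplicit false
set_option linter.unusedSectionVars false

open Set Filter Topology

namespace Pool.Agent.Lib.MP_5e7226_co

section mk

variable {d : ℕ} {E : Type*} [NormedAddCommGroup E] [NormedSpace ℝ E] [FiniteDimensional ℝ E]

/-- Simplex coordinates from the vertices. -/
noncomputable def mkCoords (hE : Module.finrank ℝ E = d) (v : Fin (d + 1) → E)
    (hv : ∑ i, v i = 0) (hspan : Submodule.span ℝ (range v) = ⊤) : Coords d E := by
  have hv0 : v 0 = - ∑ i : Fin d, v i.succ := by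
    rw [Fin.sum_univ_succ] at hv
    exact eq_neg_of_add_eq_zero_left hv
  have hspan' : ⊤ ≤ Submodule.span ℝ (range fun i : Fin d => v i.succ) := by
    rw [← hspan, Submodule.span_le]
    rintro _ ⟨i, rfl⟩
    refine Fin.cases ?_ (fun i => ?_) i
    · rw [hv0]
      exact Submodule.neg_mem _ (Submodule.sum_mem _ fun i _ =>
        Submodule.subset_span ⟨i, rfl⟩)
    · exact Submodule.subset_span ⟨i, rfl⟩
  let b : Module.Basis (Fin d) ℝ E :=
    basisOfTopLeSpanOfCardEqFinrank (fun i : Fin d => v i.succ) hspan' (by simp [hE])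
  have hb : ∀ i, b i = v i.succ := fun i => by
    simp [b]
  let a : Fin d → (E →L[ℝ] ℝ) := fun i => LinearMap.toContinuousLinearMap (b.coord i)
  have ha : ∀ i j, a i (v j.succ) = if i = j then 1 else 0 := by
    intro i j
    simp only [a, ← hb j]
    rw [LinearMap.coe_toContinuousLinearMap', Module.Basis.coord_apply, Module.Basis.repr_self,
      Finsupp.single_apply]
    by_cases h : i = j
    · simp [h]
    · have : ¬ j = i := fun h' => h h'.symm
      simp [h, this]
  have ha0 : ∀ i, a i (v 0) = -1 := by
    intro i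
    rw [hv0, map_neg, map_sum, Finset.sum_congr rfl (fun j _ => ha i j)]
    simp
  have hrep : ∀ x, ∑ i, a i x • v i.succ = x := by
    intro x
    conv_rhs => rw [← b.sum_repr x]
    exact Finset.sum_congr rfl fun i _ => by rw [hb i]; rfl
  let s : E →L[ℝ] ℝ := ∑ i, a i
  have hs : ∀ x, s x = ∑ i, a i x := by intro x; simp [s]
  let c : Fin (d + 1) → (E →L[ℝ] ℝ) :=
    Fin.cases (-(1 / ((d : ℝ) + 1)) • s) (fun i => a i - (1 / ((d : ℝ) + 1)) • s)
  have hc0 : ∀ x, c 0 x = - (1 / ((d : ℝ) + 1)) * s x := by
    intro x; simp [c]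
  have hcs : ∀ (i : Fin d) x, c i.succ x = a i x - 1 / ((d : ℝ) + 1) * s x := by
    intro i x; simp [c]
  have hd : (0 : ℝ) < (d : ℝ) + 1 := by positivity
  refine ⟨v, c, ?_, ?_, ?_⟩
  · intro x
    rw [Fin.sum_univ_succ, hc0]
    have h1 : ∑ i : Fin d, c i.succ x • v i.succ
        = ∑ i : Fin d, a i x • v i.succ - (1 / ((d : ℝ) + 1) * s x) • ∑ i : Fin d, v i.succ := by
      rw [Finset.smul_sum, ← Finset.sum_sub_distrib]
      exact Finset.sum_congr rfl fun i _ => by rw [hcs, sub_smul]
    rw [h1, hrep, hv0]
    rw [smul_neg, ← neg_smul]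
    simp
  · intro x
    rw [Fin.sum_univ_succ, hc0, Finset.sum_congr rfl (fun i _ => hcs i x), Finset.sum_sub_distrib,
      ← hs x]
    simp only [Finset.sum_const, Finset.card_univ, Fintype.card_fin, nsmul_eq_mul]
    field_simp
    ring
  · intro i j
    refine Fin.cases ?_ (fun i => ?_) i
    · rw [hc0, hs]
      refine Fin.cases ?_ (fun j => ?_) j
      · rw [Finset.sum_congr rfl (fun i _ => ha0 i)]
        simp
        field_simp
        ring
      · rw [Finset.sum_congr rfl (fun i _ => ha i j)]
        rw [if_neg (Fin.succ_ne_zero j).symm]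
        simp
    · rw [hcs, hs]
      refine Fin.cases ?_ (fun j => ?_) j
      · rw [Finset.sum_congr rfl (fun i _ => ha0 i), ha0 i, if_neg (Fin.succ_ne_zero i)]
        simp
        field_simp
        ring
      · rw [Finset.sum_congr rfl (fun i _ => ha i j), ha i j]
        simp [Fin.succ_inj]

lemma mkCoords_v (hE : Module.finrank ℝ E = d) (v : Fin (d + 1) → E)
    (hv : ∑ i, v i = 0) (hspan : Submodule.span ℝ (range v) = ⊤) :
    (mkCoords hE v hv hspan).v = v := rfl

end mk

/-- Final form for bodies with the symmetries of a simplex. -/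
theorem simplex_final {d : ℕ} (K : Set (EuclideanSpace ℝ (Fin d))) (hconv : Convex ℝ K)
    (hK : IsCompact K) (o : EuclideanSpace ℝ (Fin d)) (ho : o ∈ interior K)
    (v : Fin (d + 1) → EuclideanSpace ℝ (Fin d)) (hv : ∑ i, v i = 0)
    (hspan : Submodule.span ℝ (range v) = ⊤)
    (hsym : ∀ (σ : Equiv.Perm (Fin (d + 1))) (c : Fin (d + 1) → ℝ),
      o + ∑ i, c i • v i ∈ K → o + ∑ i, c i • v (σ i) ∈ K) :
    ∃ w : Fin (2 ^ d) → EuclideanSpace ℝ (Fin d), ∃ b : Fin (2 ^ d) → ℝ,
      ∀ u x₀ : EuclideanSpace ℝ (Fin d), u ≠ 0 → x₀ ∈ K →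
        (∀ y ∈ K, inner ℝ u y ≤ inner ℝ u x₀) →
          ∃ i, inner ℝ (w i) o < b i ∧
            ∀ x ∈ K, inner ℝ u x = inner ℝ u x₀ → b i < inner ℝ (w i) x := by
  classical
  let C := mkCoords (finrank_euclideanSpace_fin (𝕜 := ℝ) (n := d)) v hv hspan
  apply sep_to_hyperplanes hK o
  have hK' : IsCompact ((fun x => x - o) '' K) := hK.image (continuous_id.sub continuous_const)
  have hmem : ∀ x, x ∈ (fun x => x - o) '' K ↔ o + x ∈ K := by
    intro x
    constructor
    · rintro ⟨y, hy, rfl⟩
      simpa using hy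
    · intro h
      exact ⟨o + x, h, by simp⟩
  have hconv' : Convex ℝ ((fun x => x - o) '' K) := by
    intro x hx y hy a b ha hb hab
    rw [hmem] at hx hy ⊢
    have := hconv hx hy ha hb hab
    have e : a • (o + x) + b • (o + y) = o + (a • x + b • y) := by
      rw [smul_add, smul_add]
      have : (a + b) • o = o := by rw [hab, one_smul]
      rw [add_smul] at this
      nth_rewrite 3 [← this]
      abel
    rwa [e] at this
  have h0 : (0 : EuclideanSpace ℝ (Fin d)) ∈ interior ((fun x => x - o) '' K) := by
    have h1 : (fun x => x - o) '' K = (fun x => o + x) ⁻¹' K := by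
      ext x
      rw [hmem]
      rfl
    rw [h1, mem_interior_iff_mem_nhds]
    have hc : ContinuousAt (fun x : EuclideanSpace ℝ (Fin d) => o + x) 0 := by fun_prop
    apply hc.preimage_mem_nhds
    rw [add_zero]
    exact mem_interior_iff_mem_nhds.mp ho
  have hinv : C.Inv ((fun x => x - o) '' K) := by
    intro i j x hx
    rw [hmem] at hx ⊢
    rw [← C.rep x] at hx
    have h1 := hsym (Equiv.swap i j) (fun k => C.c k x) hx
    have h2 : C.sw i j x = ∑ k, C.c k x • v (Equiv.swap i j k) := by
      by_cases hij : i = j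
      · subst hij
        have : C.sw i i x = x := by unfold Coords.sw; simp
        rw [this]
        conv_lhs => rw [← C.rep x]
        simp only [Equiv.swap_self, Equiv.refl_apply]
        rfl
      · have e1 : ∀ k, C.c k x • v (Equiv.swap i j k) = C.c k x • v k
            + ((if k = i then C.c i x • (v j - v i) else 0) + (if k = j then C.c j x • (v i - v j) else 0)) := by
          intro k
          by_cases g1 : k = i
          · subst g1
            rw [Equiv.swap_apply_left, if_pos rfl, if_neg hij, smul_sub]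
            abel
          · by_cases g2 : k = j
            · subst g2
              rw [Equiv.swap_apply_right, if_pos rfl, if_neg g1, smul_sub]
              abel
            · rw [Equiv.swap_apply_of_ne_of_ne g1 g2, if_neg g1, if_neg g2]
              simp
        rw [Finset.sum_congr rfl (fun k _ => e1 k), Finset.sum_add_distrib, Finset.sum_add_distrib,
          Finset.sum_ite_eq', Finset.sum_ite_eq', if_pos (Finset.mem_univ _),
          if_pos (Finset.mem_univ _)]
        have e2 : ∑ k, C.c k x • v k = x := C.rep x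
        rw [e2]
        unfold Coords.sw
        have e3 : C.v = v := rfl
        rw [e3, sub_smul, smul_sub, smul_sub, smul_sub]
        abel
    rw [h2]
    exact h1
  exact C.sep_simplex hK' hconv' hinv h0

end Pool.Agent.Lib.MP_5e7226_co
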