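import Pool.Agent.Lib.MP_5e7226_co.Simp

set_option autoImplicit false
set_option linter.unusedSectionVars false

open Set Filter Topology

namespace Pool.Agent.Lib.MP_5e7226_co

namespace Coords

variable {d : ℕ} {E : Type*} [NormedAddCommGroup E] [NormedSpace ℝ E] (C : Coords d E)

/-- Averaging over a set of coordinates. -/
lemma avg {K : Set E} (hK : IsCompact K) (hconv : Convex ℝ K) (hinv : C.Inv K) {y : E}
    (hy : y ∈ K) (B : Finset (Fin (d + 1))) :
    ∃ z ∈ K, (∀ k ∉ B, C.c k z = C.c k y) ∧ ∀ i ∈ B, ∀ j ∈ B, C.c i z = C.c j z := by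
  classical
  let S : Set E := {z | z ∈ K ∧ ∀ k ∉ B, C.c k z = C.c k y}
  have hS : IsCompact S := by
    have h1 : IsClosed {z : E | ∀ k ∉ B, C.c k z = C.c k y} := by
      have : {z : E | ∀ k ∉ B, C.c k z = C.c k y}
          = ⋂ k, ⋂ (_ : k ∉ B), {z : E | C.c k z = C.c k y} := by
        ext z; simp
      rw [this]
      exact isClosed_iInter fun k => isClosed_iInter fun _ =>
        isClosed_eq (C.c k).continuous continuous_const
    exact hK.inter_right h1
  have hne : S.Nonempty := ⟨y, hy, fun k _ => rfl⟩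
  let g : E → ℝ := fun z => ∑ i ∈ B, (C.c i z) ^ 2
  have hg : ContinuousOn g S := by
    apply Continuous.continuousOn
    exact continuous_finsetSum _ fun i _ => ((C.c i).continuous.pow 2)
  obtain ⟨z, hzS, hmin⟩ := hS.exists_isMinOn hne hg
  refine ⟨z, hzS.1, hzS.2, ?_⟩
  intro i hi j hj
  by_contra hij
  have hne' : i ≠ j := fun h => hij (by rw [h])
  set t : ℝ := C.c j z - C.c i z with ht
  let z' : E := (1 / 2 : ℝ) • z + (1 / 2 : ℝ) • C.sw i j z
  have hz'K : z' ∈ K := hconv hzS.1 (hinv i j z hzS.1) (by norm_num) (by norm_num) (by norm_num)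
  have hck : ∀ k, C.c k z' = C.c k z + t / 2 * ((if k = i then 1 else 0) - (if k = j then 1 else 0)) := by
    intro k
    simp only [z', map_add, map_smul, smul_eq_mul]
    rw [C.c_sw]
    ring
  have hz'S : z' ∈ S := by
    refine ⟨hz'K, ?_⟩
    intro k hk
    rw [hck k, ← hzS.2 k hk]
    have h1 : k ≠ i := fun h => hk (h ▸ hi)
    have h2 : k ≠ j := fun h => hk (h ▸ hj)
    simp [h1, h2]
  have hle : g z ≤ g z' := hmin hz'S
  have hgz' : g z' = g z - t ^ 2 / 2 := by
    have h1 : ∀ k ∈ B, (C.c k z') ^ 2 = (C.c k z) ^ 2 + ((if k = i then t * C.c i z + t ^ 2 / 4 else 0)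
        + (if k = j then - t * C.c j z + t ^ 2 / 4 else 0)) := by
      intro k _
      rw [hck k]
      by_cases h1 : k = i
      · subst h1
        simp only [if_true, if_neg hne']
        ring
      · by_cases h2 : k = j
        · subst h2
          simp only [if_true, if_neg h1]
          ring
        · simp [h1, h2]
    change ∑ k ∈ B, (C.c k z') ^ 2 = ∑ k ∈ B, (C.c k z) ^ 2 - t ^ 2 / 2
    rw [Finset.sum_congr rfl h1, Finset.sum_add_distrib, Finset.sum_add_distrib,
      Finset.sum_ite_eq', Finset.sum_ite_eq', if_pos hi, if_pos hj]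
    rw [ht]
    ring
  have ht0 : t ≠ 0 := by
    intro h
    apply hij
    rw [ht] at h
    linarith
  have : 0 < t ^ 2 := by positivity
  linarith

/-- sum over all is zero, in split form -/
lemma sum_compl (B : Finset (Fin (d + 1))) (x y : E) (h : ∀ k ∉ B, C.c k x = C.c k y) :
    ∑ i ∈ B, C.c i x = ∑ i ∈ B, C.c i y := by
  classical
  have h1 := C.sum_zero x
  have h2 := C.sum_zero y
  rw [← Finset.sum_add_sum_compl B] at h1 h2
  have h3 : ∑ i ∈ Bᶜ, C.c i x = ∑ i ∈ Bᶜ, C.c i y :=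
    Finset.sum_congr rfl fun k hk => h k (Finset.mem_compl.mp hk)
  linarith

/-- `A` as a set of nonzero indices -/
def up (A : Finset (Fin d)) : Finset (Fin (d + 1)) := A.map (Fin.succEmb d)

lemma mem_up {A : Finset (Fin d)} {i : Fin d} : i.succ ∈ up A ↔ i ∈ A := by
  simp [up]

lemma zero_not_up {A : Finset (Fin d)} : (0 : Fin (d + 1)) ∉ up A := by
  simp [up, Fin.succ_ne_zero]

lemma sum_up (A : Finset (Fin d)) (g : Fin (d + 1) → ℝ) : ∑ i ∈ up A, g i = ∑ i ∈ A, g i.succ := by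
  simp [up]

/-- Averaging over `A`, summary: for each `y ∈ K` there is `z ∈ K` with all coordinates in `A`
equal to the mean and the others unchanged. -/
lemma avgA {K : Set E} (hK : IsCompact K) (hconv : Convex ℝ K) (hinv : C.Inv K) {y : E}
    (hy : y ∈ K) (A : Finset (Fin d)) :
    ∃ z ∈ K, ∀ i ∈ A, (A.card : ℝ) * C.c i.succ z = C.fA A y := by
  obtain ⟨z, hz, h1, h2⟩ := C.avg hK hconv hinv hy (up A)
  refine ⟨z, hz, ?_⟩
  intro i hi
  have h3 : C.fA A z = C.fA A y := by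
    rw [fA_apply, fA_apply, ← sum_up A (fun k => C.c k z), ← sum_up A (fun k => C.c k y)]
    exact C.sum_compl (up A) z y h1
  rw [← h3, fA_apply, ← nsmul_eq_mul, ← Finset.sum_const]
  exact Finset.sum_congr rfl fun j hj => h2 _ (mem_up.mpr hi) _ (mem_up.mpr hj)

/-- the formula for `f` when it is constant `m` outside `A` (including `0`) -/
lemma f_low (f : E →L[ℝ] ℝ) (A : Finset (Fin d)) (h : ∀ j ∈ Aᶜ, f (C.v j.succ) = f (C.v 0)) (x : E) :
    f x = ∑ i ∈ A, C.c i.succ x * (f (C.v i.succ) - f (C.v 0)) := by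
  rw [C.f_rep f x, Fin.sum_univ_succ, ← Finset.sum_add_sum_compl A]
  have h1 : ∑ j ∈ Aᶜ, C.c j.succ x * f (C.v j.succ) = (∑ j ∈ Aᶜ, C.c j.succ x) * f (C.v 0) := by
    rw [Finset.sum_mul]
    exact Finset.sum_congr rfl fun j hj => by rw [h j hj]
  have h2 : ∑ i ∈ A, C.c i.succ x * (f (C.v i.succ) - f (C.v 0))
      = ∑ i ∈ A, C.c i.succ x * f (C.v i.succ) - (∑ i ∈ A, C.c i.succ x) * f (C.v 0) := by
    rw [Finset.sum_mul, ← Finset.sum_sub_distrib]
    exact Finset.sum_congr rfl fun j _ => by ring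
  rw [h1, h2]
  have h3 := C.total A x
  rw [fA_apply, fA_apply] at h3
  have h4 : C.c 0 x = -(∑ i ∈ A, C.c i.succ x) - ∑ j ∈ Aᶜ, C.c j.succ x := by linarith
  rw [h4]
  ring

/-- the sign rule -/
def sg (K : Set E) (A : Finset (Fin d)) : Prop := ∃ l : ℝ, 0 < l ∧ -(l • C.v 0) ∈ face K (C.fA A)

/-- the value of the coordinates on multiples of `v 0` -/
lemma c_zero_v (l : ℝ) : C.c 0 (l • C.v 0) = l * d / (d + 1) := by
  rw [map_smul, smul_eq_mul, C.eval, if_pos rfl]
  have : (0 : ℝ) < d + 1 := by positivity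
  field_simp
  ring

lemma c_succ_v (l : ℝ) (i : Fin d) : C.c i.succ (l • C.v 0) = - l / (d + 1) := by
  rw [map_smul, smul_eq_mul, C.eval, if_neg (Fin.succ_ne_zero i)]
  ring

lemma fA_v (l : ℝ) (A : Finset (Fin d)) : C.fA A (l • C.v 0) = - l * A.card / (d + 1) := by
  rw [fA_apply, Finset.sum_congr rfl (fun i _ => C.c_succ_v l i), Finset.sum_const, nsmul_eq_mul]
  ring

lemma fA_v_mem (l : ℝ) {A : Finset (Fin d)} {i : Fin d} (hi : i ∈ A) :
    C.fA A (l • C.v i.succ) = l * (1 - A.card / (d + 1)) := by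
  rw [fA_apply]
  have : ∀ k ∈ A, C.c k.succ (l • C.v i.succ) = (if k = i then l else 0) - l / (d + 1) := by
    intro k _
    rw [map_smul, smul_eq_mul, C.eval]
    by_cases h : k = i
    · subst h; simp; ring
    · have : k.succ ≠ i.succ := fun h' => h (Fin.succ_injective _ h')
      simp [h]
      ring
  rw [Finset.sum_congr rfl this, Finset.sum_sub_distrib, Finset.sum_ite_eq', if_pos hi,
    Finset.sum_const, nsmul_eq_mul]
  ring

lemma sw_v (l : ℝ) (i : Fin d) : C.sw 0 i.succ (l • C.v 0) = l • C.v i.succ := by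
  unfold sw
  rw [c_zero_v, c_succ_v]
  have : (-l / ((d : ℝ) + 1) - l * d / (d + 1)) = - l := by
    have : (0 : ℝ) < d + 1 := by positivity
    field_simp
    ring
  rw [this, smul_sub, neg_smul, neg_smul]
  abel

/-- First averaging argument -/
lemma sg_of_low {K : Set E} (hK : IsCompact K) (hconv : Convex ℝ K) (hinv : C.Inv K)
    {f : E →L[ℝ] ℝ} {A : Finset (Fin d)} (hA : A.Nonempty)
    (h : ∀ j ∈ Aᶜ, f (C.v j.succ) = f (C.v 0)) (h' : ∀ i ∈ A, f (C.v 0) < f (C.v i.succ))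
    {l : ℝ} (hl : 0 < l) (hmem : -(l • C.v 0) ∈ face K f) : C.sg K A := by
  refine ⟨l, hl, hmem.1, ?_⟩
  intro y hy
  obtain ⟨z, hz, hz'⟩ := C.avgA hK hconv hinv hy A
  have h1 := hmem.2 z hz
  set U : ℝ := ∑ i ∈ A, (f (C.v i.succ) - f (C.v 0)) with hU
  have hUpos : 0 < U := Finset.sum_pos (fun i hi => sub_pos.mpr (h' i hi)) hA
  have hk : (0 : ℝ) < A.card := by exact_mod_cast Finset.card_pos.mpr hA
  have e1 : (A.card : ℝ) * f z = C.fA A y * U := by
    rw [C.f_low f A h z, Finset.mul_sum, hU, Finset.mul_sum]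
    refine Finset.sum_congr rfl fun i hi => ?_
    rw [← hz' i hi]
    ring
  have e2 : f (-(l • C.v 0)) = l / (d + 1) * U := by
    rw [C.f_low f A h, hU, Finset.mul_sum]
    refine Finset.sum_congr rfl fun i hi => ?_
    rw [map_neg, C.c_succ_v]
    ring
  have e3 : C.fA A (-(l • C.v 0)) = l * A.card / (d + 1) := by
    rw [map_neg, C.fA_v]
    ring
  rw [e3]
  rw [e2] at h1
  have h2 : C.fA A y * U ≤ (l * A.card / (d + 1)) * U := by
    rw [← e1]
    have := mul_le_mul_of_nonneg_left h1 hk.le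
    calc (A.card : ℝ) * f z ≤ A.card * (l / (d + 1) * U) := this
      _ = _ := by ring
  exact le_of_mul_le_mul_right h2 hUpos

/-- the formula for `f` when it is constant outside `Aᶜ` -/
lemma f_high (f : E →L[ℝ] ℝ) (A : Finset (Fin d)) (h : ∀ i ∈ A, f (C.v i.succ) = f (C.v 0)) (x : E) :
    f x = ∑ j ∈ Aᶜ, C.c j.succ x * (f (C.v j.succ) - f (C.v 0)) :=
  C.f_low f Aᶜ (by rw [compl_compl]; exact h) x

/-- Second averaging argument -/
lemma high_contra {K : Set E} (hK : IsCompact K) (hconv : Convex ℝ K) (hinv : C.Inv K)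
    {f : E →L[ℝ] ℝ} {A : Finset (Fin d)} (hA : A.Nonempty) (hA' : Aᶜ.Nonempty)
    (h : ∀ i ∈ A, f (C.v i.succ) = f (C.v 0)) (h' : ∀ j ∈ Aᶜ, f (C.v j.succ) < f (C.v 0))
    {μ : ℝ} (hμ : 0 < μ) (hmem : μ • C.v 0 ∈ face K f) (hsg : C.sg K A) : False := by
  obtain ⟨l, hl, hl'⟩ := hsg
  -- all negative multiples are in `K`
  obtain ⟨a, ha⟩ := hA
  obtain ⟨b, hb⟩ := hA'
  have hd : (0 : ℝ) < (d : ℝ) + 1 := by positivity
  have hka : (0 : ℝ) < A.card := by exact_mod_cast Finset.card_pos.mpr ⟨a, ha⟩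
  have hkb : (0 : ℝ) < Aᶜ.card := by exact_mod_cast Finset.card_pos.mpr ⟨b, hb⟩
  have m1 : μ • C.v a.succ ∈ K := by
    have := hinv 0 a.succ _ hmem.1
    rwa [C.sw_v] at this
  have m2 : (-l) • C.v b.succ ∈ K := by
    have h1 : (-l) • C.v 0 ∈ K := by
      rw [neg_smul]; exact hl'.1
    have := hinv 0 b.succ _ h1
    rwa [C.sw_v] at this
  -- first inequality
  have i1 := hl'.2 _ m1
  rw [C.fA_v_mem μ ha, map_neg, C.fA_v] at i1
  -- second inequality
  obtain ⟨z, hz, hz'⟩ := C.avgA hK hconv hinv m2 Aᶜ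
  have h1 := hmem.2 z hz
  set U : ℝ := ∑ j ∈ Aᶜ, (f (C.v 0) - f (C.v j.succ)) with hU
  have hUpos : 0 < U := Finset.sum_pos (fun i hi => sub_pos.mpr (h' i hi)) ⟨b, hb⟩
  have e1 : (Aᶜ.card : ℝ) * f z = - C.fA Aᶜ ((-l) • C.v b.succ) * U := by
    rw [C.f_high f A h z, Finset.mul_sum, hU, Finset.mul_sum]
    refine Finset.sum_congr rfl fun i hi => ?_
    rw [← hz' i hi]
    ring
  have e2 : f (μ • C.v 0) = μ / (d + 1) * U := by
    rw [C.f_high f A h, hU, Finset.mul_sum]
    refine Finset.sum_congr rfl fun i hi => ?_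
    rw [C.c_succ_v]
    ring
  rw [C.fA_v_mem (-l) hb] at e1
  rw [e2] at h1
  have i2 : l * (1 - Aᶜ.card / (d + 1)) ≤ μ * Aᶜ.card / (d + 1) := by
    have := mul_le_mul_of_nonneg_left h1 hkb.le
    have h3 : (l * (1 - Aᶜ.card / (d + 1))) * U ≤ (μ * Aᶜ.card / (d + 1)) * U := by
      calc (l * (1 - Aᶜ.card / (d + 1))) * U = (Aᶜ.card : ℝ) * f z := by rw [e1]; ring
        _ ≤ Aᶜ.card * (μ / (d + 1) * U) := this
        _ = _ := by ring
    exact le_of_mul_le_mul_right h3 hUpos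
  rw [card_compl_real A] at i2
  -- clear denominators
  have j1 : μ * ((d : ℝ) + 1 - A.card) ≤ l * A.card := by
    have e : μ * (1 - A.card / ((d : ℝ) + 1)) = μ * ((d : ℝ) + 1 - A.card) / (d + 1) := by
      field_simp
    have e'' : -(-l * A.card / ((d : ℝ) + 1)) = l * A.card / (d + 1) := by ring
    rw [e, e''] at i1
    have i1' : μ * ((d : ℝ) + 1 - A.card) / (d + 1) ≤ l * A.card / (d + 1) := by
      simpa using i1
    exact (div_le_div_iff_of_pos_right hd).mp i1'
  have j2 : l * ((A.card : ℝ) + 1) ≤ μ * (d - A.card) := by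
    have e : l * (1 - (d - A.card) / ((d : ℝ) + 1)) = l * ((A.card : ℝ) + 1) / (d + 1) := by
      field_simp
      ring
    rw [e] at i2
    exact (div_le_div_iff_of_pos_right hd).mp i2
  nlinarith

end Coords

end Pool.Agent.Lib.MP_5e7226_co
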