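import Pool.Agent.Lib.MP_5e7226_co.SimpLocal

set_option autoImplicit false
set_option linter.unusedSectionVars false

open Set Filter Topology

namespace Pool.Agent.Lib.MP_5e7226_co

namespace Coords

variable {d : ℕ} {E : Type*} [NormedAddCommGroup E] [NormedSpace ℝ E] (C : Coords d E)

open Classical in
/-- the family of functionals -/
noncomputable def F (K : Set E) (ε : ℝ) (A : Finset (Fin d)) : E →L[ℝ] ℝ :=
  if A = ∅ then C.c 0 else if A = Finset.univ then -C.c 0 else
    C.W A + (if C.sg K A then -ε else ε) • C.c 0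

lemma F_empty (K : Set E) (ε : ℝ) (x : E) : C.F K ε ∅ x = C.c 0 x := by
  simp [F]

lemma F_univ (K : Set E) (ε : ℝ) {x : E} (h : (Finset.univ : Finset (Fin d)) ≠ ∅) :
    C.F K ε Finset.univ x = -C.c 0 x := by
  simp only [F, if_neg h, if_true]
  rfl

lemma F_sg {K : Set E} {ε : ℝ} {A : Finset (Fin d)} (hA : A.Nonempty) (hA' : Aᶜ.Nonempty)
    (h : C.sg K A) (x : E) : C.F K ε A x = C.W A x - ε * C.c 0 x := by
  have h1 : A ≠ ∅ := hA.ne_empty
  have h2 : A ≠ Finset.univ := by
    rintro rfl
    simp at hA'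
  simp only [F, if_neg h1, if_neg h2, if_pos h]
  rw [add_apply, smul_apply, smul_eq_mul]
  ring

lemma F_nsg {K : Set E} {ε : ℝ} {A : Finset (Fin d)} (hA : A.Nonempty) (hA' : Aᶜ.Nonempty)
    (h : ¬ C.sg K A) (x : E) : C.F K ε A x = C.W A x + ε * C.c 0 x := by
  have h1 : A ≠ ∅ := hA.ne_empty
  have h2 : A ≠ Finset.univ := by
    rintro rfl
    simp at hA'
  simp only [F, if_neg h1, if_neg h2, if_neg h]
  rw [add_apply, smul_apply, smul_eq_mul]

lemma robust {K : Set E} (hK : IsCompact K) {f₀ : E →L[ℝ] ℝ} (A : Finset (Fin d)) (s : ℝ)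
    (h : ∀ x ∈ face K f₀, 0 < C.W A x) :
    ∀ᶠ z : ℝ × (E →L[ℝ] ℝ) in 𝓝 (0, f₀), ∀ x ∈ face K z.2, 0 < C.W A x + s * z.1 * C.c 0 x := by
  apply eventually_face hK (0 : ℝ) f₀ (fun ε _ x => 0 < C.W A x + s * ε * C.c 0 x)
  intro x hx
  have hc : Continuous (fun z : (ℝ × (E →L[ℝ] ℝ)) × E => C.W A z.2 + s * z.1.1 * C.c 0 z.2) := by
    fun_prop
  have h1 : 0 < (fun z : (ℝ × (E →L[ℝ] ℝ)) × E => C.W A z.2 + s * z.1.1 * C.c 0 z.2)
      (((0 : ℝ), f₀), x) := by
    have := h x hx
    simpa using this
  have := (hc.continuousAt (x := (((0 : ℝ), f₀), x))).eventually (lt_mem_nhds h1)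
  filter_upwards [this] with z hz _ using hz

lemma robustF {K : Set E} (hK : IsCompact K) {f₀ : E →L[ℝ] ℝ} {A : Finset (Fin d)}
    (hA : A.Nonempty) (hA' : Aᶜ.Nonempty) (h : ∀ x ∈ face K f₀, 0 < C.W A x) :
    ∀ᶠ z : ℝ × (E →L[ℝ] ℝ) in 𝓝 (0, f₀), ∀ x ∈ face K z.2, 0 < C.F K z.1 A x := by
  by_cases hsg : C.sg K A
  · filter_upwards [C.robust hK A (-1) h] with z hz x hx
    rw [C.F_sg hA hA' hsg]
    have := hz x hx
    linarith
  · filter_upwards [C.robust hK A 1 h] with z hz x hx
    rw [C.F_nsg hA hA' hsg]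
    have := hz x hx
    linarith

lemma eventually_order (f₀ : E →L[ℝ] ℝ) :
    ∀ᶠ z : ℝ × (E →L[ℝ] ℝ) in 𝓝 (0, f₀), ∀ i j, f₀ (C.v j) < f₀ (C.v i) →
      z.2 (C.v j) < z.2 (C.v i) := by
  rw [eventually_all]
  intro i
  rw [eventually_all]
  intro j
  by_cases h : f₀ (C.v j) < f₀ (C.v i)
  · have hc1 : Continuous (fun z : ℝ × (E →L[ℝ] ℝ) => z.2 (C.v j)) :=
      continuous_eval.comp (continuous_snd.prodMk continuous_const)
    have hc2 : Continuous (fun z : ℝ × (E →L[ℝ] ℝ) => z.2 (C.v i)) :=
      continuous_eval.comp (continuous_snd.prodMk continuous_const)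
    have := (hc1.continuousAt (x := ((0 : ℝ), f₀))).eventually_lt
      (hc2.continuousAt (x := ((0 : ℝ), f₀))) h
    filter_upwards [this] with z hz _ using hz
  · exact Eventually.of_forall fun z hz => absurd hz h

lemma eventually_ne {f₀ : E →L[ℝ] ℝ} (hf : f₀ ≠ 0) :
    ∀ᶠ z : ℝ × (E →L[ℝ] ℝ) in 𝓝 (0, f₀), z.2 ≠ 0 :=
  (continuous_snd.continuousAt (x := ((0 : ℝ), f₀))).eventually (isOpen_ne.mem_nhds hf)

lemma eventually_lt_one (f₀ : E →L[ℝ] ℝ) :
    ∀ᶠ z : ℝ × (E →L[ℝ] ℝ) in 𝓝 (0, f₀), z.1 < 1 :=
  (continuous_fst.continuousAt (x := ((0 : ℝ), f₀))).eventually (gt_mem_nhds (by norm_num))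

/-- when all coordinates outside zero agree with their forced value and `W` vanishes -/
lemma loc {K : Set E} (hK : IsCompact K) (hconv : Convex ℝ K) (hinv : C.Inv K)
    (h0 : (0 : E) ∈ interior K) {f₀ : E →L[ℝ] ℝ} (hf₀ : f₀ ≠ 0) :
    ∀ᶠ z : ℝ × (E →L[ℝ] ℝ) in 𝓝 (0, f₀), 0 < z.1 →
      ∃ A, ∀ x ∈ face K z.2, 0 < C.F K z.1 A x := by
  classical
  have hxne : ∀ (f : E →L[ℝ] ℝ), f ≠ 0 → ∀ x ∈ face K f, x ≠ 0 := by
    intro f hf x hx h
    have := pos_of_face h0 hf hx
    rw [h, map_zero] at this
    exact lt_irrefl _ this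
  by_cases h1 : ∀ i : Fin d, f₀ (C.v 0) ≤ f₀ (C.v i.succ)
  · -- Case 1
    let A : Finset (Fin d) := Finset.univ.filter fun i => f₀ (C.v 0) < f₀ (C.v i.succ)
    have hAmem : ∀ i, i ∈ A ↔ f₀ (C.v 0) < f₀ (C.v i.succ) := by intro i; simp [A]
    have hAc : ∀ j ∈ Aᶜ, f₀ (C.v j.succ) = f₀ (C.v 0) := by
      intro j hj
      rw [Finset.mem_compl, hAmem, not_lt] at hj
      exact le_antisymm hj (h1 j)
    have hA : A.Nonempty := by
      by_contra hcon
      rw [Finset.not_nonempty_iff_eq_empty] at hcon
      apply hf₀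
      ext x
      rw [C.f_low f₀ A hAc x, hcon]
      simp
    have hd : 0 < d := by
      obtain ⟨a, -⟩ := hA
      exact lt_of_le_of_lt (Nat.zero_le _) a.2
    have hord : ∀ f : E →L[ℝ] ℝ, (∀ i j, f₀ (C.v j) < f₀ (C.v i) → f (C.v j) < f (C.v i)) →
        ∀ x ∈ face K f, (∀ i ∈ A, C.c 0 x ≤ C.c i.succ x) ∧
          ∀ i ∈ A, ∀ j ∈ Aᶜ, C.c j.succ x ≤ C.c i.succ x := by
      intro f hf x hx
      refine ⟨fun i hi => ordered hinv hx (hf _ _ ((hAmem i).mp hi)), fun i hi j hj => ?_⟩
      apply ordered hinv hx (hf _ _ _)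
      rw [hAc j hj]
      exact (hAmem i).mp hi
    by_cases hA' : Aᶜ.Nonempty
    · by_cases hsg : C.sg K A
      · filter_upwards [C.eventually_order f₀, eventually_ne hf₀, eventually_lt_one f₀]
          with z hz hzne hz1 hzpos
        refine ⟨A, fun x hx => ?_⟩
        rw [C.F_sg hA hA' hsg]
        obtain ⟨o1, o2⟩ := hord z.2 hz x hx
        exact C.pos_minus hA (hxne _ hzne x hx) o2 o1 hzpos hz1
      · have hW : ∀ x ∈ face K f₀, 0 < C.W A x := by
          intro x hx
          obtain ⟨o1, o2⟩ := hord f₀ (fun _ _ h => h) x hx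
          rcases (C.W_nonneg o2).eq_or_lt with h2 | h2
          · exfalso
            have h3 := C.of_W_zero hA hA' o2 h2.symm
            have h4 := C.eq_smul_v hd h3
            obtain ⟨a, ha⟩ := hA
            have h5 := o1 a ha
            rw [h3 a] at h5
            have hd' : (0 : ℝ) < d := by exact_mod_cast hd
            have h6 : C.c 0 x ≤ 0 := by
              by_contra hcon
              push Not at hcon
              have : -(1 / (d : ℝ)) * C.c 0 x < 0 := by
                have := mul_pos (one_div_pos.mpr hd') hcon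
                linarith
              linarith
            have h7 : C.c 0 x ≠ 0 := by
              intro h8
              apply hxne f₀ hf₀ x hx
              rw [h4, h8]; simp
            have h8 : C.c 0 x < 0 := lt_of_le_of_ne h6 h7
            apply hsg
            apply C.sg_of_low hK hconv hinv ⟨a, ha⟩ hAc (fun i hi => (hAmem i).mp hi)
              (l := -(((d : ℝ) + 1) / d * C.c 0 x))
            · have : 0 < ((d : ℝ) + 1) / d := by positivity
              have := mul_pos this (neg_pos.mpr h8)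
              linarith
            · rw [neg_smul, neg_neg, ← h4]
              exact hx
          · exact h2
        filter_upwards [C.robustF hK hA hA' hW] with z hz _ using ⟨A, hz⟩
    · have hAu : A = Finset.univ := by
        rw [Finset.not_nonempty_iff_eq_empty, Finset.compl_eq_empty_iff] at hA'
        exact hA'
      filter_upwards [C.eventually_order f₀, eventually_ne hf₀] with z hz hzne hzpos
      refine ⟨Finset.univ, fun x hx => ?_⟩
      rw [C.F_univ K z.1 (by rw [← hAu]; exact hA.ne_empty)]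
      obtain ⟨o1, -⟩ := hord z.2 hz x hx
      rw [neg_pos]
      by_contra hcon
      push Not at hcon
      have hs := C.sum_zero x
      rw [Fin.sum_univ_succ] at hs
      have h2 : ∀ i : Fin d, 0 ≤ C.c i.succ x := fun i =>
        hcon.trans (o1 i (by rw [hAu]; exact Finset.mem_univ i))
      have h3 : 0 ≤ ∑ i : Fin d, C.c i.succ x := Finset.sum_nonneg fun i _ => h2 i
      have h4 : C.c 0 x = 0 := by linarith
      have h5 : ∑ i : Fin d, C.c i.succ x = 0 := by linarith
      have h6 := (Finset.sum_eq_zero_iff_of_nonneg (fun i _ => h2 i)).mp h5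
      apply hxne z.2 hzne x hx
      apply C.ext_c
      intro i
      rw [map_zero]
      exact Fin.cases h4 (fun i => h6 i (Finset.mem_univ i)) i
  · by_cases h2 : ∀ i : Fin d, f₀ (C.v i.succ) ≤ f₀ (C.v 0)
    · -- Case 2
      let A : Finset (Fin d) := Finset.univ.filter fun i => f₀ (C.v 0) ≤ f₀ (C.v i.succ)
      have hAmem : ∀ i, i ∈ A ↔ f₀ (C.v 0) ≤ f₀ (C.v i.succ) := by intro i; simp [A]
      have hAe : ∀ i ∈ A, f₀ (C.v i.succ) = f₀ (C.v 0) := by
        intro i hi
        exact le_antisymm (h2 i) ((hAmem i).mp hi)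
      have hAc : ∀ j ∈ Aᶜ, f₀ (C.v j.succ) < f₀ (C.v 0) := by
        intro j hj
        rw [Finset.mem_compl, hAmem, not_le] at hj
        exact hj
      have hA' : Aᶜ.Nonempty := by
        push Not at h1
        obtain ⟨j, hj⟩ := h1
        exact ⟨j, by rw [Finset.mem_compl, hAmem, not_le]; exact hj⟩
      have hd : 0 < d := by
        obtain ⟨a, -⟩ := hA'
        exact lt_of_le_of_lt (Nat.zero_le _) a.2
      have hord : ∀ f : E →L[ℝ] ℝ, (∀ i j, f₀ (C.v j) < f₀ (C.v i) → f (C.v j) < f (C.v i)) →
          ∀ x ∈ face K f, (∀ j ∈ Aᶜ, C.c j.succ x ≤ C.c 0 x) ∧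
            ∀ i ∈ A, ∀ j ∈ Aᶜ, C.c j.succ x ≤ C.c i.succ x := by
        intro f hf x hx
        refine ⟨fun j hj => ordered hinv hx (hf _ _ (hAc j hj)), fun i hi j hj => ?_⟩
        apply ordered hinv hx (hf _ _ _)
        rw [hAe i hi]
        exact hAc j hj
      by_cases hA : A.Nonempty
      · by_cases hsg : C.sg K A
        · have hW : ∀ x ∈ face K f₀, 0 < C.W A x := by
            intro x hx
            obtain ⟨o1, o2⟩ := hord f₀ (fun _ _ h => h) x hx
            rcases (C.W_nonneg o2).eq_or_lt with h3 | h3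
            · exfalso
              have h4 := C.of_W_zero hA hA' o2 h3.symm
              have h5 := C.eq_smul_v hd h4
              obtain ⟨b, hb⟩ := hA'
              have h6 := o1 b hb
              rw [h4 b] at h6
              have hd' : (0 : ℝ) < d := by exact_mod_cast hd
              have h7 : 0 ≤ C.c 0 x := by
                by_contra hcon
                push Not at hcon
                have : 0 < -(1 / (d : ℝ)) * C.c 0 x := by
                  have := mul_pos (one_div_pos.mpr hd') (neg_pos.mpr hcon)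
                  linarith
                linarith
              have h8 : C.c 0 x ≠ 0 := by
                intro h9
                apply hxne f₀ hf₀ x hx
                rw [h5, h9]; simp
              have h9 : 0 < C.c 0 x := lt_of_le_of_ne h7 h8.symm
              apply C.high_contra hK hconv hinv hA ⟨b, hb⟩ hAe hAc
                (μ := ((d : ℝ) + 1) / d * C.c 0 x) _ _ hsg
              · positivity
              · rw [← h5]; exact hx
            · exact h3
          filter_upwards [C.robustF hK hA hA' hW] with z hz _ using ⟨A, hz⟩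
        · filter_upwards [C.eventually_order f₀, eventually_ne hf₀, eventually_lt_one f₀]
            with z hz hzne hz1 hzpos
          refine ⟨A, fun x hx => ?_⟩
          rw [C.F_nsg hA hA' hsg]
          obtain ⟨o1, o2⟩ := hord z.2 hz x hx
          exact C.pos_plus hA' (hxne _ hzne x hx) o2 o1 hzpos hz1
      · rw [Finset.not_nonempty_iff_eq_empty] at hA
        filter_upwards [C.eventually_order f₀, eventually_ne hf₀] with z hz hzne hzpos
        refine ⟨∅, fun x hx => ?_⟩
        rw [C.F_empty]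
        obtain ⟨o1, -⟩ := hord z.2 hz x hx
        by_contra hcon
        push Not at hcon
        have hs := C.sum_zero x
        rw [Fin.sum_univ_succ] at hs
        have h3 : ∀ i : Fin d, C.c i.succ x ≤ 0 := fun i =>
          (o1 i (by rw [hA]; simp)).trans hcon
        have h4 : ∑ i : Fin d, C.c i.succ x ≤ 0 := Finset.sum_nonpos fun i _ => h3 i
        have h5 : C.c 0 x = 0 := by linarith
        have h6 : ∑ i : Fin d, C.c i.succ x = 0 := by linarith
        have h7 := (Finset.sum_eq_zero_iff_of_nonpos (fun i _ => h3 i)).mp h6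
        apply hxne z.2 hzne x hx
        apply C.ext_c
        intro i
        rw [map_zero]
        exact Fin.cases h5 (fun i => h7 i (Finset.mem_univ i)) i
    · -- Case 3
      push Not at h1 h2
      obtain ⟨b, hb⟩ := h1
      obtain ⟨a, ha⟩ := h2
      let A : Finset (Fin d) := Finset.univ.filter fun i => f₀ (C.v 0) < f₀ (C.v i.succ)
      have hAmem : ∀ i, i ∈ A ↔ f₀ (C.v 0) < f₀ (C.v i.succ) := by intro i; simp [A]
      have hA : A.Nonempty := ⟨a, (hAmem a).mpr ha⟩
      have hbA : b ∈ Aᶜ := by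
        rw [Finset.mem_compl, hAmem, not_lt]; exact hb.le
      have hA' : Aᶜ.Nonempty := ⟨b, hbA⟩
      have hd : 0 < d := lt_of_le_of_lt (Nat.zero_le _) a.2
      have hW : ∀ x ∈ face K f₀, 0 < C.W A x := by
        intro x hx
        have o2 : ∀ i ∈ A, ∀ j ∈ Aᶜ, C.c j.succ x ≤ C.c i.succ x := by
          intro i hi j hj
          apply ordered hinv hx
          rw [Finset.mem_compl, hAmem, not_lt] at hj
          exact hj.trans_lt ((hAmem i).mp hi)
        rcases (C.W_nonneg o2).eq_or_lt with h3 | h3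
        · exfalso
          have h4 := C.of_W_zero hA hA' o2 h3.symm
          have h5 := C.eq_smul_v hd h4
          have h6 : C.c 0 x ≤ C.c a.succ x := ordered hinv hx ha
          have h7 : C.c b.succ x ≤ C.c 0 x := ordered hinv hx hb
          rw [h4] at h6 h7
          have hd' : (0 : ℝ) < d := by exact_mod_cast hd
          have hp := one_div_pos.mpr hd'
          have h8 : C.c 0 x = 0 := by
            apply le_antisymm
            · by_contra hcon
              push Not at hcon
              have := mul_pos hp hcon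
              linarith
            · by_contra hcon
              push Not at hcon
              have := mul_pos hp (neg_pos.mpr hcon)
              linarith
          apply hxne f₀ hf₀ x hx
          rw [h5, h8]; simp
        · exact h3
      filter_upwards [C.robustF hK hA hA' hW] with z hz _ using ⟨A, hz⟩

/-- Main theorem in coordinates. -/
theorem sep_simplex [FiniteDimensional ℝ E] {K : Set E} (hK : IsCompact K) (hconv : Convex ℝ K)
    (hinv : C.Inv K) (h0 : (0 : E) ∈ interior K) : Sep K (2 ^ d) := by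
  obtain ⟨ε, hε, h⟩ := exists_eps (V := E) (P := fun ε f => 0 < ε →
      ∃ A, ∀ x ∈ face K f, 0 < C.F K ε A x)
    (by
      intro ε f c hc h hε
      obtain ⟨A, hA⟩ := h hε
      exact ⟨A, by rwa [face_smul K f hc]⟩)
    (by
      intro f₀ hf₀
      filter_upwards [C.loc hK hconv hinv h0 hf₀] with z hz h1 _
      exact hz h1)
  exact Sep.of_fintype (fun A => C.F K ε A) (fun f hf => h f hf hε) (by simp)

end Coords

end Pool.Agent.Lib.MP_5e7226_co
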