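import Pool.Agent.Lib.MP_5e7226_co.DG

set_option autoImplicit false

open Set MeasureTheory Module Filter Topology
open scoped InnerProductSpace

namespace Pool.Agent.Lib.MP_5e7226_co

variable {E : Type*} [NormedAddCommGroup E] [InnerProductSpace ℝ E] [FiniteDimensional ℝ E]

/-- polar set -/
def pol (K : Set E) : Set E := {g | ∀ x ∈ K, ⟪g, x⟫_ℝ ≤ 1}

/-- `x` is an exposed point of `K` with exposing vector `g` normalised by `⟪g, x⟫ = 1`. -/
def Exposes (K : Set E) (g x : E) : Prop :=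
  x ∈ K ∧ ⟪g, x⟫_ℝ = 1 ∧ ∀ y ∈ K, y ≠ x → ⟪g, y⟫_ℝ < 1

/-- the pairwise opposite position of two boundary points of the polar -/
def Opp (K : Set E) (a b : E) : Prop :=
  ∃ z ∈ K, ∃ c : ℝ, 0 < c ∧ -(c • z) ∈ K ∧ ⟪a, z⟫_ℝ = 1 ∧ ⟪b, -(c • z)⟫_ℝ = 1

lemma pol_convex (K : Set E) : Convex ℝ (pol K) := by
  intro a ha b hb s t hs ht hst x hx
  have h1 := ha x hx
  have h2 := hb x hx
  rw [inner_add_left, real_inner_smul_left, real_inner_smul_left]
  nlinarith

lemma pol_closed (K : Set E) : IsClosed (pol K) := by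
  have : pol K = ⋂ x ∈ K, {g | ⟪g, x⟫_ℝ ≤ 1} := by
    ext g
    simp [pol]
  rw [this]
  exact isClosed_biInter fun x _ => isClosed_le (by fun_prop) continuous_const

lemma pol_compact {K : Set E} (h0 : (0 : E) ∈ interior K) : IsCompact (pol K) := by
  obtain ⟨r, hr, hball⟩ := Metric.isOpen_iff.mp isOpen_interior 0 h0
  have hbd : pol K ⊆ Metric.closedBall 0 (2 / r) := by
    intro g hg
    rw [mem_closedBall_zero_iff]
    by_cases hg0 : g = 0
    · rw [hg0, norm_zero]; positivity
    have hgn : 0 < ‖g‖ := norm_pos_iff.mpr hg0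
    have hx : ((r / 2) / ‖g‖) • g ∈ K := by
      apply interior_subset
      apply hball
      rw [mem_ball_zero_iff, norm_smul, Real.norm_eq_abs, abs_of_pos (by positivity),
        div_mul_cancel₀ _ hgn.ne']
      linarith
    have h1 := hg _ hx
    rw [real_inner_smul_right, real_inner_self_eq_norm_sq] at h1
    have h2 : (r / 2) / ‖g‖ * ‖g‖ ^ 2 = (r / 2) * ‖g‖ := by field_simp
    rw [h2] at h1
    rw [le_div_iff₀ hr]
    linarith
  exact (isCompact_closedBall _ _).of_isClosed_subset (pol_closed K) hbd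

lemma pol_interior {K : Set E} (hK : IsCompact K) : (0 : E) ∈ interior (pol K) := by
  obtain ⟨R, hR⟩ := hK.isBounded.subset_closedBall 0
  rw [mem_interior]
  refine ⟨Metric.ball 0 (1 / (|R| + 1)), ?_, Metric.isOpen_ball, Metric.mem_ball_self (by positivity)⟩
  intro g hg x hx
  rw [mem_ball_zero_iff] at hg
  have h1 := hR hx
  rw [mem_closedBall_zero_iff] at h1
  have h2 : ‖x‖ ≤ |R| + 1 := by
    have := le_abs_self R
    linarith
  calc ⟪g, x⟫_ℝ ≤ ‖g‖ * ‖x‖ := real_inner_le_norm g x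
    _ ≤ (1 / (|R| + 1)) * (|R| + 1) := by gcongr
    _ = 1 := by field_simp

/-- Exposed points in every direction. -/
lemma exists_exposed {K : Set E} (hK : IsCompact K) (h0 : (0 : E) ∈ interior K) {v : E}
    (hv : v ≠ 0) : ∃ x g, Exposes K g x ∧ 0 < ⟪v, x⟫_ℝ := by
  obtain ⟨M, hM⟩ := hK.isBounded.subset_closedBall 0
  -- a point in the direction `v`
  obtain ⟨r, hr, hball⟩ := Metric.isOpen_iff.mp isOpen_interior 0 h0
  have hvn : 0 < ‖v‖ := norm_pos_iff.mpr hv
  set y₀ : E := ((r / 2) / ‖v‖) • v with hy₀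
  have hy₀K : y₀ ∈ K := by
    apply interior_subset
    apply hball
    rw [mem_ball_zero_iff, norm_smul, Real.norm_eq_abs, abs_of_pos (by positivity),
      div_mul_cancel₀ _ hvn.ne']
    linarith
  have hδ : 0 < ⟪v, y₀⟫_ℝ := by
    rw [hy₀, real_inner_smul_right, real_inner_self_eq_norm_sq]
    positivity
  set δ := ⟪v, y₀⟫_ℝ with hδ'
  set R : ℝ := (M ^ 2 + 1) / δ with hR
  have hRpos : 0 < R := by positivity
  obtain ⟨x, hx, hmax⟩ := hK.exists_isMaxOn ⟨y₀, hy₀K⟩
    (f := fun y => ‖y + R • v‖) (by fun_prop)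
  have hmax' : ∀ y ∈ K, ‖y + R • v‖ ≤ ‖x + R • v‖ := fun y hy => hmax hy
  have hkey : ∀ y ∈ K, ‖x - y‖ ^ 2 ≤ 2 * ⟪x + R • v, x - y⟫_ℝ := by
    intro y hy
    have h1 := hmax' y hy
    have h2 : ‖y + R • v‖ ^ 2 ≤ ‖x + R • v‖ ^ 2 := by gcongr
    have h3 : y + R • v = (x + R • v) - (x - y) := by abel
    rw [h3, @norm_sub_sq_real] at h2
    linarith
  have hxv : 0 < ⟪v, x⟫_ℝ := by
    have h1 := hmax' y₀ hy₀K
    have h2 : ‖y₀ + R • v‖ ^ 2 ≤ ‖x + R • v‖ ^ 2 := by gcongr
    rw [@norm_add_sq_real, @norm_add_sq_real, real_inner_smul_right, real_inner_smul_right,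
      real_inner_comm, real_inner_comm v x] at h2
    have h3 := hM hx
    rw [mem_closedBall_zero_iff] at h3
    have h4 : ‖x‖ ^ 2 ≤ M ^ 2 := by gcongr
    have h5 : R * δ = M ^ 2 + 1 := by
      rw [hR]; field_simp
    have h6 : 0 ≤ ‖y₀‖ ^ 2 := by positivity
    have h7 : R * ⟪v, x⟫_ℝ > 0 := by
      nlinarith
    by_contra hcon
    push Not at hcon
    nlinarith
  have hx0 : x ≠ 0 := by
    rintro rfl
    simp at hxv
  have hpos : 0 < ⟪x + R • v, x⟫_ℝ := by
    have h := hkey 0 (interior_subset h0)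
    rw [sub_zero] at h
    have : 0 < ‖x‖ ^ 2 := by
      have := norm_pos_iff.mpr hx0
      positivity
    linarith
  refine ⟨x, (1 / ⟪x + R • v, x⟫_ℝ) • (x + R • v), ⟨hx, ?_, ?_⟩, hxv⟩
  · rw [real_inner_smul_left]
    field_simp
  · intro y hy hyx
    have h := hkey y hy
    have hne : 0 < ‖x - y‖ := norm_pos_iff.mpr (sub_ne_zero.mpr (Ne.symm hyx))
    rw [inner_sub_right] at h
    rw [real_inner_smul_left, one_div, inv_mul_lt_iff₀ hpos, mul_one]
    have : 0 < ‖x - y‖ ^ 2 := by positivity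
    linarith

/-- The exposed points contain a basis. -/
lemma exists_exposed_basis {K : Set E} (hK : IsCompact K) (h0 : (0 : E) ∈ interior K) {d : ℕ}
    (hd : finrank ℝ E = d) :
    ∃ (x g : Fin d → E), LinearIndependent ℝ x ∧ ∀ k, Exposes K (g k) (x k) := by
  set X : Set E := {x | ∃ g, Exposes K g x} with hX
  have hspan : Submodule.span ℝ X = ⊤ := by
    by_contra hne
    have h1 : (Submodule.span ℝ X)ᗮ ≠ ⊥ := by
      intro h
      exact hne (Submodule.orthogonal_eq_bot_iff.mp h)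
    obtain ⟨v, hv, hv0⟩ := Submodule.exists_mem_ne_zero_of_ne_bot h1
    obtain ⟨x, g, hxg, hpos⟩ := exists_exposed hK h0 hv0
    have h2 : ⟪x, v⟫_ℝ = 0 :=
      (Submodule.mem_orthogonal _ _).mp hv x (Submodule.subset_span ⟨g, hxg⟩)
    rw [real_inner_comm] at h2
    linarith
  obtain ⟨b, hbX, hbspan, hbli⟩ := exists_linearIndependent ℝ X
  rw [hspan] at hbspan
  let B : Basis b ℝ E := Basis.mk hbli (by rw [Subtype.range_coe]; exact hbspan.ge)
  have hfin : Finite b := Module.Finite.finite_basis B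
  have := Fintype.ofFinite b
  have hcard : Fintype.card b = d := by
    rw [← hd, finrank_eq_card_basis B]
  let e : Fin d ≃ b := (Fintype.equivFinOfCardEq hcard).symm
  have hx : ∀ k, ∃ g, Exposes K g (e k : E) := fun k => hbX (e k).2
  choose g hg using hx
  refine ⟨fun k => (e k : E), g, ?_, hg⟩
  exact hbli.comp e e.injective

lemma Opp.spec {K : Set E} {a b : E} (h : Opp K a b) :
    ∃ z ∈ K, ⟪b, z⟫_ℝ < ⟪a, z⟫_ℝ ∧ ∀ g ∈ pol K, ⟪b, z⟫_ℝ ≤ ⟪g, z⟫_ℝ ∧ ⟪g, z⟫_ℝ ≤ ⟪a, z⟫_ℝ := by
  obtain ⟨z, hz, c, hc, hcz, h1, h2⟩ := h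
  rw [inner_neg_right, real_inner_smul_right] at h2
  refine ⟨z, hz, ?_, ?_⟩
  · nlinarith
  · intro g hg
    have h3 := hg z hz
    have h4 := hg _ hcz
    rw [inner_neg_right, real_inner_smul_right] at h4
    constructor
    · nlinarith
    · linarith

lemma hom_apply (c x : E) :
    AffineMap.homothety c (1 / 2 : ℝ) x = (1 / 2 : ℝ) • x + (1 / 2 : ℝ) • c := by
  rw [AffineMap.homothety_apply]
  simp only [vsub_eq_sub, vadd_eq_add]
  module

/-- Danzer-Grünbaum for the polar body. -/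
theorem dg_polar {K : Set E} (hK : IsCompact K) (h0 : (0 : E) ∈ interior K)
    {ι : Type*} [Fintype ι] (u : ι → E) (hu : ∀ i, u i ∈ pol K)
    (hopp : ∀ i j, i ≠ j → Opp K (u i) (u j)) :
    Fintype.card ι ≤ 2 ^ finrank ℝ E ∧
      (Fintype.card ι = 2 ^ finrank ℝ E →
        pol K ⊆ ⋃ i, AffineMap.homothety (u i) (1 / 2 : ℝ) '' pol K) := by
  letI : MeasurableSpace E := borel E
  haveI : BorelSpace E := ⟨rfl⟩
  apply dg_core (Measure.addHaar : Measure E) (pol_compact h0) (pol_convex K)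
    ⟨0, pol_interior hK⟩ u hu
  intro i j hij
  obtain ⟨z, hz, hlt, hall⟩ := (hopp i j hij).spec
  refine ⟨innerSL ℝ z, ?_, ?_⟩
  · rw [innerSL_apply_apply, innerSL_apply_apply, real_inner_comm, real_inner_comm (u i) z]
    exact hlt
  · intro b hb
    rw [innerSL_apply_apply, innerSL_apply_apply, innerSL_apply_apply, real_inner_comm,
      real_inner_comm (u i) z, real_inner_comm b z]
    exact hall b hb

/-- the two-level property -/
theorem two_level {K : Set E} (hK : IsCompact K) {ι : Type*} [Finite ι] (u : ι → E)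
    (hu : ∀ i, u i ∈ pol K) (hopp : ∀ i j, i ≠ j → Opp K (u i) (u j))
    (hcov : pol K ⊆ ⋃ i, AffineMap.homothety (u i) (1 / 2 : ℝ) '' pol K)
    (hcl : IsCompact (pol K)) {x g : E} (hxg : Exposes K g x) (hg : g ∈ pol K) (i : ι) :
    ⟪u i, x⟫_ℝ = 1 ∨ ∃ c : ℝ, 0 < c ∧ ⟪u i, x⟫_ℝ = -c ∧ (-(1 / c)) • x ∈ K := by
  obtain ⟨hxK, hgx, hgy⟩ := hxg
  by_cases hi1 : ⟪u i, x⟫_ℝ = 1
  · exact Or.inl hi1
  right
  have hlt : ⟪u i, x⟫_ℝ < 1 := lt_of_le_of_ne (hu i x hxK) hi1
  set s : E := (1 / 2 : ℝ) • g + (1 / 2 : ℝ) • u i with hs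
  -- `s` lies in the interior of the polar
  obtain ⟨η, hη, hsη⟩ : ∃ η > 0, ∀ y ∈ K, ⟪s, y⟫_ℝ ≤ 1 - η := by
    obtain ⟨y₁, hy₁, hmax⟩ := hK.exists_isMaxOn ⟨x, hxK⟩ (f := fun y => ⟪s, y⟫_ℝ) (by fun_prop)
    refine ⟨1 - ⟪s, y₁⟫_ℝ, ?_, ?_⟩
    · have h1 : ⟪s, y₁⟫_ℝ = (1 / 2) * ⟪g, y₁⟫_ℝ + (1 / 2) * ⟪u i, y₁⟫_ℝ := by
        rw [hs, inner_add_left, real_inner_smul_left, real_inner_smul_left]
      have h2 := hu i y₁ hy₁
      by_cases hyx : y₁ = x
      · rw [hyx] at h1 ⊢
        rw [hgx] at h1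
        linarith
      · have h3 := hgy y₁ hy₁ hyx
        linarith
    · intro y hy
      have := hmax hy
      simp only [mem_ofPred_eq] at this
      linarith
  have hmem : ∀ δ : ℝ, 0 < δ → δ ≤ η → s + δ • g ∈ pol K := by
    intro δ hδ hδη y hy
    have h1 := hsη y hy
    have h2 := hg y hy
    rw [inner_add_left, real_inner_smul_left]
    nlinarith
  -- a tile containing points just above `s`
  have hev : ∀ᶠ δ : ℝ in 𝓝[>] 0, s + δ • g ∈ ⋃ i, AffineMap.homothety (u i) (1 / 2 : ℝ) '' pol K := by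
    filter_upwards [Ioc_mem_nhdsGT hη] with δ hδ
    exact hcov (hmem δ hδ.1 hδ.2)
  obtain ⟨j, hj⟩ : ∃ j, ∃ᶠ δ : ℝ in 𝓝[>] 0,
      s + δ • g ∈ AffineMap.homothety (u j) (1 / 2 : ℝ) '' pol K := by
    by_contra hcon
    push Not at hcon
    have h1 : ∀ᶠ δ : ℝ in 𝓝[>] 0, ∀ j,
        s + δ • g ∉ AffineMap.homothety (u j) (1 / 2 : ℝ) '' pol K :=
      Filter.eventually_all.mpr hcon
    obtain ⟨δ, h2, h3⟩ := (hev.and h1).exists
    obtain ⟨j, hj⟩ := mem_iUnion.mp h2
    exact h3 j hj
  have hclosed : IsClosed (AffineMap.homothety (u j) (1 / 2 : ℝ) '' pol K) :=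
    (hcl.image (AffineMap.homothety_continuous (u j) (1 / 2 : ℝ))).isClosed
  have hsj : s ∈ AffineMap.homothety (u j) (1 / 2 : ℝ) '' pol K := by
    have htend : Tendsto (fun δ : ℝ => s + δ • g) (𝓝[>] 0) (𝓝 s) := by
      have h1 : Tendsto (fun δ : ℝ => s + δ • g) (𝓝 0) (𝓝 (s + (0 : ℝ) • g)) := by
        apply Continuous.tendsto
        fun_prop
      rw [zero_smul, add_zero] at h1
      exact h1.mono_left nhdsWithin_le_nhds
    exact hclosed.mem_of_frequently_of_tendsto hj htend
  have hji : j ≠ i := by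
    rintro rfl
    obtain ⟨δ, ⟨p, hp, hpe⟩, hδ⟩ := (hj.and_eventually (self_mem_nhdsWithin)).exists
    rw [hom_apply] at hpe
    have h1 := congrArg (fun z => ⟪z, x⟫_ℝ) hpe
    simp only [hs, inner_add_left, real_inner_smul_left, hgx] at h1
    have h2 := hp x hxK
    have h3 : (0 : ℝ) < δ := hδ
    linarith
  obtain ⟨z, hz, c, hc, hcz, h1, h2⟩ := hopp i j (Ne.symm hji)
  obtain ⟨p, hp, hpe⟩ := hsj
  rw [hom_apply] at hpe
  have h3 := congrArg (fun w => ⟪w, z⟫_ℝ) hpe
  simp only [hs, inner_add_left, real_inner_smul_left, h1] at h3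
  have h4 := hp z hz
  rw [inner_neg_right, real_inner_smul_right] at h2
  have h5 := hg _ hcz
  rw [inner_neg_right, real_inner_smul_right] at h5
  have h6 : ⟪g, z⟫_ℝ ≤ ⟪u j, z⟫_ℝ := by linarith
  have h7 : ⟪g, -(c • z)⟫_ℝ = 1 := by
    rw [inner_neg_right, real_inner_smul_right]
    nlinarith
  have h8 : -(c • z) = x := by
    by_contra hne
    have := hgy _ hcz hne
    linarith
  refine ⟨c, hc, ?_, ?_⟩
  · rw [← h8, inner_neg_right, real_inner_smul_right, h1, mul_one]
  · rw [← h8]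
    have : (-(1 / c)) • (-(c • z)) = z := by
      rw [smul_neg, neg_smul, neg_neg, smul_smul, one_div, inv_mul_cancel₀ hc.ne', one_smul]
    rwa [this]

/-- Equality in the Danzer-Grünbaum bound: the body is a cross-body. -/
theorem cross_of_eq {K : Set E} (hK : IsCompact K) (hconv : Convex ℝ K)
    (h0 : (0 : E) ∈ interior K) {d : ℕ} (hd0 : 0 < d) (hd : finrank ℝ E = d)
    {ι : Type*} [Fintype ι] (u : ι → E) (hu : ∀ i, u i ∈ pol K)
    (hopp : ∀ i j, i ≠ j → Opp K (u i) (u j)) (hcard : Fintype.card ι = 2 ^ d) :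
    ∃ (v : Fin d → E) (t : Fin d → ℝ), LinearIndependent ℝ v ∧ (∀ k, 0 < t k) ∧
      K = convexHull ℝ (⋃ k, {v k, -(t k • v k)}) := by
  classical
  have hcov := (dg_polar hK h0 u hu hopp).2 (by rw [hcard, hd])
  obtain ⟨x, g, hli, hexp⟩ := exists_exposed_basis hK h0 hd
  have hgpol : ∀ k, g k ∈ pol K := by
    intro k y hy
    by_cases hyx : y = x k
    · rw [hyx, (hexp k).2.1]
    · exact ((hexp k).2.2 y hy hyx).le
  have htl := fun k i => two_level hK u hu hopp hcov (pol_compact h0) (hexp k) (hgpol k) i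
  -- consistency of the constants
  have hcons : ∀ k (c c' : ℝ) (i j : ι), 0 < c → 0 < c' → ⟪u i, x k⟫_ℝ = -c →
      (-(1 / c)) • x k ∈ K → ⟪u j, x k⟫_ℝ = -c' → (-(1 / c')) • x k ∈ K → c = c' := by
    intro k c c' i j hc hc' h1 h2 h3 h4
    have h5 := hu i _ h4
    have h6 := hu j _ h2
    rw [real_inner_smul_right, h1] at h5
    rw [real_inner_smul_right, h3] at h6
    have h7 : c / c' ≤ 1 := by
      have : -(1 / c') * -c = c / c' := by field_simp
      linarith
    have h8 : c' / c ≤ 1 := by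
      have : -(1 / c) * -c' = c' / c := by field_simp
      linarith
    rw [div_le_one hc'] at h7
    rw [div_le_one hc] at h8
    linarith
  let pat : ι → (Fin d → Bool) := fun i k => decide (⟪u i, x k⟫_ℝ = 1)
  let Bx := basisOfLinearIndependentOfCardEqFinrank' x hli (by rw [hd]; simp)
  have hBx : ∀ k, Bx k = x k := by
    intro k
    simp [Bx]
  have hinj : Function.Injective pat := by
    intro i j hij
    by_contra hne
    have heq : u i = u j := by
      apply ext_inner_right ℝ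
      intro y
      rw [← Bx.sum_repr y, inner_sum, inner_sum]
      apply Finset.sum_congr rfl
      intro k _
      rw [real_inner_smul_right, real_inner_smul_right, hBx]
      congr 1
      have hk := congrFun hij k
      simp only [pat, decide_eq_decide] at hk
      rcases htl k i with h | ⟨c, hc, h1, h2⟩
      · rw [h, hk.mp h]
      · rcases htl k j with h' | ⟨c', hc', h1', h2'⟩
        · rw [h', hk.mpr h']
        · rw [h1, h1', hcons k c c' i j hc hc' h1 h2 h1' h2']
    obtain ⟨z, -, hlt, -⟩ := (hopp i j hne).spec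
    rw [heq] at hlt
    exact lt_irrefl _ hlt
  have hsurj : Function.Surjective pat := by
    have hb : Function.Bijective pat := by
      rw [Fintype.bijective_iff_injective_and_card]
      exact ⟨hinj, by rw [hcard]; simp⟩
    exact hb.2
  -- the constants
  obtain ⟨i₁, hi₁⟩ := hsurj (fun _ => false)
  have hc : ∀ k, ∃ c : ℝ, 0 < c ∧ ⟪u i₁, x k⟫_ℝ = -c ∧ (-(1 / c)) • x k ∈ K := by
    intro k
    rcases htl k i₁ with h | h
    · exfalso
      have := congrFun hi₁ k
      simp [pat, h] at this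
    · exact h
  choose c hcpos hc1 hc2 using hc
  have hlow : ∀ k i, ⟪u i, x k⟫_ℝ ≠ 1 → ⟪u i, x k⟫_ℝ = -(c k) := by
    intro k i hne
    rcases htl k i with h | ⟨c', hc', h1, h2⟩
    · exact absurd h hne
    · rw [h1, hcons k c' (c k) i i₁ hc' (hcpos k) h1 h2 (hc1 k) (hc2 k)]
  refine ⟨x, fun k => 1 / c k, hli, fun k => by have := hcpos k; positivity, ?_⟩
  apply Subset.antisymm
  · intro y hy
    -- coordinates
    have hrep : y = ∑ k, (Bx.repr y k) • x k := by
      conv_lhs => rw [← Bx.sum_repr y]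
      exact Finset.sum_congr rfl (fun k _ => by rw [hBx])
    set α := fun k => Bx.repr y k with hα
    obtain ⟨i, hi⟩ := hsurj (fun k => decide (0 ≤ α k))
    have huy := hu i y hy
    have hterm : ∀ k, ⟪u i, x k⟫_ℝ = if 0 ≤ α k then 1 else -(c k) := by
      intro k
      have hk := congrFun hi k
      simp only [pat, decide_eq_decide] at hk
      split_ifs with h
      · exact hk.mpr h
      · exact hlow k i (fun h' => h (hk.mp h'))
    set β : Fin d → ℝ := fun k => if 0 ≤ α k then α k else -(c k) * α k with hβ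
    have hβ0 : ∀ k, 0 ≤ β k := by
      intro k
      simp only [hβ]
      split_ifs with h
      · exact h
      · have := hcpos k
        push Not at h
        nlinarith
    have hβsum : ∑ k, β k ≤ 1 := by
      have : ⟪u i, y⟫_ℝ = ∑ k, β k := by
        conv_lhs => rw [hrep]
        rw [inner_sum]
        apply Finset.sum_congr rfl
        intro k _
        rw [real_inner_smul_right, hterm]
        simp only [hβ]
        split_ifs <;> ring
      linarith
    let pt : Fin d → E := fun k => if 0 ≤ α k then x k else -((1 / c k) • x k)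
    have hy2 : y = ∑ k, β k • pt k := by
      conv_lhs => rw [hrep]
      apply Finset.sum_congr rfl
      intro k _
      simp only [hβ, pt]
      split_ifs with h
      · rfl
      · rw [smul_neg, smul_smul, ← neg_smul]
        congr 1
        have := (hcpos k).ne'
        change α k = _
        field_simp
    set Cv := convexHull ℝ (⋃ k, ({x k, -((1 / c k) • x k)} : Set E)) with hCv
    have hpt : ∀ k, pt k ∈ Cv := by
      intro k
      apply subset_convexHull
      rw [mem_iUnion]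
      refine ⟨k, ?_⟩
      simp only [pt]
      split_ifs <;> simp
    have h0C : (0 : E) ∈ Cv := by
      let k : Fin d := ⟨0, hd0⟩
      have h1 : x k ∈ Cv := by
        apply subset_convexHull
        rw [mem_iUnion]
        exact ⟨k, by simp⟩
      have h2 : -((1 / c k) • x k) ∈ Cv := by
        apply subset_convexHull
        rw [mem_iUnion]
        exact ⟨k, by simp⟩
      have hck := hcpos k
      have h3 := (convex_convexHull ℝ (⋃ k, ({x k, -((1 / c k) • x k)} : Set E))) h1 h2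
        (a := 1 / (1 + c k)) (b := c k / (1 + c k)) (by positivity) (by positivity)
        (by field_simp)
      have h4 : (1 / (1 + c k)) • x k + (c k / (1 + c k)) • -((1 / c k) • x k) = 0 := by
        rw [smul_neg, smul_smul]
        have : c k / (1 + c k) * (1 / c k) = 1 / (1 + c k) := by field_simp
        rw [this, add_neg_cancel]
      rwa [h4] at h3
    rw [hy2]
    have hcv : Convex ℝ Cv := convex_convexHull ℝ _
    let wt : Option (Fin d) → ℝ := fun o => o.elim (1 - ∑ k, β k) β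
    let pp : Option (Fin d) → E := fun o => o.elim 0 pt
    have hmem := hcv.sum_mem (t := Finset.univ) (w := wt) (z := pp)
      (by
        intro o _
        cases o with
        | none => simp only [wt, Option.elim]; linarith
        | some k => exact hβ0 k)
      (by rw [Fintype.sum_option]; simp [wt])
      (by
        intro o _
        cases o with
        | none => exact h0C
        | some k => exact hpt k)
    rw [Fintype.sum_option] at hmem
    simpa [wt, pp] using hmem
  · apply convexHull_min _ hconv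
    intro y hy
    rw [mem_iUnion] at hy
    obtain ⟨k, hk⟩ := hy
    rcases hk with rfl | hk
    · exact (hexp k).1
    · rw [mem_singleton_iff] at hk
      rw [hk]
      have := hc2 k
      rwa [neg_smul] at this

end Pool.Agent.Lib.MP_5e7226_co
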