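import Pool.Agent.Lib.MP_5e7226_co.Reduction

set_option autoImplicit false
set_option linter.unusedSectionVars false

open Set Filter Topology

namespace Pool.Agent.Lib.MP_5e7226_co

/-- Coordinates with respect to a basis. -/
structure Frame (d : ℕ) (E : Type*) [NormedAddCommGroup E] [NormedSpace ℝ E] where
  e : Fin d → E
  c : Fin d → (E →L[ℝ] ℝ)
  rep : ∀ x, ∑ i, c i x • e i = x
  eval : ∀ i j, c i (e j) = if i = j then 1 else 0

/-- the real sign attached to a boolean -/
def bs (b : Bool) : ℝ := if b then 1 else -1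

lemma bs_mul_self (b : Bool) : bs b * bs b = 1 := by cases b <;> simp [bs]

lemma bs_cases (b : Bool) : bs b = 1 ∨ bs b = -1 := by cases b <;> simp [bs]

lemma bs_not (b : Bool) : bs (!b) = - bs b := by cases b <;> simp [bs]

namespace Frame

variable {d : ℕ} {E : Type*} [NormedAddCommGroup E] [NormedSpace ℝ E] (C : Frame d E)

/-- invariance under permutations and even sign changes of the coordinates -/
def Inv (K : Set E) : Prop :=
  (∀ i j : Fin d, ∀ x ∈ K, ∑ k, C.c k x • C.e (Equiv.swap i j k) ∈ K) ∧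
  (∀ τ : Fin d → Bool, ∏ k, bs (τ k) = 1 → ∀ x ∈ K, ∑ k, (bs (τ k) * C.c k x) • C.e k ∈ K)

lemma ext_c {x y : E} (h : ∀ i, C.c i x = C.c i y) : x = y := by
  rw [← C.rep x, ← C.rep y]
  exact Finset.sum_congr rfl (fun i _ => by rw [h])

lemma f_rep (f : E →L[ℝ] ℝ) (x : E) : f x = ∑ i, C.c i x * f (C.e i) := by
  conv_lhs => rw [← C.rep x]
  rw [map_sum]
  exact Finset.sum_congr rfl (fun i _ => by rw [map_smul, smul_eq_mul])

lemma c_sum (a : Fin d → ℝ) (j : Fin d) : C.c j (∑ k, a k • C.e k) = a j := by
  rw [map_sum, Finset.sum_congr rfl (fun k _ => by rw [map_smul, smul_eq_mul, C.eval])]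
  simp

lemma c_swap (i j k : Fin d) (x : E) :
    C.c k (∑ l, C.c l x • C.e (Equiv.swap i j l)) = C.c (Equiv.swap i j k) x := by
  have h : ∑ l, C.c l x • C.e (Equiv.swap i j l) = ∑ l, C.c (Equiv.swap i j l) x • C.e l := by
    rw [← Equiv.sum_comp (Equiv.swap i j) (fun l => C.c (Equiv.swap i j l) x • C.e l)]
    exact Finset.sum_congr rfl fun l _ => by rw [Equiv.swap_apply_self]
  rw [h, C.c_sum]

variable {C}

/-- negation of two coordinates -/
def neg2 (i j : Fin d) : Fin d → Bool := fun k => !(decide (k = i) || decide (k = j))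

lemma prod_neg2 {i j : Fin d} (h : i ≠ j) : ∏ k, bs (neg2 i j k) = 1 := by
  have h1 : ∀ k, bs (neg2 i j k) = (if k = i then -1 else 1) * (if k = j then -1 else 1) := by
    intro k
    by_cases h1 : k = i
    · subst h1
      simp [neg2, bs, h]
    · by_cases h2 : k = j
      · subst h2
        simp [neg2, bs, h1]
      · simp [neg2, bs, h1, h2]
  rw [Finset.prod_congr rfl (fun k _ => h1 k), Finset.prod_mul_distrib, Finset.prod_ite_eq',
    Finset.prod_ite_eq']
  simp

/-- The basic ordering property. -/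
lemma ord {K : Set E} (hinv : C.Inv K) {f : E →L[ℝ] ℝ} {x : E} (hx : x ∈ face K f)
    {i j : Fin d} (hij : i ≠ j) (a b : Bool)
    (h : 0 < bs a * f (C.e i) + bs b * f (C.e j)) : 0 ≤ bs a * C.c i x + bs b * C.c j x := by
  by_contra hcon
  push Not at hcon
  -- the reflected point
  obtain ⟨y, hy, hyi, hyj, hyk⟩ : ∃ y ∈ K, C.c i y = -(bs a * bs b * C.c j x) ∧
      C.c j y = -(bs a * bs b * C.c i x) ∧ ∀ k, k ≠ i → k ≠ j → C.c k y = C.c k x := by
    by_cases hab : a = b
    · -- negate and swap
      have h1 := hinv.2 (neg2 i j) (prod_neg2 hij) x hx.1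
      have h2 := hinv.1 i j _ h1
      refine ⟨_, h2, ?_, ?_, ?_⟩
      · rw [C.c_swap, Equiv.swap_apply_left, C.c_sum, hab, bs_mul_self]
        simp [neg2, bs]
      · rw [C.c_swap, Equiv.swap_apply_right, C.c_sum, hab, bs_mul_self]
        simp [neg2, bs]
      · intro k hki hkj
        rw [C.c_swap, Equiv.swap_apply_of_ne_of_ne hki hkj, C.c_sum]
        simp [neg2, bs, hki, hkj]
    · have h2 := hinv.1 i j _ hx.1
      have hm : bs a * bs b = -1 := by
        cases a <;> cases b <;> simp_all [bs]
      refine ⟨_, h2, ?_, ?_, ?_⟩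
      · rw [C.c_swap, Equiv.swap_apply_left, hm]; ring
      · rw [C.c_swap, Equiv.swap_apply_right, hm]; ring
      · intro k hki hkj
        rw [C.c_swap, Equiv.swap_apply_of_ne_of_ne hki hkj]
  have hle := hx.2 y hy
  rw [C.f_rep f y, C.f_rep f x] at hle
  have hdiff : ∑ k, C.c k y * f (C.e k) - ∑ k, C.c k x * f (C.e k)
      = (C.c i y - C.c i x) * f (C.e i) + (C.c j y - C.c j x) * f (C.e j) := by
    rw [← Finset.sum_sub_distrib]
    have : ∀ k ∈ (Finset.univ : Finset (Fin d)),
        C.c k y * f (C.e k) - C.c k x * f (C.e k)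
        = (if k = i then (C.c i y - C.c i x) * f (C.e i) else 0)
          + (if k = j then (C.c j y - C.c j x) * f (C.e j) else 0) := by
      intro k _
      by_cases h1 : k = i
      · subst h1
        rw [if_pos rfl, if_neg hij]
        ring
      · by_cases h2 : k = j
        · subst h2
          rw [if_pos rfl, if_neg h1]
          ring
        · rw [if_neg h1, if_neg h2, hyk k h1 h2]
          ring
    rw [Finset.sum_congr rfl this, Finset.sum_add_distrib, Finset.sum_ite_eq', Finset.sum_ite_eq',
      if_pos (Finset.mem_univ _), if_pos (Finset.mem_univ _)]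
  have hid : (C.c i y - C.c i x) * f (C.e i) + (C.c j y - C.c j x) * f (C.e j)
      = -(bs a * C.c i x + bs b * C.c j x) * (bs a * f (C.e i) + bs b * f (C.e j)) := by
    rw [hyi, hyj]
    have ha := bs_mul_self a
    have hb := bs_mul_self b
    have e1 : -(bs a * C.c i x + bs b * C.c j x) * (bs a * f (C.e i) + bs b * f (C.e j))
      = -((bs a * bs a) * C.c i x * f (C.e i)) - (bs a * bs b * C.c i x) * f (C.e j)
        - (bs a * bs b * C.c j x) * f (C.e i) - ((bs b * bs b) * C.c j x * f (C.e j)) := by ring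
    rw [e1, ha, hb]
    ring
  have hpos : 0 < -(bs a * C.c i x + bs b * C.c j x) * (bs a * f (C.e i) + bs b * f (C.e j)) :=
    mul_pos (by linarith) h
  linarith

end Frame

/-- A label for each sign vector such that every nontrivial partial sign vector has an extension
whose label lies in its domain. -/
lemma exists_label {d : ℕ} (hd : 0 < d) :
    ∃ lab : (Fin d → Bool) → Fin d, ∀ (S : Finset (Fin d)), S.Nonempty → Sᶜ.Nonempty →
      ∀ σ : Fin d → Bool, ∃ τ : Fin d → Bool, (∀ i ∈ S, τ i = σ i) ∧ lab τ ∈ S := by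
  classical
  refine ⟨fun τ => ⟨(Finset.univ.filter fun i => τ i = true).card % d, Nat.mod_lt _ hd⟩, ?_⟩
  intro S hS hS' σ
  set a := (S.filter fun i => σ i = true).card with ha
  set m := Sᶜ.card with hm
  have hmd : m + 1 ≤ d := by
    have h1 := Finset.card_add_card_compl S
    rw [Fintype.card_fin] at h1
    have h2 := Finset.card_pos.mpr hS
    omega
  -- pigeonhole
  obtain ⟨k, hk, hkS⟩ : ∃ k ∈ Finset.range (m + 1), (⟨(a + k) % d, Nat.mod_lt _ hd⟩ : Fin d) ∈ S := by
    by_contra hcon
    push Not at hcon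
    have hmaps : ∀ k ∈ Finset.range (m + 1), (⟨(a + k) % d, Nat.mod_lt _ hd⟩ : Fin d) ∈ Sᶜ :=
      fun k hk => Finset.mem_compl.mpr (hcon k hk)
    have hinj : Set.InjOn (fun k => (⟨(a + k) % d, Nat.mod_lt _ hd⟩ : Fin d))
        (Finset.range (m + 1) : Set ℕ) := by
      intro k hk l hl hkl
      simp only [Fin.mk.injEq] at hkl
      rw [Finset.mem_coe, Finset.mem_range] at hk hl
      have h3 : k ≡ l [MOD d] := Nat.ModEq.add_left_cancel' a hkl
      have h4 : k % d = l % d := h3
      rwa [Nat.mod_eq_of_lt (by omega), Nat.mod_eq_of_lt (by omega)] at h4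
    have := Finset.card_le_card_of_injOn _ hmaps hinj
    rw [Finset.card_range] at this
    omega
  rw [Finset.mem_range] at hk
  obtain ⟨T, hTS, hTk⟩ := Finset.exists_subset_card_eq (s := Sᶜ) (n := k) (by omega)
  refine ⟨fun i => if i ∈ S then σ i else decide (i ∈ T), ?_, ?_⟩
  · intro i hi
    simp [hi]
  · have hcard : (Finset.univ.filter fun i : Fin d =>
        (if i ∈ S then σ i else decide (i ∈ T)) = true).card = a + k := by
      have hsplit : (Finset.univ.filter fun i : Fin d =>
          (if i ∈ S then σ i else decide (i ∈ T)) = true)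
          = (S.filter fun i => σ i = true) ∪ T := by
        ext i
        simp only [Finset.mem_filter, Finset.mem_univ, true_and, Finset.mem_union]
        by_cases hi : i ∈ S
        · have hiT : i ∉ T := fun h => (Finset.mem_compl.mp (hTS h)) hi
          simp [hi, hiT]
        · simp [hi]
      rw [hsplit, Finset.card_union_of_disjoint, hTk]
      rw [Finset.disjoint_left]
      intro i hi hiT
      exact (Finset.mem_compl.mp (hTS hiT)) (Finset.mem_filter.mp hi).1
    simp only [hcard]
    exact hkS

end Pool.Agent.Lib.MP_5e7226_co
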