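import Pool.Agent.Lib.MP_5e7226_co.TypeDMain

set_option autoImplicit false
set_option linter.unusedSectionVars false

open Set Filter Topology

namespace Pool.Agent.Lib.MP_5e7226_co

namespace Frame

variable {d : ℕ} {E : Type*} [NormedAddCommGroup E] [NormedSpace ℝ E] {C : Frame d E}

/-- any coordinate can be moved to any place with any sign, in dimension at least two -/
lemma move {K : Set E} (hinv : C.Inv K) (hd : 3 ≤ d) {y : E} (hy : y ∈ K) (i j : Fin d) (b : Bool) :
    ∃ z ∈ K, bs b * C.c j z = C.c i y := by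
  -- swap first
  have h1 := hinv.1 i j y hy
  have h2 : C.c j (∑ k, C.c k y • C.e (Equiv.swap i j k)) = C.c i y := by
    rw [C.c_swap, Equiv.swap_apply_right]
  cases b with
  | true => exact ⟨_, h1, by rw [h2]; simp [bs]⟩
  | false =>
    obtain ⟨k, -, hk, -, -⟩ := exists_two hd j
    have h3 := hinv.2 (neg2 j k) (prod_neg2 hk.symm) _ h1
    refine ⟨_, h3, ?_⟩
    rw [C.c_sum, h2]
    simp [neg2, bs]

/-- when `|S| ≥ 1` and some coordinate of the normal vanishes -/
lemma partial_pos {K : Set E} (hinv : C.Inv K) (hd : 3 ≤ d) (h0 : (0 : E) ∈ interior K)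
    (hcorner : ∀ ρ t, ¬ C.Corner K ρ t) {f : E →L[ℝ] ℝ} (hf : f ≠ 0) {τ : Fin d → Bool}
    (hτ : ∀ i, f (C.e i) ≠ 0 → 0 < bs (τ i) * f (C.e i)) {j : Fin d} (hj : f (C.e j) ≠ 0)
    {z : Fin d} (hz : f (C.e z) = 0) {x : E} (hx : x ∈ face K f) : 0 < C.wlab τ j 0 x := by
  classical
  have hxne : x ≠ 0 := by
    intro h
    have := pos_of_face h0 hf hx
    rw [h, map_zero] at this
    exact lt_irrefl _ this
  have hjz : j ≠ z := by
    rintro rfl
    exact hj hz
  have hpair : ∀ i, i ≠ j → 0 ≤ bs (τ i) * C.c i x + bs (τ j) * C.c j x := by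
    intro i hij
    apply ord hinv hx hij
    have h1 := hτ j hj
    by_cases hi : f (C.e i) = 0
    · rw [hi, mul_zero, zero_add]; exact h1
    · exact add_pos (hτ i hi) h1
  by_contra hcon
  have heq := C.wlab_zero hpair hcon
  -- the coordinate `j` is nonnegative
  have hyj : 0 ≤ bs (τ j) * C.c j x := by
    have h1 : 0 ≤ bs (!(τ z)) * C.c z x + bs (τ j) * C.c j x := by
      apply ord hinv hx hjz.symm
      rw [hz, mul_zero, zero_add]
      exact hτ j hj
    rw [bs_not] at h1
    have h2 := heq z hjz.symm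
    linarith
  -- it is positive
  have hyj' : 0 < bs (τ j) * C.c j x := by
    refine lt_of_le_of_ne hyj ?_
    intro h
    apply hxne
    apply C.ext_c
    intro i
    rw [map_zero]
    have hb := bs_mul_self (τ i)
    have h3 : bs (τ i) * C.c i x = 0 := by
      by_cases hij : i = j
      · rw [hij]; exact h.symm
      · rw [heq i hij, ← h, neg_zero]
    have : bs (τ i) * (bs (τ i) * C.c i x) = 0 := by rw [h3, mul_zero]
    rw [← mul_assoc, hb, one_mul] at this
    exact this
  -- all other normals vanish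
  have hother : ∀ i, i ≠ j → f (C.e i) = 0 := by
    intro i hij
    by_contra hi
    have hiz : i ≠ z := by
      rintro rfl
      exact hi hz
    -- `y_i ≥ |y_z|`
    have h1 : 0 ≤ bs (τ i) * C.c i x + bs (τ z) * C.c z x := by
      apply ord hinv hx hiz
      rw [hz, mul_zero, add_zero]
      exact hτ i hi
    have h3 := heq z hjz.symm
    have h4 := heq i hij
    linarith
  -- corner
  set t : ℝ := bs (τ j) * C.c j x with ht
  apply hcorner (fun i => if i = j then τ j else !(τ i)) t
  have hfx : ∀ y, f y = C.c j y * f (C.e j) := by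
    intro y
    rw [C.f_rep f y, Finset.sum_eq_single j]
    · intro i _ hij
      rw [hother i hij, mul_zero]
    · simp
  have hbound : ∀ y ∈ K, bs (τ j) * C.c j y ≤ t := by
    intro y hy
    have h1 := hx.2 y hy
    rw [hfx y, hfx x] at h1
    have h2 := hτ j hj
    have hb := bs_mul_self (τ j)
    have e : ∀ y, C.c j y * f (C.e j) = (bs (τ j) * C.c j y) * (bs (τ j) * f (C.e j)) := by
      intro y
      have : (bs (τ j) * C.c j y) * (bs (τ j) * f (C.e j))
        = (bs (τ j) * bs (τ j)) * (C.c j y * f (C.e j)) := by ring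
      rw [this, hb, one_mul]
    rw [e y, e x] at h1
    exact le_of_mul_le_mul_right h1 h2
  refine ⟨hyj', ?_, ?_⟩
  · have hxe : ∑ k, (t * bs ((fun i => if i = j then τ j else !(τ i)) k)) • C.e k = x := by
      conv_rhs => rw [← C.rep x]
      apply Finset.sum_congr rfl
      intro k _
      congr 1
      by_cases hk : k = j
      · subst hk
        simp only [if_true]
        have hb := bs_mul_self (τ k)
        rw [ht]
        calc bs (τ k) * C.c k x * bs (τ k) = (bs (τ k) * bs (τ k)) * C.c k x := by ring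
          _ = C.c k x := by rw [hb, one_mul]
      · simp only [if_neg hk]
        rw [bs_not]
        have hb := bs_mul_self (τ k)
        have h1 := heq k hk
        have h2 : t = -(bs (τ k) * C.c k x) := by rw [h1, neg_neg]
        rw [h2]
        calc -(bs (τ k) * C.c k x) * -bs (τ k) = (bs (τ k) * bs (τ k)) * C.c k x := by ring
          _ = C.c k x := by rw [hb, one_mul]
    rw [hxe]
    exact hx.1
  · intro y hy i
    rw [abs_le]
    constructor
    · obtain ⟨z', hz', h1⟩ := move hinv hd hy i j (!(τ j))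
      have h2 := hbound z' hz'
      rw [bs_not] at h1
      linarith
    · obtain ⟨z', hz', h1⟩ := move hinv hd hy i j (τ j)
      have h2 := hbound z' hz'
      linarith

lemma robustD {K : Set E} (hK : IsCompact K) {f₀ : E →L[ℝ] ℝ} (τ : Fin d → Bool) (j : Fin d)
    (h : ∀ x ∈ face K f₀, 0 < C.wlab τ j 0 x) :
    ∀ᶠ z : ℝ × (E →L[ℝ] ℝ) in 𝓝 (0, f₀), ∀ x ∈ face K z.2, 0 < C.wlab τ j z.1 x := by
  apply eventually_face hK (0 : ℝ) f₀ (fun ε _ x => 0 < C.wlab τ j ε x)
  intro x hx
  have hc : Continuous (fun z : (ℝ × (E →L[ℝ] ℝ)) × E => C.wlab τ j z.1.1 z.2) := by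
    simp only [wlab_apply]
    fun_prop
  have h1 : 0 < (fun z : (ℝ × (E →L[ℝ] ℝ)) × E => C.wlab τ j z.1.1 z.2) (((0 : ℝ), f₀), x) := h x hx
  have := (hc.continuousAt (x := (((0 : ℝ), f₀), x))).eventually (lt_mem_nhds h1)
  filter_upwards [this] with z hz _ using hz

/-- Case B. -/
theorem caseB [FiniteDimensional ℝ E] {K : Set E} (hK : IsCompact K) (hinv : C.Inv K) (hd : 3 ≤ d)
    (h0 : (0 : E) ∈ interior K) (hcorner : ∀ ρ t, ¬ C.Corner K ρ t) : Sep K (2 ^ d) := by
  classical
  obtain ⟨lab, hlab⟩ := exists_label (show 0 < d by omega)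
  obtain ⟨ε, hε, h⟩ := exists_eps (V := E) (P := fun ε f => 0 < ε →
      ∃ τ, ∀ x ∈ face K f, 0 < C.wlab τ (lab τ) ε x)
    (by
      intro ε f c hc h hε
      obtain ⟨A, hA⟩ := h hε
      exact ⟨A, by rwa [face_smul K f hc]⟩)
    (by
      intro f₀ hf₀
      obtain ⟨σ, hσ⟩ := C.exists_sign f₀
      by_cases hz : ∃ z, f₀ (C.e z) = 0
      · obtain ⟨z, hz⟩ := hz
        let S : Finset (Fin d) := Finset.univ.filter fun i => f₀ (C.e i) ≠ 0
        have hSmem : ∀ i, i ∈ S ↔ f₀ (C.e i) ≠ 0 := by intro i; simp [S]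
        have hS : S.Nonempty := by
          by_contra hcon
          rw [Finset.not_nonempty_iff_eq_empty] at hcon
          apply hf₀
          ext x
          rw [C.f_rep f₀ x]
          apply Finset.sum_eq_zero
          intro i _
          have : f₀ (C.e i) = 0 := by
            by_contra hi
            have := (hSmem i).mpr hi
            rw [hcon] at this
            exact absurd this (Finset.notMem_empty i)
          rw [this, mul_zero]
        have hS' : Sᶜ.Nonempty := ⟨z, by rw [Finset.mem_compl, hSmem]; exact not_not.mpr hz⟩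
        obtain ⟨τ, hτ1, hτ2⟩ := hlab S hS hS' σ
        have hpos : ∀ x ∈ face K f₀, 0 < C.wlab τ (lab τ) 0 x := by
          intro x hx
          apply partial_pos hinv hd h0 hcorner hf₀ _ ((hSmem _).mp hτ2) hz hx
          intro i hi
          rw [hτ1 i ((hSmem i).mpr hi)]
          exact (hσ i).2 hi
        filter_upwards [robustD hK τ (lab τ) hpos] with w hw _ _
        exact ⟨τ, hw⟩
      · push Not at hz
        have hev : ∀ᶠ w : ℝ × (E →L[ℝ] ℝ) in 𝓝 (0, f₀), ∀ i, 0 < bs (σ i) * w.2 (C.e i) := by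
          rw [eventually_all]
          intro i
          have hc : Continuous (fun w : ℝ × (E →L[ℝ] ℝ) => bs (σ i) * w.2 (C.e i)) :=
            continuous_const.mul (continuous_eval.comp (continuous_snd.prodMk continuous_const))
          have h1 : 0 < (fun w : ℝ × (E →L[ℝ] ℝ) => bs (σ i) * w.2 (C.e i)) ((0 : ℝ), f₀) :=
            (hσ i).2 (hz i)
          exact (hc.continuousAt (x := ((0 : ℝ), f₀))).eventually (lt_mem_nhds h1)
        have hev1 : ∀ᶠ w : ℝ × (E →L[ℝ] ℝ) in 𝓝 (0, f₀), w.1 < 1 :=
          (continuous_fst.continuousAt (x := ((0 : ℝ), f₀))).eventually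
            (gt_mem_nhds (by norm_num))
        filter_upwards [hev, hev1] with w hw hw1 _ hwpos
        refine ⟨σ, fun x hx => ?_⟩
        have hwne : w.2 ≠ 0 := by
          intro h
          have h2 := hw ⟨0, by omega⟩
          rw [h] at h2
          simp at h2
        apply C.wlab_pos hd _ _ _ hwpos hw1
        · intro h
          have := pos_of_face h0 hwne hx
          rw [h, map_zero] at this
          exact lt_irrefl _ this
        · intro i j hij
          exact ord hinv hx hij _ _ (add_pos (hw i) (hw j)))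
  exact Sep.of_fintype (fun τ => C.wlab τ (lab τ) ε) (fun f hf => h f hf hε) (by simp)

end Frame

/-- Main theorem for type `D`. -/
theorem sep_typeD {d : ℕ} (hd : 4 ≤ d) {E : Type*} [NormedAddCommGroup E] [NormedSpace ℝ E]
    [FiniteDimensional ℝ E] {C : Frame d E} {K : Set E} (hK : IsCompact K) (hinv : C.Inv K)
    (h0 : (0 : E) ∈ interior K) : Sep K (2 ^ d) := by
  by_cases hc : ∃ ρ t, C.Corner K ρ t
  · obtain ⟨ρ, t, hc⟩ := hc
    obtain ⟨n, rfl⟩ : ∃ n, d = n + 1 := ⟨d - 1, by omega⟩
    exact Frame.caseA (by omega) hinv h0 hc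
  · push Not at hc
    exact Frame.caseB hK hinv (by omega) h0 hc

end Pool.Agent.Lib.MP_5e7226_co

namespace Pool.Agent.Lib.MP_5e7226_co

/-- Final form for bodies with the symmetries of type `D`. -/
theorem typeD_final {d : ℕ} (hd : 4 ≤ d) (K : Set (EuclideanSpace ℝ (Fin d))) (hK : IsCompact K)
    (o : EuclideanSpace ℝ (Fin d)) (ho : o ∈ interior K)
    (b : Fin d → EuclideanSpace ℝ (Fin d)) (hb : LinearIndependent ℝ b)
    (hsym : ∀ (σ : Equiv.Perm (Fin d)) (s : Fin d → ℝ), (∀ i, s i = 1 ∨ s i = -1) →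
      ∏ i, s i = 1 → ∀ c : Fin d → ℝ, o + ∑ i, c i • b i ∈ K →
        o + ∑ i, (s i * c i) • b (σ i) ∈ K) :
    ∃ w : Fin (2 ^ d) → EuclideanSpace ℝ (Fin d), ∃ a : Fin (2 ^ d) → ℝ,
      ∀ u x₀ : EuclideanSpace ℝ (Fin d), u ≠ 0 → x₀ ∈ K →
        (∀ y ∈ K, inner ℝ u y ≤ inner ℝ u x₀) →
          ∃ i, inner ℝ (w i) o < a i ∧
            ∀ x ∈ K, inner ℝ u x = inner ℝ u x₀ → a i < inner ℝ (w i) x := by
  classical
  have hne : Nonempty (Fin d) := ⟨⟨0, by omega⟩⟩
  let B : Module.Basis (Fin d) ℝ (EuclideanSpace ℝ (Fin d)) :=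
    basisOfLinearIndependentOfCardEqFinrank hb (by simp)
  have hB : ∀ i, B i = b i := fun i => by simp [B]
  let C : Frame d (EuclideanSpace ℝ (Fin d)) :=
    { e := b
      c := fun i => LinearMap.toContinuousLinearMap (B.coord i)
      rep := by
        intro x
        conv_rhs => rw [← B.sum_repr x]
        exact Finset.sum_congr rfl fun i _ => by rw [hB i]; rfl
      eval := by
        intro i j
        rw [← hB j, LinearMap.coe_toContinuousLinearMap', Module.Basis.coord_apply,
          Module.Basis.repr_self, Finsupp.single_apply]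
        by_cases h : i = j
        · simp [h]
        · have : ¬ j = i := fun h' => h h'.symm
          simp [h, this] }
  apply sep_to_hyperplanes hK o
  have hK' : IsCompact ((fun x => x - o) '' K) := hK.image (continuous_id.sub continuous_const)
  have hmem : ∀ x, x ∈ (fun x => x - o) '' K ↔ o + x ∈ K := by
    intro x
    constructor
    · rintro ⟨y, hy, rfl⟩
      simpa using hy
    · intro h
      exact ⟨o + x, h, by simp⟩
  have h0 : (0 : EuclideanSpace ℝ (Fin d)) ∈ interior ((fun x => x - o) '' K) := by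
    have h1 : (fun x => x - o) '' K = (fun x => o + x) ⁻¹' K := by
      ext x
      rw [hmem]
      rfl
    rw [h1, mem_interior_iff_mem_nhds]
    have hc : ContinuousAt (fun x : EuclideanSpace ℝ (Fin d) => o + x) 0 := by fun_prop
    apply hc.preimage_mem_nhds
    rw [add_zero]
    exact mem_interior_iff_mem_nhds.mp ho
  have hinv : C.Inv ((fun x => x - o) '' K) := by
    constructor
    · intro i j x hx
      rw [hmem] at hx ⊢
      rw [← C.rep x] at hx
      have h1 := hsym (Equiv.swap i j) (fun _ => 1) (fun _ => Or.inl rfl) (by simp)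
        (fun k => C.c k x) hx
      simpa using h1
    · intro τ hτ x hx
      rw [hmem] at hx ⊢
      rw [← C.rep x] at hx
      have h1 := hsym (Equiv.refl _) (fun k => bs (τ k)) (fun k => bs_cases _) hτ
        (fun k => C.c k x) hx
      simpa using h1
  exact sep_typeD hd hK' hinv h0

end Pool.Agent.Lib.MP_5e7226_co
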