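import Pool.Agent.Lib.MP_5e7226_co.TypeD

set_option autoImplicit false
set_option linter.unusedSectionVars false

open Set Filter Topology

namespace Pool.Agent.Lib.MP_5e7226_co

lemma bs_inj {a b : Bool} (h : bs a = bs b) : a = b := by
  cases a <;> cases b
  · rfl
  · exfalso; norm_num [bs] at h
  · exfalso; norm_num [bs] at h
  · rfl

/-- At least two other indices. -/
lemma exists_two {d : ℕ} (hd : 3 ≤ d) (j : Fin d) : ∃ k l : Fin d, k ≠ j ∧ l ≠ j ∧ k ≠ l := by
  have h : 2 ≤ ((Finset.univ : Finset (Fin d)).erase j).card := by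
    rw [Finset.card_erase_of_mem (Finset.mem_univ j), Finset.card_univ, Fintype.card_fin]
    omega
  obtain ⟨k, hk, l, hl, hkl⟩ := Finset.one_lt_card.mp (show 1 < _ from h)
  exact ⟨k, l, Finset.ne_of_mem_erase hk, Finset.ne_of_mem_erase hl, hkl⟩

/-- pairwise nonnegative sums: the total is positive -/
lemma sum_pos_of_pairs {d : ℕ} (hd : 3 ≤ d) (y : Fin d → ℝ)
    (h : ∀ i j, i ≠ j → 0 ≤ y i + y j) (hne : ∃ i, y i ≠ 0) : 0 < ∑ i, y i := by
  classical
  by_cases hneg : ∃ i, y i < 0
  · obtain ⟨i, hi⟩ := hneg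
    have h1 : ∀ j ∈ (Finset.univ : Finset (Fin d)).erase i, -y i ≤ y j := by
      intro j hj
      have := h i j (Finset.ne_of_mem_erase hj).symm
      linarith
    have h2 := Finset.card_nsmul_le_sum _ _ _ h1
    rw [Finset.card_erase_of_mem (Finset.mem_univ i), Finset.card_univ, Fintype.card_fin,
      nsmul_eq_mul] at h2
    have h3 : (2 : ℝ) ≤ ((d - 1 : ℕ) : ℝ) := by
      have : 2 ≤ d - 1 := by omega
      exact_mod_cast this
    rw [← Finset.add_sum_erase _ _ (Finset.mem_univ i)]
    nlinarith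
  · push Not at hneg
    obtain ⟨i, hi⟩ := hne
    have : 0 < y i := lt_of_le_of_ne (hneg i) hi.symm
    exact Finset.sum_pos' (fun j _ => hneg j) ⟨i, Finset.mem_univ i, this⟩

namespace Frame

variable {d : ℕ} {E : Type*} [NormedAddCommGroup E] [NormedSpace ℝ E] (C : Frame d E)

lemma exists_ne {x : E} (hx : x ≠ 0) : ∃ i, C.c i x ≠ 0 := by
  by_contra hcon
  push Not at hcon
  apply hx
  apply C.ext_c
  intro i
  rw [hcon i, map_zero]

/-- the symmetric functional -/
noncomputable def wsum (τ : Fin d → Bool) : E →L[ℝ] ℝ := ∑ i, bs (τ i) • C.c i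

lemma wsum_apply (τ : Fin d → Bool) (x : E) : C.wsum τ x = ∑ i, bs (τ i) * C.c i x := by
  simp [wsum]

/-- the functional with label `j` -/
noncomputable def wlab (τ : Fin d → Bool) (j : Fin d) (ε : ℝ) : E →L[ℝ] ℝ :=
  ∑ i ∈ Finset.univ.erase j, (bs (τ i) • C.c i + bs (τ j) • C.c j) - (ε * bs (τ j)) • C.c j

lemma wlab_apply (τ : Fin d → Bool) (j : Fin d) (ε : ℝ) (x : E) :
    C.wlab τ j ε x = ∑ i ∈ Finset.univ.erase j, (bs (τ i) * C.c i x + bs (τ j) * C.c j x)
      - ε * (bs (τ j) * C.c j x) := by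
  simp only [wlab, sub_apply, sum_apply, add_apply, smul_apply, smul_eq_mul]
  ring

/-- full sign pattern: exact positivity -/
lemma wlab_pos {τ : Fin d → Bool} (hd : 3 ≤ d) {x : E} (hx : x ≠ 0)
    (h : ∀ i j, i ≠ j → 0 ≤ bs (τ i) * C.c i x + bs (τ j) * C.c j x) (j : Fin d) {ε : ℝ}
    (hε : 0 < ε) (hε1 : ε < 1) : 0 < C.wlab τ j ε x := by
  rw [wlab_apply]
  have hnn : ∀ i ∈ Finset.univ.erase j, 0 ≤ bs (τ i) * C.c i x + bs (τ j) * C.c j x :=
    fun i hi => h i j (Finset.ne_of_mem_erase hi)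
  have hsum := Finset.sum_nonneg hnn
  rcases lt_trichotomy (bs (τ j) * C.c j x) 0 with hj | hj | hj
  · nlinarith
  · rw [hj, mul_zero, sub_zero]
    obtain ⟨i, hi⟩ := C.exists_ne hx
    have hij : i ≠ j := by
      rintro rfl
      have hb := bs_mul_self (τ i)
      apply hi
      have : bs (τ i) * (bs (τ i) * C.c i x) = 0 := by rw [hj, mul_zero]
      rw [← mul_assoc, hb, one_mul] at this
      exact this
    apply Finset.sum_pos'
    · intro k hk
      have := hnn k hk
      rwa [hj] at this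
    · refine ⟨i, Finset.mem_erase.mpr ⟨hij, Finset.mem_univ i⟩, ?_⟩
      have h1 := h i j hij
      rw [hj, add_zero] at h1
      rw [add_zero]
      refine lt_of_le_of_ne h1 ?_
      intro h2
      apply hi
      have hb := bs_mul_self (τ i)
      have : bs (τ i) * (bs (τ i) * C.c i x) = 0 := by rw [← h2, mul_zero]
      rw [← mul_assoc, hb, one_mul] at this
      exact this
  · obtain ⟨k, l, hk, hl, hkl⟩ := exists_two hd j
    obtain ⟨m, hm, hmn⟩ : ∃ m, m ≠ j ∧ 0 ≤ bs (τ m) * C.c m x := by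
      by_cases h1 : 0 ≤ bs (τ k) * C.c k x
      · exact ⟨k, hk, h1⟩
      · push Not at h1
        have := h k l hkl
        exact ⟨l, hl, by linarith⟩
    have h2 := Finset.single_le_sum hnn (Finset.mem_erase.mpr ⟨hm, Finset.mem_univ m⟩)
    nlinarith

/-- nonnegativity of the unperturbed functional and the case of equality -/
lemma wlab_zero {τ : Fin d → Bool} {x : E} {j : Fin d}
    (h : ∀ i, i ≠ j → 0 ≤ bs (τ i) * C.c i x + bs (τ j) * C.c j x)
    (h0 : ¬ 0 < C.wlab τ j 0 x) : ∀ i, i ≠ j → bs (τ i) * C.c i x = -(bs (τ j) * C.c j x) := by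
  rw [wlab_apply, zero_mul, sub_zero] at h0
  have hnn : ∀ i ∈ Finset.univ.erase j, 0 ≤ bs (τ i) * C.c i x + bs (τ j) * C.c j x :=
    fun i hi => h i (Finset.ne_of_mem_erase hi)
  have hz : ∑ i ∈ Finset.univ.erase j, (bs (τ i) * C.c i x + bs (τ j) * C.c j x) = 0 :=
    le_antisymm (not_lt.mp h0) (Finset.sum_nonneg hnn)
  intro i hi
  have := (Finset.sum_eq_zero_iff_of_nonneg hnn).mp hz i
    (Finset.mem_erase.mpr ⟨hi, Finset.mem_univ i⟩)
  linarith

/-- compatible sign vector -/
lemma exists_sign (f : E →L[ℝ] ℝ) : ∃ τ : Fin d → Bool, ∀ i, 0 ≤ bs (τ i) * f (C.e i) ∧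
    (f (C.e i) ≠ 0 → 0 < bs (τ i) * f (C.e i)) := by
  refine ⟨fun i => decide (0 ≤ f (C.e i)), fun i => ?_⟩
  by_cases h : 0 ≤ f (C.e i)
  · simp only [h, decide_true, bs, if_true, one_mul]
    exact ⟨trivial, fun h' => lt_of_le_of_ne h (Ne.symm h')⟩
  · push Not at h
    simp only [not_le.mpr h, decide_false, bs]
    constructor
    · simp; linarith
    · intro _; simp; linarith

/-- The body is bounded by `t` in all coordinates and contains the sign vector `t • ρ`. -/
def Corner (K : Set E) (ρ : Fin d → Bool) (t : ℝ) : Prop :=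
  0 < t ∧ (∑ k, (t * bs (ρ k)) • C.e k) ∈ K ∧ ∀ y ∈ K, ∀ i, |C.c i y| ≤ t

variable {C}

/-- In case A, faces with a compatible sign vector of the right parity. -/
lemma corner_face {K : Set E} (hinv : C.Inv K) {ρ : Fin d → Bool} {t : ℝ} (hc : C.Corner K ρ t)
    {f : E →L[ℝ] ℝ} {τ : Fin d → Bool} (hτ : ∀ i, 0 ≤ bs (τ i) * f (C.e i))
    (hpar : ∏ i, bs (τ i) = ∏ i, bs (ρ i)) {x : E} (hx : x ∈ face K f) {i : Fin d}
    (hi : f (C.e i) ≠ 0) : bs (τ i) * C.c i x = t := by
  obtain ⟨ht, hmem, hbd⟩ := hc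
  -- the point `t • τ` is in `K`
  have hmem' : (∑ k, (t * bs (τ k)) • C.e k) ∈ K := by
    have h1 := hinv.2 (fun k => decide (τ k = ρ k)) (by
      have : ∀ k, bs (decide (τ k = ρ k)) = bs (τ k) * bs (ρ k) := by
        intro k
        cases τ k <;> cases ρ k <;> simp [bs]
      rw [Finset.prod_congr rfl (fun k _ => this k), Finset.prod_mul_distrib, hpar,
        ← Finset.prod_mul_distrib]
      exact Finset.prod_eq_one fun k _ => bs_mul_self _) _ hmem
    have h2 : ∀ k, bs (decide (τ k = ρ k)) * C.c k (∑ l, (t * bs (ρ l)) • C.e l) = t * bs (τ k) := by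
      intro k
      rw [C.c_sum]
      cases τ k <;> cases ρ k <;> simp [bs]
    rwa [Finset.sum_congr rfl (fun k _ => by rw [h2 k])] at h1
  have hle := hx.2 _ hmem'
  rw [C.f_rep f (∑ k, (t * bs (τ k)) • C.e k), C.f_rep f x] at hle
  have hterm : ∀ k ∈ (Finset.univ : Finset (Fin d)), C.c k x * f (C.e k)
      ≤ C.c k (∑ l, (t * bs (τ l)) • C.e l) * f (C.e k) := by
    intro k _
    rw [C.c_sum]
    have h1 := hτ k
    have h2 := hbd x hx.1 k
    have hb := bs_mul_self (τ k)
    have h3 : bs (τ k) * C.c k x ≤ t := by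
      rcases bs_cases (τ k) with h | h
      · rw [h, one_mul]; exact (le_abs_self _).trans h2
      · rw [h]; have := (neg_abs_le (C.c k x)); linarith
    have h4 : C.c k x * f (C.e k) = (bs (τ k) * C.c k x) * (bs (τ k) * f (C.e k)) := by
      have : (bs (τ k) * C.c k x) * (bs (τ k) * f (C.e k))
        = (bs (τ k) * bs (τ k)) * (C.c k x * f (C.e k)) := by ring
      rw [this, hb, one_mul]
    rw [h4, mul_assoc t]
    exact mul_le_mul_of_nonneg_right h3 h1
  have heq := (Finset.sum_eq_sum_iff_of_le hterm).mp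
    (le_antisymm (Finset.sum_le_sum hterm) hle) i (Finset.mem_univ i)
  rw [C.c_sum] at heq
  have h5 := mul_right_cancel₀ hi heq
  rw [h5]
  have hb := bs_mul_self (τ i)
  calc bs (τ i) * (t * bs (τ i)) = t * (bs (τ i) * bs (τ i)) := by ring
    _ = t := by rw [hb, mul_one]

/-- parity of a sign vector is a sign -/
lemma prod_cases (τ : Fin d → Bool) : ∏ i, bs (τ i) = 1 ∨ ∏ i, bs (τ i) = -1 := by
  have h : (∏ i, bs (τ i)) * (∏ i, bs (τ i)) = 1 := by
    rw [← Finset.prod_mul_distrib]
    exact Finset.prod_eq_one fun k _ => bs_mul_self _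
  exact mul_self_eq_one_iff.mp h

/-- flip one coordinate -/
lemma prod_update (τ : Fin d → Bool) (z : Fin d) :
    ∏ i, bs (Function.update τ z (!(τ z)) i) = - ∏ i, bs (τ i) := by
  rw [← Finset.mul_prod_erase _ _ (Finset.mem_univ z),
    ← Finset.mul_prod_erase (a := z) Finset.univ (fun i => bs (τ i)) (Finset.mem_univ z)]
  rw [Function.update_self, bs_not]
  have : ∀ i ∈ Finset.univ.erase z, bs (Function.update τ z (!(τ z)) i) = bs (τ i) := by
    intro i hi
    rw [Function.update_of_ne (Finset.ne_of_mem_erase hi)]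
  rw [Finset.prod_congr rfl this]
  ring

/-- Case A. -/
theorem caseA {n : ℕ} (hn : 3 ≤ n) {E : Type*} [NormedAddCommGroup E] [NormedSpace ℝ E]
    {C : Frame (n + 1) E} {K : Set E} (hinv : C.Inv K) (h0 : (0 : E) ∈ interior K)
    {ρ : Fin (n + 1) → Bool} {t : ℝ} (hc : C.Corner K ρ t) : Sep K (2 ^ (n + 1)) := by
  classical
  -- complete a sign vector on the last `n` coordinates to one of the opposite parity
  let q : (Fin n → Bool) → Bool := fun g => decide (∏ i, bs (g i) = -∏ i, bs (ρ i))
  have hq : ∀ g : Fin n → Bool, ∏ i, bs ((Fin.cons (q g) g : Fin (n + 1) → Bool) i)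
      = -∏ i, bs (ρ i) := by
    intro g
    rw [Fin.prod_univ_succ]
    simp only [Fin.cons_zero, Fin.cons_succ]
    rcases prod_cases g with h1 | h1 <;> rcases prod_cases ρ with h2 | h2 <;>
      (simp only [q, h1, h2]; norm_num [bs])
  let w : (Fin n → Bool) ⊕ (Fin (n + 1) × Bool) → (E →L[ℝ] ℝ) := fun s =>
    match s with
    | Sum.inl g => C.wsum (Fin.cons (q g) g)
    | Sum.inr p => bs p.2 • C.c p.1
  apply Sep.of_fintype w
  · intro f hf
    -- some coordinate is nonzero
    obtain ⟨i₀, hi₀⟩ : ∃ i, f (C.e i) ≠ 0 := by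
      by_contra hcon
      push Not at hcon
      apply hf
      ext x
      rw [C.f_rep f x]
      simp [hcon]
    obtain ⟨τ, hτ⟩ := C.exists_sign f
    -- the case where a compatible sign vector of the right parity exists
    have key : ∀ τ' : Fin (n + 1) → Bool, (∀ i, 0 ≤ bs (τ' i) * f (C.e i)) →
        ∏ i, bs (τ' i) = ∏ i, bs (ρ i) → ∃ s, ∀ x ∈ face K f, 0 < w s x := by
      intro τ' hτ' hpar
      refine ⟨Sum.inr (i₀, τ' i₀), fun x hx => ?_⟩
      have h1 := corner_face hinv hc hτ' hpar hx hi₀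
      change 0 < (bs (τ' i₀) • C.c i₀) x
      rw [smul_apply, smul_eq_mul, h1]
      exact hc.1
    by_cases hpar : ∏ i, bs (τ i) = ∏ i, bs (ρ i)
    · exact key τ (fun i => (hτ i).1) hpar
    · have hpar' : ∏ i, bs (τ i) = -∏ i, bs (ρ i) := by
        rcases prod_cases τ with h1 | h1 <;> rcases prod_cases ρ with h2 | h2
        · exact absurd (h1.trans h2.symm) hpar
        · rw [h1, h2]; norm_num
        · rw [h1, h2]
        · exact absurd (h1.trans h2.symm) hpar
      by_cases hz : ∃ z, f (C.e z) = 0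
      · obtain ⟨z, hz⟩ := hz
        apply key (Function.update τ z (!(τ z)))
        · intro i
          by_cases h : i = z
          · subst h; rw [hz, mul_zero]
          · rw [Function.update_of_ne h]; exact (hτ i).1
        · rw [prod_update, hpar', neg_neg]
      · push Not at hz
        refine ⟨Sum.inl (Fin.tail τ), fun x hx => ?_⟩
        have hτ' : (Fin.cons (q (Fin.tail τ)) (Fin.tail τ) : Fin (n + 1) → Bool) = τ := by
          have h1 : q (Fin.tail τ) = τ 0 := by
            have h2 := hq (Fin.tail τ)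
            have h3 : ∏ i, bs (τ i) = bs (τ 0) * ∏ i, bs (Fin.tail τ i) := by
              rw [Fin.prod_univ_succ]; rfl
            rw [Fin.prod_univ_succ] at h2
            simp only [Fin.cons_zero, Fin.cons_succ] at h2
            rw [← hpar', h3] at h2
            have hne : ∏ i, bs (Fin.tail τ i) ≠ 0 := by
              rcases prod_cases (Fin.tail τ) with h | h <;> rw [h] <;> norm_num
            exact bs_inj (mul_right_cancel₀ hne h2)
          rw [h1]
          exact Fin.cons_self_tail τ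
        change 0 < C.wsum (Fin.cons (q (Fin.tail τ)) (Fin.tail τ)) x
        rw [hτ', wsum_apply]
        have hxne : x ≠ 0 := by
          intro h
          have := pos_of_face h0 hf hx
          rw [h, map_zero] at this
          exact lt_irrefl _ this
        apply sum_pos_of_pairs (by omega)
        · intro i j hij
          apply ord hinv hx hij
          exact add_pos ((hτ i).2 (hz i)) ((hτ j).2 (hz j))
        · obtain ⟨i, hi⟩ := C.exists_ne hxne
          refine ⟨i, mul_ne_zero ?_ hi⟩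
          rcases bs_cases (τ i) with h | h <;> rw [h] <;> norm_num
  · simp only [Fintype.card_sum, Fintype.card_prod, Fintype.card_fun, Fintype.card_bool,
      Fintype.card_fin]
    have h1 : ∀ m : ℕ, 3 ≤ m → (m + 1) * 2 ≤ 2 ^ m := by
      intro m hm
      induction m, hm using Nat.le_induction with
      | base => norm_num
      | succ k hk ih => rw [pow_succ]; omega
    have := h1 n hn
    rw [pow_succ]
    omega

end Frame

end Pool.Agent.Lib.MP_5e7226_co
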