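import Pool.Agent.Lib.MP_5e7226_co.UncS4

/-! The equality case for the polar polytopes: a cube-like family gives a parallelepiped. -/

set_option autoImplicit false
set_option linter.unusedSectionVars false

namespace Pool.Agent.Lib.MP_5e7226_co.Unc

open Set

/-- A parallelepiped is the convex hull of its vertices. -/
lemma cube_subset_hull {d : ℕ} {E : Type*} [AddCommGroup E] [Module ℝ E] (p : E) (v : Fin d → E)
    (c : Fin d → ℝ) (hc : ∀ i, |c i| ≤ 1) :
    p + ∑ i, c i • v i ∈ convexHull ℝ {x | ∃ η : Fin d → ℝ, (∀ i, |η i| = 1) ∧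
      x = p + ∑ i, η i • v i} := by
  classical
  have h1 : c ∈ convexHull ℝ ((univ : Set (Fin d)).pi fun _ => ({-1, 1} : Set ℝ)) := by
    rw [convexHull_pi]
    intro i _
    rw [convexHull_pair, segment_eq_Icc (by norm_num)]
    exact abs_le.1 (hc i)
  let f : (Fin d → ℝ) →ₗ[ℝ] E := Fintype.linearCombination ℝ v
  have hf : ∀ η : Fin d → ℝ, f η = ∑ i, η i • v i := fun η => by
    simp [f, Fintype.linearCombination_apply]
  let g : (Fin d → ℝ) →ᵃ[ℝ] E := f.toAffineMap + AffineMap.const ℝ (Fin d → ℝ) p
  have hg : ∀ η, g η = p + ∑ i, η i • v i := fun η => by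
    simp [g, hf, add_comm]
  rw [← hg]
  have h2 : g c ∈ g '' convexHull ℝ ((univ : Set (Fin d)).pi fun _ => ({-1, 1} : Set ℝ)) :=
    mem_image_of_mem _ h1
  rw [AffineMap.image_convexHull] at h2
  refine convexHull_mono ?_ h2
  rintro _ ⟨η, hη, rfl⟩
  refine ⟨η, fun i => ?_, hg η⟩
  rcases hη i (mem_univ i) with h | h
  · simp [h]
  · rw [mem_singleton_iff] at h
    simp [h]

section

variable {V : Type*} [Fintype V] [DecidableEq V] {E : Type*} [AddCommGroup E] [Module ℝ E]

/-- The edge vectors of the parallelepiped. -/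
noncomputable def cv (A : Finset V) (σ : V → V) (b : V → E) (i : V) : E :=
  (if i ∈ A then (1 / 2 : ℝ) else if σ i = i then 1 else -1 / 2) • b i +
    (if i ∈ A then (1 / 2 : ℝ) else if σ i = i then 0 else 1 / 2) • b (σ i)

/-- The inverse coordinates. -/
def be (A : Finset V) (σ : V → V) (x : V → ℝ) (i : V) : ℝ :=
  if i ∈ A then x i + x (σ i) else if σ i = i then x i else x (σ i) - x i

variable {A : Finset V} {σ : V → V} (hσ : Function.Involutive σ) (hA : ∀ i ∈ A, σ i ∉ A)
  (hA' : ∀ i, i ∉ A → σ i ≠ i → σ i ∈ A)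

include hσ hA hA'

lemma sigma_ne {i : V} (hi : i ∈ A) : σ i ≠ i := fun h => by
  have := hA i hi
  rw [h] at this
  exact this hi

lemma al_be (x : V → ℝ) (j : V) : al A σ (be A σ x) j = x j := by
  by_cases hj : j ∈ A
  · have h1 := hA j hj
    have h2 := sigma_ne hσ hA hA' hj
    simp only [al, be, hj, h1, if_true, if_false, hσ j, h2.symm]
    ring
  · by_cases h2 : σ j = j
    · simp [al, be, hj, h2]
    · have h1 := hA' j hj h2
      simp only [al, be, hj, h1, if_true, if_false, hσ j, h2]
      ring

lemma be_al (x : V → ℝ) (j : V) : be A σ (al A σ x) j = x j := by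
  by_cases hj : j ∈ A
  · have h1 := hA j hj
    have h2 := sigma_ne hσ hA hA' hj
    simp only [al, be, hj, h1, if_true, if_false, hσ j, h2.symm]
    ring
  · by_cases h2 : σ j = j
    · simp [al, be, hj, h2]
    · have h1 := hA' j hj h2
      simp only [al, be, hj, h1, if_true, if_false, hσ j, h2]
      ring

lemma sum_cv (b : V → E) (c : V → ℝ) : ∑ i, c i • cv A σ b i = ∑ j, al A σ c j • b j := by
  have h1 : ∀ i, c i • cv A σ b i =
      (c i * (if i ∈ A then (1 / 2 : ℝ) else if σ i = i then 1 else -1 / 2)) • b i +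
      (c i * (if i ∈ A then (1 / 2 : ℝ) else if σ i = i then 0 else 1 / 2)) • b (σ i) := by
    intro i
    rw [cv, smul_add, smul_smul, smul_smul]
  rw [Finset.sum_congr rfl (fun i _ => h1 i), Finset.sum_add_distrib]
  have h2 : ∑ i, (c i * (if i ∈ A then (1 / 2 : ℝ) else if σ i = i then 0 else 1 / 2)) • b (σ i) =
      ∑ j, (c (σ j) * (if σ j ∈ A then (1 / 2 : ℝ) else if j = σ j then 0 else 1 / 2)) • b j := by
    have h3 := Equiv.sum_comp (hσ.toPerm σ) (fun i =>
      (c i * (if i ∈ A then (1 / 2 : ℝ) else if σ i = i then 0 else 1 / 2)) • b (σ i))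
    rw [← h3]
    apply Finset.sum_congr rfl
    intro j _
    simp only [Function.Involutive.coe_toPerm, hσ j]
  rw [h2, ← Finset.sum_add_distrib]
  apply Finset.sum_congr rfl
  intro j _
  rw [← add_smul]
  congr 1
  by_cases hj : j ∈ A
  · have h1 := hA j hj
    have h2 := sigma_ne hσ hA hA' hj
    simp only [al, hj, h1, if_true, if_false, h2.symm]
    ring
  · by_cases h2 : σ j = j
    · simp [al, hj, h2]
    · have h1 := hA' j hj h2
      simp only [al, hj, h1, if_true, if_false, h2]
      ring

lemma cv_indep {b : V → E} (hb : LinearIndependent ℝ b) : LinearIndependent ℝ (cv A σ b) := by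
  rw [Fintype.linearIndependent_iff] at hb ⊢
  intro c hc i
  rw [sum_cv hσ hA hA'] at hc
  have h1 := hb _ hc
  rw [← be_al hσ hA hA' c i]
  simp [be, h1]

end

/-- The equality case: the polytope is a parallelepiped. -/
theorem unc_cube {d : ℕ} (hd : 1 ≤ d) (b : Fin d → EuclideanSpace ℝ (Fin d))
    (hb : LinearIndependent ℝ b) (o : EuclideanSpace ℝ (Fin d)) (𝓕 : Set (Finset (Fin d)))
    (L : Set (EuclideanSpace ℝ (Fin d)))
    (hL : L = convexHull ℝ {x | ∃ F ∈ 𝓕, ∃ ε : Fin d → ℝ, (∀ i ∈ F, |ε i| = 1) ∧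
      (∀ i ∉ F, ε i = 0) ∧ x = o + ∑ i, ε i • b i})
    (hcube : CubeLike (Dn 𝓕) Finset.univ) :
    ∃ p : EuclideanSpace ℝ (Fin d), ∃ v : Fin d → EuclideanSpace ℝ (Fin d),
      LinearIndependent ℝ v ∧
        L = {x | ∃ c : Fin d → ℝ, (∀ i, |c i| ≤ 1) ∧ x = p + ∑ i, c i • v i} := by
  classical
  obtain ⟨A, σ, hσ, hA, hA', hF⟩ := exists_sigma hcube
  refine ⟨o, cv A σ b, cv_indep hσ hA hA' hb, ?_⟩
  rw [hL]
  apply Subset.antisymm
  · apply convexHull_min
    · rintro x ⟨F, hF1, ε, h1, h2, rfl⟩
      have hΔF : Dn 𝓕 F := Or.inr ⟨F, hF1, Finset.Subset.refl _⟩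
      have hΔ := (hF F).1 hΔF
      have hle : ∀ i, |ε i| ≤ 1 := by
        intro i
        by_cases hi : i ∈ F
        · exact (h1 i hi).le
        · simp [h2 i hi]
      have hpair : ∀ i ∈ A, ε i = 0 ∨ ε (σ i) = 0 := by
        intro i hi
        by_cases hiF : i ∈ F
        · exact Or.inr (h2 _ (hΔ i hi hiF))
        · exact Or.inl (h2 i hiF)
      refine ⟨be A σ ε, ?_, ?_⟩
      · intro i
        by_cases hi : i ∈ A
        · have e : be A σ ε i = ε i + ε (σ i) := by simp [be, hi]
          rw [e]
          rcases hpair i hi with h | h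
          · rw [h, zero_add]; exact hle _
          · rw [h, add_zero]; exact hle _
        · by_cases h3 : σ i = i
          · have e : be A σ ε i = ε i := by simp [be, hi, h3]
            rw [e]; exact hle _
          · have e : be A σ ε i = ε (σ i) - ε i := by simp [be, hi, h3]
            rw [e]
            rcases hpair (σ i) (hA' i hi h3) with h | h
            · rw [h, zero_sub, abs_neg]; exact hle _
            · rw [hσ i] at h
              rw [h, sub_zero]; exact hle _
      · rw [sum_cv hσ hA hA']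
        congr 1
        apply Finset.sum_congr rfl
        intro j _
        rw [al_be hσ hA hA']
    · rintro x ⟨c, hc, rfl⟩ y ⟨c', hc', rfl⟩ s t hs ht hst
      refine ⟨fun i => s * c i + t * c' i, fun i => ?_, ?_⟩
      · calc |s * c i + t * c' i| ≤ |s * c i| + |t * c' i| := abs_add_le _ _
          _ = s * |c i| + t * |c' i| := by
            rw [abs_mul, abs_mul, abs_of_nonneg hs, abs_of_nonneg ht]
          _ ≤ s * 1 + t * 1 := by gcongr; exacts [hc i, hc' i]
          _ = 1 := by rw [mul_one, mul_one, hst]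
      · have e : ∑ i, (s * c i + t * c' i) • cv A σ b i =
            s • ∑ i, c i • cv A σ b i + t • ∑ i, c' i • cv A σ b i := by
          rw [Finset.smul_sum, Finset.smul_sum, ← Finset.sum_add_distrib]
          apply Finset.sum_congr rfl
          intro i _
          rw [add_smul, smul_smul, smul_smul]
        rw [e, smul_add, smul_add]
        have h3 : o = s • o + t • o := by rw [← add_smul, hst, one_smul]
        calc _ = (s • o + t • o) + (s • ∑ i, c i • cv A σ b i + t • ∑ i, c' i • cv A σ b i) := by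
              abel
          _ = _ := by rw [← h3]
  · rintro x ⟨c, hc, rfl⟩
    refine convexHull_mono ?_ (cube_subset_hull o (cv A σ b) c hc)
    rintro _ ⟨η, hη, rfl⟩
    -- the support of the vertex
    set x := al A σ η with hx
    have hη' : ∀ i, η i = 1 ∨ η i = -1 := fun i => (abs_eq zero_le_one).1 (hη i)
    let F' : Finset (Fin d) := Finset.univ.filter (fun j => x j ≠ 0)
    have hF' : ∀ j, j ∈ F' ↔ x j ≠ 0 := fun j => by simp [F']
    have hxA : ∀ j ∈ A, x j = (η j + η (σ j)) / 2 ∧ x (σ j) = (η j - η (σ j)) / 2 := by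
      intro j hj
      have h1 := hA j hj
      have h2 := sigma_ne hσ hA hA' hj
      constructor
      · simp [hx, al, hj]
      · simp [hx, al, h1, hσ j, h2.symm]
    have hone : ∀ j ∈ A, (j ∈ F' ∧ σ j ∉ F') ∨ (j ∉ F' ∧ σ j ∈ F') := by
      intro j hj
      obtain ⟨h1, h2⟩ := hxA j hj
      rw [hF', hF', h1, h2]
      rcases hη' j with h3 | h3 <;> rcases hη' (σ j) with h4 | h4 <;> rw [h3, h4] <;> norm_num
    have hval : ∀ j, x j = 0 ∨ |x j| = 1 := by
      intro j
      by_cases hj : j ∈ A
      · rw [(hxA j hj).1]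
        rcases hη' j with h3 | h3 <;> rcases hη' (σ j) with h4 | h4 <;> rw [h3, h4] <;> norm_num
      · by_cases h3 : σ j = j
        · right
          have : x j = η j := by simp [hx, al, hj, h3]
          rw [this]; exact hη j
        · have h4 := (hxA (σ j) (hA' j hj h3)).2
          rw [hσ j] at h4
          rw [h4]
          rcases hη' j with h5 | h5 <;> rcases hη' (σ j) with h6 | h6 <;> rw [h5, h6] <;> norm_num
    have hfix : ∀ j, j ∉ A → σ j = j → j ∈ F' := by
      intro j hj h3
      rw [hF']
      have : x j = η j := by simp [hx, al, hj, h3]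
      rw [this]
      rcases hη' j with h | h <;> rw [h] <;> norm_num
    have hΔF' : Dn 𝓕 F' := (hF F').2 (fun j hj hjF => by
      rcases hone j hj with h | h
      · exact h.2
      · exact absurd hjF h.1)
    have hne : F' ≠ ∅ := by
      intro he
      have hj : ∀ j, j ∉ F' := fun j => by rw [he]; exact Finset.notMem_empty j
      let j₀ : Fin d := ⟨0, by omega⟩
      by_cases h1 : j₀ ∈ A
      · rcases hone j₀ h1 with h | h
        · exact hj _ h.1
        · exact hj _ h.2
      · by_cases h2 : σ j₀ = j₀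
        · exact hj _ (hfix _ h1 h2)
        · rcases hone (σ j₀) (hA' _ h1 h2) with h | h
          · exact hj _ h.1
          · exact hj _ h.2
    obtain ⟨F'', hF'', hsub⟩ := hΔF'.resolve_left hne
    have hΔ'' := (hF F'').1 (Or.inr ⟨F'', hF'', Finset.Subset.refl _⟩)
    have heq : F' = F'' := by
      apply Finset.Subset.antisymm hsub
      intro j hj
      by_cases h1 : j ∈ A
      · rcases hone j h1 with h | h
        · exact h.1
        · exact absurd (hsub h.2) (hΔ'' j h1 hj)
      · by_cases h2 : σ j = j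
        · exact hfix _ h1 h2
        · have h3 := hA' _ h1 h2
          rcases hone (σ j) h3 with h | h
          · have h4 := hΔ'' _ h3 (hsub h.1)
            rw [hσ j] at h4
            exact absurd hj h4
          · have := h.2
            rwa [hσ j] at this
    refine ⟨F', heq ▸ hF'', x, ?_, ?_, ?_⟩
    · intro j hj
      exact (hval j).resolve_left ((hF' j).1 hj)
    · intro j hj
      by_contra h
      exact hj ((hF' j).2 h)
    · rw [sum_cv hσ hA hA']

end Pool.Agent.Lib.MP_5e7226_co.Unc
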