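import Pool.Agent.Lib.MP_5e7226_co.UncS4
import Pool.Agent.Lib.MP_5e7226_co.HT.Polar

/-! Illumination of the polar polytopes. -/

set_option autoImplicit false
set_option linter.unusedSectionVars false

namespace Pool.Agent.Lib.MP_5e7226_co.Unc

open Set Filter Topology

/-- separation of the faces of the polar body gives illumination -/
theorem illumS_of_sep_polar {W : Type*} [NormedAddCommGroup W] [NormedSpace ℝ W]
    [FiniteDimensional ℝ W] {L : Set W} (hc : Convex ℝ L) (h0 : (0 : W) ∈ interior L) {N : ℕ}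
    (hN : 0 < N) (h : Sep (polarBody L) N) : Illum L N := by
  obtain ⟨w, hw⟩ := h
  -- the functionals are evaluations
  have hev : ∀ F : (W →L[ℝ] ℝ) →L[ℝ] ℝ, ∃ x : W, ∀ k : W →L[ℝ] ℝ, F k = k x := by
    intro F
    let F' : Module.Dual ℝ (Module.Dual ℝ W) :=
      F.toLinearMap ∘ₗ (LinearMap.toContinuousLinearMap (𝕜 := ℝ) (E := W) (F' := ℝ)).toLinearMap
    refine ⟨(Module.evalEquiv ℝ W).symm F', fun k => ?_⟩
    have h1 := Module.apply_evalEquiv_symm_apply (R := ℝ) (M := W) (k : W →ₗ[ℝ] ℝ) F'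
    have h2 : F' (k : W →ₗ[ℝ] ℝ) = F k := by
      change F (LinearMap.toContinuousLinearMap (k : W →ₗ[ℝ] ℝ)) = F k
      congr 1
    rw [← h2, ← h1]
    rfl
  choose d hd using fun i => hev (w i)
  refine ⟨fun i => -(d i), fun y hy => ?_⟩
  have hdirint : ∀ i, y ∈ interior L → ∃ t : ℝ, 0 < t ∧ y + t • -(d i) ∈ interior L := by
    intro i hyi
    have hcont : ContinuousAt (fun t : ℝ => y + t • -(d i)) 0 := by fun_prop
    have h2 : ∀ᶠ t in 𝓝 (0 : ℝ), y + t • -(d i) ∈ interior L :=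
      hcont.eventually (by simpa using isOpen_interior.mem_nhds hyi)
    rw [Metric.eventually_nhds_iff] at h2
    obtain ⟨r, hr, hr'⟩ := h2
    refine ⟨r / 2, by positivity, hr' ?_⟩
    rw [Real.dist_eq, sub_zero, abs_of_pos (by positivity)]
    linarith
  by_cases hyi : y ∈ interior L
  · exact ⟨⟨0, hN⟩, hdirint _ hyi⟩
  have hcpt : IsCompact (polarBody L) :=
    Metric.isCompact_of_isClosed_isBounded (polarBody_closed L) (polarBody_bounded h0)
  -- the evaluation at `y`
  set F : (W →L[ℝ] ℝ) →L[ℝ] ℝ := ContinuousLinearMap.apply ℝ ℝ y with hF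
  have hFa : ∀ k, F k = k y := fun k => rfl
  have hy0 : y ≠ 0 := fun he => hyi (he ▸ h0)
  have hF0 : F ≠ 0 := by
    intro h00
    apply hy0
    by_contra hne
    obtain ⟨k, -, hk⟩ := exists_dual_vector ℝ y (norm_ne_zero_iff.2 hne)
    have h1 : F k = 0 := by rw [h00]; rfl
    rw [hFa, hk] at h1
    exact hne (norm_eq_zero.1 (by simpa using h1))
  obtain ⟨i, hi⟩ := hw F hF0
  refine ⟨i, ?_⟩
  have hpol : ∀ k ∈ polarBody L, k y ≤ 1 := fun k hk => hk y hy
  -- bipolar
  have hbip : ∀ z : W, (∀ k ∈ polarBody L, k z < 1) → z ∈ interior L := by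
    intro z hz
    by_contra hzi
    obtain ⟨f, hf⟩ := geometric_hahn_banach_open_point hc.interior isOpen_interior hzi
    have hf0 : 0 < f z := by
      have := hf 0 h0
      rwa [map_zero] at this
    have hfL : ∀ x ∈ L, f x ≤ f z := by
      intro x hx
      by_contra hlt
      push Not at hlt
      -- `(1 - s) x + s 0` is interior
      obtain ⟨s, hs0, hs1, hs2⟩ : ∃ s : ℝ, 0 < s ∧ s ≤ 1 ∧ (1 - s) * f x = f z :=
        ⟨1 - f z / f x, by
          have : f z / f x < 1 := by rw [div_lt_one (by linarith)]; exact hlt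
          linarith, by
          have : 0 < f z / f x := div_pos hf0 (by linarith)
          linarith, by
          rw [sub_sub_cancel, div_mul_cancel₀]; linarith⟩
      have h1 := hc.combo_self_interior_mem_interior hx h0 (show 0 ≤ 1 - s by linarith) hs0
        (by ring)
      have h2 := hf _ h1
      rw [map_add, map_smul, map_smul, map_zero, smul_zero, add_zero, smul_eq_mul, hs2] at h2
      exact lt_irrefl _ h2
    have h1 : (f z)⁻¹ • f ∈ polarBody L := by
      intro x hx
      simp only [FunLike.coe_smul, Pi.smul_apply, smul_eq_mul]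
      rw [inv_mul_le_iff₀ hf0]
      linarith [hfL x hx]
    have h2 := hz _ h1
    simp only [FunLike.coe_smul, Pi.smul_apply, smul_eq_mul] at h2
    rw [inv_mul_cancel₀ hf0.ne'] at h2
    exact lt_irrefl _ h2
  -- the part of the polar body where `k (d i) ≤ 0`
  set C : Set (W →L[ℝ] ℝ) := polarBody L ∩ {k | k (d i) ≤ 0} with hC
  have hCc : IsCompact C := hcpt.inter_right
    (isClosed_le (ContinuousLinearMap.apply ℝ ℝ (d i)).continuous continuous_const)
  have hClt : ∀ k ∈ C, k y < 1 := by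
    rintro k ⟨hk, hkd⟩
    refine lt_of_le_of_ne (hpol k hk) fun he => ?_
    have h1 : k ∈ face (polarBody L) F := ⟨hk, fun k' hk' => by
      rw [hFa, hFa, he]; exact hpol k' hk'⟩
    have h2 := hi k h1
    rw [hd] at h2
    exact absurd h2 (not_lt.2 hkd)
  obtain ⟨η, hη, hηC⟩ : ∃ η : ℝ, 0 < η ∧ ∀ k ∈ C, k y ≤ 1 - η := by
    rcases C.eq_empty_or_nonempty with he | hne
    · exact ⟨1, one_pos, fun k hk => by rw [he] at hk; exact absurd hk (notMem_empty k)⟩
    · obtain ⟨k, hk, hmax⟩ := hCc.exists_isMaxOn hne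
        (ContinuousLinearMap.apply ℝ ℝ y).continuous.continuousOn
      refine ⟨1 - k y, by linarith [hClt k hk], fun k' hk' => ?_⟩
      have : k' y ≤ k y := hmax hk'
      linarith
  obtain ⟨R, hR⟩ := hcpt.isBounded.exists_norm_le
  have hRd : ∀ k ∈ polarBody L, |k (d i)| ≤ (|R| + 1) * ‖d i‖ := by
    intro k hk
    have h1 := k.le_opNorm (d i)
    have h2 := hR k hk
    have h3 := le_abs_self R
    have h4 := norm_nonneg (d i)
    rw [Real.norm_eq_abs] at h1
    nlinarith
  set M : ℝ := (|R| + 1) * ‖d i‖ + 1 with hM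
  have hMpos : 0 < M := by positivity
  refine ⟨η / (2 * M), by positivity, hbip _ fun k hk => ?_⟩
  rw [map_add, map_smul, map_neg, smul_eq_mul]
  have ht : 0 < η / (2 * M) := by positivity
  by_cases hkd : k (d i) ≤ 0
  · have h1 := hηC k ⟨hk, hkd⟩
    have h2 := hRd k hk
    rw [abs_le] at h2
    have h3 : η / (2 * M) * -k (d i) ≤ η / (2 * M) * M :=
      mul_le_mul_of_nonneg_left (by linarith [h2.1]) ht.le
    have h4 : η / (2 * M) * M = η / 2 := by field_simp
    linarith
  · push Not at hkd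
    have h1 := hpol k hk
    have h2 : 0 < η / (2 * M) * k (d i) := mul_pos ht hkd
    linarith

/-- from directions to exterior points -/
theorem exteriorS_points {V : Type*} [NormedAddCommGroup V] [NormedSpace ℝ V] [Nontrivial V]
    {K : Set V} (hK : IsCompact K) {N : ℕ} (h : Illum K N) :
    ∃ p : Fin N → V, (∀ i, p i ∉ K) ∧ ∀ q ∈ frontier K, ∃ i, ∃ t : ℝ, 1 < t ∧
      p i + t • (q - p i) ∈ interior K := by
  classical
  obtain ⟨d, hd⟩ := h
  have hfr : IsCompact (frontier K) :=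
    hK.of_isClosed_subset isClosed_frontier hK.isClosed.frontier_subset
  -- uniform parameter
  have key : ∀ᶠ ε : ℝ in 𝓝 0, ∀ q ∈ frontier K, ∃ i, d i ≠ 0 ∧ ∃ t : ℝ, 0 < t ∧
      q + t • (d i + ε • q) ∈ interior K := by
    apply hfr.eventually_forall_of_forall_eventually
    intro q hq
    obtain ⟨i, t, ht, hi⟩ := hd q (hK.isClosed.frontier_subset hq)
    have h0 : d i ≠ 0 := by
      intro h0
      rw [h0, smul_zero, add_zero] at hi
      exact hq.2 hi
    have hc : Continuous (fun z : ℝ × V => z.2 + t • (d i + z.1 • z.2)) := by fun_prop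
    have hev : ∀ᶠ z : ℝ × V in 𝓝 (0, q), z.2 + t • (d i + z.1 • z.2) ∈ interior K := by
      apply hc.continuousAt.eventually_mem
      simp only [zero_smul, add_zero]
      exact isOpen_interior.mem_nhds hi
    filter_upwards [hev] with z hz
    exact ⟨i, h0, t, ht, hz⟩
  -- the points are outside of `K`
  obtain ⟨B, hB⟩ := hK.isBounded.exists_norm_le
  have hout : ∀ i, ∀ᶠ ε : ℝ in 𝓝[>] 0, d i ≠ 0 → -((1 / ε) • d i) ∉ K := by
    intro i
    by_cases h0 : d i = 0
    · exact Filter.Eventually.of_forall fun ε h => absurd h0 h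
    have hn : 0 < ‖d i‖ := norm_pos_iff.2 h0
    have hpos : 0 < ‖d i‖ / (|B| + 1) := by positivity
    filter_upwards [Ioo_mem_nhdsGT hpos] with ε hε _ hmem
    have h1 := hB _ hmem
    rw [norm_neg, norm_smul, Real.norm_eq_abs, abs_of_pos (by have := hε.1; positivity)] at h1
    have h2 := hε.2
    rw [lt_div_iff₀ (by positivity)] at h2
    have h3 : ‖d i‖ ≤ ε * B := by
      have := hε.1
      rw [one_div, inv_mul_le_iff₀ this] at h1
      exact h1
    have h4 := le_abs_self B
    nlinarith [hε.1]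
  obtain ⟨ε, ⟨h1, h2⟩, h3⟩ :=
    (((key.filter_mono nhdsWithin_le_nhds : ∀ᶠ ε : ℝ in 𝓝[>] 0, _).and
      (eventually_all.2 hout)).and self_mem_nhdsWithin).exists
  have hε : 0 < ε := h3
  -- some exterior point
  obtain ⟨e, he⟩ : ∃ e : V, e ∉ K := by
    obtain ⟨v, hv⟩ := exists_ne (0 : V)
    have hn : 0 < ‖v‖ := norm_pos_iff.2 hv
    refine ⟨((|B| + 1) / ‖v‖) • v, fun hmem => ?_⟩
    have h1 := hB _ hmem
    rw [norm_smul, Real.norm_eq_abs, abs_of_pos (by positivity), div_mul_cancel₀ _ hn.ne'] at h1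
    have := le_abs_self B
    linarith
  refine ⟨fun i => if d i = 0 then e else -((1 / ε) • d i), ?_, ?_⟩
  · intro i
    by_cases h0 : d i = 0
    · simpa [h0] using he
    · simp only [h0, if_false]
      exact h2 i h0
  · intro q hq
    obtain ⟨i, h0, t, ht, hi⟩ := h1 q hq
    refine ⟨i, 1 + t * ε, by nlinarith, ?_⟩
    simp only [h0, if_false]
    convert hi using 1
    have : t * ε * (1 / ε) = t := by field_simp
    rw [sub_neg_eq_add, add_smul, one_smul, smul_add, smul_add, smul_smul, this, smul_smul]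
    abel

/-- The polytope with the vertices `∑ ± b i`, `i ∈ F`. -/
theorem unc_illum {d : ℕ} (hd : 1 ≤ d) (b : Fin d → EuclideanSpace ℝ (Fin d))
    (hb : LinearIndependent ℝ b) (o : EuclideanSpace ℝ (Fin d)) (𝓕 : Set (Finset (Fin d)))
    (hcov : ∀ i, ∃ F ∈ 𝓕, i ∈ F) (L : Set (EuclideanSpace ℝ (Fin d)))
    (hL : L = convexHull ℝ {x | ∃ F ∈ 𝓕, ∃ ε : Fin d → ℝ, (∀ i ∈ F, |ε i| = 1) ∧
      (∀ i ∉ F, ε i = 0) ∧ x = o + ∑ i, ε i • b i}) {N : ℕ} (hN : 0 < N)
    (hill : Ill (Dn 𝓕) Finset.univ N) :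
    ∃ p : Fin N → EuclideanSpace ℝ (Fin d), (∀ i, p i ∉ L) ∧
      ∀ q ∈ frontier L, ∃ i, ∃ s : ℝ, 0 < s ∧ q + s • (q - p i) ∈ interior L := by
  classical
  set S₀ : Set (EuclideanSpace ℝ (Fin d)) := {x | ∃ F ∈ 𝓕, ∃ ε : Fin d → ℝ,
    (∀ i ∈ F, |ε i| = 1) ∧ (∀ i ∉ F, ε i = 0) ∧ x = ∑ i, ε i • b i} with hS₀
  set L₀ := convexHull ℝ S₀ with hL₀
  have hconv : Convex ℝ L₀ := convex_convexHull ℝ _
  have hLL : L = (fun x => o + x) '' L₀ := by
    have h1 : {x | ∃ F ∈ 𝓕, ∃ ε : Fin d → ℝ, (∀ i ∈ F, |ε i| = 1) ∧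
      (∀ i ∉ F, ε i = 0) ∧ x = o + ∑ i, ε i • b i} = (fun x => o + x) '' S₀ := by
      ext x
      constructor
      · rintro ⟨F, hF, ε, h1, h2, rfl⟩
        exact ⟨_, ⟨F, hF, ε, h1, h2, rfl⟩, rfl⟩
      · rintro ⟨_, ⟨F, hF, ε, h1, h2, rfl⟩, rfl⟩
        exact ⟨F, hF, ε, h1, h2, rfl⟩
    rw [hL, h1, hL₀]
    exact convexHull_vadd (𝕜 := ℝ) o S₀
  -- the coordinates of a functional
  let B : Module.Basis (Fin d) ℝ (EuclideanSpace ℝ (Fin d)) :=
    basisOfLinearIndependentOfCardEqFinrank' b hb (by simp)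
  have hB : ∀ i, B i = b i := by
    intro i; simp [B]
  let Tl : (EuclideanSpace ℝ (Fin d) →L[ℝ] ℝ) ≃ₗ[ℝ] (Fin d → ℝ) :=
    (LinearMap.toContinuousLinearMap (𝕜 := ℝ) (E := EuclideanSpace ℝ (Fin d))
      (F' := ℝ)).symm.trans (B.constr ℝ).symm
  have hTl : ∀ f i, Tl f i = f (b i) := by
    intro f i
    rw [← hB]
    rfl
  let T : (EuclideanSpace ℝ (Fin d) →L[ℝ] ℝ) ≃L[ℝ] (Fin d → ℝ) := Tl.toContinuousLinearEquiv
  have hT : ∀ f i, T f i = f (b i) := hTl
  have hsing : ∀ i, Dn 𝓕 {i} := by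
    intro i
    obtain ⟨F, hF, hi⟩ := hcov i
    exact Or.inr ⟨F, hF, by simpa using hi⟩
  -- the polar body
  have hpol : polarBody L₀ = {f | T f ∈ KC (Dn 𝓕)} := by
    ext f
    have hfe : ∀ ε : Fin d → ℝ, f (∑ i, ε i • b i) = ∑ i, ε i * f (b i) := by
      intro ε
      simp [map_sum]
    constructor
    · intro hf F hF
      rcases hF with rfl | ⟨F', hF', hsub⟩
      · simp
      · let ε : Fin d → ℝ := fun i => if i ∈ F' then (if 0 ≤ f (b i) then 1 else -1) else 0
        have h1 : f (∑ i, ε i • b i) ≤ 1 := by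
          apply hf
          apply subset_convexHull
          refine ⟨F', hF', ε, ?_, ?_, rfl⟩
          · intro i hi
            simp only [ε, hi, if_true]
            split_ifs <;> simp
          · intro i hi
            simp only [ε, hi, if_false]
        rw [hfe] at h1
        have h2 : ∑ i, ε i * f (b i) = ∑ i ∈ F', |f (b i)| := by
          rw [← Finset.sum_subset (Finset.subset_univ F')]
          · apply Finset.sum_congr rfl
            intro i hi
            simp only [ε, hi, if_true]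
            split_ifs with h
            · rw [one_mul, abs_of_nonneg h]
            · rw [abs_of_neg (not_le.1 h)]; ring
          · intro i _ hi
            simp only [ε, hi, if_false, zero_mul]
        calc ∑ i ∈ F, |T f i| = ∑ i ∈ F, |f (b i)| :=
              Finset.sum_congr rfl (fun i _ => by rw [hT])
          _ ≤ ∑ i ∈ F', |f (b i)| :=
              Finset.sum_le_sum_of_subset_of_nonneg hsub (fun _ _ _ => abs_nonneg _)
          _ ≤ 1 := h2 ▸ h1
    · intro hf
      have hf' : T f ∈ KC (Dn 𝓕) := hf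
      have hhalf : L₀ ⊆ {x | f x ≤ 1} := by
        apply convexHull_min
        · rintro x ⟨F, hF, ε, h1, h2, rfl⟩
          show f (∑ i, ε i • b i) ≤ 1
          rw [hfe]
          have h3 := hf' F (Or.inr ⟨F, hF, Finset.Subset.refl _⟩)
          refine le_trans ?_ h3
          rw [← Finset.sum_subset (Finset.subset_univ F)]
          · apply Finset.sum_le_sum
            intro i hi
            rw [hT]
            calc ε i * f (b i) ≤ |ε i * f (b i)| := le_abs_self _
              _ = |f (b i)| := by rw [abs_mul, h1 i hi, one_mul]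
          · intro i _ hi
            rw [h2 i hi, zero_mul]
        · exact convex_halfSpace_le f.toLinearMap.isLinear 1
      exact fun x hx => hhalf hx
  -- the origin is an interior point
  have hbpm : ∀ i, b i ∈ L₀ ∧ -b i ∈ L₀ := by
    intro i
    obtain ⟨F, hF, hi⟩ := hcov i
    have hpt : ∀ ε : Fin d → ℝ, (∀ j ∈ F, |ε j| = 1) → (∀ j ∉ F, ε j = 0) →
        ∑ j, ε j • b j ∈ L₀ := fun ε h1 h2 =>
      subset_convexHull ℝ _ ⟨F, hF, ε, h1, h2, rfl⟩
    have hmid : ∀ s : ℝ, |s| = 1 → s • b i ∈ L₀ := by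
      intro s hs
      have h1 := hpt (fun j => if j = i then s else if j ∈ F then 1 else 0) (by
        intro j hj
        by_cases h : j = i <;> simp [h, hj, hs]) (by
        intro j hj
        have : j ≠ i := fun h => hj (h ▸ hi)
        simp [this, hj])
      have h2 := hpt (fun j => if j = i then s else if j ∈ F then -1 else 0) (by
        intro j hj
        by_cases h : j = i <;> simp [h, hj, hs]) (by
        intro j hj
        have : j ≠ i := fun h => hj (h ▸ hi)
        simp [this, hj])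
      have h3 := hconv h1 h2 (a := 1 / 2) (b := 1 / 2) (by norm_num) (by norm_num) (by norm_num)
      have h4 : (1 / 2 : ℝ) • ∑ j, (if j = i then s else if j ∈ F then (1 : ℝ) else 0) • b j +
          (1 / 2 : ℝ) • ∑ j, (if j = i then s else if j ∈ F then (-1 : ℝ) else 0) • b j =
          s • b i := by
        rw [Finset.smul_sum, Finset.smul_sum, ← Finset.sum_add_distrib,
          Finset.sum_eq_single i]
        · rw [if_pos rfl, if_pos rfl, smul_smul, ← add_smul]
          congr 1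
          ring
        · intro j _ hj
          rw [if_neg hj, if_neg hj]
          by_cases h : j ∈ F
          · rw [if_pos h, if_pos h, smul_smul, smul_smul, ← add_smul]
            norm_num
          · rw [if_neg h, if_neg h]
            simp
        · intro h; exact absurd (Finset.mem_univ i) h
      rwa [h4] at h3
    refine ⟨by simpa using hmid 1 (by simp), by simpa using hmid (-1) (by simp)⟩
  have h0 : (0 : EuclideanSpace ℝ (Fin d)) ∈ interior L₀ := by
    have hne : Nonempty (Fin d) := ⟨⟨0, by omega⟩⟩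
    let Tc : EuclideanSpace ℝ (Fin d) ≃L[ℝ] (Fin d → ℝ) := B.equivFunL
    have hTs : ∀ c : Fin d → ℝ, Tc.symm c = ∑ i, c i • b i := by
      intro c
      have : Tc.symm c = ∑ i, c i • B i := by
        show B.equivFun.symm c = _
        exact B.equivFun_symm_apply c
      rw [this]
      simp only [hB]
    rw [mem_interior]
    refine ⟨{x | ∑ i, |Tc x i| < 1}, ?_, ?_, ?_⟩
    · intro x hx
      have h1 := mem_hull_of_abs (0 : EuclideanSpace ℝ (Fin d)) b (Tc x) (le_of_lt hx) hne
      have h2 : (0 : EuclideanSpace ℝ (Fin d)) + ∑ i, Tc x i • b i = x := by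
        rw [zero_add, ← hTs, Tc.symm_apply_apply]
      rw [h2] at h1
      refine convexHull_min ?_ hconv h1
      intro y hy
      obtain ⟨i, hi⟩ := Set.mem_iUnion.1 hy
      simp only [Set.mem_insert_iff, Set.mem_singleton_iff] at hi
      rcases hi with rfl | rfl
      · simpa using (hbpm i).1
      · simpa using (hbpm i).2
    · apply isOpen_lt _ continuous_const
      apply continuous_finsetSum
      intro i _
      exact ((continuous_apply i).comp Tc.continuous).abs
    · simp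
  have hsep : Sep (polarBody L₀) N := by
    rw [hpol]
    exact sep_of_ill hsing T hill
  have hillum : Illum L₀ N := illumS_of_sep_polar hconv h0 hN hsep
  have hfin : S₀.Finite := by
    apply (Set.finite_range (fun φ : Fin d → Fin 3 =>
      ∑ i, (((φ i : ℕ) : ℝ) - 1) • b i)).subset
    rintro x ⟨F, hF, ε, h1, h2, rfl⟩
    refine ⟨fun i => if ε i = 1 then 2 else if ε i = -1 then 0 else 1, ?_⟩
    apply Finset.sum_congr rfl
    intro i _
    congr 1
    by_cases hi : i ∈ F
    · rcases (abs_eq zero_le_one).1 (h1 i hi) with h | h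
      · simp [h]; norm_num
      · have : ¬ ((-1 : ℝ) = 1) := by norm_num
        simp [h, this]
    · have ha : ¬ ((0 : ℝ) = 1) := by norm_num
      have hb' : ¬ ((0 : ℝ) = -1) := by norm_num
      simp [h2 i hi]
  have hcomp : IsCompact L₀ := hfin.isCompact_convexHull ℝ
  have : Nontrivial (EuclideanSpace ℝ (Fin d)) := by
    refine ⟨⟨EuclideanSpace.single ⟨0, by omega⟩ 1, 0, fun h => ?_⟩⟩
    have := congrArg (fun x : EuclideanSpace ℝ (Fin d) => ‖x‖) h
    simp at this
  obtain ⟨p, hp, hfr⟩ := exteriorS_points hcomp hillum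
  refine ⟨fun i => o + p i, ?_, ?_⟩
  · intro i hi
    rw [hLL] at hi
    obtain ⟨y, hy, he⟩ := hi
    have : y = p i := add_left_cancel he
    exact hp i (this ▸ hy)
  · intro q hq
    have hint : interior L = (fun x => o + x) '' interior L₀ := by
      rw [hLL]
      exact ((Homeomorph.addLeft o).image_interior L₀).symm
    have hfro : frontier L = (fun x => o + x) '' frontier L₀ := by
      rw [hLL]
      exact ((Homeomorph.addLeft o).image_frontier L₀).symm
    rw [hfro] at hq
    obtain ⟨q', hq', rfl⟩ := hq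
    obtain ⟨i, t, ht, hi⟩ := hfr q' hq'
    refine ⟨i, t - 1, by linarith, ?_⟩
    rw [hint]
    refine ⟨_, hi, ?_⟩
    show o + (p i + t • (q' - p i)) = o + q' + (t - 1) • (o + q' - (o + p i))
    have : o + q' - (o + p i) = q' - p i := by abel
    rw [this, sub_smul, one_smul]
    abel


/-- The polytopes with a good family. -/
theorem unc_illum3 {d : ℕ} (hd : 1 ≤ d) (b : Fin d → EuclideanSpace ℝ (Fin d))
    (hb : LinearIndependent ℝ b) (o : EuclideanSpace ℝ (Fin d)) (𝓕 : Set (Finset (Fin d)))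
    (hcov : ∀ i, ∃ F ∈ 𝓕, i ∈ F) (L : Set (EuclideanSpace ℝ (Fin d)))
    (hL : L = convexHull ℝ {x | ∃ F ∈ 𝓕, ∃ ε : Fin d → ℝ, (∀ i ∈ F, |ε i| = 1) ∧
      (∀ i ∉ F, ε i = 0) ∧ x = o + ∑ i, ε i • b i})
    (hW : ∀ W : Finset (Fin d), (∀ i ∈ W, ∀ j ∈ W, ∃ F ∈ 𝓕, i ∈ F ∧ j ∈ F) →
      W.card ≤ 164 ∨ (∀ F ∈ 𝓕, (F ∩ W).card ≤ 114) ∨
        ∃ F₀ ∈ 𝓕, ∃ Y ⊆ W,
          (∀ c : Fin d → ℝ, (∀ F ∈ 𝓕, ∑ i ∈ F, |c i| ≤ 1) → ∑ i ∈ Y, |c i| < 2) ∧
          (∀ Z ⊆ W, (∀ c : Fin d → ℝ, (∀ F ∈ 𝓕, ∑ i ∈ F, |c i| ≤ 1) → ∑ i ∈ Z, |c i| < 2) →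
            Z.card ≤ Y.card) ∧
          (∀ F ∈ 𝓕, (F ∩ W).card ≤ (F₀ ∩ W).card) ∧
          (Y.card ≤ (F₀ ∩ W).card + 4 ∨ (Y.card ^ 2 + 4) ^ (Y.card - (F₀ ∩ W).card) ≤
            2 ^ (2 ^ (Y.card - (F₀ ∩ W).card) + 2 * (Y.card - (F₀ ∩ W).card) - 1))) :
    ∃ p : Fin (2 ^ d) → EuclideanSpace ℝ (Fin d), (∀ i, p i ∉ L) ∧
      ∀ q ∈ frontier L, ∃ i, ∃ s : ℝ, 0 < s ∧ q + s • (q - p i) ∈ interior L :=
  unc_illum hd b hb o 𝓕 hcov L hL (by positivity) (unc_ill3 𝓕 hcov hW).1

end Pool.Agent.Lib.MP_5e7226_co.Unc
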