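import Pool.Agent.Lib.MP_5e7226_co.UncN3
import Pool.Agent.Lib.MP_5e7226_co.UncS5
import Pool.Agent.Lib.MP_5e7226_co.UncC1

/-! The theorem for all families, from the code lemma for `|V₀| ≥ 6`. -/

set_option autoImplicit false
set_option linter.unusedSectionVars false

namespace Pool.Agent.Lib.MP_5e7226_co.Unc

open Finset

/-- The code lemma for `|V₀| ≥ 6`. -/
def CodeSix (V : Type*) [Fintype V] [DecidableEq V] : Prop :=
  ∀ (L : Finset V → Prop) (F₀ V₀ : Finset V) (k N : ℕ),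
    (∀ G H : Finset V, H ⊆ G → L G → L H) → L ∅ → Disjoint F₀ V₀ → 1 ≤ k → 6 ≤ V₀.card →
    N + k = F₀.card + V₀.card → CLHyp g5 L F₀ V₀ k N → Shat L (F₀ ∪ V₀) (2 ^ N)

section

variable {V : Type*} [Fintype V] [DecidableEq V]

/-- The clique case, strict. -/
lemma ill_cliqueN (hsix : CodeSix V) {Δ : Finset V → Prop}
    (hΔ : ∀ G H : Finset V, H ⊆ G → Δ G → Δ H) (h0 : Δ ∅) (hsing : ∀ i, Δ {i})
    {W : Finset V} (hW : ∀ x ∈ W, ∀ y ∈ W, Δ {x, y}) (hgam : ¬ Gam Δ W) :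
    Ill Δ W (2 ^ W.card - 1) := by
  refine ill_of_codes hΔ hsing h0 hW hgam g5_mono g5_two ?_
  intro L F₀ V₀ k N hL hL0 hd hk hV hN hCL
  by_cases h5 : V₀.card ≤ 5
  · exact shat_five hL hd hk hV h5 hN hCL
  · exact hsix L F₀ V₀ k N hL hL0 hd hk (by omega) hN hCL

/-- Main combinatorial theorem. -/
theorem unc_mainN (hsix : CodeSix V) {Δ : Finset V → Prop}
    (hΔ : ∀ G H : Finset V, H ⊆ G → Δ G → Δ H) (h0 : Δ ∅) (hsing : ∀ i, Δ {i}) (k : ℕ) :
    ∀ W : Finset V, W.card = k →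
      Ill Δ W (2 ^ k) ∧ (Ill Δ W (2 ^ k - 1) ∨ CubeLike Δ W) := by
  classical
  induction k with
  | zero =>
    intro W hW
    rw [card_eq_zero] at hW
    subst hW
    have hill := scheme (Δ := Δ) (Y := ∅) (T := ∅) (disjoint_empty_left _) (gam_empty Δ)
      (fun _ => 1) (fun R _ _ => by simpa using shat_powerset (fun G => Δ (G ∪ R)) ∅) hΔ
    refine ⟨?_, Or.inr ⟨∅, ∅, id, by simp, by simp, by simp, by simp, ?_⟩⟩
    · rw [union_empty] at hill
      apply hill.mono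
      simp [filter_singleton, h0]
    · intro F hF
      rw [subset_empty] at hF
      subst hF
      simp [h0]
  | succ k ih =>
    intro W hW
    by_cases hcl : ∀ x ∈ W, ∀ y ∈ W, Δ {x, y}
    · by_cases hgam : Gam Δ W
      · have hsimple : ∀ N, Shat (fun G => Δ G) W N → Ill Δ W N := by
          intro N hN
          have hill := scheme (Δ := Δ) (Y := W) (T := ∅) (disjoint_empty_right _) hgam
            (fun _ => N) (fun R hR _ => by
              rw [subset_empty] at hR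
              subst hR
              simpa using hN) hΔ
          rw [union_empty] at hill
          apply hill.mono
          simp [filter_singleton, h0]
        refine ⟨?_, ?_⟩
        · apply hsimple
          rw [← hW]
          exact shat_powerset _ W
        · by_cases hΔW : Δ W
          · right
            refine ⟨∅, W, id, by simp, by simp, by simp, by simp, ?_⟩
            intro F hF
            simp [hΔ W F hF hΔW]
          · left
            apply hsimple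
            have := shat_even (L := fun G => Δ G) hΔW (card_pos.1 (by omega))
            apply this.mono
            rw [hW, Nat.add_sub_cancel, pow_succ]
            have : 0 < 2 ^ k := by positivity
            omega
      · have hill := ill_cliqueN hsix hΔ h0 hsing hcl hgam
        rw [hW] at hill
        exact ⟨hill.mono (Nat.sub_le _ _), Or.inl hill⟩
    · push Not at hcl
      obtain ⟨i, hi, j, hj, hij⟩ := hcl
      obtain ⟨a1, a2⟩ := ih (W.erase i) (by rw [card_erase_of_mem hi, hW, Nat.add_sub_cancel])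
      obtain ⟨b1, b2⟩ := ih (W.erase j) (by rw [card_erase_of_mem hj, hW, Nat.add_sub_cancel])
      have hp : 0 < 2 ^ k := by positivity
      have e1 : 2 ^ (k + 1) = 2 ^ k + 2 ^ k := by rw [pow_succ]; ring
      refine ⟨by rw [e1]; exact Ill.conflict hΔ hij a1 b1, ?_⟩
      rcases a2 with a2 | a2
      · left
        exact (Ill.conflict hΔ hij a2 b1).mono (by omega)
      · rcases b2 with b2 | b2
        · left
          exact (Ill.conflict hΔ hij a1 b2).mono (by omega)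
        · rw [← hW]
          apply flag_case hΔ h0
          intro C hC hclq
          by_cases hiC : i ∈ C
          · have hjC : j ∉ C := fun hjC => hij (hclq i hiC j hjC)
            exact b2.flag C (fun x hx => mem_erase.2 ⟨fun e => hjC (e ▸ hx), hC hx⟩) hclq
          · exact a2.flag C (fun x hx => mem_erase.2 ⟨fun e => hiC (e ▸ hx), hC hx⟩) hclq

end

/-- The combinatorial theorem for a family. -/
theorem unc_illN {d : ℕ} (hsix : CodeSix (Fin d)) (𝓕 : Set (Finset (Fin d)))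
    (hcov : ∀ i, ∃ F ∈ 𝓕, i ∈ F) :
    Ill (Dn 𝓕) univ (2 ^ d) ∧ (Ill (Dn 𝓕) univ (2 ^ d - 1) ∨ CubeLike (Dn 𝓕) univ) := by
  classical
  have hmono : ∀ G H : Finset (Fin d), H ⊆ G → Dn 𝓕 G → Dn 𝓕 H := by
    intro G H hHG hG
    rcases hG with rfl | ⟨F', hF', hsub⟩
    · exact Or.inl (subset_empty.1 hHG)
    · exact Or.inr ⟨F', hF', hHG.trans hsub⟩
  exact unc_mainN hsix hmono (Or.inl rfl) (Dn_sing hcov) d univ (by simp)

open scoped InnerProductSpace

/-- Final form: both parts of the conjecture for `K`, the bound and the equality case of the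
illumination conjecture for `L`. -/
theorem unc_finalN {d : ℕ} (hd : 1 ≤ d) (hsix : CodeSix (Fin d))
    (b : Fin d → EuclideanSpace ℝ (Fin d)) (hb : LinearIndependent ℝ b)
    (o : EuclideanSpace ℝ (Fin d)) (𝓕 : Set (Finset (Fin d))) (hcov : ∀ i, ∃ F ∈ 𝓕, i ∈ F)
    (K L : Set (EuclideanSpace ℝ (Fin d)))
    (hK : K = {x | ∃ c : Fin d → ℝ, x = o + ∑ i, c i • b i ∧ ∀ F ∈ 𝓕, ∑ i ∈ F, |c i| ≤ 1})
    (hL : L = convexHull ℝ {x | ∃ F ∈ 𝓕, ∃ ε : Fin d → ℝ, (∀ i ∈ F, |ε i| = 1) ∧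
      (∀ i ∉ F, ε i = 0) ∧ x = o + ∑ i, ε i • b i}) :
    ((∃ w : Fin (2 ^ d) → EuclideanSpace ℝ (Fin d), ∃ b : Fin (2 ^ d) → ℝ,
          ∀ u x₀ : EuclideanSpace ℝ (Fin d), u ≠ 0 → x₀ ∈ K →
            (∀ y ∈ K, ⟪u, y⟫_ℝ ≤ ⟪u, x₀⟫_ℝ) →
              ∃ i, ⟪w i, o⟫_ℝ < b i ∧
                ∀ x ∈ K, ⟪u, x⟫_ℝ = ⟪u, x₀⟫_ℝ → b i < ⟪w i, x⟫_ℝ) ∧
        ((¬ ∃ w : Fin (2 ^ d - 1) → EuclideanSpace ℝ (Fin d), ∃ b : Fin (2 ^ d - 1) → ℝ,
          ∀ u x₀ : EuclideanSpace ℝ (Fin d), u ≠ 0 → x₀ ∈ K →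
            (∀ y ∈ K, ⟪u, y⟫_ℝ ≤ ⟪u, x₀⟫_ℝ) →
              ∃ i, ⟪w i, o⟫_ℝ < b i ∧
                ∀ x ∈ K, ⟪u, x⟫_ℝ = ⟪u, x₀⟫_ℝ → b i < ⟪w i, x⟫_ℝ) →
          ∃ v : Fin d → EuclideanSpace ℝ (Fin d), ∃ t : Fin d → ℝ,
            LinearIndependent ℝ v ∧ (∀ i, 0 < t i) ∧
              K = convexHull ℝ (⋃ i, ({o + v i, o - t i • v i} :
                Set (EuclideanSpace ℝ (Fin d)))))) ∧
      (∃ p : Fin (2 ^ d) → EuclideanSpace ℝ (Fin d), (∀ i, p i ∉ L) ∧
        ∀ q ∈ frontier L, ∃ i, ∃ s : ℝ, 0 < s ∧ q + s • (q - p i) ∈ interior L) ∧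
      ((¬ ∃ p : Fin (2 ^ d - 1) → EuclideanSpace ℝ (Fin d), (∀ i, p i ∉ L) ∧
        ∀ q ∈ frontier L, ∃ i, ∃ s : ℝ, 0 < s ∧ q + s • (q - p i) ∈ interior L) →
        ∃ p : EuclideanSpace ℝ (Fin d), ∃ v : Fin d → EuclideanSpace ℝ (Fin d),
          LinearIndependent ℝ v ∧
            L = {x | ∃ c : Fin d → ℝ, (∀ i, |c i| ≤ 1) ∧ x = p + ∑ i, c i • v i}) := by
  classical
  have hmain := unc_illN hsix 𝓕 hcov
  -- coordinates
  let B : Module.Basis (Fin d) ℝ (EuclideanSpace ℝ (Fin d)) :=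
    basisOfLinearIndependentOfCardEqFinrank' b hb (by simp)
  have hB : ∀ i, B i = b i := by
    intro i; simp [B]
  let T : EuclideanSpace ℝ (Fin d) ≃L[ℝ] (Fin d → ℝ) := B.equivFunL
  have hTs : ∀ c : Fin d → ℝ, T.symm c = ∑ i, c i • b i := by
    intro c
    have : T.symm c = ∑ i, c i • B i := by
      show B.equivFun.symm c = _
      exact B.equivFun_symm_apply c
    rw [this]
    simp only [hB]
  have hKC := KC_Dn 𝓕
  refine ⟨geom_final (Dn_sing hcov) T o K ?_ hmain.1 hmain.2, ?_, ?_⟩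
  · rw [hK, hKC]
    ext x
    constructor
    · rintro ⟨c, hx, hc⟩
      show T (x - o) ∈ {c : Fin d → ℝ | ∀ F ∈ 𝓕, ∑ i ∈ F, |c i| ≤ 1}
      have : x - o = T.symm c := by rw [hTs, hx]; abel
      rw [this, T.apply_symm_apply]
      exact hc
    · intro hx
      refine ⟨T (x - o), ?_, hx⟩
      rw [← hTs, T.symm_apply_apply]
      abel
  · exact unc_illum hd b hb o 𝓕 hcov L hL (by positivity) hmain.1
  · intro hno
    rcases hmain.2 with h | h
    · exfalso
      apply hno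
      have h2 : 2 ≤ 2 ^ d := by
        calc 2 = 2 ^ 1 := by norm_num
          _ ≤ 2 ^ d := Nat.pow_le_pow_right (by norm_num) hd
      exact unc_illum hd b hb o 𝓕 hcov L hL (by omega) h
    · exact unc_cube hd b hb o 𝓕 L hL h

end Pool.Agent.Lib.MP_5e7226_co.Unc
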