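import Mathlib

set_option autoImplicit false

namespace Pool.Agent.Lib.MP_5e7226_co.Unc

open Finset

variable {V : Type*} [DecidableEq V]

/-- `Shat L M N`: at most `N` sets shatter all members of `L` inside `M`. -/
def Shat (L : Finset V → Prop) (M : Finset V) (N : ℕ) : Prop :=
  ∃ D : Finset (Finset V), D.card ≤ N ∧
    ∀ G ⊆ M, L G → ∀ A ⊆ G, ∃ X ∈ D, X ∩ G = A

lemma Shat.mono {L : Finset V → Prop} {M : Finset V} {N N' : ℕ} (h : Shat L M N) (hN : N ≤ N') :
    Shat L M N' := by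
  obtain ⟨D, hD, h⟩ := h
  exact ⟨D, hD.trans hN, h⟩

lemma shat_powerset (L : Finset V → Prop) (M : Finset V) : Shat L M (2 ^ M.card) := by
  refine ⟨M.powerset, by simp, fun G hG _ A hA => ⟨A, by simpa using hA.trans hG, ?_⟩⟩
  exact inter_eq_left.2 hA

/-- A family is small if its members are determined by their part outside a set of pivots. -/
lemma card_le_pivot {D : Finset (Finset V)} {M P : Finset V} (hD : ∀ X ∈ D, X ⊆ M) (hP : P ⊆ M)
    (hinj : ∀ X ∈ D, ∀ X' ∈ D, X \ P = X' \ P → X = X') :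
    D.card ≤ 2 ^ (M.card - P.card) := by
  rw [← card_sdiff_of_subset hP, ← card_powerset]
  apply card_le_card_of_injOn (fun X => X \ P)
  · intro X hX
    simp only [Finset.coe_powerset, Set.mem_preimage, Set.mem_powerset_iff, Finset.coe_subset]
    exact sdiff_subset_sdiff (hD X hX) (Subset.refl _)
  · intro X hX X' hX' h
    exact hinj X hX X' hX' h

/-- Adjust the parity on `Q` without changing anything on `G` or off `Q`. -/
lemma adjust (G X Q : Finset V) (ε : Prop) (hQ : Q ⊆ G → (Even (X ∩ Q).card ↔ ε)) :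
    ∃ X' : Finset V, X' ∩ G = X ∩ G ∧ (∀ Q', Disjoint Q' Q → X' ∩ Q' = X ∩ Q') ∧
      (Even (X' ∩ Q).card ↔ ε) ∧ X' ⊆ X ∪ Q := by
  by_cases h : Even (X ∩ Q).card ↔ ε
  · exact ⟨X, rfl, fun _ _ => rfl, h, subset_union_left⟩
  have hQG : ¬ Q ⊆ G := fun h' => h (hQ h')
  obtain ⟨x, hxQ, hxG⟩ := not_subset.1 hQG
  have hne : ∀ Q', Disjoint Q' Q → x ∉ Q' := fun Q' hd hx => (disjoint_left.1 hd hx) hxQ
  by_cases hxX : x ∈ X
  · refine ⟨X.erase x, ?_, ?_, ?_, ?_⟩
    · ext y
      simp only [mem_inter, mem_erase]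
      constructor
      · rintro ⟨⟨_, h1⟩, h2⟩; exact ⟨h1, h2⟩
      · rintro ⟨h1, h2⟩
        exact ⟨⟨fun e => hxG (e ▸ h2), h1⟩, h2⟩
    · intro Q' hd
      ext y
      simp only [mem_inter, mem_erase]
      constructor
      · rintro ⟨⟨_, h1⟩, h2⟩; exact ⟨h1, h2⟩
      · rintro ⟨h1, h2⟩
        exact ⟨⟨fun e => hne Q' hd (e ▸ h2), h1⟩, h2⟩
    · have e1 : X.erase x ∩ Q = (X ∩ Q).erase x := by
        ext y; simp only [mem_inter, mem_erase]; tauto
      have e2 : ((X ∩ Q).erase x).card + 1 = (X ∩ Q).card :=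
        card_erase_add_one (mem_inter.2 ⟨hxX, hxQ⟩)
      rw [e1]
      rw [← e2, Nat.even_add_one] at h
      tauto
    · exact (erase_subset _ _).trans subset_union_left
  · refine ⟨insert x X, ?_, ?_, ?_, ?_⟩
    · ext y
      simp only [mem_inter, mem_insert]
      constructor
      · rintro ⟨h1 | h1, h2⟩
        · exact absurd (h1 ▸ h2) hxG
        · exact ⟨h1, h2⟩
      · rintro ⟨h1, h2⟩
        exact ⟨Or.inr h1, h2⟩
    · intro Q' hd
      ext y
      simp only [mem_inter, mem_insert]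
      constructor
      · rintro ⟨h1 | h1, h2⟩
        · exact absurd (h1 ▸ h2) (hne Q' hd)
        · exact ⟨h1, h2⟩
      · rintro ⟨h1, h2⟩
        exact ⟨Or.inr h1, h2⟩
    · have e1 : insert x X ∩ Q = insert x (X ∩ Q) := by
        ext y; simp only [mem_inter, mem_insert]
        constructor
        · rintro ⟨h1 | h1, h2⟩
          · exact Or.inl h1
          · exact Or.inr ⟨h1, h2⟩
        · rintro (h1 | ⟨h1, h2⟩)
          · exact ⟨Or.inl h1, h1 ▸ hxQ⟩
          · exact ⟨Or.inr h1, h2⟩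
      have e2 : (insert x (X ∩ Q)).card = (X ∩ Q).card + 1 :=
        card_insert_of_notMem (fun h' => hxX (mem_inter.1 h').1)
      rw [e1, e2, Nat.even_add_one]
      tauto
    · intro y hy
      rcases mem_insert.1 hy with rfl | hy
      · exact mem_union_right _ hxQ
      · exact mem_union_left _ hy

/-- Two sets which agree on `Q` off the pivot `x` and have the same parity on `Q` agree on `Q`. -/
lemma agree_of_parity {X X' Q P : Finset V} {x : V} (hPQ : P ∩ Q ⊆ {x})
    (h : X \ P = X' \ P) (hpar : Even (X ∩ Q).card ↔ Even (X' ∩ Q).card) :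
    X ∩ Q = X' ∩ Q := by
  have key : ∀ y ∈ Q, y ≠ x → (y ∈ X ↔ y ∈ X') := by
    intro y hy hyx
    have hyP : y ∉ P := fun hp => hyx (mem_singleton.1 (hPQ (mem_inter.2 ⟨hp, hy⟩)))
    have := congrArg (fun Z => y ∈ Z) h
    simp only [mem_sdiff, hyP, not_false_eq_true, and_true, eq_iff_iff] at this
    exact this
  have her : (X ∩ Q).erase x = (X' ∩ Q).erase x := by
    ext y
    simp only [mem_erase, mem_inter]
    constructor
    · rintro ⟨h1, h2, h3⟩; exact ⟨h1, (key y h3 h1).1 h2, h3⟩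
    · rintro ⟨h1, h2, h3⟩; exact ⟨h1, (key y h3 h1).2 h2, h3⟩
  by_cases h1 : x ∈ X ∩ Q <;> by_cases h2 : x ∈ X' ∩ Q
  · rw [← insert_erase h1, ← insert_erase h2, her]
  · exfalso
    have e1 := card_erase_add_one h1
    have e2 : (X' ∩ Q).erase x = X' ∩ Q := erase_eq_of_notMem h2
    rw [her, e2] at e1
    rw [← e1, Nat.even_add_one] at hpar
    tauto
  · exfalso
    have e1 := card_erase_add_one h2
    have e2 : (X ∩ Q).erase x = X ∩ Q := erase_eq_of_notMem h1
    rw [← her, e2] at e1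
    rw [← e1, Nat.even_add_one] at hpar
    tauto
  · rw [← erase_eq_of_notMem h1, ← erase_eq_of_notMem h2, her]

/-- B: the even code. -/
lemma shat_even {L : Finset V → Prop} {M : Finset V} (hM : ¬ L M) (hne : M.Nonempty) :
    Shat L M (2 ^ (M.card - 1)) := by
  obtain ⟨x, hx⟩ := hne
  refine ⟨M.powerset.filter (fun X => Even (X ∩ M).card), ?_, ?_⟩
  · have := card_le_pivot (D := M.powerset.filter (fun X => Even (X ∩ M).card)) (M := M) (P := {x})
      (by intro X hX; exact mem_powerset.1 (mem_filter.1 hX).1) (by simpa using hx) (by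
        intro X hX X' hX' h
        obtain ⟨h1, h2⟩ := mem_filter.1 hX
        obtain ⟨h3, h4⟩ := mem_filter.1 hX'
        have := agree_of_parity (X := X) (X' := X') (Q := M) (P := {x}) (x := x)
          inter_subset_left h (by tauto)
        rwa [inter_eq_left.2 (mem_powerset.1 h1), inter_eq_left.2 (mem_powerset.1 h3)] at this)
    simpa using this
  · intro G hG hLG A hA
    obtain ⟨X, h1, _, h3, h4⟩ := adjust G A M True (by
      intro h
      exact absurd (Subset.antisymm hG h ▸ hLG) hM)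
    refine ⟨X, mem_filter.2 ⟨?_, by simpa using h3⟩, ?_⟩
    · rw [mem_powerset]
      intro y hy
      rcases mem_union.1 (h4 hy) with h | h
      · exact hG (hA h)
      · exact h
    · rw [h1]; exact inter_eq_left.2 hA

/-- C: the product of two even codes. -/
lemma shat_two {L : Finset V → Prop} (hL : ∀ G H : Finset V, H ⊆ G → L G → L H) {M Q₁ Q₂ : Finset V}
    (hM : Q₁ ∪ Q₂ = M) (hd : Disjoint Q₁ Q₂) (h1 : ¬ L Q₁) (h2 : ¬ L Q₂)
    (hne1 : Q₁.Nonempty) (hne2 : Q₂.Nonempty) :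
    Shat L M (2 ^ (M.card - 2)) := by
  obtain ⟨x, hx⟩ := hne1
  obtain ⟨y, hy⟩ := hne2
  have hxy : x ≠ y := fun e => disjoint_left.1 hd hx (e ▸ hy)
  have hxQ2 : x ∉ Q₂ := disjoint_left.1 hd hx
  have hyQ1 : y ∉ Q₁ := fun h => disjoint_left.1 hd h hy
  refine ⟨M.powerset.filter (fun X => Even (X ∩ Q₁).card ∧ Even (X ∩ Q₂).card), ?_, ?_⟩
  · have := card_le_pivot (D := M.powerset.filter
        (fun X => Even (X ∩ Q₁).card ∧ Even (X ∩ Q₂).card)) (M := M) (P := {x, y})
      (by intro X hX; exact mem_powerset.1 (mem_filter.1 hX).1) (by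
        rw [← hM]
        intro z hz
        rcases mem_insert.1 hz with rfl | hz
        · exact mem_union_left _ hx
        · rw [mem_singleton.1 hz]; exact mem_union_right _ hy) (by
        intro X hX X' hX' h
        obtain ⟨h1, h2, h2'⟩ := mem_filter.1 hX
        obtain ⟨h3, h4, h4'⟩ := mem_filter.1 hX'
        have e1 := agree_of_parity (X := X) (X' := X') (Q := Q₁) (P := {x, y}) (x := x)
          (by
            intro z hz
            obtain ⟨hz1, hz2⟩ := mem_inter.1 hz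
            rcases mem_insert.1 hz1 with rfl | hz1
            · simp
            · rw [mem_singleton.1 hz1] at hz2; exact absurd hz2 hyQ1) h (by tauto)
        have e2 := agree_of_parity (X := X) (X' := X') (Q := Q₂) (P := {x, y}) (x := y)
          (by
            intro z hz
            obtain ⟨hz1, hz2⟩ := mem_inter.1 hz
            rcases mem_insert.1 hz1 with rfl | hz1
            · exact absurd hz2 hxQ2
            · simpa using hz1) h (by tauto)
        have : X ∩ M = X' ∩ M := by rw [← hM, inter_union_distrib_left, inter_union_distrib_left, e1, e2]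
        rwa [inter_eq_left.2 (mem_powerset.1 h1), inter_eq_left.2 (mem_powerset.1 h3)] at this)
    rwa [card_pair hxy] at this
  · intro G hG hLG A hA
    obtain ⟨X₁, a1, a2, a3, a4⟩ := adjust G A Q₁ True (fun h => absurd (hL _ _ h hLG) h1)
    obtain ⟨X₂, b1, b2, b3, b4⟩ := adjust G X₁ Q₂ True (fun h => absurd (hL _ _ h hLG) h2)
    refine ⟨X₂, mem_filter.2 ⟨?_, ?_, by simpa using b3⟩, ?_⟩
    · rw [mem_powerset, ← hM]
      intro z hz
      rcases mem_union.1 (b4 hz) with h | h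
      · rcases mem_union.1 (a4 h) with h | h
        · rw [hM]; exact hG (hA h)
        · exact mem_union_left _ h
      · exact mem_union_right _ h
    · rw [b2 Q₁ hd]; simpa using a3
    · rw [b1, a1]; exact inter_eq_left.2 hA

/-- D: all four parities equal. -/
lemma shat_four {L : Finset V → Prop} (hL : ∀ G H : Finset V, H ⊆ G → L G → L H)
    {M Q₁ Q₂ Q₃ Q₄ : Finset V}
    (hM : Q₁ ∪ Q₂ ∪ Q₃ ∪ Q₄ = M) (d12 : Disjoint Q₁ Q₂) (d13 : Disjoint Q₁ Q₃)
    (d14 : Disjoint Q₁ Q₄) (d23 : Disjoint Q₂ Q₃) (d24 : Disjoint Q₂ Q₄) (d34 : Disjoint Q₃ Q₄)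
    (h12 : ¬ L (Q₁ ∪ Q₂)) (h13 : ¬ L (Q₁ ∪ Q₃)) (h14 : ¬ L (Q₁ ∪ Q₄)) (h23 : ¬ L (Q₂ ∪ Q₃))
    (h24 : ¬ L (Q₂ ∪ Q₄)) (h34 : ¬ L (Q₃ ∪ Q₄))
    (hne1 : Q₁.Nonempty) (hne2 : Q₂.Nonempty) (hne3 : Q₃.Nonempty) :
    Shat L M (2 ^ (M.card - 3)) := by
  obtain ⟨x, hx⟩ := hne1
  obtain ⟨y, hy⟩ := hne2
  obtain ⟨z, hz⟩ := hne3
  have hxy : x ≠ y := fun e => disjoint_left.1 d12 hx (e ▸ hy)
  have hxz : x ≠ z := fun e => disjoint_left.1 d13 hx (e ▸ hz)
  have hyz : y ≠ z := fun e => disjoint_left.1 d23 hy (e ▸ hz)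
  have hx2 : x ∉ Q₂ := disjoint_left.1 d12 hx
  have hx3 : x ∉ Q₃ := disjoint_left.1 d13 hx
  have hx4 : x ∉ Q₄ := disjoint_left.1 d14 hx
  have hy1 : y ∉ Q₁ := disjoint_right.1 d12 hy
  have hy3 : y ∉ Q₃ := disjoint_left.1 d23 hy
  have hy4 : y ∉ Q₄ := disjoint_left.1 d24 hy
  have hz1 : z ∉ Q₁ := disjoint_right.1 d13 hz
  have hz2 : z ∉ Q₂ := disjoint_right.1 d23 hz
  have hz4 : z ∉ Q₄ := disjoint_left.1 d34 hz
  have hcard : ({x, y, z} : Finset V).card = 3 := by
    rw [card_eq_three]; exact ⟨x, y, z, hxy, hxz, hyz, rfl⟩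
  refine ⟨M.powerset.filter (fun X => (Even (X ∩ Q₁).card ↔ Even (X ∩ Q₄).card) ∧
    (Even (X ∩ Q₂).card ↔ Even (X ∩ Q₄).card) ∧
    (Even (X ∩ Q₃).card ↔ Even (X ∩ Q₄).card)), ?_, ?_⟩
  · rw [← hcard]
    apply card_le_pivot
    · intro X hX; exact mem_powerset.1 (mem_filter.1 hX).1
    · rw [← hM]
      intro w hw
      simp only [mem_insert, mem_singleton] at hw
      rcases hw with rfl | rfl | rfl
      · simp [hx]
      · simp [hy]
      · simp [hz]
    · intro X hX X' hX' h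
      obtain ⟨h1, h2, h2', h2''⟩ := mem_filter.1 hX
      obtain ⟨h3, h4, h4', h4''⟩ := mem_filter.1 hX'
      have e4 : X ∩ Q₄ = X' ∩ Q₄ := by
        ext w
        simp only [mem_inter]
        constructor
        · rintro ⟨hw1, hw2⟩
          have hwP : w ∉ ({x, y, z} : Finset V) := by
            simp only [mem_insert, mem_singleton, not_or]
            exact ⟨fun e => hx4 (e ▸ hw2), fun e => hy4 (e ▸ hw2), fun e => hz4 (e ▸ hw2)⟩
          have : w ∈ X \ {x, y, z} := mem_sdiff.2 ⟨hw1, hwP⟩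
          rw [h] at this
          exact ⟨(mem_sdiff.1 this).1, hw2⟩
        · rintro ⟨hw1, hw2⟩
          have hwP : w ∉ ({x, y, z} : Finset V) := by
            simp only [mem_insert, mem_singleton, not_or]
            exact ⟨fun e => hx4 (e ▸ hw2), fun e => hy4 (e ▸ hw2), fun e => hz4 (e ▸ hw2)⟩
          have : w ∈ X' \ {x, y, z} := mem_sdiff.2 ⟨hw1, hwP⟩
          rw [← h] at this
          exact ⟨(mem_sdiff.1 this).1, hw2⟩
      have e4' : Even (X ∩ Q₄).card ↔ Even (X' ∩ Q₄).card := by rw [e4]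
      have e1 := agree_of_parity (X := X) (X' := X') (Q := Q₁) (P := {x, y, z}) (x := x)
        (by
          intro w hw
          obtain ⟨hw1, hw2⟩ := mem_inter.1 hw
          simp only [mem_insert, mem_singleton] at hw1
          rcases hw1 with rfl | rfl | rfl
          · simp
          · exact absurd hw2 hy1
          · exact absurd hw2 hz1) h ((h2.trans e4').trans h4.symm)
      have e2 := agree_of_parity (X := X) (X' := X') (Q := Q₂) (P := {x, y, z}) (x := y)
        (by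
          intro w hw
          obtain ⟨hw1, hw2⟩ := mem_inter.1 hw
          simp only [mem_insert, mem_singleton] at hw1
          rcases hw1 with rfl | rfl | rfl
          · exact absurd hw2 hx2
          · simp
          · exact absurd hw2 hz2) h ((h2'.trans e4').trans h4'.symm)
      have e3 := agree_of_parity (X := X) (X' := X') (Q := Q₃) (P := {x, y, z}) (x := z)
        (by
          intro w hw
          obtain ⟨hw1, hw2⟩ := mem_inter.1 hw
          simp only [mem_insert, mem_singleton] at hw1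
          rcases hw1 with rfl | rfl | rfl
          · exact absurd hw2 hx3
          · exact absurd hw2 hy3
          · simp) h ((h2''.trans e4').trans h4''.symm)
      have : X ∩ M = X' ∩ M := by
        rw [← hM]
        simp only [inter_union_distrib_left]
        rw [e1, e2, e3, e4]
      rwa [inter_eq_left.2 (mem_powerset.1 h1), inter_eq_left.2 (mem_powerset.1 h3)] at this
  · intro G hG hLG A hA
    -- the common parity
    have hε : ∃ ε : Prop, (Q₁ ⊆ G → (Even (A ∩ Q₁).card ↔ ε)) ∧ (Q₂ ⊆ G → (Even (A ∩ Q₂).card ↔ ε)) ∧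
        (Q₃ ⊆ G → (Even (A ∩ Q₃).card ↔ ε)) ∧ (Q₄ ⊆ G → (Even (A ∩ Q₄).card ↔ ε)) := by
      have hno : ∀ P P' : Finset V, ¬ L (P ∪ P') → P ⊆ G → ¬ P' ⊆ G := fun P P' h hP hP' =>
        h (hL _ _ (union_subset hP hP') hLG)
      by_cases c1 : Q₁ ⊆ G
      · refine ⟨Even (A ∩ Q₁).card, fun _ => Iff.rfl, fun c => absurd c (hno _ _ h12 c1),
          fun c => absurd c (hno _ _ h13 c1), fun c => absurd c (hno _ _ h14 c1)⟩
      · by_cases c2 : Q₂ ⊆ G
        · refine ⟨Even (A ∩ Q₂).card, fun c => absurd c c1, fun _ => Iff.rfl,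
            fun c => absurd c (hno _ _ h23 c2), fun c => absurd c (hno _ _ h24 c2)⟩
        · by_cases c3 : Q₃ ⊆ G
          · exact ⟨Even (A ∩ Q₃).card, fun c => absurd c c1, fun c => absurd c c2,
              fun _ => Iff.rfl, fun c => absurd c (hno _ _ h34 c3)⟩
          · exact ⟨Even (A ∩ Q₄).card, fun c => absurd c c1, fun c => absurd c c2,
              fun c => absurd c c3, fun _ => Iff.rfl⟩
    obtain ⟨ε, g1, g2, g3, g4⟩ := hε
    obtain ⟨X₁, a1, a2, a3, a4⟩ := adjust G A Q₁ ε g1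
    obtain ⟨X₂, b1, b2, b3, b4⟩ := adjust G X₁ Q₂ ε (by
      intro h; rw [a2 Q₂ d12.symm]; exact g2 h)
    obtain ⟨X₃, c1, c2, c3, c4⟩ := adjust G X₂ Q₃ ε (by
      intro h; rw [b2 Q₃ d23.symm, a2 Q₃ d13.symm]; exact g3 h)
    obtain ⟨X₄, e1, e2, e3, e4⟩ := adjust G X₃ Q₄ ε (by
      intro h; rw [c2 Q₄ d34.symm, b2 Q₄ d24.symm, a2 Q₄ d14.symm]; exact g4 h)
    have f3 : X₄ ∩ Q₃ = X₃ ∩ Q₃ := e2 Q₃ d34
    have f2 : X₄ ∩ Q₂ = X₂ ∩ Q₂ := by rw [e2 Q₂ d24, c2 Q₂ d23]
    have f1 : X₄ ∩ Q₁ = X₁ ∩ Q₁ := by rw [e2 Q₁ d14, c2 Q₁ d13, b2 Q₁ d12]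
    refine ⟨X₄, mem_filter.2 ⟨?_, ?_, ?_, ?_⟩, ?_⟩
    · rw [mem_powerset]
      have hAM : A ⊆ M := hA.trans hG
      have m1 : Q₁ ⊆ M := by
        rw [← hM]; exact fun w hw => mem_union_left _ (mem_union_left _ (mem_union_left _ hw))
      have m2 : Q₂ ⊆ M := by
        rw [← hM]; exact fun w hw => mem_union_left _ (mem_union_left _ (mem_union_right _ hw))
      have m3 : Q₃ ⊆ M := by
        rw [← hM]; exact fun w hw => mem_union_left _ (mem_union_right _ hw)
      have m4 : Q₄ ⊆ M := by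
        rw [← hM]; exact fun w hw => mem_union_right _ hw
      exact e4.trans (union_subset (c4.trans (union_subset (b4.trans (union_subset
        (a4.trans (union_subset hAM m1)) m2)) m3)) m4)
    · rw [f1, a3, e3]
    · rw [f2, b3, e3]
    · rw [f3, c3, e3]
    · rw [e1, c1, b1, a1]; exact inter_eq_left.2 hA

end Pool.Agent.Lib.MP_5e7226_co.Unc
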