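import Pool.Agent.Lib.MP_5e7226_co.UncCode

set_option autoImplicit false

namespace Pool.Agent.Lib.MP_5e7226_co.Unc

open Finset

variable {V : Type*} [DecidableEq V]

/-- F: if all faces have at most one point outside `G₀`. -/
lemma shat_hub {L : Finset V → Prop} {M G₀ : Finset V}
    (h : ∀ H ⊆ M, L H → (H \ G₀).card ≤ 1) : Shat L M (2 ^ (G₀.card + 1)) := by
  classical
  refine ⟨G₀.powerset ∪ G₀.powerset.image (fun B => B ∪ (M \ G₀)), ?_, ?_⟩
  · calc _ ≤ G₀.powerset.card + (G₀.powerset.image (fun B => B ∪ (M \ G₀))).card :=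
        card_union_le _ _
      _ ≤ G₀.powerset.card + G₀.powerset.card := Nat.add_le_add_left card_image_le _
      _ = 2 ^ (G₀.card + 1) := by rw [card_powerset, pow_succ]; ring
  · intro G hG hLG A hA
    by_cases hAG : A ⊆ G₀
    · refine ⟨A, mem_union_left _ (mem_powerset.2 hAG), inter_eq_left.2 hA⟩
    · obtain ⟨y, hyA, hy0⟩ := not_subset.1 hAG
      have hone : ∀ z ∈ G, z ∉ G₀ → z = y := by
        intro z hz hz0
        exact card_le_one.1 (h G hG hLG) z (mem_sdiff.2 ⟨hz, hz0⟩) y (mem_sdiff.2 ⟨hA hyA, hy0⟩)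
      refine ⟨(A ∩ G₀) ∪ (M \ G₀), mem_union_right _ (mem_image.2 ⟨A ∩ G₀,
        mem_powerset.2 inter_subset_right, rfl⟩), ?_⟩
      ext z
      simp only [mem_inter, mem_union, mem_sdiff]
      constructor
      · rintro ⟨h1 | ⟨_, h1⟩, h2⟩
        · exact h1.1
        · rw [hone z h2 h1]; exact hyA
      · intro hz
        refine ⟨?_, hA hz⟩
        by_cases hz0 : z ∈ G₀
        · exact Or.inl ⟨hz, hz0⟩
        · exact Or.inr ⟨hG (hA hz), hz0⟩

/-- separation of a point from two others by an affine function over `F₂` -/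
lemma sep_two {k : ℕ} {y z w : Finset (Fin k)} (hz : z ≠ y) (hw : w ≠ y) :
    ∃ a : Finset (Fin k), (¬ (Odd (a ∩ z).card ↔ Odd (a ∩ y).card)) ∧
      (¬ (Odd (a ∩ w).card ↔ Odd (a ∩ y).card)) := by
  have hs : ∀ (j : Fin k) (s : Finset (Fin k)), Odd (({j} : Finset (Fin k)) ∩ s).card ↔ j ∈ s := by
    intro j s
    by_cases h : j ∈ s
    · rw [singleton_inter_of_mem h]; simp [h]
    · rw [singleton_inter_of_notMem h]; simp [h]
  have ht : ∀ (j j' : Fin k) (s : Finset (Fin k)), j ≠ j' →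
      (Odd (({j, j'} : Finset (Fin k)) ∩ s).card ↔ ¬ (j ∈ s ↔ j' ∈ s)) := by
    intro j j' s hjj
    by_cases h : j ∈ s <;> by_cases h' : j' ∈ s
    · have hsub : ({j, j'} : Finset (Fin k)) ⊆ s := by
        intro x hx
        simp only [mem_insert, mem_singleton] at hx
        rcases hx with rfl | rfl
        · exact h
        · exact h'
      rw [inter_eq_left.2 hsub, card_pair hjj]
      simp only [h, h', not_true_eq_false, iff_false]
      decide
    · rw [insert_inter_of_mem h, singleton_inter_of_notMem h']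
      simp [h, h']
    · rw [insert_inter_of_notMem h, singleton_inter_of_mem h']
      simp [h, h']
    · rw [insert_inter_of_notMem h, singleton_inter_of_notMem h']
      simp [h, h']
  obtain ⟨j, hj⟩ : ∃ j, ¬ (j ∈ z ↔ j ∈ y) := by
    by_contra hcon; push Not at hcon; exact hz (Finset.ext hcon)
  obtain ⟨j', hj'⟩ : ∃ j, ¬ (j ∈ w ↔ j ∈ y) := by
    by_contra hcon; push Not at hcon; exact hw (Finset.ext hcon)
  by_cases c1 : j ∈ w ↔ j ∈ y
  · by_cases c2 : j' ∈ z ↔ j' ∈ y
    · have hjj : j ≠ j' := by rintro rfl; exact hj c2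
      refine ⟨{j, j'}, ?_, ?_⟩
      · rw [ht j j' z hjj, ht j j' y hjj]; tauto
      · rw [ht j j' w hjj, ht j j' y hjj]; tauto
    · exact ⟨{j'}, by rw [hs, hs]; exact c2, by rw [hs, hs]; exact hj'⟩
  · exact ⟨{j}, by rw [hs, hs]; exact hj, by rw [hs, hs]; exact c1⟩

/-- E: faces with at most three points. -/
lemma shat_three {L : Finset V → Prop} {M : Finset V} {k : ℕ}
    (h3 : ∀ H ⊆ M, L H → H.card ≤ 3) (hM : M.card ≤ 2 ^ k) : Shat L M (2 ^ (k + 1)) := by
  classical
  obtain ⟨φ⟩ : Nonempty (M ↪ Finset (Fin k)) := by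
    apply Function.Embedding.nonempty_of_card_le
    simpa using hM
  let ψ : V → Finset (Fin k) := fun y => if h : y ∈ M then φ ⟨y, h⟩ else ∅
  have hψ : ∀ y ∈ M, ∀ z ∈ M, z ≠ y → ψ z ≠ ψ y := by
    intro y hy z hz hne he
    simp only [ψ, hy, hz, dif_pos] at he
    exact hne (Subtype.mk.inj (φ.injective he))
  let X : Finset (Fin k) → Finset V := fun a => M.filter (fun y => Odd (a ∩ ψ y).card)
  refine ⟨univ.image X ∪ univ.image (fun a => M \ X a), ?_, ?_⟩
  · calc _ ≤ (univ.image X).card + (univ.image (fun a => M \ X a)).card := card_union_le _ _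
      _ ≤ (univ : Finset (Finset (Fin k))).card + (univ : Finset (Finset (Fin k))).card :=
        Nat.add_le_add card_image_le card_image_le
      _ = 2 ^ (k + 1) := by simp [pow_succ]; ring
  · intro G hG hLG A hA
    have hcard := h3 G hG hLG
    have hcompl : ∀ B ⊆ G, (∃ Z ∈ univ.image X ∪ univ.image (fun a => M \ X a), Z ∩ G = B) →
        ∃ Z ∈ univ.image X ∪ univ.image (fun a => M \ X a), Z ∩ G = G \ B := by
      rintro B hB ⟨Z, hZ, hZG⟩
      refine ⟨M \ Z, ?_, ?_⟩
      · rcases mem_union.1 hZ with h | h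
        · obtain ⟨a, _, rfl⟩ := mem_image.1 h
          exact mem_union_right _ (mem_image.2 ⟨a, mem_univ _, rfl⟩)
        · obtain ⟨a, _, rfl⟩ := mem_image.1 h
          refine mem_union_left _ (mem_image.2 ⟨a, mem_univ _, ?_⟩)
          rw [Finset.sdiff_sdiff_eq_self (filter_subset _ _)]
      · rw [← hZG]
        ext z
        simp only [mem_inter, mem_sdiff]
        constructor
        · rintro ⟨⟨_, h1⟩, h2⟩
          exact ⟨h2, fun h => h1 h.1⟩
        · rintro ⟨h1, h2⟩
          exact ⟨⟨hG h1, fun h => h2 ⟨h, h1⟩⟩, h1⟩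
    have hone : ∀ B ⊆ G, B.card ≤ 1 →
        ∃ Z ∈ univ.image X ∪ univ.image (fun a => M \ X a), Z ∩ G = B := by
      intro B hB hB1
      rcases Nat.le_one_iff_eq_zero_or_eq_one.1 hB1 with h0 | h0
      · rw [card_eq_zero] at h0
        refine ⟨X ∅, mem_union_left _ (mem_image.2 ⟨∅, mem_univ _, rfl⟩), ?_⟩
        rw [h0]
        ext z
        simp [X]
      · obtain ⟨y, rfl⟩ := card_eq_one.1 h0
        have hyG : y ∈ G := hB (mem_singleton_self y)
        have hE : (G.erase y).card ≤ 2 := by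
          rw [card_erase_of_mem hyG]; omega
        obtain ⟨a, ha⟩ : ∃ a : Finset (Fin k), ∀ z ∈ G, z ≠ y →
            ¬ (Odd (a ∩ ψ z).card ↔ Odd (a ∩ ψ y).card) := by
          rcases (G.erase y).eq_empty_or_nonempty with he | ⟨z, hz⟩
          · refine ⟨∅, fun z hz hzy => ?_⟩
            have : z ∈ G.erase y := mem_erase.2 ⟨hzy, hz⟩
            rw [he] at this
            exact absurd this (notMem_empty _)
          · obtain ⟨hzy, hzG⟩ := mem_erase.1 hz
            have hE' : ((G.erase y).erase z).card ≤ 1 := by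
              rw [card_erase_of_mem hz]; omega
            rcases ((G.erase y).erase z).eq_empty_or_nonempty with he | ⟨w, hw⟩
            · obtain ⟨a, ha, _⟩ := sep_two (hψ y (hG hyG) z (hG hzG) hzy)
                (hψ y (hG hyG) z (hG hzG) hzy)
              refine ⟨a, fun w hw hwy => ?_⟩
              by_cases hwz : w = z
              · rw [hwz]; exact ha
              · have : w ∈ (G.erase y).erase z := mem_erase.2 ⟨hwz, mem_erase.2 ⟨hwy, hw⟩⟩
                rw [he] at this
                exact absurd this (notMem_empty _)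
            · obtain ⟨hwz, hw'⟩ := mem_erase.1 hw
              obtain ⟨hwy, hwG⟩ := mem_erase.1 hw'
              obtain ⟨a, ha, ha'⟩ := sep_two (hψ y (hG hyG) z (hG hzG) hzy)
                (hψ y (hG hyG) w (hG hwG) hwy)
              refine ⟨a, fun v hv hvy => ?_⟩
              by_cases hvz : v = z
              · rw [hvz]; exact ha
              · have : v ∈ (G.erase y).erase z := mem_erase.2 ⟨hvz, mem_erase.2 ⟨hvy, hv⟩⟩
                rw [card_le_one.1 hE' v this w hw]; exact ha'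
        by_cases hy : Odd (a ∩ ψ y).card
        · refine ⟨X a, mem_union_left _ (mem_image.2 ⟨a, mem_univ _, rfl⟩), ?_⟩
          ext z
          simp only [X, mem_inter, mem_filter, mem_singleton]
          constructor
          · rintro ⟨⟨_, h1⟩, h2⟩
            by_contra hzy
            exact ha z h2 hzy ⟨fun _ => hy, fun _ => h1⟩
          · rintro rfl
            exact ⟨⟨hG hyG, hy⟩, hyG⟩
        · refine ⟨M \ X a, mem_union_right _ (mem_image.2 ⟨a, mem_univ _, rfl⟩), ?_⟩
          ext z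
          simp only [X, mem_inter, mem_filter, mem_singleton, mem_sdiff]
          constructor
          · rintro ⟨⟨h0, h1⟩, h2⟩
            by_contra hzy
            exact ha z h2 hzy ⟨fun h => absurd ⟨h0, h⟩ h1, fun h => absurd h hy⟩
          · rintro rfl
            exact ⟨⟨hG hyG, fun h => hy h.2⟩, hyG⟩
    by_cases hA1 : A.card ≤ 1
    · exact hone A hA hA1
    · have h1 : (G \ A).card ≤ 1 := by
        rw [card_sdiff_of_subset hA]; omega
      have := hcompl (G \ A) sdiff_subset (hone (G \ A) sdiff_subset h1)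
      rwa [Finset.sdiff_sdiff_eq_self hA] at this

/-- number of sets with prescribed trace -/
lemma card_trace {M G A : Finset V} (hG : G ⊆ M) (hA : A ⊆ G) :
    2 ^ (M.card - G.card) ≤ (M.powerset.filter (fun X => X ∩ G = A)).card := by
  rw [← card_sdiff_of_subset hG, ← card_powerset]
  apply card_le_card_of_injOn (fun B => A ∪ B)
  · intro B hB
    have hB' : B ⊆ M \ G := mem_powerset.1 (Finset.mem_coe.1 hB)
    rw [Finset.mem_coe, mem_filter, mem_powerset]
    refine ⟨union_subset (hA.trans hG) (hB'.trans sdiff_subset), ?_⟩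
    ext z
    simp only [mem_inter, mem_union]
    constructor
    · rintro ⟨h1 | h1, h2⟩
      · exact h1
      · exact absurd h2 (mem_sdiff.1 (hB' h1)).2
    · intro h; exact ⟨Or.inl h, hA h⟩
  · intro B hB B' hB' h
    have hB1 : B ⊆ M \ G := mem_powerset.1 (Finset.mem_coe.1 hB)
    have hB2 : B' ⊆ M \ G := mem_powerset.1 (Finset.mem_coe.1 hB')
    have h' : A ∪ B = A ∪ B' := h
    ext z
    have := congrArg (fun Z => z ∈ Z) h'
    simp only [mem_union, eq_iff_iff] at this
    constructor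
    · intro hz
      rcases this.1 (Or.inr hz) with h | h
      · exact absurd (hA h) (mem_sdiff.1 (hB1 hz)).2
      · exact h
    · intro hz
      rcases this.2 (Or.inr hz) with h | h
      · exact absurd (hA h) (mem_sdiff.1 (hB2 hz)).2
      · exact h

lemma greedy {g : ℕ} (M : Finset V) (U : Finset (Σ _ : Finset V, Finset V))
    (hU : ∀ p ∈ U, p.2 ⊆ p.1 ∧ p.1 ⊆ M ∧ p.1.card ≤ g) (N : ℕ) :
    ∃ D : Finset (Finset V), D.card ≤ N ∧
      ((U.filter (fun p => ∀ X ∈ D, X ∩ p.1 ≠ p.2)).card : ℝ) ≤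
        U.card * (1 - (1 / 2 : ℝ) ^ g) ^ N := by
  induction N with
  | zero =>
    refine ⟨∅, by simp, ?_⟩
    simp
  | succ N ih =>
    obtain ⟨D, hD, hcard⟩ := ih
    set U' := U.filter (fun p => ∀ X ∈ D, X ∩ p.1 ≠ p.2) with hU'
    -- choose X
    have hsum : ∑ X ∈ M.powerset, ((U'.filter (fun p => X ∩ p.1 = p.2)).card : ℝ) =
        ∑ p ∈ U', ((M.powerset.filter (fun X => X ∩ p.1 = p.2)).card : ℝ) := by
      simp only [card_filter, Nat.cast_sum]
      rw [sum_comm]
    have hlow : (U'.card : ℝ) * (2 ^ M.card * (1 / 2) ^ g) ≤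
        ∑ p ∈ U', ((M.powerset.filter (fun X => X ∩ p.1 = p.2)).card : ℝ) := by
      rw [← nsmul_eq_mul]
      apply card_nsmul_le_sum
      intro p hp
      obtain ⟨h1, h2, h3⟩ := hU p (mem_filter.1 hp).1
      have h4 := card_trace h2 h1
      have h5 : (2 : ℝ) ^ (M.card - p.1.card) ≤
          ((M.powerset.filter (fun X => X ∩ p.1 = p.2)).card : ℝ) := by exact_mod_cast h4
      refine le_trans ?_ h5
      have hle : p.1.card ≤ M.card := card_le_card h2
      have e1 : (2 : ℝ) ^ M.card = 2 ^ (M.card - p.1.card) * 2 ^ p.1.card := by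
        rw [← pow_add, Nat.sub_add_cancel hle]
      rw [e1, mul_assoc]
      have e2 : (2 : ℝ) ^ p.1.card * (1 / 2) ^ g ≤ 1 := by
        rw [one_div, inv_pow, ← div_eq_mul_inv, div_le_one (by positivity)]
        exact pow_le_pow_right₀ (by norm_num) h3
      nlinarith [pow_pos (show (0 : ℝ) < 2 by norm_num) (M.card - p.1.card)]
    obtain ⟨X, hX, hXle⟩ : ∃ X ∈ M.powerset,
        (U'.card : ℝ) * (1 / 2) ^ g ≤ ((U'.filter (fun p => X ∩ p.1 = p.2)).card : ℝ) := by
      apply exists_le_of_sum_le (powerset_nonempty M)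
      rw [hsum, sum_const, card_powerset, nsmul_eq_mul]
      push_cast
      calc _ = (U'.card : ℝ) * (2 ^ M.card * (1 / 2) ^ g) := by ring
        _ ≤ _ := hlow
    refine ⟨insert X D, (card_insert_le _ _).trans (Nat.succ_le_succ hD), ?_⟩
    have e1 : U.filter (fun p => ∀ Z ∈ insert X D, Z ∩ p.1 ≠ p.2) =
        U'.filter (fun p => ¬ X ∩ p.1 = p.2) := by
      rw [hU', filter_filter]
      apply filter_congr
      intro p _
      simp only [mem_insert, forall_eq_or_imp]
      tauto
    have e2 : (U'.filter (fun p => X ∩ p.1 = p.2)).card +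
        (U'.filter (fun p => ¬ X ∩ p.1 = p.2)).card = U'.card :=
      card_filter_add_card_filter_not _
    have e3 : ((U'.filter (fun p => ¬ X ∩ p.1 = p.2)).card : ℝ) ≤
        U'.card * (1 - (1 / 2) ^ g) := by
      have : ((U'.filter (fun p => X ∩ p.1 = p.2)).card : ℝ) +
        (U'.filter (fun p => ¬ X ∩ p.1 = p.2)).card = U'.card := by exact_mod_cast e2
      nlinarith
    rw [e1]
    have hnn : (0 : ℝ) ≤ 1 - (1 / 2) ^ g := by
      have : (1 / 2 : ℝ) ^ g ≤ 1 := pow_le_one₀ (by norm_num) (by norm_num)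
      linarith
    calc _ ≤ (U'.card : ℝ) * (1 - (1 / 2) ^ g) := e3
      _ ≤ (U.card * (1 - (1 / 2) ^ g) ^ N) * (1 - (1 / 2) ^ g) :=
        mul_le_mul_of_nonneg_right hcard hnn
      _ = _ := by rw [pow_succ]; ring

/-- G: the greedy code. -/
lemma shat_greedy {L : Finset V → Prop} {M : Finset V} {g N : ℕ}
    (hg : ∀ H ⊆ M, L H → H.card ≤ g)
    (hN : (3 : ℝ) ^ M.card * (1 - (1 / 2 : ℝ) ^ g) ^ N < 1) : Shat L M N := by
  let U : Finset (Σ _ : Finset V, Finset V) :=
    (M.powerset.sigma (fun G => G.powerset)).filter (fun p => p.1.card ≤ g)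
  have hU : ∀ p ∈ U, p.2 ⊆ p.1 ∧ p.1 ⊆ M ∧ p.1.card ≤ g := by
    intro p hp
    obtain ⟨h1, h2⟩ := mem_filter.1 hp
    obtain ⟨h3, h4⟩ := mem_sigma.1 h1
    exact ⟨mem_powerset.1 h4, mem_powerset.1 h3, h2⟩
  have hUc : (U.card : ℝ) ≤ 3 ^ M.card := by
    have h1 : U.card ≤ (M.powerset.sigma (fun G => G.powerset)).card := card_filter_le _ _
    have h2 : (M.powerset.sigma (fun G => G.powerset)).card = 3 ^ M.card := by
      rw [card_sigma]
      simp only [card_powerset]
      have := Finset.sum_pow_mul_eq_add_pow (2 : ℕ) 1 M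
      simpa using this
    rw [h2] at h1
    exact_mod_cast h1
  obtain ⟨D, hD, hcard⟩ := greedy M U hU N
  have hnn : (0 : ℝ) ≤ (1 - (1 / 2 : ℝ) ^ g) ^ N := by
    apply pow_nonneg
    have : (1 / 2 : ℝ) ^ g ≤ 1 := pow_le_one₀ (by norm_num) (by norm_num)
    linarith
  have hlt : ((U.filter (fun p => ∀ X ∈ D, X ∩ p.1 ≠ p.2)).card : ℝ) < 1 := by
    calc _ ≤ _ := hcard
      _ ≤ 3 ^ M.card * (1 - (1 / 2 : ℝ) ^ g) ^ N := mul_le_mul_of_nonneg_right hUc hnn
      _ < 1 := hN
  have hzero : (U.filter (fun p => ∀ X ∈ D, X ∩ p.1 ≠ p.2)).card = 0 := by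
    have : (U.filter (fun p => ∀ X ∈ D, X ∩ p.1 ≠ p.2)).card < 1 := by exact_mod_cast hlt
    omega
  rw [card_eq_zero] at hzero
  refine ⟨D, hD, fun G hG hLG A hA => ?_⟩
  by_contra hcon
  push Not at hcon
  have : (⟨G, A⟩ : Σ _ : Finset V, Finset V) ∈ U.filter (fun p => ∀ X ∈ D, X ∩ p.1 ≠ p.2) := by
    refine mem_filter.2 ⟨mem_filter.2 ⟨mem_sigma.2 ⟨mem_powerset.2 hG, mem_powerset.2 hA⟩,
      hg G hG hLG⟩, fun X hX => hcon X hX⟩
  rw [hzero] at this
  exact absurd this (notMem_empty _)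

end Pool.Agent.Lib.MP_5e7226_co.Unc
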