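import Pool.Agent.Lib.MP_5e7226_co.UncGeom

set_option autoImplicit false
set_option linter.unusedSectionVars false

namespace Pool.Agent.Lib.MP_5e7226_co.Unc

open Finset

variable {V : Type*} [Fintype V] [DecidableEq V]

/-- the vertices of the cross-body, in coordinates -/
def uv (T : Finset V) (σ : V → V) (i : V) : V → ℝ :=
  if i ∈ T then Pi.single i 1 + Pi.single (σ i) 1
  else if σ i = i then Pi.single i 1 else Pi.single (σ i) 1 - Pi.single i 1

/-- the new coordinates -/
noncomputable def al (T : Finset V) (σ : V → V) (c : V → ℝ) (i : V) : ℝ :=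
  if i ∈ T then (c i + c (σ i)) / 2 else if σ i = i then c i else (c (σ i) - c i) / 2

lemma exists_sigma {Δ : Finset V → Prop} (h : CubeLike Δ univ) :
    ∃ (T : Finset V) (σ : V → V), Function.Involutive σ ∧ (∀ i ∈ T, σ i ∉ T) ∧
      (∀ i, i ∉ T → σ i ≠ i → σ i ∈ T) ∧ ∀ F, (Δ F ↔ ∀ b ∈ T, b ∈ F → σ b ∉ F) := by
  classical
  obtain ⟨T, Y, y, hTY, hd, hy, hinj, hF⟩ := h
  let σ : V → V := fun i => if i ∈ T then y i else if h : ∃ b ∈ T, y b = i then h.choose else i
  have h1 : ∀ b ∈ T, σ b = y b := fun b hb => by simp only [σ, hb, if_true]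
  have hyT : ∀ b ∈ T, y b ∉ T := fun b hb => disjoint_right.1 hd (hy b hb)
  have h2 : ∀ b ∈ T, σ (y b) = b := by
    intro b hb
    have hex : ∃ b' ∈ T, y b' = y b := ⟨b, hb, rfl⟩
    simp only [σ, hyT b hb, if_false, hex, dif_pos]
    exact hinj _ hex.choose_spec.1 b hb hex.choose_spec.2
  have h3 : ∀ i, i ∉ T → (¬ ∃ b ∈ T, y b = i) → σ i = i := by
    intro i hi hne
    simp only [σ, hi, if_false, hne, dif_neg, not_false_eq_true]
  refine ⟨T, σ, ?_, ?_, ?_, ?_⟩
  · intro i
    by_cases hi : i ∈ T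
    · rw [h1 i hi, h2 i hi]
    · by_cases hex : ∃ b ∈ T, y b = i
      · obtain ⟨b, hb, rfl⟩ := hex
        rw [h2 b hb, h1 b hb]
      · rw [h3 i hi hex, h3 i hi hex]
  · intro i hi
    rw [h1 i hi]
    exact hyT i hi
  · intro i hi hne
    by_cases hex : ∃ b ∈ T, y b = i
    · obtain ⟨b, hb, rfl⟩ := hex
      rw [h2 b hb]; exact hb
    · exact absurd (h3 i hi hex) hne
  · intro F
    rw [hF F (subset_univ _)]
    constructor
    · intro h b hb hbF
      rw [h1 b hb]; exact h b hb hbF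
    · intro h b hb hbF
      rw [← h1 b hb]; exact h b hb hbF

lemma abs_add_sub_half (x y : ℝ) (h : |y| ≤ |x|) : |(x + y) / 2| + |(x - y) / 2| = |x| := by
  rcases abs_cases x with ⟨h1, h2⟩ | ⟨h1, h2⟩ <;> rcases abs_cases y with ⟨h3, h4⟩ | ⟨h3, h4⟩ <;>
    rcases abs_cases ((x + y) / 2) with ⟨h5, h6⟩ | ⟨h5, h6⟩ <;>
    rcases abs_cases ((x - y) / 2) with ⟨h7, h8⟩ | ⟨h7, h8⟩ <;> linarith

lemma abs_sub_comm_half (x y : ℝ) : |(x - y) / 2| = |(y - x) / 2| := by
  rw [← abs_neg]; congr 1; ring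

section

variable {T : Finset V} {σ : V → V} (hσ : Function.Involutive σ) (hT : ∀ i ∈ T, σ i ∉ T)
  (hT' : ∀ i, i ∉ T → σ i ≠ i → σ i ∈ T)

include hσ hT hT'

lemma sum_al_uv (c : V → ℝ) : c = ∑ i, al T σ c i • uv T σ i := by
  ext j
  rw [Finset.sum_apply]
  have hz : ∀ i, i ≠ j → i ≠ σ j → (al T σ c i • uv T σ i) j = 0 := by
    intro i h1 h2
    have h3 : σ i ≠ j := fun h => h2 (by rw [← h, hσ i])
    rw [Pi.smul_apply]
    have : uv T σ i j = 0 := by
      unfold uv
      split_ifs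
      · simp [h1.symm, h3.symm]
      · simp [h1.symm]
      · simp [h1.symm, h3.symm]
    rw [this, smul_zero]
  by_cases hj : σ j = j
  · rw [sum_eq_single j (fun i _ hi => hz i hi (by rw [hj]; exact hi)) (fun h => absurd (mem_univ j) h)]
    have hjT : j ∉ T := fun h => by
      have := hT j h
      rw [hj] at this
      exact this h
    simp [al, uv, hjT, hj]
  · rw [sum_eq_add j (σ j) (Ne.symm hj) (fun i _ hi => hz i hi.1 hi.2)
      (fun h => absurd (mem_univ j) h) (fun h => absurd (mem_univ _) h)]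
    have hj' : j ≠ σ j := Ne.symm hj
    by_cases hjT : j ∈ T
    · have h1 := hT j hjT
      simp only [al, uv, hjT, h1, if_true, if_false, hσ j, hj', Pi.smul_apply, Pi.add_apply,
        Pi.sub_apply, Pi.single_apply, smul_eq_mul]
      ring
    · have h1 := hT' j hjT hj
      simp only [al, uv, hjT, h1, if_true, if_false, hσ j, hj, hj', Pi.smul_apply, Pi.add_apply,
        Pi.sub_apply, Pi.single_apply, smul_eq_mul]
      ring


/-- `∑ |α i| ≤ 1` on the body -/
lemma sum_al_le {Δ : Finset V → Prop} (hF : ∀ F, (Δ F ↔ ∀ b ∈ T, b ∈ F → σ b ∉ F))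
    {c : V → ℝ} (hc : c ∈ KC Δ) : ∑ i, |al T σ c i| ≤ 1 := by
  classical
  let F : Finset V := univ.filter (fun i => if i ∈ T then |c (σ i)| ≤ |c i| else
    if σ i = i then True else |c (σ i)| < |c i|)
  have hmemT : ∀ i, i ∈ T → (i ∈ F ↔ |c (σ i)| ≤ |c i|) := by
    intro i hi; simp [F, hi]
  have hmemf : ∀ i, i ∉ T → σ i = i → i ∈ F := by
    intro i hi h; simp [F, hi, h]
  have hmemo : ∀ i, i ∉ T → σ i ≠ i → (i ∈ F ↔ |c (σ i)| < |c i|) := by
    intro i hi h; simp [F, hi, h]
  have hΔF : Δ F := by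
    rw [hF]
    intro b hb hbF hσF
    have h1 := (hmemT b hb).1 hbF
    have hne : σ (σ b) ≠ σ b := by
      rw [hσ b]; intro h; exact hT b hb (h ▸ hb)
    have h2 := (hmemo (σ b) (hT b hb) hne).1 hσF
    rw [hσ b] at h2
    linarith
  have hsum := hc F hΔF
  have e1 : ∑ i ∈ F, |c i| = ∑ i, (if i ∈ F then |c i| else 0) := by
    rw [← sum_filter, filter_mem_eq_inter, univ_inter]
  have key : ∀ i, |al T σ c i| + |al T σ c (σ i)| =
      (if i ∈ F then |c i| else 0) + (if σ i ∈ F then |c (σ i)| else 0) := by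
    have hpair : ∀ b ∈ T, |al T σ c b| + |al T σ c (σ b)| =
      (if b ∈ F then |c b| else 0) + (if σ b ∈ F then |c (σ b)| else 0) := by
      intro b hb
      have h1 := hT b hb
      have hne : σ (σ b) ≠ σ b := by
        rw [hσ b]; intro h; exact hT b hb (h ▸ hb)
      have a1 : al T σ c b = (c b + c (σ b)) / 2 := by simp [al, hb]
      have hne' : b ≠ σ b := fun h => h1 (h ▸ hb)
      have a2 : al T σ c (σ b) = (c b - c (σ b)) / 2 := by
        simp only [al, h1, if_false, hσ b, hne']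
      rw [a1, a2]
      have i1 := hmemT b hb
      have i2 := hmemo (σ b) h1 hne
      rw [hσ b] at i2
      by_cases hle : |c (σ b)| ≤ |c b|
      · rw [if_pos (i1.2 hle), if_neg (fun h => by have := i2.1 h; linarith), add_zero]
        exact abs_add_sub_half _ _ hle
      · rw [if_neg (fun h => hle (i1.1 h)), if_pos (i2.2 (not_le.1 hle)), zero_add]
        rw [add_comm (c b) (c (σ b)), ← abs_sub_comm_half (c (σ b)) (c b)]
        exact abs_add_sub_half _ _ (not_le.1 hle).le
    intro i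
    by_cases hi : i ∈ T
    · exact hpair i hi
    · by_cases hi' : σ i = i
      · have a1 : al T σ c i = c i := by simp [al, hi, hi']
        rw [hi', a1, if_pos (hmemf i hi hi')]
      · have := hpair (σ i) (hT' i hi hi')
        rw [hσ i] at this
        linarith
  have hs1 : ∑ i, |al T σ c (σ i)| = ∑ i, |al T σ c i| :=
    Equiv.sum_comp (Function.Involutive.toPerm σ hσ) (fun i => |al T σ c i|)
  have hs2 : ∑ i, (if σ i ∈ F then |c (σ i)| else 0) = ∑ i, (if i ∈ F then |c i| else 0) :=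
    Equiv.sum_comp (Function.Involutive.toPerm σ hσ) (fun i => if i ∈ F then |c i| else 0)
  have htot : ∑ i, (|al T σ c i| + |al T σ c (σ i)|) =
      ∑ i, ((if i ∈ F then |c i| else 0) + (if σ i ∈ F then |c (σ i)| else 0)) :=
    sum_congr rfl (fun i _ => key i)
  rw [sum_add_distrib, sum_add_distrib, hs1, hs2, ← e1] at htot
  linarith

lemma uv_mem {Δ : Finset V → Prop} (hF : ∀ F, (Δ F ↔ ∀ b ∈ T, b ∈ F → σ b ∉ F)) (i : V)
    (ε : ℝ) (hε : |ε| ≤ 1) : ε • uv T σ i ∈ KC Δ := by
  classical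
  intro F hΔF
  rw [hF] at hΔF
  have h1 : ∀ j, |uv T σ i j| ≤ if j ∈ ({i, σ i} : Finset V) then 1 else 0 := by
    intro j
    have hTne : i ∈ T → σ i ≠ i := fun h h' => hT i h (h'.symm ▸ h)
    unfold uv
    by_cases h1 : j = i <;> by_cases h2 : j = σ i <;> by_cases h3 : i ∈ T <;>
      by_cases h4 : σ i = i <;> simp_all
  have h2 : ∀ j ∈ F, |(ε • uv T σ i) j| ≤ if j ∈ ({i, σ i} : Finset V) then 1 else 0 := by
    intro j _
    rw [Pi.smul_apply, smul_eq_mul, abs_mul]
    calc |ε| * |uv T σ i j| ≤ 1 * |uv T σ i j| :=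
        mul_le_mul_of_nonneg_right hε (abs_nonneg _)
      _ = |uv T σ i j| := one_mul _
      _ ≤ _ := h1 j
  refine (sum_le_sum h2).trans ?_
  rw [← sum_filter, filter_mem_eq_inter, sum_const, nsmul_eq_mul, mul_one]
  have h3 : (F ∩ {i, σ i}).card ≤ 1 := by
    rw [card_le_one]
    have hno : i ≠ σ i → i ∈ F → σ i ∉ F := by
      intro hne hi
      by_cases hiT : i ∈ T
      · exact hΔF i hiT hi
      · intro hs
        have := hΔF (σ i) (hT' i hiT (Ne.symm hne)) hs
        rw [hσ i] at this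
        exact this hi
    intro a ha b hb
    simp only [mem_inter, mem_insert, mem_singleton] at ha hb
    obtain ⟨ha1, ha2⟩ := ha
    obtain ⟨hb1, hb2⟩ := hb
    by_cases hne : i = σ i
    · rw [← hne] at ha2 hb2
      rcases ha2 with rfl | rfl <;> rcases hb2 with rfl | rfl <;> rfl
    · rcases ha2 with rfl | rfl <;> rcases hb2 with rfl | rfl
      · rfl
      · exact absurd hb1 (hno hne ha1)
      · exact absurd ha1 (hno hne hb1)
      · rfl
  exact_mod_cast h3

lemma uv_indep : LinearIndependent ℝ (uv T σ) := by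
  apply linearIndependent_of_top_le_span_of_card_eq_finrank
  · intro c _
    rw [sum_al_uv hσ hT hT' c]
    exact Submodule.sum_mem _ (fun i _ => Submodule.smul_mem _ _
      (Submodule.subset_span ⟨i, rfl⟩))
  · simp

end

end Pool.Agent.Lib.MP_5e7226_co.Unc
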