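import Pool.Agent.Lib.MP_5e7226_co.UncCross

set_option autoImplicit false
set_option linter.unusedSectionVars false
open scoped InnerProductSpace

namespace Pool.Agent.Lib.MP_5e7226_co.Unc

open Finset

lemma mem_hull_of_abs {V E : Type*} [Fintype V] [AddCommGroup E] [Module ℝ E] (o : E) (v : V → E)
    (α : V → ℝ) (hα : ∑ i, |α i| ≤ 1) (hne : Nonempty V) :
    o + ∑ i, α i • v i ∈ convexHull ℝ (⋃ i, ({o + v i, o - (1 : ℝ) • v i} : Set E)) := by
  classical
  set H := convexHull ℝ (⋃ i, ({o + v i, o - (1 : ℝ) • v i} : Set E)) with hH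
  have hconv : Convex ℝ H := convex_convexHull ℝ _
  have hplus : ∀ i, o + v i ∈ H := fun i => subset_convexHull ℝ _
    (Set.mem_iUnion.2 ⟨i, by simp⟩)
  have hminus : ∀ i, o - (1 : ℝ) • v i ∈ H := fun i => subset_convexHull ℝ _
    (Set.mem_iUnion.2 ⟨i, by simp⟩)
  obtain ⟨i₀⟩ := hne
  have ho : o ∈ H := by
    have h1 := hconv (hplus i₀) (hminus i₀) (a := 1 / 2) (b := 1 / 2) (by norm_num) (by norm_num)
      (by norm_num)
    have e : (1 / 2 : ℝ) • (o + v i₀) + (1 / 2 : ℝ) • (o - (1 : ℝ) • v i₀) = o := by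
      rw [one_smul, smul_add, smul_sub]
      have : (1 / 2 : ℝ) • o + (1 / 2 : ℝ) • o = o := by rw [← add_smul]; norm_num
      calc _ = (1 / 2 : ℝ) • o + (1 / 2 : ℝ) • o := by abel
        _ = o := this
    rwa [e] at h1
  let p : V → E := fun i => if 0 ≤ α i then o + v i else o - (1 : ℝ) • v i
  have hp : ∀ i, p i ∈ H := by
    intro i
    simp only [p]
    split_ifs
    · exact hplus i
    · exact hminus i
  have hpe : ∀ i, |α i| • p i = |α i| • o + α i • v i := by
    intro i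
    simp only [p]
    split_ifs with h
    · rw [smul_add, abs_of_nonneg h]
    · rw [one_smul, smul_sub, abs_of_neg (not_le.1 h), neg_smul, neg_smul, sub_neg_eq_add]
  set s := ∑ i, |α i| with hs
  rcases eq_or_lt_of_le (show 0 ≤ s from sum_nonneg (fun _ _ => abs_nonneg _)) with h0 | h0
  · have hz : ∀ i, α i = 0 := by
      intro i
      have := (sum_eq_zero_iff_of_nonneg (fun i _ => abs_nonneg (α i))).1 h0.symm i (mem_univ i)
      exact abs_eq_zero.1 this
    have : o + ∑ i, α i • v i = o := by simp [hz]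
    rw [this]; exact ho
  · have hz : ∑ i, (|α i| / s) • p i ∈ H := by
      apply hconv.sum_mem
      · intro i _; positivity
      · rw [← sum_div, ← hs]; exact div_self h0.ne'
      · intro i _; exact hp i
    have h1 := hconv ho hz (a := 1 - s) (b := s) (by linarith) h0.le (by ring)
    have e : (1 - s) • o + s • ∑ i, (|α i| / s) • p i = o + ∑ i, α i • v i := by
      rw [smul_sum]
      have : ∀ i ∈ (univ : Finset V), s • (|α i| / s) • p i = |α i| • o + α i • v i := by
        intro i _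
        rw [smul_smul, mul_div_cancel₀ _ h0.ne', hpe]
      rw [sum_congr rfl this, sum_add_distrib, ← sum_smul, ← hs, ← add_assoc, ← add_smul]
      have : (1 : ℝ) - s + s = 1 := by ring
      rw [this, one_smul]
    rwa [e] at h1

lemma convex_KC {V : Type*} [Fintype V] [DecidableEq V] (Δ : Finset V → Prop) :
    Convex ℝ (KC Δ) := by
  intro c hc c' hc' a b ha hb hab F hF
  have h1 := hc F hF
  have h2 := hc' F hF
  calc ∑ i ∈ F, |(a • c + b • c') i| ≤ ∑ i ∈ F, (a * |c i| + b * |c' i|) := by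
        apply sum_le_sum
        intro i _
        simp only [Pi.add_apply, Pi.smul_apply, smul_eq_mul]
        calc |a * c i + b * c' i| ≤ |a * c i| + |b * c' i| := abs_add_le _ _
          _ = a * |c i| + b * |c' i| := by
            rw [abs_mul, abs_mul, abs_of_nonneg ha, abs_of_nonneg hb]
    _ = a * ∑ i ∈ F, |c i| + b * ∑ i ∈ F, |c' i| := by
        rw [sum_add_distrib, mul_sum, mul_sum]
    _ ≤ a * 1 + b * 1 := by gcongr
    _ = 1 := by rw [mul_one, mul_one, hab]

/-- The geometric conclusion from the combinatorial one. -/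
theorem geom_final {d : ℕ} {Δ : Finset (Fin d) → Prop}
    (hsing : ∀ i, Δ {i}) (T : EuclideanSpace ℝ (Fin d) ≃L[ℝ] (Fin d → ℝ))
    (o : EuclideanSpace ℝ (Fin d)) (K : Set (EuclideanSpace ℝ (Fin d)))
    (hK : K = {x | T (x - o) ∈ KC Δ})
    (h1 : Ill Δ univ (2 ^ d)) (h2 : Ill Δ univ (2 ^ d - 1) ∨ CubeLike Δ univ) :
    (∃ w : Fin (2 ^ d) → EuclideanSpace ℝ (Fin d), ∃ b : Fin (2 ^ d) → ℝ,
          ∀ u x₀ : EuclideanSpace ℝ (Fin d), u ≠ 0 → x₀ ∈ K →
            (∀ y ∈ K, ⟪u, y⟫_ℝ ≤ ⟪u, x₀⟫_ℝ) →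
              ∃ i, ⟪w i, o⟫_ℝ < b i ∧
                ∀ x ∈ K, ⟪u, x⟫_ℝ = ⟪u, x₀⟫_ℝ → b i < ⟪w i, x⟫_ℝ) ∧
        ((¬ ∃ w : Fin (2 ^ d - 1) → EuclideanSpace ℝ (Fin d), ∃ b : Fin (2 ^ d - 1) → ℝ,
          ∀ u x₀ : EuclideanSpace ℝ (Fin d), u ≠ 0 → x₀ ∈ K →
            (∀ y ∈ K, ⟪u, y⟫_ℝ ≤ ⟪u, x₀⟫_ℝ) →
              ∃ i, ⟪w i, o⟫_ℝ < b i ∧
                ∀ x ∈ K, ⟪u, x⟫_ℝ = ⟪u, x₀⟫_ℝ → b i < ⟪w i, x⟫_ℝ) →
          ∃ v : Fin d → EuclideanSpace ℝ (Fin d), ∃ t : Fin d → ℝ,
            LinearIndependent ℝ v ∧ (∀ i, 0 < t i) ∧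
              K = convexHull ℝ (⋃ i, ({o + v i, o - t i • v i} :
                Set (EuclideanSpace ℝ (Fin d))))) := by
  classical
  have hK0 : (fun x => x - o) '' K = {x | T x ∈ KC Δ} := by
    rw [hK]
    ext x
    constructor
    · rintro ⟨y, hy, rfl⟩
      exact hy
    · intro hx
      exact ⟨x + o, by simpa using hx, by simp⟩
  have hcomp0 : IsCompact {x | T x ∈ KC Δ} := by
    have := (isCompact_KC hsing).image T.symm.continuous
    convert this using 1
    ext x
    constructor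
    · intro hx
      exact ⟨T x, hx, by simp⟩
    · rintro ⟨c, hc, rfl⟩
      simpa using hc
  have hcomp : IsCompact K := by
    have := hcomp0.image (continuous_id.add (continuous_const (y := o)))
    convert this using 1
    rw [hK]
    ext x
    constructor
    · intro hx
      exact ⟨x - o, hx, by simp⟩
    · rintro ⟨y, hy, rfl⟩
      simpa using hy
  have key : ∀ N, Ill Δ univ N → _ := fun N hN =>
    sep_to_hyperplanes (N := N) hcomp o (by rw [hK0]; exact sep_of_ill hsing T hN)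
  refine ⟨key _ h1, fun hno => ?_⟩
  rcases h2 with h2 | h2
  · exact absurd (key _ h2) hno
  rcases Nat.eq_zero_or_pos d with hd | hd
  · subst hd
    exfalso
    apply hno
    refine ⟨fun i => 0, fun i => 0, fun u x₀ hu => ?_⟩
    exact absurd (Subsingleton.elim u 0) hu
  obtain ⟨A, σ, hσ, hT, hT', hF⟩ := exists_sigma h2
  refine ⟨fun i => T.symm (uv A σ i), fun _ => 1, ?_, fun _ => one_pos, ?_⟩
  · have := uv_indep hσ hT hT'
    exact this.map' (T.symm : (Fin d → ℝ) →ₗ[ℝ] EuclideanSpace ℝ (Fin d))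
      (LinearEquiv.ker T.symm.toLinearEquiv)
  · apply Set.Subset.antisymm
    · intro x hx
      rw [hK] at hx
      have hx' : T (x - o) ∈ KC Δ := hx
      have e1 := sum_al_uv hσ hT hT' (T (x - o))
      have e2 : x = o + ∑ i, al A σ (T (x - o)) i • T.symm (uv A σ i) := by
        have := congrArg T.symm e1
        rw [T.symm_apply_apply, map_sum] at this
        simp only [map_smul] at this
        rw [← this]
        abel
      rw [e2]
      exact mem_hull_of_abs o _ _ (sum_al_le hσ hT hT' hF hx') ⟨⟨0, hd⟩⟩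
    · apply convexHull_min
      · intro x hx
        obtain ⟨i, hi⟩ := Set.mem_iUnion.1 hx
        rw [hK]
        simp only [Set.mem_insert_iff, Set.mem_singleton_iff] at hi
        rcases hi with rfl | rfl
        · have := uv_mem hσ hT hT' hF i 1 (by simp)
          simpa using this
        · have := uv_mem hσ hT hT' hF i (-1) (by simp)
          simpa using this
      · rw [hK]
        intro x hx y hy a b ha hb hab
        have h3 := convex_KC Δ hx hy ha hb hab
        have e : T (a • x + b • y - o) = a • T (x - o) + b • T (y - o) := by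
          rw [← map_smul, ← map_smul, ← map_add]
          congr 1
          have : o = a • o + b • o := by rw [← add_smul, hab, one_smul]
          calc a • x + b • y - o = a • x + b • y - (a • o + b • o) := by rw [← this]
            _ = _ := by rw [smul_sub, smul_sub]; abel
        show T (a • x + b • y - o) ∈ KC Δ
        rw [e]
        exact h3

/-- The down-closure of a family of sets, with the empty set. -/
def Dn {V : Type*} (𝓕 : Set (Finset V)) (F : Finset V) : Prop := F = ∅ ∨ ∃ F' ∈ 𝓕, F ⊆ F'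

/-- Final form. -/
theorem unc_final {d : ℕ} (b : Fin d → EuclideanSpace ℝ (Fin d)) (hb : LinearIndependent ℝ b)
    (o : EuclideanSpace ℝ (Fin d)) (𝓕 : Set (Finset (Fin d))) (hcov : ∀ i, ∃ F ∈ 𝓕, i ∈ F)
    (K : Set (EuclideanSpace ℝ (Fin d)))
    (hK : K = {x | ∃ c : Fin d → ℝ, x = o + ∑ i, c i • b i ∧ ∀ F ∈ 𝓕, ∑ i ∈ F, |c i| ≤ 1})
    (hW : ∀ W : Finset (Fin d), (∀ i ∈ W, ∀ j ∈ W, ∃ F ∈ 𝓕, i ∈ F ∧ j ∈ F) →
      W.card ≤ 13 ∨ (∀ F ∈ 𝓕, (F ∩ W).card ≤ 7) ∨
        ∃ Y ⊆ W, (∀ c : Fin d → ℝ, (∀ F ∈ 𝓕, ∑ i ∈ F, |c i| ≤ 1) → ∑ i ∈ Y, |c i| < 2) ∧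
          (Y = W ∨ ∀ F ∈ 𝓕, (Y.card + 1) * 2 ^ ((F ∩ W).card + 1) ≤ 2 ^ Y.card)) :
    (∃ w : Fin (2 ^ d) → EuclideanSpace ℝ (Fin d), ∃ b : Fin (2 ^ d) → ℝ,
          ∀ u x₀ : EuclideanSpace ℝ (Fin d), u ≠ 0 → x₀ ∈ K →
            (∀ y ∈ K, ⟪u, y⟫_ℝ ≤ ⟪u, x₀⟫_ℝ) →
              ∃ i, ⟪w i, o⟫_ℝ < b i ∧
                ∀ x ∈ K, ⟪u, x⟫_ℝ = ⟪u, x₀⟫_ℝ → b i < ⟪w i, x⟫_ℝ) ∧
        ((¬ ∃ w : Fin (2 ^ d - 1) → EuclideanSpace ℝ (Fin d), ∃ b : Fin (2 ^ d - 1) → ℝ,
          ∀ u x₀ : EuclideanSpace ℝ (Fin d), u ≠ 0 → x₀ ∈ K →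
            (∀ y ∈ K, ⟪u, y⟫_ℝ ≤ ⟪u, x₀⟫_ℝ) →
              ∃ i, ⟪w i, o⟫_ℝ < b i ∧
                ∀ x ∈ K, ⟪u, x⟫_ℝ = ⟪u, x₀⟫_ℝ → b i < ⟪w i, x⟫_ℝ) →
          ∃ v : Fin d → EuclideanSpace ℝ (Fin d), ∃ t : Fin d → ℝ,
            LinearIndependent ℝ v ∧ (∀ i, 0 < t i) ∧
              K = convexHull ℝ (⋃ i, ({o + v i, o - t i • v i} :
                Set (EuclideanSpace ℝ (Fin d))))) := by
  classical
  -- coordinates
  let B : Module.Basis (Fin d) ℝ (EuclideanSpace ℝ (Fin d)) :=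
    basisOfLinearIndependentOfCardEqFinrank' b hb (by simp)
  have hB : ∀ i, B i = b i := by
    intro i; simp [B]
  let T : EuclideanSpace ℝ (Fin d) ≃L[ℝ] (Fin d → ℝ) := B.equivFunL
  have hTs : ∀ c : Fin d → ℝ, T.symm c = ∑ i, c i • b i := by
    intro c
    have : T.symm c = ∑ i, c i • B i := by
      show B.equivFun.symm c = _
      exact B.equivFun_symm_apply c
    rw [this]
    simp only [hB]
  have hKC : KC (Dn 𝓕) = {c | ∀ F ∈ 𝓕, ∑ i ∈ F, |c i| ≤ 1} := by
    ext c
    constructor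
    · intro h F hF
      exact h F (Or.inr ⟨F, hF, Subset.refl _⟩)
    · intro h F hF
      rcases hF with rfl | ⟨F', hF', hsub⟩
      · simp
      · exact (sum_le_sum_of_subset_of_nonneg hsub (fun _ _ _ => abs_nonneg _)).trans (h F' hF')
  have hmono : ∀ G H : Finset (Fin d), H ⊆ G → Dn 𝓕 G → Dn 𝓕 H := by
    intro G H hHG hG
    rcases hG with rfl | ⟨F', hF', hsub⟩
    · exact Or.inl (subset_empty.1 hHG)
    · exact Or.inr ⟨F', hF', hHG.trans hsub⟩
  have hsing : ∀ i, Dn 𝓕 {i} := by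
    intro i
    obtain ⟨F, hF, hi⟩ := hcov i
    exact Or.inr ⟨F, hF, by simpa using hi⟩
  have hpair : ∀ i j, Dn 𝓕 {i, j} ↔ ∃ F ∈ 𝓕, i ∈ F ∧ j ∈ F := by
    intro i j
    constructor
    · rintro (h | ⟨F, hF, h⟩)
      · exact absurd h (insert_ne_empty _ _)
      · exact ⟨F, hF, h (by simp), h (by simp)⟩
    · rintro ⟨F, hF, hi, hj⟩
      refine Or.inr ⟨F, hF, ?_⟩
      intro x hx
      rcases mem_insert.1 hx with rfl | hx
      · exact hi
      · rw [mem_singleton.1 hx]; exact hj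
  have hmain := unc_main (Δ := Dn 𝓕) hmono (Or.inl rfl) hsing (e := fun i => (i : ℕ))
    Fin.val_injective (by
      intro W hcl hgam
      rcases hW W (fun i hi j hj => (hpair i j).1 (hcl i hi j hj)) with h | h | ⟨Y, hY, hYg, h⟩
      · exact Or.inl h
      · right; left
        rintro F (rfl | ⟨F', hF', hsub⟩)
        · simp
        · exact (card_le_card (inter_subset_inter_right hsub)).trans (h F' hF')
      · have hG : Gam (Dn 𝓕) Y := by
          intro c hc
          rw [hKC] at hc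
          exact hYg c hc
        rcases h with rfl | h
        · exact absurd hG hgam
        · right; right
          refine ⟨Y, hY, hG, ?_⟩
          have hne : W.Nonempty := by
            rw [nonempty_iff_ne_empty]
            rintro rfl
            exact hgam (gam_empty _)
          obtain ⟨i, _⟩ := hne
          obtain ⟨F₀, hF₀, _⟩ := hcov i
          rintro F (rfl | ⟨F', hF', hsub⟩)
          · refine le_trans ?_ (h F₀ hF₀)
            apply Nat.mul_le_mul_left
            apply Nat.pow_le_pow_right (by norm_num)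
            simp
          · refine le_trans ?_ (h F' hF')
            apply Nat.mul_le_mul_left
            apply Nat.pow_le_pow_right (by norm_num)
            exact Nat.succ_le_succ (card_le_card (inter_subset_inter_right hsub))) d univ (by simp)
  refine geom_final hsing T o K ?_ hmain.1 hmain.2
  rw [hK, hKC]
  ext x
  constructor
  · rintro ⟨c, hx, hc⟩
    show T (x - o) ∈ {c : Fin d → ℝ | ∀ F ∈ 𝓕, ∑ i ∈ F, |c i| ≤ 1}
    have : x - o = T.symm c := by rw [hTs, hx]; abel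
    rw [this, T.apply_symm_apply]
    exact hc
  · intro hx
    refine ⟨T (x - o), ?_, hx⟩
    rw [← hTs, T.symm_apply_apply]
    abel

end Pool.Agent.Lib.MP_5e7226_co.Unc
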