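import Pool.Agent.Lib.MP_5e7226_co.UncMain
import Pool.Agent.Lib.MP_5e7226_co.Basic

set_option autoImplicit false
set_option linter.unusedSectionVars false

namespace Pool.Agent.Lib.MP_5e7226_co.Unc

open Finset Filter Topology

variable {V : Type*} [Fintype V] [DecidableEq V]

lemma sum_sg_le {Δ : Finset V → Prop} {c : V → ℝ} (hc : c ∈ KC Δ) {F : Finset V} (hF : Δ F)
    (P : Finset V) : ∑ i ∈ F, sg P i * c i ≤ 1 :=
  (sum_le_sum (fun i _ => sg_mul_le P i (c i))).trans (hc F hF)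

lemma mem_KC_of_sg {Δ : Finset V → Prop} {c : V → ℝ}
    (h : ∀ F, Δ F → ∀ P : Finset V, ∑ i ∈ F, sg P i * c i ≤ 1) : c ∈ KC Δ := by
  classical
  intro F hF
  have h1 := h F hF (univ.filter (fun i => 0 ≤ c i))
  refine le_trans (le_of_eq ?_) h1
  apply sum_congr rfl
  intro i _
  unfold sg
  by_cases hi : 0 ≤ c i
  · rw [if_pos (by simpa using hi), abs_of_nonneg hi, one_mul]
  · rw [if_neg (by simpa using hi), abs_of_neg (not_le.1 hi)]; ring

/-- Every face lies in the set where one signed face inequality is tight. -/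
lemma face_tight {Δ : Finset V → Prop} (hsing : ∀ i, Δ {i}) (g : (V → ℝ) →ₗ[ℝ] ℝ) (hg : g ≠ 0) :
    ∃ F, Δ F ∧ ∃ P : Finset V, ∀ c ∈ KC Δ, (∀ c' ∈ KC Δ, g c' ≤ g c) →
      ∑ i ∈ F, sg P i * c i = 1 := by
  classical
  by_contra hcon
  push Not at hcon
  -- a nonzero direction
  obtain ⟨z, hz⟩ : ∃ z, 0 < g z := by
    obtain ⟨z, hz⟩ : ∃ z, g z ≠ 0 := by
      by_contra h
      push Not at h
      exact hg (LinearMap.ext h)
    rcases lt_or_gt_of_ne hz with h | h
    · exact ⟨-z, by rw [map_neg]; linarith⟩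
    · exact ⟨z, h⟩
  have hVne : Nonempty V := by
    by_contra h
    rw [not_nonempty_iff] at h
    have : z = 0 := Subsingleton.elim _ _
    rw [this, map_zero] at hz
    exact lt_irrefl _ hz
  obtain ⟨i₀⟩ := hVne
  obtain ⟨c₀, hc₀, hmax₀, _⟩ := hcon {i₀} (hsing i₀) ∅
  have hch : ∀ p : Finset V × Finset V, ∃ c : V → ℝ, c ∈ KC Δ ∧ (∀ c' ∈ KC Δ, g c' ≤ g c) ∧
      (Δ p.1 → ∑ i ∈ p.1, sg p.2 i * c i < 1) := by
    intro p
    by_cases hp : Δ p.1
    · obtain ⟨c, h1, h2, h3⟩ := hcon p.1 hp p.2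
      exact ⟨c, h1, h2, fun _ => lt_of_le_of_ne (sum_sg_le h1 hp p.2) h3⟩
    · exact ⟨c₀, hc₀, hmax₀, fun h => absurd h hp⟩
  choose C hC1 hC2 hC3 using hch
  set n : ℝ := ((univ : Finset (Finset V × Finset V)).card : ℝ) with hn
  have hn0 : 0 < n := by
    rw [hn]
    exact_mod_cast card_pos.2 univ_nonempty
  obtain ⟨m, hm⟩ : ∃ m : V → ℝ, m = n⁻¹ • ∑ p, C p := ⟨_, rfl⟩
  have hlin : ∀ ℓ : (V → ℝ) →ₗ[ℝ] ℝ, ℓ m = n⁻¹ * ∑ p, ℓ (C p) := by
    intro ℓ
    rw [hm, map_smul, map_sum, smul_eq_mul]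
  let ell : Finset V → Finset V → (V → ℝ) →ₗ[ℝ] ℝ := fun F P =>
    ∑ i ∈ F, sg P i • LinearMap.proj i
  have hell : ∀ F P c, ell F P c = ∑ i ∈ F, sg P i * c i := by
    intro F P c
    simp [ell, LinearMap.sum_apply]
  have hgm : ∀ c' ∈ KC Δ, g c' ≤ g m := by
    intro c' hc'
    rw [hlin]
    have h1 : ∑ _p : Finset V × Finset V, g c' ≤ ∑ p, g (C p) :=
      sum_le_sum (fun p _ => hC2 p c' hc')
    rw [sum_const, nsmul_eq_mul] at h1
    rw [← hn] at h1
    rw [inv_mul_eq_div, le_div_iff₀ hn0]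
    linarith
  have hlt : ∀ F, Δ F → ∀ P, ell F P m < 1 := by
    intro F hF P
    rw [hlin]
    have h1 : ∑ p : Finset V × Finset V, ell F P (C p) < ∑ _p : Finset V × Finset V, (1 : ℝ) := by
      apply sum_lt_sum
      · intro p _
        rw [hell]
        exact sum_sg_le (hC1 p) hF P
      · refine ⟨(F, P), mem_univ _, ?_⟩
        rw [hell]
        exact hC3 (F, P) hF
    rw [sum_const, nsmul_eq_mul, mul_one] at h1
    rw [← hn] at h1
    rw [inv_mul_eq_div, div_lt_one hn0]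
    exact h1
  -- move in direction z
  have hev : ∀ᶠ t : ℝ in 𝓝[>] 0, ∀ p : Finset V × Finset V, Δ p.1 →
      ell p.1 p.2 (m + t • z) ≤ 1 := by
    rw [eventually_all]
    intro p
    by_cases hp : Δ p.1
    · have hcont : Continuous (fun t : ℝ => ell p.1 p.2 (m + t • z)) := by
        have : (fun t : ℝ => ell p.1 p.2 (m + t • z)) =
            fun t => ell p.1 p.2 m + t * ell p.1 p.2 z := by
          ext t
          rw [map_add, map_smul, smul_eq_mul]
        rw [this]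
        fun_prop
      have h0 : (fun t : ℝ => ell p.1 p.2 (m + t • z)) 0 < 1 := by
        simpa using hlt p.1 hp p.2
      have := (hcont.tendsto 0).eventually_lt_const h0
      exact (this.filter_mono nhdsWithin_le_nhds).mono (fun t ht _ => ht.le)
    · exact Eventually.of_forall (fun t h => absurd h hp)
  obtain ⟨t, ht, htpos⟩ := (hev.and self_mem_nhdsWithin).exists
  have hmem : m + t • z ∈ KC Δ := mem_KC_of_sg (fun F hF P => by
    have := ht (F, P) hF
    rwa [hell] at this)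
  have h1 := hgm _ hmem
  rw [map_add, map_smul, smul_eq_mul] at h1
  have : 0 < t * g z := mul_pos htpos hz
  linarith

/-- From vectors to functionals. -/
lemma sep_of_ill {E : Type*} [NormedAddCommGroup E] [NormedSpace ℝ E]
    {Δ : Finset V → Prop} (hsing : ∀ i, Δ {i}) (T : E ≃L[ℝ] (V → ℝ)) {N : ℕ}
    (h : Ill Δ univ N) : Sep {x | T x ∈ KC Δ} N := by
  classical
  obtain ⟨S, hS, h⟩ := h
  refine Sep.of_fintype (ι := S) (fun v => (∑ i, (v : V → ℝ) i •
    (ContinuousLinearMap.proj (R := ℝ) (φ := fun _ : V => ℝ) i)).comp (T : E →L[ℝ] (V → ℝ)))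
    ?_ (by simpa using hS)
  intro f hf
  obtain ⟨F, hF, P, hFP⟩ := face_tight hsing
    ((f : E →ₗ[ℝ] ℝ).comp (T.symm : (V → ℝ) →L[ℝ] E).toLinearMap) (by
      intro h0
      apply hf
      ext x
      have := congrArg (fun g : (V → ℝ) →ₗ[ℝ] ℝ => g (T x)) h0
      simpa using this)
  obtain ⟨v, hv, hvP⟩ := h F (subset_univ _) hF P
  refine ⟨⟨v, hv⟩, ?_⟩
  intro x hx
  have h1 := hvP (T x) hx.1 (hFP (T x) hx.1 (by
    intro c' hc'
    have := hx.2 (T.symm c') (by simpa using hc')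
    simpa using this))
  simpa [_root_.sum_apply] using h1

lemma isCompact_KC {Δ : Finset V → Prop} (hsing : ∀ i, Δ {i}) : IsCompact (KC Δ) := by
  apply Metric.isCompact_of_isClosed_isBounded
  · have : KC Δ = ⋂ F : Finset V, ⋂ _ : Δ F, {c | ∑ i ∈ F, |c i| ≤ 1} := by
      ext c; simp [KC]
    rw [this]
    apply isClosed_iInter
    intro F
    apply isClosed_iInter
    intro _
    apply isClosed_le
    · fun_prop
    · fun_prop
  · apply (Metric.isBounded_closedBall (x := (0 : V → ℝ)) (r := 1)).subset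
    intro c hc
    rw [mem_closedBall_zero_iff, pi_norm_le_iff_of_nonneg zero_le_one]
    intro i
    have := hc {i} (hsing i)
    simpa using this

end Pool.Agent.Lib.MP_5e7226_co.Unc
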