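import Pool.Agent.Lib.MP_5e7226_co.UncCode2

set_option autoImplicit false

namespace Pool.Agent.Lib.MP_5e7226_co.Unc

open Finset

variable {V : Type*} [DecidableEq V]

omit [DecidableEq V] in
lemma card_band {e : V → ℕ} (he : Function.Injective e) (A : Finset V) (s s' : ℕ) :
    (A.filter (fun x => s ≤ e x ∧ e x < s')).card ≤ s' - s := by
  have : (A.filter (fun x => s ≤ e x ∧ e x < s')).card ≤ (Finset.Ico s s').card := by
    apply card_le_card_of_injOn e
    · intro x hx
      rw [Finset.mem_coe] at hx ⊢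
      exact mem_Ico.2 (mem_filter.1 hx).2
    · intro x _ y _ h
      exact he h
  simpa using this

lemma exists_two {L : Finset V → Prop} (h0 : L ∅) {M : Finset V} {e : V → ℕ}
    (he : Function.Injective e)
    (h2 : ∀ G ⊆ M, ∀ H ⊆ M, L G → L H → 2 ≤ (M \ (G ∪ H)).card) :
    ∃ A B : Finset V, A ∪ B = M ∧ Disjoint A B ∧ ¬ L A ∧ ¬ L B := by
  classical
  have hlt : ∀ x ∈ M, e x < M.sup e + 1 := fun x hx => Nat.lt_succ_of_le (le_sup (f := e) hx)
  have hex : ∃ s, ¬ L (M.filter (fun x => e x < s)) := by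
    refine ⟨M.sup e + 1, ?_⟩
    rw [filter_true_of_mem hlt]
    intro hLM
    have := h2 M (Subset.refl _) M (Subset.refl _) hLM hLM
    simp at this
  obtain ⟨hs1, hs2⟩ : ¬ L (M.filter (fun x => e x < Nat.find hex)) ∧
      ∀ m < Nat.find hex, ¬ ¬ L (M.filter (fun x => e x < m)) :=
    ⟨Nat.find_spec hex, fun m hm => Nat.find_min hex hm⟩
  set s := Nat.find hex with hs
  have hs0 : s ≠ 0 := by
    intro h
    apply hs1
    rw [h]
    simpa using h0
  refine ⟨M.filter (fun x => e x < s), M.filter (fun x => ¬ e x < s),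
    filter_union_filter_not_eq _ _, disjoint_filter_filter_not _ _ _, hs1, ?_⟩
  intro hcon
  have h1 : L (M.filter (fun x => e x < s - 1)) := not_not.1 (hs2 (s - 1) (by omega))
  have h3 := h2 _ (filter_subset _ _) _ (filter_subset _ _) h1 hcon
  have h4 : (M \ (M.filter (fun x => e x < s - 1) ∪ M.filter (fun x => ¬ e x < s))).card ≤
      (M.filter (fun x => s - 1 ≤ e x ∧ e x < s)).card := by
    apply card_le_card
    intro x hx
    simp only [mem_sdiff, mem_union, mem_filter, not_or, not_and, not_lt] at hx ⊢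
    exact ⟨hx.1, hx.2.1 hx.1, hx.2.2 hx.1 |> fun h => by omega⟩
  have h5 := card_band he M (s - 1) s
  omega

lemma grid {L : Finset V → Prop} (hL : ∀ G H : Finset V, H ⊆ G → L G → L H) {A B : Finset V}
    (hA : ¬ L A) (hB : ¬ L B) {e : V → ℕ}
    (he : Function.Injective e)
    (h3 : ∀ G ⊆ A ∪ B, ∀ H ⊆ A ∪ B, L G → L H → 3 ≤ ((A ∪ B) \ (G ∪ H)).card) :
    ∃ Q₁ Q₂ Q₃ Q₄ : Finset V, Q₁ ∪ Q₂ = A ∧ Disjoint Q₁ Q₂ ∧ Q₃ ∪ Q₄ = B ∧ Disjoint Q₃ Q₄ ∧
      ¬ L (Q₁ ∪ Q₃) ∧ ¬ L (Q₁ ∪ Q₄) ∧ ¬ L (Q₂ ∪ Q₃) ∧ ¬ L (Q₂ ∪ Q₄) := by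
  classical
  let α : ℕ → Finset V := fun s => A.filter (fun x => e x < s)
  let α' : ℕ → Finset V := fun s => A.filter (fun x => ¬ e x < s)
  let β : ℕ → Finset V := fun s => B.filter (fun x => e x < s)
  let β' : ℕ → Finset V := fun s => B.filter (fun x => ¬ e x < s)
  by_contra hcon
  have hall : ∀ s t, L (α s ∪ β t) ∨ L (α s ∪ β' t) ∨ L (α' s ∪ β t) ∨ L (α' s ∪ β' t) := by
    intro s t
    by_contra h
    simp only [not_or] at h
    exact hcon ⟨α s, α' s, β t, β' t, filter_union_filter_not_eq _ _,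
      disjoint_filter_filter_not _ _ _, filter_union_filter_not_eq _ _,
      disjoint_filter_filter_not _ _ _, h.1, h.2.1, h.2.2.1, h.2.2.2⟩
  set N := (A ∪ B).sup e + 1 with hN
  have hltA : ∀ x ∈ A, e x < N := fun x hx =>
    Nat.lt_succ_of_le (le_sup (f := e) (mem_union_left _ hx))
  have hltB : ∀ x ∈ B, e x < N := fun x hx =>
    Nat.lt_succ_of_le (le_sup (f := e) (mem_union_right _ hx))
  have hαN : α N = A := filter_true_of_mem hltA
  have hβN : β N = B := filter_true_of_mem hltB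
  have hα0 : α' 0 = A := filter_true_of_mem (by intro x _; omega)
  have hβ0 : β' 0 = B := filter_true_of_mem (by intro x _; omega)
  have sα : ∀ s, α s ⊆ A := fun s => filter_subset _ _
  have sα' : ∀ s, α' s ⊆ A := fun s => filter_subset _ _
  have sβ : ∀ s, β s ⊆ B := fun s => filter_subset _ _
  have sβ' : ∀ s, β' s ⊆ B := fun s => filter_subset _ _
  have mα : ∀ s s', s ≤ s' → α s ⊆ α s' := by
    intro s s' h x hx
    obtain ⟨h1, h2⟩ := mem_filter.1 hx
    exact mem_filter.2 ⟨h1, by omega⟩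
  -- cross conditions
  have X1 : ∀ s t s' t', L (α s ∪ β t) → L (α' s' ∪ β' t') → 3 ≤ (s' - s) + (t' - t) := by
    intro s t s' t' h h'
    have h4 := h3 _ (union_subset_union (sα s) (sβ t)) _ (union_subset_union (sα' s') (sβ' t')) h h'
    have h5 : ((A ∪ B) \ ((α s ∪ β t) ∪ (α' s' ∪ β' t'))).card ≤
        (A.filter (fun x => s ≤ e x ∧ e x < s') ∪ B.filter (fun x => t ≤ e x ∧ e x < t')).card := by
      apply card_le_card
      intro x hx
      simp only [α, β, α', β', mem_sdiff, mem_union, mem_filter, not_or, not_and,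
        not_lt] at hx ⊢
      obtain ⟨h0, ⟨h1, h2⟩, h6, h7⟩ := hx
      rcases h0 with h0 | h0
      · exact Or.inl ⟨h0, h1 h0, by have := h6 h0; omega⟩
      · exact Or.inr ⟨h0, h2 h0, by have := h7 h0; omega⟩
    have h6 := card_union_le (A.filter (fun x => s ≤ e x ∧ e x < s'))
      (B.filter (fun x => t ≤ e x ∧ e x < t'))
    have h7 := card_band he A s s'
    have h8 := card_band he B t t'
    omega
  have X2 : ∀ s t s' t', L (α s ∪ β' t) → L (α' s' ∪ β t') → 3 ≤ (s' - s) + (t - t') := by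
    intro s t s' t' h h'
    have h4 := h3 _ (union_subset_union (sα s) (sβ' t)) _ (union_subset_union (sα' s') (sβ t')) h h'
    have h5 : ((A ∪ B) \ ((α s ∪ β' t) ∪ (α' s' ∪ β t'))).card ≤
        (A.filter (fun x => s ≤ e x ∧ e x < s') ∪ B.filter (fun x => t' ≤ e x ∧ e x < t)).card := by
      apply card_le_card
      intro x hx
      simp only [α, β, α', β', mem_sdiff, mem_union, mem_filter, not_or, not_and,
        not_lt] at hx ⊢
      obtain ⟨h0, ⟨h1, h2⟩, h6, h7⟩ := hx
      rcases h0 with h0 | h0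
      · exact Or.inl ⟨h0, h1 h0, by have := h6 h0; omega⟩
      · exact Or.inr ⟨h0, h7 h0, by have := h2 h0; omega⟩
    have h6 := card_union_le (A.filter (fun x => s ≤ e x ∧ e x < s'))
      (B.filter (fun x => t' ≤ e x ∧ e x < t))
    have h7 := card_band he A s s'
    have h8 := card_band he B t' t
    omega
  have exP : ∀ t, ∃ s, ¬ L (α s ∪ β t) := fun t => ⟨N, fun h => hA (hL _ _ (by
    rw [hαN]; exact subset_union_left) h)⟩
  have exQ : ∀ t, ∃ s, ¬ L (α s ∪ β' t) := fun t => ⟨N, fun h => hA (hL _ _ (by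
    rw [hαN]; exact subset_union_left) h)⟩
  obtain ⟨p, hp⟩ : ∃ p : ℕ → ℕ, ∀ t, (¬ L (α (p t) ∪ β t)) ∧ ∀ s < p t, L (α s ∪ β t) :=
    ⟨fun t => Nat.find (exP t), fun t => ⟨Nat.find_spec (exP t),
      fun s hs => not_not.1 (Nat.find_min (exP t) hs)⟩⟩
  obtain ⟨q, hq⟩ : ∃ q : ℕ → ℕ, ∀ t, (¬ L (α (q t) ∪ β' t)) ∧ ∀ s < q t, L (α s ∪ β' t) :=
    ⟨fun t => Nat.find (exQ t), fun t => ⟨Nat.find_spec (exQ t),
      fun s hs => not_not.1 (Nat.find_min (exQ t) hs)⟩⟩
  have hrow : ∀ t, (q t < p t ∧ L (α' (p t) ∪ β t)) ∨ (p t < q t ∧ L (α' (q t) ∪ β' t)) := by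
    intro t
    have n1 : ¬ L (α (max (p t) (q t)) ∪ β t) := fun h => (hp t).1 (hL _ _
      (union_subset_union (mα _ _ (le_max_left _ _)) (Subset.refl _)) h)
    have n2 : ¬ L (α (max (p t) (q t)) ∪ β' t) := fun h => (hq t).1 (hL _ _
      (union_subset_union (mα _ _ (le_max_right _ _)) (Subset.refl _)) h)
    have n3 : max (p t) (q t) ≠ 0 := by
      intro h0
      rcases hall (max (p t) (q t)) t with h | h | h | h
      · exact n1 h
      · exact n2 h
      · rw [h0] at h
        exact hA (hL _ _ (by rw [hα0]; exact subset_union_left) h)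
      · rw [h0] at h
        exact hA (hL _ _ (by rw [hα0]; exact subset_union_left) h)
    rcases hall (max (p t) (q t)) t with h | h | h | h
    · exact absurd h n1
    · exact absurd h n2
    · -- q⁺
      left
      have hlt : q t < p t := by
        by_cases h0 : q t = 0
        · omega
        · have h1 := (hq t).2 (q t - 1) (by omega)
          have h2 := X2 _ _ _ _ h1 h
          omega
      rw [max_eq_left hlt.le] at h
      exact ⟨hlt, h⟩
    · right
      have hlt : p t < q t := by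
        by_cases h0 : p t = 0
        · omega
        · have h1 := (hp t).2 (p t - 1) (by omega)
          have h2 := X1 _ _ _ _ h1 h
          omega
      rw [max_eq_right hlt.le] at h
      exact ⟨hlt, h⟩
  have hq0 : q 0 = 0 := by
    by_contra h
    have := (hq 0).2 0 (by omega)
    exact hB (hL _ _ (by rw [hβ0]; exact subset_union_right) this)
  have hpN : p N = 0 := by
    by_contra h
    have := (hp N).2 0 (by omega)
    exact hB (hL _ _ (by rw [hβN]; exact subset_union_right) this)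
  have hexI : ∃ t, ¬ (q t < p t) := ⟨N, by omega⟩
  obtain ⟨t₀, ht1, ht2⟩ : ∃ t₀, ¬ (q t₀ < p t₀) ∧ ∀ m < t₀, q m < p m :=
    ⟨Nat.find hexI, Nat.find_spec hexI, fun m hm => not_not.1 (Nat.find_min hexI hm)⟩
  have ht0 : t₀ ≠ 0 := by
    intro h
    rcases hrow 0 with h1 | h1
    · rw [h] at ht1; exact ht1 h1.1
    · omega
  obtain ⟨t, rfl⟩ : ∃ t, t₀ = t + 1 := ⟨t₀ - 1, by omega⟩
  have hI := ht2 t (by omega)
  have hI' : L (α' (p t) ∪ β t) := by
    rcases hrow t with h | h
    · exact h.2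
    · omega
  have hII : p (t + 1) < q (t + 1) ∧ L (α' (q (t + 1)) ∪ β' (t + 1)) := by
    rcases hrow (t + 1) with h | h
    · exact absurd h.1 ht1
    · exact h
  have c1 := X1 _ _ _ _ ((hp t).2 (p t - 1) (by omega)) hII.2
  have c2 := X2 _ _ _ _ ((hq (t + 1)).2 (q (t + 1) - 1) (by omega)) hI'
  omega

/-- Cases A to D: at most `q + 3` vertices. -/
lemma shat_small {L : Finset V → Prop} (hL : ∀ G H : Finset V, H ⊆ G → L G → L H) (h0 : L ∅)
    {M : Finset V} {e : V → ℕ} (he : Function.Injective e) {q : ℕ}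
    (hU : ∀ G ⊆ M, ∀ H ⊆ M, L G → L H → (G ∪ H).card ≤ q) (hM : M.card ≤ q + 3) :
    Shat L M (2 ^ q) := by
  have hsd : ∀ G ⊆ M, ∀ H ⊆ M, L G → L H → M.card ≤ (M \ (G ∪ H)).card + q := by
    intro G hG H hH hLG hLH
    have h1 := hU G hG H hH hLG hLH
    have h2 : (M \ (G ∪ H)).card + (G ∪ H).card = M.card :=
      card_sdiff_add_card_eq_card (union_subset hG hH)
    omega
  rcases Nat.lt_or_ge q M.card with hlt | hle
  swap
  · exact (shat_powerset L M).mono (Nat.pow_le_pow_right (by norm_num) hle)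
  have hMne : M.Nonempty := card_pos.1 (by omega)
  have hLM : ¬ L M := by
    intro h
    have := hU M (Subset.refl _) M (Subset.refl _) h h
    rw [union_self] at this
    omega
  have hcases : M.card = q + 1 ∨ M.card = q + 2 ∨ M.card = q + 3 := by omega
  rcases hcases with hc | hc | hc
  · have := shat_even hLM hMne
    rwa [hc, Nat.add_sub_cancel] at this
  · obtain ⟨A, B, hAB, hd, hA, hB⟩ := exists_two h0 he (M := M) (by
      intro G hG H hH hLG hLH
      have := hsd G hG H hH hLG hLH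
      omega)
    have hAne : A.Nonempty := by
      rw [nonempty_iff_ne_empty]; rintro rfl; exact hA h0
    have hBne : B.Nonempty := by
      rw [nonempty_iff_ne_empty]; rintro rfl; exact hB h0
    have := shat_two hL hAB hd hA hB hAne hBne
    rwa [hc, Nat.add_sub_cancel] at this
  · obtain ⟨A, B, hAB, hd, hA, hB⟩ := exists_two h0 he (M := M) (by
      intro G hG H hH hLG hLH
      have := hsd G hG H hH hLG hLH
      omega)
    obtain ⟨Q₁, Q₂, Q₃, Q₄, e1, d1, e2, d2, k13, k14, k23, k24⟩ := grid hL hA hB he (by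
      rw [hAB]
      intro G hG H hH hLG hLH
      have := hsd G hG H hH hLG hLH
      omega)
    have k12 : ¬ L (Q₁ ∪ Q₂) := by rw [e1]; exact hA
    have k34 : ¬ L (Q₃ ∪ Q₄) := by rw [e2]; exact hB
    have i1 : Q₁ ⊆ A := by rw [← e1]; exact subset_union_left
    have i2 : Q₂ ⊆ A := by rw [← e1]; exact subset_union_right
    have i3 : Q₃ ⊆ B := by rw [← e2]; exact subset_union_left
    have i4 : Q₄ ⊆ B := by rw [← e2]; exact subset_union_right
    have d13 : Disjoint Q₁ Q₃ := disjoint_of_subset_left i1 (disjoint_of_subset_right i3 hd)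
    have d14 : Disjoint Q₁ Q₄ := disjoint_of_subset_left i1 (disjoint_of_subset_right i4 hd)
    have d23 : Disjoint Q₂ Q₃ := disjoint_of_subset_left i2 (disjoint_of_subset_right i3 hd)
    have d24 : Disjoint Q₂ Q₄ := disjoint_of_subset_left i2 (disjoint_of_subset_right i4 hd)
    have hu : Q₁ ∪ Q₂ ∪ Q₃ ∪ Q₄ = M := by rw [e1, union_assoc, e2, hAB]
    have hne : ∀ P P' : Finset V, ¬ L (P ∪ P') → P = ∅ → P'.Nonempty := by
      intro P P' h hP
      rw [nonempty_iff_ne_empty]
      rintro rfl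
      rw [hP] at h
      exact h h0
    have hq3 : M.card - 3 = q := by omega
    by_cases z1 : Q₁ = ∅
    · have := shat_four (L := L) (M := M) (Q₁ := Q₂) (Q₂ := Q₃) (Q₃ := Q₄) (Q₄ := Q₁) hL
        (by rw [← hu]; simp only [union_comm, union_left_comm])
        d23 d24 d1.symm d2 d13.symm d14.symm k23 k24 (by rwa [union_comm]) k34
        (by rwa [union_comm]) (by rwa [union_comm]) (hne _ _ k12 z1) (hne _ _ k13 z1)
        (hne _ _ k14 z1)
      rwa [hq3] at this
    · have n1 : Q₁.Nonempty := nonempty_iff_ne_empty.2 z1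
      by_cases z2 : Q₂ = ∅
      · have := shat_four (L := L) (M := M) (Q₁ := Q₁) (Q₂ := Q₃) (Q₃ := Q₄) (Q₄ := Q₂) hL
          (by rw [← hu]; simp only [union_comm, union_left_comm])
          d13 d14 d1 d2 d23.symm d24.symm k13 k14 k12 k34
          (by rwa [union_comm]) (by rwa [union_comm]) n1 (hne _ _ k23 z2)
          (hne _ _ k24 z2)
        rwa [hq3] at this
      · have n2 : Q₂.Nonempty := nonempty_iff_ne_empty.2 z2
        by_cases z3 : Q₃ = ∅
        · have := shat_four (L := L) (M := M) (Q₁ := Q₁) (Q₂ := Q₂) (Q₃ := Q₄) (Q₄ := Q₃) hL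
            (by rw [← hu]; simp only [union_comm, union_left_comm])
            d1 d14 d13 d24 d23 d2.symm k12 k14 k13 k24 k23
            (by rwa [union_comm]) n1 n2 (hne _ _ k34 z3)
          rwa [hq3] at this
        · have n3 : Q₃.Nonempty := nonempty_iff_ne_empty.2 z3
          have := shat_four (L := L) (M := M) (Q₁ := Q₁) (Q₂ := Q₂) (Q₃ := Q₃) (Q₄ := Q₄) hL
            hu d1 d13 d14 d23 d24 d2 k12 k13 k14 k23 k24 k34 n1 n2 n3
          rwa [hq3] at this

end Pool.Agent.Lib.MP_5e7226_co.Unc
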