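import Mathlib

set_option autoImplicit false

namespace Pool.Agent.Lib.MP_5e7226_co.Unc

open Finset

/-- The number of words of a window, as a function of the number of the special points. -/
lemma H_mono {n u u' : ℕ} (h : u ≤ u') (h' : u' ≤ n) :
    2 ^ u * (n - u + 1) ≤ 2 ^ u' * (n - u' + 1) := by
  induction u', h using Nat.le_induction with
  | base => exact le_rfl
  | succ m hm ih =>
    refine (ih (by omega)).trans ?_
    have h1 : n - m + 1 ≤ 2 * (n - (m + 1) + 1) := by omega
    calc 2 ^ m * (n - m + 1) ≤ 2 ^ m * (2 * (n - (m + 1) + 1)) := Nat.mul_le_mul_left _ h1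
      _ = 2 ^ (m + 1) * (n - (m + 1) + 1) := by rw [pow_succ, mul_assoc]

variable {V : Type*} [DecidableEq V]

/-- Few special points: at most two for every set `G` which is not full, three if all the sets
`G \ {v}` are full. -/
theorem exists_H_sharp (V₀ : Finset V) (P full : Finset V → Prop) [DecidablePred P]
    [DecidablePred full]
    (hP : ∀ G ⊆ V₀, P G → ∀ G' ⊆ G, P G') (Q : Finset V → Finset V) (n : Finset V → ℕ)
    (hQ : ∀ G ⊆ V₀, P G → ∀ G' ⊆ G, Q G' ⊆ Q G) (hn : ∀ G ⊆ V₀, P G → ∀ G' ⊆ G, n G' ≤ n G)
    (hQn : ∀ G ⊆ V₀, P G → (Q G).card ≤ n G) (hQ0 : Q ∅ = ∅) (a c : ℕ)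
    (hfull : ∀ G ⊆ V₀, P G → full G →
      c * 2 ^ G.card ≤ 2 * (a * n G) ∨ c * 2 ^ G.card ≤ a)
    (hnot : ∀ G ⊆ V₀, P G → ¬ full G →
      c * 2 ^ G.card ≤ a * (2 ^ (Q G).card * (n G - (Q G).card + 1))) :
    ∃ H : Finset V, (∀ x ∈ H, ∃ G ⊆ V₀, P G ∧ x ∈ Q G) ∧
      H.card ≤ 2 * (V₀.powerset.filter (fun G => P G ∧ ¬ full G ∧ G.Nonempty)).card +
        (V₀.powerset.filter (fun G => P G ∧ ¬ full G ∧ G.Nonempty ∧
          ∀ v ∈ G, full (G.erase v))).card ∧
      ∀ G ⊆ V₀, P G → ¬ full G →
        c * 2 ^ G.card ≤ a * (2 ^ (H ∩ Q G).card * (n G - (H ∩ Q G).card + 1)) := by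
  classical
  have key : ∀ m : ℕ, ∃ H : Finset V, (∀ x ∈ H, ∃ G ⊆ V₀, P G ∧ x ∈ Q G) ∧
      H.card ≤ 2 * (V₀.powerset.filter (fun G => (P G ∧ ¬ full G ∧ G.Nonempty) ∧
          G.card ≤ m)).card +
        (V₀.powerset.filter (fun G => (P G ∧ ¬ full G ∧ G.Nonempty ∧
          ∀ v ∈ G, full (G.erase v)) ∧ G.card ≤ m)).card ∧
      ∀ G ⊆ V₀, P G → ¬ full G → G.card ≤ m →
        c * 2 ^ G.card ≤ a * (2 ^ (H ∩ Q G).card * (n G - (H ∩ Q G).card + 1)) := by
    intro m
    induction m with
    | zero =>
      refine ⟨∅, by simp, by simp, ?_⟩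
      intro G hG hPG hnG hGm
      have h0 : G = ∅ := card_eq_zero.1 (by omega)
      subst h0
      have := hnot ∅ hG hPG hnG
      rw [hQ0] at this ⊢
      simpa using this
    | succ m ih =>
      obtain ⟨H, hH1, hH2, hH3⟩ := ih
      -- the new points
      have hN : ∀ G : Finset V, ∃ N : Finset V, N ⊆ Q G ∧
          N.card ≤ 2 + (if ∀ v ∈ G, full (G.erase v) then 1 else 0) ∧
          (G ⊆ V₀ → P G → ¬ full G → G.card = m + 1 → c * 2 ^ G.card ≤
            a * (2 ^ ((H ∪ N) ∩ Q G).card * (n G - ((H ∪ N) ∩ Q G).card + 1))) := by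
        intro G
        obtain ⟨l, hl⟩ : ∃ l : ℕ, l = 2 + (if ∀ v ∈ G, full (G.erase v) then 1 else 0) :=
          ⟨_, rfl⟩
        rw [← hl]
        by_cases hG : G ⊆ V₀ ∧ P G ∧ ¬ full G ∧ G.card = m + 1
        · obtain ⟨hG1, hG2, hG4, hG3⟩ := hG
          have hsd : (Q G \ H).card + (H ∩ Q G).card = (Q G).card := by
            rw [inter_comm]
            exact card_sdiff_add_card_inter _ _
          by_cases hle : (Q G).card ≤ (H ∩ Q G).card + l
          · refine ⟨Q G \ H, sdiff_subset, by omega, fun _ _ _ _ => ?_⟩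
            have h1 : (H ∪ Q G \ H) ∩ Q G = Q G := by
              rw [union_sdiff_self_eq_union]
              exact inter_eq_right.2 subset_union_right
            rw [h1]
            exact hnot G hG1 hG2 hG4
          · push Not at hle
            obtain ⟨N, hN1, hN2⟩ := exists_subset_card_eq (s := Q G \ H) (n := l) (by omega)
            refine ⟨N, hN1.trans sdiff_subset, by omega, fun _ _ _ _ => ?_⟩
            have h1 : ((H ∪ N) ∩ Q G).card = (H ∩ Q G).card + l := by
              have h2 : (H ∪ N) ∩ Q G = (H ∩ Q G) ∪ N := by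
                rw [union_inter_distrib_right, inter_eq_left.2 (hN1.trans sdiff_subset)]
              rw [h2, card_union_of_disjoint, hN2]
              rw [disjoint_left]
              intro x hx hxN
              exact (mem_sdiff.1 (hN1 hxN)).2 (mem_inter.1 hx).1
            rw [h1]
            have h6 := hQn G hG1 hG2
            by_cases hall : ∀ v ∈ G, full (G.erase v)
            · -- three new points
              rw [if_pos hall] at hl
              obtain ⟨v, hv⟩ : G.Nonempty := card_pos.1 (by omega)
              have hsub : G.erase v ⊆ G := erase_subset _ _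
              have hc : (G.erase v).card = m := by
                rw [card_erase_of_mem hv, hG3, Nat.add_sub_cancel]
              have h3 := hfull (G.erase v) (hsub.trans hG1) (hP G hG1 hG2 _ hsub) (hall v hv)
              rw [hc] at h3
              have h4 := hn G hG1 hG2 _ hsub
              set b' := (H ∩ Q G).card with hb'
              have h7 : 2 ^ 3 * (n G - 3 + 1) ≤ 2 ^ (b' + l) * (n G - (b' + l) + 1) :=
                H_mono (by omega) (by omega)
              have h10 : c * 2 ^ m ≤ 2 * (a * n G) := by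
                rcases h3 with h3 | h3
                · exact h3.trans (Nat.mul_le_mul_left _ (Nat.mul_le_mul_left _ h4))
                · refine h3.trans ?_
                  have : 1 ≤ n G := by omega
                  nlinarith
              have h11 : 4 * n G ≤ 2 ^ 3 * (n G - 3 + 1) := by omega
              calc c * 2 ^ G.card = 2 * (c * 2 ^ m) := by rw [hG3, pow_succ]; ring
                _ ≤ 2 * (2 * (a * n G)) := Nat.mul_le_mul_left _ h10
                _ = a * (4 * n G) := by ring
                _ ≤ a * (2 ^ (b' + l) * (n G - (b' + l) + 1)) :=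
                    Nat.mul_le_mul_left _ (h11.trans h7)
            · -- two new points
              rw [if_neg hall] at hl
              push Not at hall
              obtain ⟨v, hv, hfv⟩ := hall
              have hsub : G.erase v ⊆ G := erase_subset _ _
              have hc : (G.erase v).card = m := by
                rw [card_erase_of_mem hv, hG3, Nat.add_sub_cancel]
              have h3 := hH3 (G.erase v) (hsub.trans hG1) (hP G hG1 hG2 _ hsub) hfv hc.le
              rw [hc] at h3
              have h4 := hn G hG1 hG2 _ hsub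
              have h5 : (H ∩ Q (G.erase v)).card ≤ (H ∩ Q G).card :=
                card_le_card (inter_subset_inter (Subset.refl _) (hQ G hG1 hG2 _ hsub))
              subst hl
              set b := (H ∩ Q (G.erase v)).card with hb
              set b' := (H ∩ Q G).card with hb'
              have h7 : 2 ^ (b + 2) * (n G - (b + 2) + 1) ≤
                  2 ^ (b' + (2 + 0)) * (n G - (b' + (2 + 0)) + 1) :=
                H_mono (by omega) (by omega)
              have h8 : n (G.erase v) - b + 1 ≤ 2 * (n G - (b + 2) + 1) := by omega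
              have h9 : 2 * (2 ^ b * (n (G.erase v) - b + 1)) ≤
                  2 ^ (b + 2) * (n G - (b + 2) + 1) := by
                calc 2 * (2 ^ b * (n (G.erase v) - b + 1))
                    ≤ 2 * (2 ^ b * (2 * (n G - (b + 2) + 1))) :=
                      Nat.mul_le_mul_left _ (Nat.mul_le_mul_left _ h8)
                  _ = _ := by rw [pow_add]; ring
              calc c * 2 ^ G.card = 2 * (c * 2 ^ m) := by rw [hG3, pow_succ]; ring
                _ ≤ 2 * (a * (2 ^ b * (n (G.erase v) - b + 1))) := Nat.mul_le_mul_left _ h3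
                _ = a * (2 * (2 ^ b * (n (G.erase v) - b + 1))) := by ring
                _ ≤ a * (2 ^ (b' + (2 + 0)) * (n G - (b' + (2 + 0)) + 1)) :=
                    Nat.mul_le_mul_left _ (h9.trans h7)
        · exact ⟨∅, empty_subset _, by simp, fun h1 h2 h3 h4 => absurd ⟨h1, h2, h3, h4⟩ hG⟩
      choose N hN1 hN2 hN3 using hN
      obtain ⟨S, hS⟩ : ∃ S : Finset (Finset V),
          S = V₀.powerset.filter (fun G => (P G ∧ ¬ full G) ∧ G.card = m + 1) := ⟨_, rfl⟩
      refine ⟨H ∪ S.biUnion N, ?_, ?_, ?_⟩
      · intro x hx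
        rcases mem_union.1 hx with hx | hx
        · exact hH1 x hx
        · obtain ⟨G, hG, hxG⟩ := mem_biUnion.1 hx
          rw [hS, mem_filter, mem_powerset] at hG
          exact ⟨G, hG.1, hG.2.1.1, hN1 G hxG⟩
      · have h1 : (S.biUnion N).card ≤ 2 * S.card +
            (S.filter (fun G => ∀ v ∈ G, full (G.erase v))).card := by
          refine card_biUnion_le.trans ?_
          calc ∑ G ∈ S, (N G).card
              ≤ ∑ G ∈ S, (2 + (if ∀ v ∈ G, full (G.erase v) then 1 else 0)) :=
                sum_le_sum fun G _ => hN2 G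
            _ = _ := by
              rw [sum_add_distrib, sum_const, smul_eq_mul, card_filter, mul_comm]
        have h2 : (V₀.powerset.filter (fun G => (P G ∧ ¬ full G ∧ G.Nonempty) ∧
            G.card ≤ m)).card + S.card ≤
            (V₀.powerset.filter (fun G => (P G ∧ ¬ full G ∧ G.Nonempty) ∧
              G.card ≤ m + 1)).card := by
          rw [← card_union_of_disjoint]
          · apply card_le_card
            intro G hG
            rcases mem_union.1 hG with hG | hG
            · obtain ⟨h3, h4, h5⟩ := mem_filter.1 hG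
              exact mem_filter.2 ⟨h3, h4, by omega⟩
            · rw [hS] at hG
              obtain ⟨h3, ⟨h4, h5⟩, h6⟩ := mem_filter.1 hG
              exact mem_filter.2 ⟨h3, ⟨h4, h5, card_pos.1 (by omega)⟩, by omega⟩
          · rw [disjoint_left]
            intro G hG hG'
            rw [hS] at hG'
            have h3 := (mem_filter.1 hG).2.2
            have h4 := (mem_filter.1 hG').2.2
            omega
        have h2' : (V₀.powerset.filter (fun G => (P G ∧ ¬ full G ∧ G.Nonempty ∧
            ∀ v ∈ G, full (G.erase v)) ∧ G.card ≤ m)).card +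
            (S.filter (fun G => ∀ v ∈ G, full (G.erase v))).card ≤
            (V₀.powerset.filter (fun G => (P G ∧ ¬ full G ∧ G.Nonempty ∧
              ∀ v ∈ G, full (G.erase v)) ∧ G.card ≤ m + 1)).card := by
          rw [← card_union_of_disjoint]
          · apply card_le_card
            intro G hG
            rcases mem_union.1 hG with hG | hG
            · obtain ⟨h3, h4, h5⟩ := mem_filter.1 hG
              exact mem_filter.2 ⟨h3, h4, by omega⟩
            · obtain ⟨hG, h7⟩ := mem_filter.1 hG
              rw [hS] at hG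
              obtain ⟨h3, ⟨h4, h5⟩, h6⟩ := mem_filter.1 hG
              exact mem_filter.2 ⟨h3, ⟨h4, h5, card_pos.1 (by omega), h7⟩, by omega⟩
          · rw [disjoint_left]
            intro G hG hG'
            have hG' := (mem_filter.1 hG').1
            rw [hS] at hG'
            have h3 := (mem_filter.1 hG).2.2
            have h4 := (mem_filter.1 hG').2.2
            omega
        have h3 := card_union_le H (S.biUnion N)
        omega
      · intro G hG hPG hnG hGm
        have hsub : (H ∪ S.biUnion N) ∩ Q G ⊆ Q G := inter_subset_right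
        have hle := (card_le_card hsub).trans (hQn G hG hPG)
        by_cases hGm' : G.card ≤ m
        · refine (hH3 G hG hPG hnG hGm').trans (Nat.mul_le_mul_left _ (H_mono ?_ hle))
          exact card_le_card (inter_subset_inter subset_union_left (Subset.refl _))
        · have hGc : G.card = m + 1 := by omega
          refine (hN3 G hG hPG hnG hGc).trans (Nat.mul_le_mul_left _ (H_mono ?_ hle))
          apply card_le_card
          apply inter_subset_inter _ (Subset.refl _)
          apply union_subset_union (Subset.refl _)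
          apply subset_biUnion_of_mem
          rw [hS]
          exact mem_filter.2 ⟨mem_powerset.2 hG, ⟨hPG, hnG⟩, hGc⟩
  obtain ⟨H, h1, h2, h3⟩ := key V₀.card
  refine ⟨H, h1, h2.trans (Nat.add_le_add (Nat.mul_le_mul_left _ (card_le_card ?_))
    (card_le_card ?_)), fun G hG hPG hnG => h3 G hG hPG hnG (card_le_card hG)⟩
  · intro G hG
    obtain ⟨h4, h5, _⟩ := mem_filter.1 hG
    exact mem_filter.2 ⟨h4, h5⟩
  · intro G hG
    obtain ⟨h4, h5, _⟩ := mem_filter.1 hG
    exact mem_filter.2 ⟨h4, h5⟩

/-- Few special points: at most three for every nonempty set which is not full. -/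
theorem exists_H (V₀ : Finset V) (P full : Finset V → Prop) [DecidablePred P]
    [DecidablePred full]
    (hP : ∀ G ⊆ V₀, P G → ∀ G' ⊆ G, P G') (Q : Finset V → Finset V) (n : Finset V → ℕ)
    (hQ : ∀ G ⊆ V₀, P G → ∀ G' ⊆ G, Q G' ⊆ Q G) (hn : ∀ G ⊆ V₀, P G → ∀ G' ⊆ G, n G' ≤ n G)
    (hQn : ∀ G ⊆ V₀, P G → (Q G).card ≤ n G) (hQ0 : Q ∅ = ∅) (a c : ℕ)
    (hfull : ∀ G ⊆ V₀, P G → full G →
      c * 2 ^ G.card ≤ 2 * (a * n G) ∨ c * 2 ^ G.card ≤ a)
    (hnot : ∀ G ⊆ V₀, P G → ¬ full G →
      c * 2 ^ G.card ≤ a * (2 ^ (Q G).card * (n G - (Q G).card + 1))) :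
    ∃ H : Finset V, (∀ x ∈ H, ∃ G ⊆ V₀, P G ∧ x ∈ Q G) ∧
      H.card ≤ 3 * (V₀.powerset.filter (fun G => P G ∧ ¬ full G ∧ G.Nonempty)).card ∧
      H.card + 3 ≤ 3 * 2 ^ V₀.card ∧
      ∀ G ⊆ V₀, P G → ¬ full G →
        c * 2 ^ G.card ≤ a * (2 ^ (H ∩ Q G).card * (n G - (H ∩ Q G).card + 1)) := by
  classical
  obtain ⟨H, h1, h2, h3⟩ := exists_H_sharp V₀ P full hP Q n hQ hn hQn hQ0 a c hfull hnot
  have h4 : (V₀.powerset.filter (fun G => P G ∧ ¬ full G ∧ G.Nonempty ∧
      ∀ v ∈ G, full (G.erase v))).card ≤
      (V₀.powerset.filter (fun G => P G ∧ ¬ full G ∧ G.Nonempty)).card := by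
    apply card_le_card
    intro G hG
    obtain ⟨h5, h6, h7, h8, _⟩ := mem_filter.1 hG
    exact mem_filter.2 ⟨h5, h6, h7, h8⟩
  have h5 : (V₀.powerset.filter (fun G => P G ∧ ¬ full G ∧ G.Nonempty)).card + 1 ≤
      2 ^ V₀.card := by
    rw [← card_powerset, ← card_singleton (∅ : Finset V), ← card_union_of_disjoint]
    · apply card_le_card
      intro G hG
      rcases mem_union.1 hG with hG | hG
      · exact (mem_filter.1 hG).1
      · rw [mem_singleton.1 hG]
        exact empty_mem_powerset _
    · rw [disjoint_singleton_right]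
      intro hG
      exact absurd (mem_filter.1 hG).2.2.2 (by simp)
  exact ⟨H, h1, by omega, by omega, h3⟩

end Pool.Agent.Lib.MP_5e7226_co.Unc
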