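import Mathlib

/-! UncM1 (helper76): definitions of the numeric part of `shat_six`, the case `B < 1`. -/

set_option autoImplicit false

namespace Pool.Agent.Lib.MP_5e7226_co.UncM

open Finset

/-- The potential (the same function as `g5`). -/
def gg (a : ℕ) : ℕ := if a ≤ 3 then 4 * a else 5 * a

/-- The cost of one set `G` in the cell code, divided by `2 ^ N`. -/
noncomputable def cellc (P B : ℝ) (h L : ℕ) (ρ : ℕ → ℕ) : ℝ :=
  ∑ t ∈ range L, (h.choose t : ℝ) / (B * 2 ^ t * ρ t) *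
    Real.exp (-(P * (B * 2 ^ t) * ((L - t - ρ t + 1 : ℕ) : ℝ)))

/-- `L` is minimal with `2 i ≤ B L`, `B = 2 ^ z`. -/
def MinNF (i : ℕ) (z : ℤ) (L : ℕ) : Prop :=
  1 ≤ L ∧ (2 * i : ℝ) ≤ (2 : ℝ) ^ z * L ∧
    ∀ L' : ℕ, 1 ≤ L' → (2 * i : ℝ) ≤ (2 : ℝ) ^ z * L' → L ≤ L'

/-- The condition of a full set. -/
def CFU (i s L : ℕ) : Prop :=
  1 ≤ L ∧ (2 * gg i ≤ 2 ^ s * gg 1 ∨ (2 ≤ L ∧ gg i ≤ 2 ^ s * gg (L - 1)))

def MinFU (i s L : ℕ) : Prop := CFU i s L ∧ ∀ L', CFU i s L' → L ≤ L'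

def NF (i h : ℕ) (α : ℝ) : Prop := ∀ (z : ℤ) (L : ℕ), MinNF i z L →
  ∃ ρ : ℕ → ℕ, (∀ t < L, 1 ≤ ρ t ∧ ρ t ≤ L - t) ∧ cellc (11 / 12) ((2 : ℝ) ^ z) h L ρ ≤ α

def FU (i s h : ℕ) (β : ℝ) : Prop := ∀ L, MinFU i s L →
  cellc (11 / 12) ((2 : ℝ) ^ s) h L (fun _ => 1) ≤ β

lemma exp_PP : Real.exp (-(11 / 12 : ℝ)) ≤ 2 / 5 := by
  have h1 : (2.7182818283 : ℝ) < Real.exp 1 := Real.exp_one_gt_d9
  have h2 : (5 / 2 : ℝ) ^ 12 ≤ Real.exp (11 / 12) ^ 12 := by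
    have h3 : Real.exp (11 / 12) ^ 12 = Real.exp 1 ^ 11 := by
      rw [← Real.exp_nat_mul, ← Real.exp_nat_mul]
      norm_num
    rw [h3]
    calc (5 / 2 : ℝ) ^ 12 ≤ (2.7182818283 : ℝ) ^ 11 := by norm_num
      _ ≤ _ := pow_le_pow_left₀ (by norm_num) h1.le _
  have h3 : (5 / 2 : ℝ) ≤ Real.exp (11 / 12) :=
    le_of_pow_le_pow_left₀ (by norm_num) (Real.exp_pos _).le h2
  rw [Real.exp_neg]
  calc (Real.exp (11 / 12))⁻¹ ≤ (5 / 2 : ℝ)⁻¹ := inv_anti₀ (by norm_num) h3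
    _ = 2 / 5 := by norm_num

lemma exp_q {X : ℝ} {n : ℕ} (h : (n : ℝ) ≤ X) : Real.exp (-(11 / 12 * X)) ≤ (2 / 5) ^ n := by
  calc Real.exp (-(11 / 12 * X)) ≤ Real.exp (-(11 / 12 * n)) := by
        apply Real.exp_le_exp.2
        linarith
    _ = Real.exp (-(11 / 12)) ^ n := by
        rw [← Real.exp_nat_mul]
        congr 1
        ring
    _ ≤ (2 / 5) ^ n := pow_le_pow_left₀ (Real.exp_pos _).le exp_PP _

/-- One term of the cost for `B = 2 ^ z`, `z ≥ 0`, in rational arithmetic. -/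
def tq (h z L t : ℕ) : ℚ := (h.choose t : ℚ) / (2 ^ z * 2 ^ t) * (2 / 5) ^ (2 ^ z * 2 ^ t * (L - t))

def cq (h z L : ℕ) : ℚ := ∑ t ∈ range L, tq h z L t

lemma cellc_le_cq (h z L : ℕ) : cellc (11 / 12) ((2 : ℝ) ^ z) h L (fun _ => 1) ≤ (cq h z L : ℝ) := by
  unfold cellc cq tq
  push_cast
  apply sum_le_sum
  intro t ht
  rw [mul_one]
  have h1 : (((L - t - 1 : ℕ) : ℝ) + 1) = ((L - t : ℕ) : ℝ) := by
    have h0 : L - t - 1 + 1 = L - t := by
      have := mem_range.1 ht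
      omega
    exact_mod_cast h0
  rw [h1]
  refine mul_le_mul_of_nonneg_left ?_ (by positivity)
  have h2 : (11 / 12 : ℝ) * (2 ^ z * 2 ^ t) * ((L - t : ℕ) : ℝ) =
      11 / 12 * (2 ^ z * 2 ^ t * ((L - t : ℕ) : ℝ)) := by ring
  rw [h2]
  apply exp_q
  push_cast
  exact le_refl _

lemma cq_mono {h h' : ℕ} (hh : h ≤ h') (z L : ℕ) : cq h z L ≤ cq h' z L := by
  unfold cq tq
  apply sum_le_sum
  intro t _
  have : h.choose t ≤ h'.choose t := Nat.choose_le_choose t hh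
  gcongr

/-- `z ≥ 0`: `L` is determined. -/
lemma minNF_nat {i n L : ℕ} (h : MinNF i (n : ℤ) L) : 1 ≤ L ∧ 2 * i ≤ 2 ^ n * L ∧
    (L = 1 ∨ 2 ^ n * (L - 1) < 2 * i) := by
  obtain ⟨h1, h2, h3⟩ := h
  rw [zpow_natCast] at h2 h3
  refine ⟨h1, by exact_mod_cast h2, ?_⟩
  by_contra hcon
  push Not at hcon
  obtain ⟨h4, h5⟩ := hcon
  have := h3 (L - 1) (by omega) (by exact_mod_cast h5)
  omega

/-- `z < 0`: `L = 2 i 2 ^ r`. -/
lemma minNF_neg {i r L : ℕ} (hi : 1 ≤ i) (h : MinNF i (-(r : ℤ)) L) : L = 2 * i * 2 ^ r := by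
  obtain ⟨h1, h2, h3⟩ := h
  have key : ∀ M : ℕ, (2 * i : ℝ) ≤ (2 : ℝ) ^ (-(r : ℤ)) * M ↔ 2 * i * 2 ^ r ≤ M := by
    intro M
    rw [zpow_neg, zpow_natCast, inv_mul_eq_div, le_div_iff₀ (by positivity)]
    constructor
    · intro h
      exact_mod_cast h
    · intro h
      exact_mod_cast h
  have h4 := (key L).1 h2
  have h5 := h3 (2 * i * 2 ^ r) (by
    have : 1 ≤ 2 ^ r := Nat.one_le_two_pow
    nlinarith) ((key _).2 le_rfl)
  omega

lemma aux_pow1 {t : ℕ} (h : 3 ≤ t) : 2 * (t + 1) ≤ 2 ^ t := by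
  induction t, h using Nat.le_induction with
  | base => norm_num
  | succ n hn ih =>
    rw [pow_succ]
    omega

lemma aux_pow2 {t : ℕ} (h : 7 ≤ t) : 2 * t * (t + 1) ≤ 2 ^ t := by
  induction t, h using Nat.le_induction with
  | base => norm_num
  | succ n hn ih =>
    rw [pow_succ]
    nlinarith

/-- The exponent for `B = 2 ^ (-r)`. -/
lemma exp_neg_r {i r t : ℕ} (hi : 6 ≤ i) (hr : 1 ≤ r) (ht : t < 2 * i * 2 ^ r) :
    2 ^ r * ((t + 1) * (2 * i - 1)) ≤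
      2 ^ t * (2 * i * 2 ^ r - t - (if t < r then 2 ^ (r - t) else 1) + 1) := by
  obtain ⟨j, hj⟩ : ∃ j, 2 * i = j + 1 := ⟨2 * i - 1, by omega⟩
  have hj' : 2 * i - 1 = j := by omega
  have hj11 : 11 ≤ j := by omega
  rw [hj']
  have h2r : 2 ≤ 2 ^ r := by
    calc 2 = 2 ^ 1 := by norm_num
      _ ≤ 2 ^ r := Nat.pow_le_pow_right (by norm_num) hr
  by_cases htr : t < r
  · rw [if_pos htr]
    obtain ⟨s, rfl⟩ := Nat.exists_eq_add_of_lt htr
    have e1 : t + s + 1 - t = s + 1 := by omega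
    rw [e1]
    have h1 : t < 2 ^ t := Nat.lt_two_pow_self
    have h2 : 2 ^ (t + s + 1) = 2 ^ t * 2 ^ (s + 1) := by rw [add_assoc, pow_add]
    have h3 : 1 ≤ 2 ^ t := Nat.one_le_two_pow
    have h4 : 2 ≤ 2 ^ (s + 1) := by
      calc 2 = 2 ^ 1 := by norm_num
        _ ≤ 2 ^ (s + 1) := Nat.pow_le_pow_right (by norm_num) (by omega)
    set a := 2 ^ t with ha
    set b := 2 ^ (s + 1) with hb
    rw [h2, hj]
    have h5 : t + b ≤ (j + 1) * (a * b) := by nlinarith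
    obtain ⟨c, hc⟩ := Nat.exists_eq_add_of_le h5
    have h6 : (j + 1) * (a * b) - t - b + 1 = c + 1 := by omega
    rw [h6]
    -- `a * (c + 1) ≥ a b (t+1) j`
    have h7 : (c : ℤ) = (j + 1) * (a * b) - t - b := by
      have : ((j + 1) * (a * b) : ℤ) = t + b + c := by exact_mod_cast hc
      linarith
    have h8 : ((a * b * ((t + 1) * j) : ℕ) : ℤ) ≤ ((a * (c + 1) : ℕ) : ℤ) := by
      push_cast
      rw [h7]
      have ha1 : (t : ℤ) + 1 ≤ a := by exact_mod_cast h1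
      have hb1 : (2 : ℤ) ≤ b := by exact_mod_cast h4
      have hj1 : (11 : ℤ) ≤ j := by exact_mod_cast hj11
      have ht0 : (0 : ℤ) ≤ t := by positivity
      -- divide by a
      have h9 : (b : ℤ) * ((t + 1) * j) ≤ (j + 1) * (a * b) - t - b + 1 := by
        obtain ⟨e, he⟩ : ∃ e : ℤ, (a : ℤ) = t + 1 + e := ⟨a - (t + 1), by ring⟩
        have he0 : 0 ≤ e := by linarith
        rw [he]
        have h10 : (0 : ℤ) ≤ e * b * (j + 1) := by positivity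
        have h11 : (0 : ℤ) ≤ t * (b - 2) := mul_nonneg ht0 (by linarith)
        nlinarith
      have ha0 : (0 : ℤ) ≤ a := by positivity
      calc (a : ℤ) * b * ((t + 1) * j) = a * (b * ((t + 1) * j)) := by ring
        _ ≤ a * ((j + 1) * (a * b) - t - b + 1) := mul_le_mul_of_nonneg_left h9 ha0
        _ = _ := by ring
    exact_mod_cast h8
  · rw [if_neg htr]
    push Not at htr
    obtain ⟨s, rfl⟩ := Nat.exists_eq_add_of_le htr
    have e1 : 2 * i * 2 ^ r - (r + s) - 1 + 1 = 2 * i * 2 ^ r - (r + s) := by omega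
    rw [e1, pow_add, mul_assoc]
    apply Nat.mul_le_mul_left
    -- `(t+1) j ≤ 2^s (2 i 2^r - t)`
    by_cases hsmall : r + s ≤ i * 2 ^ r
    · have h1 : i * 2 ^ r ≤ 2 * i * 2 ^ r - (r + s) := by
        have : 2 * i * 2 ^ r = i * 2 ^ r + i * 2 ^ r := by ring
        omega
      by_cases h3 : 3 ≤ r + s
      · calc (r + s + 1) * j ≤ (r + s + 1) * (2 * i) := Nat.mul_le_mul_left _ (by omega)
          _ = 2 * (r + s + 1) * i := by ring
          _ ≤ 2 ^ (r + s) * i := Nat.mul_le_mul_right _ (aux_pow1 h3)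
          _ = 2 ^ s * (i * 2 ^ r) := by rw [pow_add]; ring
          _ ≤ _ := Nat.mul_le_mul_left _ h1
      · have hcases : (r = 1 ∧ s = 0) ∨ (r = 1 ∧ s = 1) ∨ (r = 2 ∧ s = 0) := by omega
        rcases hcases with ⟨rfl, rfl⟩ | ⟨rfl, rfl⟩ | ⟨rfl, rfl⟩ <;> norm_num <;> omega
    · push Not at hsmall
      have h1 : 1 ≤ 2 * i * 2 ^ r - (r + s) := by omega
      refine le_trans ?_ (Nat.mul_le_mul_left _ h1)
      rw [mul_one]
      -- `(t+1) j ≤ 2^s`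
      have h7 : 7 ≤ r + s := by
        have : 6 * 2 ≤ i * 2 ^ r := Nat.mul_le_mul hi h2r
        omega
      have h8 := aux_pow2 h7
      have h9 : i * ((r + s + 1) * j) * 2 ^ r ≤ i * 2 ^ s * 2 ^ r := by
        calc i * ((r + s + 1) * j) * 2 ^ r = (i * 2 ^ r) * ((r + s + 1) * j) := by ring
          _ ≤ (r + s) * ((r + s + 1) * (2 * i)) := by
              apply Nat.mul_le_mul hsmall.le
              exact Nat.mul_le_mul_left _ (by omega)
          _ = 2 * (r + s) * (r + s + 1) * i := by ring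
          _ ≤ 2 ^ (r + s) * i := Nat.mul_le_mul_right _ h8
          _ = _ := by rw [pow_add]; ring
      have h10 := Nat.le_of_mul_le_mul_right h9 (by positivity)
      exact Nat.le_of_mul_le_mul_left h10 (by omega)

/-- The case `B < 1` of `NF`, for all `i ≥ 6`. -/
theorem nf_neg {i h r L : ℕ} (hi : 6 ≤ i) (hr : 1 ≤ r) (hh : h ≤ 3 * 2 ^ i)
    (hL : MinNF i (-(r : ℤ)) L) :
    ∃ ρ : ℕ → ℕ, (∀ t < L, 1 ≤ ρ t ∧ ρ t ≤ L - t) ∧
      cellc (11 / 12) ((2 : ℝ) ^ (-(r : ℤ))) h L ρ ≤ 100 / 99 * (2 / 5) ^ (2 * i - 1) := by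
  have hLe := minNF_neg (by omega) hL
  subst hLe
  have h2r : 2 ≤ 2 ^ r := by
    calc 2 = 2 ^ 1 := by norm_num
      _ ≤ 2 ^ r := Nat.pow_le_pow_right (by norm_num) hr
  refine ⟨fun t => if t < r then 2 ^ (r - t) else 1, ?_, ?_⟩
  · intro t ht
    show 1 ≤ (if t < r then 2 ^ (r - t) else 1) ∧ (if t < r then 2 ^ (r - t) else 1) ≤ _
    by_cases htr : t < r
    · rw [if_pos htr]
      refine ⟨Nat.one_le_two_pow, ?_⟩
      have h1 : 2 ^ (r - t) ≤ 2 ^ r := Nat.pow_le_pow_right (by norm_num) (by omega)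
      have h2 : r < 2 ^ r := Nat.lt_two_pow_self
      have h3 : 2 * 2 ^ r ≤ 2 * i * 2 ^ r := Nat.mul_le_mul_right _ (by omega)
      omega
    · rw [if_neg htr]
      omega
  · set Q : ℝ := (2 / 5) ^ (2 * i - 1) with hQ
    have hQ0 : 0 < Q := by positivity
    -- `h Q ≤ 1/100`
    have hhQ : (h : ℝ) * Q ≤ 1 / 100 := by
      have h1 : (h : ℝ) ≤ 3 * 2 ^ i := by exact_mod_cast hh
      have h2 : (3 * 2 ^ i : ℝ) * Q = 15 / 2 * (8 / 25) ^ i := by
        have e1 : (2 / 5 : ℝ) ^ (2 * i - 1) = 5 / 2 * ((2 / 5) ^ 2) ^ i := by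
          obtain ⟨n, hn⟩ : ∃ n, 2 * i - 1 = n ∧ 2 * i = n + 1 := ⟨2 * i - 1, rfl, by omega⟩
          rw [hn.1, ← pow_mul, hn.2, pow_succ]
          ring
        rw [hQ, e1]
        calc (3 * 2 ^ i : ℝ) * (5 / 2 * ((2 / 5) ^ 2) ^ i) = 15 / 2 * (2 ^ i * ((2 / 5) ^ 2) ^ i) := by
              ring
          _ = 15 / 2 * (8 / 25) ^ i := by
              rw [← mul_pow]
              norm_num
      calc (h : ℝ) * Q ≤ (3 * 2 ^ i) * Q := mul_le_mul_of_nonneg_right h1 hQ0.le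
        _ = 15 / 2 * (8 / 25) ^ i := h2
        _ ≤ 15 / 2 * (8 / 25) ^ 6 := by
            apply mul_le_mul_of_nonneg_left _ (by norm_num)
            exact pow_le_pow_of_le_one (by norm_num) (by norm_num) hi
        _ ≤ 1 / 100 := by norm_num
    have hy0 : 0 ≤ (h : ℝ) * Q := by positivity
    unfold cellc
    have hterm : ∀ t ∈ range (2 * i * 2 ^ r), (h.choose t : ℝ) / ((2 : ℝ) ^ (-(r : ℤ)) * 2 ^ t *
        ((if t < r then 2 ^ (r - t) else 1 : ℕ) : ℝ)) *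
        Real.exp (-(11 / 12 * ((2 : ℝ) ^ (-(r : ℤ)) * 2 ^ t) *
          ((2 * i * 2 ^ r - t - (if t < r then 2 ^ (r - t) else 1) + 1 : ℕ) : ℝ))) ≤
        Q * ((h : ℝ) * Q) ^ t := by
      intro t ht
      have ht' := mem_range.1 ht
      have hexp := exp_neg_r hi hr ht'
      set M := 2 * i * 2 ^ r - t - (if t < r then 2 ^ (r - t) else 1) + 1 with hM
      have hz : (2 : ℝ) ^ (-(r : ℤ)) = 1 / 2 ^ r := by
        rw [zpow_neg, zpow_natCast, one_div]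
      have h2r0 : (0 : ℝ) < 2 ^ r := by positivity
      have hden : (1 : ℝ) ≤ (2 : ℝ) ^ (-(r : ℤ)) * 2 ^ t *
          ((if t < r then 2 ^ (r - t) else 1 : ℕ) : ℝ) := by
        rw [hz]
        by_cases htr : t < r
        · rw [if_pos htr]
          push_cast
          rw [div_mul_eq_mul_div, one_mul, div_mul_eq_mul_div, ← pow_add,
            show t + (r - t) = r by omega, div_self h2r0.ne']
        · rw [if_neg htr]
          push_cast
          rw [div_mul_eq_mul_div, one_mul, mul_one, le_div_iff₀ h2r0, one_mul]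
          exact pow_le_pow_right₀ (by norm_num) (by omega)
      have hE : (((t + 1) * (2 * i - 1) : ℕ) : ℝ) ≤ (2 : ℝ) ^ (-(r : ℤ)) * 2 ^ t * (M : ℝ) := by
        rw [hz, div_mul_eq_mul_div, one_mul, div_mul_eq_mul_div, le_div_iff₀ h2r0]
        have : ((2 ^ r * ((t + 1) * (2 * i - 1)) : ℕ) : ℝ) ≤ ((2 ^ t * M : ℕ) : ℝ) := by
          exact_mod_cast hexp
        rw [mul_comm]
        calc (2 : ℝ) ^ r * (((t + 1) * (2 * i - 1) : ℕ) : ℝ) =
            ((2 ^ r * ((t + 1) * (2 * i - 1)) : ℕ) : ℝ) := by push_cast; ring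
          _ ≤ _ := this
          _ = _ := by push_cast; ring
      have h1 : Real.exp (-(11 / 12 * ((2 : ℝ) ^ (-(r : ℤ)) * 2 ^ t) * (M : ℝ))) ≤
          (2 / 5) ^ ((t + 1) * (2 * i - 1)) := by
        have e : (11 / 12 * ((2 : ℝ) ^ (-(r : ℤ)) * 2 ^ t) * (M : ℝ)) =
            11 / 12 * ((2 : ℝ) ^ (-(r : ℤ)) * 2 ^ t * (M : ℝ)) := by ring
        rw [e]
        exact exp_q hE
      have h2 : (h.choose t : ℝ) / ((2 : ℝ) ^ (-(r : ℤ)) * 2 ^ t *
          ((if t < r then 2 ^ (r - t) else 1 : ℕ) : ℝ)) ≤ (h : ℝ) ^ t := by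
        have h3 : (h.choose t : ℝ) ≤ (h : ℝ) ^ t := by exact_mod_cast Nat.choose_le_pow h t
        exact (div_le_self (by positivity) hden).trans h3
      calc _ ≤ (h : ℝ) ^ t * (2 / 5) ^ ((t + 1) * (2 * i - 1)) :=
            mul_le_mul h2 h1 (Real.exp_pos _).le (by positivity)
        _ = Q * ((h : ℝ) * Q) ^ t := by
            rw [hQ, mul_pow, ← pow_mul, add_mul, one_mul, pow_add, mul_comm t (2 * i - 1)]
            ring
    refine (sum_le_sum hterm).trans ?_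
    rw [← mul_sum]
    have hgeo : ∑ t ∈ range (2 * i * 2 ^ r), ((h : ℝ) * Q) ^ t ≤ 100 / 99 := by
      have hlt : (h : ℝ) * Q < 1 := by linarith
      have h1 := (hasSum_geometric_of_lt_one hy0 hlt)
      have h2 : ∑ t ∈ range (2 * i * 2 ^ r), ((h : ℝ) * Q) ^ t ≤ (1 - (h : ℝ) * Q)⁻¹ :=
        sum_le_hasSum _ (fun t _ => by positivity) h1
      refine h2.trans ?_
      rw [inv_le_comm₀ (by linarith) (by norm_num)]
      norm_num
      linarith
    calc Q * ∑ t ∈ range (2 * i * 2 ^ r), ((h : ℝ) * Q) ^ t ≤ Q * (100 / 99) :=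
          mul_le_mul_of_nonneg_left hgeo hQ0.le
      _ = 100 / 99 * Q := by ring

end Pool.Agent.Lib.MP_5e7226_co.UncM
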