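import Pool.Agent.Lib.MP_5e7226_co.UncM1

set_option autoImplicit false

namespace Pool.Agent.Lib.MP_5e7226_co.UncM

open Finset

namespace I12

/-- `q = 2/5`. -/
lemma q_pow_le (n i c d : ℕ) (hc : c ≠ 0) (h : d * i ≤ c * n) (r : ℝ) (hr : 0 ≤ r)
    (hrq : ((2 : ℝ) / 5) ^ d ≤ r ^ c) : ((2 : ℝ) / 5) ^ n ≤ r ^ i := by
  have h1 : (((2 : ℝ) / 5) ^ n) ^ c ≤ (r ^ i) ^ c := by
    rw [← pow_mul, ← pow_mul, mul_comm n c, mul_comm i c, pow_mul r c i]
    calc ((2 : ℝ) / 5) ^ (c * n) ≤ (2 / 5) ^ (d * i) :=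
          pow_le_pow_of_le_one (by norm_num) (by norm_num) h
      _ = ((2 / 5) ^ d) ^ i := pow_mul _ _ _
      _ ≤ (r ^ c) ^ i := pow_le_pow_left₀ (by positivity) hrq _
  exact (pow_le_pow_iff_left₀ (by positivity) (by positivity) hc).1 h1

/-- The `t`-th weight. -/
lemma choose_bd (i h t : ℕ) (hh : h ≤ 3 * 2 ^ i) :
    (h.choose t : ℝ) / 2 ^ t ≤ (3 / 2 * 2 ^ i) ^ t / t.factorial := by
  have h1 : (h.choose t : ℝ) ≤ (h : ℝ) ^ t / t.factorial := Nat.choose_le_pow_div t h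
  have h2 : (h : ℝ) ≤ 3 * 2 ^ i := by exact_mod_cast hh
  calc (h.choose t : ℝ) / 2 ^ t ≤ ((h : ℝ) ^ t / t.factorial) / 2 ^ t :=
        div_le_div_of_nonneg_right h1 (by positivity)
    _ ≤ ((3 * 2 ^ i) ^ t / t.factorial) / 2 ^ t := by gcongr
    _ = (3 / 2 * 2 ^ i) ^ t / t.factorial := by
        have : (3 / 2 * (2 : ℝ) ^ i) = (3 * 2 ^ i) / 2 := by ring
        rw [this, div_pow]
        ring

/-- The tail of the sums over `t`. -/
lemma tail_bd (i k n : ℕ) (hi : 12 ≤ i) (hk : 4 ≤ k) :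
    ∑ j ∈ range n, (3 / 2 * (2 : ℝ) ^ i) ^ (k + j) / (k + j).factorial *
      (2 / 5) ^ ((k + j + 1) * i) ≤ (3 / 2 * (2 : ℝ) ^ i) ^ k * (2 / 5) ^ ((k + 1) * i) / 20 := by
  obtain ⟨y, hy⟩ : ∃ y : ℝ, y = 3 / 2 * 2 ^ i * (2 / 5) ^ i := ⟨_, rfl⟩
  have hy0 : 0 ≤ y := by rw [hy]; positivity
  have hy1 : y ≤ 1 / 6 := by
    have e1 : y = 3 / 2 * (4 / 5) ^ i := by
      rw [hy, mul_assoc, ← mul_pow]
      norm_num
    have e2 : ((4 : ℝ) / 5) ^ i ≤ (4 / 5) ^ 12 :=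
      pow_le_pow_of_le_one (by norm_num) (by norm_num) hi
    rw [e1]
    norm_num at e2 ⊢
    linarith
  have hterm : ∀ j ∈ range n, (3 / 2 * (2 : ℝ) ^ i) ^ (k + j) / (k + j).factorial *
      (2 / 5) ^ ((k + j + 1) * i) ≤
      (3 / 2 * (2 : ℝ) ^ i) ^ k * (2 / 5) ^ ((k + 1) * i) / 24 * y ^ j := by
    intro j _
    have hf : (24 : ℝ) ≤ (k + j).factorial := by
      have : Nat.factorial 4 ≤ (k + j).factorial := Nat.factorial_le (by omega)
      have h2 : (24 : ℕ) ≤ (k + j).factorial := by simpa [Nat.factorial] using this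
      exact_mod_cast h2
    have e1 : (3 / 2 * (2 : ℝ) ^ i) ^ (k + j) / (k + j).factorial * (2 / 5) ^ ((k + j + 1) * i) =
        ((3 / 2 * (2 : ℝ) ^ i) ^ k * (2 / 5) ^ ((k + 1) * i) * y ^ j) / (k + j).factorial := by
      rw [hy, mul_pow _ _ j, ← pow_mul (2 / 5 : ℝ) i j, pow_add (3 / 2 * (2 : ℝ) ^ i) k j,
        show (k + j + 1) * i = (k + 1) * i + i * j by ring, pow_add (2 / 5 : ℝ)]
      ring
    have e2 : (3 / 2 * (2 : ℝ) ^ i) ^ k * (2 / 5) ^ ((k + 1) * i) / 24 * y ^ j =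
        ((3 / 2 * (2 : ℝ) ^ i) ^ k * (2 / 5) ^ ((k + 1) * i) * y ^ j) / 24 := by ring
    rw [e1, e2]
    exact div_le_div_of_nonneg_left (by positivity) (by norm_num) hf
  refine (sum_le_sum hterm).trans ?_
  rw [← mul_sum]
  have hgeo : ∑ j ∈ range n, y ^ j ≤ 6 / 5 := by
    have e1 : (∑ j ∈ range n, y ^ j) * (1 - y) = 1 - y ^ n := geom_sum_mul_neg y n
    have e2 : 0 ≤ y ^ n := by positivity
    have e3 : 0 ≤ ∑ j ∈ range n, y ^ j := sum_nonneg fun _ _ => by positivity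
    nlinarith
  calc (3 / 2 * (2 : ℝ) ^ i) ^ k * (2 / 5) ^ ((k + 1) * i) / 24 * ∑ j ∈ range n, y ^ j
      ≤ (3 / 2 * (2 : ℝ) ^ i) ^ k * (2 / 5) ^ ((k + 1) * i) / 24 * (6 / 5) := by gcongr
    _ = _ := by ring

/-- The exponent. -/
def En (s L t : ℕ) : ℕ := 2 ^ s * 2 ^ t * (L - t)

lemma two_pow_sq (t : ℕ) (ht : 3 ≤ t) : (t + 1) ^ 2 ≤ 2 ^ (t + 1) := by
  induction t, ht using Nat.le_induction with
  | base => norm_num
  | succ t ht ih =>
    rw [pow_succ 2]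
    nlinarith

lemma two_pow_mul (t : ℕ) (ht : 5 ≤ t) : t * (t + 1) ≤ 2 ^ t := by
  induction t, ht using Nat.le_induction with
  | base => norm_num
  | succ t ht ih =>
    rw [pow_succ 2]
    nlinarith


/-- The lower bounds of the exponents, not full. -/
noncomputable def cNF (i t : ℕ) : ℝ :=
  if t = 0 then (2 / 5) ^ (2 * i) else if t = 1 then (2 / 5) ^ (2 * i) else
  if t = 2 then (869 / 10000) ^ i else if t = 3 then (2 / 5) ^ (4 * i) else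
  (2 / 5) ^ ((t + 1) * i)

lemma cNF_bd (i s L t : ℕ) (ht : t < L) (h : 2 * i ≤ 2 ^ s * L) :
    ((2 : ℝ) / 5) ^ (En s L t) ≤ cNF i t := by
  unfold cNF En
  obtain ⟨B, hB⟩ : ∃ B : ℕ, B = 2 ^ s := ⟨_, rfl⟩
  rw [← hB] at h ⊢
  obtain ⟨m, rfl⟩ : ∃ m, L = t + m := ⟨L - t, by omega⟩
  have hm : 1 ≤ m := by omega
  rw [Nat.add_sub_cancel_left]
  split_ifs with h0 h1 h2 h3
  · subst h0
    exact pow_le_pow_of_le_one (by norm_num) (by norm_num) (by simpa using h)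
  · subst h1
    refine pow_le_pow_of_le_one (by norm_num) (by norm_num) (h.trans ?_)
    nlinarith
  · subst h2
    refine q_pow_le _ i 3 8 (by norm_num) ?_ _ (by norm_num) (by norm_num)
    nlinarith
  · subst h3
    refine pow_le_pow_of_le_one (by norm_num) (by norm_num) ?_
    nlinarith
  · refine pow_le_pow_of_le_one (by norm_num) (by norm_num) ?_
    have ht4 : 4 ≤ t := by omega
    have e1 := two_pow_sq t (by omega)
    rw [pow_succ 2] at e1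
    have e2 : t + m ≤ (t + 1) * m := by nlinarith
    have e3 : (t + 1) * (2 * i) ≤ 2 * (B * 2 ^ t * m) := by
      calc (t + 1) * (2 * i) ≤ (t + 1) * (B * (t + m)) := Nat.mul_le_mul_left _ h
        _ ≤ (t + 1) * (B * ((t + 1) * m)) := by gcongr
        _ = (t + 1) ^ 2 * (B * m) := by ring
        _ ≤ (2 ^ t * 2) * (B * m) := by gcongr
        _ = _ := by ring
    nlinarith

/-- The lower bounds of the exponents, full. -/
noncomputable def cFU (i s t : ℕ) : ℝ :=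
  if t = 0 then (2 / 5) ^ (i + 2 ^ s) + (1012 / 10000) ^ i else
  if t = 1 then (2 / 5) ^ (2 * i) else
  if t = 2 then (2 / 5) ^ (3 * i) + (if 5 * i ≤ 8 * 2 ^ s then (1012 / 10000) ^ i else 0) else
  if t = 3 then (472 / 10000) ^ i else if t = 4 then (2 / 5) ^ (4 * i) else
  (2 / 5) ^ ((t + 1) * i)

lemma cFU_bd (i s L t : ℕ) (hi : 6 ≤ i) (ht : t < L)
    (h : 10 * i ≤ 4 * 2 ^ s ∨ (2 ≤ L ∧ 5 * i ≤ 2 ^ s * (if L - 1 ≤ 3 then 4 * (L - 1) else 5 * (L - 1)))) :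
    ((2 : ℝ) / 5) ^ (En s L t) ≤ cFU i s t := by
  have hq0 : (0 : ℝ) ≤ 2 / 5 := by norm_num
  have hq1 : (2 : ℝ) / 5 ≤ 1 := by norm_num
  unfold cFU En
  obtain ⟨B, hB⟩ : ∃ B : ℕ, B = 2 ^ s := ⟨_, rfl⟩
  rw [← hB] at h ⊢
  rcases h with h | ⟨hL, h⟩
  · obtain ⟨m, rfl⟩ : ∃ m, L = t + m := ⟨L - t, by omega⟩
    have hm : 1 ≤ m := by omega
    rw [Nat.add_sub_cancel_left]
    have hBm : B * 2 ^ t ≤ B * 2 ^ t * m := Nat.le_mul_of_pos_right _ hm
    split_ifs with h0 h1 h2 h3 h4 h5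
    · subst h0
      have : ((2 : ℝ) / 5) ^ (B * 2 ^ 0 * m) ≤ (1012 / 10000) ^ i := by
        refine q_pow_le _ i 2 5 (by norm_num) ?_ _ (by norm_num) (by norm_num)
        rw [pow_zero, mul_one] at hBm ⊢
        omega
      exact this.trans (le_add_of_nonneg_left (by positivity))
    · subst h1
      refine pow_le_pow_of_le_one hq0 hq1 (le_trans ?_ hBm)
      omega
    · subst h2
      refine le_trans (pow_le_pow_of_le_one hq0 hq1 (le_trans ?_ hBm)) (le_add_of_nonneg_right (by positivity))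
      omega
    · subst h2
      rw [add_zero]
      refine pow_le_pow_of_le_one hq0 hq1 (le_trans ?_ hBm)
      omega
    · subst h4
      refine q_pow_le _ i 3 10 (by norm_num) ?_ _ (by norm_num) (by norm_num)
      omega
    · subst h5
      refine pow_le_pow_of_le_one hq0 hq1 (le_trans ?_ hBm)
      omega
    · refine pow_le_pow_of_le_one hq0 hq1 (le_trans ?_ hBm)
      have ht5 : 5 ≤ t := by omega
      have e1 := two_pow_mul t ht5
      have e2 : t + 1 ≤ 2 ^ t := by nlinarith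
      calc (t + 1) * i ≤ 2 ^ t * B := Nat.mul_le_mul e2 (by omega)
        _ = _ := by ring
  · obtain ⟨b, rfl⟩ : ∃ b, L = b + 1 := ⟨L - 1, by omega⟩
    rw [Nat.add_sub_cancel] at h
    obtain ⟨m, rfl⟩ : ∃ m, b = t + m := ⟨b - t, by omega⟩
    rw [show t + m + 1 - t = m + 1 by omega]
    split_ifs with h0 h1 h2 h3 h4 h5
    · subst h0
      have : ((2 : ℝ) / 5) ^ (B * 2 ^ 0 * (m + 1)) ≤ (2 / 5) ^ (i + B) := by
        refine pow_le_pow_of_le_one hq0 hq1 ?_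
        have : i ≤ B * m := by
          split_ifs at h <;> nlinarith
        nlinarith
      exact this.trans (le_add_of_nonneg_right (by positivity))
    · subst h1
      refine pow_le_pow_of_le_one hq0 hq1 ?_
      split_ifs at h <;> nlinarith
    · subst h2
      refine le_trans ?_ (le_add_of_nonneg_left (by positivity))
      refine q_pow_le _ i 2 5 (by norm_num) ?_ _ (by norm_num) (by norm_num)
      rcases Nat.lt_or_ge m 2 with hm | hm
      · interval_cases m <;> norm_num at h ⊢ <;> omega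
      · rw [if_neg (by omega)] at h
        nlinarith
    · subst h2
      rw [add_zero]
      refine pow_le_pow_of_le_one hq0 hq1 ?_
      rcases Nat.lt_or_ge m 2 with hm | hm
      · interval_cases m <;> norm_num at h ⊢ <;> omega
      · rw [if_neg (by omega)] at h
        nlinarith
    · subst h4
      refine q_pow_le _ i 3 10 (by norm_num) ?_ _ (by norm_num) (by norm_num)
      rcases Nat.lt_or_ge m 1 with hm | hm
      · interval_cases m
        norm_num at h ⊢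
        omega
      · rw [if_neg (by omega)] at h
        nlinarith
    · subst h5
      refine pow_le_pow_of_le_one hq0 hq1 ?_
      rw [if_neg (by omega)] at h
      nlinarith
    · refine pow_le_pow_of_le_one hq0 hq1 ?_
      have ht5 : 5 ≤ t := by omega
      rw [if_neg (by omega)] at h
      have e1 := two_pow_mul t ht5
      have e2 : i ≤ B * (t + m) := by nlinarith
      have e3 : t + m ≤ t * (m + 1) := by nlinarith
      calc (t + 1) * i ≤ (t + 1) * (B * (t * (m + 1))) :=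
            Nat.mul_le_mul_left _ (e2.trans (Nat.mul_le_mul_left _ e3))
        _ = (t * (t + 1)) * (B * (m + 1)) := by ring
        _ ≤ 2 ^ t * (B * (m + 1)) := Nat.mul_le_mul_right _ e1
        _ = _ := by ring

/-- Passing to the sum. -/
lemma cq_le_sum (i h s L K : ℕ) (hh : h ≤ 3 * 2 ^ i) (c : ℕ → ℝ) (hc : ∀ t, 0 ≤ c t)
    (hb : ∀ t < L, ((2 : ℝ) / 5) ^ (En s L t) ≤ c t) :
    (cq h s L : ℝ) ≤ 1 / 2 ^ s * ∑ t ∈ range (K + L), (3 / 2 * (2 : ℝ) ^ i) ^ t / t.factorial * c t := by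
  have h1 : (cq h s L : ℝ) ≤ 1 / 2 ^ s *
      ∑ t ∈ range L, (3 / 2 * (2 : ℝ) ^ i) ^ t / t.factorial * c t := by
    unfold cq tq
    push_cast
    rw [mul_sum]
    refine sum_le_sum fun t ht => ?_
    have e1 := choose_bd i h t hh
    have e2 := hb t (mem_range.1 ht)
    unfold En at e2
    have e3 : (h.choose t : ℝ) / (2 ^ s * 2 ^ t) = 1 / 2 ^ s * ((h.choose t : ℝ) / 2 ^ t) := by
      field_simp
    rw [e3, mul_assoc]
    refine mul_le_mul_of_nonneg_left ?_ (by positivity)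
    exact mul_le_mul e1 e2 (by positivity) (by positivity)
  refine h1.trans (mul_le_mul_of_nonneg_left ?_ (by positivity))
  exact sum_le_sum_of_subset_of_nonneg (range_subset_range.2 (by omega))
    fun t _ _ => mul_nonneg (by positivity) (hc t)

noncomputable def alp (i : ℕ) : ℝ :=
  (2 / 5) ^ (2 * i) + 3 / 2 * 2 ^ i * (2 / 5) ^ (2 * i) +
    (3 / 2 * 2 ^ i) ^ 2 / 2 * (869 / 10000) ^ i + (3 / 2 * 2 ^ i) ^ 3 / 6 * (2 / 5) ^ (4 * i) +
    (3 / 2 * 2 ^ i) ^ 4 * (2 / 5) ^ (5 * i) / 20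

lemma cNF_nonneg (i t : ℕ) : 0 ≤ cNF i t := by
  unfold cNF
  split_ifs <;> positivity

lemma cFU_nonneg (i s t : ℕ) : 0 ≤ cFU i s t := by
  unfold cFU
  split_ifs <;> positivity

theorem nf_pos {i h s L : ℕ} (hi : 12 ≤ i) (hh : h ≤ 3 * 2 ^ i) (hL : 2 * i ≤ 2 ^ s * L) :
    (cq h s L : ℝ) ≤ alp i := by
  have h1 := cq_le_sum i h s L 4 hh (cNF i) (cNF_nonneg i) fun t ht => cNF_bd i s L t ht hL
  have h2 : ∑ t ∈ range (4 + L), (3 / 2 * (2 : ℝ) ^ i) ^ t / t.factorial * cNF i t ≤ alp i := by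
    rw [sum_range_add]
    have e1 : ∀ j ∈ range L, (3 / 2 * (2 : ℝ) ^ i) ^ (4 + j) / (4 + j).factorial * cNF i (4 + j) =
        (3 / 2 * (2 : ℝ) ^ i) ^ (4 + j) / (4 + j).factorial * (2 / 5) ^ ((4 + j + 1) * i) := by
      intro j _
      unfold cNF
      rw [if_neg (by omega), if_neg (by omega), if_neg (by omega), if_neg (by omega)]
    rw [sum_congr rfl e1]
    have e2 := tail_bd i 4 L hi (by norm_num)
    have e3 : ∑ t ∈ range 4, (3 / 2 * (2 : ℝ) ^ i) ^ t / t.factorial * cNF i t =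
        (2 / 5) ^ (2 * i) + 3 / 2 * 2 ^ i * (2 / 5) ^ (2 * i) +
        (3 / 2 * 2 ^ i) ^ 2 / 2 * (869 / 10000) ^ i +
        (3 / 2 * 2 ^ i) ^ 3 / 6 * (2 / 5) ^ (4 * i) := by
      simp [sum_range_succ, cNF, Nat.factorial]
    rw [e3]
    unfold alp
    norm_num at e2 ⊢
    linarith
  have h3 : (1 : ℝ) / 2 ^ s ≤ 1 := by
    rw [div_le_one (by positivity)]
    exact one_le_pow₀ (by norm_num)
  calc (cq h s L : ℝ) ≤ 1 / 2 ^ s * ∑ t ∈ range (4 + L),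
        (3 / 2 * (2 : ℝ) ^ i) ^ t / t.factorial * cNF i t := h1
    _ ≤ 1 * ∑ t ∈ range (4 + L), (3 / 2 * (2 : ℝ) ^ i) ^ t / t.factorial * cNF i t := by
        refine mul_le_mul_of_nonneg_right h3 (sum_nonneg fun t _ => ?_)
        exact mul_nonneg (by positivity) (cNF_nonneg i t)
    _ ≤ alp i := by rw [one_mul]; exact h2

noncomputable def bet (i s : ℕ) : ℝ :=
  1 / 2 ^ s * ((2 / 5) ^ (i + 2 ^ s) + (1012 / 10000) ^ i + 3 / 2 * 2 ^ i * (2 / 5) ^ (2 * i) +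
    (3 / 2 * 2 ^ i) ^ 2 / 2 * ((2 / 5) ^ (3 * i) +
      (if 5 * i ≤ 8 * 2 ^ s then (1012 / 10000) ^ i else 0)) +
    (3 / 2 * 2 ^ i) ^ 3 / 6 * (472 / 10000) ^ i + (3 / 2 * 2 ^ i) ^ 4 / 24 * (2 / 5) ^ (4 * i) +
    (3 / 2 * 2 ^ i) ^ 5 * (2 / 5) ^ (6 * i) / 20)

theorem fu_pos {i h s L : ℕ} (hi : 12 ≤ i) (hh : h ≤ 3 * 2 ^ i)
    (hL : 10 * i ≤ 4 * 2 ^ s ∨ (2 ≤ L ∧ 5 * i ≤ 2 ^ s * (if L - 1 ≤ 3 then 4 * (L - 1) else 5 * (L - 1)))) :
    (cq h s L : ℝ) ≤ bet i s := by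
  have h1 := cq_le_sum i h s L 5 hh (cFU i s) (cFU_nonneg i s)
    fun t ht => cFU_bd i s L t (by omega) ht hL
  refine h1.trans ?_
  unfold bet
  refine mul_le_mul_of_nonneg_left ?_ (by positivity)
  rw [sum_range_add]
  have e1 : ∀ j ∈ range L, (3 / 2 * (2 : ℝ) ^ i) ^ (5 + j) / (5 + j).factorial * cFU i s (5 + j) =
      (3 / 2 * (2 : ℝ) ^ i) ^ (5 + j) / (5 + j).factorial * (2 / 5) ^ ((5 + j + 1) * i) := by
    intro j _
    unfold cFU
    rw [if_neg (by omega), if_neg (by omega), if_neg (by omega), if_neg (by omega),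
      if_neg (by omega)]
  rw [sum_congr rfl e1]
  have e2 := tail_bd i 5 L hi (by norm_num)
  have e3 : ∑ t ∈ range 5, (3 / 2 * (2 : ℝ) ^ i) ^ t / t.factorial * cFU i s t =
      (2 / 5) ^ (i + 2 ^ s) + (1012 / 10000) ^ i + 3 / 2 * 2 ^ i * (2 / 5) ^ (2 * i) +
      (3 / 2 * 2 ^ i) ^ 2 / 2 * ((2 / 5) ^ (3 * i) +
        (if 5 * i ≤ 8 * 2 ^ s then (1012 / 10000) ^ i else 0)) +
      (3 / 2 * 2 ^ i) ^ 3 / 6 * (472 / 10000) ^ i +
      (3 / 2 * 2 ^ i) ^ 4 / 24 * (2 / 5) ^ (4 * i) := by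
    simp [sum_range_succ, cFU, Nat.factorial]
  rw [e3]
  norm_num at e2 ⊢
  linarith

/-! ### The sum over `s` -/

lemma sum_half (n : ℕ) : ∑ s ∈ range n, (1 : ℝ) / 2 ^ s ≤ 2 := by
  have h : ∑ s ∈ range n, (1 : ℝ) / 2 ^ s = 2 - 2 / 2 ^ n := by
    induction n with
    | zero => norm_num
    | succ n ih =>
      rw [sum_range_succ, ih, pow_succ]
      field_simp
      ring
  rw [h]
  have : (0 : ℝ) < 2 / 2 ^ n := by positivity
  linarith

lemma sum_thr (a : ℝ) (ha : 0 < a) (n : ℕ) :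
    ∑ s ∈ range n, (if a ≤ 2 ^ s then (1 : ℝ) / 2 ^ s else 0) ≤ 2 / a := by
  have key : ∑ s ∈ range n, (if a ≤ 2 ^ s then (1 : ℝ) / 2 ^ s else 0) = 0 ∨
      ∑ s ∈ range n, (if a ≤ 2 ^ s then (1 : ℝ) / 2 ^ s else 0) ≤ 2 / a - 2 / 2 ^ n := by
    induction n with
    | zero => left; simp
    | succ n ih =>
      rw [sum_range_succ]
      have e1 : (2 : ℝ) / 2 ^ (n + 1) = 1 / 2 ^ n := by rw [pow_succ]; field_simp
      have e0 : (0 : ℝ) < 1 / 2 ^ n := by positivity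
      have e2 : (2 : ℝ) / 2 ^ n = 2 * (1 / 2 ^ n) := by ring
      by_cases h : a ≤ 2 ^ n
      · rw [if_pos h, e1]
        right
        have e3 : 1 / (2 : ℝ) ^ n ≤ 1 / a := one_div_le_one_div_of_le ha h
        have e4 : 2 / a = 2 * (1 / a) := by ring
        rcases ih with ih | ih
        · rw [ih, e4]; linarith
        · rw [e2] at ih; linarith
      · rw [if_neg h, add_zero, e1]
        rcases ih with ih | ih
        · left; exact ih
        · right; rw [e2] at ih; linarith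
  have h0 : (0 : ℝ) < 2 / a := by positivity
  have h1 : (0 : ℝ) < 2 / 2 ^ n := by positivity
  rcases key with h | h
  · rw [h]; exact h0.le
  · linarith

lemma sum_dbl (i n : ℕ) : ∑ s ∈ range n, (1 : ℝ) / 2 ^ s * (2 / 5) ^ (i + 2 ^ s) ≤
    1 / 2 * (2 / 5) ^ i := by
  have h : ∀ s ∈ range n, (1 : ℝ) / 2 ^ s * (2 / 5) ^ (i + 2 ^ s) ≤
      2 / 5 * (2 / 5) ^ i * (1 / 5) ^ s := by
    intro s _
    have h1 : s + 1 ≤ 2 ^ s := Nat.lt_two_pow_self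
    have h2 : ((2 : ℝ) / 5) ^ (i + 2 ^ s) ≤ (2 / 5) ^ (i + (s + 1)) :=
      pow_le_pow_of_le_one (by norm_num) (by norm_num) (by omega)
    calc (1 : ℝ) / 2 ^ s * (2 / 5) ^ (i + 2 ^ s) ≤ 1 / 2 ^ s * (2 / 5) ^ (i + (s + 1)) :=
          mul_le_mul_of_nonneg_left h2 (by positivity)
      _ = 2 / 5 * (2 / 5) ^ i * (1 / 5) ^ s := by
          rw [pow_add, pow_add, div_pow 2 5 s, div_pow 1 5 s, one_pow]
          field_simp
  refine (sum_le_sum h).trans ?_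
  rw [← mul_sum]
  have hgeo : ∑ s ∈ range n, ((1 : ℝ) / 5) ^ s ≤ 5 / 4 := by
    have e1 := geom_sum_mul_neg ((1 : ℝ) / 5) n
    have e2 : (0 : ℝ) ≤ (1 / 5) ^ n := by positivity
    linarith
  have h0 : (0 : ℝ) ≤ 2 / 5 * (2 / 5) ^ i := by positivity
  calc 2 / 5 * (2 / 5 : ℝ) ^ i * ∑ s ∈ range n, ((1 : ℝ) / 5) ^ s ≤
        2 / 5 * (2 / 5) ^ i * (5 / 4) := mul_le_mul_of_nonneg_left hgeo h0
    _ = _ := by ring

lemma sum_bet (i : ℕ) (hi : 12 ≤ i) : ∑ s ∈ range i, bet i s ≤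
    1 / 2 * (2 / 5) ^ i + 2 * (1012 / 10000) ^ i + 2 * (3 / 2 * 2 ^ i * (2 / 5) ^ (2 * i)) +
    2 * ((3 / 2 * 2 ^ i) ^ 2 / 2 * (2 / 5) ^ (3 * i)) +
    4 / 15 * ((3 / 2 * 2 ^ i) ^ 2 / 2 * (1012 / 10000) ^ i) +
    2 * ((3 / 2 * 2 ^ i) ^ 3 / 6 * (472 / 10000) ^ i) +
    2 * ((3 / 2 * 2 ^ i) ^ 4 / 24 * (2 / 5) ^ (4 * i)) +
    2 * ((3 / 2 * 2 ^ i) ^ 5 * (2 / 5) ^ (6 * i) / 20) := by
  have h1 : ∑ s ∈ range i, bet i s =
      ∑ s ∈ range i, (1 : ℝ) / 2 ^ s * (2 / 5) ^ (i + 2 ^ s) +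
      (∑ s ∈ range i, (1 : ℝ) / 2 ^ s) * ((1012 / 10000) ^ i + 3 / 2 * 2 ^ i * (2 / 5) ^ (2 * i) +
        (3 / 2 * 2 ^ i) ^ 2 / 2 * (2 / 5) ^ (3 * i) +
        (3 / 2 * 2 ^ i) ^ 3 / 6 * (472 / 10000) ^ i +
        (3 / 2 * 2 ^ i) ^ 4 / 24 * (2 / 5) ^ (4 * i) +
        (3 / 2 * 2 ^ i) ^ 5 * (2 / 5) ^ (6 * i) / 20) +
      (∑ s ∈ range i, (if (5 * i / 8 : ℝ) ≤ 2 ^ s then (1 : ℝ) / 2 ^ s else 0)) *
        ((3 / 2 * 2 ^ i) ^ 2 / 2 * (1012 / 10000) ^ i) := by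
    rw [sum_mul, sum_mul, ← sum_add_distrib, ← sum_add_distrib]
    refine sum_congr rfl fun s _ => ?_
    unfold bet
    by_cases h : 5 * i ≤ 8 * 2 ^ s
    · have h' : (5 * i / 8 : ℝ) ≤ 2 ^ s := by
        have : (5 * i : ℝ) ≤ 8 * 2 ^ s := by exact_mod_cast h
        linarith
      rw [if_pos h, if_pos h']
      ring
    · have h' : ¬ (5 * i / 8 : ℝ) ≤ 2 ^ s := by
        intro hcon
        apply h
        have : (5 * i : ℝ) ≤ 8 * 2 ^ s := by linarith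
        exact_mod_cast this
      rw [if_neg h, if_neg h']
      ring
  rw [h1]
  have hi' : (12 : ℝ) ≤ i := by exact_mod_cast hi
  have e1 := sum_dbl i i
  have e2 := sum_half i
  have e3 : ∑ s ∈ range i, (if (5 * i / 8 : ℝ) ≤ 2 ^ s then (1 : ℝ) / 2 ^ s else 0) ≤ 4 / 15 := by
    refine (sum_thr (5 * i / 8 : ℝ) (by positivity) i).trans ?_
    rw [div_le_iff₀ (by positivity)]
    linarith
  have e4 := mul_le_mul_of_nonneg_right e2 (show (0 : ℝ) ≤ (1012 / 10000) ^ i +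
    3 / 2 * 2 ^ i * (2 / 5) ^ (2 * i) + (3 / 2 * 2 ^ i) ^ 2 / 2 * (2 / 5) ^ (3 * i) +
    (3 / 2 * 2 ^ i) ^ 3 / 6 * (472 / 10000) ^ i +
    (3 / 2 * 2 ^ i) ^ 4 / 24 * (2 / 5) ^ (4 * i) +
    (3 / 2 * 2 ^ i) ^ 5 * (2 / 5) ^ (6 * i) / 20 by positivity)
  have e5 := mul_le_mul_of_nonneg_right e3 (show (0 : ℝ) ≤
    (3 / 2 * 2 ^ i) ^ 2 / 2 * (1012 / 10000) ^ i by positivity)
  linarith


lemma choose_mid (i : ℕ) (hi : 12 ≤ i) (w : ℕ) : 1024 * i.choose w ≤ 231 * 2 ^ i := by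
  induction i, hi using Nat.le_induction generalizing w with
  | base =>
    have h1 : Nat.choose 12 w ≤ Nat.choose 12 (12 / 2) := Nat.choose_le_middle w 12
    have h2 : Nat.choose 12 (12 / 2) = 924 := by decide +kernel
    rw [h2] at h1
    norm_num
    omega
  | succ n hn ih =>
    cases w with
    | zero =>
      have := ih 0
      rw [Nat.choose_zero_right] at this ⊢
      rw [pow_succ]
      omega
    | succ w =>
      rw [Nat.choose_succ_succ, pow_succ]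
      have h1 := ih w
      have h2 := ih (w + 1)
      rw [Nat.succ_eq_add_one] at *
      omega

lemma alp_bd (i : ℕ) (hi : 12 ≤ i) :
    2 ^ i * (alp i + 100 / 99 * (2 / 5) ^ (2 * i - 1)) ≤ 1 / 45 := by
  have e0 : ((2 : ℝ) / 5) ^ (2 * i - 1) = 5 / 2 * (2 / 5) ^ (2 * i) := by
    obtain ⟨j, hj⟩ : ∃ j, 2 * i = j + 1 := ⟨2 * i - 1, by omega⟩
    rw [hj, Nat.add_sub_cancel, pow_succ]
    ring
  have hpow : ∀ (a b c : ℝ) , (2 : ℝ) ^ i * (b ^ i * c ^ i) = (2 * b * c) ^ i := by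
    intro a b c
    rw [mul_pow, mul_pow]
    ring
  have key : 2 ^ i * (alp i + 100 / 99 * (2 / 5) ^ (2 * i - 1)) =
      (1 + 250 / 99) * (8 / 25) ^ i + 3 / 2 * (16 / 25) ^ i + 9 / 8 * (6952 / 10000) ^ i +
      9 / 16 * (256 / 625) ^ i + 81 / 320 * (1024 / 3125) ^ i := by
    unfold alp
    rw [e0]
    have a1 : ((2 : ℝ) / 5) ^ (2 * i) = (4 / 25) ^ i := by rw [pow_mul]; norm_num
    have a2 : ((2 : ℝ) / 5) ^ (4 * i) = (16 / 625) ^ i := by rw [pow_mul]; norm_num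
    have a3 : ((2 : ℝ) / 5) ^ (5 * i) = (32 / 3125) ^ i := by rw [pow_mul]; norm_num
    rw [a1, a2, a3]
    have b1 : ((8 : ℝ) / 25) ^ i = 2 ^ i * (4 / 25) ^ i := by rw [← mul_pow]; norm_num
    have b2 : ((16 : ℝ) / 25) ^ i = 2 ^ i * 2 ^ i * (4 / 25) ^ i := by
      rw [← mul_pow, ← mul_pow]; norm_num
    have b3 : ((6952 : ℝ) / 10000) ^ i = 2 ^ i * 2 ^ i * 2 ^ i * (869 / 10000) ^ i := by
      rw [← mul_pow, ← mul_pow, ← mul_pow]; norm_num
    have b4 : ((256 : ℝ) / 625) ^ i = 2 ^ i * 2 ^ i * 2 ^ i * 2 ^ i * (16 / 625) ^ i := by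
      rw [← mul_pow, ← mul_pow, ← mul_pow, ← mul_pow]; norm_num
    have b5 : ((1024 : ℝ) / 3125) ^ i = 2 ^ i * 2 ^ i * 2 ^ i * 2 ^ i * 2 ^ i * (32 / 3125) ^ i := by
      rw [← mul_pow, ← mul_pow, ← mul_pow, ← mul_pow, ← mul_pow]; norm_num
    rw [b1, b2, b3, b4, b5]
    ring
  rw [key]
  have c1 : ((8 : ℝ) / 25) ^ i ≤ (8 / 25) ^ 12 :=
    pow_le_pow_of_le_one (by norm_num) (by norm_num) hi
  have c2 : ((16 : ℝ) / 25) ^ i ≤ (16 / 25) ^ 12 :=
    pow_le_pow_of_le_one (by norm_num) (by norm_num) hi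
  have c3 : ((6952 : ℝ) / 10000) ^ i ≤ (6952 / 10000) ^ 12 :=
    pow_le_pow_of_le_one (by norm_num) (by norm_num) hi
  have c4 : ((256 : ℝ) / 625) ^ i ≤ (256 / 625) ^ 12 :=
    pow_le_pow_of_le_one (by norm_num) (by norm_num) hi
  have c5 : ((1024 : ℝ) / 3125) ^ i ≤ (1024 / 3125) ^ 12 :=
    pow_le_pow_of_le_one (by norm_num) (by norm_num) hi
  norm_num at c1 c2 c3 c4 c5 ⊢
  linarith

lemma bet_bd (i : ℕ) (hi : 12 ≤ i) :
    231 / 1024 * 2 ^ i * ∑ s ∈ range i, bet i s ≤ 7 / 200 := by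
  refine (mul_le_mul_of_nonneg_left (sum_bet i hi) (by positivity)).trans ?_
  have key : 231 / 1024 * (2 : ℝ) ^ i * (1 / 2 * (2 / 5) ^ i + 2 * (1012 / 10000) ^ i +
      2 * (3 / 2 * 2 ^ i * (2 / 5) ^ (2 * i)) +
      2 * ((3 / 2 * 2 ^ i) ^ 2 / 2 * (2 / 5) ^ (3 * i)) +
      4 / 15 * ((3 / 2 * 2 ^ i) ^ 2 / 2 * (1012 / 10000) ^ i) +
      2 * ((3 / 2 * 2 ^ i) ^ 3 / 6 * (472 / 10000) ^ i) +
      2 * ((3 / 2 * 2 ^ i) ^ 4 / 24 * (2 / 5) ^ (4 * i)) +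
      2 * ((3 / 2 * 2 ^ i) ^ 5 * (2 / 5) ^ (6 * i) / 20)) =
      231 / 1024 * (1 / 2 * (4 / 5) ^ i + 2 * (2024 / 10000) ^ i + 3 * (16 / 25) ^ i +
        9 / 4 * (64 / 125) ^ i + 3 / 10 * (8096 / 10000) ^ i + 9 / 8 * (7552 / 10000) ^ i +
        27 / 64 * (512 / 625) ^ i + 243 / 320 * (4096 / 15625) ^ i) := by
    have a1 : ((2 : ℝ) / 5) ^ (2 * i) = (4 / 25) ^ i := by rw [pow_mul]; norm_num
    have a2 : ((2 : ℝ) / 5) ^ (3 * i) = (8 / 125) ^ i := by rw [pow_mul]; norm_num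
    have a3 : ((2 : ℝ) / 5) ^ (4 * i) = (16 / 625) ^ i := by rw [pow_mul]; norm_num
    have a4 : ((2 : ℝ) / 5) ^ (6 * i) = (64 / 15625) ^ i := by rw [pow_mul]; norm_num
    rw [a1, a2, a3, a4]
    have b1 : ((4 : ℝ) / 5) ^ i = 2 ^ i * (2 / 5) ^ i := by rw [← mul_pow]; norm_num
    have b2 : ((2024 : ℝ) / 10000) ^ i = 2 ^ i * (1012 / 10000) ^ i := by
      rw [← mul_pow]; norm_num
    have b3 : ((16 : ℝ) / 25) ^ i = 2 ^ i * 2 ^ i * (4 / 25) ^ i := by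
      rw [← mul_pow, ← mul_pow]; norm_num
    have b4 : ((64 : ℝ) / 125) ^ i = 2 ^ i * 2 ^ i * 2 ^ i * (8 / 125) ^ i := by
      rw [← mul_pow, ← mul_pow, ← mul_pow]; norm_num
    have b5 : ((8096 : ℝ) / 10000) ^ i = 2 ^ i * 2 ^ i * 2 ^ i * (1012 / 10000) ^ i := by
      rw [← mul_pow, ← mul_pow, ← mul_pow]; norm_num
    have b6 : ((7552 : ℝ) / 10000) ^ i = 2 ^ i * 2 ^ i * 2 ^ i * 2 ^ i * (472 / 10000) ^ i := by
      rw [← mul_pow, ← mul_pow, ← mul_pow, ← mul_pow]; norm_num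
    have b7 : ((512 : ℝ) / 625) ^ i = 2 ^ i * 2 ^ i * 2 ^ i * 2 ^ i * 2 ^ i * (16 / 625) ^ i := by
      rw [← mul_pow, ← mul_pow, ← mul_pow, ← mul_pow, ← mul_pow]; norm_num
    have b8 : ((4096 : ℝ) / 15625) ^ i =
        2 ^ i * 2 ^ i * 2 ^ i * 2 ^ i * 2 ^ i * 2 ^ i * (64 / 15625) ^ i := by
      rw [← mul_pow, ← mul_pow, ← mul_pow, ← mul_pow, ← mul_pow, ← mul_pow]; norm_num
    rw [b1, b2, b3, b4, b5, b6, b7, b8]
    ring
  rw [key]
  have c1 : ((4 : ℝ) / 5) ^ i ≤ (4 / 5) ^ 12 :=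
    pow_le_pow_of_le_one (by norm_num) (by norm_num) hi
  have c2 : ((2024 : ℝ) / 10000) ^ i ≤ (2024 / 10000) ^ 12 :=
    pow_le_pow_of_le_one (by norm_num) (by norm_num) hi
  have c3 : ((16 : ℝ) / 25) ^ i ≤ (16 / 25) ^ 12 :=
    pow_le_pow_of_le_one (by norm_num) (by norm_num) hi
  have c4 : ((64 : ℝ) / 125) ^ i ≤ (64 / 125) ^ 12 :=
    pow_le_pow_of_le_one (by norm_num) (by norm_num) hi
  have c5 : ((8096 : ℝ) / 10000) ^ i ≤ (8096 / 10000) ^ 12 :=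
    pow_le_pow_of_le_one (by norm_num) (by norm_num) hi
  have c6 : ((7552 : ℝ) / 10000) ^ i ≤ (7552 / 10000) ^ 12 :=
    pow_le_pow_of_le_one (by norm_num) (by norm_num) hi
  have c7 : ((512 : ℝ) / 625) ^ i ≤ (512 / 625) ^ 12 :=
    pow_le_pow_of_le_one (by norm_num) (by norm_num) hi
  have c8 : ((4096 : ℝ) / 15625) ^ i ≤ (4096 / 15625) ^ 12 :=
    pow_le_pow_of_le_one (by norm_num) (by norm_num) hi
  norm_num at c1 c2 c3 c4 c5 c6 c7 c8 ⊢
  linarith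

lemma bet_nonneg (i s : ℕ) : 0 ≤ bet i s := by
  unfold bet
  split_ifs <;> positivity

end I12

open I12

/-- **The numeric theorem for `i ≥ 12`.** -/
theorem num_total12 {i k m h : ℕ} {n : ℕ → ℕ} (hi : 12 ≤ i) (hk : 1 ≤ k)
    (hn : ∀ w, n w ≤ i.choose w) (hnm : ∑ w ∈ range (i + 1 - k), n w + m ≤ 2 ^ i)
    (hh : h ≤ 3 * m) :
    ∃ (α : ℝ) (β : ℕ → ℝ), NF i h α ∧ (∀ w < i + 1 - k, FU i (i - k - w) h (β w)) ∧
      (m + 1) * α + ∑ w ∈ range (i + 1 - k), n w * β w ≤ 1 - 11 / 12 := by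
  have hm : m ≤ 2 ^ i := by omega
  have hh' : h ≤ 3 * 2 ^ i := hh.trans (Nat.mul_le_mul_left _ hm)
  have ha0 : 0 ≤ alp i := by unfold alp; positivity
  have hgg : gg i = 5 * i := by unfold gg; rw [if_neg (by omega)]
  have hgg1 : gg 1 = 4 := rfl
  refine ⟨alp i + 100 / 99 * (2 / 5) ^ (2 * i - 1), fun w => bet i (i - k - w), ?_, ?_, ?_⟩
  · intro z L hL
    rcases Int.eq_nat_or_neg z with ⟨r, rfl | rfl⟩
    · obtain ⟨h1, h2, -⟩ := minNF_nat hL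
      refine ⟨fun _ => 1, fun t ht => ⟨le_rfl, by show 1 ≤ L - t; omega⟩, ?_⟩
      rw [zpow_natCast]
      have e1 := cellc_le_cq h r L
      have e2 := nf_pos hi hh' h2
      have e3 : (0 : ℝ) ≤ 100 / 99 * (2 / 5) ^ (2 * i - 1) := by positivity
      linarith
    · rcases Nat.eq_zero_or_pos r with rfl | hr
      · have hL' : MinNF i ((0 : ℕ) : ℤ) L := by simpa using hL
        obtain ⟨h1, h2, -⟩ := minNF_nat hL'
        refine ⟨fun _ => 1, fun t ht => ⟨le_rfl, by show 1 ≤ L - t; omega⟩, ?_⟩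
        have e1 := cellc_le_cq h 0 L
        have e2 := nf_pos hi hh' h2
        have e3 : (0 : ℝ) ≤ 100 / 99 * (2 / 5) ^ (2 * i - 1) := by positivity
        have e4 : ((2 : ℝ) ^ (-((0 : ℕ) : ℤ))) = 2 ^ 0 := by norm_num
        rw [e4]
        linarith
      · obtain ⟨ρ, h1, h2⟩ := nf_neg (by omega) hr hh' hL
        exact ⟨ρ, h1, by linarith⟩
  · intro w hw L hL
    refine (cellc_le_cq h _ L).trans (fu_pos hi hh' ?_)
    obtain ⟨⟨h1, h2⟩, -⟩ := hL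
    rw [hgg, hgg1] at h2
    rcases h2 with h2 | ⟨h2, h3⟩
    · left; omega
    · right
      refine ⟨h2, ?_⟩
      unfold gg at h3
      exact h3
  · have e1 := alp_bd i hi
    have e2 := bet_bd i hi
    have e3 : ((m : ℝ) + 1) * (alp i + 100 / 99 * (2 / 5) ^ (2 * i - 1)) ≤
        (1 + 1 / 4096) * (2 ^ i * (alp i + 100 / 99 * (2 / 5) ^ (2 * i - 1))) := by
      rw [← mul_assoc]
      refine mul_le_mul_of_nonneg_right ?_ (by positivity)
      have h1 : (m : ℝ) ≤ 2 ^ i := by exact_mod_cast hm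
      have h2 : (4096 : ℝ) ≤ 2 ^ i := by
        calc (4096 : ℝ) = 2 ^ 12 := by norm_num
          _ ≤ 2 ^ i := pow_le_pow_right₀ (by norm_num) hi
      linarith
    have e4 : ∑ w ∈ range (i + 1 - k), (n w : ℝ) * bet i (i - k - w) ≤
        231 / 1024 * 2 ^ i * ∑ s ∈ range i, bet i s := by
      have f1 : ∑ w ∈ range (i + 1 - k), (n w : ℝ) * bet i (i - k - w) ≤
          ∑ w ∈ range (i + 1 - k), 231 / 1024 * 2 ^ i * bet i (i - k - w) := by
        refine sum_le_sum fun w _ => mul_le_mul_of_nonneg_right ?_ (bet_nonneg _ _)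
        have g1 : 1024 * n w ≤ 231 * 2 ^ i :=
          (Nat.mul_le_mul_left _ (hn w)).trans (choose_mid i hi w)
        have g2 : (1024 : ℝ) * n w ≤ 231 * 2 ^ i := by exact_mod_cast g1
        linarith
      refine f1.trans ?_
      rw [← mul_sum]
      refine mul_le_mul_of_nonneg_left ?_ (by positivity)
      by_cases hki : k ≤ i
      · have f2 : ∑ w ∈ range (i + 1 - k), bet i (i - k - w) = ∑ w ∈ range (i + 1 - k), bet i w := by
          rw [← sum_range_reflect]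
          refine sum_congr rfl fun w hw => ?_
          have := mem_range.1 hw
          congr 1
          omega
        rw [f2]
        exact sum_le_sum_of_subset_of_nonneg (range_subset_range.2 (by omega))
          fun _ _ _ => bet_nonneg _ _
      · rw [show i + 1 - k = 0 by omega, range_zero, sum_empty]
        exact sum_nonneg fun _ _ => bet_nonneg _ _
    have e5 : (0 : ℝ) ≤ 2 ^ i * (alp i + 100 / 99 * (2 / 5) ^ (2 * i - 1)) := by positivity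
    show ((m : ℝ) + 1) * (alp i + 100 / 99 * (2 / 5) ^ (2 * i - 1)) +
      ∑ w ∈ range (i + 1 - k), (n w : ℝ) * bet i (i - k - w) ≤ 1 - 11 / 12
    linarith

end Pool.Agent.Lib.MP_5e7226_co.UncM
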