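import Pool.Agent.Lib.MP_5e7226_co.UncM1

/-! UncM6 (helper76): the case `i = 6` of the numeric theorem. -/

set_option autoImplicit false

namespace Pool.Agent.Lib.MP_5e7226_co.UncM

open Finset

/-- Integer form of the rational cost, exponents capped at `c`, scaled by `5 ^ c`. -/
def cn (c h z L : ℕ) : ℕ :=
  ∑ t ∈ range L, (h.descFactorial t / t.factorial) *
    (2 ^ (min (2 ^ (z + t) * (L - t)) c - (z + t)) * 5 ^ (c - min (2 ^ (z + t) * (L - t)) c))

lemma cellc_le_cn {c h h' z L : ℕ} (hh : h ≤ h') (hc : z + L ≤ c) :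
    cellc (11 / 12) ((2 : ℝ) ^ z) h L (fun _ => 1) ≤ (cn c h' z L : ℝ) / 5 ^ c := by
  unfold cellc cn
  push_cast
  rw [sum_div]
  apply sum_le_sum
  intro t ht
  have htL := mem_range.1 ht
  set e := 2 ^ (z + t) * (L - t) with he
  set e' := min e c with he'
  have h1 : z + t < 2 ^ (z + t) := Nat.lt_two_pow_self
  have h2 : z + t ≤ e' := by
    apply le_min
    · calc z + t ≤ 2 ^ (z + t) * 1 := by omega
        _ ≤ 2 ^ (z + t) * (L - t) := Nat.mul_le_mul_left _ (by omega)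
    · omega
  have h3 : e' ≤ c := min_le_right _ _
  have h4 : e' ≤ e := min_le_left _ _
  have hch : (h.choose t : ℝ) ≤ ((h'.descFactorial t / t.factorial : ℕ) : ℝ) := by
    rw [← Nat.choose_eq_descFactorial_div_factorial]
    exact_mod_cast Nat.choose_le_choose t hh
  have hexp : Real.exp (-(11 / 12 * (2 ^ z * 2 ^ t) * (((L - t - 1 : ℕ) : ℝ) + 1))) ≤
      (2 / 5) ^ e' := by
    have h5 : (((L - t - 1 : ℕ) : ℝ) + 1) = ((L - t : ℕ) : ℝ) := by
      have h0 : L - t - 1 + 1 = L - t := by omega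
      exact_mod_cast h0
    rw [h5, show (11 / 12 : ℝ) * (2 ^ z * 2 ^ t) * ((L - t : ℕ) : ℝ) =
      11 / 12 * (2 ^ z * 2 ^ t * ((L - t : ℕ) : ℝ)) by ring]
    refine (exp_q (n := e) ?_).trans (pow_le_pow_of_le_one (by norm_num) (by norm_num) h4)
    rw [he]
    push_cast
    rw [pow_add]
  rw [mul_one]
  have h6 : ((2 : ℝ) / 5) ^ e' / (2 ^ z * 2 ^ t) = (2 ^ (e' - (z + t)) * 5 ^ (c - e')) / 5 ^ c := by
    rw [div_pow, div_div, div_eq_div_iff (by positivity) (by positivity)]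
    have e1 : (2 : ℝ) ^ e' = 2 ^ (e' - (z + t)) * (2 ^ z * 2 ^ t) := by
      rw [← pow_add, ← pow_add]
      congr 1
      omega
    have e2 : (5 : ℝ) ^ c = 5 ^ (c - e') * 5 ^ e' := by
      rw [← pow_add]
      congr 1
      omega
    rw [e1, e2]
    ring
  calc (h.choose t : ℝ) / (2 ^ z * 2 ^ t) *
        Real.exp (-(11 / 12 * (2 ^ z * 2 ^ t) * (((L - t - 1 : ℕ) : ℝ) + 1)))
      ≤ ((h'.descFactorial t / t.factorial : ℕ) : ℝ) / (2 ^ z * 2 ^ t) * (2 / 5) ^ e' := by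
        gcongr
    _ = ((h'.descFactorial t / t.factorial : ℕ) : ℝ) * ((2 / 5) ^ e' / (2 ^ z * 2 ^ t)) := by ring
    _ = ((h'.descFactorial t / t.factorial : ℕ) : ℝ) *
        (2 ^ (e' - (z + t)) * 5 ^ (c - e')) / 5 ^ c := by
        rw [h6]
        ring
    _ = _ := by ring

/-- `z ≥ 0` with `L = 1`. -/
lemma cellc_one {h z z₀ : ℕ} (hz : z₀ ≤ z) :
    cellc (11 / 12) ((2 : ℝ) ^ z) h 1 (fun _ => 1) ≤ cellc (11 / 12) ((2 : ℝ) ^ z₀) h 1 (fun _ => 1) := by
  unfold cellc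
  rw [sum_range_one, sum_range_one]
  have h1 : (2 : ℝ) ^ z₀ ≤ 2 ^ z := pow_le_pow_right₀ (by norm_num) hz
  have h0 : (0 : ℝ) < 2 ^ z₀ := by positivity
  have hexp : Real.exp (-(11 / 12 * (2 ^ z * 2 ^ 0) * (((1 - 0 - 1 + 1 : ℕ)) : ℝ))) ≤
      Real.exp (-(11 / 12 * (2 ^ z₀ * 2 ^ 0) * (((1 - 0 - 1 + 1 : ℕ)) : ℝ))) := by
    apply Real.exp_le_exp.2
    norm_num
    linarith
  have hden : (h.choose 0 : ℝ) / (2 ^ z * 2 ^ 0 * ((1 : ℕ) : ℝ)) ≤
      (h.choose 0 : ℝ) / (2 ^ z₀ * 2 ^ 0 * ((1 : ℕ) : ℝ)) := by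
    apply div_le_div_of_nonneg_left (by positivity) (by positivity)
    norm_num
    exact h1
  exact mul_le_mul hden hexp (Real.exp_pos _).le (by positivity)

/-! ### `i = 6` -/

def c6 : ℕ := 100 * (2 ^ 11 * 5 ^ 89) / 99 + 1

def an6 (m : ℕ) : ℕ :=
  max (cn 100 (3 * m) 0 12) (max (cn 100 (3 * m) 1 6) (max (cn 100 (3 * m) 2 3)
    (max (cn 100 (3 * m) 3 2) (max (cn 100 (3 * m) 4 1) c6))))

/-- The minimal `L` of a full set, `i = 6`. -/
def lf6 (s : ℕ) : ℕ := if s = 0 then 7 else if s = 1 then 5 else if s = 2 then 3 else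
  if s = 3 then 2 else 1

def bn6 (m s : ℕ) : ℕ := cn 100 (3 * m) s (lf6 s)

lemma nf6 {m h : ℕ} (hh : h ≤ 3 * m) (hh' : h ≤ 3 * 2 ^ 6) :
    NF 6 h ((an6 m : ℝ) / 5 ^ 100) := by
  have h5 : (0 : ℝ) < 5 ^ 100 := by positivity
  have hle : ∀ x : ℕ, x ≤ an6 m → (x : ℝ) / 5 ^ 100 ≤ (an6 m : ℝ) / 5 ^ 100 := by
    intro x hx
    have : (x : ℝ) ≤ an6 m := by exact_mod_cast hx
    gcongr
  intro z L hL
  rcases lt_or_ge z 0 with hz | hz
  · obtain ⟨r, rfl⟩ : ∃ r : ℕ, z = -(r : ℤ) := ⟨z.natAbs, by omega⟩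
    have hr : 1 ≤ r := by omega
    obtain ⟨ρ, h1, h2⟩ := nf_neg (le_refl 6) hr hh' hL
    refine ⟨ρ, h1, h2.trans ?_⟩
    have h3 : c6 ≤ an6 m := by
      unfold an6
      simp only [le_max_iff, le_refl, or_true]
    refine le_trans ?_ (hle c6 h3)
    rw [le_div_iff₀ h5]
    have h4 : 100 * (2 ^ 11 * 5 ^ 89) ≤ 99 * c6 := by
      unfold c6
      decide +kernel
    have h6 : (100 * (2 ^ 11 * 5 ^ 89) : ℝ) ≤ 99 * c6 := by exact_mod_cast h4
    have h7 : (100 / 99 * (2 / 5) ^ (2 * 6 - 1) * 5 ^ 100 : ℝ) = 100 * (2 ^ 11 * 5 ^ 89) / 99 := by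
      norm_num
    rw [h7, div_le_iff₀ (by norm_num)]
    linarith
  · obtain ⟨n, rfl⟩ : ∃ n : ℕ, z = (n : ℤ) := ⟨z.toNat, by omega⟩
    refine ⟨fun _ => 1, fun t ht => ⟨le_refl _, by show 1 ≤ L - t; omega⟩, ?_⟩
    rw [zpow_natCast]
    obtain ⟨h1, h2, h3⟩ := minNF_nat hL
    have hcases : n = 0 ∨ n = 1 ∨ n = 2 ∨ n = 3 ∨ 4 ≤ n := by omega
    rcases hcases with rfl | rfl | rfl | rfl | hn
    · have : L = 12 := by omega
      subst this
      refine (cellc_le_cn (c := 100) hh (by norm_num)).trans (hle _ ?_)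
      unfold an6
      simp only [le_max_iff, le_refl, true_or]
    · have : L = 6 := by omega
      subst this
      refine (cellc_le_cn (c := 100) hh (by norm_num)).trans (hle _ ?_)
      unfold an6
      simp only [le_max_iff, le_refl, true_or, or_true]
    · have : L = 3 := by omega
      subst this
      refine (cellc_le_cn (c := 100) hh (by norm_num)).trans (hle _ ?_)
      unfold an6
      simp only [le_max_iff, le_refl, true_or, or_true]
    · have : L = 2 := by omega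
      subst this
      refine (cellc_le_cn (c := 100) hh (by norm_num)).trans (hle _ ?_)
      unfold an6
      simp only [le_max_iff, le_refl, true_or, or_true]
    · have h4 : 16 ≤ 2 ^ n := by
        calc 16 = 2 ^ 4 := by norm_num
          _ ≤ 2 ^ n := Nat.pow_le_pow_right (by norm_num) hn
      have : L = 1 := by
        rcases h3 with h3 | h3
        · exact h3
        · by_contra hcon
          have : 1 ≤ L - 1 := by omega
          have := Nat.mul_le_mul h4 this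
          omega
      subst this
      refine (cellc_one hn).trans ((cellc_le_cn (c := 100) hh (by norm_num)).trans (hle _ ?_))
      unfold an6
      simp only [le_max_iff, le_refl, true_or, or_true]

lemma cfu6 : ∀ s < 6, CFU 6 s (lf6 s) ∧ ∀ L < lf6 s, ¬ CFU 6 s L := by
  unfold CFU
  decide +kernel

lemma fu6 {m h s : ℕ} (hh : h ≤ 3 * m) (hs : s < 6) : FU 6 s h ((bn6 m s : ℝ) / 5 ^ 100) := by
  intro L hL
  obtain ⟨h1, h2⟩ := hL
  obtain ⟨h3, h4⟩ := cfu6 s hs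
  have h5 : L = lf6 s := by
    apply le_antisymm (h2 _ h3)
    by_contra hcon
    push Not at hcon
    exact h4 L hcon h1
  subst h5
  refine cellc_le_cn hh ?_
  unfold lf6
  split_ifs <;> omega

/-- The finite check. -/
def chk6 (m k : ℕ) : Prop :=
  12 * ((m + 1) * an6 m + min (Nat.choose 6 (6 - k)) (64 - m) * bn6 m 0 +
    ∑ w ∈ range (6 - k), Nat.choose 6 w * bn6 m (6 - k - w)) ≤ 5 ^ 100

instance (m k : ℕ) : Decidable (chk6 m k) := by unfold chk6; infer_instance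

lemma chk6_all : ∀ m < 65, ∀ k < 7, 1 ≤ k → chk6 m k := by decide +kernel

lemma chk6_a : ∀ m < 65, 12 * ((m + 1) * an6 m) ≤ 5 ^ 100 := by decide +kernel

theorem num_total6 {k m h : ℕ} {n : ℕ → ℕ} (hk : 1 ≤ k) (hn : ∀ w, n w ≤ (6 : ℕ).choose w)
    (hnm : ∑ w ∈ range (6 + 1 - k), n w + m ≤ 2 ^ 6) (hh : h ≤ 3 * m) :
    ∃ (α : ℝ) (β : ℕ → ℝ), NF 6 h α ∧ (∀ w < 6 + 1 - k, FU 6 (6 - k - w) h (β w)) ∧
      (m + 1) * α + ∑ w ∈ range (6 + 1 - k), (n w : ℝ) * β w ≤ 1 / 12 := by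
  have hm : m < 65 := by
    have : (2 : ℕ) ^ 6 = 64 := by norm_num
    omega
  have hh' : h ≤ 3 * 2 ^ 6 := by
    have : (2 : ℕ) ^ 6 = 64 := by norm_num
    omega
  refine ⟨(an6 m : ℝ) / 5 ^ 100, fun w => (bn6 m (6 - k - w) : ℝ) / 5 ^ 100, nf6 hh hh', ?_, ?_⟩
  · intro w hw
    exact fu6 hh (by omega)
  · have h5 : (0 : ℝ) < 5 ^ 100 := by positivity
    have key : 12 * ((m + 1) * an6 m + ∑ w ∈ range (6 + 1 - k), n w * bn6 m (6 - k - w)) ≤
        5 ^ 100 := by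
      by_cases hk7 : k < 7
      · refine le_trans ?_ (chk6_all m hm k hk7 hk)
        have e1 : 6 + 1 - k = (6 - k) + 1 := by omega
        rw [e1, sum_range_succ] at hnm ⊢
        have h1 : ∑ w ∈ range (6 - k), n w * bn6 m (6 - k - w) ≤
            ∑ w ∈ range (6 - k), Nat.choose 6 w * bn6 m (6 - k - w) :=
          sum_le_sum fun w _ => Nat.mul_le_mul_right _ (hn w)
        have h2 : n (6 - k) ≤ min (Nat.choose 6 (6 - k)) (64 - m) := by
          apply le_min (hn _)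
          have : (2 : ℕ) ^ 6 = 64 := by norm_num
          omega
        have h3 : n (6 - k) * bn6 m (6 - k - (6 - k)) ≤
            min (Nat.choose 6 (6 - k)) (64 - m) * bn6 m 0 := by
          rw [Nat.sub_self]
          exact Nat.mul_le_mul_right _ h2
        apply Nat.mul_le_mul_left
        omega
      · have e1 : 6 + 1 - k = 0 := by omega
        rw [e1, range_zero, sum_empty, add_zero]
        exact chk6_a m hm
    have key' : (12 : ℝ) * ((m + 1) * an6 m + ∑ w ∈ range (6 + 1 - k), (n w : ℝ) *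
        bn6 m (6 - k - w)) ≤ 5 ^ 100 := by exact_mod_cast key
    have e2 : ((m : ℝ) + 1) * ((an6 m : ℝ) / 5 ^ 100) + ∑ w ∈ range (6 + 1 - k), (n w : ℝ) *
        ((bn6 m (6 - k - w) : ℝ) / 5 ^ 100) = ((m + 1) * an6 m + ∑ w ∈ range (6 + 1 - k),
          (n w : ℝ) * bn6 m (6 - k - w)) / 5 ^ 100 := by
      rw [add_div, sum_div]
      congr 1
      · ring
      · apply sum_congr rfl
        intro w _
        ring
    rw [e2, div_le_div_iff₀ h5 (by norm_num)]
    linarith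

end Pool.Agent.Lib.MP_5e7226_co.UncM
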