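import Pool.Agent.Lib.MP_5e7226_co.UncM1

/-! UncM7 (helper25): the numeric part of `shat_six` for `7 ≤ i ≤ 11`. -/

set_option autoImplicit false

namespace Pool.Agent.Lib.MP_5e7226_co.UncM

open Finset

namespace I7

/-- The exponent is capped at `300`, `C(h,t)` is replaced by `h ^ t / t!`, `h = 3 * 2 ^ i`. -/
def tc (i z L t : ℕ) : ℚ :=
  ((3 * 2 ^ i : ℕ) : ℚ) ^ t / (t.factorial : ℚ) / (2 ^ z * 2 ^ t) *
    (2 / 5) ^ (min (2 ^ z * 2 ^ t * (L - t)) 300)

def cc (i z L : ℕ) : ℚ := ∑ t ∈ range L, tc i z L t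

lemma tc_nonneg (i z L t : ℕ) : 0 ≤ tc i z L t := by
  unfold tc
  positivity

lemma cc_nonneg (i z L : ℕ) : 0 ≤ cc i z L := sum_nonneg fun _ _ => tc_nonneg _ _ _ _

lemma cq_le_cc {h i : ℕ} (hh : h ≤ 3 * 2 ^ i) (z L : ℕ) : cq h z L ≤ cc i z L := by
  refine (cq_mono hh z L).trans ?_
  unfold cq cc tq tc
  apply sum_le_sum
  intro t _
  have h1 : (((3 * 2 ^ i : ℕ).choose t : ℕ) : ℚ) ≤ ((3 * 2 ^ i : ℕ) : ℚ) ^ t / (t.factorial : ℚ) :=
    Nat.choose_le_pow_div t (3 * 2 ^ i)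
  have h2 : ((2 : ℚ) / 5) ^ (2 ^ z * 2 ^ t * (L - t)) ≤
      (2 / 5) ^ (min (2 ^ z * 2 ^ t * (L - t)) 300) :=
    pow_le_pow_of_le_one (by norm_num) (by norm_num) (min_le_left _ _)
  have h3 : (0 : ℚ) < 2 ^ z * 2 ^ t := by positivity
  exact mul_le_mul ((div_le_div_iff_of_pos_right h3).2 h1) h2 (by positivity) (by positivity)

lemma cellc_le_cc {h i : ℕ} (hh : h ≤ 3 * 2 ^ i) (z L : ℕ) :
    cellc (11 / 12) ((2 : ℝ) ^ z) h L (fun _ => 1) ≤ (cc i z L : ℝ) :=
  (cellc_le_cq h z L).trans (by exact_mod_cast cq_le_cc hh z L)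

/-- The value of `L` in the nonfull case for `z ≥ 0`. -/
def Ln (i z : ℕ) : ℕ := (2 * i + 2 ^ z - 1) / 2 ^ z

lemma Ln_eq {i n L : ℕ} (hi : 1 ≤ i) (h : MinNF i (n : ℤ) L) : L = Ln i n := by
  obtain ⟨h1, h2, h3⟩ := minNF_nat h
  have hp : 0 < 2 ^ n := by positivity
  obtain ⟨j, rfl⟩ : ∃ j, L = j + 1 := ⟨L - 1, by omega⟩
  have h4 : 2 ^ n * j < 2 * i := by
    rcases h3 with h3 | h3
    · have : j = 0 := by omega
      subst this
      omega
    · simpa using h3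
  have h5 : 2 ^ n * (j + 1) = 2 ^ n * j + 2 ^ n := by ring
  rw [h5] at h2
  unfold Ln
  symm
  apply Nat.div_eq_of_lt_le
  · have : (j + 1) * 2 ^ n = 2 ^ n * j + 2 ^ n := by ring
    rw [this]
    omega
  · have : (j + 1 + 1) * 2 ^ n = 2 ^ n * j + 2 ^ n + 2 ^ n := by ring
    rw [this]
    omega

/-- The value of `L` in the full case. -/
def Lf (i s : ℕ) : ℕ :=
  if s = 0 then i + 1
  else if s = 1 then (if i ≤ 8 then 5 else if i ≤ 10 then 6 else 7)
  else if s = 2 then (if i ≤ 9 then 4 else 5)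
  else if s = 3 then 3
  else if s = 4 then 2
  else 1

local instance decCFU (i s L : ℕ) : Decidable (CFU i s L) := by
  unfold CFU
  infer_instance

lemma Lf_check : ∀ i ∈ [7, 8, 9, 10, 11], ∀ s ∈ [0, 1, 2, 3, 4],
    CFU i s (Lf i s) ∧ ∀ L' < Lf i s, ¬ CFU i s L' := by decide +kernel

lemma Lf_eq {i s L : ℕ} (hi : 7 ≤ i) (hi' : i ≤ 11) (h : MinFU i s L) : L = Lf i s := by
  by_cases hs : s ≤ 4
  · have h1 := Lf_check i (by simp; omega) s (by simp; omega)
    have h2 := h.2 _ h1.1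
    by_contra hne
    exact h1.2 L (by omega) h.1
  · have h1 : CFU i s 1 := by
      refine ⟨le_rfl, Or.inl ?_⟩
      have h2 : 2 ^ 5 ≤ 2 ^ s := Nat.pow_le_pow_right (by norm_num) (by omega)
      have h3 : gg i = 5 * i := if_neg (by omega)
      have h4 : gg 1 = 4 := rfl
      rw [h3, h4]
      omega
    have h2 := h.2 _ h1
    have h3 := h.1.1
    have h4 : Lf i s = 1 := by
      unfold Lf
      rw [if_neg (by omega), if_neg (by omega), if_neg (by omega), if_neg (by omega),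
        if_neg (by omega)]
    omega

/-- `α` for `7 ≤ i ≤ 11`. -/
def al (i : ℕ) : ℚ :=
  cc i 0 (Ln i 0) + cc i 1 (Ln i 1) + cc i 2 (Ln i 2) + cc i 3 (Ln i 3) + cc i 4 (Ln i 4) +
    (2 / 5) ^ 32 + 100 / 99 * (2 / 5) ^ (2 * i - 1)

/-- `β` for `7 ≤ i ≤ 11`. -/
def be (i s : ℕ) : ℚ := if s ≤ 4 then cc i s (Lf i s) else (2 / 5) ^ 32

lemma be_nonneg (i s : ℕ) : 0 ≤ be i s := by
  unfold be
  split_ifs
  · exact cc_nonneg _ _ _
  · positivity

lemma cc_one {i s : ℕ} (hs : 5 ≤ s) : cc i s 1 ≤ (2 / 5) ^ 32 := by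
  unfold cc tc
  rw [sum_range_one]
  have h2 : 2 ^ 5 ≤ 2 ^ s := Nat.pow_le_pow_right (by norm_num) hs
  have h3 : (32 : ℕ) ≤ min (2 ^ s * 2 ^ 0 * (1 - 0)) 300 := by
    rw [pow_zero]
    simp only [mul_one, Nat.sub_zero]
    omega
  have h4 : ((2 : ℚ) / 5) ^ (min (2 ^ s * 2 ^ 0 * (1 - 0)) 300) ≤ (2 / 5) ^ 32 :=
    pow_le_pow_of_le_one (by norm_num) (by norm_num) h3
  have h5 : ((3 * 2 ^ i : ℕ) : ℚ) ^ 0 / (Nat.factorial 0 : ℚ) / (2 ^ s * 2 ^ 0) ≤ 1 := by
    rw [pow_zero, pow_zero, Nat.factorial_zero, Nat.cast_one, div_one, mul_one]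
    rw [div_le_one (by positivity)]
    exact one_le_pow₀ (by norm_num)
  calc _ ≤ 1 * ((2 : ℚ) / 5) ^ 32 := mul_le_mul h5 h4 (by positivity) (by norm_num)
    _ = _ := one_mul _

theorem nf_seven {i h : ℕ} (hi : 7 ≤ i) (hi' : i ≤ 11) (hh : h ≤ 3 * 2 ^ i) :
    NF i h (al i : ℝ) := by
  have g0 := cc_nonneg i 0 (Ln i 0)
  have g1 := cc_nonneg i 1 (Ln i 1)
  have g2 := cc_nonneg i 2 (Ln i 2)
  have g3 := cc_nonneg i 3 (Ln i 3)
  have g4 := cc_nonneg i 4 (Ln i 4)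
  have g5 : (0 : ℚ) ≤ (2 / 5) ^ 32 := by positivity
  have g6 : (0 : ℚ) ≤ 100 / 99 * (2 / 5) ^ (2 * i - 1) := by positivity
  intro z L hL
  by_cases hz : 0 ≤ z
  · obtain ⟨n, rfl⟩ := Int.eq_ofNat_of_zero_le hz
    have hLe := Ln_eq (by omega) hL
    refine ⟨fun _ => 1, fun t ht => ⟨le_rfl, Nat.sub_pos_of_lt ht⟩, ?_⟩
    rw [zpow_natCast]
    refine (cellc_le_cc hh n L).trans ?_
    have key : cc i n L ≤ al i := by
      by_cases hn : n ≤ 4
      · subst hLe
        unfold al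
        have hcases : n = 0 ∨ n = 1 ∨ n = 2 ∨ n = 3 ∨ n = 4 := by omega
        rcases hcases with rfl | rfl | rfl | rfl | rfl <;> linarith
      · have h1 : L = 1 := by
          obtain ⟨h1, h2, h3⟩ := minNF_nat hL
          rcases h3 with h3 | h3
          · exact h3
          · have h4 : 2 ^ 5 ≤ 2 ^ n := Nat.pow_le_pow_right (by norm_num) (by omega)
            by_contra hne
            have h5 : 2 ^ n * 1 ≤ 2 ^ n * (L - 1) := Nat.mul_le_mul_left _ (by omega)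
            omega
        rw [h1]
        refine (cc_one (by omega)).trans ?_
        unfold al
        linarith
    exact_mod_cast key
  · obtain ⟨r, hr⟩ : ∃ r : ℕ, z = -(r : ℤ) := ⟨(-z).toNat, by omega⟩
    subst hr
    obtain ⟨ρ, h1, h2⟩ := nf_neg (by omega) (by omega) hh hL
    refine ⟨ρ, h1, h2.trans ?_⟩
    have key : (100 / 99 * (2 / 5) ^ (2 * i - 1) : ℚ) ≤ al i := by
      unfold al
      linarith
    have key' : ((100 / 99 * (2 / 5) ^ (2 * i - 1) : ℚ) : ℝ) ≤ (al i : ℝ) := by exact_mod_cast key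
    push_cast at key'
    exact key'

theorem fu_seven {i h : ℕ} (hi : 7 ≤ i) (hi' : i ≤ 11) (hh : h ≤ 3 * 2 ^ i) (s : ℕ) :
    FU i s h (be i s : ℝ) := by
  intro L hL
  have hLe := Lf_eq hi hi' hL
  refine (cellc_le_cc hh s L).trans ?_
  have key : cc i s L ≤ be i s := by
    unfold be
    by_cases hs : s ≤ 4
    · rw [if_pos hs, hLe]
    · rw [if_neg hs]
      have h4 : Lf i s = 1 := by
        unfold Lf
        rw [if_neg (by omega), if_neg (by omega), if_neg (by omega), if_neg (by omega),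
          if_neg (by omega)]
      rw [hLe, h4]
      exact cc_one (by omega)
  exact_mod_cast key

lemma fin_check : ∀ i ∈ [7, 8, 9, 10, 11], (2 ^ i + 1 : ℚ) * al i +
    (i.choose (i / 2) : ℚ) * ∑ s ∈ range (i + 1), be i s ≤ 1 / 12 := by decide +kernel

end I7

open I7

theorem num_total7_11' {i k h m : ℕ} (hi : 7 ≤ i) (hi' : i ≤ 11) (n : ℕ → ℕ)
    (hn : ∀ w, n w ≤ i.choose w) (hnm : ∑ w ∈ range (i + 1 - k), n w + m ≤ 2 ^ i)
    (hh : h ≤ 3 * m) :
    ∃ (α : ℝ) (β : ℕ → ℝ), NF i h α ∧ (∀ w < i + 1 - k, FU i (i - k - w) h (β w)) ∧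
      (m + 1) * α + ∑ w ∈ range (i + 1 - k), n w * β w ≤ 1 / 12 := by
  have hm : m ≤ 2 ^ i := by omega
  have hh' : h ≤ 3 * 2 ^ i := by omega
  refine ⟨(al i : ℝ), fun w => (be i (i - k - w) : ℝ), nf_seven hi hi' hh',
    fun w _ => fu_seven hi hi' hh' _, ?_⟩
  have h0 := fin_check i (by simp; omega)
  have hal : 0 ≤ al i := by
    unfold al
    have g0 := cc_nonneg i 0 (Ln i 0)
    have g1 := cc_nonneg i 1 (Ln i 1)
    have g2 := cc_nonneg i 2 (Ln i 2)
    have g3 := cc_nonneg i 3 (Ln i 3)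
    have g4 := cc_nonneg i 4 (Ln i 4)
    positivity
  have key : ((m : ℚ) + 1) * al i + ∑ w ∈ range (i + 1 - k), (n w : ℚ) * be i (i - k - w) ≤
      1 / 12 := by
    refine le_trans (add_le_add ?_ ?_) h0
    · apply mul_le_mul_of_nonneg_right _ hal
      have : (m : ℚ) ≤ 2 ^ i := by exact_mod_cast hm
      linarith
    · calc ∑ w ∈ range (i + 1 - k), (n w : ℚ) * be i (i - k - w)
          ≤ ∑ w ∈ range (i + 1 - k), (i.choose (i / 2) : ℚ) * be i (i - k - w) := by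
            apply sum_le_sum
            intro w _
            apply mul_le_mul_of_nonneg_right _ (be_nonneg _ _)
            exact_mod_cast (hn w).trans (Nat.choose_le_middle w i)
        _ = (i.choose (i / 2) : ℚ) * ∑ w ∈ range (i + 1 - k), be i (i - k - w) := by
            rw [mul_sum]
        _ = (i.choose (i / 2) : ℚ) * ∑ s ∈ range (i + 1 - k), be i s := by
            congr 1
            rw [← sum_range_reflect (fun s => be i s) (i + 1 - k)]
            apply sum_congr rfl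
            intro w hw
            have hw' := mem_range.1 hw
            show be i (i - k - w) = be i (i + 1 - k - 1 - w)
            congr 1
            omega
        _ ≤ _ := by
            apply mul_le_mul_of_nonneg_left _ (by positivity)
            apply sum_le_sum_of_subset_of_nonneg
            · intro x hx
              have := mem_range.1 hx
              exact mem_range.2 (by omega)
            · intro s _ _
              exact be_nonneg _ _
  have key' : ((((m : ℚ) + 1) * al i + ∑ w ∈ range (i + 1 - k), (n w : ℚ) * be i (i - k - w) : ℚ) :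
      ℝ) ≤ ((1 / 12 : ℚ) : ℝ) := by exact_mod_cast key
  push_cast at key'
  exact key'

theorem num_total7_11 {i k m h : ℕ} {n : ℕ → ℕ} (h7 : 7 ≤ i) (h11 : i ≤ 11) (_hk : 1 ≤ k)
    (hn : ∀ w, n w ≤ i.choose w) (hnm : ∑ w ∈ range (i + 1 - k), n w + m ≤ 2 ^ i)
    (hh : h ≤ 3 * m) :
    ∃ (α : ℝ) (β : ℕ → ℝ), NF i h α ∧ (∀ w < i + 1 - k, FU i (i - k - w) h (β w)) ∧
      (m + 1) * α + ∑ w ∈ range (i + 1 - k), n w * β w ≤ 1 / 12 :=
  num_total7_11' h7 h11 n hn hnm hh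

end Pool.Agent.Lib.MP_5e7226_co.UncM
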