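import Pool.Agent.Lib.MP_5e7226_co.UncScheme

set_option autoImplicit false
set_option linter.unusedSectionVars false

namespace Pool.Agent.Lib.MP_5e7226_co.Unc

open Finset

variable {V : Type*} [Fintype V] [DecidableEq V]

/-- The numerical hypothesis on a clique `W`. -/
def Alt (Δ : Finset V → Prop) (W : Finset V) : Prop :=
  W.card ≤ 13 ∨ (∀ F, Δ F → (F ∩ W).card ≤ 7) ∨
    ∃ Y₀ ⊆ W, Gam Δ Y₀ ∧ ∀ F, Δ F → (Y₀.card + 1) * 2 ^ ((F ∩ W).card + 1) ≤ 2 ^ Y₀.card

lemma two_mul_le_pow {q : ℕ} (hq : 5 ≤ q) : 2 * q ≤ 2 ^ (q - 1) := by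
  induction q, hq using Nat.le_induction with
  | base => norm_num
  | succ q hq ih =>
    have : 2 ^ (q + 1 - 1) = 2 * 2 ^ (q - 1) := by
      rw [← pow_succ']; congr 1; omega
    omega

lemma pow_cmp {y n : ℕ} (h : y ≤ n) : n + 1 ≤ (y + 1) * 2 ^ (n - y) := by
  have h1 : n - y + 1 ≤ 2 ^ (n - y) := Nat.succ_le_of_lt (Nat.lt_two_pow_self)
  nlinarith [Nat.sub_add_cancel h]

lemma greedy_bound {m n g q : ℕ} (hm : m ≤ n) (h : (n + 1) * 2 ^ (g + 1) ≤ 2 ^ q) :
    (3 : ℝ) ^ m * (1 - (1 / 2 : ℝ) ^ g) ^ (2 ^ q) < 1 := by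
  have hx : (0 : ℝ) < (1 / 2 : ℝ) ^ g := by positivity
  have hx1 : (1 / 2 : ℝ) ^ g ≤ 1 := pow_le_one₀ (by norm_num) (by norm_num)
  have h1 : (1 - (1 / 2 : ℝ) ^ g) ^ (2 ^ q) ≤ Real.exp (-(2 * (n + 1))) := by
    have h2 : 1 - (1 / 2 : ℝ) ^ g ≤ Real.exp (-(1 / 2 : ℝ) ^ g) := by
      have := Real.add_one_le_exp (-(1 / 2 : ℝ) ^ g)
      linarith
    calc (1 - (1 / 2 : ℝ) ^ g) ^ (2 ^ q) ≤ (Real.exp (-(1 / 2 : ℝ) ^ g)) ^ (2 ^ q) :=
        pow_le_pow_left₀ (by linarith) h2 _
      _ = Real.exp ((2 ^ q : ℕ) * (-(1 / 2 : ℝ) ^ g)) := (Real.exp_nat_mul _ _).symm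
      _ ≤ Real.exp (-(2 * (n + 1))) := by
        apply Real.exp_le_exp.2
        have h3 : ((n : ℝ) + 1) * 2 ^ (g + 1) ≤ 2 ^ q := by exact_mod_cast h
        push_cast
        have h4 : (2 : ℝ) ^ (g + 1) * (1 / 2) ^ g = 2 := by
          rw [pow_succ, mul_right_comm, ← mul_pow]; norm_num
        have h5 := mul_le_mul_of_nonneg_right h3 hx.le
        rw [mul_assoc, h4] at h5
        linarith
  have h6 : (3 : ℝ) ^ m ≤ Real.exp (2 * n) := by
    calc (3 : ℝ) ^ m ≤ 3 ^ n := pow_le_pow_right₀ (by norm_num) hm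
      _ ≤ (Real.exp 2) ^ n := by
        apply pow_le_pow_left₀ (by norm_num)
        have := Real.add_one_le_exp (2 : ℝ)
        linarith
      _ = Real.exp (2 * n) := by rw [← Real.exp_nat_mul]; ring_nf
  calc (3 : ℝ) ^ m * (1 - (1 / 2 : ℝ) ^ g) ^ (2 ^ q)
      ≤ Real.exp (2 * n) * Real.exp (-(2 * (n + 1))) := by
        apply mul_le_mul h6 h1 _ (Real.exp_pos _).le
        apply pow_nonneg; linarith
    _ = Real.exp (-2) := by rw [← Real.exp_add]; ring_nf
    _ < 1 := by rw [Real.exp_lt_one_iff]; norm_num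

/-- Codes for the nonempty `R`. -/
lemma shat_link {Δ : Finset V → Prop} (hΔ : ∀ G H : Finset V, H ⊆ G → Δ G → Δ H)
    (hsing : ∀ i, Δ {i}) {e : V → ℕ} (he : Function.Injective e)
    {W Y R : Finset V} (hYW : Y ⊆ W) (hRW : R ⊆ W) (hd : Disjoint Y R) (hY : Gam Δ Y)
    (hmax : ∀ Z ⊆ W, Gam Δ Z → Z.card ≤ Y.card) (hR : Δ R)
    (hAlt : Alt Δ W) : Shat (fun G => Δ (G ∪ R)) Y (2 ^ (Y.card - R.card)) := by
  classical
  set M := Y.filter (fun y => Δ ({y} ∪ R)) with hMdef
  set L : Finset V → Prop := fun G => Δ (G ∪ R) with hLdef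
  set q := Y.card - R.card with hq
  have hMY : M ⊆ Y := filter_subset _ _
  have hML : ∀ y ∈ M, Δ ({y} ∪ R) := fun y hy => (mem_filter.1 hy).2
  have hL : ∀ G H : Finset V, H ⊆ G → L G → L H := fun G H h hG =>
    hΔ _ _ (union_subset_union h (Subset.refl _)) hG
  have hL0 : L ∅ := by simpa [hLdef] using hR
  have hin : ∀ G ⊆ Y, L G → G ⊆ M := by
    intro G hG hLG y hy
    refine mem_filter.2 ⟨hG hy, hL G {y} (by simpa using hy) hLG⟩
  have hRY : R.card ≤ Y.card := hmax R hRW (gam_face hR)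
  have hU : ∀ G ⊆ M, ∀ H ⊆ M, L G → L H → (G ∪ H).card ≤ q := by
    intro G hG H hH hLG hLH
    have h1 := hmax ((G ∪ H) ∪ R) (union_subset (union_subset ((hG.trans hMY).trans hYW)
      ((hH.trans hMY).trans hYW)) hRW) (gam_union hY (hG.trans hMY) (hH.trans hMY) hd hLG hLH)
    rw [card_union_of_disjoint (disjoint_of_subset_left
      (union_subset (hG.trans hMY) (hH.trans hMY)) hd)] at h1
    omega
  apply Shat.of_subset _ hin
  by_cases hsmall : M.card ≤ q + 3
  · exact shat_small hL hL0 he hU hsmall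
  push Not at hsmall
  have hMne : M.Nonempty := card_pos.1 (by omega)
  have hF2 : ∀ F, Δ F → (F ∩ M).card ≤ q := by
    intro F hF
    have h1 := hmax ((F ∩ M) ∪ R) (union_subset ((inter_subset_right.trans hMY).trans hYW) hRW)
      (gam_link hR hML (disjoint_of_subset_left hMY hd) hF)
    rw [card_union_of_disjoint (disjoint_of_subset_left (inter_subset_right.trans hMY) hd)] at h1
    omega
  have hF3 : M.card + 1 ≤ 2 * q := gam_card (hY.subset hMY) hMne hF2 hsing
  have hMc : M.card ≤ Y.card := card_le_card hMY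
  have hq5 : 5 ≤ q := by omega
  have hr4 : 4 ≤ R.card := by omega
  have hthree : (∀ H ⊆ M, L H → H.card ≤ 3) → Shat L M (2 ^ q) := by
    intro h3
    have := shat_three (k := q - 1) h3 (by
      have := two_mul_le_pow hq5
      omega)
    rwa [Nat.sub_add_cancel (by omega)] at this
  rcases hAlt with h13 | h7 | ⟨Y₀, hY₀, hY₀g, hY₀n⟩
  · -- at most 13 elements
    have hcW : Y.card + R.card ≤ W.card := by
      rw [← card_union_of_disjoint hd]; exact card_le_card (union_subset hYW hRW)
    by_cases hG₀ : ∃ G₀ ⊆ M, L G₀ ∧ q - 1 ≤ G₀.card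
    · obtain ⟨G₀, hG₀M, hLG₀, hG₀c⟩ := hG₀
      have hG₀q : G₀.card ≤ q - 1 := by
        by_contra hcon
        push Not at hcon
        have hsub : M ⊆ G₀ := by
          intro y hy
          by_contra hyG
          have h1 := hU G₀ hG₀M {y} (by simpa using hy) hLG₀ (hML y hy)
          rw [union_comm, ← insert_eq, card_insert_of_notMem hyG] at h1
          omega
        have h1 := card_le_card hsub
        have h2 := hU G₀ hG₀M G₀ hG₀M hLG₀ hLG₀
        rw [union_self] at h2
        omega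
      have := shat_hub (L := L) (M := M) (G₀ := G₀) (by
        intro H hH hLH
        have h1 := hU G₀ hG₀M H hH hLG₀ hLH
        have h2 : (G₀ ∪ H).card = G₀.card + (H \ G₀).card := by
          rw [← union_sdiff_self_eq_union, card_union_of_disjoint disjoint_sdiff]
        omega)
      have h3 : G₀.card + 1 = q := by omega
      rwa [h3] at this
    · apply hthree
      intro H hH hLH
      by_contra hcon
      push Not at hcon
      exact hG₀ ⟨H, hH, hLH, by omega⟩
  · apply hthree
    intro H hH hLH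
    have h1 := h7 _ hLH
    have h2 : (H ∪ R) ∩ W = H ∪ R :=
      inter_eq_left.2 (union_subset ((hH.trans hMY).trans hYW) hRW)
    rw [h2, card_union_of_disjoint (disjoint_of_subset_left (hH.trans hMY) hd)] at h1
    omega
  · -- greedy
    obtain ⟨G, hG, hGmax⟩ := exists_max_image (M.powerset.filter (fun H => L H)) card
      ⟨∅, mem_filter.2 ⟨mem_powerset.2 (empty_subset _), hL0⟩⟩
    obtain ⟨hGM, hLG⟩ := mem_filter.1 hG
    rw [mem_powerset] at hGM
    apply shat_greedy (g := G.card)
    · intro H hH hLH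
      exact hGmax H (mem_filter.2 ⟨mem_powerset.2 hH, hLH⟩)
    · apply greedy_bound (n := Y.card) hMc
      have h1 := hY₀n _ hLG
      have h2 : (G ∪ R) ∩ W = G ∪ R :=
        inter_eq_left.2 (union_subset ((hGM.trans hMY).trans hYW) hRW)
      rw [h2, card_union_of_disjoint (disjoint_of_subset_left (hGM.trans hMY) hd)] at h1
      have h3 : Y₀.card ≤ Y.card := hmax Y₀ hY₀ hY₀g
      have h4 := pow_cmp h3
      -- (|Y|+1) 2^(g+r+1) ≤ 2^|Y|
      have h5 : (Y.card + 1) * 2 ^ (G.card + R.card + 1) ≤ 2 ^ Y.card := by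
        calc (Y.card + 1) * 2 ^ (G.card + R.card + 1)
            ≤ ((Y₀.card + 1) * 2 ^ (Y.card - Y₀.card)) * 2 ^ (G.card + R.card + 1) :=
              Nat.mul_le_mul_right _ h4
          _ = ((Y₀.card + 1) * 2 ^ (G.card + R.card + 1)) * 2 ^ (Y.card - Y₀.card) := by ring
          _ ≤ 2 ^ Y₀.card * 2 ^ (Y.card - Y₀.card) := Nat.mul_le_mul_right _ h1
          _ = 2 ^ Y.card := by rw [← pow_add]; congr 1; omega
      have h6 : (2 : ℕ) ^ Y.card = 2 ^ q * 2 ^ R.card := by rw [← pow_add]; congr 1; omega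
      have h7 : (Y.card + 1) * 2 ^ (G.card + R.card + 1) =
          ((Y.card + 1) * 2 ^ (G.card + 1)) * 2 ^ R.card := by
        rw [show G.card + R.card + 1 = (G.card + 1) + R.card by ring, pow_add]; ring
      rw [h6, h7] at h5
      exact Nat.le_of_mul_le_mul_right h5 (by positivity)

/-- The clique case, strict. -/
lemma ill_clique {Δ : Finset V → Prop} (hΔ : ∀ G H : Finset V, H ⊆ G → Δ G → Δ H)
    (hsing : ∀ i, Δ {i}) {e : V → ℕ} (he : Function.Injective e)
    {W : Finset V} (hW : ∀ x ∈ W, ∀ y ∈ W, Δ {x, y}) (hgam : ¬ Gam Δ W) (hAlt : Alt Δ W) :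
    Ill Δ W (2 ^ W.card - 1) := by
  classical
  obtain ⟨Y, hYW, hY, hmax⟩ := exists_max_gam Δ W
  have hYne : Y ≠ W := by rintro rfl; exact hgam hY
  obtain ⟨b, hbW, hbY⟩ : ∃ b ∈ W, b ∉ Y := by
    by_contra hcon
    push Not at hcon
    exact hYne (Subset.antisymm hYW hcon)
  have hYnon : Y.Nonempty := by
    have h1 := hmax {b} (by simpa using hbW) (gam_face (hsing b))
    rw [card_singleton] at h1
    exact card_pos.1 (by omega)
  have hΔY : ¬ Δ Y := by
    intro hΔY
    have h1 : Gam Δ ((Y ∩ Y) ∪ {b}) := gam_link (hsing b) (by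
      intro y hy
      have := hW y (hYW hy) b hbW
      rwa [insert_eq] at this) (by
      rw [disjoint_singleton_right]; exact hbY) hΔY
    rw [inter_self] at h1
    have h2 := hmax _ (union_subset hYW (by simpa using hbW)) h1
    rw [card_union_of_disjoint (by rw [disjoint_singleton_right]; exact hbY),
      card_singleton] at h2
    omega
  let N : Finset V → ℕ := fun R => if R = ∅ then 2 ^ (Y.card - 1) else 2 ^ (Y.card - R.card)
  have hN : ∀ R ⊆ W \ Y, Δ R → Shat (fun G => Δ (G ∪ R)) Y (N R) := by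
    intro R hR hΔR
    by_cases h : R = ∅
    · subst h
      simp only [N, if_true, union_empty]
      exact shat_even hΔY hYnon
    · simp only [N, h, if_false]
      exact shat_link hΔ hsing he hYW (hR.trans sdiff_subset)
        (disjoint_of_subset_right hR disjoint_sdiff) hY hmax hΔR hAlt
  have hill := scheme (T := W \ Y) disjoint_sdiff hY N hN hΔ
  rw [union_sdiff_of_subset hYW] at hill
  apply hill.mono
  have hterm : ∀ R ∈ (W \ Y).powerset.filter (fun R => Δ R), 2 ^ R.card * N R ≤ 2 ^ Y.card := by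
    intro R hR
    obtain ⟨h1, h2⟩ := mem_filter.1 hR
    have h3 : R.card ≤ Y.card := hmax R ((mem_powerset.1 h1).trans sdiff_subset) (gam_face h2)
    by_cases h : R = ∅
    · subst h
      simp only [N, if_true, card_empty, pow_zero, one_mul]
      exact Nat.pow_le_pow_right (by norm_num) (by omega)
    · simp only [N, h, if_false]
      rw [← pow_add]
      exact Nat.pow_le_pow_right (by norm_num) (by omega)
  have hlt : ∑ R ∈ (W \ Y).powerset.filter (fun R => Δ R), 2 ^ R.card * N R <
      ∑ _R ∈ (W \ Y).powerset.filter (fun R => Δ R), 2 ^ Y.card := by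
    apply sum_lt_sum hterm
    refine ⟨∅, mem_filter.2 ⟨mem_powerset.2 (empty_subset _), hΔ _ _ (empty_subset _) (hsing b)⟩, ?_⟩
    simp only [N, if_true, card_empty, pow_zero, one_mul]
    exact Nat.pow_lt_pow_right (by norm_num) (by have := card_pos.2 hYnon; omega)
  have hle : ∑ _R ∈ (W \ Y).powerset.filter (fun R => Δ R), 2 ^ Y.card ≤ 2 ^ W.card := by
    rw [sum_const, smul_eq_mul]
    calc ((W \ Y).powerset.filter (fun R => Δ R)).card * 2 ^ Y.card
        ≤ (W \ Y).powerset.card * 2 ^ Y.card := Nat.mul_le_mul_right _ (card_filter_le _ _)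
      _ = 2 ^ W.card := by
        rw [card_powerset, ← pow_add]
        congr 1
        rw [← card_union_of_disjoint sdiff_disjoint, sdiff_union_of_subset hYW]
  omega

/-- Cube-like complexes (the body is a cross-body). -/
def CubeLike (Δ : Finset V → Prop) (W : Finset V) : Prop :=
  ∃ (T Y : Finset V) (y : V → V), T ∪ Y = W ∧ Disjoint T Y ∧ (∀ b ∈ T, y b ∈ Y) ∧
    (∀ b ∈ T, ∀ b' ∈ T, y b = y b' → b = b') ∧
    ∀ F ⊆ W, (Δ F ↔ ∀ b ∈ T, b ∈ F → y b ∉ F)

/-- The flag case. -/
lemma flag_case {Δ : Finset V → Prop} (hΔ : ∀ G H : Finset V, H ⊆ G → Δ G → Δ H)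
    (h0 : Δ ∅) {W : Finset V}
    (hflag : ∀ C ⊆ W, (∀ x ∈ C, ∀ y ∈ C, Δ {x, y}) → Δ C) :
    Ill Δ W (2 ^ W.card - 1) ∨ CubeLike Δ W := by
  classical
  obtain ⟨Y, hY, hYmax⟩ := exists_max_image (W.powerset.filter (fun Z => Δ Z)) card
    ⟨∅, mem_filter.2 ⟨mem_powerset.2 (empty_subset _), h0⟩⟩
  obtain ⟨hYW, hΔY⟩ := mem_filter.1 hY
  rw [mem_powerset] at hYW
  have hmax : ∀ Z ⊆ W, Δ Z → Z.card ≤ Y.card := fun Z hZ hΔZ =>
    hYmax Z (mem_filter.2 ⟨mem_powerset.2 hZ, hΔZ⟩)
  let Nb : Finset V → Finset V := fun R => Y.filter (fun y => ∃ b ∈ R, ¬ Δ {b, y})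
  have hNbY : ∀ R, Nb R ⊆ Y := fun R => filter_subset _ _
  have hclique : ∀ F, Δ F → ∀ x ∈ F, ∀ y ∈ F, Δ {x, y} := by
    intro F hF x hx y hy
    refine hΔ F _ ?_ hF
    intro z hz
    rcases mem_insert.1 hz with rfl | hz
    · exact hx
    · rw [mem_singleton.1 hz]; exact hy
  have hcard : ∀ R ⊆ W \ Y, Δ R → R.card ≤ (Nb R).card := by
    intro R hR hΔR
    have hface : Δ ((Y \ Nb R) ∪ R) := by
      apply hflag
      · exact union_subset (sdiff_subset.trans hYW) (hR.trans sdiff_subset)
      · have key : ∀ x ∈ Y \ Nb R, ∀ b ∈ R, Δ {b, x} := by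
          intro x hx b hb
          obtain ⟨h1, h2⟩ := mem_sdiff.1 hx
          by_contra hcon
          exact h2 (mem_filter.2 ⟨h1, b, hb, hcon⟩)
        intro x hx z hz
        rcases mem_union.1 hx with hx | hx <;> rcases mem_union.1 hz with hz | hz
        · exact hclique Y hΔY x (mem_sdiff.1 hx).1 z (mem_sdiff.1 hz).1
        · rw [pair_comm]; exact key x hx z hz
        · exact key z hz x hx
        · exact hclique R hΔR x hx z hz
    have h1 := hmax _ (union_subset (sdiff_subset.trans hYW) (hR.trans sdiff_subset)) hface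
    have hdis : Disjoint (Y \ Nb R) R :=
      disjoint_of_subset_left sdiff_subset (disjoint_of_subset_right hR disjoint_sdiff)
    rw [card_union_of_disjoint hdis, card_sdiff_of_subset (hNbY R)] at h1
    have h2 := card_le_card (hNbY R)
    omega
  have hYn : ∀ R, (Nb R).card ≤ Y.card := fun R => card_le_card (hNbY R)
  let N : Finset V → ℕ := fun R => 2 ^ (Y.card - (Nb R).card)
  have hN : ∀ R ⊆ W \ Y, Δ R → Shat (fun G => Δ (G ∪ R)) Y (N R) := by
    intro R hR hΔR
    have h1 := shat_powerset (fun G => Δ (G ∪ R)) (Y \ Nb R)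
    rw [card_sdiff_of_subset (hNbY R)] at h1
    apply h1.of_subset
    intro G hG hLG x hx
    rw [mem_sdiff]
    refine ⟨hG hx, fun hxN => ?_⟩
    obtain ⟨_, b, hb, hbx⟩ := mem_filter.1 hxN
    exact hbx (hclique _ hLG b (mem_union_right _ hb) x (mem_union_left _ hx))
  have hill := scheme (T := W \ Y) disjoint_sdiff (gam_face hΔY) N hN hΔ
  rw [union_sdiff_of_subset hYW] at hill
  have hterm : ∀ R ∈ (W \ Y).powerset.filter (fun R => Δ R), 2 ^ R.card * N R ≤ 2 ^ Y.card := by
    intro R hR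
    obtain ⟨h1, h2⟩ := mem_filter.1 hR
    have h3 := hcard R (mem_powerset.1 h1) h2
    simp only [N]
    rw [← pow_add]
    exact Nat.pow_le_pow_right (by norm_num) (by have := hYn R; omega)
  have hWc : 2 ^ W.card = (W \ Y).powerset.card * 2 ^ Y.card := by
    rw [card_powerset, ← pow_add]
    congr 1
    rw [← card_union_of_disjoint sdiff_disjoint, sdiff_union_of_subset hYW]
  by_cases hT : Δ (W \ Y) ∧ ∀ R ⊆ W \ Y, (Nb R).card = R.card
  · right
    obtain ⟨hΔT, hNbc⟩ := hT
    have hy : ∀ b : V, ∃ y : V, b ∈ W \ Y → Nb {b} = {y} := by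
      intro b
      by_cases hb : b ∈ W \ Y
      · have := hNbc {b} (by simpa using hb)
        rw [card_singleton] at this
        obtain ⟨y, hy⟩ := card_eq_one.1 this
        exact ⟨y, fun _ => hy⟩
      · exact ⟨b, fun h => absurd h hb⟩
    choose y hy using hy
    have hyY : ∀ b ∈ W \ Y, y b ∈ Y ∧ ¬ Δ {b, y b} := by
      intro b hb
      have h1 : y b ∈ Nb {b} := by rw [hy b hb]; exact mem_singleton_self _
      obtain ⟨h2, b', hb', h3⟩ := mem_filter.1 h1
      rw [mem_singleton.1 hb'] at h3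
      exact ⟨h2, h3⟩
    refine ⟨W \ Y, Y, y, sdiff_union_of_subset hYW, sdiff_disjoint, fun b hb => (hyY b hb).1, ?_, ?_⟩
    · intro b hb b' hb' hbb
      by_contra hne
      have h1 := hNbc {b, b'} (by
        intro x hx
        rcases mem_insert.1 hx with rfl | hx
        · exact hb
        · rw [mem_singleton.1 hx]; exact hb')
      rw [card_pair hne] at h1
      have h2 : Nb {b, b'} ⊆ {y b} := by
        intro x hx
        obtain ⟨hxY, c, hc, hcx⟩ := mem_filter.1 hx
        rcases mem_insert.1 hc with rfl | hc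
        · have : x ∈ Nb {c} := mem_filter.2 ⟨hxY, c, mem_singleton_self _, hcx⟩
          rwa [hy c hb] at this
        · rw [mem_singleton.1 hc] at hcx
          have : x ∈ Nb {b'} := mem_filter.2 ⟨hxY, b', mem_singleton_self _, hcx⟩
          rwa [hy b' hb', ← hbb] at this
      have h3 := card_le_card h2
      rw [card_singleton] at h3
      omega
    · intro F hF
      constructor
      · intro hΔF b hb hbF hybF
        exact (hyY b hb).2 (hclique F hΔF b hbF (y b) hybF)
      · intro h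
        apply hflag F hF
        have key : ∀ b ∈ F, b ∈ W \ Y → ∀ x ∈ F, x ∈ Y → Δ {b, x} := by
          intro b hbF hb x hxF hxY
          by_contra hcon
          have : x ∈ Nb {b} := mem_filter.2 ⟨hxY, b, mem_singleton_self _, hcon⟩
          rw [hy b hb, mem_singleton] at this
          rw [this] at hxF
          exact h b hb hbF hxF
        intro x hx z hz
        by_cases hxY : x ∈ Y <;> by_cases hzY : z ∈ Y
        · exact hclique Y hΔY x hxY z hzY
        · rw [pair_comm]; exact key z hz (mem_sdiff.2 ⟨hF hz, hzY⟩) x hx hxY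
        · exact key x hx (mem_sdiff.2 ⟨hF hx, hxY⟩) z hz hzY
        · exact hclique _ hΔT x (mem_sdiff.2 ⟨hF hx, hxY⟩) z (mem_sdiff.2 ⟨hF hz, hzY⟩)
  · left
    apply hill.mono
    have hpos : 0 < 2 ^ Y.card := by positivity
    by_cases hΔT : Δ (W \ Y)
    · have hR : ∃ R ⊆ W \ Y, (Nb R).card ≠ R.card := by
        by_contra hcon
        push Not at hcon
        exact hT ⟨hΔT, hcon⟩
      obtain ⟨R, hRT, hRne⟩ := hR
      have hΔR : Δ R := hΔ _ _ hRT hΔT
      have h3 := hcard R hRT hΔR
      have hlt : ∑ R ∈ (W \ Y).powerset.filter (fun R => Δ R), 2 ^ R.card * N R <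
          ∑ _R ∈ (W \ Y).powerset.filter (fun R => Δ R), 2 ^ Y.card := by
        apply sum_lt_sum hterm
        refine ⟨R, mem_filter.2 ⟨mem_powerset.2 hRT, hΔR⟩, ?_⟩
        simp only [N]
        rw [← pow_add]
        exact Nat.pow_lt_pow_right (by norm_num) (by have := hYn R; omega)
      have hle : ∑ _R ∈ (W \ Y).powerset.filter (fun R => Δ R), 2 ^ Y.card ≤ 2 ^ W.card := by
        rw [sum_const, smul_eq_mul, hWc]
        exact Nat.mul_le_mul_right _ (card_filter_le _ _)
      omega
    · have hle : ∑ R ∈ (W \ Y).powerset.filter (fun R => Δ R), 2 ^ R.card * N R ≤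
          ((W \ Y).powerset.filter (fun R => Δ R)).card * 2 ^ Y.card := by
        rw [← smul_eq_mul, ← sum_const]
        exact sum_le_sum hterm
      have hlt : ((W \ Y).powerset.filter (fun R => Δ R)).card < (W \ Y).powerset.card := by
        apply card_lt_card
        refine ⟨filter_subset _ _, fun h => ?_⟩
        have := h (mem_powerset.2 (Subset.refl (W \ Y)))
        exact hΔT (mem_filter.1 this).2
      have : ((W \ Y).powerset.filter (fun R => Δ R)).card * 2 ^ Y.card < 2 ^ W.card := by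
        rw [hWc]
        exact Nat.mul_lt_mul_of_pos_right hlt hpos
      omega

/-- In a cube-like complex every clique is a face. -/
lemma CubeLike.flag {Δ : Finset V → Prop} {W : Finset V} (h : CubeLike Δ W) :
    ∀ C ⊆ W, (∀ x ∈ C, ∀ y ∈ C, Δ {x, y}) → Δ C := by
  obtain ⟨T, Y, y, hTY, hd, hy, hinj, hF⟩ := h
  intro C hC hcl
  rw [hF C hC]
  intro b hbT hbC hyC
  have h1 := hcl b hbC (y b) hyC
  rw [hF {b, y b} (by
    intro x hx
    rcases mem_insert.1 hx with rfl | hx
    · exact hC hbC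
    · rw [mem_singleton.1 hx]; exact hC hyC)] at h1
  exact h1 b hbT (mem_insert_self _ _) (mem_insert_of_mem (mem_singleton_self _))

/-- Main combinatorial theorem. -/
theorem unc_main {Δ : Finset V → Prop} (hΔ : ∀ G H : Finset V, H ⊆ G → Δ G → Δ H)
    (h0 : Δ ∅) (hsing : ∀ i, Δ {i}) {e : V → ℕ} (he : Function.Injective e)
    (hgood : ∀ W : Finset V, (∀ x ∈ W, ∀ y ∈ W, Δ {x, y}) → ¬ Gam Δ W → Alt Δ W) (k : ℕ) :
    ∀ W : Finset V, W.card = k →
      Ill Δ W (2 ^ k) ∧ (Ill Δ W (2 ^ k - 1) ∨ CubeLike Δ W) := by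
  classical
  induction k with
  | zero =>
    intro W hW
    rw [card_eq_zero] at hW
    subst hW
    have hill := scheme (Δ := Δ) (Y := ∅) (T := ∅) (disjoint_empty_left _) (gam_empty Δ)
      (fun _ => 1) (fun R _ _ => by simpa using shat_powerset (fun G => Δ (G ∪ R)) ∅) hΔ
    refine ⟨?_, Or.inr ⟨∅, ∅, id, by simp, by simp, by simp, by simp, ?_⟩⟩
    · rw [union_empty] at hill
      apply hill.mono
      simp [filter_singleton, h0]
    · intro F hF
      rw [subset_empty] at hF
      subst hF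
      simp [h0]
  | succ k ih =>
    intro W hW
    by_cases hcl : ∀ x ∈ W, ∀ y ∈ W, Δ {x, y}
    · by_cases hgam : Gam Δ W
      · have hsimple : ∀ N, Shat (fun G => Δ G) W N → Ill Δ W N := by
          intro N hN
          have hill := scheme (Δ := Δ) (Y := W) (T := ∅) (disjoint_empty_right _) hgam
            (fun _ => N) (fun R hR _ => by
              rw [subset_empty] at hR
              subst hR
              simpa using hN) hΔ
          rw [union_empty] at hill
          apply hill.mono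
          simp [filter_singleton, h0]
        refine ⟨?_, ?_⟩
        · apply hsimple
          rw [← hW]
          exact shat_powerset _ W
        · by_cases hΔW : Δ W
          · right
            refine ⟨∅, W, id, by simp, by simp, by simp, by simp, ?_⟩
            intro F hF
            simp [hΔ W F hF hΔW]
          · left
            apply hsimple
            have := shat_even (L := fun G => Δ G) hΔW (card_pos.1 (by omega))
            apply this.mono
            rw [hW, Nat.add_sub_cancel, pow_succ]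
            have : 0 < 2 ^ k := by positivity
            omega
      · have hill := ill_clique hΔ hsing he hcl hgam (hgood W hcl hgam)
        rw [hW] at hill
        exact ⟨hill.mono (Nat.sub_le _ _), Or.inl hill⟩
    · push Not at hcl
      obtain ⟨i, hi, j, hj, hij⟩ := hcl
      obtain ⟨a1, a2⟩ := ih (W.erase i) (by rw [card_erase_of_mem hi, hW, Nat.add_sub_cancel])
      obtain ⟨b1, b2⟩ := ih (W.erase j) (by rw [card_erase_of_mem hj, hW, Nat.add_sub_cancel])
      have hp : 0 < 2 ^ k := by positivity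
      have e1 : 2 ^ (k + 1) = 2 ^ k + 2 ^ k := by rw [pow_succ]; ring
      refine ⟨by rw [e1]; exact Ill.conflict hΔ hij a1 b1, ?_⟩
      rcases a2 with a2 | a2
      · left
        exact (Ill.conflict hΔ hij a2 b1).mono (by omega)
      · rcases b2 with b2 | b2
        · left
          exact (Ill.conflict hΔ hij a1 b2).mono (by omega)
        · rw [← hW]
          apply flag_case hΔ h0
          intro C hC hclq
          by_cases hiC : i ∈ C
          · have hjC : j ∉ C := fun hjC => hij (hclq i hiC j hjC)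
            exact b2.flag C (fun x hx => mem_erase.2 ⟨fun e => hjC (e ▸ hx), hC hx⟩) hclq
          · exact a2.flag C (fun x hx => mem_erase.2 ⟨fun e => hiC (e ▸ hx), hC hx⟩) hclq

end Pool.Agent.Lib.MP_5e7226_co.Unc
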