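import Pool.Agent.Lib.MP_5e7226_co.UncS1

set_option autoImplicit false

namespace Pool.Agent.Lib.MP_5e7226_co.Unc

open Finset

variable {V : Type*} [DecidableEq V]

/-- helper22's insertion step: a code for the members without `v`, a code for the link of `v`. -/
lemma shat_insert {L : Finset V → Prop} (hL : ∀ G H : Finset V, H ⊆ G → L G → L H) {M : Finset V}
    {v : V} (hv : v ∉ M) {N₁ N₂ : ℕ} (h1 : Shat L M N₁)
    (h2 : Shat (fun G => L (insert v G)) M N₂) : Shat L (insert v M) (N₁ + N₂) := by
  classical
  obtain ⟨D₁, hD₁, k1⟩ := h1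
  obtain ⟨D₂, hD₂, k2⟩ := h2
  refine ⟨D₁.image (fun X => insert v X) ∪ D₂.image (fun X => X.erase v),
    (card_union_le _ _).trans (Nat.add_le_add (card_image_le.trans hD₁)
      (card_image_le.trans hD₂)), ?_⟩
  intro G hG hLG A hA
  by_cases hvG : v ∈ G
  · have hG' : G.erase v ⊆ M := by
      intro x hx
      obtain ⟨hxv, hxG⟩ := mem_erase.1 hx
      exact (mem_insert.1 (hG hxG)).resolve_left hxv
    have hLG' : L (G.erase v) := hL _ _ (erase_subset _ _) hLG
    by_cases hvA : v ∈ A
    · obtain ⟨X, hX, hXA⟩ := k1 (G.erase v) hG' hLG' (A.erase v) (erase_subset_erase _ hA)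
      refine ⟨insert v X, mem_union_left _ (mem_image_of_mem _ hX), ?_⟩
      ext x
      have h3 := Finset.ext_iff.1 hXA x
      simp only [mem_inter, mem_erase, mem_insert] at h3 ⊢
      by_cases hxv : x = v
      · subst hxv
        simp [hvG, hvA]
      · simp only [hxv, false_or]
        simp only [ne_eq, hxv, not_false_eq_true, true_and] at h3
        exact h3
    · obtain ⟨X, hX, hXA⟩ := k2 (G.erase v) hG' (by
        show L (insert v (G.erase v))
        rwa [insert_erase hvG]) A (by
        intro x hx
        exact mem_erase.2 ⟨fun e => hvA (e ▸ hx), hA hx⟩)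
      refine ⟨X.erase v, mem_union_right _ (mem_image_of_mem _ hX), ?_⟩
      ext x
      have h3 := Finset.ext_iff.1 hXA x
      simp only [mem_inter, mem_erase] at h3 ⊢
      by_cases hxv : x = v
      · subst hxv
        simp [hvA]
      · simp only [ne_eq, hxv, not_false_eq_true, true_and] at h3 ⊢
        exact h3
  · have hGM : G ⊆ M := by
      intro x hx
      exact (mem_insert.1 (hG hx)).resolve_left (fun e => hvG (e ▸ hx))
    obtain ⟨X, hX, hXA⟩ := k1 G hGM hLG A hA
    refine ⟨insert v X, mem_union_left _ (mem_image_of_mem _ hX), ?_⟩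
    rw [insert_inter_of_notMem hvG]
    exact hXA

/-- The iteration over `V₀`. -/
lemma shat_insertion {M : Finset V} (V₀ : Finset V) :
    ∀ (L : Finset V → Prop) (_ : ∀ G H : Finset V, H ⊆ G → L G → L H) (_ : Disjoint M V₀)
      (N : Finset V → ℕ) (_ : ∀ G ⊆ V₀, L G → Shat (fun H => L (H ∪ G)) M (N G)),
      Shat L (M ∪ V₀) (∑ G ∈ V₀.powerset, open scoped Classical in if L G then N G else 0) := by
  classical
  induction V₀ using Finset.induction_on with
  | empty =>
    intro L hL _ N h
    rw [union_empty, powerset_empty, sum_singleton]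
    by_cases h0 : L ∅
    · rw [if_pos h0]
      simpa using h ∅ (Subset.refl _) h0
    · exact ⟨∅, by simp, fun G _ hLG => absurd (hL _ _ (empty_subset _) hLG) h0⟩
  | insert v V₀ hv ih =>
    intro L hL hd N h
    rw [disjoint_insert_right] at hd
    have h1 := ih L hL hd.2 N (fun G hG => h G (hG.trans (subset_insert _ _)))
    have h2 := ih (fun G => L (insert v G)) (fun G H hHG => hL _ _ (insert_subset_insert _ hHG)) hd.2
      (fun G => N (insert v G)) (fun G hG hLG => by
        have h3 := h (insert v G) (insert_subset_insert _ hG) hLG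
        have e : (fun H : Finset V => L (insert v (H ∪ G))) = fun H => L (H ∪ insert v G) := by
          funext H
          rw [union_insert]
        show Shat (fun H => L (insert v (H ∪ G))) M _
        rw [e]
        exact h3)
    have hvM : v ∉ M ∪ V₀ := by
      rw [mem_union, not_or]
      exact ⟨hd.1, hv⟩
    have h3 := shat_insert hL hvM h1 h2
    rw [union_insert, sum_powerset_insert hv]
    exact h3

end Pool.Agent.Lib.MP_5e7226_co.Unc
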