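import Pool.Agent.Lib.MP_5e7226_co.UncS2
import Pool.Agent.Lib.MP_5e7226_co.UncN1

set_option autoImplicit false
set_option linter.unusedSectionVars false

namespace Pool.Agent.Lib.MP_5e7226_co.Unc

open Finset

variable {V : Type*} [Fintype V] [DecidableEq V]

open scoped Classical in
/-- The points of `F₀` joined to `G`. -/
noncomputable def Jn (L : Finset V → Prop) (F₀ G : Finset V) : Finset V :=
  F₀.filter (fun x => L ({x} ∪ G))

/-- The hypotheses of the code lemma: `L` is the link of a face with `k ≥ 1` points, `F₀ ∪ V₀` the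
base, `N + k = |F₀| + |V₀|`, `g` the potential. -/
def CLHyp (g : ℕ → ℕ) (L : Finset V → Prop) (F₀ V₀ : Finset V) (k N : ℕ) : Prop :=
  ∀ G ⊆ V₀, L G →
    (Jn L F₀ G ≠ F₀ → ∀ T ⊆ F₀, L (T ∪ G) →
      2 * g V₀.card * 2 ^ ((Jn L F₀ G).card + G.card) ≤
        2 ^ N * g ((Jn L F₀ G).card - T.card + 1)) ∧
    (Jn L F₀ G = F₀ → k + G.card ≤ V₀.card ∧
      (2 * g V₀.card * 2 ^ (F₀.card + G.card) ≤ 2 ^ N * g 1 ∨
        ∀ T ⊆ F₀, L (T ∪ G) → g V₀.card * 2 ^ (F₀.card + G.card) ≤ 2 ^ N * g (F₀.card - T.card)))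

lemma le_mul_two_pow {g : ℕ → ℕ} (hg2 : ∀ m, 1 ≤ m → g (m + 1) ≤ 2 * g m) {i m : ℕ} (hi : 1 ≤ i)
    (hm : i ≤ m) : g m ≤ g i * 2 ^ (m - i) := by
  obtain ⟨d, rfl⟩ := Nat.exists_eq_add_of_le hm
  rw [Nat.add_sub_cancel_left]
  induction d with
  | zero => simp
  | succ d ih =>
    have h1 := ih (by omega)
    have h2 := hg2 (i + d) (by omega)
    calc g (i + d + 1) ≤ 2 * g (i + d) := h2
      _ ≤ 2 * (g i * 2 ^ d) := Nat.mul_le_mul_left _ h1
      _ = _ := by ring

/-- The choice of the base `F₀ ⊆ Y`: a potential `g`, a ratio `c`. `F` is a largest face. -/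
theorem exists_min_base {Δ : Finset V → Prop}
    (hsing : ∀ i, Δ {i}) (h0 : Δ ∅) {W : Finset V} (hW : ∀ x ∈ W, ∀ y ∈ W, Δ {x, y})
    (hgam : ¬ Gam Δ W) (g : ℕ → ℕ) {c : ℕ} (hc : 0 < c) :
    ∃ F Y F₀ : Finset V, F ⊆ W ∧ Δ F ∧ (∀ H ⊆ W, Δ H → H.card ≤ F.card) ∧
      Y ⊆ W ∧ Gam Δ Y ∧ F.card < Y.card ∧ F₀ ⊆ Y ∧ Δ F₀ ∧
      (∀ Z ⊆ W, Gam Δ Z → F.card < Z.card → ∀ H ⊆ Z, Δ H →
        g (Y.card - F₀.card) * c ^ Z.card ≤ g (Z.card - H.card) * c ^ Y.card) ∧
      (∀ Z ⊆ W, Gam Δ Z → Y.card < Z.card → ∀ H ⊆ Z, Δ H →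
        g (Y.card - F₀.card) * c ^ Z.card < g (Z.card - H.card) * c ^ Y.card) ∧
      g (Y.card - F₀.card) * c ^ (F.card + 1) ≤ g 1 * c ^ Y.card := by
  classical
  -- a largest face
  obtain ⟨F, hF, hFmax⟩ := exists_max_image (W.powerset.filter (fun H => Δ H)) card
    ⟨∅, mem_filter.2 ⟨mem_powerset.2 (empty_subset _), h0⟩⟩
  obtain ⟨hFW, hΔF⟩ := mem_filter.1 hF
  rw [mem_powerset] at hFW
  have hf : ∀ H ⊆ W, Δ H → H.card ≤ F.card := fun H h1 h2 =>
    hFmax H (mem_filter.2 ⟨mem_powerset.2 h1, h2⟩)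
  obtain ⟨v, hvW, hvF⟩ : ∃ v ∈ W, v ∉ F := by
    by_contra hcon
    push Not at hcon
    have : F = W := Subset.antisymm hFW hcon
    exact hgam (this ▸ gam_face hΔF)
  have hGv : Gam Δ (insert v F) := by
    have h1 : Gam Δ ((F ∩ F) ∪ {v}) := gam_link (hsing v) (by
      intro y hy
      have := hW y (hFW hy) v hvW
      rwa [insert_eq] at this) (by
      rw [disjoint_singleton_right]; exact hvF) hΔF
    rwa [inter_self, union_comm, ← insert_eq] at h1
  -- the pairs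
  let P : Finset (Finset V × Finset V) := (W.powerset ×ˢ W.powerset).filter
    (fun p => Gam Δ p.1 ∧ F.card < p.1.card ∧ p.2 ⊆ p.1 ∧ Δ p.2)
  have hP0 : (insert v F, F) ∈ P := by
    refine mem_filter.2 ⟨mem_product.2 ⟨mem_powerset.2 (insert_subset hvW hFW),
      mem_powerset.2 hFW⟩, hGv, ?_, subset_insert _ _, hΔF⟩
    show F.card < (insert v F).card
    rw [card_insert_of_notMem hvF]
    omega
  have hcq : (0 : ℚ) < c := by exact_mod_cast hc
  let ρ : Finset V × Finset V → ℚ := fun p => (g (p.1.card - p.2.card) : ℚ) / (c : ℚ) ^ p.1.card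
  obtain ⟨p₁, hp₁, hmin₁⟩ := exists_min_image P ρ ⟨_, hP0⟩
  obtain ⟨p, hp, hmaxp⟩ := exists_max_image (P.filter (fun q => ρ q = ρ p₁)) (fun q => q.1.card)
    ⟨p₁, mem_filter.2 ⟨hp₁, rfl⟩⟩
  obtain ⟨hpP, hpρ⟩ := mem_filter.1 hp
  obtain ⟨hpW, hYg, hYf, hFY, hΔ0⟩ := mem_filter.1 hpP
  obtain ⟨hYW, hF0W⟩ := mem_product.1 hpW
  rw [mem_powerset] at hYW hF0W
  obtain ⟨Y, F₀⟩ := p
  simp only at hYg hYf hFY hΔ0 hYW hF0W hmaxp hpρ
  -- minimality
  have hmin : ∀ Z ⊆ W, Gam Δ Z → F.card < Z.card → ∀ H ⊆ Z, Δ H →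
      g (Y.card - F₀.card) * c ^ Z.card ≤ g (Z.card - H.card) * c ^ Y.card := by
    intro Z hZ hZg hZf H hH hΔH
    have h1 := hmin₁ (Z, H) (mem_filter.2 ⟨mem_product.2 ⟨mem_powerset.2 hZ,
      mem_powerset.2 (hH.trans hZ)⟩, hZg, hZf, hH, hΔH⟩)
    rw [← hpρ] at h1
    simp only [ρ] at h1
    rw [div_le_div_iff₀ (by positivity) (by positivity)] at h1
    exact_mod_cast h1
  have htie : ∀ Z ⊆ W, Gam Δ Z → Y.card < Z.card → ∀ H ⊆ Z, Δ H →
      g (Y.card - F₀.card) * c ^ Z.card < g (Z.card - H.card) * c ^ Y.card := by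
    intro Z hZ hZg hZY H hH hΔH
    refine lt_of_le_of_ne (hmin Z hZ hZg (by omega) H hH hΔH) ?_
    intro heq
    have h1 : ρ (Z, H) = ρ p₁ := by
      rw [← hpρ]
      simp only [ρ]
      rw [div_eq_div_iff (by positivity) (by positivity)]
      exact_mod_cast heq.symm
    have h2 := hmaxp (Z, H) (mem_filter.2 ⟨mem_filter.2 ⟨mem_product.2 ⟨mem_powerset.2 hZ,
      mem_powerset.2 (hH.trans hZ)⟩, hZg, hYf.trans hZY, hH, hΔH⟩, h1⟩)
    simp only at h2
    omega
  refine ⟨F, Y, F₀, hFW, hΔF, hf, hYW, hYg, hYf, hFY, hΔ0, hmin, htie, ?_⟩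
  have h1 := hmin (insert v F) (insert_subset hvW hFW) hGv (by
    rw [card_insert_of_notMem hvF]; omega) F (subset_insert _ _) hΔF
  rwa [card_insert_of_notMem hvF, Nat.add_sub_cancel_left] at h1

/-- The choice of the base and the hypotheses of the code lemma. -/
theorem exists_base {Δ : Finset V → Prop} (hΔ : ∀ G H : Finset V, H ⊆ G → Δ G → Δ H)
    (hsing : ∀ i, Δ {i}) (h0 : Δ ∅) {W : Finset V} (hW : ∀ x ∈ W, ∀ y ∈ W, Δ {x, y})
    (hgam : ¬ Gam Δ W) {g : ℕ → ℕ} (hg : Monotone g) (hg2 : ∀ m, 1 ≤ m → g (m + 1) ≤ 2 * g m) :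
    ∃ F₀ V₀ : Finset V, F₀ ∪ V₀ ⊆ W ∧ Disjoint F₀ V₀ ∧ V₀.Nonempty ∧ Gam Δ (F₀ ∪ V₀) ∧
      ¬ Δ (F₀ ∪ V₀) ∧ (∀ R ⊆ W, Δ R → R.card < (F₀ ∪ V₀).card) ∧
      ∀ R ⊆ W \ (F₀ ∪ V₀), Δ R → R.Nonempty → ∀ N, N + R.card = (F₀ ∪ V₀).card →
        CLHyp g (fun G => Δ (G ∪ R)) F₀ V₀ R.card N := by
  classical
  obtain ⟨F, Y, F₀, hFW, hΔF, hf, hYW, hYg, hYf, hFY, hΔ0, hmin, htie, hbase⟩ :=
    exists_min_base hsing h0 hW hgam g (c := 2) (by norm_num)
  have hF0W : F₀ ⊆ W := hFY.trans hYW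
  have hYF : Y.card = F₀.card + (Y \ F₀).card := by
    rw [card_sdiff_of_subset hFY]
    have := card_le_card hFY
    omega
  have hi0 : Y.card - F₀.card = (Y \ F₀).card := by omega
  rw [hi0] at hmin htie hbase
  set i := (Y \ F₀).card with hi
  have hi1 : 1 ≤ i := by
    have := hf F₀ hF0W hΔ0
    omega
  have hFV : F₀ ∪ (Y \ F₀) = Y := union_sdiff_of_subset hFY
  refine ⟨F₀, Y \ F₀, by rw [hFV]; exact hYW, disjoint_sdiff, card_pos.1 (by omega),
    by rw [hFV]; exact hYg, ?_, ?_, ?_⟩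
  · rw [hFV]
    intro h1
    have := hf Y hYW h1
    omega
  · intro R hR hΔR
    rw [hFV]
    have := hf R hR hΔR
    omega
  intro R hR hΔR hRne N hN
  rw [hFV] at hR hN
  have hRW : R ⊆ W := hR.trans sdiff_subset
  have hRY : Disjoint Y R := disjoint_of_subset_right hR disjoint_sdiff
  intro G hG hLG
  have hLG' : Δ (G ∪ R) := hLG
  have hGY : G ⊆ Y := hG.trans sdiff_subset
  have hGR : Disjoint G R := disjoint_of_subset_left hGY hRY
  set A := G ∪ R with hA
  have hAc : A.card = G.card + R.card := card_union_of_disjoint hGR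
  have hAW : A ⊆ W := union_subset (hGY.trans hYW) hRW
  have hFA : Disjoint F₀ A := by
    rw [hA, disjoint_union_right]
    exact ⟨disjoint_of_subset_right hG disjoint_sdiff, disjoint_of_subset_left hFY hRY⟩
  have hFW' : F₀ ⊆ W := hF0W
  set J := Jn (fun G => Δ (G ∪ R)) F₀ G with hJ
  have hJF : J ⊆ F₀ := filter_subset _ _
  have hJA : ∀ y ∈ J, Δ ({y} ∪ A) := by
    intro y hy
    have h1 : Δ ({y} ∪ G ∪ R) := (mem_filter.1 hy).2
    rwa [union_assoc] at h1
  have hTJ : ∀ T ⊆ F₀, Δ (T ∪ G ∪ R) → T ⊆ J := by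
    intro T hT hΔT y hy
    refine mem_filter.2 ⟨hT hy, hΔ _ _ ?_ hΔT⟩
    exact union_subset_union (union_subset_union (singleton_subset_iff.2 hy) (Subset.refl _))
      (Subset.refl _)
  have hR1 : 1 ≤ R.card := card_pos.2 hRne
  refine ⟨?_, ?_⟩
  · -- `J ≠ F₀`
    intro hJne T hT hLT
    have hΔT : Δ (T ∪ G ∪ R) := hLT
    have hTJ' := hTJ T hT hΔT
    obtain ⟨z, hzF, hzJ⟩ : ∃ z ∈ F₀, z ∉ J := by
      by_contra hcon
      push Not at hcon
      exact hJne (Subset.antisymm hJF hcon)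
    have hzA : z ∉ A := disjoint_left.1 hFA hzF
    have hK : Gam Δ ({z} ∪ A) := by
      have h1 : Gam Δ ((A ∩ A) ∪ {z}) := gam_link (hsing z) (by
        intro y hy
        have := hW y (hAW hy) z (hFW' hzF)
        rwa [insert_eq] at this) (by
        rw [disjoint_singleton_right]; exact hzA) hLG'
      rwa [inter_self, union_comm] at h1
    have hJz : J ∪ {z} ⊆ F₀ := union_subset hJF (by simpa using hzF)
    have hd : Disjoint (J ∪ {z}) A := disjoint_of_subset_left hJz hFA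
    have hZg := gam_link2 hLG' hJA hd (by rw [disjoint_singleton_right]; exact hzJ) hΔ0 hJz hK
    have hZW : (J ∪ {z}) ∪ A ⊆ W := union_subset (hJz.trans hFW') hAW
    have hZc : ((J ∪ {z}) ∪ A).card = J.card + 1 + (G.card + R.card) := by
      rw [card_union_of_disjoint hd, card_union_of_disjoint
        (by rw [disjoint_singleton_right]; exact hzJ), card_singleton, hAc]
    have hTA : Disjoint T A := disjoint_of_subset_left hT hFA
    have hTAc : (T ∪ A).card = T.card + (G.card + R.card) := by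
      rw [card_union_of_disjoint hTA, hAc]
    have hTJc : T.card ≤ J.card := card_le_card hTJ'
    have hYN : 2 ^ Y.card = 2 ^ N * 2 ^ R.card := by rw [← hN, pow_add]
    have hZp : 2 ^ (J.card + 1 + (G.card + R.card)) = 2 * 2 ^ (J.card + G.card) * 2 ^ R.card := by
      ring
    by_cases hZf : F.card < ((J ∪ {z}) ∪ A).card
    · have h1 := hmin _ hZW hZg hZf (T ∪ A) (union_subset_union
        (hTJ'.trans subset_union_left) (Subset.refl _)) (by
          rw [hA, ← union_assoc]; exact hΔT)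
      rw [hZc, hTAc] at h1
      have e1 : J.card + 1 + (G.card + R.card) - (T.card + (G.card + R.card)) =
          J.card - T.card + 1 := by omega
      rw [e1, hYN, hZp] at h1
      have h2 : (2 * g i * 2 ^ (J.card + G.card)) * 2 ^ R.card ≤
          (2 ^ N * g (J.card - T.card + 1)) * 2 ^ R.card := by
        calc _ = g i * (2 * 2 ^ (J.card + G.card) * 2 ^ R.card) := by ring
          _ ≤ _ := h1
          _ = _ := by ring
      exact Nat.le_of_mul_le_mul_right h2 (by positivity)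
    · rw [hZc] at hZf
      have h1 : g i * 2 ^ (J.card + 1 + (G.card + R.card)) ≤ g i * 2 ^ (F.card + 1) :=
        Nat.mul_le_mul_left _ (Nat.pow_le_pow_right (by norm_num) (by omega))
      have h2 := h1.trans hbase
      rw [hYN, hZp] at h2
      have h3 : (2 * g i * 2 ^ (J.card + G.card)) * 2 ^ R.card ≤ (2 ^ N * g 1) * 2 ^ R.card := by
        calc _ = g i * (2 * 2 ^ (J.card + G.card) * 2 ^ R.card) := by ring
          _ ≤ _ := h2
          _ = _ := by ring
      have h4 := Nat.le_of_mul_le_mul_right h3 (by positivity)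
      exact h4.trans (Nat.mul_le_mul_left _ (hg (by omega)))
  · -- `J = F₀`
    intro hJe
    have hZg : Gam Δ ((F₀ ∩ F₀) ∪ A) := gam_link hLG' (fun y hy => hJA y (hJe ▸ hy)) hFA hΔ0
    rw [inter_self] at hZg
    have hZW : F₀ ∪ A ⊆ W := union_subset hFW' hAW
    have hZc : (F₀ ∪ A).card = F₀.card + (G.card + R.card) := by
      rw [card_union_of_disjoint hFA, hAc]
    have hYN : 2 ^ Y.card = 2 ^ N * 2 ^ R.card := by rw [← hN, pow_add]
    have hZp : 2 ^ (F₀.card + (G.card + R.card)) = 2 ^ (F₀.card + G.card) * 2 ^ R.card := by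
      ring
    have hki : R.card + G.card ≤ i := by
      by_contra hcon
      push Not at hcon
      have h1 := htie _ hZW hZg (by rw [hZc]; omega) F₀ subset_union_left hΔ0
      rw [hZc, Nat.add_sub_cancel_left] at h1
      have h2 := le_mul_two_pow hg2 hi1 hcon.le
      have e2 : F₀.card + (G.card + R.card) = (R.card + G.card - i) + Y.card := by omega
      rw [e2, pow_add, ← mul_assoc] at h1
      have h3 := Nat.lt_of_mul_lt_mul_right h1
      have e3 : g (G.card + R.card) = g (R.card + G.card) := by rw [add_comm]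
      omega
    refine ⟨hki, ?_⟩
    by_cases hZf : F.card < (F₀ ∪ A).card
    · right
      intro T hT hLT
      have hΔT : Δ (T ∪ G ∪ R) := hLT
      have hTA : Disjoint T A := disjoint_of_subset_left hT hFA
      have hTAc : (T ∪ A).card = T.card + (G.card + R.card) := by
        rw [card_union_of_disjoint hTA, hAc]
      have h1 := hmin _ hZW hZg hZf (T ∪ A) (union_subset_union hT (Subset.refl _)) (by
          rw [hA, ← union_assoc]; exact hΔT)
      rw [hZc, hTAc] at h1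
      have e1 : F₀.card + (G.card + R.card) - (T.card + (G.card + R.card)) =
          F₀.card - T.card := by
        have := card_le_card hT
        omega
      rw [e1, hYN, hZp] at h1
      have h2 : (g i * 2 ^ (F₀.card + G.card)) * 2 ^ R.card ≤
          (2 ^ N * g (F₀.card - T.card)) * 2 ^ R.card := by
        calc _ = g i * (2 ^ (F₀.card + G.card) * 2 ^ R.card) := by ring
          _ ≤ _ := h1
          _ = _ := by ring
      exact Nat.le_of_mul_le_mul_right h2 (by positivity)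
    · left
      rw [hZc] at hZf
      have h1 : g i * 2 ^ (F₀.card + (G.card + R.card) + 1) ≤ g i * 2 ^ (F.card + 1) :=
        Nat.mul_le_mul_left _ (Nat.pow_le_pow_right (by norm_num) (by omega))
      have h2 := h1.trans hbase
      rw [hYN, pow_succ, hZp] at h2
      have h3 : (2 * g i * 2 ^ (F₀.card + G.card)) * 2 ^ R.card ≤ (2 ^ N * g 1) * 2 ^ R.card := by
        calc _ = g i * (2 ^ (F₀.card + G.card) * 2 ^ R.card * 2) := by ring
          _ ≤ _ := h2
          _ = _ := by ring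
      exact Nat.le_of_mul_le_mul_right h3 (by positivity)

/-- The reduction to the code lemma. -/
theorem ill_of_codes {Δ : Finset V → Prop} (hΔ : ∀ G H : Finset V, H ⊆ G → Δ G → Δ H)
    (hsing : ∀ i, Δ {i}) (h0 : Δ ∅) {W : Finset V} (hW : ∀ x ∈ W, ∀ y ∈ W, Δ {x, y})
    (hgam : ¬ Gam Δ W) {g : ℕ → ℕ} (hg : Monotone g) (hg2 : ∀ m, 1 ≤ m → g (m + 1) ≤ 2 * g m)
    (hcode : ∀ (L : Finset V → Prop) (F₀ V₀ : Finset V) (k N : ℕ),
      (∀ G H : Finset V, H ⊆ G → L G → L H) → L ∅ → Disjoint F₀ V₀ → 1 ≤ k → 1 ≤ V₀.card →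
      N + k = F₀.card + V₀.card → CLHyp g L F₀ V₀ k N → Shat L (F₀ ∪ V₀) (2 ^ N)) :
    Ill Δ W (2 ^ W.card - 1) := by
  classical
  obtain ⟨F₀, V₀, hYW, hd, hV, hYg, hΔY, hcard, hR⟩ := exists_base hΔ hsing h0 hW hgam hg hg2
  have hYc : (F₀ ∪ V₀).card = F₀.card + V₀.card := card_union_of_disjoint hd
  have hVc := card_pos.2 hV
  apply ill_of_links hΔ hYW hYg (card_pos.1 (by omega)) hΔY h0
  · intro R hR1 hΔR
    exact (hcard R (hR1.trans sdiff_subset) hΔR).le
  · intro R hR1 hΔR hRne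
    have h1 := hcard R (hR1.trans sdiff_subset) hΔR
    have h2 : (F₀ ∪ V₀).card - R.card + R.card = (F₀ ∪ V₀).card := by omega
    exact hcode _ F₀ V₀ R.card _ (fun G H h hG => hΔ _ _ (union_subset_union h (Subset.refl _)) hG)
      (by simpa using hΔR) hd (card_pos.2 hRne) hVc (by omega) (hR R hR1 hΔR hRne _ h2)

end Pool.Agent.Lib.MP_5e7226_co.Unc
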