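import Pool.Agent.Lib.MP_5e7226_co.UncN2

set_option autoImplicit false
set_option linter.unusedSectionVars false

namespace Pool.Agent.Lib.MP_5e7226_co.Unc

open Finset

/-- helper29's potential (times five). -/
def g5 (a : ℕ) : ℕ := if a ≤ 3 then 4 * a else 5 * a

lemma g5_mono : Monotone g5 := by
  intro a b hab
  unfold g5
  split_ifs <;> omega

lemma g5_two (m : ℕ) (hm : 1 ≤ m) : g5 (m + 1) ≤ 2 * g5 m := by
  unfold g5
  split_ifs <;> omega

lemma g5_le (a : ℕ) : g5 a ≤ 5 * a := by
  unfold g5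
  split_ifs <;> omega

/-- The cost of a set with `w` points of `V₀`. -/
def kap (i k w : ℕ) : ℚ :=
  if k + w ≤ i then max (5 / (2 ^ w * (2 * g5 i))) (1 / (2 ^ (i - k) *
    ((((range i).filter (fun a => 2 ^ (i - k - w) * g5 a < g5 i)).card + 1 : ℕ) : ℚ)))
  else 5 / (2 ^ w * (2 * g5 i))

lemma kap_sum1 : ∀ i < 6, 1 ≤ i → ∀ k < 7, 1 ≤ k →
    ∑ w ∈ range (i + 1), ((i.choose w : ℕ) : ℚ) * kap i k w ≤ 1 := by decide +kernel

lemma kap_sum {i k : ℕ} (hi : i < 6) (hi1 : 1 ≤ i) (hk : 1 ≤ k) :
    ∑ w ∈ range (i + 1), ((i.choose w : ℕ) : ℚ) * kap i k w ≤ 1 := by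
  by_cases h : k < 7
  · exact kap_sum1 i hi hi1 k h hk
  · have h6 := kap_sum1 i hi hi1 6 (by norm_num) (by norm_num)
    refine le_trans (le_of_eq (sum_congr rfl ?_)) h6
    intro w _
    have h1 : ¬ k + w ≤ i := by omega
    have h2 : ¬ 6 + w ≤ i := by omega
    simp only [kap, h1, h2, if_false]

variable {V : Type*} [Fintype V] [DecidableEq V]

/-- The cost of `G` in the insertion scheme. -/
lemma shat_cost {L : Finset V → Prop} {F₀ V₀ : Finset V} {k N : ℕ} (hi1 : 1 ≤ V₀.card)
    (hN : N + k = F₀.card + V₀.card) (h : CLHyp g5 L F₀ V₀ k N)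
    (hL : ∀ G H : Finset V, H ⊆ G → L G → L H) {G : Finset V} (hG : G ⊆ V₀) (hLG : L G) :
    ∃ n : ℕ, Shat (fun H => L (H ∪ G)) F₀ n ∧ (n : ℚ) ≤ 2 ^ N * kap V₀.card k G.card := by
  classical
  set J := Jn L F₀ G with hJ
  have hJF : J ⊆ F₀ := filter_subset _ _
  set i := V₀.card with hi
  -- a largest member of the link of `G`
  obtain ⟨T, hT, hTmax⟩ := exists_max_image (F₀.powerset.filter (fun H => L (H ∪ G))) card
    ⟨∅, mem_filter.2 ⟨mem_powerset.2 (empty_subset _), by simpa using hLG⟩⟩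
  obtain ⟨hTF, hLT⟩ := mem_filter.1 hT
  rw [mem_powerset] at hTF
  have hin : ∀ H ⊆ F₀, L (H ∪ G) → H ⊆ J := by
    intro H hH hLH y hy
    exact mem_filter.2 ⟨hH hy, hL _ _ (union_subset_union (singleton_subset_iff.2 hy)
      (Subset.refl _)) hLH⟩
  have hTJ : T.card ≤ J.card := card_le_card (hin T hTF hLT)
  set q := J.card - T.card + 1 with hq
  have hq1 : 1 ≤ q := by omega
  refine ⟨2 ^ J.card / q, ?_, ?_⟩
  · apply Shat.of_subset _ hin
    apply shat_modq hq1
    intro H hH hLH
    have := hTmax H (mem_filter.2 ⟨mem_powerset.2 (hH.trans hJF), hLH⟩)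
    omega
  · have hq0 : (0 : ℚ) < q := by exact_mod_cast hq1
    have hgi : 1 ≤ g5 i := by
      unfold g5
      split_ifs <;> omega
    have hgi0 : (0 : ℚ) < g5 i := by exact_mod_cast hgi
    have hdiv : ((2 ^ J.card / q : ℕ) : ℚ) ≤ 2 ^ J.card / q := by
      have := @Nat.cast_div_le ℚ _ _ _ (2 ^ J.card) q
      rwa [Nat.cast_pow, Nat.cast_ofNat] at this
    refine hdiv.trans ?_
    obtain ⟨ha, hb⟩ := h G hG hLG
    have hgen : ∀ b : ℕ, b ≤ q → 2 * g5 i * 2 ^ (J.card + G.card) ≤ 2 ^ N * g5 b →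
        (2 : ℚ) ^ J.card / q ≤ 2 ^ N * (5 / (2 ^ G.card * (2 * g5 i))) := by
      intro b hbq h1
      have h2 : g5 b ≤ 5 * q := (g5_mono hbq).trans (g5_le q)
      have h3 : 2 * g5 i * 2 ^ (J.card + G.card) ≤ 2 ^ N * (5 * q) :=
        h1.trans (Nat.mul_le_mul_left _ h2)
      have h4 : (2 : ℚ) * g5 i * 2 ^ (J.card + G.card) ≤ 2 ^ N * (5 * q) := by exact_mod_cast h3
      rw [div_le_iff₀ hq0, mul_div_assoc', div_mul_eq_mul_div, le_div_iff₀ (by positivity)]
      calc (2 : ℚ) ^ J.card * (2 ^ G.card * (2 * g5 i)) = 2 * g5 i * 2 ^ (J.card + G.card) := by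
            rw [pow_add]; ring
        _ ≤ 2 ^ N * (5 * q) := h4
        _ = 2 ^ N * 5 * q := by ring
    by_cases hJF₀ : J = F₀
    · obtain ⟨hki, hb⟩ := hb hJF₀
      have hkap : kap i k G.card = max (5 / (2 ^ G.card * (2 * (g5 i : ℚ)))) (1 / (2 ^ (i - k) *
          ((((range i).filter (fun a => 2 ^ (i - k - G.card) * g5 a < g5 i)).card + 1 : ℕ) :
            ℚ))) := by
        rw [kap, if_pos hki]
      rw [hkap]
      rcases hb with hb | hb
      · refine (hgen 1 hq1 (by rw [hJF₀]; exact hb)).trans ?_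
        exact mul_le_mul_of_nonneg_left (le_max_left _ _) (by positivity)
      · refine le_trans ?_ (mul_le_mul_of_nonneg_left (le_max_right _ _) (by positivity))
        have h1 := hb T hTF hLT
        have hNe : N = F₀.card + (i - k) := by omega
        have hNe' : N = (F₀.card + G.card) + (i - k - G.card) := by omega
        have h2 : g5 i ≤ 2 ^ (i - k - G.card) * g5 (q - 1) := by
          have e1 : q - 1 = F₀.card - T.card := by rw [hq, hJF₀]; omega
          rw [e1]
          have h3 : g5 i * 2 ^ (F₀.card + G.card) ≤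
              (2 ^ (i - k - G.card) * g5 (F₀.card - T.card)) * 2 ^ (F₀.card + G.card) := by
            calc _ ≤ 2 ^ N * g5 (F₀.card - T.card) := h1
              _ = _ := by
                conv_lhs => rw [hNe', pow_add]
                ring
          exact Nat.le_of_mul_le_mul_right h3 (by positivity)
        have h3 : ((range i).filter (fun a => 2 ^ (i - k - G.card) * g5 a < g5 i)).card ≤
            q - 1 := by
          calc _ ≤ (range (q - 1)).card := by
                apply card_le_card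
                intro a ha'
                obtain ⟨_, h5⟩ := mem_filter.1 ha'
                rw [mem_range]
                by_contra hcon
                push Not at hcon
                have h6 := Nat.mul_le_mul_left (2 ^ (i - k - G.card)) (g5_mono hcon)
                omega
            _ = _ := card_range _
        have h4 : ((range i).filter (fun a => 2 ^ (i - k - G.card) * g5 a < g5 i)).card + 1 ≤
            q := by omega
        rw [hJF₀, hNe, pow_add, mul_one_div, div_le_div_iff₀ hq0 (by positivity)]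
        have h5 : ((((range i).filter (fun a => 2 ^ (i - k - G.card) * g5 a < g5 i)).card + 1 :
            ℕ) : ℚ) ≤ q := by exact_mod_cast h4
        calc (2 : ℚ) ^ F₀.card * (2 ^ (i - k) * ((((range i).filter
              (fun a => 2 ^ (i - k - G.card) * g5 a < g5 i)).card + 1 : ℕ) : ℚ))
            ≤ (2 : ℚ) ^ F₀.card * (2 ^ (i - k) * q) := by gcongr
          _ = _ := by ring
    · have h1 := hgen q le_rfl (ha hJF₀ T hTF hLT)
      refine h1.trans (mul_le_mul_of_nonneg_left ?_ (by positivity))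
      unfold kap
      split_ifs
      · exact le_max_left _ _
      · exact le_rfl

/-- helper22's case `i ≤ 5`. -/
theorem shat_five {L : Finset V → Prop} {F₀ V₀ : Finset V} {k N : ℕ}
    (hL : ∀ G H : Finset V, H ⊆ G → L G → L H) (hd : Disjoint F₀ V₀) (hk : 1 ≤ k)
    (hi1 : 1 ≤ V₀.card) (hi5 : V₀.card ≤ 5)
    (hN : N + k = F₀.card + V₀.card) (h : CLHyp g5 L F₀ V₀ k N) :
    Shat L (F₀ ∪ V₀) (2 ^ N) := by
  classical
  have h1 : ∀ G : Finset V, ∃ n : ℕ, (G ⊆ V₀ → L G → Shat (fun H => L (H ∪ G)) F₀ n) ∧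
      (n : ℚ) ≤ 2 ^ N * kap V₀.card k G.card := by
    intro G
    by_cases hG : G ⊆ V₀ ∧ L G
    · obtain ⟨n, h2, h3⟩ := shat_cost hi1 hN h hL hG.1 hG.2
      exact ⟨n, fun _ _ => h2, h3⟩
    · refine ⟨0, fun h2 h3 => absurd ⟨h2, h3⟩ hG, ?_⟩
      have h0 : (0 : ℚ) ≤ kap V₀.card k G.card := by
        unfold kap
        split_ifs
        · exact le_max_of_le_left (by positivity)
        · positivity
      simpa using mul_nonneg (by positivity : (0 : ℚ) ≤ 2 ^ N) h0
  choose n hn1 hn2 using h1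
  refine (shat_insertion V₀ L hL hd n (fun G hG hLG => hn1 G hG hLG)).mono ?_
  have h2 : ((∑ G ∈ V₀.powerset, (open scoped Classical in if L G then n G else 0) : ℕ) : ℚ) ≤
      2 ^ N := by
    rw [Nat.cast_sum]
    calc _ ≤ ∑ G ∈ V₀.powerset, 2 ^ N * kap V₀.card k G.card := by
          apply sum_le_sum
          intro G _
          split_ifs
          · exact hn2 G
          · exact le_trans (by positivity) (hn2 G)
      _ = 2 ^ N * ∑ w ∈ range (V₀.card + 1), ((V₀.card.choose w : ℕ) : ℚ) *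
            kap V₀.card k w := by
          rw [← mul_sum, sum_powerset_apply_card]
          simp only [nsmul_eq_mul]
      _ ≤ 2 ^ N * 1 := mul_le_mul_of_nonneg_left (kap_sum (by omega) hi1 hk) (by positivity)
      _ = 2 ^ N := mul_one _
  exact_mod_cast h2

end Pool.Agent.Lib.MP_5e7226_co.Unc
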