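import Pool.Agent.Lib.MP_5e7226_co.UncR2

set_option autoImplicit false

namespace Pool.Agent.Lib.MP_5e7226_co.Unc

open Finset

variable {V : Type*} [DecidableEq V]

/-- Number of cells prescribed by a pattern. -/
theorem R3_card (V₀ H : Finset V) (G W J τ₀ π : Finset V) (n h m : ℕ) (hG : G ⊆ V₀)
    (hJ : J ⊆ H ∩ W) (hτ : τ₀ ⊆ (H ∩ W) \ J) (hπ : π ⊆ G) (hn : h + m ≤ n) :
    2 ^ ((H \ W).card + J.card + (V₀.card - G.card)) * (m + 1) ≤
      ((H.powerset ×ˢ range (n + 1) ×ˢ V₀.powerset).filter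
        (fun e => e.1 ∩ ((H ∩ W) \ J) = τ₀ ∧ h ≤ e.2.1 ∧ e.2.1 ≤ h + m ∧ e.2.2 ∩ G = π)).card := by
  have hJH : ∀ x, x ∈ J → x ∈ H ∧ x ∈ W := fun x hx => mem_inter.1 (hJ hx)
  have hdis : Disjoint (H \ W) J := by
    rw [disjoint_left]
    intro x hx hx'
    exact (mem_sdiff.1 hx).2 (hJH x hx').2
  have hcard : (((H \ W) ∪ J).powerset ×ˢ range (m + 1) ×ˢ (V₀ \ G).powerset).card =
      2 ^ ((H \ W).card + J.card + (V₀.card - G.card)) * (m + 1) := by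
    rw [card_product, card_product, card_powerset, card_powerset, card_range,
      card_union_of_disjoint hdis, card_sdiff_of_subset hG, pow_add, pow_add, pow_add]
    ring
  rw [← hcard]
  refine card_le_card_of_injOn (fun e => (τ₀ ∪ e.1, h + e.2.1, π ∪ e.2.2)) ?_ ?_
  · intro e he
    have he1 := mem_product.1 (mem_coe.1 he)
    have he2 := mem_product.1 he1.2
    have q1 := mem_powerset.1 he1.1
    have q2 := mem_range.1 he2.1
    have q3 := mem_powerset.1 he2.2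
    rw [mem_coe, mem_filter, mem_product, mem_product, mem_powerset, mem_powerset, mem_range]
    refine ⟨⟨?_, ?_, ?_⟩, ?_, ?_, ?_, ?_⟩
    · refine union_subset (fun x hx => (mem_inter.1 (mem_sdiff.1 (hτ hx)).1).1) fun x hx => ?_
      rcases mem_union.1 (q1 hx) with hx | hx
      · exact (mem_sdiff.1 hx).1
      · exact (hJH x hx).1
    · show h + e.2.1 < n + 1
      omega
    · exact union_subset (hπ.trans hG) (q3.trans sdiff_subset)
    · refine Subset.antisymm ?_ fun x hx => mem_inter.2 ⟨mem_union_left _ hx, hτ hx⟩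
      intro x hx
      obtain ⟨hx1, hx2⟩ := mem_inter.1 hx
      rcases mem_union.1 hx1 with hx1 | hx1
      · exact hx1
      · rcases mem_union.1 (q1 hx1) with hx3 | hx3
        · exact absurd (mem_inter.1 (mem_sdiff.1 hx2).1).2 (mem_sdiff.1 hx3).2
        · exact absurd hx3 (mem_sdiff.1 hx2).2
    · exact Nat.le_add_right _ _
    · show h + e.2.1 ≤ h + m
      omega
    · refine Subset.antisymm ?_ fun x hx => mem_inter.2 ⟨mem_union_left _ hx, hπ hx⟩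
      intro x hx
      obtain ⟨hx1, hx2⟩ := mem_inter.1 hx
      rcases mem_union.1 hx1 with hx1 | hx1
      · exact hx1
      · exact absurd hx2 (mem_sdiff.1 (q3 hx1)).2
  · intro e he f hf hef
    have he1 := mem_product.1 (mem_coe.1 he)
    have he2 := mem_product.1 he1.2
    have hf1 := mem_product.1 (mem_coe.1 hf)
    have hf2 := mem_product.1 hf1.2
    have q1 := mem_powerset.1 he1.1
    have q3 := mem_powerset.1 he2.2
    have r1 := mem_powerset.1 hf1.1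
    have r3 := mem_powerset.1 hf2.2
    have g1 : τ₀ ∪ e.1 = τ₀ ∪ f.1 := congrArg Prod.fst hef
    have g2 : h + e.2.1 = h + f.2.1 := congrArg (fun z => z.2.1) hef
    have g3 : π ∪ e.2.2 = π ∪ f.2.2 := congrArg (fun z => z.2.2) hef
    have d1 : ∀ a, a ⊆ (H \ W) ∪ J → Disjoint τ₀ a := by
      intro a ha
      rw [disjoint_left]
      intro x hx hx'
      have hx1 := mem_sdiff.1 (hτ hx)
      rcases mem_union.1 (ha hx') with hx2 | hx2
      · exact (mem_sdiff.1 hx2).2 (mem_inter.1 hx1.1).2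
      · exact hx1.2 hx2
    have d3 : ∀ a, a ⊆ V₀ \ G → Disjoint π a := by
      intro a ha
      rw [disjoint_left]
      intro x hx hx'
      exact (mem_sdiff.1 (ha hx')).2 (hπ hx)
    have h1 : e.1 = f.1 := by
      have := congrArg (fun z => z \ τ₀) g1
      simpa [union_sdiff_cancel_left (d1 _ q1), union_sdiff_cancel_left (d1 _ r1)] using this
    have h3 : e.2.2 = f.2.2 := by
      have := congrArg (fun z => z \ π) g3
      simpa [union_sdiff_cancel_left (d3 _ q3), union_sdiff_cancel_left (d3 _ r3)] using this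
    have h2 : e.2.1 = f.2.1 := by omega
    exact Prod.ext h1 (Prod.ext h2 h3)

/-- Weight of all the cells. -/
theorem R3_total (F V₀ H : Finset V) (hH : H ⊆ F) :
    ∑ e ∈ H.powerset ×ˢ range ((F \ H).card + 1) ×ˢ V₀.powerset, ((F \ H).card.choose e.2.1 : ℝ) =
      2 ^ (F.card + V₀.card) := by
  rw [sum_product]
  have h1 : ∀ a ∈ H.powerset, ∑ y ∈ range ((F \ H).card + 1) ×ˢ V₀.powerset,
      ((F \ H).card.choose y.1 : ℝ) = 2 ^ V₀.card * 2 ^ (F \ H).card := by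
    intro a _
    rw [sum_product]
    have h2 : ∀ x ∈ range ((F \ H).card + 1), ∑ y ∈ V₀.powerset,
        ((F \ H).card.choose x : ℝ) = 2 ^ V₀.card * ((F \ H).card.choose x : ℝ) := by
      intro x _
      rw [sum_const, card_powerset, nsmul_eq_mul]
      push_cast
      ring
    rw [sum_congr rfl h2, ← mul_sum]
    congr 1
    have := Nat.sum_range_choose (F \ H).card
    exact_mod_cast this
  rw [sum_congr rfl h1, sum_const, card_powerset, nsmul_eq_mul]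
  have h3 : F.card = H.card + (F \ H).card := by
    rw [card_sdiff_of_subset hH]
    have := card_le_card hH
    omega
  rw [h3, pow_add, pow_add]
  push_cast
  ring

/-- Cost of the patterns belonging to one pair `G, J`. -/
theorem R3_pat (F H : Finset V) (hH : H ⊆ F) (G W J : Finset V) (hJ : J ⊆ H ∩ W)
    (hs : Finset ℕ) (ρ : ℕ) (hρ : 1 ≤ ρ) (hhs : ρ * ∑ h ∈ hs, (F \ H).card.choose h ≤ 2 ^ (F \ H).card)
    (q : ℝ) (hq : 0 ≤ q) :
    ∑ y ∈ ((H ∩ W) \ J).powerset ×ˢ hs ×ˢ G.powerset, ((F \ H).card.choose y.2.1 : ℝ) * q ≤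
      (2 ^ (G.card + F.card - (H \ W).card - J.card) / ρ) * q := by
  have hρ' : (0 : ℝ) < ρ := by exact_mod_cast hρ
  rw [← sum_mul]
  refine mul_le_mul_of_nonneg_right ?_ hq
  rw [sum_product]
  have h1 : ∀ a ∈ ((H ∩ W) \ J).powerset, ∑ y ∈ hs ×ˢ G.powerset,
      ((F \ H).card.choose y.1 : ℝ) = 2 ^ G.card * ∑ h ∈ hs, ((F \ H).card.choose h : ℝ) := by
    intro a _
    rw [sum_product, mul_sum]
    refine sum_congr rfl fun x _ => ?_
    show ∑ y ∈ G.powerset, ((F \ H).card.choose x : ℝ) = 2 ^ G.card * ((F \ H).card.choose x : ℝ)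
    rw [sum_const, card_powerset, nsmul_eq_mul]
    push_cast
    ring
  rw [sum_congr rfl h1, sum_const, card_powerset, nsmul_eq_mul]
  have h3 : F.card = H.card + (F \ H).card := by
    rw [card_sdiff_of_subset hH]
    have := card_le_card hH
    omega
  have h4 : H.card = (H \ W).card + ((H ∩ W) \ J).card + J.card := by
    rw [card_sdiff_of_subset hJ]
    have e1 := card_le_card hJ
    have e2 := card_sdiff_add_card_inter H W
    omega
  have h5 : G.card + F.card - (H \ W).card - J.card =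
      G.card + ((H ∩ W) \ J).card + (F \ H).card := by omega
  rw [h5, le_div_iff₀ hρ', pow_add, pow_add]
  have h6 : (ρ : ℝ) * ∑ h ∈ hs, ((F \ H).card.choose h : ℝ) ≤ 2 ^ (F \ H).card := by
    exact_mod_cast hhs
  have h7 : (0 : ℝ) ≤ 2 ^ ((H ∩ W) \ J).card * 2 ^ G.card := by positivity
  have h8 := mul_le_mul_of_nonneg_left h6 h7
  push_cast
  calc (2 : ℝ) ^ ((H ∩ W) \ J).card * (2 ^ G.card * ∑ h ∈ hs, ((F \ H).card.choose h : ℝ)) * ρ
      = 2 ^ ((H ∩ W) \ J).card * 2 ^ G.card * (ρ * ∑ h ∈ hs, ((F \ H).card.choose h : ℝ)) := by ring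
    _ ≤ 2 ^ ((H ∩ W) \ J).card * 2 ^ G.card * 2 ^ (F \ H).card := h8
    _ = _ := by ring

/-- A pattern is served by a word of the chosen cells. -/
theorem R3_cover (F V₀ H : Finset V) (hd : Disjoint F V₀) (hH : H ⊆ F) (G W T B : Finset V)
    (hG : G ⊆ V₀) (hW : W ⊆ F) (b : ℕ) (ρ res : ℕ → ℕ)
    (hρ : ∀ t ≤ b, 1 ≤ ρ t ∧ ρ t ≤ b + 1 - t) (hres : ∀ t ≤ b, res t < ρ t)
    (D : Finset (Finset V × ℕ × Finset V))
    (hD : ∀ e ∈ D, e.1 ⊆ H ∧ e.2.2 ⊆ V₀)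
    (hDc : ∀ t ≤ b, ∀ J ⊆ H ∩ W, J.card = t → ∀ τ₀ ⊆ (H ∩ W) \ J, ∀ h, h % ρ t = res t →
      h + (b + 1 - t - ρ t) ≤ (F \ H).card → ∀ π ⊆ G, ∃ e ∈ D, e.1 ∩ ((H ∩ W) \ J) = τ₀ ∧
        h ≤ e.2.1 ∧ e.2.1 ≤ h + (b + 1 - t - ρ t) ∧ e.2.2 ∩ G = π)
    (hT : T ⊆ W) (hTb : b ≤ (W \ T).card) (hB : B ⊆ T ∪ G) :
    ∃ X ⊆ F ∪ V₀, R2_cell F V₀ H X ∈ D ∧ X ∩ (T ∪ G) = B := by
  obtain ⟨M, hM, hMb⟩ := exists_subset_card_eq hTb
  have hTM : T ⊆ W \ M := fun x hx => mem_sdiff.2 ⟨hT hx, fun hxM => (mem_sdiff.1 (hM hxM)).2 hx⟩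
  have hMW : M ⊆ W := hM.trans sdiff_subset
  have hB' : B ⊆ (W \ M) ∪ G := hB.trans (union_subset_union hTM Subset.rfl)
  have hJb : (M ∩ H).card ≤ b := hMb ▸ card_le_card inter_subset_left
  have hJ : M ∩ H ⊆ H ∩ W := fun x hx =>
    mem_inter.2 ⟨(mem_inter.1 hx).2, hMW (mem_inter.1 hx).1⟩
  have hJM : (H ∩ W) \ (M ∩ H) = (H ∩ W) \ M := by
    ext x
    simp only [mem_sdiff, mem_inter]
    tauto
  obtain ⟨hρ1, hρ2⟩ := hρ _ hJb
  obtain ⟨δ, hδ, hδr⟩ := R2_shift (B ∩ ((W \ M) \ H)).card (ρ (M ∩ H).card) (res (M ∩ H).card)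
    (hres _ hJb)
  have hMH : (M \ H).card = b - (M ∩ H).card := by
    have := card_sdiff_add_card_inter M H
    omega
  have hle : (B ∩ ((W \ M) \ H)).card + (M \ H).card ≤ (F \ H).card := by
    rw [← card_union_of_disjoint]
    · refine card_le_card fun x hx => ?_
      rcases mem_union.1 hx with hx | hx
      · have h1 := mem_sdiff.1 (mem_inter.1 hx).2
        exact mem_sdiff.2 ⟨hW (mem_sdiff.1 h1.1).1, h1.2⟩
      · exact mem_sdiff.2 ⟨hW (hMW (mem_sdiff.1 hx).1), (mem_sdiff.1 hx).2⟩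
    · rw [disjoint_left]
      intro x hx hx'
      exact (mem_sdiff.1 (mem_sdiff.1 (mem_inter.1 hx).2).1).2 (mem_sdiff.1 hx').1
  obtain ⟨e, he, e1, e2, e3, e4⟩ := hDc _ hJb (M ∩ H) hJ rfl (B ∩ ((H ∩ W) \ (M ∩ H)))
    inter_subset_right ((B ∩ ((W \ M) \ H)).card + δ) hδr (by omega) (B ∩ G) inter_subset_right
  obtain ⟨X, hX, hXc, hXB⟩ := R2_word F V₀ H hd hH W G M B e.1 e.2.2 hW hG hMW hB' (hD e he).1
    (hD e he).2 (by rw [← hJM]; exact e1) e4 e.2.1 (by omega) (by omega)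
  refine ⟨X, hX, by rw [hXc]; exact he, ?_⟩
  have : X ∩ (T ∪ G) = X ∩ ((W \ M) ∪ G) ∩ (T ∪ G) := by
    rw [inter_assoc, inter_eq_right.2 (union_subset_union hTM Subset.rfl)]
  rw [this, hXB, inter_eq_left.2 hB]

/-- **Cell codes.** Random cells and repair. -/
theorem cell_code (F V₀ H : Finset V) (hd : Disjoint F V₀) (hH : H ⊆ F)
    (𝒢 : Finset (Finset V)) (hG : ∀ G ∈ 𝒢, G ⊆ V₀) (W : Finset V → Finset V)
    (hW : ∀ G ∈ 𝒢, W G ⊆ F) (b : Finset V → ℕ) (ρ : Finset V → ℕ → ℕ)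
    (hρ : ∀ G ∈ 𝒢, ∀ t ≤ b G, 1 ≤ ρ G t ∧ ρ G t ≤ b G + 1 - t)
    (p : ℝ) (hp0 : 0 ≤ p) (hp1 : p ≤ 1) :
    ∃ D : Finset (Finset V), D ⊆ (F ∪ V₀).powerset ∧
      (D.card : ℝ) ≤ p * 2 ^ (F.card + V₀.card) + ∑ G ∈ 𝒢, ∑ t ∈ range (b G + 1),
        ((H ∩ W G).card.choose t : ℝ) *
          ((2 ^ (G.card + F.card - (H \ W G).card - t) / (ρ G t : ℝ)) *
          (1 - p) ^ (2 ^ ((H \ W G).card + t + (V₀.card - G.card)) * (b G + 1 - t - ρ G t + 1))) ∧
      ∀ G ∈ 𝒢, ∀ T ⊆ W G, b G ≤ (W G \ T).card → ∀ B ⊆ T ∪ G, ∃ X ∈ D, X ∩ (T ∪ G) = B := by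
  classical
  obtain ⟨n, hn⟩ : ∃ n, n = (F \ H).card := ⟨_, rfl⟩
  choose res hres1 hres2 using fun (r : ℕ) (hr : 1 ≤ r) => R2_res n r hr
  obtain ⟨rs, hrs⟩ : ∃ rs : ℕ → ℕ, ∀ r, 1 ≤ r → rs r < r ∧
      r * ∑ h ∈ (range (n + 1)).filter (fun h => h % r = rs r), n.choose h ≤ 2 ^ n := by
    refine ⟨fun r => if hr : 1 ≤ r then res r hr else 0, fun r hr => ?_⟩
    simp only [dif_pos hr]
    exact ⟨hres1 r hr, hres2 r hr⟩
  -- the set of start values
  obtain ⟨hs, hhs⟩ : ∃ hs : Finset V → ℕ → Finset ℕ, ∀ G t, hs G t = ((range (n + 1)).filter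
      (fun h => h % ρ G t = rs (ρ G t))).filter (fun h => h + (b G + 1 - t - ρ G t) ≤ n) :=
    ⟨_, fun _ _ => rfl⟩
  obtain ⟨S, hS⟩ : ∃ S : Finset (Finset V × ℕ × Finset V),
      S = H.powerset ×ˢ range (n + 1) ×ˢ V₀.powerset := ⟨_, rfl⟩
  obtain ⟨T, hT⟩ : ∃ T : Finset (Σ (_ : Finset V), Σ (_ : ℕ), Σ (_ : Finset V),
      Finset V × ℕ × Finset V), T = 𝒢.sigma fun G => (range (b G + 1)).sigma fun t =>
        (powersetCard t (H ∩ W G)).sigma fun J =>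
          ((H ∩ W G) \ J).powerset ×ˢ hs G t ×ˢ G.powerset := ⟨_, rfl⟩
  obtain ⟨R, hR⟩ : ∃ R : (Σ (_ : Finset V), Σ (_ : ℕ), Σ (_ : Finset V),
      Finset V × ℕ × Finset V) → Finset (Finset V × ℕ × Finset V),
      ∀ G t J τ₀ h π, R ⟨G, t, J, τ₀, h, π⟩ = S.filter (fun e => e.1 ∩ ((H ∩ W G) \ J) = τ₀ ∧
        h ≤ e.2.1 ∧ e.2.1 ≤ h + (b G + 1 - t - ρ G t) ∧ e.2.2 ∩ G = π) :=
    ⟨fun j => S.filter (fun e => e.1 ∩ ((H ∩ W j.1) \ j.2.2.1) = j.2.2.2.1 ∧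
      j.2.2.2.2.1 ≤ e.2.1 ∧ e.2.1 ≤ j.2.2.2.2.1 + (b j.1 + 1 - j.2.1 - ρ j.1 j.2.1) ∧
        e.2.2 ∩ j.1 = j.2.2.2.2.2), fun _ _ _ _ _ _ => rfl⟩
  have hTm : ∀ G t J τ₀ h π, (⟨G, t, J, τ₀, h, π⟩ : Σ (_ : Finset V), Σ (_ : ℕ),
      Σ (_ : Finset V), Finset V × ℕ × Finset V) ∈ T ↔ G ∈ 𝒢 ∧ t ≤ b G ∧ (J ⊆ H ∩ W G ∧
        J.card = t) ∧ τ₀ ⊆ (H ∩ W G) \ J ∧ (h % ρ G t = rs (ρ G t) ∧
          h + (b G + 1 - t - ρ G t) ≤ n) ∧ π ⊆ G := by
    intro G t J τ₀ h π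
    rw [hT]
    simp only [mem_sigma, mem_product, mem_powerset, mem_range, mem_powersetCard, hhs, mem_filter]
    constructor
    · rintro ⟨h1, h2, h3, h4, ⟨⟨h5, h6⟩, h7⟩, h8⟩
      exact ⟨h1, by omega, h3, h4, ⟨h6, h7⟩, h8⟩
    · rintro ⟨h1, h2, h3, h4, ⟨h6, h7⟩, h8⟩
      exact ⟨h1, by omega, h3, h4, ⟨⟨by omega, h6⟩, h7⟩, h8⟩
  have hbase : ∀ j ∈ T, ((j.2.2.2.1, j.2.2.2.2.1, j.2.2.2.2.2) : Finset V × ℕ × Finset V) ∈
      R j := by
    rintro ⟨G, t, J, τ₀, h, π⟩ hj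
    obtain ⟨h1, h2, h3, h4, ⟨h6, h7⟩, h8⟩ := (hTm _ _ _ _ _ _).1 hj
    rw [hR, mem_filter, hS, mem_product, mem_product, mem_powerset, mem_powerset, mem_range]
    refine ⟨⟨?_, ?_, ?_⟩, ?_, ?_, ?_, ?_⟩
    · exact fun x hx => (mem_inter.1 (mem_sdiff.1 (h4 hx)).1).1
    · show h < n + 1
      omega
    · exact h8.trans (hG G h1)
    · exact inter_eq_left.2 h4
    · exact le_refl _
    · exact Nat.le_add_right _ _
    · exact inter_eq_left.2 h8
  obtain ⟨D, hDS, hD1, hD2⟩ := random_repair p hp0 hp1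
    (fun e : Finset V × ℕ × Finset V => (n.choose e.2.1 : ℝ)) (fun e => by positivity) S T R
    (by
      rintro ⟨G, t, J, τ₀, h, π⟩ hj
      rw [hR]
      exact filter_subset _ _)
    (fun j => (j.2.2.2.1, j.2.2.2.2.1, j.2.2.2.2.2)) hbase
  refine ⟨(F ∪ V₀).powerset.filter (fun X => R2_cell F V₀ H X ∈ D), filter_subset _ _, ?_, ?_⟩
  · -- the count
    have c1 : (((F ∪ V₀).powerset.filter (fun X => R2_cell F V₀ H X ∈ D)).card : ℝ) ≤
        ∑ e ∈ D, (n.choose e.2.1 : ℝ) := by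
      have c0 : ∀ X ∈ (F ∪ V₀).powerset.filter (fun X => R2_cell F V₀ H X ∈ D),
          R2_cell F V₀ H X ∈ D := fun X hX => (mem_filter.1 hX).2
      rw [card_eq_sum_card_fiberwise c0]
      push_cast
      refine sum_le_sum fun e _ => ?_
      have c2 := R2_fiber F V₀ H hH e
      rw [← hn] at c2
      have c3 : (((F ∪ V₀).powerset.filter (fun X => R2_cell F V₀ H X ∈ D)).filter
          (fun X => R2_cell F V₀ H X = e)).card ≤
          ((F ∪ V₀).powerset.filter (fun X => R2_cell F V₀ H X = e)).card :=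
        card_le_card (filter_subset_filter _ (filter_subset _ _))
      exact_mod_cast c3.trans c2
    refine c1.trans (hD2.trans ?_)
    have c4 : ∑ e ∈ S, (n.choose e.2.1 : ℝ) = 2 ^ (F.card + V₀.card) := by
      rw [hS, hn]
      exact R3_total F V₀ H hH
    rw [c4]
    refine add_le_add (le_refl _) ?_
    rw [hT, sum_sigma]
    refine sum_le_sum fun G hGm => ?_
    rw [sum_sigma]
    refine sum_le_sum fun t htm => ?_
    have ht : t ≤ b G := by
      have := mem_range.1 htm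
      omega
    obtain ⟨hρ1, hρ2⟩ := hρ G hGm t ht
    rw [sum_sigma]
    have hq0 : 0 ≤ 1 - p := sub_nonneg.2 hp1
    have hq1 : 1 - p ≤ 1 := by linarith
    have c5 : ∀ J ∈ powersetCard t (H ∩ W G),
        ∑ y ∈ ((H ∩ W G) \ J).powerset ×ˢ hs G t ×ˢ G.powerset,
          (n.choose y.2.1 : ℝ) * (1 - p) ^ (R ⟨G, t, J, y⟩).card ≤
        (2 ^ (G.card + F.card - (H \ W G).card - t) / (ρ G t : ℝ)) *
          (1 - p) ^ (2 ^ ((H \ W G).card + t + (V₀.card - G.card)) *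
            (b G + 1 - t - ρ G t + 1)) := by
      intro J hJm
      obtain ⟨hJ1, hJ2⟩ := mem_powersetCard.1 hJm
      have c6 : ∑ y ∈ ((H ∩ W G) \ J).powerset ×ˢ hs G t ×ˢ G.powerset,
          (n.choose y.2.1 : ℝ) * (1 - p) ^ (R ⟨G, t, J, y⟩).card ≤
          ∑ y ∈ ((H ∩ W G) \ J).powerset ×ˢ hs G t ×ˢ G.powerset,
          (n.choose y.2.1 : ℝ) * (1 - p) ^ (2 ^ ((H \ W G).card + t + (V₀.card - G.card)) *
            (b G + 1 - t - ρ G t + 1)) := by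
        refine sum_le_sum fun y hy => mul_le_mul_of_nonneg_left ?_ (by positivity)
        obtain ⟨τ₀, h, π⟩ := y
        rw [hR]
        simp only [mem_product, mem_powerset, hhs, mem_filter] at hy
        obtain ⟨y1, ⟨-, y2⟩, y3⟩ := hy
        refine pow_le_pow_of_le_one hq0 hq1 ?_
        have := R3_card V₀ H G (W G) J τ₀ π n h (b G + 1 - t - ρ G t) (hG G hGm) hJ1 y1 y3 y2
        rw [hJ2] at this
        rw [hS]
        exact this
      refine c6.trans ?_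
      have c7 : ρ G t * ∑ h ∈ hs G t, (F \ H).card.choose h ≤ 2 ^ (F \ H).card := by
        rw [← hn]
        refine le_trans (Nat.mul_le_mul_left _ ?_) (hrs _ hρ1).2
        rw [hhs]
        exact sum_le_sum_of_subset (filter_subset _ _)
      have c8 := R3_pat F H hH G (W G) J hJ1 (hs G t) (ρ G t) hρ1 c7
        ((1 - p) ^ (2 ^ ((H \ W G).card + t + (V₀.card - G.card)) *
            (b G + 1 - t - ρ G t + 1))) (by positivity)
      rw [← hn, hJ2] at c8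
      exact c8
    refine (sum_le_sum c5).trans ?_
    rw [sum_const, card_powersetCard, nsmul_eq_mul]
  · intro G hGm T' hT' hTb B hB
    obtain ⟨X, hX1, hX2, hX3⟩ := R3_cover F V₀ H hd hH G (W G) T' B (hG G hGm) (hW G hGm) (b G)
      (ρ G) (fun t => rs (ρ G t)) (hρ G hGm) (fun t ht => (hrs _ (hρ G hGm t ht).1).1) D
      (by
        intro e he
        have := hDS he
        rw [hS, mem_product, mem_product, mem_powerset, mem_powerset] at this
        exact ⟨this.1, this.2.2⟩)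
      (by
        intro t ht J hJ hJt τ₀ hτ h hh1 hh2 π hπ
        obtain ⟨e, he, he'⟩ := hD1 ⟨G, t, J, τ₀, h, π⟩
          ((hTm _ _ _ _ _ _).2 ⟨hGm, ht, ⟨hJ, hJt⟩, hτ, ⟨hh1, by rw [hn]; exact hh2⟩, hπ⟩)
        rw [hR, mem_filter] at he'
        exact ⟨e, he, he'.2⟩)
      hT' hTb hB
    exact ⟨X, mem_filter.2 ⟨mem_powerset.2 hX1, hX2⟩, hX3⟩

end Pool.Agent.Lib.MP_5e7226_co.Unc
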