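import Pool.Agent.Lib.MP_5e7226_co.UncN2
import Pool.Agent.Lib.MP_5e7226_co.UncR3

set_option autoImplicit false

namespace Pool.Agent.Lib.MP_5e7226_co.Unc

open Finset

/-- The cost of a set `G` relative to the budget: `h` special points, `B` words for every cell
pattern, `b` missing points. -/
noncomputable def cellCost (x : ℝ) (h : ℕ) (B : ℝ) (b : ℕ) (ρ : ℕ → ℕ) : ℝ :=
  ∑ t ∈ range (b + 1), (h.choose t : ℝ) / (B * 2 ^ t * ρ t) *
    Real.exp (-(x * B * 2 ^ t * (b + 1 - t - ρ t + 1 : ℕ)))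

variable {V : Type*} [DecidableEq V]

/-- From cell codes to the code lemma. -/
theorem shat_cells {L : Finset V → Prop} (hL : ∀ G H : Finset V, H ⊆ G → L G → L H)
    {F₀ V₀ H : Finset V} (hd : Disjoint F₀ V₀) (hH : H ⊆ Jn L F₀ ∅) (N : ℕ)
    (b : Finset V → ℕ) (ρ : Finset V → ℕ → ℕ) (x : ℝ) (hx0 : 0 ≤ x) (hx1 : x ≤ 1)
    (hb : ∀ G ⊆ V₀, L G → ∀ T ⊆ F₀, L (T ∪ G) →
      b G + T.card + (H \ Jn L F₀ G).card ≤ (Jn L F₀ ∅).card)
    (hρ : ∀ G ⊆ V₀, L G → ∀ t ≤ b G, 1 ≤ ρ G t ∧ ρ G t ≤ b G + 1 - t)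
    (P : Finset V → Prop) [DecidablePred P] (hP : ∀ G, P G ↔ L G)
    (hcost : x + ∑ G ∈ V₀.powerset.filter P, cellCost x H.card
      (2 ^ (N + (H \ Jn L F₀ G).card) / 2 ^ ((Jn L F₀ ∅).card + G.card)) (b G) (ρ G) ≤ 1) :
    Shat L (F₀ ∪ V₀) (2 ^ N) := by
  classical
  obtain ⟨J₀, hJ₀⟩ : ∃ J₀, J₀ = Jn L F₀ ∅ := ⟨_, rfl⟩
  rw [← hJ₀] at hH hb hcost
  have hJF : J₀ ⊆ F₀ := by rw [hJ₀]; exact filter_subset _ _
  have hdJ : Disjoint J₀ V₀ := disjoint_of_subset_left hJF hd
  have hin : ∀ G ⊆ F₀ ∪ V₀, L G → G ⊆ J₀ ∪ V₀ := by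
    intro G hG hLG y hy
    rcases mem_union.1 (hG hy) with h1 | h1
    · refine mem_union_left _ ?_
      rw [hJ₀]
      refine mem_filter.2 ⟨h1, hL _ _ ?_ hLG⟩
      rw [union_empty]
      exact singleton_subset_iff.2 hy
    · exact mem_union_right _ h1
  refine Shat.of_subset ?_ hin
  rcases Nat.lt_or_ge (J₀.card + V₀.card) N with hN | hN
  · refine (shat_powerset L (J₀ ∪ V₀)).mono (Nat.pow_le_pow_right (by norm_num) ?_)
    rw [card_union_of_disjoint hdJ]
    exact hN.le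
  obtain ⟨p, hp⟩ : ∃ p : ℝ, p = x * 2 ^ N / 2 ^ (J₀.card + V₀.card) := ⟨_, rfl⟩
  have hp0 : 0 ≤ p := by rw [hp]; positivity
  have hp1 : p ≤ 1 := by
    rw [hp, div_le_one (by positivity)]
    calc x * 2 ^ N ≤ 1 * 2 ^ N := by gcongr
      _ = 2 ^ N := one_mul _
      _ ≤ 2 ^ (J₀.card + V₀.card) := pow_le_pow_right₀ (by norm_num) hN
  have hJn : ∀ G, L G → Jn L F₀ G ⊆ J₀ := by
    intro G hG y hy
    have h1 := mem_filter.1 hy
    rw [hJ₀]
    refine mem_filter.2 ⟨h1.1, hL _ _ ?_ h1.2⟩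
    rw [union_empty]
    exact subset_union_left
  obtain ⟨D, hD1, hD2, hD3⟩ := cell_code J₀ V₀ H hdJ hH (V₀.powerset.filter P)
    (fun G hG => mem_powerset.1 (mem_filter.1 hG).1) (fun G => J₀ \ (H \ Jn L F₀ G))
    (fun G _ => sdiff_subset) b ρ (fun G hG t ht => hρ G (mem_powerset.1 (mem_filter.1 hG).1)
      ((hP G).1 (mem_filter.1 hG).2) t ht) p hp0 hp1
  refine ⟨D, ?_, ?_⟩
  · have h1 : (D.card : ℝ) ≤ 2 ^ N * (x + ∑ G ∈ V₀.powerset.filter P, cellCost x H.card
        (2 ^ (N + (H \ Jn L F₀ G).card) / 2 ^ (J₀.card + G.card)) (b G) (ρ G)) := by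
      refine hD2.trans ?_
      rw [mul_add, mul_sum]
      refine add_le_add ?_ (sum_le_sum fun G hG => ?_)
      · rw [hp, div_mul_cancel₀ _ (by positivity)]
        exact le_of_eq (mul_comm _ _)
      · obtain ⟨hG1, hG2⟩ := mem_filter.1 hG
        rw [mem_powerset] at hG1
        have hLG := (hP G).1 hG2
        have e1 : H \ (J₀ \ (H \ Jn L F₀ G)) = H \ Jn L F₀ G := by
          ext y
          constructor
          · intro h2
            obtain ⟨h3, h4⟩ := mem_sdiff.1 h2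
            by_contra h5
            exact h4 (mem_sdiff.2 ⟨hH h3, h5⟩)
          · intro h2
            exact mem_sdiff.2 ⟨(mem_sdiff.1 h2).1, fun h3 => (mem_sdiff.1 h3).2 h2⟩
        simp only [e1]
        rw [cellCost, mul_sum]
        refine sum_le_sum fun t ht => ?_
        have ht' : t ≤ b G := by
          have := mem_range.1 ht
          omega
        obtain ⟨a, ha⟩ : ∃ a, a = (H \ Jn L F₀ G).card := ⟨_, rfl⟩
        rw [← ha]
        obtain ⟨hr1, hr2⟩ := hρ G hG1 hLG t ht'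
        have hr0 : (0 : ℝ) < ρ G t := by exact_mod_cast hr1
        have hb0 := hb G hG1 hLG ∅ (empty_subset _) (by rwa [empty_union])
        rw [card_empty, ← ha] at hb0
        have hw : G.card ≤ V₀.card := card_le_card hG1
        -- the two factors
        have f1 : (((H ∩ (J₀ \ (H \ Jn L F₀ G))).card.choose t : ℕ) : ℝ) ≤ (H.card.choose t : ℕ) := by
          exact_mod_cast Nat.choose_le_choose t (card_le_card inter_subset_left)
        have f2 : (2 : ℝ) ^ (G.card + J₀.card - a - t) / (ρ G t : ℝ) =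
            2 ^ N * (1 / (2 ^ (N + a) / 2 ^ (J₀.card + G.card) * 2 ^ t * ρ G t)) := by
          have e2 : (2 : ℝ) ^ (J₀.card + G.card) = 2 ^ (G.card + J₀.card - a - t) * (2 ^ a * 2 ^ t) := by
            rw [← pow_add, ← pow_add]
            congr 1
            omega
          rw [e2, pow_add]
          field_simp
        have f3 : (1 - p) ^ (2 ^ (a + t + (V₀.card - G.card)) * (b G + 1 - t - ρ G t + 1)) ≤
            Real.exp (-(x * (2 ^ (N + a) / 2 ^ (J₀.card + G.card)) * 2 ^ t *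
              (b G + 1 - t - ρ G t + 1 : ℕ))) := by
          have e3 : 1 - p ≤ Real.exp (-p) := by
            have := Real.add_one_le_exp (-p)
            linarith
          refine (pow_le_pow_left₀ (by linarith) e3 _).trans (le_of_eq ?_)
          rw [← Real.exp_nat_mul]
          congr 1
          rw [hp]
          have e4 : (2 : ℝ) ^ (J₀.card + V₀.card) = 2 ^ (J₀.card + G.card) * 2 ^ (V₀.card - G.card) := by
            rw [← pow_add]
            congr 1
            omega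
          rw [e4]
          push_cast
          rw [pow_add _ (a + t), pow_add _ a, pow_add _ N]
          field_simp
        have e5 : (2 : ℝ) ^ N * ((H.card.choose t : ℕ) /
            (2 ^ (N + a) / 2 ^ (J₀.card + G.card) * 2 ^ t * ρ G t) *
            Real.exp (-(x * (2 ^ (N + a) / 2 ^ (J₀.card + G.card)) * 2 ^ t *
              (b G + 1 - t - ρ G t + 1 : ℕ)))) = (H.card.choose t : ℕ) *
            ((2 ^ N * (1 / (2 ^ (N + a) / 2 ^ (J₀.card + G.card) * 2 ^ t * ρ G t))) *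
            Real.exp (-(x * (2 ^ (N + a) / 2 ^ (J₀.card + G.card)) * 2 ^ t *
              (b G + 1 - t - ρ G t + 1 : ℕ)))) := by
          ring
        rw [e5, ← f2]
        refine mul_le_mul f1 (mul_le_mul_of_nonneg_left f3 (by positivity)) ?_ (by positivity)
        exact mul_nonneg (by positivity) (pow_nonneg (by linarith) _)
    have h2 : (D.card : ℝ) ≤ 2 ^ N := by
      refine h1.trans ?_
      calc _ ≤ (2 : ℝ) ^ N * 1 := mul_le_mul_of_nonneg_left hcost (by positivity)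
        _ = 2 ^ N := mul_one _
    exact_mod_cast h2
  · intro M hM hLM A hA
    -- split a member into its parts in `J₀` and `V₀`
    obtain ⟨T, hT⟩ : ∃ T, T = M ∩ J₀ := ⟨_, rfl⟩
    obtain ⟨G, hG⟩ : ∃ G, G = M ∩ V₀ := ⟨_, rfl⟩
    have hMTG : M = T ∪ G := by
      rw [hT, hG, ← inter_union_distrib_left]
      exact (inter_eq_left.2 hM).symm
    have hGV : G ⊆ V₀ := by rw [hG]; exact inter_subset_right
    have hTJ : T ⊆ J₀ := by rw [hT]; exact inter_subset_right
    have hLG : L G := hL _ _ (by rw [hG]; exact inter_subset_left) hLM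
    have hLTG : L (T ∪ G) := by rwa [← hMTG]
    have hTW : T ⊆ J₀ \ (H \ Jn L F₀ G) := by
      intro y hy
      refine mem_sdiff.2 ⟨hTJ hy, fun h1 => (mem_sdiff.1 h1).2 ?_⟩
      exact mem_filter.2 ⟨hJF (hTJ hy), hL _ _ (union_subset_union
        (singleton_subset_iff.2 hy) (Subset.refl _)) hLTG⟩
    have hbT : b G ≤ ((J₀ \ (H \ Jn L F₀ G)) \ T).card := by
      rw [card_sdiff_of_subset hTW, card_sdiff_of_subset (sdiff_subset.trans hH)]
      have := hb G hGV hLG T (hTJ.trans hJF) hLTG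
      omega
    obtain ⟨X, hX, hXA⟩ := hD3 G (mem_filter.2 ⟨mem_powerset.2 hGV, (hP G).2 hLG⟩) T hTW hbT A
      (by rwa [← hMTG])
    exact ⟨X, hX, by rw [hMTG]; exact hXA⟩

end Pool.Agent.Lib.MP_5e7226_co.Unc
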