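import Pool.Agent.Lib.MP_5e7226_co.UncN3
import Pool.Agent.Lib.MP_5e7226_co.UncM1
import Pool.Agent.Lib.MP_5e7226_co.UncR4
import Pool.Agent.Lib.MP_5e7226_co.UncH

set_option autoImplicit false
set_option linter.unusedSectionVars false

namespace Pool.Agent.Lib.MP_5e7226_co.Unc

open Finset UncM

/-- The numbers needed for `|V₀| ≥ 6`. -/
def NumTotal : Prop := ∀ (i k m h : ℕ) (n : ℕ → ℕ), 6 ≤ i → 1 ≤ k →
  (∀ w, n w ≤ i.choose w) → (∑ w ∈ range (i + 1 - k), n w + m ≤ 2 ^ i) → h ≤ 3 * m →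
  ∃ (α : ℝ) (β : ℕ → ℝ), NF i h α ∧ (∀ w < i + 1 - k, FU i (i - k - w) h (β w)) ∧
    (m + 1) * α + ∑ w ∈ range (i + 1 - k), (n w : ℝ) * β w ≤ 1 / 12

lemma gg_eq : gg = g5 := rfl

lemma cellc_nonneg {P B : ℝ} (hB : 0 ≤ B) (h L : ℕ) (ρ : ℕ → ℕ) : 0 ≤ cellc P B h L ρ := by
  unfold cellc
  exact sum_nonneg fun t _ => by positivity

lemma NF_nonneg {i h : ℕ} {α : ℝ} (hi : 1 ≤ i) (hα : NF i h α) : 0 ≤ α := by
  obtain ⟨ρ, _, h1⟩ := hα 0 (2 * i) ⟨by omega, by push_cast; simp, by
    intro L' _ h2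
    rw [zpow_zero, one_mul] at h2
    exact_mod_cast h2⟩
  exact (cellc_nonneg (by positivity) _ _ _).trans h1

lemma cellCost_eq (P : ℝ) (h : ℕ) (B : ℝ) (b : ℕ) (ρ : ℕ → ℕ) :
    cellCost P h B b ρ = cellc P B h (b + 1) ρ := by
  unfold cellCost cellc
  refine sum_congr rfl fun t _ => ?_
  congr 3
  ring

variable {V : Type*} [Fintype V] [DecidableEq V]

/-- The case `i ≥ 6`. -/
theorem shat_six (hnum : NumTotal)
    {L : Finset V → Prop} {F₀ V₀ : Finset V} {k N : ℕ}
    (hL : ∀ G H : Finset V, H ⊆ G → L G → L H) (hd : Disjoint F₀ V₀) (hk : 1 ≤ k)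
    (hi6 : 6 ≤ V₀.card) (hN : N + k = F₀.card + V₀.card) (h : CLHyp g5 L F₀ V₀ k N) :
    Shat L (F₀ ∪ V₀) (2 ^ N) := by
  classical
  set i := V₀.card with hi
  have hg5i : g5 i = 5 * i := by
    unfold g5
    rw [if_neg (by omega)]
  set J₀ := Jn L F₀ ∅ with hJ₀
  have hJ₀F : J₀ ⊆ F₀ := filter_subset _ _
  -- the sets `Jn`
  have hJanti : ∀ G G' : Finset V, G ⊆ G' → Jn L F₀ G' ⊆ Jn L F₀ G := by
    intro G G' hGG' x hx
    obtain ⟨h1, h2⟩ := mem_filter.1 hx
    exact mem_filter.2 ⟨h1, hL _ _ (union_subset_union (Subset.refl _) hGG') h2⟩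
  have hTJ : ∀ G T : Finset V, T ⊆ F₀ → L (T ∪ G) → T ⊆ Jn L F₀ G := by
    intro G T hT hLT y hy
    exact mem_filter.2 ⟨hT hy, hL _ _ (union_subset_union (singleton_subset_iff.2 hy)
      (Subset.refl _)) hLT⟩
  -- the largest member of the link of `G`
  let M : Finset V → ℕ := fun G => (F₀.powerset.filter (fun T => L (T ∪ G))).sup card
  have hM : ∀ G T : Finset V, T ⊆ F₀ → L (T ∪ G) → T.card ≤ M G := by
    intro G T hT hLT
    exact le_sup (f := card) (mem_filter.2 ⟨mem_powerset.2 hT, hLT⟩)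
  have hMex : ∀ G : Finset V, L G → ∃ T ⊆ F₀, L (T ∪ G) ∧ T.card = M G := by
    intro G hLG
    obtain ⟨T, hT, hTe⟩ := exists_mem_eq_sup (F₀.powerset.filter (fun T => L (T ∪ G)))
      ⟨∅, mem_filter.2 ⟨mem_powerset.2 (empty_subset _), by simpa using hLG⟩⟩ card
    obtain ⟨h1, h2⟩ := mem_filter.1 hT
    exact ⟨T, mem_powerset.1 h1, h2, hTe.symm⟩
  have hMJ : ∀ G : Finset V, L G → M G ≤ (Jn L F₀ G).card := by
    intro G hLG
    obtain ⟨T, hT, hLT, hTe⟩ := hMex G hLG
    rw [← hTe]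
    exact card_le_card (hTJ G T hT hLT)
  have hJJ₀ : ∀ G : Finset V, Jn L F₀ G ⊆ J₀ := fun G => hJanti ∅ G (empty_subset _)
  let Q : Finset V → Finset V := fun G => J₀ \ Jn L F₀ G
  let n : Finset V → ℕ := fun G => J₀.card - M G
  have hQc : ∀ G, (Q G).card + (Jn L F₀ G).card = J₀.card := by
    intro G
    exact card_sdiff_add_card_eq_card (hJJ₀ G)
  have hMmono : ∀ G G' : Finset V, G ⊆ G' → L G' → M G' ≤ M G := by
    intro G G' hGG' hLG'
    obtain ⟨T, hT, hLT, hTe⟩ := hMex G' hLG'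
    rw [← hTe]
    exact hM G T hT (hL _ _ (union_subset_union (Subset.refl _) hGG') hLT)
  -- full sets
  have hfullQ : ∀ G : Finset V, Jn L F₀ G = F₀ → J₀ = F₀ ∧ Q G = ∅ := by
    intro G hJF
    have hJe : J₀ = F₀ := Subset.antisymm hJ₀F (hJF ▸ hJJ₀ G)
    refine ⟨hJe, ?_⟩
    show J₀ \ Jn L F₀ G = ∅
    rw [hJF, hJe, sdiff_self]
    rfl
  -- the hypotheses of the choice of `H`
  obtain ⟨H, hHs, hHc, _, hHG⟩ := exists_H V₀ L (fun G => Jn L F₀ G = F₀)
    (fun G _ h1 G' h2 => hL _ _ h2 h1) Q n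
    (fun G _ _ G' h1 => sdiff_subset_sdiff (Subset.refl _) (hJanti G' G h1))
    (fun G _ h1 G' h2 => by
      have := hMmono G' G h2 h1
      show J₀.card - M G' ≤ J₀.card - M G
      omega)
    (fun G _ h2 => by
      have h3 := hMJ G h2
      have h4 := hQc G
      show (Q G).card ≤ J₀.card - M G
      omega)
    (by simp [Q, hJ₀]) (2 ^ N) (2 * i * 2 ^ J₀.card) (by
      intro G hG hLG hJF
      obtain ⟨T, hT, hLT, hTe⟩ := hMex G hLG
      obtain ⟨hJe, hQe⟩ := hfullQ G hJF
      obtain ⟨_, hb⟩ := h G hG hLG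
      obtain ⟨_, hb⟩ := hb hJF
      rw [hg5i] at hb
      have hne : n G = F₀.card - M G := by
        show J₀.card - M G = _
        rw [hJe]
      rcases hb with hb | hb
      · right
        rw [hJe]
        have h5 : 2 * (5 * i) * 2 ^ (F₀.card + G.card) ≤ 2 ^ N * 4 := hb
        have e : 2 * (5 * i) * 2 ^ (F₀.card + G.card) =
            5 * (2 * i * 2 ^ F₀.card * 2 ^ G.card) := by ring
        omega
      · left
        have h5 := (hb T hT hLT).trans (Nat.mul_le_mul_left _ (g5_le _))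
        rw [hTe] at h5
        rw [hne, hJe]
        have e1 : 5 * i * 2 ^ (F₀.card + G.card) = 5 * (i * 2 ^ F₀.card * 2 ^ G.card) := by ring
        have e2 : 2 ^ N * (5 * (F₀.card - M G)) = 5 * (2 ^ N * (F₀.card - M G)) := by ring
        have e3 : 2 * i * 2 ^ F₀.card * 2 ^ G.card = 2 * (i * 2 ^ F₀.card * 2 ^ G.card) := by
          ring
        omega) (by
      intro G hG hLG hJF
      obtain ⟨T, hT, hLT, hTe⟩ := hMex G hLG
      have h3 := hMJ G hLG
      have h4 := hQc G
      obtain ⟨ha, _⟩ := h G hG hLG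
      have h5 := (ha hJF T hT hLT).trans (Nat.mul_le_mul_left _ (g5_le _))
      rw [hg5i, hTe] at h5
      have e0 : n G - (Q G).card = (Jn L F₀ G).card - M G := by
        show J₀.card - M G - (Q G).card = _
        omega
      rw [e0]
      have e1 : 2 * (5 * i) * 2 ^ ((Jn L F₀ G).card + G.card) =
          5 * (2 * i * 2 ^ ((Jn L F₀ G).card + G.card)) := by ring
      have e2 : 2 ^ N * (5 * ((Jn L F₀ G).card - M G + 1)) =
          5 * (2 ^ N * ((Jn L F₀ G).card - M G + 1)) := by ring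
      have h6 : 2 * i * 2 ^ ((Jn L F₀ G).card + G.card) ≤
          2 ^ N * ((Jn L F₀ G).card - M G + 1) := by omega
      calc 2 * i * 2 ^ J₀.card * 2 ^ G.card =
          2 ^ (Q G).card * (2 * i * 2 ^ ((Jn L F₀ G).card + G.card)) := by
            rw [← h4]; ring
        _ ≤ 2 ^ (Q G).card * (2 ^ N * ((Jn L F₀ G).card - M G + 1)) :=
            Nat.mul_le_mul_left _ h6
        _ = _ := by ring)
  have hHJ : H ⊆ J₀ := by
    intro x hx
    obtain ⟨G, _, _, hxG⟩ := hHs x hx
    exact (mem_sdiff.1 hxG).1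
  have hHe : ∀ G, H \ Jn L F₀ G = H ∩ Q G := by
    intro G
    ext x
    simp only [Q, mem_sdiff, mem_inter]
    constructor
    · rintro ⟨h1, h2⟩
      exact ⟨h1, hHJ h1, h2⟩
    · rintro ⟨h1, _, h2⟩
      exact ⟨h1, h2⟩
  -- the numbers
  let m : ℕ := (V₀.powerset.filter (fun G => L G ∧ ¬ Jn L F₀ G = F₀ ∧ G.Nonempty)).card
  let nw : ℕ → ℕ := fun w =>
    (V₀.powerset.filter (fun G => L G ∧ Jn L F₀ G = F₀ ∧ G.card = w)).card
  have hfullk : ∀ G ⊆ V₀, L G → Jn L F₀ G = F₀ → k + G.card ≤ i := fun G hG hLG hJF =>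
    ((h G hG hLG).2 hJF).1
  have hnw : ∀ w, nw w ≤ i.choose w := by
    intro w
    rw [hi, ← card_powersetCard]
    apply card_le_card
    intro G hG
    obtain ⟨h1, _, _, h2⟩ := mem_filter.1 hG
    exact mem_powersetCard.2 ⟨mem_powerset.1 h1, h2⟩
  have hnm : ∑ w ∈ range (i + 1 - k), nw w + m ≤ 2 ^ i := by
    have h1 : ∑ w ∈ range (i + 1 - k), nw w =
        ((range (i + 1 - k)).biUnion (fun w =>
          V₀.powerset.filter (fun G => L G ∧ Jn L F₀ G = F₀ ∧ G.card = w))).card := by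
      rw [card_biUnion]
      intro w _ w' _ hww
      rw [Function.onFun, disjoint_left]
      intro G hG hG'
      exact hww ((mem_filter.1 hG).2.2.2.symm.trans (mem_filter.1 hG').2.2.2)
    rw [h1, ← card_union_of_disjoint, hi, ← card_powerset]
    · apply card_le_card
      intro G hG
      rcases mem_union.1 hG with hG | hG
      · obtain ⟨w, _, hG⟩ := mem_biUnion.1 hG
        exact (mem_filter.1 hG).1
      · exact (mem_filter.1 hG).1
    · rw [disjoint_left]
      intro G hG hG'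
      obtain ⟨w, _, hG⟩ := mem_biUnion.1 hG
      exact (mem_filter.1 hG').2.2.1 (mem_filter.1 hG).2.2.1
  obtain ⟨α, β, hNF, hFU, hTOT⟩ := hnum i k m H.card nw hi6 hk hnw hnm hHc
  have hα0 : 0 ≤ α := NF_nonneg (by omega) hNF
  -- the choice of `b` and `ρ` for every `G`
  have hkey : ∀ G : Finset V, ∃ (b : ℕ) (ρ : ℕ → ℕ), (G ⊆ V₀ → L G →
      (b + M G + (H \ Jn L F₀ G).card ≤ J₀.card ∧ (∀ t ≤ b, 1 ≤ ρ t ∧ ρ t ≤ b + 1 - t) ∧
        cellc (11 / 12) ((2 : ℝ) ^ (N + (H \ Jn L F₀ G).card) / 2 ^ (J₀.card + G.card)) H.card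
          (b + 1) ρ ≤ if Jn L F₀ G = F₀ then β G.card else α)) := by
    intro G
    by_cases hGL : G ⊆ V₀ ∧ L G
    swap
    · exact ⟨0, fun _ => 1, fun h1 h2 => absurd ⟨h1, h2⟩ hGL⟩
    obtain ⟨hG, hLG⟩ := hGL
    have hMG := hMJ G hLG
    have hQG := hQc G
    have huQ : (H ∩ Q G).card ≤ (Q G).card := card_le_card inter_subset_right
    by_cases hJF : Jn L F₀ G = F₀
    · -- full
      have hJe : J₀ = F₀ := Subset.antisymm hJ₀F (hJF ▸ hJJ₀ G)
      have hu0 : (H \ Jn L F₀ G).card = 0 := by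
        rw [card_eq_zero, hJF, ← hJe]
        exact sdiff_eq_empty_iff_subset.2 hHJ
      obtain ⟨_, hb⟩ := h G hG hLG
      obtain ⟨hki, hb⟩ := hb hJF
      have hNe : N = (F₀.card + G.card) + (i - k - G.card) := by omega
      obtain ⟨T, hT, hLT, hTe⟩ := hMex G hLG
      have hMF : M G ≤ F₀.card := by rw [← hTe]; exact card_le_card hT
      have hex : ∃ l : ℕ, CFU i (i - k - G.card) l ∧ l ≤ F₀.card - M G + 1 := by
        rcases hb with hb | hb
        · refine ⟨1, ⟨le_rfl, Or.inl ?_⟩, by omega⟩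
          have h6 : 2 * g5 i * 2 ^ (F₀.card + G.card) ≤
              (2 ^ (i - k - G.card) * g5 1) * 2 ^ (F₀.card + G.card) := by
            calc _ ≤ 2 ^ N * g5 1 := hb
              _ = _ := by
                conv_lhs => rw [hNe, pow_add]
                ring
          exact Nat.le_of_mul_le_mul_right h6 (by positivity)
        · have h5 := hb T hT hLT
          rw [hTe] at h5
          have h6 : g5 i ≤ 2 ^ (i - k - G.card) * g5 (F₀.card - M G) := by
            have h7 : g5 i * 2 ^ (F₀.card + G.card) ≤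
                (2 ^ (i - k - G.card) * g5 (F₀.card - M G)) * 2 ^ (F₀.card + G.card) := by
              calc _ ≤ 2 ^ N * g5 (F₀.card - M G) := h5
                _ = _ := by
                  conv_lhs => rw [hNe, pow_add]
                  ring
            exact Nat.le_of_mul_le_mul_right h7 (by positivity)
          have h8 : 1 ≤ F₀.card - M G := by
            by_contra hcon
            have e : F₀.card - M G = 0 := by omega
            rw [e, hg5i] at h6
            simp [g5] at h6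
            omega
          exact ⟨F₀.card - M G + 1, ⟨by omega, Or.inr ⟨by omega, by
            rw [gg_eq, Nat.add_sub_cancel]; exact h6⟩⟩, le_rfl⟩
      have hex' : ∃ l : ℕ, CFU i (i - k - G.card) l := by
        obtain ⟨l, h1, _⟩ := hex
        exact ⟨l, h1⟩
      have hl1 := Nat.find_spec hex'
      have hlle : Nat.find hex' ≤ F₀.card - M G + 1 := by
        obtain ⟨l, h1, h3⟩ := hex
        exact (Nat.find_min' hex' h1).trans h3
      have hmin : MinFU i (i - k - G.card) (Nat.find hex') :=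
        ⟨hl1, fun L' h1 => Nat.find_min' hex' h1⟩
      set l := Nat.find hex' with hl
      have hl2 : 1 ≤ l := hl1.1
      refine ⟨l - 1, fun _ => 1, fun _ _ => ⟨?_, ?_, ?_⟩⟩
      · rw [hu0, hJe]
        omega
      · intro t ht
        show 1 ≤ 1 ∧ 1 ≤ l - 1 + 1 - t
        omega
      · have e1 : l - 1 + 1 = l := by omega
        have e2 : (2 : ℝ) ^ (N + (H \ Jn L F₀ G).card) / 2 ^ (J₀.card + G.card) =
            2 ^ (i - k - G.card) := by
          rw [hu0, hJe, add_zero, div_eq_iff (by positivity), ← pow_add]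
          congr 1
          omega
        rw [e1, e2, if_pos hJF]
        exact hFU G.card (by omega) l hmin
    · -- not full
      have hu : (H \ Jn L F₀ G).card = (H ∩ Q G).card := by rw [hHe]
      set u := (H ∩ Q G).card with hud
      obtain ⟨T, hT, hLT, hTe⟩ := hMex G hLG
      have hcond : 2 * i * 2 ^ J₀.card * 2 ^ G.card ≤ 2 ^ N * (2 ^ u * (n G - u + 1)) :=
        hHG G hG hLG hJF
      have hzr : (2 : ℝ) ^ (N + (H \ Jn L F₀ G).card) / 2 ^ (J₀.card + G.card) =
          2 ^ (((N + u : ℕ) : ℤ) - ((J₀.card + G.card : ℕ) : ℤ)) := by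
        rw [hu, zpow_sub₀ (by norm_num), zpow_natCast, zpow_natCast]
      set z : ℤ := ((N + u : ℕ) : ℤ) - ((J₀.card + G.card : ℕ) : ℤ) with hz
      have hexr : 2 * (i : ℝ) ≤ 2 ^ z * ((n G - u + 1 : ℕ) : ℝ) := by
        rw [← hzr, hu, div_mul_eq_mul_div, le_div_iff₀ (by positivity)]
        have h5 : 2 * i * 2 ^ (J₀.card + G.card) ≤ 2 ^ (N + u) * (n G - u + 1) := by
          calc 2 * i * 2 ^ (J₀.card + G.card) = 2 * i * 2 ^ J₀.card * 2 ^ G.card := by ring
            _ ≤ 2 ^ N * (2 ^ u * (n G - u + 1)) := hcond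
            _ = _ := by ring
        exact_mod_cast h5
      have hex' : ∃ l : ℕ, 1 ≤ l ∧ 2 * (i : ℝ) ≤ 2 ^ z * (l : ℝ) :=
        ⟨n G - u + 1, by omega, hexr⟩
      obtain ⟨hl1, hl2⟩ := Nat.find_spec hex'
      have hlle : Nat.find hex' ≤ n G - u + 1 := Nat.find_min' hex' ⟨by omega, hexr⟩
      have hmin : MinNF i z (Nat.find hex') :=
        ⟨hl1, hl2, fun L' h1 h2 => Nat.find_min' hex' ⟨h1, h2⟩⟩
      set l := Nat.find hex' with hl
      obtain ⟨ρ, hρ1, hρ2⟩ := hNF z l hmin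
      refine ⟨l - 1, ρ, fun _ _ => ⟨?_, ?_, ?_⟩⟩
      · rw [hu]
        have h6 : n G = J₀.card - M G := rfl
        have h7 : M G ≤ J₀.card := hMG.trans (card_le_card (hJJ₀ G))
        omega
      · intro t ht
        have := hρ1 t (by omega)
        exact ⟨this.1, by omega⟩
      · have e1 : l - 1 + 1 = l := by omega
        rw [e1, hzr, if_neg hJF]
        exact hρ2
  choose b ρ hbρ using hkey
  apply shat_cells hL hd hHJ N b ρ (11 / 12) (by norm_num) (by norm_num) ?_ ?_ L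
    (fun G => Iff.rfl) ?_
  · intro G hG hLG T hT hLT
    have h1 := (hbρ G hG hLG).1
    have h2 := hM G T hT hLT
    rw [← hJ₀]
    omega
  · intro G hG hLG t ht
    exact (hbρ G hG hLG).2.1 t ht
  · have hterm : ∀ G ∈ V₀.powerset.filter L, cellCost (11 / 12) H.card
        (2 ^ (N + (H \ Jn L F₀ G).card) / 2 ^ ((Jn L F₀ ∅).card + G.card)) (b G) (ρ G) ≤
        if Jn L F₀ G = F₀ then β G.card else α := by
      intro G hG
      obtain ⟨h1, hLG⟩ := mem_filter.1 hG
      rw [cellCost_eq]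
      exact (hbρ G (mem_powerset.1 h1) hLG).2.2
    have hsum := sum_le_sum hterm
    have hsplit : ∑ G ∈ V₀.powerset.filter L, (if Jn L F₀ G = F₀ then β G.card else α) =
        ∑ w ∈ range (i + 1 - k), (nw w : ℝ) * β w +
          ((V₀.powerset.filter L).filter (fun G => ¬ Jn L F₀ G = F₀)).card * α := by
      rw [sum_ite, sum_const, nsmul_eq_mul]
      congr 1
      have hmaps : ∀ G ∈ (V₀.powerset.filter L).filter (fun G => Jn L F₀ G = F₀),
          G.card ∈ range (i + 1 - k) := by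
        intro G hG
        obtain ⟨h1, hJF⟩ := mem_filter.1 hG
        obtain ⟨h1, hLG⟩ := mem_filter.1 h1
        have := hfullk G (mem_powerset.1 h1) hLG hJF
        rw [mem_range]
        omega
      rw [← sum_fiberwise_of_maps_to hmaps]
      refine sum_congr rfl fun w _ => ?_
      rw [sum_congr rfl (g := fun _ => β w) (fun G hG => by rw [(mem_filter.1 hG).2]), sum_const,
        nsmul_eq_mul]
      congr 2
      show (filter _ _).card = (filter _ _).card
      congr 1
      ext G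
      simp only [mem_filter]
      tauto
    have hcardm : ((V₀.powerset.filter L).filter (fun G => ¬ Jn L F₀ G = F₀)).card ≤ m + 1 := by
      have h1 : (V₀.powerset.filter L).filter (fun G => ¬ Jn L F₀ G = F₀) ⊆
          insert ∅ (V₀.powerset.filter (fun G => L G ∧ ¬ Jn L F₀ G = F₀ ∧ G.Nonempty)) := by
        intro G hG
        obtain ⟨h1, hJF⟩ := mem_filter.1 hG
        obtain ⟨h1, hLG⟩ := mem_filter.1 h1
        rcases G.eq_empty_or_nonempty with h2 | h2
        · rw [h2]; exact mem_insert_self _ _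
        · exact mem_insert_of_mem (mem_filter.2 ⟨h1, hLG, hJF, h2⟩)
      exact (card_le_card h1).trans (card_insert_le _ _)
    have h5 : (((V₀.powerset.filter L).filter (fun G => ¬ Jn L F₀ G = F₀)).card : ℝ) * α ≤
        (m + 1) * α := by
      apply mul_le_mul_of_nonneg_right _ hα0
      exact_mod_cast hcardm
    rw [hsplit] at hsum
    linarith

end Pool.Agent.Lib.MP_5e7226_co.Unc
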