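import Mathlib

set_option autoImplicit false

namespace Pool.Agent.Lib.MP_5e7226_co.Unc

open Finset

/-- Random choice, derandomised: weights `w` on the elements, costs `c` of the missed sets. -/
theorem R1_choose {E J : Type*} [DecidableEq E] (p : ℝ) (hp0 : 0 ≤ p) (hp1 : p ≤ 1) (w : E → ℝ)
    (R : J → Finset E) (c : J → ℝ) (S : Finset E) :
    ∀ T : Finset J, ∃ A ⊆ S, ∑ e ∈ A, w e + ∑ j ∈ T.filter (fun j => Disjoint A (R j)), c j ≤
      p * ∑ e ∈ S, w e + ∑ j ∈ T, c j * (1 - p) ^ (S ∩ R j).card := by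
  classical
  induction S using Finset.induction_on with
  | empty =>
    intro T
    refine ⟨∅, Subset.rfl, ?_⟩
    simp
  | insert a S ha ih =>
    intro T
    obtain ⟨A₁, hA₁, h1⟩ := ih (T.filter (fun j => a ∉ R j))
    obtain ⟨A₂, hA₂, h2⟩ := ih T
    have ha1 : a ∉ A₁ := fun h => ha (hA₁ h)
    have hset : T.filter (fun j => Disjoint (insert a A₁) (R j)) =
        (T.filter (fun j => a ∉ R j)).filter (fun j => Disjoint A₁ (R j)) := by
      rw [filter_filter]
      refine filter_congr fun j _ => ?_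
      rw [disjoint_insert_left]
    have hsplit : ∑ j ∈ T, c j * (1 - p) ^ (insert a S ∩ R j).card =
        ∑ j ∈ T.filter (fun j => a ∉ R j), c j * (1 - p) ^ (S ∩ R j).card +
          (1 - p) * ∑ j ∈ T.filter (fun j => ¬ a ∉ R j), c j * (1 - p) ^ (S ∩ R j).card := by
      rw [← sum_filter_add_sum_filter_not T (fun j => a ∉ R j), mul_sum]
      congr 1
      · refine sum_congr rfl fun j hj => ?_
        rw [insert_inter_of_notMem (mem_filter.1 hj).2]
      · refine sum_congr rfl fun j hj => ?_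
        have haR : a ∈ R j := not_not.1 (mem_filter.1 hj).2
        rw [insert_inter_of_mem haR, card_insert_of_notMem (fun h => ha (mem_inter.1 h).1),
          pow_succ]
        ring
    have hsplit2 : ∑ j ∈ T, c j * (1 - p) ^ (S ∩ R j).card =
        ∑ j ∈ T.filter (fun j => a ∉ R j), c j * (1 - p) ^ (S ∩ R j).card +
          ∑ j ∈ T.filter (fun j => ¬ a ∉ R j), c j * (1 - p) ^ (S ∩ R j).card :=
      (sum_filter_add_sum_filter_not T (fun j => a ∉ R j) _).symm
    rw [sum_insert ha, hsplit]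
    rw [hsplit2] at h2
    by_cases hle : ∑ e ∈ insert a A₁, w e +
        ∑ j ∈ T.filter (fun j => Disjoint (insert a A₁) (R j)), c j ≤
        ∑ e ∈ A₂, w e + ∑ j ∈ T.filter (fun j => Disjoint A₂ (R j)), c j
    · refine ⟨insert a A₁, insert_subset_insert a hA₁, ?_⟩
      rw [sum_insert ha1, hset] at hle ⊢
      have e1 := mul_le_mul_of_nonneg_left h1 hp0
      have e2 := mul_le_mul_of_nonneg_left (hle.trans h2) (sub_nonneg.2 hp1)
      linarith
    · refine ⟨A₂, hA₂.trans (subset_insert _ _), ?_⟩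
      rw [not_le, sum_insert ha1, hset] at hle
      have e1 := mul_le_mul_of_nonneg_left (hle.le.trans (by linarith :
        w a + ∑ e ∈ A₁, w e + ∑ j ∈ (T.filter (fun j => a ∉ R j)).filter
          (fun j => Disjoint A₁ (R j)), c j ≤ w a + (p * ∑ e ∈ S, w e +
            ∑ j ∈ T.filter (fun j => a ∉ R j), c j * (1 - p) ^ (S ∩ R j).card))) hp0
      have e2 := mul_le_mul_of_nonneg_left h2 (sub_nonneg.2 hp1)
      linarith

/-- Random choice and repair: the missed sets are served by their elements `rep j`. -/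
theorem random_repair {E J : Type*} [DecidableEq E] (p : ℝ) (hp0 : 0 ≤ p) (hp1 : p ≤ 1) (w : E → ℝ)
    (hw : ∀ e, 0 ≤ w e) (S : Finset E) (T : Finset J) (R : J → Finset E)
    (hR : ∀ j ∈ T, R j ⊆ S) (rep : J → E) (hrep : ∀ j ∈ T, rep j ∈ R j) :
    ∃ D ⊆ S, (∀ j ∈ T, ∃ e ∈ D, e ∈ R j) ∧
      ∑ e ∈ D, w e ≤ p * ∑ e ∈ S, w e + ∑ j ∈ T, w (rep j) * (1 - p) ^ (R j).card := by
  classical
  obtain ⟨A, hA, h⟩ := R1_choose p hp0 hp1 w R (fun j => w (rep j)) S T
  refine ⟨A ∪ (T.filter (fun j => Disjoint A (R j))).image rep, ?_, ?_, ?_⟩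
  · refine union_subset hA ?_
    intro e he
    obtain ⟨j, hj, rfl⟩ := mem_image.1 he
    exact hR j (mem_filter.1 hj).1 (hrep j (mem_filter.1 hj).1)
  · intro j hj
    by_cases hd : Disjoint A (R j)
    · exact ⟨rep j, mem_union_right _ (mem_image_of_mem _ (mem_filter.2 ⟨hj, hd⟩)), hrep j hj⟩
    · obtain ⟨e, he1, he2⟩ := not_disjoint_iff.1 hd
      exact ⟨e, mem_union_left _ he1, he2⟩
  · have h1 : ∑ e ∈ A ∪ (T.filter (fun j => Disjoint A (R j))).image rep, w e ≤
        ∑ e ∈ A, w e + ∑ e ∈ (T.filter (fun j => Disjoint A (R j))).image rep, w e := by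
      rw [← sum_union_inter]
      have : 0 ≤ ∑ e ∈ A ∩ (T.filter (fun j => Disjoint A (R j))).image rep, w e :=
        sum_nonneg fun e _ => hw e
      linarith
    have h2 : ∑ e ∈ (T.filter (fun j => Disjoint A (R j))).image rep, w e ≤
        ∑ j ∈ T.filter (fun j => Disjoint A (R j)), w (rep j) :=
      sum_image_le_of_nonneg fun e _ => hw e
    have h3 : ∑ j ∈ T, w (rep j) * (1 - p) ^ (S ∩ R j).card =
        ∑ j ∈ T, w (rep j) * (1 - p) ^ (R j).card := by
      refine sum_congr rfl fun j hj => ?_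
      rw [inter_eq_right.2 (hR j hj)]
    rw [h3] at h
    linarith

end Pool.Agent.Lib.MP_5e7226_co.Unc
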