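import Pool.Agent.Lib.MP_5e7226_co.UncR1

set_option autoImplicit false

namespace Pool.Agent.Lib.MP_5e7226_co.Unc

open Finset

variable {V : Type*} [DecidableEq V]

/-- Some residue class carries at most its share of the binomial weights. -/
theorem R2_res (n ρ : ℕ) (hρ : 1 ≤ ρ) : ∃ res < ρ,
    ρ * ∑ h ∈ (range (n + 1)).filter (fun h => h % ρ = res), n.choose h ≤ 2 ^ n := by
  have h1 : ∑ res ∈ range ρ, ∑ h ∈ (range (n + 1)).filter (fun h => h % ρ = res), n.choose h =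
      2 ^ n := by
    rw [sum_fiberwise_of_maps_to (fun h _ => mem_range.2 (Nat.mod_lt h (by omega)))]
    exact Nat.sum_range_choose n
  obtain ⟨res, hres, h2⟩ := exists_le_of_sum_le (s := range ρ)
    (f := fun res => ρ * ∑ h ∈ (range (n + 1)).filter (fun h => h % ρ = res), n.choose h)
    (g := fun _ => 2 ^ n) ⟨0, mem_range.2 (by omega)⟩ (by
      rw [← mul_sum, h1, sum_const, card_range, smul_eq_mul])
  exact ⟨res, mem_range.1 hres, h2⟩

theorem R2_shift (a ρ res : ℕ) (h : res < ρ) : ∃ δ < ρ, (a + δ) % ρ = res := by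
  have hρ : 0 < ρ := by omega
  refine ⟨(res + (ρ - a % ρ)) % ρ, Nat.mod_lt _ hρ, ?_⟩
  have h1 : a % ρ < ρ := Nat.mod_lt _ hρ
  have h2 : a + (res + (ρ - a % ρ)) = res + ρ * (a / ρ + 1) := by
    have := Nat.div_add_mod a ρ
    rw [mul_add, mul_one]
    omega
  rw [Nat.add_mod_mod, h2, Nat.add_mul_mod_self_left, Nat.mod_eq_of_lt h]

/-- The cell of a word: its trace on `H`, the number of its elements in `F \ H`, its trace on `V₀`. -/
def R2_cell (F V₀ H X : Finset V) : Finset V × ℕ × Finset V := (X ∩ H, (X ∩ (F \ H)).card, X ∩ V₀)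

theorem R2_fiber (F V₀ H : Finset V) (hH : H ⊆ F) (e : Finset V × ℕ × Finset V) :
    ((F ∪ V₀).powerset.filter (fun X => R2_cell F V₀ H X = e)).card ≤ (F \ H).card.choose e.2.1 := by
  rw [← card_powersetCard]
  refine card_le_card_of_injOn (fun X => X ∩ (F \ H)) ?_ ?_
  · intro X hX
    obtain ⟨-, h2⟩ := mem_filter.1 (mem_coe.1 hX)
    rw [mem_coe, mem_powersetCard]
    refine ⟨inter_subset_right, ?_⟩
    rw [← h2]
    rfl
  · intro X hX Y hY hXY
    obtain ⟨hX1, hX2⟩ := mem_filter.1 (mem_coe.1 hX)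
    obtain ⟨hY1, hY2⟩ := mem_filter.1 (mem_coe.1 hY)
    have h3 := hX2.trans hY2.symm
    unfold R2_cell at h3
    have h4 : X ∩ H = Y ∩ H := congrArg Prod.fst h3
    have h5 : X ∩ V₀ = Y ∩ V₀ := congrArg (fun e => e.2.2) h3
    have h6 : X ∩ (F \ H) = Y ∩ (F \ H) := hXY
    have key : ∀ Z, Z ⊆ F ∪ V₀ → Z = (Z ∩ H) ∪ (Z ∩ (F \ H)) ∪ (Z ∩ V₀) := by
      intro Z hZ
      rw [← inter_union_distrib_left, ← inter_union_distrib_left, union_sdiff_of_subset hH]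
      exact (inter_eq_left.2 hZ).symm
    rw [key X (mem_powerset.1 hX1), key Y (mem_powerset.1 hY1), h4, h5, h6]

/-- A word in a given cell with a given pattern. -/
theorem R2_word (F V₀ H : Finset V) (hd : Disjoint F V₀) (hH : H ⊆ F) (W G M B τ c : Finset V)
    (hW : W ⊆ F) (hG : G ⊆ V₀) (hM : M ⊆ W) (hB : B ⊆ (W \ M) ∪ G) (hτ : τ ⊆ H) (hc : c ⊆ V₀)
    (h1 : τ ∩ ((H ∩ W) \ M) = B ∩ ((H ∩ W) \ M)) (h2 : c ∩ G = B ∩ G) (h : ℕ)
    (h3 : (B ∩ ((W \ M) \ H)).card ≤ h)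
    (h4 : h ≤ (B ∩ ((W \ M) \ H)).card + (M \ H).card) :
    ∃ X ⊆ F ∪ V₀, R2_cell F V₀ H X = (τ, h, c) ∧ X ∩ ((W \ M) ∪ G) = B := by
  obtain ⟨M', hM', hcard⟩ := exists_subset_card_eq
    (by omega : h - (B ∩ ((W \ M) \ H)).card ≤ (M \ H).card)
  have hFV : ∀ x, x ∈ F → x ∉ V₀ := fun x hx hx' => disjoint_left.1 hd hx hx'
  have m1 : ∀ x, x ∈ M' → x ∈ M ∧ x ∉ H := fun x hx => mem_sdiff.1 (hM' hx)
  have e1 : ∀ x, x ∈ H → x ∈ W → x ∉ M → (x ∈ τ ↔ x ∈ B) := by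
    intro x a1 a2 a3
    have a4 : x ∈ (H ∩ W) \ M := mem_sdiff.2 ⟨mem_inter.2 ⟨a1, a2⟩, a3⟩
    constructor
    · intro a5
      have a6 : x ∈ τ ∩ ((H ∩ W) \ M) := mem_inter.2 ⟨a5, a4⟩
      rw [h1] at a6
      exact (mem_inter.1 a6).1
    · intro a5
      have a6 : x ∈ B ∩ ((H ∩ W) \ M) := mem_inter.2 ⟨a5, a4⟩
      rw [← h1] at a6
      exact (mem_inter.1 a6).1
  have e2 : ∀ x, x ∈ G → (x ∈ c ↔ x ∈ B) := by
    intro x a1
    constructor
    · intro a5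
      have a6 : x ∈ c ∩ G := mem_inter.2 ⟨a5, a1⟩
      rw [h2] at a6
      exact (mem_inter.1 a6).1
    · intro a5
      have a6 : x ∈ B ∩ G := mem_inter.2 ⟨a5, a1⟩
      rw [← h2] at a6
      exact (mem_inter.1 a6).1
  obtain ⟨P, hP⟩ : ∃ P, P = B ∩ ((W \ M) \ H) := ⟨_, rfl⟩
  rw [← hP] at h3 h4 hcard
  have p1 : ∀ x, x ∈ P → x ∈ B ∧ x ∈ W ∧ x ∉ M ∧ x ∉ H := by
    intro x hx
    rw [hP] at hx
    simp only [mem_inter, mem_sdiff] at hx
    exact ⟨hx.1, hx.2.1.1, hx.2.1.2, hx.2.2⟩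
  have p2 : ∀ x, x ∈ B → x ∈ W → x ∉ M → x ∉ H → x ∈ P := by
    intro x b1 b2 b3 b4
    rw [hP]
    exact mem_inter.2 ⟨b1, mem_sdiff.2 ⟨mem_sdiff.2 ⟨b2, b3⟩, b4⟩⟩
  have hX : ∀ x, x ∈ τ ∪ (P ∪ M') ∪ c ↔ (x ∈ τ ∨ x ∈ P ∨ x ∈ M' ∨ x ∈ c) := by
    intro x
    simp only [mem_union, or_assoc]
  refine ⟨τ ∪ (P ∪ M') ∪ c, ?_, ?_, ?_⟩
  · intro x hx
    rcases (hX x).1 hx with hx | hx | hx | hx
    · exact mem_union_left _ (hH (hτ hx))
    · exact mem_union_left _ (hW (p1 x hx).2.1)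
    · exact mem_union_left _ (hW (hM (m1 x hx).1))
    · exact mem_union_right _ (hc hx)
  · unfold R2_cell
    have c1 : (τ ∪ (P ∪ M') ∪ c) ∩ H = τ := by
      refine Subset.antisymm ?_ fun x hx => mem_inter.2 ⟨(hX x).2 (Or.inl hx), hτ hx⟩
      intro x hx
      obtain ⟨hx, hxH⟩ := mem_inter.1 hx
      rcases (hX x).1 hx with hx | hx | hx | hx
      · exact hx
      · exact absurd hxH (p1 x hx).2.2.2
      · exact absurd hxH (m1 x hx).2
      · exact absurd (hc hx) (hFV x (hH hxH))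
    have c2 : (τ ∪ (P ∪ M') ∪ c) ∩ (F \ H) = P ∪ M' := by
      refine Subset.antisymm ?_ fun x hx => ?_
      · intro x hx
        obtain ⟨hx, hxF⟩ := mem_inter.1 hx
        obtain ⟨hxF, hxH⟩ := mem_sdiff.1 hxF
        rcases (hX x).1 hx with hx | hx | hx | hx
        · exact absurd (hτ hx) hxH
        · exact mem_union_left _ hx
        · exact mem_union_right _ hx
        · exact absurd (hc hx) (hFV x hxF)
      · rcases mem_union.1 hx with hx | hx
        · exact mem_inter.2 ⟨(hX x).2 (Or.inr (Or.inl hx)),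
            mem_sdiff.2 ⟨hW (p1 x hx).2.1, (p1 x hx).2.2.2⟩⟩
        · exact mem_inter.2 ⟨(hX x).2 (Or.inr (Or.inr (Or.inl hx))),
            mem_sdiff.2 ⟨hW (hM (m1 x hx).1), (m1 x hx).2⟩⟩
    have c3 : (τ ∪ (P ∪ M') ∪ c) ∩ V₀ = c := by
      refine Subset.antisymm ?_ fun x hx =>
        mem_inter.2 ⟨(hX x).2 (Or.inr (Or.inr (Or.inr hx))), hc hx⟩
      intro x hx
      obtain ⟨hx, hxV⟩ := mem_inter.1 hx
      rcases (hX x).1 hx with hx | hx | hx | hx
      · exact absurd hxV (hFV x (hH (hτ hx)))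
      · exact absurd hxV (hFV x (hW (p1 x hx).2.1))
      · exact absurd hxV (hFV x (hW (hM (m1 x hx).1)))
      · exact hx
    have c4 : Disjoint P M' := by
      rw [disjoint_left]
      intro x hx hx'
      exact (p1 x hx).2.2.1 (m1 x hx').1
    rw [c1, c2, c3, card_union_of_disjoint c4, hcard]
    congr 2
    omega
  · refine Subset.antisymm ?_ fun x hx => ?_
    · intro x hx
      obtain ⟨hx, hxW⟩ := mem_inter.1 hx
      rcases (hX x).1 hx with hx | hx | hx | hx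
      · rcases mem_union.1 hxW with hxW | hxW
        · obtain ⟨b1, b2⟩ := mem_sdiff.1 hxW
          exact (e1 x (hτ hx) b1 b2).1 hx
        · exact absurd (hG hxW) (hFV x (hH (hτ hx)))
      · exact (p1 x hx).1
      · rcases mem_union.1 hxW with hxW | hxW
        · exact absurd (m1 x hx).1 (mem_sdiff.1 hxW).2
        · exact absurd (hG hxW) (hFV x (hW (hM (m1 x hx).1)))
      · rcases mem_union.1 hxW with hxW | hxW
        · exact absurd (hc hx) (hFV x (hW (mem_sdiff.1 hxW).1))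
        · exact (e2 x hxW).1 hx
    · refine mem_inter.2 ⟨?_, hB hx⟩
      rcases mem_union.1 (hB hx) with hxW | hxG
      · obtain ⟨b1, b2⟩ := mem_sdiff.1 hxW
        by_cases hxH : x ∈ H
        · exact (hX x).2 (Or.inl ((e1 x hxH b1 b2).2 hx))
        · exact (hX x).2 (Or.inr (Or.inl (p2 x hx b1 b2 hxH)))
      · exact (hX x).2 (Or.inr (Or.inr (Or.inr ((e2 x hxG).2 hx))))

end Pool.Agent.Lib.MP_5e7226_co.Unc
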