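import Pool.Agent.Lib.MP_5e7226_co.UncCode2

set_option autoImplicit false

namespace Pool.Agent.Lib.MP_5e7226_co.Unc

open Finset

variable {V : Type*} [DecidableEq V]

/-- The code `card = c mod q`: all sets that miss at least `q - 1` points. -/
lemma shat_modq {L : Finset V → Prop} {M : Finset V} {q : ℕ} (hq : 1 ≤ q)
    (h : ∀ H ⊆ M, L H → H.card + (q - 1) ≤ M.card) : Shat L M (2 ^ M.card / q) := by
  classical
  have hsum : ∑ c ∈ range q, (M.powerset.filter (fun X => X.card % q = c)).card =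
      M.powerset.card := by
    rw [← card_biUnion]
    · congr 1
      ext X
      simp only [mem_biUnion, mem_range, mem_filter, mem_powerset]
      constructor
      · rintro ⟨c, _, h1, _⟩
        exact h1
      · intro h1
        exact ⟨X.card % q, Nat.mod_lt _ hq, h1, rfl⟩
    · intro c _ c' _ hcc
      rw [Function.onFun, disjoint_left]
      intro X hX hX'
      exact hcc ((mem_filter.1 hX).2.symm.trans (mem_filter.1 hX').2)
  obtain ⟨c, hc, hcle⟩ : ∃ c ∈ range q,
      (M.powerset.filter (fun X => X.card % q = c)).card ≤ 2 ^ M.card / q := by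
    by_contra hcon
    push Not at hcon
    have h1 : ∑ _c ∈ range q, (2 ^ M.card / q + 1) ≤
        ∑ c ∈ range q, (M.powerset.filter (fun X => X.card % q = c)).card :=
      sum_le_sum hcon
    rw [hsum, sum_const, card_range, card_powerset, smul_eq_mul] at h1
    have h2 := Nat.lt_mul_div_succ (2 ^ M.card) hq
    omega
  refine ⟨_, hcle, ?_⟩
  intro G hG hLG A hA
  have h3 := h G hG hLG
  have hcq : c < q := mem_range.1 hc
  have hAq : A.card % q < q := Nat.mod_lt _ hq
  have hEq : (c + q - A.card % q) % q < q := Nat.mod_lt _ hq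
  obtain ⟨E, hE, hEc⟩ : ∃ E ⊆ M \ G, E.card = (c + q - A.card % q) % q := by
    apply exists_subset_card_eq
    rw [card_sdiff_of_subset hG]
    omega
  refine ⟨A ∪ E, mem_filter.2 ⟨mem_powerset.2 (union_subset (hA.trans hG)
    (hE.trans sdiff_subset)), ?_⟩, ?_⟩
  · have hd : Disjoint A E := by
      rw [disjoint_left]
      intro x hx hxE
      exact (mem_sdiff.1 (hE hxE)).2 (hA hx)
    rw [card_union_of_disjoint hd, hEc, Nat.add_mod, Nat.mod_mod, ← Nat.add_mod]
    have e1 : A.card + (c + q - A.card % q) = c + q * (A.card / q + 1) := by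
      have := Nat.mod_add_div A.card q
      rw [Nat.mul_add, mul_one]
      omega
    rw [e1, Nat.add_mul_mod_self_left]
    exact Nat.mod_eq_of_lt hcq
  · ext x
    simp only [mem_inter, mem_union]
    constructor
    · rintro ⟨h1 | h1, h2⟩
      · exact h1
      · exact absurd h2 (mem_sdiff.1 (hE h1)).2
    · intro h1
      exact ⟨Or.inl h1, hA h1⟩

/-- Members of size at most `a` on at most `a + b + e` points, where `2 ^ e ≤ b + e + 1`. -/
lemma shat_pow {L : Finset V → Prop} {M : Finset V} {a b e : ℕ}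
    (h : ∀ H ⊆ M, L H → H.card ≤ a) (hb : 2 ^ e ≤ b + e + 1) (hM : M.card ≤ a + b + e) :
    Shat L M (2 ^ (a + b)) := by
  rcases Nat.lt_or_ge (a + b) M.card with h1 | h1
  · obtain ⟨e', he'⟩ : ∃ e', M.card = a + b + e' := ⟨M.card - (a + b), by omega⟩
    have hee : e' ≤ e := by omega
    have hpow : 2 ^ e' + (e - e') ≤ 2 ^ e := by
      obtain ⟨g, rfl⟩ : ∃ g, e = e' + g := ⟨e - e', by omega⟩
      have h2 : g + 1 ≤ 2 ^ g := Nat.succ_le_of_lt Nat.lt_two_pow_self
      have h3 : 1 ≤ 2 ^ e' := Nat.one_le_two_pow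
      rw [Nat.add_sub_cancel_left, pow_add]
      nlinarith
    have := shat_modq (L := L) (M := M) (q := 2 ^ e') Nat.one_le_two_pow (fun H hH hLH => by
      have := h H hH hLH
      omega)
    rw [he', pow_add _ (a + b) e', Nat.mul_div_cancel _ (by positivity)] at this
    exact this
  · exact (shat_powerset L M).mono (Nat.pow_le_pow_right (by norm_num) h1)

/-- The copy trick: `v` takes the sign of `y`, where no member contains both. -/
lemma shat_copy {L : Finset V → Prop} {M : Finset V} {v y : V} {g N : ℕ} (hv : v ∉ M) (hy : y ∈ M)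
    (hvy : ∀ G ⊆ insert v M, L G → v ∈ G → y ∉ G) (hg : ∀ G ⊆ insert v M, L G → G.card ≤ g)
    (h : Shat (fun H => H.card ≤ g) M N) : Shat L (insert v M) N := by
  classical
  obtain ⟨D, hD, h⟩ := h
  have hvy' : v ≠ y := by rintro rfl; exact hv hy
  refine ⟨D.image (fun X => if y ∈ X then insert v X else X.erase v),
    card_image_le.trans hD, ?_⟩
  intro G hG hLG A hA
  have hGg := hg G hG hLG
  by_cases hvG : v ∈ G
  · have hyG := hvy G hG hLG hvG
    have hG' : insert y (G.erase v) ⊆ M := by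
      intro x hx
      rcases mem_insert.1 hx with rfl | hx
      · exact hy
      · obtain ⟨h1, h2⟩ := mem_erase.1 hx
        rcases mem_insert.1 (hG h2) with h3 | h3
        · exact absurd h3 h1
        · exact h3
    have hG'c : (insert y (G.erase v)).card ≤ g := by
      rw [card_insert_of_notMem (fun hh => hyG (mem_erase.1 hh).2), card_erase_of_mem hvG]
      have : 0 < G.card := card_pos.2 ⟨v, hvG⟩
      omega
    obtain ⟨X, hX, hXA⟩ := h (insert y (G.erase v)) hG' hG'c
      (if v ∈ A then insert y (A.erase v) else A) (by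
        intro x hx
        split_ifs at hx with hvA
        · rcases mem_insert.1 hx with rfl | hx
          · exact mem_insert_self _ _
          · obtain ⟨h1, h2⟩ := mem_erase.1 hx
            exact mem_insert_of_mem (mem_erase.2 ⟨h1, hA h2⟩)
        · exact mem_insert_of_mem (mem_erase.2 ⟨fun e => hvA (e ▸ hx), hA hx⟩))
    have key : ∀ x, (x ∈ X ∧ x ∈ insert y (G.erase v)) ↔
        x ∈ (if v ∈ A then insert y (A.erase v) else A) := by
      intro x
      rw [← hXA, mem_inter]
    have hyX : y ∈ X ↔ v ∈ A := by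
      have h1 := key y
      have h2 : y ∈ (if v ∈ A then insert y (A.erase v) else A) ↔ v ∈ A := by
        split_ifs with hvA
        · simp [hvA]
        · simp only [hvA, iff_false]
          exact fun hh => hyG (hA hh)
      rw [h2] at h1
      constructor
      · intro hh
        exact h1.1 ⟨hh, mem_insert_self _ _⟩
      · intro hh
        exact (h1.2 hh).1
    have hother : ∀ x ∈ G, x ≠ v → (x ∈ X ↔ x ∈ A) := by
      intro x hx hxv
      have hxy : x ≠ y := fun e => hyG (e ▸ hx)
      have h1 := key x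
      have h2 : x ∈ (if v ∈ A then insert y (A.erase v) else A) ↔ x ∈ A := by
        split_ifs with hvA
        · simp [hxv, hxy]
        · rfl
      rw [h2] at h1
      constructor
      · intro hh
        exact h1.1 ⟨hh, mem_insert_of_mem (mem_erase.2 ⟨hxv, hx⟩)⟩
      · intro hh
        exact (h1.2 hh).1
    refine ⟨_, mem_image.2 ⟨X, hX, rfl⟩, ?_⟩
    ext x
    rw [mem_inter]
    by_cases hxv : x = v
    · subst hxv
      constructor
      · rintro ⟨h1, _⟩
        by_contra hxA
        rw [if_neg (fun hh => hxA (hyX.1 hh))] at h1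
        exact (mem_erase.1 h1).1 rfl
      · intro h1
        rw [if_pos (hyX.2 h1)]
        exact ⟨mem_insert_self _ _, hvG⟩
    · have h1 : x ∈ (if y ∈ X then insert v X else X.erase v) ↔ x ∈ X := by
        split_ifs
        · simp [hxv]
        · simp [hxv]
      rw [h1]
      constructor
      · rintro ⟨h2, h3⟩
        exact (hother x h3 hxv).1 h2
      · intro h2
        exact ⟨(hother x (hA h2) hxv).2 h2, hA h2⟩
  · have hGM : G ⊆ M := by
      intro x hx
      rcases mem_insert.1 (hG hx) with h3 | h3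
      · exact absurd (h3 ▸ hx) hvG
      · exact h3
    obtain ⟨X, hX, hXA⟩ := h G hGM hGg A hA
    refine ⟨_, mem_image.2 ⟨X, hX, rfl⟩, ?_⟩
    rw [← hXA]
    ext x
    rw [mem_inter, mem_inter]
    constructor
    · rintro ⟨h1, h2⟩
      have hxv : x ≠ v := fun e => hvG (e ▸ h2)
      refine ⟨?_, h2⟩
      split_ifs at h1
      · exact (mem_insert.1 h1).resolve_left hxv
      · exact (mem_erase.1 h1).2
    · rintro ⟨h1, h2⟩
      have hxv : x ≠ v := fun e => hvG (e ▸ h2)
      refine ⟨?_, h2⟩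
      split_ifs
      · exact mem_insert_of_mem h1
      · exact mem_erase.2 ⟨hxv, h1⟩

/-- The structured covering array bound: a largest member `T₀`, all members have at most `j` points
outside. -/
lemma shat_struct {L : Finset V → Prop} {M T₀ : Finset V} {j : ℕ} (hT : T₀ ⊆ M)
    (h : ∀ H ⊆ M, L H → H.card ≤ T₀.card ∧ (H \ T₀).card ≤ j)
    (hN : (∑ w ∈ range (j + 1), T₀.card.choose w * (M.card - T₀.card).choose w : ℕ) ≤
      Real.exp ((2 ^ j - 1 : ℕ) : ℝ)) : Shat L M (2 ^ (T₀.card + j)) := by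
  set d := T₀.card with hd
  -- the sets of size `d` with at most `j` points outside `T₀`
  let P : Finset (Finset V) := (M.powersetCard d).filter (fun H => (H \ T₀).card ≤ j)
  have hPc : P.card ≤ ∑ w ∈ range (j + 1), d.choose w * (M.card - d).choose w := by
    have h1 : P ⊆ (range (j + 1)).biUnion (fun w => (T₀.powersetCard w ×ˢ
        (M \ T₀).powersetCard w).image (fun p => (T₀ \ p.1) ∪ p.2)) := by
      intro H hH
      obtain ⟨h2, h3⟩ := mem_filter.1 hH
      obtain ⟨h4, h5⟩ := mem_powersetCard.1 h2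
      have e1 : (T₀ \ H).card = (H \ T₀).card := by
        have a1 := card_sdiff_add_card_inter H T₀
        have a2 := card_sdiff_add_card_inter T₀ H
        rw [inter_comm] at a2
        omega
      refine mem_biUnion.2 ⟨(H \ T₀).card, mem_range.2 (by omega), mem_image.2
        ⟨(T₀ \ H, H \ T₀), ?_, ?_⟩⟩
      · rw [mem_product, mem_powersetCard, mem_powersetCard]
        exact ⟨⟨sdiff_subset, e1⟩, sdiff_subset_sdiff h4 (Subset.refl _), rfl⟩
      · show (T₀ \ (T₀ \ H)) ∪ (H \ T₀) = H
        ext x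
        simp only [mem_union, mem_sdiff, not_and, not_not]
        constructor
        · rintro (⟨h6, h7⟩ | ⟨h6, _⟩)
          · exact h7 h6
          · exact h6
        · intro h6
          by_cases h7 : x ∈ T₀
          · exact Or.inl ⟨h7, fun _ => h6⟩
          · exact Or.inr ⟨h6, h7⟩
    refine (card_le_card h1).trans (card_biUnion_le.trans (sum_le_sum ?_))
    intro w _
    refine card_image_le.trans ?_
    rw [card_product, card_powersetCard, card_powersetCard, card_sdiff_of_subset hT]
  let U : Finset (Σ _ : Finset V, Finset V) := P.sigma (fun G => G.powerset)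
  have hU : ∀ p ∈ U, p.2 ⊆ p.1 ∧ p.1 ⊆ M ∧ p.1.card ≤ d := by
    intro p hp
    obtain ⟨h3, h4⟩ := mem_sigma.1 hp
    obtain ⟨h5, h6⟩ := mem_powersetCard.1 (mem_filter.1 h3).1
    exact ⟨mem_powerset.1 h4, h5, h6.le⟩
  have hUc : (U.card : ℝ) ≤ Real.exp ((2 ^ j - 1 : ℕ) : ℝ) * 2 ^ d := by
    have h2 : U.card = P.card * 2 ^ d := by
      rw [card_sigma, sum_congr rfl (fun G hG => ?_), sum_const, smul_eq_mul]
      rw [card_powerset, (mem_powersetCard.1 (mem_filter.1 hG).1).2]
    rw [h2]
    push_cast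
    apply mul_le_mul_of_nonneg_right _ (by positivity)
    refine le_trans ?_ hN
    exact_mod_cast hPc
  obtain ⟨D, hD, hcard⟩ := greedy M U hU (2 ^ d * (2 ^ j - 1))
  set U' := U.filter (fun p => ∀ X ∈ D, X ∩ p.1 ≠ p.2) with hU'
  have hU'c : (U'.card : ℝ) ≤ 2 ^ d := by
    refine hcard.trans ?_
    have hx : (0 : ℝ) < (1 / 2 : ℝ) ^ d := by positivity
    have hx1 : (1 / 2 : ℝ) ^ d ≤ 1 := pow_le_one₀ (by norm_num) (by norm_num)
    have h1 : (1 - (1 / 2 : ℝ) ^ d) ^ (2 ^ d * (2 ^ j - 1)) ≤
        Real.exp (-((2 ^ j - 1 : ℕ) : ℝ)) := by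
      have h2 : 1 - (1 / 2 : ℝ) ^ d ≤ Real.exp (-(1 / 2 : ℝ) ^ d) := by
        have := Real.add_one_le_exp (-(1 / 2 : ℝ) ^ d)
        linarith
      calc (1 - (1 / 2 : ℝ) ^ d) ^ (2 ^ d * (2 ^ j - 1))
          ≤ (Real.exp (-(1 / 2 : ℝ) ^ d)) ^ (2 ^ d * (2 ^ j - 1)) :=
            pow_le_pow_left₀ (by linarith) h2 _
        _ = Real.exp ((2 ^ d * (2 ^ j - 1) : ℕ) * (-(1 / 2 : ℝ) ^ d)) :=
            (Real.exp_nat_mul _ _).symm
        _ = Real.exp (-((2 ^ j - 1 : ℕ) : ℝ)) := by
          congr 1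
          rw [Nat.cast_mul, Nat.cast_pow, Nat.cast_ofNat]
          have h4 : (2 : ℝ) ^ d * (1 / 2) ^ d = 1 := by
            rw [← mul_pow]; norm_num
          calc (2 : ℝ) ^ d * ((2 ^ j - 1 : ℕ) : ℝ) * -(1 / 2) ^ d =
              -(((2 ^ j - 1 : ℕ) : ℝ) * ((2 : ℝ) ^ d * (1 / 2) ^ d)) := by ring
            _ = _ := by rw [h4, mul_one]
    calc (U.card : ℝ) * (1 - (1 / 2 : ℝ) ^ d) ^ (2 ^ d * (2 ^ j - 1))
        ≤ (Real.exp ((2 ^ j - 1 : ℕ) : ℝ) * 2 ^ d) * Real.exp (-((2 ^ j - 1 : ℕ) : ℝ)) := by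
          apply mul_le_mul hUc h1 _ (by positivity)
          apply pow_nonneg; linarith
      _ = 2 ^ d * (Real.exp ((2 ^ j - 1 : ℕ) : ℝ) * Real.exp (-((2 ^ j - 1 : ℕ) : ℝ))) := by ring
      _ = 2 ^ d := by rw [← Real.exp_add, add_neg_cancel, Real.exp_zero, mul_one]
  refine ⟨D ∪ U'.image Sigma.snd, ?_, ?_⟩
  · have h1 : (U'.image Sigma.snd).card ≤ 2 ^ d := by
      refine card_image_le.trans ?_
      exact_mod_cast hU'c
    have h2 : 2 ^ d * (2 ^ j - 1) + 2 ^ d = 2 ^ (d + j) := by
      have : 1 ≤ 2 ^ j := Nat.one_le_two_pow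
      rw [pow_add, Nat.mul_sub, mul_one, Nat.sub_add_cancel]
      exact Nat.le_mul_of_pos_right _ (by positivity)
    calc _ ≤ D.card + (U'.image Sigma.snd).card := card_union_le _ _
      _ ≤ 2 ^ d * (2 ^ j - 1) + 2 ^ d := Nat.add_le_add hD h1
      _ = _ := h2
  · intro G hG hLG A hA
    obtain ⟨hGd, hGj⟩ := h G hG hLG
    -- extend `G` to a member of `P`
    obtain ⟨E, hE, hEc⟩ : ∃ E ⊆ T₀ \ G, E.card = d - G.card := by
      apply exists_subset_card_eq
      have a1 := card_sdiff_add_card_inter G T₀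
      have a2 := card_sdiff_add_card_inter T₀ G
      rw [inter_comm] at a2
      omega
    have hdGE : Disjoint G E := by
      rw [disjoint_left]
      intro x hx hxE
      exact (mem_sdiff.1 (hE hxE)).2 hx
    have hGP : G ∪ E ∈ P := by
      refine mem_filter.2 ⟨mem_powersetCard.2 ⟨union_subset hG ((hE.trans sdiff_subset).trans hT),
        ?_⟩, ?_⟩
      · rw [card_union_of_disjoint hdGE, hEc]
        omega
      · have : (G ∪ E) \ T₀ = G \ T₀ := by
          ext x
          simp only [mem_sdiff, mem_union]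
          constructor
          · rintro ⟨h1 | h1, h2⟩
            · exact ⟨h1, h2⟩
            · exact absurd (mem_sdiff.1 (hE h1)).1 h2
          · rintro ⟨h1, h2⟩
            exact ⟨Or.inl h1, h2⟩
        rw [this]
        exact hGj
    have hp : (⟨G ∪ E, A⟩ : Σ _ : Finset V, Finset V) ∈ U :=
      mem_sigma.2 ⟨hGP, mem_powerset.2 (hA.trans subset_union_left)⟩
    have hX : ∃ X ∈ D ∪ U'.image Sigma.snd, X ∩ (G ∪ E) = A := by
      by_cases hcov : ∃ X ∈ D, X ∩ (G ∪ E) = A
      · obtain ⟨X, hX, hXA⟩ := hcov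
        exact ⟨X, mem_union_left _ hX, hXA⟩
      · push Not at hcov
        refine ⟨A, mem_union_right _ (mem_image.2 ⟨⟨G ∪ E, A⟩, ?_, rfl⟩), ?_⟩
        · exact mem_filter.2 ⟨hp, hcov⟩
        · exact inter_eq_left.2 (hA.trans subset_union_left)
    obtain ⟨X, hX, hXA⟩ := hX
    refine ⟨X, hX, ?_⟩
    calc X ∩ G = (X ∩ (G ∪ E)) ∩ G := by
          rw [inter_assoc, inter_eq_right.2 (subset_union_left : G ⊆ G ∪ E)]
      _ = A := by rw [hXA]; exact inter_eq_left.2 hA

end Pool.Agent.Lib.MP_5e7226_co.Unc
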