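import Pool.Agent.Lib.MP_5e7226_co.UncMain
import Pool.Agent.Lib.MP_5e7226_co.UncS1

set_option autoImplicit false
set_option linter.unusedSectionVars false

namespace Pool.Agent.Lib.MP_5e7226_co.Unc

open Finset

variable {V : Type*} [Fintype V] [DecidableEq V]

/-- The sum over the faces `R` outside `Y`. -/
lemma ill_of_links {Δ : Finset V → Prop} (hΔ : ∀ G H : Finset V, H ⊆ G → Δ G → Δ H)
    {W Y : Finset V} (hYW : Y ⊆ W) (hY : Gam Δ Y) (hYne : Y.Nonempty) (hΔY : ¬ Δ Y) (h0 : Δ ∅)
    (hcard : ∀ R ⊆ W \ Y, Δ R → R.card ≤ Y.card)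
    (hlink : ∀ R ⊆ W \ Y, Δ R → R.Nonempty →
      Shat (fun G => Δ (G ∪ R)) Y (2 ^ (Y.card - R.card))) :
    Ill Δ W (2 ^ W.card - 1) := by
  classical
  let N : Finset V → ℕ := fun R => if R = ∅ then 2 ^ (Y.card - 1) else 2 ^ (Y.card - R.card)
  have hN : ∀ R ⊆ W \ Y, Δ R → Shat (fun G => Δ (G ∪ R)) Y (N R) := by
    intro R hR hΔR
    by_cases h : R = ∅
    · subst h
      simp only [N, if_true, union_empty]
      exact shat_even hΔY hYne
    · simp only [N, h, if_false]
      exact hlink R hR hΔR (nonempty_iff_ne_empty.2 h)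
  have hill := scheme (T := W \ Y) disjoint_sdiff hY N hN hΔ
  rw [union_sdiff_of_subset hYW] at hill
  apply hill.mono
  have hterm : ∀ R ∈ (W \ Y).powerset.filter (fun R => Δ R), 2 ^ R.card * N R ≤ 2 ^ Y.card := by
    intro R hR
    obtain ⟨h1, h2⟩ := mem_filter.1 hR
    have h3 : R.card ≤ Y.card := hcard R (mem_powerset.1 h1) h2
    by_cases h : R = ∅
    · subst h
      simp only [N, if_true, card_empty, pow_zero, one_mul]
      exact Nat.pow_le_pow_right (by norm_num) (by omega)
    · simp only [N, h, if_false]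
      rw [← pow_add]
      exact Nat.pow_le_pow_right (by norm_num) (by omega)
  have hlt : ∑ R ∈ (W \ Y).powerset.filter (fun R => Δ R), 2 ^ R.card * N R <
      ∑ _R ∈ (W \ Y).powerset.filter (fun R => Δ R), 2 ^ Y.card := by
    apply sum_lt_sum hterm
    refine ⟨∅, mem_filter.2 ⟨mem_powerset.2 (empty_subset _), h0⟩, ?_⟩
    simp only [N, if_true, card_empty, pow_zero, one_mul]
    exact Nat.pow_lt_pow_right (by norm_num) (by have := card_pos.2 hYne; omega)
  have hle : ∑ _R ∈ (W \ Y).powerset.filter (fun R => Δ R), 2 ^ Y.card ≤ 2 ^ W.card := by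
    rw [sum_const, smul_eq_mul]
    calc ((W \ Y).powerset.filter (fun R => Δ R)).card * 2 ^ Y.card
        ≤ (W \ Y).powerset.card * 2 ^ Y.card := Nat.mul_le_mul_right _ (card_filter_le _ _)
      _ = 2 ^ W.card := by
        rw [card_powerset, ← pow_add]
        congr 1
        rw [← card_union_of_disjoint sdiff_disjoint, sdiff_union_of_subset hYW]
  omega

/-- (F4) `R` joined to all of `M`, where `M ∪ K` is in one face: only `K ∪ R` matters. -/
lemma gam_link2 {Δ : Finset V → Prop} {R F M K : Finset V} (hR : Δ R)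
    (hM : ∀ y ∈ M, Δ ({y} ∪ R)) (hd : Disjoint (M ∪ K) R) (hMK : Disjoint M K) (hF : Δ F)
    (hMF : M ∪ K ⊆ F) (hK : Gam Δ (K ∪ R)) : Gam Δ ((M ∪ K) ∪ R) := by
  intro c hc
  rw [sum_union hd, sum_union hMK]
  have h1 : ∑ i ∈ M ∪ K, |c i| ≤ 1 :=
    (sum_le_sum_of_subset_of_nonneg hMF (fun _ _ _ => abs_nonneg _)).trans (hc F hF)
  rw [sum_union hMK] at h1
  have h2 := hc R hR
  by_contra hcon
  push Not at hcon
  have h3 : ∑ i ∈ R, |c i| = 1 := by linarith
  have h4 : ∀ y ∈ M, |c y| ≤ 0 := by
    intro y hy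
    have := hc _ (hM y hy)
    rw [sum_union (by
      rw [disjoint_singleton_left]
      exact disjoint_left.1 hd (mem_union_left _ hy)), sum_singleton] at this
    linarith
  have h5 : ∑ i ∈ M, |c i| ≤ 0 := sum_nonpos h4
  have h6 := hK c hc
  rw [sum_union (disjoint_of_subset_left subset_union_right hd)] at h6
  linarith

/-- The copy step in the two small cases. `Y = insert v Q`, all members of the link of `R` in `Y`
lie in `insert v M`. -/
lemma shat_copy_step {L : Finset V → Prop} {M : Finset V} {v : V} {a b e : ℕ} (hv : v ∉ M)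
    (hb : 2 ^ e ≤ b + e + 1) (hM : M.card ≤ a + b + e)
    (hsize : ∀ G ⊆ insert v M, L G → G.card ≤ a)
    (hy : M.card = a + b + e → ∃ y ∈ M, ∀ G ⊆ insert v M, L G → v ∈ G → y ∉ G) :
    Shat L (insert v M) (2 ^ (a + b)) := by
  rcases Nat.lt_or_ge M.card (a + b + e) with h1 | h1
  · exact shat_pow hsize hb (by rw [card_insert_of_notMem hv]; omega)
  · obtain ⟨y, hyM, hvy⟩ := hy (by omega)
    exact shat_copy hv hyM hvy hsize (shat_pow (fun H _ hH => hH) hb hM)

/-- helper44's theorem: no I-set in `W` has more than four points more than the largest face. -/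
lemma ill_small {Δ : Finset V → Prop} (hΔ : ∀ G H : Finset V, H ⊆ G → Δ G → Δ H)
    {W F₀ : Finset V} (hW : ∀ x ∈ W, ∀ y ∈ W, Δ {x, y}) (hFW : F₀ ⊆ W) (hF : Δ F₀) (hne : F₀ ≠ W)
    (hf : ∀ F ⊆ W, Δ F → F.card ≤ F₀.card)
    (hu : ∀ Z ⊆ W, Gam Δ Z → Z.card ≤ F₀.card + 4) : Ill Δ W (2 ^ W.card - 1) := by
  classical
  obtain ⟨v, hvW, hvF⟩ : ∃ v ∈ W, v ∉ F₀ := by
    by_contra hcon
    push Not at hcon
    exact hne (Subset.antisymm hFW hcon)
  have hsing : ∀ x ∈ W, Δ {x} := by
    intro x hx
    have := hW x hx x hx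
    rwa [pair_eq_singleton] at this
  have hsingv : Δ {v} := hsing v hvW
  have h0 : Δ ∅ := hΔ _ _ (empty_subset _) hsingv
  -- the facts
  have fact1 : ∀ R ⊆ W, Δ R → Disjoint F₀ R → ∀ M ⊆ F₀, (∀ y ∈ M, Δ ({y} ∪ R)) →
      M.card + R.card ≤ F₀.card + 4 := by
    intro R hRW hΔR hRF M hMF hML
    have h1 : Gam Δ ((F₀ ∩ M) ∪ R) := gam_link hΔR hML (disjoint_of_subset_left hMF hRF) hF
    rw [inter_eq_right.2 hMF] at h1
    have h2 := hu (M ∪ R) (union_subset (hMF.trans hFW) hRW) h1
    rwa [card_union_of_disjoint (disjoint_of_subset_left hMF hRF)] at h2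
  have fact2 : ∀ R ⊆ W, Δ R → Disjoint F₀ R → ∀ M ⊆ F₀, (∀ y ∈ M, Δ ({y} ∪ R)) →
      M ≠ F₀ → M.card + R.card ≤ F₀.card + 3 := by
    intro R hRW hΔR hRF M hMF hML hMne
    obtain ⟨z, hzF, hzM⟩ : ∃ z ∈ F₀, z ∉ M := by
      by_contra hcon
      push Not at hcon
      exact hMne (Subset.antisymm hMF hcon)
    have hzR : z ∉ R := disjoint_left.1 hRF hzF
    have hK : Gam Δ ({z} ∪ R) := by
      have h1 : Gam Δ ((R ∩ R) ∪ {z}) := gam_link (hsing z (hFW hzF)) (by
        intro y hy
        have := hW y (hRW hy) z (hFW hzF)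
        rwa [insert_eq] at this) (by
        rw [disjoint_singleton_right]; exact hzR) hΔR
      rwa [inter_self, union_comm] at h1
    have hMz : M ∪ {z} ⊆ F₀ := union_subset hMF (by simpa using hzF)
    have hd : Disjoint (M ∪ {z}) R := disjoint_of_subset_left hMz hRF
    have h1 := gam_link2 hΔR hML hd (by rw [disjoint_singleton_right]; exact hzM) hF hMz hK
    have h2 := hu _ (union_subset (hMz.trans hFW) hRW) h1
    rw [card_union_of_disjoint hd, card_union_of_disjoint
      (by rw [disjoint_singleton_right]; exact hzM), card_singleton] at h2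
    omega
  -- a point of `M` that is not joined to `{v} ∪ R`
  have nonjoin : ∀ (R : Finset V) (x : V) (L' : Finset V → Prop), (∀ G, L' G → Δ (G ∪ R)) →
      ∀ y, ¬ Δ ({y} ∪ ({x} ∪ R)) → ∀ G, L' G → x ∈ G → y ∉ G := by
    intro R x L' hL' y hyv G hLG hxG hyG
    apply hyv
    refine hΔ _ _ ?_ (hL' G hLG)
    intro z hz
    rcases mem_union.1 hz with h1 | h1
    · rw [mem_singleton.1 h1]; exact mem_union_left _ hyG
    · rcases mem_union.1 h1 with h1 | h1
      · rw [mem_singleton.1 h1]; exact mem_union_left _ hxG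
      · exact mem_union_right _ h1
  by_cases hcase : ∃ V₀ ⊆ W, Disjoint F₀ V₀ ∧ V₀.card = 4 ∧ Δ V₀ ∧ ∀ y ∈ F₀, Δ ({y} ∪ V₀)
  · -- Case I
    obtain ⟨V₀, hV₀W, hFV, hV₀c, hΔV₀, hV₀F⟩ := hcase
    have hY : Gam Δ (F₀ ∪ V₀) := by
      have h1 : Gam Δ ((F₀ ∩ F₀) ∪ V₀) := gam_link hΔV₀ hV₀F hFV hF
      rwa [inter_self] at h1
    have hYW : F₀ ∪ V₀ ⊆ W := union_subset hFW hV₀W
    have hYc : (F₀ ∪ V₀).card = F₀.card + 4 := by rw [card_union_of_disjoint hFV, hV₀c]
    have hYne : (F₀ ∪ V₀).Nonempty := card_pos.1 (by omega)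
    apply ill_of_links hΔ hYW hY hYne _ h0
    · intro R hR hΔR
      have := hf R (hR.trans sdiff_subset) hΔR
      omega
    · intro R hR hΔR hRne
      rw [hYc]
      have hRW : R ⊆ W := hR.trans sdiff_subset
      have hRd : Disjoint (F₀ ∪ V₀) R := disjoint_of_subset_right hR disjoint_sdiff
      have hRF : Disjoint F₀ R := disjoint_of_subset_left subset_union_left hRd
      have hRf := hf R hRW hΔR
      obtain ⟨a, ha⟩ : ∃ a, F₀.card = a + R.card := ⟨F₀.card - R.card, by omega⟩
      have ha1 : F₀.card + 4 - R.card = a + 4 := by omega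
      rw [ha1]
      set L : Finset V → Prop := fun G => Δ (G ∪ R) with hL
      have hsize : ∀ G ⊆ F₀ ∪ V₀, L G → G.card ≤ a := by
        intro G hG hLG
        have h1 := hf (G ∪ R) (union_subset (hG.trans hYW) hRW) hLG
        rw [card_union_of_disjoint (disjoint_of_subset_left hG hRd)] at h1
        omega
      set M := F₀.filter (fun x => Δ ({x} ∪ R)) with hM
      have hMF : M ⊆ F₀ := filter_subset _ _
      have hML : ∀ y ∈ M, Δ ({y} ∪ R) := fun y hy => (mem_filter.1 hy).2
      set P := (F₀ ∪ V₀).filter (fun x => Δ ({x} ∪ R)) with hP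
      have hPY : P ⊆ F₀ ∪ V₀ := filter_subset _ _
      have hPM : P ⊆ M ∪ V₀ := by
        intro x hx
        obtain ⟨h1, h2⟩ := mem_filter.1 hx
        rcases mem_union.1 h1 with h1 | h1
        · exact mem_union_left _ (mem_filter.2 ⟨h1, h2⟩)
        · exact mem_union_right _ h1
      have hin : ∀ G ⊆ F₀ ∪ V₀, L G → G ⊆ P := by
        intro G hG hLG y hy
        exact mem_filter.2 ⟨hG hy, hΔ _ _ (union_subset_union
          (singleton_subset_iff.2 hy) (Subset.refl _)) hLG⟩
      apply Shat.of_subset _ hin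
      have hPc : P.card ≤ M.card + 4 := by
        have := card_le_card hPM
        have h2 := card_union_le M V₀
        omega
      by_cases hP7 : P.card ≤ a + 4 + 3
      · exact shat_pow (fun G hG => hsize G (hG.trans hPY)) (by norm_num) hP7
      -- `M = F₀`, `R.card = 4`, `P = F₀ ∪ V₀`
      have hMF₀ : M = F₀ := by
        by_contra hMne
        have := fact2 R hRW hΔR hRF M hMF hML hMne
        omega
      have hR4 := fact1 R hRW hΔR hRF M hMF hML
      rw [hMF₀] at hR4 hPc
      have hR4' : R.card = 4 := by omega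
      have hPY' : P = F₀ ∪ V₀ := eq_of_subset_of_card_le hPY (by omega)
      obtain ⟨x, hx⟩ : V₀.Nonempty := card_pos.1 (by omega)
      have hxP : x ∈ P := by rw [hPY']; exact mem_union_right _ hx
      have hxR : Δ ({x} ∪ R) := (mem_filter.1 hxP).2
      have hxnR : x ∉ R := disjoint_left.1 hRd (mem_union_right _ hx)
      have hxF : x ∉ F₀ := disjoint_right.1 hFV hx
      obtain ⟨y, hyF, hyx⟩ : ∃ y ∈ F₀, ¬ Δ ({y} ∪ ({x} ∪ R)) := by
        by_contra hcon
        push Not at hcon
        have h1 := fact1 ({x} ∪ R) (union_subset (by simpa using hV₀W hx) hRW) hxR (by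
          rw [disjoint_union_right, disjoint_singleton_right]; exact ⟨hxF, hRF⟩) F₀
          (Subset.refl _) hcon
        rw [card_union_of_disjoint (by rw [disjoint_singleton_left]; exact hxnR),
          card_singleton] at h1
        omega
      have hyx' : y ≠ x := by rintro rfl; exact hxF hyF
      have hins : insert x (P.erase x) = P := insert_erase hxP
      have hPe : (P.erase x).card = a + 4 + 3 := by
        rw [card_erase_of_mem hxP, hPY', hYc]
        omega
      have hcs := shat_copy_step (L := L) (M := P.erase x) (v := x) (a := a) (b := 4) (e := 3)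
        (notMem_erase _ _) (by norm_num) hPe.le (by
          rw [hins]
          exact fun G hG => hsize G (hG.trans hPY)) (fun _ => ⟨y, by
          rw [mem_erase, hPY']
          exact ⟨hyx', mem_union_left _ hyF⟩, fun G _ hLG hxG =>
            nonjoin R x L (fun _ h => h) y hyx G hLG hxG⟩)
      rwa [hins] at hcs
    · intro hΔY
      have := hf _ hYW hΔY
      omega
  · -- Case II
    have hY : Gam Δ (insert v F₀) := by
      have h1 : Gam Δ ((F₀ ∩ F₀) ∪ {v}) := gam_link hsingv (by
        intro y hy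
        have := hW y (hFW hy) v hvW
        rwa [insert_eq] at this) (by
        rw [disjoint_singleton_right]; exact hvF) hF
      rwa [inter_self, union_comm, ← insert_eq] at h1
    have hYW : insert v F₀ ⊆ W := insert_subset hvW hFW
    have hYc : (insert v F₀).card = F₀.card + 1 := card_insert_of_notMem hvF
    apply ill_of_links hΔ hYW hY (insert_nonempty _ _) _ h0
    · intro R hR hΔR
      have := hf R (hR.trans sdiff_subset) hΔR
      omega
    · intro R hR hΔR hRne
      rw [hYc]
      have hRW : R ⊆ W := hR.trans sdiff_subset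
      have hRd : Disjoint (insert v F₀) R := disjoint_of_subset_right hR disjoint_sdiff
      have hRF : Disjoint F₀ R := disjoint_of_subset_left (subset_insert _ _) hRd
      have hvR : v ∉ R := disjoint_left.1 hRd (mem_insert_self _ _)
      have hRf := hf R hRW hΔR
      obtain ⟨a, ha⟩ : ∃ a, F₀.card = a + R.card := ⟨F₀.card - R.card, by omega⟩
      have ha1 : F₀.card + 1 - R.card = a + 1 := by omega
      rw [ha1]
      set L : Finset V → Prop := fun G => Δ (G ∪ R) with hL
      have hsize : ∀ G ⊆ insert v F₀, L G → G.card ≤ a := by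
        intro G hG hLG
        have h1 := hf (G ∪ R) (union_subset (hG.trans hYW) hRW) hLG
        rw [card_union_of_disjoint (disjoint_of_subset_left hG hRd)] at h1
        omega
      set M := F₀.filter (fun x => Δ ({x} ∪ R)) with hM
      have hMF : M ⊆ F₀ := filter_subset _ _
      have hML : ∀ y ∈ M, Δ ({y} ∪ R) := fun y hy => (mem_filter.1 hy).2
      have hMc : M.card ≤ a + 1 + 2 := by
        by_cases hMne : M = F₀
        · have h1 := fact1 R hRW hΔR hRF M hMF hML
          rw [hMne] at h1 ⊢
          have h2 : R.card ≠ 4 := by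
            intro h4
            apply hcase
            refine ⟨R, hRW, hRF, h4, hΔR, fun y hy => hML y ?_⟩
            rw [hMne]; exact hy
          omega
        · have := fact2 R hRW hΔR hRF M hMF hML hMne
          omega
      have hin : ∀ G ⊆ insert v F₀, L G → G ⊆ insert v M := by
        intro G hG hLG y hy
        rcases mem_insert.1 (hG hy) with h1 | h1
        · exact mem_insert.2 (Or.inl h1)
        · exact mem_insert_of_mem (mem_filter.2 ⟨h1, hΔ _ _ (union_subset_union
            (singleton_subset_iff.2 hy) (Subset.refl _)) hLG⟩)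
      by_cases hvL : Δ ({v} ∪ R)
      · -- all points in `insert v M`
        apply Shat.of_subset _ hin
        have hvM : v ∉ M := fun hh => hvF (hMF hh)
        refine shat_copy_step (L := L) (e := 2) hvM (by norm_num) hMc (fun G hG =>
          hsize G (hG.trans (insert_subset_insert _ hMF))) (fun hMa => ?_)
        -- some `y` in `M` is not joined to `v`
        obtain ⟨y, hyM, hyv⟩ : ∃ y ∈ M, ¬ Δ ({y} ∪ ({v} ∪ R)) := by
          by_contra hcon
          push Not at hcon
          have hvRW : {v} ∪ R ⊆ W := union_subset (by simpa using hvW) hRW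
          have hd' : Disjoint F₀ ({v} ∪ R) := by
            rw [disjoint_union_right, disjoint_singleton_right]
            exact ⟨hvF, hRF⟩
          have hc : ({v} ∪ R).card = R.card + 1 := by
            rw [card_union_of_disjoint (by rw [disjoint_singleton_left]; exact hvR),
              card_singleton, add_comm]
          by_cases hMne : M = F₀
          · apply hcase
            refine ⟨{v} ∪ R, hvRW, hd', ?_, hvL, fun y hy => hcon y ?_⟩
            · rw [hMne] at hMa
              omega
            · rw [hMne]; exact hy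
          · have := fact2 ({v} ∪ R) hvRW hvL hd' M hMF hcon hMne
            omega
        exact ⟨y, hyM, fun G _ hLG hxG => nonjoin R v L (fun _ h => h) y hyv G hLG hxG⟩
      · -- `v` does not occur
        apply Shat.of_subset (M := M)
        · exact shat_pow (e := 2) (fun G hG => hsize G (hG.trans (hMF.trans (subset_insert _ _))))
            (by norm_num) hMc
        · intro G hG hLG y hy
          rcases mem_insert.1 (hin G hG hLG hy) with h1 | h1
          · exfalso
            apply hvL
            refine hΔ _ _ (union_subset_union ?_ (Subset.refl _)) hLG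
            rw [singleton_subset_iff, ← h1]; exact hy
          · exact h1
    · intro hΔY
      have := hf _ hYW hΔY
      omega

/-- The greedy case. -/
lemma ill_large {Δ : Finset V → Prop} (hΔ : ∀ G H : Finset V, H ⊆ G → Δ G → Δ H)
    (hsing : ∀ i, Δ {i}) {W Y : Finset V} (hW : ∀ x ∈ W, ∀ y ∈ W, Δ {x, y})
    (hgam : ¬ Gam Δ W) (hYW : Y ⊆ W) (hY : Gam Δ Y) (hmax : ∀ Z ⊆ W, Gam Δ Z → Z.card ≤ Y.card)
    {f : ℕ} (hf : ∀ F ⊆ W, Δ F → F.card ≤ f)
    (hnum : ∀ k d j : ℕ, 1 ≤ k → d + k + j = Y.card → d + k ≤ f → k + Y.card ≤ W.card →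
      (∑ w ∈ range (j + 1), d.choose w * (k + j).choose w : ℕ) ≤
        Real.exp ((2 ^ j - 1 : ℕ) : ℝ)) :
    Ill Δ W (2 ^ W.card - 1) := by
  classical
  have hYne : Y ≠ W := by rintro rfl; exact hgam hY
  obtain ⟨b, hbW, hbY⟩ : ∃ b ∈ W, b ∉ Y := by
    by_contra hcon
    push Not at hcon
    exact hYne (Subset.antisymm hYW hcon)
  have hYnon : Y.Nonempty := by
    have h1 := hmax {b} (by simpa using hbW) (gam_face (hsing b))
    rw [card_singleton] at h1
    exact card_pos.1 (by omega)
  have hΔY : ¬ Δ Y := by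
    intro hΔY
    have h1 : Gam Δ ((Y ∩ Y) ∪ {b}) := gam_link (hsing b) (by
      intro y hy
      have := hW y (hYW hy) b hbW
      rwa [insert_eq] at this) (by
      rw [disjoint_singleton_right]; exact hbY) hΔY
    rw [inter_self] at h1
    have h2 := hmax _ (union_subset hYW (by simpa using hbW)) h1
    rw [card_union_of_disjoint (by rw [disjoint_singleton_right]; exact hbY),
      card_singleton] at h2
    omega
  apply ill_of_links hΔ hYW hY hYnon hΔY (hΔ _ _ (empty_subset _) (hsing b))
  · intro R hR hΔR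
    exact hmax R (hR.trans sdiff_subset) (gam_face hΔR)
  intro R hR hΔR hRne
  have hRW : R ⊆ W := hR.trans sdiff_subset
  have hd : Disjoint Y R := disjoint_of_subset_right hR disjoint_sdiff
  set L : Finset V → Prop := fun G => Δ (G ∪ R) with hLdef
  have hL : ∀ G H : Finset V, H ⊆ G → L G → L H := fun G H h hG =>
    hΔ _ _ (union_subset_union h (Subset.refl _)) hG
  have hL0 : L ∅ := by simpa [hLdef] using hΔR
  have hRY : R.card ≤ Y.card := hmax R hRW (gam_face hΔR)
  obtain ⟨T₀, hT₀, hT₀max⟩ := exists_max_image (Y.powerset.filter (fun H => L H)) card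
    ⟨∅, mem_filter.2 ⟨mem_powerset.2 (empty_subset _), hL0⟩⟩
  obtain ⟨hT₀Y, hLT₀⟩ := mem_filter.1 hT₀
  rw [mem_powerset] at hT₀Y
  have hU : ∀ H ⊆ Y, L H → (T₀ ∪ H).card ≤ Y.card - R.card := by
    intro H hH hLH
    have h1 := hmax ((T₀ ∪ H) ∪ R) (union_subset (union_subset (hT₀Y.trans hYW)
      (hH.trans hYW)) hRW) (gam_union hY hT₀Y hH hd hLT₀ hLH)
    rw [card_union_of_disjoint (disjoint_of_subset_left (union_subset hT₀Y hH) hd)] at h1
    omega
  have hT₀q : T₀.card ≤ Y.card - R.card := by
    have := hU T₀ hT₀Y hLT₀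
    rwa [union_self] at this
  have hT₀f : T₀.card + R.card ≤ f := by
    have h1 := hf (T₀ ∪ R) (union_subset (hT₀Y.trans hYW) hRW) hLT₀
    rwa [card_union_of_disjoint (disjoint_of_subset_left hT₀Y hd)] at h1
  have hRY' : R.card + Y.card ≤ W.card := by
    rw [add_comm, ← card_union_of_disjoint hd]
    exact card_le_card (union_subset hYW hRW)
  have hn := hnum R.card T₀.card (Y.card - R.card - T₀.card) (card_pos.2 hRne) (by omega) hT₀f hRY'
  have hs := shat_struct (L := L) (M := Y) (T₀ := T₀) (j := Y.card - R.card - T₀.card) hT₀Y (by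
    intro H hH hLH
    refine ⟨hT₀max H (mem_filter.2 ⟨mem_powerset.2 hH, hLH⟩), ?_⟩
    have h1 := hU H hH hLH
    have h2 : (T₀ ∪ H).card = T₀.card + (H \ T₀).card := by
      rw [← union_sdiff_self_eq_union, card_union_of_disjoint disjoint_sdiff]
    omega) (by
    have : Y.card - T₀.card = R.card + (Y.card - R.card - T₀.card) := by omega
    rw [this]
    exact hn)
  have : T₀.card + (Y.card - R.card - T₀.card) = Y.card - R.card := by omega
  rwa [this] at hs

end Pool.Agent.Lib.MP_5e7226_co.Unc
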