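import Pool.Agent.Lib.MP_5e7226_co.UncS2

set_option autoImplicit false
set_option linter.unusedSectionVars false

namespace Pool.Agent.Lib.MP_5e7226_co.Unc

open Finset

/-- the number of the sets `(T₀ \ B) ∪ W` -/
def Sn (d b j : ℕ) : ℕ := ∑ w ∈ range (j + 1), d.choose w * b.choose w

lemma Sn_mono {d d' b b' j : ℕ} (hd : d ≤ d') (hb : b ≤ b') : Sn d b j ≤ Sn d' b' j :=
  sum_le_sum (fun w _ => Nat.mul_le_mul (Nat.choose_le_choose w hd) (Nat.choose_le_choose w hb))

lemma sum_choose_le (d j : ℕ) : ∑ w ∈ range j, d.choose w ≤ 2 ^ d := by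
  rw [← Nat.sum_range_choose]
  rcases le_total j (d + 1) with h | h
  · exact sum_le_sum_of_subset (range_subset_range.2 h)
  · rw [← sum_subset (range_subset_range.2 h)]
    intro w _ hw
    rw [mem_range, not_lt] at hw
    exact Nat.choose_eq_zero_of_lt hw

lemma Sn_le_two_pow (d b j : ℕ) : Sn d b j ≤ 2 ^ (d + b) := by
  calc Sn d b j ≤ ∑ w ∈ range (j + 1), d.choose w * 2 ^ b :=
        sum_le_sum (fun w _ => Nat.mul_le_mul_left _ (Nat.choose_le_two_pow b w))
    _ = (∑ w ∈ range (j + 1), d.choose w) * 2 ^ b := (sum_mul _ _ _).symm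
    _ ≤ 2 ^ d * 2 ^ b := Nat.mul_le_mul_right _ (sum_choose_le d _)
    _ = 2 ^ (d + b) := (pow_add _ _ _).symm

lemma Sn_le_pow (d b j : ℕ) : Sn d b j ≤ (1 + d * b) ^ j := by
  rw [add_comm 1, add_pow]
  apply sum_le_sum
  intro w hw
  have hwj : w ≤ j := Nat.lt_succ_iff.1 (mem_range.1 hw)
  rw [one_pow, mul_one, mul_pow]
  calc d.choose w * b.choose w ≤ d ^ w * b ^ w :=
        Nat.mul_le_mul (Nat.choose_le_pow d w) (Nat.choose_le_pow b w)
    _ = d ^ w * b ^ w * 1 := (mul_one _).symm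
    _ ≤ d ^ w * b ^ w * (j.choose w : ℕ) :=
        Nat.mul_le_mul_left _ (Nat.choose_pos hwj)

lemma exp_nat_ge {N n : ℕ} (h : (N : ℝ) ≤ (2.7182818283 : ℝ) ^ n) : (N : ℝ) ≤ Real.exp n := by
  refine h.trans ?_
  rw [← Real.exp_one_pow]
  exact pow_le_pow_left₀ (by norm_num) Real.exp_one_gt_d9.le n

lemma exp_two_pow_mono {j j' : ℕ} (h : j ≤ j') :
    Real.exp ((2 ^ j - 1 : ℕ) : ℝ) ≤ Real.exp ((2 ^ j' - 1 : ℕ) : ℝ) := by
  apply Real.exp_le_exp.2
  exact_mod_cast Nat.sub_le_sub_right (Nat.pow_le_pow_right (by norm_num) h) 1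

/-- the same number, in a form that is quick to evaluate -/
def Sq (d b j : ℕ) : ℕ := ∑ w ∈ range (j + 1), d.descFactorial w / w.factorial *
    (b.descFactorial w / w.factorial)

lemma Sn_eq (d b j : ℕ) : Sn d b j = Sq d b j :=
  sum_congr rfl (fun w _ => by
    rw [Nat.choose_eq_descFactorial_div_factorial, Nat.choose_eq_descFactorial_div_factorial])

lemma num_a5 : ∀ k < 80, Sq (159 - 2 * k) (k + 5) 5 ≤ 29048849000000 := by decide +kernel

lemma num_a6 : ∀ k < 80, Sq (158 - 2 * k) (k + 6) 6 ≤ 2293783000000000000000000000 := by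
  decide +kernel

lemma num_b5 : ∀ k < 115, Sq (114 - k) (k + 5) 5 ≤ 29048849000000 := by decide +kernel

lemma num_b6 : ∀ k < 115, Sq (114 - k) (k + 6) 6 ≤ 2293783000000000000000000000 := by
  decide +kernel

lemma exp31 : ((29048849000000 : ℕ) : ℝ) ≤ Real.exp ((2 ^ 5 - 1 : ℕ) : ℝ) := by
  apply exp_nat_ge
  norm_num

lemma exp63 : ((2293783000000000000000000000 : ℕ) : ℝ) ≤ Real.exp ((2 ^ 6 - 1 : ℕ) : ℝ) := by
  apply exp_nat_ge
  norm_num

/-- at most 164 elements -/
lemma num_card {k d j : ℕ} (hj : 5 ≤ j) (h : d + 2 * k + j ≤ 164) :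
    (Sn d (k + j) j : ℝ) ≤ Real.exp ((2 ^ j - 1 : ℕ) : ℝ) := by
  rcases Nat.lt_or_ge j 7 with h7 | h7
  · obtain rfl | rfl : j = 5 ∨ j = 6 := by omega
    · refine le_trans ?_ exp31
      have h1 : Sn d (k + 5) 5 ≤ Sn (159 - 2 * k) (k + 5) 5 := Sn_mono (by omega) le_rfl
      have h2 := num_a5 k (by omega)
      rw [← Sn_eq] at h2
      exact_mod_cast h1.trans h2
    · refine le_trans ?_ exp63
      have h1 : Sn d (k + 6) 6 ≤ Sn (158 - 2 * k) (k + 6) 6 := Sn_mono (by omega) le_rfl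
      have h2 := num_a6 k (by omega)
      rw [← Sn_eq] at h2
      exact_mod_cast h1.trans h2
  · refine le_trans ?_ (exp_two_pow_mono h7)
    have h1 : Sn d (k + j) j ≤ 2 ^ 164 := (Sn_le_two_pow _ _ _).trans
      (Nat.pow_le_pow_right (by norm_num) (by omega))
    have h2 : ((2 ^ 164 : ℕ) : ℝ) ≤ Real.exp ((2 ^ 7 - 1 : ℕ) : ℝ) := by
      apply exp_nat_ge
      norm_num
    exact le_trans (by exact_mod_cast h1) h2

/-- faces of at most 114 elements -/
lemma num_face {k d j : ℕ} (hj : 5 ≤ j) (h : d + k ≤ 114) :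
    (Sn d (k + j) j : ℝ) ≤ Real.exp ((2 ^ j - 1 : ℕ) : ℝ) := by
  rcases Nat.lt_or_ge j 7 with h7 | h7
  · obtain rfl | rfl : j = 5 ∨ j = 6 := by omega
    · refine le_trans ?_ exp31
      have h1 : Sn d (k + 5) 5 ≤ Sn (114 - k) (k + 5) 5 := Sn_mono (by omega) le_rfl
      have h2 := num_b5 k (by omega)
      rw [← Sn_eq] at h2
      exact_mod_cast h1.trans h2
    · refine le_trans ?_ exp63
      have h1 : Sn d (k + 6) 6 ≤ Sn (114 - k) (k + 6) 6 := Sn_mono (by omega) le_rfl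
      have h2 := num_b6 k (by omega)
      rw [← Sn_eq] at h2
      exact_mod_cast h1.trans h2
  · have h1 : Sn d (k + j) j ≤ 2 ^ (114 + j) := (Sn_le_two_pow _ _ _).trans
      (Nat.pow_le_pow_right (by norm_num) (by omega))
    have h2 : ((2 ^ (114 + j) : ℕ) : ℝ) ≤ Real.exp ((2 ^ j - 1 : ℕ) : ℝ) := by
      clear hj h h1
      induction j, h7 using Nat.le_induction with
      | base =>
        apply exp_nat_ge
        norm_num
      | succ j hj ih =>
        have e1 : ((2 ^ (114 + (j + 1)) : ℕ) : ℝ) = 2 * ((2 ^ (114 + j) : ℕ) : ℝ) := by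
          push_cast
          ring
        have e2 : ((2 ^ (j + 1) - 1 : ℕ) : ℝ) = ((2 ^ j - 1 : ℕ) : ℝ) + 2 ^ j := by
          have h3 : 1 ≤ 2 ^ j := Nat.one_le_two_pow
          have h4 : 1 ≤ 2 ^ (j + 1) := Nat.one_le_two_pow
          rw [Nat.cast_sub h3, Nat.cast_sub h4]
          push_cast
          ring
        rw [e1, e2, Real.exp_add]
        have h5 : (2 : ℝ) ≤ Real.exp (2 ^ j) := by
          have h6 := Real.add_one_le_exp ((2 : ℝ) ^ j)
          have h7 : (1 : ℝ) ≤ 2 ^ j := one_le_pow₀ (by norm_num)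
          linarith
        have h6 := Real.exp_pos ((2 ^ j - 1 : ℕ) : ℝ)
        nlinarith
    exact le_trans (by exact_mod_cast h1) h2

/-- the double logarithm -/
lemma num_log {k d j s u : ℕ} (hs : 1 ≤ s) (hsj : s ≤ j) (hu : d + k + j = u)
    (h : (u ^ 2 + 4) ^ s ≤ 2 ^ (2 ^ s + 2 * s - 1)) :
    (Sn d (k + j) j : ℝ) ≤ Real.exp ((2 ^ j - 1 : ℕ) : ℝ) := by
  have h1 : (Sn d (k + j) j : ℝ) ≤ (((u : ℝ) ^ 2 + 4) / 4) ^ j := by
    have h2 : (Sn d (k + j) j : ℝ) ≤ (1 + (d : ℝ) * (k + j)) ^ j := by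
      exact_mod_cast Sn_le_pow d (k + j) j
    refine h2.trans (pow_le_pow_left₀ (by positivity) ?_ j)
    have h3 : (u : ℝ) = d + (k + j) := by
      rw [← hu]; push_cast; ring
    rw [h3]
    nlinarith [sq_nonneg ((d : ℝ) - (k + j))]
  set x : ℝ := ((u : ℝ) ^ 2 + 4) / 4 with hx
  have hx1 : 1 ≤ x := by
    rw [hx]
    have := sq_nonneg (u : ℝ)
    linarith
  have hpow : ∀ i, s ≤ i → x ^ i ≤ 2 ^ (2 ^ i - 1) := by
    intro i hi
    induction i, hi using Nat.le_induction with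
    | base =>
      have h4 : (((u : ℝ) ^ 2 + 4)) ^ s ≤ 2 ^ (2 ^ s + 2 * s - 1) := by exact_mod_cast h
      have e : (2 : ℝ) ^ (2 ^ s + 2 * s - 1) = 2 ^ (2 ^ s - 1) * 4 ^ s := by
        rw [show (4 : ℝ) = 2 ^ 2 by norm_num, ← pow_mul, ← pow_add]
        congr 1
        have : 1 ≤ 2 ^ s := Nat.one_le_two_pow
        omega
      rw [hx, div_pow, div_le_iff₀ (by positivity), ← e]
      exact h4
    | succ i hi ih =>
      have h5 : x ≤ x ^ i := le_self_pow₀ hx1 (by omega)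
      have e : (2 : ℝ) ^ (2 ^ (i + 1) - 1) = 2 ^ (2 ^ i - 1) * 2 ^ (2 ^ i - 1) * 2 := by
        rw [← pow_add, ← pow_succ]
        congr 1
        have : 1 ≤ 2 ^ i := Nat.one_le_two_pow
        rw [pow_succ]
        omega
      have h6 : (0 : ℝ) < 2 ^ (2 ^ i - 1) := by positivity
      have h7 : x ≤ 2 ^ (2 ^ i - 1) := h5.trans ih
      calc x ^ (i + 1) = x ^ i * x := pow_succ _ _
        _ ≤ 2 ^ (2 ^ i - 1) * 2 ^ (2 ^ i - 1) := mul_le_mul ih h7 (by linarith) h6.le
        _ ≤ 2 ^ (2 ^ i - 1) * 2 ^ (2 ^ i - 1) * 2 := by nlinarith [mul_pos h6 h6]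
        _ = _ := e.symm
  refine h1.trans ((hpow j hsj).trans ?_)
  rw [← Real.exp_one_pow]
  apply pow_le_pow_left₀ (by norm_num)
  have := Real.exp_one_gt_d9
  linarith

variable {V : Type*} [Fintype V] [DecidableEq V]

/-- The numerical hypothesis on a clique `W`. -/
def Alt3 (Δ : Finset V → Prop) (W : Finset V) : Prop :=
  W.card ≤ 164 ∨ (∀ F, Δ F → (F ∩ W).card ≤ 114) ∨
    ∃ F₀, Δ F₀ ∧ ∃ Y ⊆ W, Gam Δ Y ∧ (∀ Z ⊆ W, Gam Δ Z → Z.card ≤ Y.card) ∧
      (∀ F, Δ F → (F ∩ W).card ≤ (F₀ ∩ W).card) ∧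
      (Y.card ≤ (F₀ ∩ W).card + 4 ∨ (Y.card ^ 2 + 4) ^ (Y.card - (F₀ ∩ W).card) ≤
        2 ^ (2 ^ (Y.card - (F₀ ∩ W).card) + 2 * (Y.card - (F₀ ∩ W).card) - 1))

/-- The clique case, strict. -/
lemma ill_clique3 {Δ : Finset V → Prop} (hΔ : ∀ G H : Finset V, H ⊆ G → Δ G → Δ H) (h0 : Δ ∅)
    (hsing : ∀ i, Δ {i})
    {W : Finset V} (hW : ∀ x ∈ W, ∀ y ∈ W, Δ {x, y}) (hgam : ¬ Gam Δ W) (hAlt : Alt3 Δ W) :
    Ill Δ W (2 ^ W.card - 1) := by
  classical
  obtain ⟨Y, hYW, hY, hmax⟩ := exists_max_gam Δ W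
  obtain ⟨F₀, hF₀, hF₀max⟩ := exists_max_image (W.powerset.filter (fun H => Δ H)) card
    ⟨∅, mem_filter.2 ⟨mem_powerset.2 (empty_subset _), h0⟩⟩
  obtain ⟨hFW, hF⟩ := mem_filter.1 hF₀
  rw [mem_powerset] at hFW
  have hf : ∀ F ⊆ W, Δ F → F.card ≤ F₀.card := fun F h1 h2 =>
    hF₀max F (mem_filter.2 ⟨mem_powerset.2 h1, h2⟩)
  have hne : F₀ ≠ W := by
    rintro rfl
    exact hgam (gam_face hF)
  by_cases hsmall : Y.card ≤ F₀.card + 4
  · exact ill_small hΔ hW hFW hF hne hf (fun Z hZ hGZ => (hmax Z hZ hGZ).trans hsmall)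
  push Not at hsmall
  apply ill_large hΔ hsing hW hgam hYW hY hmax hf
  intro k d j hk hu hdk hkW
  show ((Sn d (k + j) j : ℕ) : ℝ) ≤ _
  rcases hAlt with h1 | h1 | ⟨F₁, hF₁, Y₁, hY₁W, hY₁, hY₁max, hF₁max, h1⟩
  · exact num_card (by omega) (by omega)
  · have h2 := h1 F₀ hF
    rw [inter_eq_left.2 hFW] at h2
    exact num_face (by omega) (by omega)
  · have e1 : Y₁.card = Y.card :=
      le_antisymm (hmax Y₁ hY₁W hY₁) (hY₁max Y hYW hY)
    have e2 : (F₁ ∩ W).card = F₀.card := by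
      apply le_antisymm
      · exact hf _ inter_subset_right (hΔ _ _ inter_subset_left hF₁)
      · have := hF₁max F₀ hF
        rwa [inter_eq_left.2 hFW] at this
    rw [e1, e2] at h1
    rcases h1 with h1 | h1
    · omega
    · exact num_log (s := Y.card - F₀.card) (by omega) (by omega) hu h1

/-- Main combinatorial theorem, with the weaker hypothesis on the cliques. -/
theorem unc_main3 {Δ : Finset V → Prop} (hΔ : ∀ G H : Finset V, H ⊆ G → Δ G → Δ H)
    (h0 : Δ ∅) (hsing : ∀ i, Δ {i})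
    (hgood : ∀ W : Finset V, (∀ x ∈ W, ∀ y ∈ W, Δ {x, y}) → ¬ Gam Δ W → Alt3 Δ W) (k : ℕ) :
    ∀ W : Finset V, W.card = k →
      Ill Δ W (2 ^ k) ∧ (Ill Δ W (2 ^ k - 1) ∨ CubeLike Δ W) := by
  classical
  induction k with
  | zero =>
    intro W hW
    rw [card_eq_zero] at hW
    subst hW
    have hill := scheme (Δ := Δ) (Y := ∅) (T := ∅) (disjoint_empty_left _) (gam_empty Δ)
      (fun _ => 1) (fun R _ _ => by simpa using shat_powerset (fun G => Δ (G ∪ R)) ∅) hΔ
    refine ⟨?_, Or.inr ⟨∅, ∅, id, by simp, by simp, by simp, by simp, ?_⟩⟩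
    · rw [union_empty] at hill
      apply hill.mono
      simp [filter_singleton, h0]
    · intro F hF
      rw [subset_empty] at hF
      subst hF
      simp [h0]
  | succ k ih =>
    intro W hW
    by_cases hcl : ∀ x ∈ W, ∀ y ∈ W, Δ {x, y}
    · by_cases hgam : Gam Δ W
      · have hsimple : ∀ N, Shat (fun G => Δ G) W N → Ill Δ W N := by
          intro N hN
          have hill := scheme (Δ := Δ) (Y := W) (T := ∅) (disjoint_empty_right _) hgam
            (fun _ => N) (fun R hR _ => by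
              rw [subset_empty] at hR
              subst hR
              simpa using hN) hΔ
          rw [union_empty] at hill
          apply hill.mono
          simp [filter_singleton, h0]
        refine ⟨?_, ?_⟩
        · apply hsimple
          rw [← hW]
          exact shat_powerset _ W
        · by_cases hΔW : Δ W
          · right
            refine ⟨∅, W, id, by simp, by simp, by simp, by simp, ?_⟩
            intro F hF
            simp [hΔ W F hF hΔW]
          · left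
            apply hsimple
            have := shat_even (L := fun G => Δ G) hΔW (card_pos.1 (by omega))
            apply this.mono
            rw [hW, Nat.add_sub_cancel, pow_succ]
            have : 0 < 2 ^ k := by positivity
            omega
      · have hill := ill_clique3 hΔ h0 hsing hcl hgam (hgood W hcl hgam)
        rw [hW] at hill
        exact ⟨hill.mono (Nat.sub_le _ _), Or.inl hill⟩
    · push Not at hcl
      obtain ⟨i, hi, j, hj, hij⟩ := hcl
      obtain ⟨a1, a2⟩ := ih (W.erase i) (by rw [card_erase_of_mem hi, hW, Nat.add_sub_cancel])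
      obtain ⟨b1, b2⟩ := ih (W.erase j) (by rw [card_erase_of_mem hj, hW, Nat.add_sub_cancel])
      have hp : 0 < 2 ^ k := by positivity
      have e1 : 2 ^ (k + 1) = 2 ^ k + 2 ^ k := by rw [pow_succ]; ring
      refine ⟨by rw [e1]; exact Ill.conflict hΔ hij a1 b1, ?_⟩
      rcases a2 with a2 | a2
      · left
        exact (Ill.conflict hΔ hij a2 b1).mono (by omega)
      · rcases b2 with b2 | b2
        · left
          exact (Ill.conflict hΔ hij a1 b2).mono (by omega)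
        · rw [← hW]
          apply flag_case hΔ h0
          intro C hC hclq
          by_cases hiC : i ∈ C
          · have hjC : j ∉ C := fun hjC => hij (hclq i hiC j hjC)
            exact b2.flag C (fun x hx => mem_erase.2 ⟨fun e => hjC (e ▸ hx), hC hx⟩) hclq
          · exact a2.flag C (fun x hx => mem_erase.2 ⟨fun e => hiC (e ▸ hx), hC hx⟩) hclq

end Pool.Agent.Lib.MP_5e7226_co.Unc
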