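import Pool.Agent.Lib.MP_5e7226_co.UncS3
import Pool.Agent.Lib.MP_5e7226_co.UncFinal

set_option autoImplicit false
set_option linter.unusedSectionVars false
open scoped InnerProductSpace

namespace Pool.Agent.Lib.MP_5e7226_co.Unc

open Finset

lemma KC_Dn {d : ℕ} (𝓕 : Set (Finset (Fin d))) :
    KC (Dn 𝓕) = {c | ∀ F ∈ 𝓕, ∑ i ∈ F, |c i| ≤ 1} := by
  ext c
  constructor
  · intro h F hF
    exact h F (Or.inr ⟨F, hF, Subset.refl _⟩)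
  · intro h F hF
    rcases hF with rfl | ⟨F', hF', hsub⟩
    · simp
    · exact (sum_le_sum_of_subset_of_nonneg hsub (fun _ _ _ => abs_nonneg _)).trans (h F' hF')

lemma Dn_sing {d : ℕ} {𝓕 : Set (Finset (Fin d))} (hcov : ∀ i, ∃ F ∈ 𝓕, i ∈ F) (i : Fin d) :
    Dn 𝓕 {i} := by
  obtain ⟨F, hF, hi⟩ := hcov i
  exact Or.inr ⟨F, hF, by simpa using hi⟩

/-- The combinatorial theorem for a family. -/
theorem unc_ill3 {d : ℕ} (𝓕 : Set (Finset (Fin d))) (hcov : ∀ i, ∃ F ∈ 𝓕, i ∈ F)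
    (hW : ∀ W : Finset (Fin d), (∀ i ∈ W, ∀ j ∈ W, ∃ F ∈ 𝓕, i ∈ F ∧ j ∈ F) →
      W.card ≤ 164 ∨ (∀ F ∈ 𝓕, (F ∩ W).card ≤ 114) ∨
        ∃ F₀ ∈ 𝓕, ∃ Y ⊆ W,
          (∀ c : Fin d → ℝ, (∀ F ∈ 𝓕, ∑ i ∈ F, |c i| ≤ 1) → ∑ i ∈ Y, |c i| < 2) ∧
          (∀ Z ⊆ W, (∀ c : Fin d → ℝ, (∀ F ∈ 𝓕, ∑ i ∈ F, |c i| ≤ 1) → ∑ i ∈ Z, |c i| < 2) →
            Z.card ≤ Y.card) ∧
          (∀ F ∈ 𝓕, (F ∩ W).card ≤ (F₀ ∩ W).card) ∧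
          (Y.card ≤ (F₀ ∩ W).card + 4 ∨ (Y.card ^ 2 + 4) ^ (Y.card - (F₀ ∩ W).card) ≤
            2 ^ (2 ^ (Y.card - (F₀ ∩ W).card) + 2 * (Y.card - (F₀ ∩ W).card) - 1))) :
    Ill (Dn 𝓕) univ (2 ^ d) ∧ (Ill (Dn 𝓕) univ (2 ^ d - 1) ∨ CubeLike (Dn 𝓕) univ) := by
  classical
  have hKC : KC (Dn 𝓕) = {c | ∀ F ∈ 𝓕, ∑ i ∈ F, |c i| ≤ 1} := by
    ext c
    constructor
    · intro h F hF
      exact h F (Or.inr ⟨F, hF, Subset.refl _⟩)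
    · intro h F hF
      rcases hF with rfl | ⟨F', hF', hsub⟩
      · simp
      · exact (sum_le_sum_of_subset_of_nonneg hsub (fun _ _ _ => abs_nonneg _)).trans (h F' hF')
  have hmono : ∀ G H : Finset (Fin d), H ⊆ G → Dn 𝓕 G → Dn 𝓕 H := by
    intro G H hHG hG
    rcases hG with rfl | ⟨F', hF', hsub⟩
    · exact Or.inl (subset_empty.1 hHG)
    · exact Or.inr ⟨F', hF', hHG.trans hsub⟩
  have hsing : ∀ i, Dn 𝓕 {i} := by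
    intro i
    obtain ⟨F, hF, hi⟩ := hcov i
    exact Or.inr ⟨F, hF, by simpa using hi⟩
  have hpair : ∀ i j, Dn 𝓕 {i, j} ↔ ∃ F ∈ 𝓕, i ∈ F ∧ j ∈ F := by
    intro i j
    constructor
    · rintro (h | ⟨F, hF, h⟩)
      · exact absurd h (insert_ne_empty _ _)
      · exact ⟨F, hF, h (by simp), h (by simp)⟩
    · rintro ⟨F, hF, hi, hj⟩
      refine Or.inr ⟨F, hF, ?_⟩
      intro x hx
      rcases mem_insert.1 hx with rfl | hx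
      · exact hi
      · rw [mem_singleton.1 hx]; exact hj
  have hG : ∀ Y : Finset (Fin d), Gam (Dn 𝓕) Y ↔
      ∀ c : Fin d → ℝ, (∀ F ∈ 𝓕, ∑ i ∈ F, |c i| ≤ 1) → ∑ i ∈ Y, |c i| < 2 := by
    intro Y
    constructor
    · intro h c hc
      apply h c
      rw [hKC]
      exact hc
    · intro h c hc
      rw [hKC] at hc
      exact h c hc
  have hcap : ∀ (W : Finset (Fin d)) (m : ℕ), (∀ F ∈ 𝓕, (F ∩ W).card ≤ m) →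
      ∀ F, Dn 𝓕 F → (F ∩ W).card ≤ m := by
    rintro W m h F (rfl | ⟨F', hF', hsub⟩)
    · simp
    · exact (card_le_card (inter_subset_inter_right hsub)).trans (h F' hF')
  have hmain := unc_main3 (Δ := Dn 𝓕) hmono (Or.inl rfl) hsing (by
      intro W hcl hgam
      rcases hW W (fun i hi j hj => (hpair i j).1 (hcl i hi j hj)) with
        h | h | ⟨F₀, hF₀, Y, hY, hYg, hYmax, hF₀max, h⟩
      · exact Or.inl h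
      · exact Or.inr (Or.inl (hcap W 114 h))
      · refine Or.inr (Or.inr ⟨F₀, Or.inr ⟨F₀, hF₀, Subset.refl _⟩, Y, hY, (hG Y).2 hYg, ?_,
          hcap W _ hF₀max, h⟩)
        intro Z hZ hZg
        exact hYmax Z hZ ((hG Z).1 hZg)) d univ (by simp)
  exact hmain

/-- Final form. -/
theorem unc_final3 {d : ℕ} (b : Fin d → EuclideanSpace ℝ (Fin d)) (hb : LinearIndependent ℝ b)
    (o : EuclideanSpace ℝ (Fin d)) (𝓕 : Set (Finset (Fin d))) (hcov : ∀ i, ∃ F ∈ 𝓕, i ∈ F)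
    (K : Set (EuclideanSpace ℝ (Fin d)))
    (hK : K = {x | ∃ c : Fin d → ℝ, x = o + ∑ i, c i • b i ∧ ∀ F ∈ 𝓕, ∑ i ∈ F, |c i| ≤ 1})
    (hW : ∀ W : Finset (Fin d), (∀ i ∈ W, ∀ j ∈ W, ∃ F ∈ 𝓕, i ∈ F ∧ j ∈ F) →
      W.card ≤ 164 ∨ (∀ F ∈ 𝓕, (F ∩ W).card ≤ 114) ∨
        ∃ F₀ ∈ 𝓕, ∃ Y ⊆ W,
          (∀ c : Fin d → ℝ, (∀ F ∈ 𝓕, ∑ i ∈ F, |c i| ≤ 1) → ∑ i ∈ Y, |c i| < 2) ∧
          (∀ Z ⊆ W, (∀ c : Fin d → ℝ, (∀ F ∈ 𝓕, ∑ i ∈ F, |c i| ≤ 1) → ∑ i ∈ Z, |c i| < 2) →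
            Z.card ≤ Y.card) ∧
          (∀ F ∈ 𝓕, (F ∩ W).card ≤ (F₀ ∩ W).card) ∧
          (Y.card ≤ (F₀ ∩ W).card + 4 ∨ (Y.card ^ 2 + 4) ^ (Y.card - (F₀ ∩ W).card) ≤
            2 ^ (2 ^ (Y.card - (F₀ ∩ W).card) + 2 * (Y.card - (F₀ ∩ W).card) - 1))) :
    (∃ w : Fin (2 ^ d) → EuclideanSpace ℝ (Fin d), ∃ b : Fin (2 ^ d) → ℝ,
          ∀ u x₀ : EuclideanSpace ℝ (Fin d), u ≠ 0 → x₀ ∈ K →
            (∀ y ∈ K, ⟪u, y⟫_ℝ ≤ ⟪u, x₀⟫_ℝ) →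
              ∃ i, ⟪w i, o⟫_ℝ < b i ∧
                ∀ x ∈ K, ⟪u, x⟫_ℝ = ⟪u, x₀⟫_ℝ → b i < ⟪w i, x⟫_ℝ) ∧
        ((¬ ∃ w : Fin (2 ^ d - 1) → EuclideanSpace ℝ (Fin d), ∃ b : Fin (2 ^ d - 1) → ℝ,
          ∀ u x₀ : EuclideanSpace ℝ (Fin d), u ≠ 0 → x₀ ∈ K →
            (∀ y ∈ K, ⟪u, y⟫_ℝ ≤ ⟪u, x₀⟫_ℝ) →
              ∃ i, ⟪w i, o⟫_ℝ < b i ∧
                ∀ x ∈ K, ⟪u, x⟫_ℝ = ⟪u, x₀⟫_ℝ → b i < ⟪w i, x⟫_ℝ) →
          ∃ v : Fin d → EuclideanSpace ℝ (Fin d), ∃ t : Fin d → ℝ,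
            LinearIndependent ℝ v ∧ (∀ i, 0 < t i) ∧
              K = convexHull ℝ (⋃ i, ({o + v i, o - t i • v i} :
                Set (EuclideanSpace ℝ (Fin d))))) := by
  classical
  -- coordinates
  let B : Module.Basis (Fin d) ℝ (EuclideanSpace ℝ (Fin d)) :=
    basisOfLinearIndependentOfCardEqFinrank' b hb (by simp)
  have hB : ∀ i, B i = b i := by
    intro i; simp [B]
  let T : EuclideanSpace ℝ (Fin d) ≃L[ℝ] (Fin d → ℝ) := B.equivFunL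
  have hTs : ∀ c : Fin d → ℝ, T.symm c = ∑ i, c i • b i := by
    intro c
    have : T.symm c = ∑ i, c i • B i := by
      show B.equivFun.symm c = _
      exact B.equivFun_symm_apply c
    rw [this]
    simp only [hB]
  have hKC := KC_Dn 𝓕
  have hmain := unc_ill3 𝓕 hcov hW
  refine geom_final (Dn_sing hcov) T o K ?_ hmain.1 hmain.2
  rw [hK, hKC]
  ext x
  constructor
  · rintro ⟨c, hx, hc⟩
    show T (x - o) ∈ {c : Fin d → ℝ | ∀ F ∈ 𝓕, ∑ i ∈ F, |c i| ≤ 1}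
    have : x - o = T.symm c := by rw [hTs, hx]; abel
    rw [this, T.apply_symm_apply]
    exact hc
  · intro hx
    refine ⟨T (x - o), ?_, hx⟩
    rw [← hTs, T.symm_apply_apply]
    abel

end Pool.Agent.Lib.MP_5e7226_co.Unc
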