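import Pool.Agent.Lib.MP_5e7226_co.UncGrid

set_option autoImplicit false
set_option linter.unusedSectionVars false

namespace Pool.Agent.Lib.MP_5e7226_co.Unc

open Finset

variable {V : Type*} [Fintype V] [DecidableEq V]

/-- The unconditional body in coordinates: all sums of `|c i|` over members of `Δ` are at most 1. -/
def KC (Δ : Finset V → Prop) : Set (V → ℝ) := {c | ∀ F, Δ F → ∑ i ∈ F, |c i| ≤ 1}

/-- sign vector of a set -/
def sg (P : Finset V) (i : V) : ℝ := if i ∈ P then 1 else -1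

/-- `Gam Δ W`: the coordinates in `W` sum to less than 2 on the body. -/
def Gam (Δ : Finset V → Prop) (W : Finset V) : Prop := ∀ c ∈ KC Δ, ∑ i ∈ W, |c i| < 2

/-- `Ill Δ W N`: `N` vectors serve all signed faces inside `W`. -/
def Ill (Δ : Finset V → Prop) (W : Finset V) (N : ℕ) : Prop :=
  ∃ S : Finset (V → ℝ), S.card ≤ N ∧ ∀ F ⊆ W, Δ F → ∀ P : Finset V,
    ∃ v ∈ S, ∀ c ∈ KC Δ, ∑ i ∈ F, sg P i * c i = 1 → 0 < ∑ i, v i * c i

omit [Fintype V] in
lemma sg_mul_le (P : Finset V) (i : V) (x : ℝ) : sg P i * x ≤ |x| := by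
  unfold sg
  split_ifs
  · simpa using le_abs_self x
  · simpa using neg_le_abs x

omit [Fintype V] in
lemma neg_le_sg_mul (P : Finset V) (i : V) (x : ℝ) : -|x| ≤ sg P i * x := by
  unfold sg
  split_ifs
  · simpa using neg_abs_le x
  · have := le_abs_self x
    simp only [neg_mul, one_mul]
    linarith

lemma Ill.mono {Δ : Finset V → Prop} {W : Finset V} {N N' : ℕ} (h : Ill Δ W N) (hN : N ≤ N') :
    Ill Δ W N' := by
  obtain ⟨S, hS, h⟩ := h
  exact ⟨S, hS.trans hN, h⟩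

/-- The conflict step. -/
lemma Ill.conflict {Δ : Finset V → Prop} (hΔ : ∀ G H : Finset V, H ⊆ G → Δ G → Δ H)
    {W : Finset V} {i j : V} (hij : ¬ Δ {i, j}) {N₁ N₂ : ℕ}
    (h1 : Ill Δ (W.erase i) N₁) (h2 : Ill Δ (W.erase j) N₂) : Ill Δ W (N₁ + N₂) := by
  classical
  obtain ⟨S₁, hS₁, k1⟩ := h1
  obtain ⟨S₂, hS₂, k2⟩ := h2
  refine ⟨S₁ ∪ S₂, (card_union_le _ _).trans (Nat.add_le_add hS₁ hS₂), ?_⟩
  intro F hF hΔF P
  have hcase : i ∉ F ∨ j ∉ F := by
    by_contra hcon
    push Not at hcon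
    apply hij
    refine hΔ F _ ?_ hΔF
    intro x hx
    rcases mem_insert.1 hx with rfl | hx
    · exact hcon.1
    · rw [mem_singleton.1 hx]; exact hcon.2
  rcases hcase with hi | hj
  · obtain ⟨v, hv, h⟩ := k1 F (by
      intro x hx
      exact mem_erase.2 ⟨fun e => hi (e ▸ hx), hF hx⟩) hΔF P
    exact ⟨v, mem_union_left _ hv, h⟩
  · obtain ⟨v, hv, h⟩ := k2 F (by
      intro x hx
      exact mem_erase.2 ⟨fun e => hj (e ▸ hx), hF hx⟩) hΔF P
    exact ⟨v, mem_union_right _ hv, h⟩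

/-- The scheme. -/
lemma scheme {Δ : Finset V → Prop}
    {Y T : Finset V} (hd : Disjoint Y T) (hY : Gam Δ Y) (N : Finset V → ℕ)
    (hN : ∀ R ⊆ T, Δ R → Shat (fun G => Δ (G ∪ R)) Y (N R))
    (hΔ : ∀ G H : Finset V, H ⊆ G → Δ G → Δ H) [DecidablePred Δ] :
    Ill Δ (Y ∪ T) (∑ R ∈ T.powerset.filter (fun R => Δ R), 2 ^ R.card * N R) := by
  classical
  have hN' : ∀ R : Finset V, ∃ D : Finset (Finset V), (R ⊆ T ∧ Δ R) → (D.card ≤ N R ∧
      ∀ G ⊆ Y, Δ (G ∪ R) → ∀ A ⊆ G, ∃ X ∈ D, X ∩ G = A) := by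
    intro R
    by_cases h : R ⊆ T ∧ Δ R
    · obtain ⟨D, h1, h2⟩ := hN R h.1 h.2
      exact ⟨D, fun _ => ⟨h1, h2⟩⟩
    · exact ⟨∅, fun h' => absurd h' h⟩
  choose D hD using hN'
  let vec : Finset V → Finset V → Finset V → V → ℝ := fun R Q X i =>
    if i ∈ R then 2 * sg Q i else if i ∈ Y then sg X i else 0
  refine ⟨(T.powerset.filter (fun R => Δ R)).biUnion (fun R => R.powerset.biUnion
    (fun Q => (D R).image (fun X => vec R Q X))), ?_, ?_⟩
  · refine card_biUnion_le.trans ?_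
    apply sum_le_sum
    intro R hR
    obtain ⟨h1, h2⟩ := mem_filter.1 hR
    refine card_biUnion_le.trans ?_
    calc ∑ Q ∈ R.powerset, ((D R).image (fun X => vec R Q X)).card
        ≤ ∑ _Q ∈ R.powerset, N R := by
          apply sum_le_sum
          intro Q _
          exact card_image_le.trans (hD R ⟨mem_powerset.1 h1, h2⟩).1
      _ = 2 ^ R.card * N R := by rw [sum_const, card_powerset, smul_eq_mul]
  · intro F hF hΔF P
    have hRT : F ∩ T ⊆ T := inter_subset_right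
    have hGY : F ∩ Y ⊆ Y := inter_subset_right
    have hΔR : Δ (F ∩ T) := hΔ F _ inter_subset_left hΔF
    have hFu : (F ∩ Y) ∪ (F ∩ T) = F := by
      rw [← inter_union_distrib_left]; exact inter_eq_left.2 hF
    obtain ⟨X, hX, hXG⟩ := (hD (F ∩ T) ⟨hRT, hΔR⟩).2 (F ∩ Y) hGY (by rw [hFu]; exact hΔF)
      (P ∩ (F ∩ Y)) inter_subset_right
    refine ⟨vec (F ∩ T) (P ∩ (F ∩ T)) X, ?_, ?_⟩
    · refine mem_biUnion.2 ⟨F ∩ T, mem_filter.2 ⟨mem_powerset.2 hRT, hΔR⟩, ?_⟩
      refine mem_biUnion.2 ⟨P ∩ (F ∩ T), mem_powerset.2 inter_subset_right, ?_⟩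
      exact mem_image.2 ⟨X, hX, rfl⟩
    · intro c hc hsum
      have habs : ∀ i ∈ F, sg P i * c i = |c i| := by
        have h0 : ∑ i ∈ F, (|c i| - sg P i * c i) ≤ 0 := by
          rw [sum_sub_distrib, hsum]
          have := hc F hΔF
          linarith
        have hnn : ∀ i ∈ F, 0 ≤ |c i| - sg P i * c i := fun i _ => by
          have := sg_mul_le P i (c i); linarith
        have h1 : ∑ i ∈ F, (|c i| - sg P i * c i) = 0 := le_antisymm h0 (sum_nonneg hnn)
        intro i hi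
        have := (sum_eq_zero_iff_of_nonneg hnn).1 h1 i hi
        linarith
      have hFsum : ∑ i ∈ F, |c i| = 1 := by
        rw [← hsum]; exact sum_congr rfl (fun i hi => (habs i hi).symm)
      have hdGR : Disjoint (F ∩ Y) (F ∩ T) :=
        disjoint_of_subset_left inter_subset_right (disjoint_of_subset_right inter_subset_right hd)
      have hFsum' : ∑ i ∈ F ∩ Y, |c i| + ∑ i ∈ F ∩ T, |c i| = 1 := by
        rw [← sum_union hdGR, hFu, hFsum]
      have hsplit : ∑ i, vec (F ∩ T) (P ∩ (F ∩ T)) X i * c i =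
          ∑ i ∈ F ∩ T, 2 * |c i| + ∑ i ∈ Y, sg X i * c i := by
        have hdRY : Disjoint (F ∩ T) Y := (disjoint_of_subset_right inter_subset_right hd).symm
        have hz : ∀ i ∉ (F ∩ T) ∪ Y, vec (F ∩ T) (P ∩ (F ∩ T)) X i * c i = 0 := by
          intro i hi
          rw [mem_union, not_or] at hi
          simp only [vec, hi.1, hi.2, if_false, zero_mul]
        rw [← sum_subset (subset_univ ((F ∩ T) ∪ Y)) (fun i _ hi => hz i hi), sum_union hdRY]
        congr 1
        · apply sum_congr rfl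
          intro i hi
          have hiF : i ∈ F := (mem_inter.1 hi).1
          have e1 : sg (P ∩ (F ∩ T)) i = sg P i := by
            unfold sg
            by_cases hP : i ∈ P
            · rw [if_pos (mem_inter.2 ⟨hP, hi⟩), if_pos hP]
            · rw [if_neg (fun h => hP (mem_inter.1 h).1), if_neg hP]
          simp only [vec, hi, if_true]
          rw [e1, mul_assoc, habs i hiF]
        · apply sum_congr rfl
          intro i hi
          have : i ∉ F ∩ T := disjoint_right.1 hdRY hi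
          simp only [vec, this, hi, if_false, if_true]
      rw [hsplit, ← mul_sum]
      have hYsplit : ∑ i ∈ Y, sg X i * c i =
          ∑ i ∈ F ∩ Y, sg X i * c i + ∑ i ∈ Y \ (F ∩ Y), sg X i * c i := by
        rw [add_comm, sum_sdiff hGY]
      have hYabs : ∑ i ∈ Y, |c i| = ∑ i ∈ F ∩ Y, |c i| + ∑ i ∈ Y \ (F ∩ Y), |c i| := by
        rw [add_comm, sum_sdiff hGY]
      have hG : ∑ i ∈ F ∩ Y, sg X i * c i = ∑ i ∈ F ∩ Y, |c i| := by
        apply sum_congr rfl
        intro i hi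
        have e1 : sg X i = sg P i := by
          have h1 : i ∈ X ↔ i ∈ P := by
            constructor
            · intro h
              have : i ∈ X ∩ (F ∩ Y) := mem_inter.2 ⟨h, hi⟩
              rw [hXG] at this
              exact (mem_inter.1 this).1
            · intro h
              have : i ∈ P ∩ (F ∩ Y) := mem_inter.2 ⟨h, hi⟩
              rw [← hXG] at this
              exact (mem_inter.1 this).1
          unfold sg
          simp only [h1]
        rw [e1, habs i (mem_inter.1 hi).1]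
      have hrest : -∑ i ∈ Y \ (F ∩ Y), |c i| ≤ ∑ i ∈ Y \ (F ∩ Y), sg X i * c i := by
        rw [← sum_neg_distrib]
        exact sum_le_sum (fun i _ => neg_le_sg_mul X i (c i))
      have hgam := hY c hc
      rw [hYsplit, hG]
      linarith

lemma gam_empty (Δ : Finset V → Prop) : Gam Δ ∅ := by
  intro c _
  simp

lemma Gam.subset {Δ : Finset V → Prop} {Y Z : Finset V} (hY : Gam Δ Y) (h : Z ⊆ Y) : Gam Δ Z := by
  intro c hc
  exact (sum_le_sum_of_subset_of_nonneg h (fun _ _ _ => abs_nonneg _)).trans_lt (hY c hc)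

lemma gam_face {Δ : Finset V → Prop} {F : Finset V} (hF : Δ F) : Gam Δ F := by
  intro c hc
  have := hc F hF
  linarith

lemma exists_max_gam (Δ : Finset V → Prop) (W : Finset V) :
    ∃ Y ⊆ W, Gam Δ Y ∧ ∀ Z ⊆ W, Gam Δ Z → Z.card ≤ Y.card := by
  classical
  obtain ⟨Y, hY, hmax⟩ := exists_max_image (W.powerset.filter (fun Z => Gam Δ Z)) card
    ⟨∅, mem_filter.2 ⟨mem_powerset.2 (empty_subset _), gam_empty Δ⟩⟩
  obtain ⟨h1, h2⟩ := mem_filter.1 hY
  exact ⟨Y, mem_powerset.1 h1, h2, fun Z hZ hG =>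
    hmax Z (mem_filter.2 ⟨mem_powerset.2 hZ, hG⟩)⟩

/-- (F1) -/
lemma gam_union {Δ : Finset V → Prop} {Y G H R : Finset V} (hY : Gam Δ Y) (hG : G ⊆ Y) (hH : H ⊆ Y)
    (hd : Disjoint Y R) (hΔG : Δ (G ∪ R)) (hΔH : Δ (H ∪ R)) : Gam Δ ((G ∪ H) ∪ R) := by
  intro c hc
  have dG : Disjoint G R := disjoint_of_subset_left hG hd
  have dH : Disjoint H R := disjoint_of_subset_left hH hd
  have dGH : Disjoint (G ∪ H) R := disjoint_of_subset_left (union_subset hG hH) hd
  have h1 := hc _ hΔG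
  have h2 := hc _ hΔH
  rw [sum_union dG] at h1
  rw [sum_union dH] at h2
  rw [sum_union dGH]
  have h3 : ∑ i ∈ G ∪ H, |c i| ≤ ∑ i ∈ G, |c i| + ∑ i ∈ H, |c i| := by
    have := sum_union_inter (s₁ := G) (s₂ := H) (f := fun i => |c i|)
    have h4 : 0 ≤ ∑ i ∈ G ∩ H, |c i| := sum_nonneg (fun _ _ => abs_nonneg _)
    linarith
  have h5 : 0 ≤ ∑ i ∈ R, |c i| := sum_nonneg (fun _ _ => abs_nonneg _)
  have h6 : ∑ i ∈ G ∪ H, |c i| < 2 := (hY.subset (union_subset hG hH)) c hc
  by_contra hcon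
  push Not at hcon
  linarith

/-- (F2) -/
lemma gam_link {Δ : Finset V → Prop} {R F M : Finset V} (hR : Δ R) (hM : ∀ y ∈ M, Δ ({y} ∪ R))
    (hd : Disjoint M R) (hF : Δ F) : Gam Δ ((F ∩ M) ∪ R) := by
  intro c hc
  have d1 : Disjoint (F ∩ M) R := disjoint_of_subset_left inter_subset_right hd
  rw [sum_union d1]
  have h1 : ∑ i ∈ F ∩ M, |c i| ≤ 1 :=
    (sum_le_sum_of_subset_of_nonneg inter_subset_left (fun _ _ _ => abs_nonneg _)).trans (hc F hF)
  have h2 := hc R hR
  by_contra hcon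
  push Not at hcon
  have h3 : ∑ i ∈ R, |c i| = 1 := by linarith
  have h4 : ∀ y ∈ F ∩ M, |c y| ≤ 0 := by
    intro y hy
    have hyM : y ∈ M := (mem_inter.1 hy).2
    have := hc _ (hM y hyM)
    rw [sum_union (by
      rw [disjoint_singleton_left]
      exact disjoint_left.1 hd hyM), sum_singleton] at this
    linarith
  have h5 : ∑ i ∈ F ∩ M, |c i| ≤ 0 := sum_nonpos h4
  linarith

/-- (F3) -/
lemma gam_card {Δ : Finset V → Prop} {M : Finset V} {q : ℕ} (hM : Gam Δ M)
    (hne : M.Nonempty) (hq : ∀ F, Δ F → (F ∩ M).card ≤ q) (hsing : ∀ i, Δ {i}) :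
    M.card + 1 ≤ 2 * q := by
  obtain ⟨y, hy⟩ := hne
  have hq1 : 1 ≤ q := by
    have := hq {y} (hsing y)
    rwa [singleton_inter_of_mem hy, card_singleton] at this
  have hq0 : (0 : ℝ) < q := by exact_mod_cast hq1
  let c : V → ℝ := fun i => if i ∈ M then 1 / (q : ℝ) else 0
  have habs : ∀ i, |c i| = if i ∈ M then 1 / (q : ℝ) else 0 := by
    intro i
    simp only [c]
    split_ifs
    · rw [abs_of_nonneg (by positivity)]
    · simp
  have hsum : ∀ F : Finset V, ∑ i ∈ F, |c i| = (F ∩ M).card * (1 / (q : ℝ)) := by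
    intro F
    simp only [habs]
    rw [← sum_filter, sum_const, nsmul_eq_mul, filter_mem_eq_inter]
  have hc : c ∈ KC Δ := by
    intro F hF
    rw [hsum, mul_one_div, div_le_one hq0]
    exact_mod_cast hq F hF
  have := hM c hc
  rw [hsum, inter_self, mul_one_div, div_lt_iff₀ hq0] at this
  have h2 : M.card < 2 * q := by exact_mod_cast this
  omega

omit [Fintype V] in
lemma Shat.of_subset {L : Finset V → Prop} {M Y : Finset V} {N : ℕ} (h : Shat L M N)
    (hs : ∀ G ⊆ Y, L G → G ⊆ M) : Shat L Y N := by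
  obtain ⟨D, hD, h⟩ := h
  exact ⟨D, hD, fun G hG hLG A hA => h G (hs G hG hLG) hLG A hA⟩

end Pool.Agent.Lib.MP_5e7226_co.Unc
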