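import Pool.Agent.Lib.MP_5e7226_co.UncN4
import Pool.Agent.Lib.MP_5e7226_co.UncC2
import Pool.Agent.Lib.MP_5e7226_co.UncM6
import Pool.Agent.Lib.MP_5e7226_co.UncM7
import Pool.Agent.Lib.MP_5e7226_co.UncM12

set_option autoImplicit false

namespace Pool.Agent.Lib.MP_5e7226_co.Unc

open Finset UncM

theorem num_total : NumTotal := by
  intro i k m h n hi hk hn hnm hh
  rcases Nat.lt_or_ge i 7 with h7 | h7
  · obtain rfl : i = 6 := by omega
    exact num_total6 hk hn hnm hh
  · rcases Nat.lt_or_ge i 12 with h12 | h12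
    · exact num_total7_11 h7 (by omega) hk hn hnm hh
    · obtain ⟨α, β, h1, h2, h3⟩ := num_total12 h12 hk hn hnm hh
      exact ⟨α, β, h1, h2, h3.trans (by norm_num)⟩

/-- The code lemma for `|V₀| ≥ 6`. -/
theorem code_six (V : Type*) [Fintype V] [DecidableEq V] : CodeSix V :=
  fun _ _ _ _ _ hL _ hd hk hV hN hCL => shat_six num_total hL hd hk hV hN hCL

end Pool.Agent.Lib.MP_5e7226_co.Unc
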